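import Pool.Agent.SGT.Defs

/-!
# SGT: statements of the rows T (the field `𝕜`, algebraic over `C(u)`) and P (fields with enough
places)
-/

set_option autoImplicit false
set_option linter.unusedVariables false

open GT IsLocalRing Polynomial

noncomputable section

namespace SGT

/-- [T0] Extension of automorphisms to `𝕜`: every `Ψ` on `C` and every transcendental `u'`. -/
def st_T0 : Prop := ∀ (C 𝕜 : Type) [Field C] [CharZero C] [IsAlgClosed C] [Field 𝕜] [IsAlgClosed 𝕜]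
  [Algebra C 𝕜] (u u' : 𝕜), Transcendental C u → Transcendental C u' →
  (∀ z : 𝕜, IsAlgebraic (IntermediateField.adjoin C {u}) z) →
  (∀ z : 𝕜, IsAlgebraic (IntermediateField.adjoin C {u'}) z) → ∀ Ψ : C ≃+* C,
  ∃ σ : 𝕜 ≃+* 𝕜, (∀ c : C, σ (algebraMap C 𝕜 c) = algebraMap C 𝕜 (Ψ c)) ∧ σ u = u'

/-- [T2] Extension of `Ψ` to `𝕜`, fixing `u` and a place `W`. -/
def st_T2 : Prop := ∀ (C 𝕜 : Type) [Field C] [CharZero C] [IsAlgClosed C] [Field 𝕜] [IsAlgClosed 𝕜]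
  [Algebra C 𝕜] (u : 𝕜), Transcendental C u →
  (∀ z : 𝕜, IsAlgebraic (IntermediateField.adjoin C {u}) z) → ∀ W : ValuationSubring 𝕜,
  (∀ c : C, algebraMap C 𝕜 c ∈ W) → W ≠ ⊤ → ∀ Ψ : C ≃+* C,
  (∀ c : C, u - algebraMap C 𝕜 c ∈ W.nonunits → Ψ c = c) →
  ∃ σ : 𝕜 ≃+* 𝕜, (∀ c : C, σ (algebraMap C 𝕜 c) = algebraMap C 𝕜 (Ψ c)) ∧ σ u = u ∧
    ∀ z, σ z ∈ W ↔ z ∈ W

/-- [T1a] Finite levels of `𝕜 / C(u)` which are stable under `σ`. -/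
def st_T1a : Prop := ∀ (C 𝕜 : Type) [Field C] [CharZero C] [IsAlgClosed C] [Field 𝕜] [IsAlgClosed 𝕜]
  [Algebra C 𝕜] (u : 𝕜), Transcendental C u →
  (∀ z : 𝕜, IsAlgebraic (IntermediateField.adjoin C {u}) z) → ∀ (Ψ : C ≃+* C) (σ : 𝕜 ≃+* 𝕜),
  (∀ c : C, ∃ n : ℕ, 0 < n ∧ (Ψ ^ n) c = c) →
  (∀ c : C, σ (algebraMap C 𝕜 c) = algebraMap C 𝕜 (Ψ c)) → σ u = u →
  ∀ S : Finset 𝕜, ∃ N : IntermediateField C 𝕜, FF C N ∧ u ∈ N ∧ (∀ z ∈ S, z ∈ N) ∧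
    (∀ z, σ z ∈ N ↔ z ∈ N) ∧ (∀ τ : 𝕜 ≃+* 𝕜, Lin C τ → τ u = u → ∀ z ∈ N, τ z ∈ N) ∧
    ∃ n : ℕ, 0 < n ∧ ∀ τ : 𝕜 ≃+* 𝕜, Lin C τ → τ u = u → ∀ z ∈ N, (τ ^ n) z = z

/-- [T1] The relation `σ⁻¹ τ σ = τ ^ c` for inertia elements `τ`. -/
def st_T1 : Prop := ∀ (C 𝕜 : Type) [Field C] [CharZero C] [IsAlgClosed C] [Field 𝕜] [IsAlgClosed 𝕜]
  [Algebra C 𝕜] (u : 𝕜), Transcendental C u →
  (∀ z : 𝕜, IsAlgebraic (IntermediateField.adjoin C {u}) z) → ∀ W : ValuationSubring 𝕜,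
  (∀ c : C, algebraMap C 𝕜 c ∈ W) → W ≠ ⊤ → ∀ (Ψ : C ≃+* C) (σ τ : 𝕜 ≃+* 𝕜),
  (∀ c : C, ∃ n : ℕ, 0 < n ∧ (Ψ ^ n) c = c) →
  (∀ c : C, σ (algebraMap C 𝕜 c) = algebraMap C 𝕜 (Ψ c)) → σ u = u → (∀ z, σ z ∈ W ↔ z ∈ W) →
  Lin C τ → τ u = u → (∀ z, τ z ∈ W ↔ z ∈ W) → ∀ (S : Finset 𝕜) (M : ℕ), 0 < M →
  ∃ c : ℕ, (∀ r ∈ S, σ.symm (τ (σ r)) = (τ ^ c) r) ∧ ∀ ζ : C, ζ ^ M = 1 → (Ψ ζ) ^ c = ζ

/-- [T6] A normal open subgroup of `Gal(𝕜 / C(u))` which contains all inertia groups is the whole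
group. -/
def st_T6 : Prop := ∀ (C 𝕜 : Type) [Field C] [CharZero C] [IsAlgClosed C] [Field 𝕜] [IsAlgClosed 𝕜]
  [Algebra C 𝕜] (u : 𝕜), Transcendental C u →
  (∀ z : 𝕜, IsAlgebraic (IntermediateField.adjoin C {u}) z) → ∀ U : Subgroup (𝕜 ≃+* 𝕜),
  (∀ g τ : 𝕜 ≃+* 𝕜, Lin C g → g u = u → τ ∈ U → g * τ * g⁻¹ ∈ U) →
  (∃ S : Finset 𝕜, ∀ g : 𝕜 ≃+* 𝕜, Lin C g → g u = u → (∀ s ∈ S, g s = s) → g ∈ U) →
  (∀ W : ValuationSubring 𝕜, (∀ c : C, algebraMap C 𝕜 c ∈ W) → W ≠ ⊤ → ∀ g : 𝕜 ≃+* 𝕜, Lin C g →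
    g u = u → (∀ z, g z ∈ W ↔ z ∈ W) → g ∈ U) →
  ∀ g : 𝕜 ≃+* 𝕜, Lin C g → g u = u → g ∈ U

/-- [T3] Valuation rings of `C` with a Frobenius automorphism. -/
def st_T3 : Prop := ∀ (k C : Type) [Field k] [CharZero k] [Field C] [IsAlgClosed C] [Algebra k C]
  [Algebra.IsAlgebraic k C], HasPl k → ∀ (p : ℕ), p.Prime → ∀ S : Finset C,
  ∃ (V : ValuationSubring C) (Ψ : C ≃ₐ[k] C) (q : ℕ), (∀ z ∈ S, z ∈ V) ∧ Rk1 V ∧ IsUnit (p : V) ∧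
    2 ≤ q ∧ ∀ n : ℕ, 0 < n → SUP.Stab V (((Ψ ^ n : C ≃ₐ[k] C)) : C ≃+* C) ∧
      (∀ z ∈ V, (Ψ ^ n) z - z ^ (q ^ n) ∈ V.nonunits) ∧
      ∀ x : ResidueField V, ∃ m : ℕ, 0 < m ∧ x ^ (q ^ n) ^ m = x

/-- [P1] `ℚ` has enough places. -/
def st_P1 : Prop := HasPl ℚ

/-- [P2] Finite extensions. -/
def st_P2 : Prop := ∀ (k k' : Type) [Field k] [CharZero k] [Field k'] [Algebra k k']
  [FiniteDimensional k k'], HasPl k → HasPl k'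

/-- [P3] Purely transcendental extensions. -/
def st_P3 : Prop := ∀ (k k' : Type) [Field k] [CharZero k] [Countable k] [Field k'] [Algebra k k']
  (x : k'), Transcendental k x → IntermediateField.adjoin k {x} = ⊤ → HasPl k → HasPl k'

/-- [P4] Finitely generated fields. -/
def st_P4 : Prop := ∀ (k : Type) [Field k] [CharZero k],
  (∃ S : Finset k, IntermediateField.adjoin ℚ (S : Set k) = ⊤) → HasPl k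

end SGT
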