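import Pool.Agent.SGT.StX
import Pool.Agent.SGT.StT

/-!
# SGT: the statement of the hand-in from `st_K11x` and `st_P4` (MP_3dd09b_ag)
-/

set_option autoImplicit false
set_option linter.unusedVariables false

open GT IsLocalRing Polynomial SEC

namespace SGT

theorem final (h11x : st_K11x) (hP4 : st_P4) (k : Type) [Field k] [CharZero k]
    (hk : ∃ S : Finset k, IntermediateField.adjoin ℚ (S : Set k) = ⊤)
    (K₁ : Type) [Field K₁] [Algebra k K₁] (hK₁ : GTS.IsFunctionField k K₁) (h : K₁) (m : ℕ)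
    (hm : 0 < m) (h0 : h ≠ 0)
    (K₀ : Type) [Field K₀] [Algebra k K₀] [Algebra K₁ K₀] [IsScalarTower k K₁ K₀] (w : K₀)
    (hw : w ^ m = algebraMap K₁ K₀ h) (hK₀ : IntermediateField.adjoin K₁ {w} = ⊤)
    (ℓ a : ℕ) (hℓ : ℓ.Prime) (hlm : ℓ ∣ m) (ha : ℓ ^ a ∣ m)
    (hyp : 3 ≤ (GTS.Branch k K₁ (ℓ ^ a) h).ncard ∨ GTS.UnrCover k K₀ ℓ)
    (B K : Type) [Field B] [Field K] [Algebra k B] [Algebra k K] [Algebra B K] [Algebra K₁ K]
    [IsScalarTower k B K] [IsScalarTower k K₁ K] (t : B) (y : K)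
    (hB : IntermediateField.adjoin k {t} = ⊤) (ht : Transcendental K₁ (algebraMap B K t))
    (hy : y ^ m = algebraMap B K t * algebraMap K₁ K h)
    (hK : IntermediateField.adjoin B (Set.range (algebraMap K₁ K) ∪ {y}) = ⊤)
    (K' : Type) [Field K'] [Algebra B K'] [Algebra K K'] [IsScalarTower B K K']
    (ι : K' →ₐ[K] SCJ.Om K) (hι : ∀ z, ι z ∈ FSC.MU B K Set.univ)
    (s : FSC.SectU B K' Set.univ) : s.Geometric ∧ s.F = {1} := by
  have hT : Tw k K₁ B K t y h m := ⟨hK₁, hB, ht, hm, h0, hy, hK⟩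
  exact h11x k K₁ B K K' K₀ t y h m hT (hP4 k hk) w hw hK₀ ℓ a hℓ hlm ha hyp ι
    (fun z B' hB' σ hσ => hι z B' hB' (Set.mem_univ _) σ hσ) s

end SGT
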