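import Pool.Agent.SGT.StA

/-!
# [SGT-A1] Lagrange resolvents (MP_3dd09b_ag)
-/

set_option autoImplicit false
set_option linter.unusedVariables false

open GT IsLocalRing Polynomial

namespace SGT

/-- The powers of `σ` preserve `N`. -/
private theorem a1_pow {C Ω : Type} [Field C] [Field Ω] [Algebra C Ω] {N : IntermediateField C Ω}
    {σ : Ω ≃+* Ω} (h : ∀ z ∈ N, σ z ∈ N) (i : ℕ) : ∀ z ∈ N, (σ ^ i) z ∈ N := by
  induction i with
  | zero =>
    intro z hz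
    simpa using hz
  | succ i ih =>
    intro z hz
    rw [pow_succ', RingAut.mul_apply]
    exact h _ (ih z hz)

/-- A resolvent is an eigenvector. -/
private theorem a1_res {C Ω : Type} [Field C] [Field Ω] [Algebra C Ω] {σ : Ω ≃+* Ω} {n : ℕ}
    (hσ : Lin C σ) {z : Ω} (hz : (σ ^ n) z = z) {ξ : C} (hξ0 : ξ ≠ 0) (hξ : ξ ^ n = 1) :
    σ (∑ i ∈ Finset.range n, algebraMap C Ω (ξ⁻¹ ^ i) * (σ ^ i) z) =
      algebraMap C Ω ξ * ∑ i ∈ Finset.range n, algebraMap C Ω (ξ⁻¹ ^ i) * (σ ^ i) z := by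
  have h1 : ∀ i, σ (algebraMap C Ω (ξ⁻¹ ^ i) * (σ ^ i) z) =
      algebraMap C Ω ξ * (algebraMap C Ω (ξ⁻¹ ^ (i + 1)) * (σ ^ (i + 1)) z) := by
    intro i
    rw [map_mul, hσ, pow_succ' σ i, RingAut.mul_apply, ← mul_assoc, ← map_mul, pow_succ' ξ⁻¹ i,
      ← mul_assoc ξ, mul_inv_cancel₀ hξ0, one_mul]
  rw [map_sum, Finset.mul_sum]
  simp only [h1]
  rw [← Finset.mul_sum, ← Finset.mul_sum]
  congr 1
  have h2 := Finset.sum_range_succ (fun i => algebraMap C Ω (ξ⁻¹ ^ i) * (σ ^ i) z) n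
  have h3 := Finset.sum_range_succ' (fun i => algebraMap C Ω (ξ⁻¹ ^ i) * (σ ^ i) z) n
  have h4 : algebraMap C Ω (ξ⁻¹ ^ n) * (σ ^ n) z = z := by
    rw [hz, inv_pow, hξ]
    simp
  have h5 : algebraMap C Ω (ξ⁻¹ ^ 0) * (σ ^ 0) z = z := by simp
  rw [h2] at h3
  simp only [h4, h5] at h3
  exact (add_right_cancel h3).symm

theorem R_A1 : st_A1 := by
  intro C Ω _ _ _ _ _ N σ n hσ hN hn z hz hnz hne
  have : CharZero Ω := charZero_of_injective_algebraMap (algebraMap C Ω).injective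
  have hn0 : (n : C) ≠ 0 := Nat.cast_ne_zero.2 hn.ne'
  have : NeZero (n : C) := ⟨hn0⟩
  obtain ⟨ξ, hξ⟩ := HasEnoughRootsOfUnity.exists_primitiveRoot C n
  have hξ0 : ξ ≠ 0 := hξ.ne_zero hn.ne'
  let R : ℕ → Ω := fun j => ∑ i ∈ Finset.range n, algebraMap C Ω ((ξ ^ j)⁻¹ ^ i) * (σ ^ i) z
  have hR : ∀ j, σ (R j) = algebraMap C Ω (ξ ^ j) * R j := fun j =>
    a1_res hσ hnz (pow_ne_zero j hξ0) (by rw [← pow_mul, mul_comm, pow_mul, hξ.pow_eq_one, one_pow])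
  have hRN : ∀ j, R j ∈ N := fun j => sum_mem (fun i _ =>
    N.mul_mem (N.algebraMap_mem _) (a1_pow hN i z hz))
  -- the sum of the resolvents
  have hsum : ∑ j ∈ Finset.range n, R j = (n : Ω) * z := by
    have h1 : ∑ j ∈ Finset.range n, R j = ∑ i ∈ Finset.range n,
        algebraMap C Ω (∑ j ∈ Finset.range n, ((ξ⁻¹) ^ i) ^ j) * (σ ^ i) z := by
      rw [Finset.sum_comm]
      refine Finset.sum_congr rfl (fun i _ => ?_)
      rw [map_sum, Finset.sum_mul]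
      refine Finset.sum_congr rfl (fun j _ => ?_)
      congr 2
      rw [← inv_pow, ← pow_mul, ← pow_mul, mul_comm]
    rw [h1, Finset.sum_eq_single_of_mem 0 (Finset.mem_range.2 hn)]
    · simp
    · intro i hi hi0
      have hprim : IsPrimitiveRoot ξ⁻¹ n := hξ.inv
      have h2 : (ξ⁻¹) ^ i ≠ 1 := fun h => by
        have := (hprim.pow_eq_one_iff_dvd i).1 h
        exact absurd (Nat.le_of_dvd (Nat.pos_of_ne_zero hi0) this)
          (not_le.2 (Finset.mem_range.1 hi))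
      have h3 : (∑ j ∈ Finset.range n, ((ξ⁻¹) ^ i) ^ j) * ((ξ⁻¹) ^ i - 1) = 0 := by
        rw [geom_sum_mul, ← pow_mul, mul_comm, pow_mul, hprim.pow_eq_one, one_pow, sub_self]
      rcases mul_eq_zero.1 h3 with h4 | h4
      · rw [h4, map_zero, zero_mul]
      · exact absurd (sub_eq_zero.1 h4) h2
  -- some nontrivial resolvent is nonzero
  obtain ⟨j, hj, hj0, hRj⟩ : ∃ j, j < n ∧ j ≠ 0 ∧ R j ≠ 0 := by
    by_contra hc
    push Not at hc
    rw [Finset.sum_eq_single_of_mem 0 (Finset.mem_range.2 hn)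
      (fun j hj hj0 => hc j (Finset.mem_range.1 hj) hj0)] at hsum
    have h1 := hR 0
    rw [pow_zero, map_one, one_mul, hsum, map_mul, map_natCast] at h1
    exact hne (mul_left_cancel₀ (Nat.cast_ne_zero.2 hn.ne') h1)
  have hξj : ξ ^ j ≠ 1 := fun h => by
    have := (hξ.pow_eq_one_iff_dvd j).1 h
    exact absurd (Nat.le_of_dvd (Nat.pos_of_ne_zero hj0) this) (not_le.2 hj)
  have hfin : (ξ ^ j) ^ n = 1 := by
    rw [← pow_mul, mul_comm, pow_mul, hξ.pow_eq_one, one_pow]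
  have hdn : orderOf (ξ ^ j) ∣ n := orderOf_dvd_of_pow_eq_one hfin
  have hd0 : orderOf (ξ ^ j) ≠ 0 := fun h => hn.ne' (Nat.eq_zero_of_zero_dvd (h ▸ hdn))
  have hd1 : orderOf (ξ ^ j) ≠ 1 := fun h => hξj (orderOf_eq_one_iff.1 h)
  obtain ⟨p, hp, hpd⟩ := Nat.exists_prime_and_dvd hd1
  refine ⟨p, R j ^ (orderOf (ξ ^ j) / p), (ξ ^ j) ^ (orderOf (ξ ^ j) / p), hp, hpd.trans hdn,
    pow_mem (hRN j) _, pow_ne_zero _ hRj, ?_, ?_⟩
  · have h1 : IsPrimitiveRoot (ξ ^ j) (orderOf (ξ ^ j)) := IsPrimitiveRoot.orderOf _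
    exact h1.pow (Nat.pos_of_ne_zero hd0) (Nat.div_mul_cancel hpd).symm
  · rw [map_pow, hR j, mul_pow, map_pow (algebraMap C Ω) (ξ ^ j)]

end SGT
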