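import Pool.Agent.SGT.StA

/-!
# [SGT-A10] Nor implies UR (MP_3dd09b_ag)
-/

set_option autoImplicit false
set_option linter.unusedVariables false

open GT IsLocalRing Polynomial

namespace SGT

section a10

variable {C Ω : Type} [Field C] [Field Ω] [Algebra C Ω]

/-- the field `N(ρ)` -/
private abbrev a10_N' (N : IntermediateField C Ω) (ρ : Ω) : IntermediateField C Ω :=
  IntermediateField.adjoin C ((N : Set Ω) ∪ ((({ρ} : Finset Ω) : Finset Ω) : Set Ω))

private theorem a10_le (N : IntermediateField C Ω) (ρ : Ω) : N ≤ a10_N' N ρ := fun z hz =>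
  IntermediateField.subset_adjoin _ _ (Or.inl hz)

private theorem a10_rho (N : IntermediateField C Ω) (ρ : Ω) : ρ ∈ a10_N' N ρ :=
  IntermediateField.subset_adjoin _ _ (Or.inr (by simp))

private theorem a10_adj_le {N M : IntermediateField C Ω} {ρ : Ω} (h1 : N ≤ M) (h2 : ρ ∈ M) :
    a10_N' N ρ ≤ M := by
  rw [IntermediateField.adjoin_le_iff]
  rintro z (hz | hz)
  · exact h1 hz
  · have h3 : z = ρ := by simpa using hz
    rw [h3]
    exact h2

/-- an automorphism which is trivial on `N` is trivial on the constants -/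
private theorem a10_lin {N : IntermediateField C Ω} {g : Ω ≃+* Ω} (hg : Tri g (N : Set Ω)) :
    ∀ c : C, g (algebraMap C Ω c) = algebraMap C Ω c := fun c => hg _ (N.algebraMap_mem c)

/-- an automorphism which is trivial on `N` and maps `ρ` to `ζ ρ`, `ζ` a constant, maps `N(ρ)` to
itself -/
private theorem a10_stab {N : IntermediateField C Ω} {ρ : Ω} {g : Ω ≃+* Ω}
    (hg : Tri g (N : Set Ω)) {ζ : C} (hρ : g ρ = algebraMap C Ω ζ * ρ) :
    ∀ z ∈ a10_N' N ρ, g z ∈ a10_N' N ρ := by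
  let gA : Ω →ₐ[C] Ω := { (g : Ω →+* Ω) with commutes' := a10_lin hg }
  have hgA : ∀ z, gA z = g z := fun z => rfl
  have h : a10_N' N ρ ≤ (a10_N' N ρ).comap gA := by
    apply a10_adj_le
    · intro z hz
      show gA z ∈ a10_N' N ρ
      rw [hgA, hg z hz]
      exact a10_le N ρ hz
    · show gA ρ ∈ a10_N' N ρ
      rw [hgA, hρ]
      exact mul_mem ((a10_N' N ρ).algebraMap_mem ζ) (a10_rho N ρ)
  exact fun z hz => h hz

/-- two embeddings of `N(ρ)` which agree on `N` and at `ρ` agree -/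
private theorem a10_ext {N : IntermediateField C Ω} {ρ : Ω} (f g : a10_N' N ρ →+* Ω)
    (h : ∀ (z : Ω) (hz : z ∈ N), f ⟨z, a10_le N ρ hz⟩ = g ⟨z, a10_le N ρ hz⟩)
    (hρ : f ⟨ρ, a10_rho N ρ⟩ = g ⟨ρ, a10_rho N ρ⟩) : ∀ z, f z = g z := by
  have key : ∀ (z : Ω) (hz : z ∈ a10_N' N ρ), f ⟨z, hz⟩ = g ⟨z, hz⟩ := by
    intro z hz
    induction hz using IntermediateField.adjoin_induction with
    | mem x hx =>
      rcases hx with hx | hx
      · exact h x hx
      · have h3 : x = ρ := by simpa using hx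
        subst h3
        exact hρ
    | algebraMap x => exact h _ (N.algebraMap_mem x)
    | add x y hx hy h1 h2 =>
      have e : (⟨x + y, add_mem hx hy⟩ : a10_N' N ρ) = ⟨x, hx⟩ + ⟨y, hy⟩ := rfl
      rw [e, map_add, map_add, h1, h2]
    | inv x hx h1 =>
      have e : (⟨x⁻¹, inv_mem hx⟩ : a10_N' N ρ) = (⟨x, hx⟩)⁻¹ := rfl
      rw [e, map_inv₀, map_inv₀, h1]
    | mul x y hx hy h1 h2 =>
      have e : (⟨x * y, mul_mem hx hy⟩ : a10_N' N ρ) = ⟨x, hx⟩ * ⟨y, hy⟩ := rfl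
      rw [e, map_mul, map_mul, h1, h2]
  exact fun z => key z.1 z.2

/-- roots of unity are constants -/
private theorem a10_root [IsAlgClosed C] [CharZero C] {p : ℕ} (hp : p.Prime) {x : Ω}
    (hx : x ^ p = 1) : ∃ ζ : C, ζ ^ p = 1 ∧ x = algebraMap C Ω ζ := by
  have : NeZero p := ⟨hp.ne_zero⟩
  have : NeZero (p : C) := ⟨by exact_mod_cast hp.ne_zero⟩
  obtain ⟨ξ, hξ⟩ := HasEnoughRootsOfUnity.exists_primitiveRoot C p
  have h0 : IsPrimitiveRoot (algebraMap C Ω ξ) p := hξ.map_of_injective (algebraMap C Ω).injective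
  obtain ⟨j, _, hj⟩ := h0.eq_pow_of_pow_eq_one hx
  refine ⟨ξ ^ j, ?_, ?_⟩
  · rw [← pow_mul, mul_comm, pow_mul, hξ.pow_eq_one, one_pow]
  · rw [map_pow, hj]

/-- the restriction of an automorphism to `N(ρ)` -/
private def a10_res {N : IntermediateField C Ω} {ρ : Ω} (g : Ω ≃+* Ω)
    (h1 : ∀ z ∈ a10_N' N ρ, g z ∈ a10_N' N ρ) (h2 : ∀ z ∈ a10_N' N ρ, g.symm z ∈ a10_N' N ρ) :
    a10_N' N ρ ≃+* a10_N' N ρ where
  toFun z := ⟨g z, h1 z z.2⟩
  invFun z := ⟨g.symm z, h2 z z.2⟩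
  left_inv z := Subtype.ext (g.symm_apply_apply _)
  right_inv z := Subtype.ext (g.apply_symm_apply _)
  map_mul' x y := Subtype.ext (map_mul g _ _)
  map_add' x y := Subtype.ext (map_add g _ _)

end a10

theorem R_A10 (h2 : st_A2) : st_A10 := by
  intro C Ω _ _ _ _ _ E L hEL hNor N hEN hNL hF a p hp ha ρ hρL hρ O hO
  by_cases hρN : ρ ∈ N
  · -- `ρ ∈ N`
    have ho := od_spec hF hO
    have hr : a = (⟨ρ, hρN⟩ : N) ^ p := Subtype.ext hρ.symm
    have hr0 : (⟨ρ, hρN⟩ : N) ≠ 0 := by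
      intro h
      apply ha
      rw [hr, h, zero_pow hp.ne_zero]
    rw [hr, (ord_rules ho).2.2.1 _ hr0]
    exact dvd_mul_right _ _
  -- the field `N(ρ)`
  have : NeZero p := ⟨hp.ne_zero⟩
  have haΩ : (a : Ω) ≠ 0 := fun h => ha (Subtype.ext h)
  have hρ0 : ρ ≠ 0 := by
    intro h
    apply haΩ
    rw [← hρ, h, zero_pow hp.ne_zero]
  have hN'L : a10_N' N ρ ≤ L := a10_adj_le hNL hρL
  have hEN' : E ≤ a10_N' N ρ := hEN.trans (a10_le N ρ)
  have hρalg : IsAlgebraic N ρ := by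
    refine ⟨Polynomial.X ^ p - Polynomial.C a, ?_, ?_⟩
    · exact (Polynomial.monic_X_pow_sub_C a hp.ne_zero).ne_zero
    · rw [map_sub, map_pow, Polynomial.aeval_X, Polynomial.aeval_C, hρ]
      exact sub_self _
  have hF' : FF C (a10_N' N ρ) := by
    apply ff_sup N hF
    intro y hy
    have h3 : y = ρ := by simpa using hy
    rw [h3]
    exact hρalg
  let i : N →+* a10_N' N ρ := (IntermediateField.inclusion (a10_le N ρ)).toRingHom
  have hi : ∀ c : C, i (algebraMap C N c) = algebraMap C (a10_N' N ρ) c := fun c => rfl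
  have hiv : ∀ w : N, ((i w : a10_N' N ρ) : Ω) = (w : Ω) := fun w => rfl
  -- `N(ρ)` is algebraic over `N`
  have halg : ∀ z : a10_N' N ρ, ∃ q : Polynomial N, q ≠ 0 ∧ q.eval₂ i z = 0 := by
    have h3 : ∀ z ∈ a10_N' N ρ, IsAlgebraic N z := by
      intro z hz
      induction hz using IntermediateField.adjoin_induction with
      | mem x hx =>
        rcases hx with hx | hx
        · exact isAlgebraic_algebraMap (⟨x, hx⟩ : N)
        · have h4 : x = ρ := by simpa using hx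
          subst h4
          exact hρalg
      | algebraMap x => exact isAlgebraic_algebraMap (⟨_, N.algebraMap_mem x⟩ : N)
      | add x y hx hy h1 h2 => exact h1.add h2
      | inv x hx h1 => exact h1.inv
      | mul x y hx hy h1 h2 => exact h1.mul h2
    intro z
    obtain ⟨q, hq0, hq⟩ := h3 z z.2
    refine ⟨q, hq0, ?_⟩
    apply Subtype.ext
    have h4 : ((q.eval₂ i z : a10_N' N ρ) : Ω) =
        q.eval₂ ((algebraMap (a10_N' N ρ) Ω).comp i) (algebraMap (a10_N' N ρ) Ω z) :=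
      Polynomial.hom_eval₂ q i (algebraMap (a10_N' N ρ) Ω) z
    rw [h4]
    exact hq
  -- the automorphism `g₀`
  obtain ⟨g₀, hg₀N, hg₀L, hg₀ρ⟩ := hNor.gal N hEN hNL ρ hρL hρN
  have hmove : ∀ g : Ω ≃+* Ω, Tri g (N : Set Ω) → ∃ ζ : C, ζ ^ p = 1 ∧
      g ρ = algebraMap C Ω ζ * ρ := by
    intro g hg
    have h3 : (g ρ / ρ) ^ p = 1 := by
      rw [div_pow, ← map_pow, hρ, hg _ a.2, div_self haΩ]
    obtain ⟨ζ, hζ, hζ'⟩ := a10_root (C := C) hp h3
    refine ⟨ζ, hζ, ?_⟩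
    rw [← hζ', div_mul_cancel₀ _ hρ0]
  have hTsymm : ∀ (M : IntermediateField C Ω) (g : Ω ≃+* Ω), Tri g (M : Set Ω) →
      Tri g.symm (M : Set Ω) := by
    intro M g hg z hz
    rw [RingEquiv.symm_apply_eq]
    exact (hg z hz).symm
  have hstab : ∀ g : Ω ≃+* Ω, Tri g (N : Set Ω) → ∀ z ∈ a10_N' N ρ, g z ∈ a10_N' N ρ := by
    intro g hg
    obtain ⟨ζ, _, hζ⟩ := hmove g hg
    exact a10_stab hg hζ
  obtain ⟨ζ₀, hζ₀, hζ₀'⟩ := hmove g₀ hg₀N
  have hζ₀1 : ζ₀ ≠ 1 := by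
    intro h
    apply hg₀ρ
    rw [hζ₀', h, map_one, one_mul]
  have hprim : IsPrimitiveRoot ζ₀ p := by
    have : Fact p.Prime := ⟨hp⟩
    have h3 : orderOf ζ₀ = p := orderOf_eq_prime hζ₀ hζ₀1
    rw [← h3]
    exact IsPrimitiveRoot.orderOf ζ₀
  -- the fixed field
  have hfix : ∀ z : a10_N' N ρ, (∀ g : a10_N' N ρ ≃+* a10_N' N ρ,
      (∀ w : N, g (i w) = i w) → g z = z) → ∃ w : N, i w = z := by
    intro z hz
    by_contra hcon
    have hzN : (z : Ω) ∉ N := fun h => hcon ⟨⟨z, h⟩, Subtype.ext rfl⟩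
    obtain ⟨g, hgN, hgL, hgz⟩ := hNor.gal N hEN hNL z (hN'L z.2) hzN
    apply hgz
    have h3 := hz (a10_res g (hstab g hgN) (hstab g.symm (hTsymm N g hgN)))
      (fun w => Subtype.ext (hgN _ w.2))
    exact congrArg Subtype.val h3
  -- a place `P` of `Ω` above `O`
  obtain ⟨P, hP, hPO⟩ := pl_up (C := C) (algebraMap N Ω) (fun c => rfl) hO
  have hmemO : ∀ w : N, w ∈ O ↔ (w : Ω) ∈ P := by
    intro w
    rw [← hPO]
    exact ValuationSubring.mem_comap
  have hP'O : (rs (a10_N' N ρ) P).comap i = O := by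
    ext w
    rw [ValuationSubring.mem_comap, ValuationSubring.mem_comap, hmemO]
    exact Iff.rfl
  have hP' : IsPl C (rs (a10_N' N ρ) P) := by
    refine ⟨fun c => ?_, fun h => ?_⟩
    · rw [ValuationSubring.mem_comap]
      exact hP.1 c
    · apply hO.2
      rw [← hP'O, h]
      ext w
      simp
  have hPlcL : Plc C (L : Set Ω) P := by
    refine ⟨hP.1, ?_⟩
    by_contra hcon
    push Not at hcon
    apply hO.2
    ext w
    rw [hmemO]
    simp [hcon w (hNL w.2)]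
  obtain ⟨hfin, e, he0, hediv, he⟩ := h2 C N (a10_N' N ρ) i hi hF hF' halg hfix
    (rs (a10_N' N ρ) P) hP'
  -- the stabiliser is trivial
  have hcard : Nat.card {g : a10_N' N ρ ≃+* a10_N' N ρ // (∀ w : N, g (i w) = i w) ∧
      ∀ z, g z ∈ rs (a10_N' N ρ) P ↔ z ∈ rs (a10_N' N ρ) P} = 1 := by
    rw [Nat.card_eq_one_iff_unique]
    refine ⟨⟨fun x y => ?_⟩, ⟨⟨RingEquiv.refl _, fun w => rfl, fun z => Iff.rfl⟩⟩⟩
    suffices h : ∀ x : {g : a10_N' N ρ ≃+* a10_N' N ρ // (∀ w : N, g (i w) = i w) ∧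
        ∀ z, g z ∈ rs (a10_N' N ρ) P ↔ z ∈ rs (a10_N' N ρ) P}, ∀ z, x.1 z = z by
      apply Subtype.ext
      ext z
      rw [h x, h y]
    rintro ⟨g', hg'1, hg'2⟩
    show ∀ z, g' z = z
    let r : a10_N' N ρ := ⟨ρ, a10_rho N ρ⟩
    have hr : r ^ p = i a := Subtype.ext hρ
    have hr0 : (r : Ω) ≠ 0 := hρ0
    have h3 : (((g' r : a10_N' N ρ) : Ω) / ρ) ^ p = 1 := by
      have h4 : (g' r) ^ p = i a := by rw [← map_pow, hr, hg'1]
      have h5 : ((g' r : a10_N' N ρ) : Ω) ^ p = (a : Ω) := congrArg Subtype.val h4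
      rw [div_pow, h5, hρ, div_self haΩ]
    obtain ⟨ζ, hζ, hζ'⟩ := a10_root (C := C) hp h3
    have hgr : ((g' r : a10_N' N ρ) : Ω) = algebraMap C Ω ζ * ρ := by
      rw [← hζ', div_mul_cancel₀ _ hρ0]
    obtain ⟨j, _, hj⟩ := hprim.eq_pow_of_pow_eq_one hζ
    -- the extension `g = g₀ ^ j`
    have hpow : ∀ n : ℕ, Tri (g₀ ^ n) (N : Set Ω) ∧ Sta (g₀ ^ n) (L : Set Ω) ∧
        (g₀ ^ n) ρ = algebraMap C Ω (ζ₀ ^ n) * ρ := by
      intro n
      induction n with
      | zero =>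
        refine ⟨fun z _ => rfl, fun z => Iff.rfl, ?_⟩
        rw [pow_zero, pow_zero, map_one, one_mul]
        rfl
      | succ n ih =>
        obtain ⟨h4, h5, h6⟩ := ih
        have h7 : ∀ z, (g₀ ^ (n + 1)) z = (g₀ ^ n) (g₀ z) := fun z => by
          rw [pow_succ]
          rfl
        refine ⟨fun z hz => ?_, fun z => ?_, ?_⟩
        · rw [h7, hg₀N z hz, h4 z hz]
        · rw [h7, h5, hg₀L]
        · rw [h7, hζ₀', map_mul, h6, a10_lin h4, pow_succ, map_mul]
          ring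
    obtain ⟨hgN, hgL, hgρ⟩ := hpow j
    rw [hj] at hgρ
    have hagree : ∀ z : a10_N' N ρ, ((g' z : a10_N' N ρ) : Ω) = (g₀ ^ j) (z : Ω) := by
      have h4 := a10_ext (C := C) (N := N) (ρ := ρ)
        ((algebraMap (a10_N' N ρ) Ω).comp (g' : a10_N' N ρ →+* a10_N' N ρ))
        (((g₀ ^ j : Ω ≃+* Ω) : Ω →+* Ω).comp (algebraMap (a10_N' N ρ) Ω))
        (fun z hz => by
          have h5 : g' (i ⟨z, hz⟩) = i ⟨z, hz⟩ := hg'1 ⟨z, hz⟩
          have h6 : ((g' (i ⟨z, hz⟩) : a10_N' N ρ) : Ω) = z := congrArg Subtype.val h5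
          have h7 : (g₀ ^ j) z = z := hgN z hz
          exact h6.trans h7.symm)
        (hgr.trans hgρ.symm)
      exact h4
    by_cases hζ1 : ζ = 1
    · intro z
      apply Subtype.ext
      have h4 := a10_ext (C := C) (N := N) (ρ := ρ)
        ((algebraMap (a10_N' N ρ) Ω).comp (g' : a10_N' N ρ →+* a10_N' N ρ))
        (algebraMap (a10_N' N ρ) Ω)
        (fun w hw => congrArg Subtype.val (hg'1 ⟨w, hw⟩))
        (by
          have h5 : ((g' r : a10_N' N ρ) : Ω) = ρ := by rw [hgr, hζ1, map_one, one_mul]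
          exact h5)
      exact h4 z
    · exfalso
      obtain ⟨g₂, hg₂N', hg₂L, hg₂⟩ := hNor.conj (a10_N' N ρ) hEN' hN'L
        (P.comap ((g₀ ^ j : Ω ≃+* Ω) : Ω →+* Ω)) P
        (by
          refine ⟨fun c => ?_, ?_⟩
          · rw [ValuationSubring.mem_comap]
            show (g₀ ^ j) (algebraMap C Ω c) ∈ P
            rw [a10_lin hgN]
            exact hP.1 c
          · obtain ⟨z, hzL, hzP⟩ := hPlcL.2
            refine ⟨(g₀ ^ j).symm z, ?_, ?_⟩
            · have h4 := hgL ((g₀ ^ j).symm z)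
              rw [RingEquiv.apply_symm_apply] at h4
              exact h4.1 hzL
            · rw [ValuationSubring.mem_comap]
              show (g₀ ^ j) ((g₀ ^ j).symm z) ∉ P
              rw [RingEquiv.apply_symm_apply]
              exact hzP)
        hPlcL
        (by
          intro z hz
          rw [ValuationSubring.mem_comap]
          show (g₀ ^ j) z ∈ P ↔ z ∈ P
          have h4 := hg'2 ⟨z, hz⟩
          rw [ValuationSubring.mem_comap, ValuationSubring.mem_comap] at h4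
          have h5 := hagree ⟨z, hz⟩
          have h6 : (g' ⟨z, hz⟩ : Ω) ∈ P ↔ z ∈ P := h4
          rw [h5] at h6
          exact h6)
      -- `γ = g ∘ g₂⁻¹`
      have hγ := hNor.stab (g₂.symm.trans (g₀ ^ j)) ?_ ?_ P hPlcL ?_
      · have h4 : (g₀ ^ j) (g₂.symm ρ) = ρ := hγ ρ hρL
        have h5 : g₂.symm ρ = ρ := hTsymm _ g₂ hg₂N' ρ (a10_rho N ρ)
        rw [h5, hgρ] at h4
        have h6 : algebraMap C Ω ζ = 1 := by
          have h7 : algebraMap C Ω ζ * ρ = 1 * ρ := by rw [h4, one_mul]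
          exact mul_right_cancel₀ hρ0 h7
        apply hζ1
        apply (algebraMap C Ω).injective
        rw [h6, map_one]
      · intro z hz
        show (g₀ ^ j) (g₂.symm z) = z
        rw [hTsymm _ g₂ hg₂N' z (hEN' hz)]
        exact hgN z (hEN hz)
      · intro z
        show (g₀ ^ j) (g₂.symm z) ∈ (L : Set Ω) ↔ z ∈ (L : Set Ω)
        rw [hgL]
        have h4 := hg₂L (g₂.symm z)
        rw [RingEquiv.apply_symm_apply] at h4
        exact h4.symm
      · intro z hz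
        show (g₀ ^ j) (g₂.symm z) ∈ P ↔ z ∈ P
        have h4 := hg₂L (g₂.symm z)
        rw [RingEquiv.apply_symm_apply] at h4
        have h5 := hg₂ (g₂.symm z) (h4.1 hz)
        rw [RingEquiv.apply_symm_apply] at h5
        rw [h5, ValuationSubring.mem_comap]
        exact Iff.rfl
  rw [hcard] at hediv
  have he1 : e = 1 := Nat.dvd_one.mp hediv
  have h3 := he a ha
  rw [he1, hP'O, Nat.cast_one, one_mul] at h3
  rw [← h3]
  have ho' := od_spec hF' hP'
  have hr : i a = (⟨ρ, a10_rho N ρ⟩ : a10_N' N ρ) ^ p := Subtype.ext hρ.symm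
  have hr0 : (⟨ρ, a10_rho N ρ⟩ : a10_N' N ρ) ≠ 0 := fun h => hρ0 (congrArg Subtype.val h)
  rw [hr, (ord_rules ho').2.2.1 _ hr0]
  exact dvd_mul_right _ _

end SGT
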