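import Pool.Agent.SGT.StA

/-!
# [SGT-A11] places on levels; representation of elements of 𝕜 L; L ∩ 𝕜 N = N (MP_3dd09b_ag)
-/

set_option autoImplicit false
set_option linter.unusedVariables false

open GT IsLocalRing Polynomial

namespace SGT

/-- The maximal ideal in terms of inverses. -/
private theorem a11_nonunits {Ω : Type} [Field Ω] (P : ValuationSubring Ω) (z : Ω) :
    z ∈ P.nonunits ↔ z = 0 ∨ z⁻¹ ∉ P := by
  rw [ValuationSubring.mem_nonunits_iff]
  rcases eq_or_ne z 0 with h | h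
  · simp [h]
  · rw [← ValuationSubring.valuation_le_one_iff, map_inv₀]
    have h0 : P.valuation z ≠ 0 := (Valuation.ne_zero_iff _).2 h
    constructor
    · intro h1
      right
      rw [not_le]
      exact (one_lt_inv₀ (zero_lt_iff.2 h0)).2 h1
    · rintro (h1 | h1)
      · exact absurd h1 h
      · rw [not_le] at h1
        exact (one_lt_inv₀ (zero_lt_iff.2 h0)).1 h1

/-- The maximal ideal of the restriction. -/
private theorem a11_nonunits_rs {C Ω : Type} [Field C] [Field Ω] [Algebra C Ω]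
    (N : IntermediateField C Ω) (P : ValuationSubring Ω) (z : N) :
    z ∈ (rs N P).nonunits ↔ (z : Ω) ∈ P.nonunits := by
  rw [a11_nonunits, a11_nonunits]
  have h1 : z⁻¹ ∈ rs N P ↔ (z : Ω)⁻¹ ∈ P := by
    change ((z⁻¹ : N) : Ω) ∈ P ↔ _
    rw [IntermediateField.coe_inv]
  rw [h1]
  constructor
  · rintro (h | h)
    · left; rw [h]; rfl
    · exact Or.inr h
  · rintro (h | h)
    · left; exact Subtype.ext h
    · exact Or.inr h

/-- A valuation ring which contains `N` contains the elements algebraic over `N`. -/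
private theorem a11_alg {C Ω : Type} [Field C] [Field Ω] [Algebra C Ω]
    (N : IntermediateField C Ω) (P : ValuationSubring Ω) (h : ∀ z ∈ N, z ∈ P) {z : Ω}
    (hz : IsAlgebraic N z) : z ∈ P := by
  obtain ⟨p, hp, hpz⟩ := isAlgebraic_iff_isIntegral.1 hz
  let f : N →+* P := (algebraMap N Ω).codRestrict P.toSubring (fun x => h x x.2)
  have hint : IsIntegral P z := by
    refine ⟨p.map f, hp.map f, ?_⟩
    rw [Polynomial.eval₂_map]
    exact hpz
  obtain ⟨y, hy⟩ := (IsIntegrallyClosed.isIntegral_iff (R := P) (K := Ω)).1 hint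
  rw [← hy]
  exact y.2

theorem R_A11 (h0g : st_A0g) : st_A11 := by
  intro C Ω _ _ _ _ _ F L hL P hP
  classical
  -- places on the levels
  have key : ∀ N : IntermediateField C Ω, N ≤ L → FF C N → Plc C (N : Set Ω) P := by
    intro N hN hF
    refine ⟨hP.1, ?_⟩
    by_contra hcon
    push Not at hcon
    obtain ⟨S, hS⟩ := (h0g C Ω N hF).1
    obtain ⟨z₀, hz₀, hz₀P⟩ := hP.2
    obtain ⟨N₂, hN₂, hS₂⟩ := hL (insert z₀ S) (by
      intro z hz
      rcases Finset.mem_insert.1 hz with h | h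
      · rw [h]; exact hz₀
      · apply hN
        rw [hS]
        exact IntermediateField.subset_adjoin C _ (Finset.mem_coe.2 h))
    have hle : N ≤ N₂ := by
      rw [hS, IntermediateField.adjoin_le_iff]
      intro z hz
      exact hS₂ z (Finset.mem_insert_of_mem (Finset.mem_coe.1 hz))
    have halg := (h0g C Ω N₂ hN₂.2.2.1).2 N hle hF z₀ (hS₂ z₀ (Finset.mem_insert_self _ _))
    exact hz₀P (a11_alg N P hcon halg)
  refine ⟨key, ?_⟩
  intro z hz hzP
  obtain ⟨N, hN, hzN⟩ := hL {z} (by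
    intro w hw
    rw [Finset.mem_singleton.1 hw]
    exact hz)
  have hpl := key N hN.2.1 hN.2.2.1
  have hIs : IsPl C (rs N P) := by
    refine ⟨fun c => hpl.1 c, ?_⟩
    obtain ⟨w, hw, hwP⟩ := hpl.2
    intro htop
    apply hwP
    have : (⟨w, hw⟩ : N) ∈ rs N P := by rw [htop]; trivial
    exact this
  have hord := od_spec hN.2.2.1 hIs
  obtain ⟨c, hc⟩ := hord.res (⟨z, hzN z (Finset.mem_singleton_self z)⟩ : N) hzP
  refine ⟨c, ?_⟩
  have h2 : (⟨z, hzN z (Finset.mem_singleton_self z)⟩ : N) - algebraMap C N c ∈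
      (rs N P).nonunits := by
    rw [a11_nonunits]
    rcases hc with h | h
    · exact Or.inl h
    · by_cases h0 : (⟨z, hzN z (Finset.mem_singleton_self z)⟩ : N) - algebraMap C N c = 0
      · exact Or.inl h0
      · refine Or.inr fun hmem => ?_
        have h3 := (hord.mem _ (inv_ne_zero h0)).1 hmem
        have h4 := hord.mul _ _ h0 (inv_ne_zero h0)
        rw [mul_inv_cancel₀ h0] at h4
        have h5 := hord.mul 1 1 one_ne_zero one_ne_zero
        rw [mul_one] at h5
        omega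
  exact (a11_nonunits_rs N P _).1 h2

/-- The elements of `𝕜[L]` are the combinations of the elements of a basis of `𝕜 / C` with
coefficients in `L`. -/
private theorem a11_span {C 𝕜 Ω : Type} [Field C] [Field 𝕜] [Field Ω] [Algebra C 𝕜] [Algebra 𝕜 Ω]
    [Algebra C Ω] [IsScalarTower C 𝕜 Ω] (L : IntermediateField C Ω) {I : Type}
    (b : Module.Basis I C 𝕜) {z : Ω} (hz : z ∈ Algebra.adjoin 𝕜 (L : Set Ω)) :
    z ∈ Submodule.span L (Set.range fun i => algebraMap 𝕜 Ω (b i)) := by
  have hk : ∀ β : 𝕜, algebraMap 𝕜 Ω β ∈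
      Submodule.span L (Set.range fun i => algebraMap 𝕜 Ω (b i)) := by
    intro β
    rw [← b.linearCombination_repr β, Finsupp.linearCombination_apply, Finsupp.sum, map_sum]
    refine Submodule.sum_mem _ fun i _ => ?_
    rw [Algebra.smul_def, map_mul, ← IsScalarTower.algebraMap_apply]
    have h1 : algebraMap C Ω ((b.repr β) i) * algebraMap 𝕜 Ω (b i) =
        (algebraMap C L ((b.repr β) i)) • algebraMap 𝕜 Ω (b i) := by
      rw [Algebra.smul_def]
      rfl
    rw [h1]
    exact Submodule.smul_mem _ _ (Submodule.subset_span ⟨i, rfl⟩)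
  have hmul : Submodule.span L (Set.range fun i => algebraMap 𝕜 Ω (b i)) *
      Submodule.span L (Set.range fun i => algebraMap 𝕜 Ω (b i)) ≤
      Submodule.span L (Set.range fun i => algebraMap 𝕜 Ω (b i)) := by
    rw [Submodule.span_mul_span, Submodule.span_le]
    rintro _ ⟨_, ⟨i, rfl⟩, _, ⟨j, rfl⟩, rfl⟩
    have := hk (b i * b j)
    rwa [map_mul] at this
  induction hz using Algebra.adjoin_induction with
  | mem x hx =>
    have h1 := Submodule.smul_mem _ (⟨x, hx⟩ : L) (hk 1)
    rw [map_one, Algebra.smul_def, mul_one] at h1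
    exact h1
  | algebraMap r => exact hk r
  | add x y _ _ hx hy => exact Submodule.add_mem _ hx hy
  | mul x y _ _ hx hy => exact hmul (Submodule.mul_mem_mul hx hy)

theorem R_C0 : st_C0 := by
  intro C 𝕜 Ω _ _ _ _ _ _ _ L z hz
  classical
  obtain ⟨x, hx, y, hy, hy0, hzxy⟩ : ∃ x ∈ Algebra.adjoin 𝕜 (L : Set Ω),
      ∃ y ∈ Algebra.adjoin 𝕜 (L : Set Ω), y ≠ 0 ∧ z * y = x := by
    obtain ⟨r, hr, s, hs, h⟩ := IntermediateField.mem_adjoin_iff_div.1 hz
    by_cases h0 : s = 0
    · exact ⟨0, Subalgebra.zero_mem _, 1, Subalgebra.one_mem _, one_ne_zero, by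
        rw [h, h0]; simp⟩
    · exact ⟨r, hr, s, hs, h0, by rw [h]; field_simp⟩
  let b := Module.Basis.ofVectorSpace C 𝕜
  obtain ⟨f, hf⟩ := (Finsupp.mem_span_range_iff_exists_finsupp).1 (a11_span L b hx)
  obtain ⟨g, hg⟩ := (Finsupp.mem_span_range_iff_exists_finsupp).1 (a11_span L b hy)
  obtain ⟨i₀⟩ : Nonempty (Module.Basis.ofVectorSpaceIndex C 𝕜) := b.index_nonempty
  set s : Finset (Module.Basis.ofVectorSpaceIndex C 𝕜) := insert i₀ (f.support ∪ g.support) with hs
  obtain ⟨n, hn⟩ : ∃ n, s.card = n + 1 :=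
    ⟨s.card - 1, by
      have : 0 < s.card := Finset.card_pos.2 ⟨i₀, Finset.mem_insert_self _ _⟩
      omega⟩
  let e : Fin (n + 1) ≃ s := (s.equivFinOfCardEq hn).symm
  have hsum : ∀ h : Module.Basis.ofVectorSpaceIndex C 𝕜 →₀ L, h.support ⊆ s →
      ∑ k : Fin (n + 1), algebraMap 𝕜 Ω (b (e k)) * (h (e k) : Ω) =
        h.sum fun i a => a • algebraMap 𝕜 Ω (b i) := by
    intro h hh
    rw [Finsupp.sum_of_support_subset _ hh _ (fun i _ => by rw [zero_smul]),
      ← Finset.sum_coe_sort s, ← Equiv.sum_comp e]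
    refine Finset.sum_congr rfl fun k _ => ?_
    rw [Algebra.smul_def, mul_comm]
    rfl
  have hfs : f.support ⊆ s :=
    (Finset.subset_union_left).trans (Finset.subset_insert _ _)
  have hgs : g.support ⊆ s :=
    (Finset.subset_union_right).trans (Finset.subset_insert _ _)
  refine ⟨n, fun k => b (e k), fun k => (f (e k) : Ω), fun k => (g (e k) : Ω), ?_,
    fun k => (f (e k)).2, fun k => (g (e k)).2, ?_, ?_⟩
  · exact b.linearIndependent.comp (fun k => ((e k : s) : Module.Basis.ofVectorSpaceIndex C 𝕜))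
      (fun k k' h => e.injective (Subtype.ext h))
  · rw [hsum g hgs, hg]
    exact hy0
  · rw [hsum g hgs, hg, hsum f hfs, hf]
    exact hzxy

theorem R_C5 (h0 : st_C0) : st_C5 := by
  intro C 𝕜 Ω _ _ _ _ _ _ _ L N hLD hNL z hzL hzN
  obtain ⟨n, β, a, b, hβ, ha, hb, hne, heq⟩ := h0 C 𝕜 Ω N z hzN
  have h1 := hLD (n + 1) β (fun i => z * b i - a i) hβ
    (fun i => L.sub_mem (L.mul_mem hzL (hNL (hb i))) (hNL (ha i))) (by
      have : ∑ i, algebraMap 𝕜 Ω (β i) * (z * b i - a i) =
          z * ∑ i, algebraMap 𝕜 Ω (β i) * b i - ∑ i, algebraMap 𝕜 Ω (β i) * a i := by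
        rw [Finset.mul_sum, ← Finset.sum_sub_distrib]
        exact Finset.sum_congr rfl fun i _ => by ring
      rw [this, heq, sub_self])
  obtain ⟨i, hi⟩ : ∃ i, b i ≠ 0 := by
    by_contra hcon
    push Not at hcon
    apply hne
    exact Finset.sum_eq_zero fun i _ => by rw [hcon i, mul_zero]
  have h2 : z = a i / b i := by
    rw [eq_div_iff hi]
    exact sub_eq_zero.1 (h1 i)
  rw [h2]
  exact N.div_mem (ha i) (hb i)

end SGT
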