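import Pool.Agent.SGT.StX

/-!
# [SGT-A12] no two fixed places over different places of E, given an unramified cover (MP_3dd09b_ag)
-/

set_option autoImplicit false
set_option linter.unusedVariables false

open GT IsLocalRing Polynomial

namespace SGT

section basic

variable {C Ω : Type} [Field C] [Field Ω] [Algebra C Ω]

/-- A valuation ring is closed under roots. -/
private theorem a12_root (P : ValuationSubring Ω) {x : Ω} {n : ℕ} (hn : 0 < n) (h : x ^ n ∈ P) :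
    x ∈ P := by
  rcases P.mem_or_inv_mem x with h1 | h1
  · exact h1
  · by_cases h0 : x = 0
    · rw [h0]
      exact P.zero_mem
    · have e : x = x ^ n * (x⁻¹) ^ (n - 1) := by
        have e2 : x ^ n = x * x ^ (n - 1) := by
          rw [← pow_succ', Nat.sub_add_cancel hn]
        rw [e2, mul_assoc, ← mul_pow, mul_inv_cancel₀ h0, one_pow, mul_one]
      rw [e]
      exact P.mul_mem _ _ h (pow_mem h1 _)

/-- The restriction of a place to a subfield is a place. -/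
private theorem a12_rs {N : IntermediateField C Ω} {P : ValuationSubring Ω}
    (h : Plc C (N : Set Ω) P) : IsPl C (rs N P) := by
  refine ⟨fun c => h.1 c, fun ht => ?_⟩
  obtain ⟨z, hz, hzP⟩ := h.2
  apply hzP
  have h1 : (⟨z, hz⟩ : N) ∈ rs N P := by
    rw [ht]
    exact ValuationSubring.mem_top _
  exact h1

/-- The roots of unity of `Ω` are in `C`. -/
private theorem a12_mu [IsAlgClosed C] {x : Ω} {n : ℕ} (hn : 0 < n) (hx : x ^ n = 1) :
    ∃ c : C, algebraMap C Ω c = x := by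
  have hint : IsIntegral C x := by
    refine ⟨X ^ n - 1, monic_X_pow_sub_C 1 hn.ne', ?_⟩
    rw [eval₂_sub, eval₂_X_pow, hx, eval₂_one, sub_self]
  have h1 := IsAlgClosed.degree_eq_one_of_irreducible C (minpoly.irreducible hint)
  exact minpoly.mem_range_of_degree_eq_one C x h1

/-- Two ring homomorphisms which agree on `E` and on `η` agree on `E(η)`. -/
private theorem a12_ext {E : IntermediateField C Ω} {η : Ω} (f g : Ω →+* Ω)
    (h1 : ∀ z ∈ E, f z = g z) (h2 : f η = g η) :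
    ∀ z ∈ IntermediateField.adjoin C ((E : Set Ω) ∪ (({η} : Finset Ω) : Set Ω)), f z = g z := by
  intro z hz
  induction hz using IntermediateField.adjoin_induction with
  | mem x hx =>
    rcases hx with hx | hx
    · exact h1 x hx
    · rw [Finset.coe_singleton, Set.mem_singleton_iff] at hx
      rw [hx]
      exact h2
  | algebraMap x => exact h1 _ (E.algebraMap_mem x)
  | add x y hx hy ihx ihy => rw [map_add, map_add, ihx, ihy]
  | inv x hx ihx => rw [map_inv₀, map_inv₀, ihx]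
  | mul x y hx hy ihx ihy => rw [map_mul, map_mul, ihx, ihy]

/-- A ring homomorphism which maps `E` and `η` to `N = E(η)` maps `N` to `N`. -/
private theorem a12_mem {E : IntermediateField C Ω} {η : Ω} (f : Ω →+* Ω)
    (h1 : ∀ z ∈ E, f z ∈ E) (h2 : f η ∈
      IntermediateField.adjoin C ((E : Set Ω) ∪ (({η} : Finset Ω) : Set Ω))) :
    ∀ z ∈ IntermediateField.adjoin C ((E : Set Ω) ∪ (({η} : Finset Ω) : Set Ω)),
      f z ∈ IntermediateField.adjoin C ((E : Set Ω) ∪ (({η} : Finset Ω) : Set Ω)) := by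
  intro z hz
  induction hz using IntermediateField.adjoin_induction with
  | mem x hx =>
    rcases hx with hx | hx
    · exact IntermediateField.subset_adjoin C _ (Or.inl (h1 x hx))
    · rw [Finset.coe_singleton, Set.mem_singleton_iff] at hx
      rw [hx]
      exact h2
  | algebraMap x => exact IntermediateField.subset_adjoin C _ (Or.inl (h1 _ (E.algebraMap_mem x)))
  | add x y hx hy ihx ihy => rw [map_add]; exact add_mem ihx ihy
  | inv x hx ihx => rw [map_inv₀]; exact inv_mem ihx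
  | mul x y hx hy ihx ihy => rw [map_mul]; exact mul_mem ihx ihy

/-- A root `η` of an element of the fixed field with orders divisible by `ℓ` is fixed, if there is a
fixed place. -/
private theorem a12_fix [CharZero C] [IsAlgClosed C] (h3 : st_A3) {L E' N : IntermediateField C Ω}
    {e : Ω ≃+* Ω} {ℓ : ℕ} (hℓ : 0 < ℓ) (hE'N : E' ≤ N) (hNL : N ≤ L) (hFE' : FF C E')
    (hFN : FF C N) (hl : Lin C e) (hfix : ∀ z ∈ E', e z = z) {P : ValuationSubring Ω}
    (hP : Plc C (E' : Set Ω) P) (hPL : StP e (L : Set Ω) P) {b : E'} (hb0 : b ≠ 0)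
    (hdiv : ∀ O : ValuationSubring E', IsPl C O → (ℓ : ℤ) ∣ od C O b) {η : Ω} (hηN : η ∈ N)
    (hη : η ^ ℓ = (b : Ω)) : e η = η := by
  have hb0' : (b : Ω) ≠ 0 := fun h0 => hb0 (Subtype.ext h0)
  have hη0 : η ≠ 0 := by
    rintro rfl
    rw [zero_pow hℓ.ne'] at hη
    exact hb0' hη.symm
  -- the eigenvalue
  have hθ : (e η / η) ^ ℓ = 1 := by
    rw [div_pow, ← map_pow, hη, hfix _ b.2, div_self hb0']
  obtain ⟨ξ, hξ⟩ := a12_mu (C := C) hℓ hθ
  have heη : e η = algebraMap C Ω ξ * η := by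
    rw [hξ, div_mul_cancel₀ _ hη0]
  -- the uniformiser
  have hpl := a12_rs hP
  have ho := od_spec hFE' hpl
  obtain ⟨π, hπ0, hπ⟩ := ho.surj
  obtain ⟨n, hn⟩ := hdiv _ hpl
  have hz0 : (π ^ n : E') ≠ 0 := zpow_ne_zero n hπ0
  have hzn : od C (rs E' P) (π ^ n) = n := by
    have hnat : ∀ m : ℕ, od C (rs E' P) (π ^ m) = m := by
      intro m
      rw [ord_pow ho hπ0, hπ, mul_one]
    rcases Int.eq_nat_or_neg n with ⟨m, hm | hm⟩
    · rw [hm, zpow_natCast, hnat]
    · rw [hm, zpow_neg, zpow_natCast, ord_inv ho (pow_ne_zero _ hπ0), hnat]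
  have hz0' : ((π ^ n : E') : Ω) ≠ 0 := fun h0 => hz0 (Subtype.ext h0)
  set ε : Ω := η / ((π ^ n : E') : Ω) with hε
  have hε0 : ε ≠ 0 := div_ne_zero hη0 hz0'
  -- `ε ^ ℓ` is a unit at `P`
  have hy : od C (rs E' P) (b / (π ^ n) ^ ℓ) = 0 := by
    rw [div_eq_mul_inv, ho.mul _ _ hb0 (inv_ne_zero (pow_ne_zero _ hz0)),
      ord_inv ho (pow_ne_zero _ hz0), ord_pow ho hz0, hzn, hn]
    ring
  have hy0 : (b / (π ^ n) ^ ℓ : E') ≠ 0 := div_ne_zero hb0 (pow_ne_zero _ hz0)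
  have hεl : ε ^ ℓ = ((b / (π ^ n) ^ ℓ : E') : Ω) := by
    rw [hε, div_pow, hη]
    rfl
  have hεP : ε ∈ P := by
    apply a12_root P hℓ
    rw [hεl]
    exact (ho.mem _ hy0).2 (by rw [hy])
  have hεP' : ε⁻¹ ∈ P := by
    apply a12_root P hℓ
    rw [inv_pow, hεl]
    have h1 : (b / (π ^ n) ^ ℓ : E')⁻¹ ∈ rs E' P :=
      (ho.mem _ (inv_ne_zero hy0)).2 (by rw [ord_inv ho hy0, hy, neg_zero])
    exact h1
  have hPN : Plc C (N : Set Ω) P := by
    obtain ⟨z, hz, hzP⟩ := hP.2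
    exact ⟨hP.1, z, hE'N hz, hzP⟩
  obtain ⟨_, _, g3, g4⟩ := h3 C Ω N e P hFN hl hPN (fun z hz => hPL z (hNL hz))
  have hεN : ε ∈ N := div_mem hηN (hE'N (π ^ n : E').2)
  have k1 := g3 ε hεN hε0 hεP hεP'
  have e1 : e ε / ε - 1 = algebraMap C Ω (ξ - 1) := by
    rw [hε, map_div₀, heη, hfix _ (π ^ n : E').2, map_sub, map_one]
    field_simp
  rw [e1] at k1
  have h1 := g4 _ k1
  rw [heη, sub_eq_zero.1 h1, map_one, one_mul]

end basic

theorem R_A12 (h0f : st_A0f) (h3 : st_A3) (h6 : st_A6) (h12a : st_A12a) : st_A12 := by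
  intro C Ω _ _ _ _ _ _ L E hEL hFE hKC hNor e ℓ hℓ hl hSL hSE hL hmv hU P Q hP hQ hPL hQL hPQ
  have hE : ∀ z ∈ E, (e ^ ℓ) z = z := fun z hz => hL z (hEL hz)
  have heE : ∀ z ∈ E, e z ∈ E := fun z hz => (hSE z).2 hz
  have heL : ∀ z ∈ L, e z ∈ L := fun z hz => (hSL z).2 hz
  have hPE : StP e (E : Set Ω) P := fun z hz => hPL z (hEL hz)
  have hQE : StP e (E : Set Ω) Q := fun z hz => hQL z (hEL hz)
  -- at most two fixed places on `E`
  have htwo : ∀ O : ValuationSubring Ω, Plc C (E : Set Ω) O → StP e (E : Set Ω) O →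
      Eqv (E : Set Ω) O P ∨ Eqv (E : Set Ω) O Q := by
    intro O hO hOE
    by_contra hcon
    rw [not_or] at hcon
    refine h6 C Ω L E e ℓ hEL hFE hKC hl heE heL hℓ hL hmv P Q O hP hQ hO hPL hQL hOE hPQ ?_ ?_
    · exact fun h => hcon.1 (fun z hz => (h z hz).symm)
    · exact fun h => hcon.2 (fun z hz => (h z hz).symm)
  obtain ⟨E', hE', hFE', halg⟩ := h0f C Ω E e ℓ hFE hl heE hℓ.pos hE
  have hle : E' ≤ E := fun z hz => ((hE' z).1 hz).1
  have hfix : ∀ z ∈ E', e z = z := fun z hz => ((hE' z).1 hz).2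
  obtain ⟨b, hb0, hdiv, hbn⟩ := h12a C Ω E E' e ℓ P Q hFE hl heE hℓ hE hmv hE' hP hPE hQ hQE htwo hU
  have hb0' : (b : Ω) ≠ 0 := fun h0 => hb0 (Subtype.ext h0)
  obtain ⟨η, hη⟩ := IsAlgClosed.exists_pow_nat_eq (b : Ω) hℓ.pos
  have hηL : η ∈ L := hKC E' (hle.trans hEL) hFE' b ℓ hℓ.pos hb0 hdiv η hη
  have hηE : η ∉ E := fun h => hbn η h hη
  have hη0 : η ≠ 0 := by
    rintro rfl
    exact hηE (zero_mem E)
  -- the field `N = E(η)`
  have hηalg : IsAlgebraic E η := by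
    refine ⟨X ^ ℓ - Polynomial.C (⟨b, hle b.2⟩ : E), ?_, ?_⟩
    · exact (monic_X_pow_sub_C _ hℓ.ne_zero).ne_zero
    · rw [map_sub, map_pow, aeval_X, aeval_C, hη]
      exact sub_self _
  have hFN : FF C (IntermediateField.adjoin C ((E : Set Ω) ∪ (({η} : Finset Ω) : Set Ω))) :=
    ff_sup E hFE {η} (fun y hy => by
      rw [Finset.mem_singleton] at hy
      rw [hy]
      exact hηalg)
  set N := IntermediateField.adjoin C ((E : Set Ω) ∪ (({η} : Finset Ω) : Set Ω)) with hN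
  have hEN : E ≤ N := fun z hz => IntermediateField.subset_adjoin C _ (Or.inl hz)
  have hηN : η ∈ N := IntermediateField.subset_adjoin C _ (Or.inr (by simp))
  have hNL : N ≤ L := by
    rw [hN, IntermediateField.adjoin_le_iff]
    rintro z (hz | hz)
    · exact hEL hz
    · rw [Finset.coe_singleton, Set.mem_singleton_iff] at hz
      rw [hz]
      exact hηL
  -- `P` is a place of `E'`: `E` is algebraic over `E'`
  have hPE' : Plc C (E' : Set Ω) P := by
    refine ⟨hP.1, ?_⟩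
    by_contra hn
    push Not at hn
    obtain ⟨z, hz, hzP⟩ := hP.2
    apply hzP
    have hsub : ∀ w : E', algebraMap E' Ω w ∈ P := fun w => hn w w.2
    -- an algebraic element over a subfield contained in `P` is in `P`
    have hzint : IsIntegral E' z := (halg z hz).isIntegral
    obtain ⟨p, hpm, hp⟩ := hzint
    have : IsIntegral P z := by
      refine ⟨p.map ((algebraMap E' Ω).codRestrict P hsub), hpm.map _, ?_⟩
      rw [eval₂_map]
      exact hp
    obtain ⟨y, hy⟩ := (IsIntegrallyClosed.isIntegral_iff (R := P) (K := Ω)).1 this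
    rw [← hy]
    exact y.2
  have heη : e η = η := a12_fix h3 hℓ.pos (hle.trans hEN) hNL hFE' hFN hl hfix hPE' hPL hb0 hdiv
    hηN hη
  -- an automorphism over `E` which moves `η`
  obtain ⟨g, hgE, hgL, hgη⟩ := hNor.gal E le_rfl hEL η hηL hηE
  have hθ : (g η / η) ^ ℓ = 1 := by
    rw [div_pow, ← map_pow, hη, hgE _ (hle b.2), div_self hb0']
  obtain ⟨ξ, hξ⟩ := a12_mu (C := C) hℓ.pos hθ
  have hgη' : g η = algebraMap C Ω ξ * η := by
    rw [hξ, div_mul_cancel₀ _ hη0]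
  have hgC : ∀ c : C, g (algebraMap C Ω c) = algebraMap C Ω c := fun c => hgE _ (E.algebraMap_mem c)
  have hξ0 : algebraMap C Ω ξ ≠ 0 := by
    intro h0
    rw [h0, zero_mul] at hgη'
    exact hη0 ((map_eq_zero g).1 hgη')
  have hgsη : g.symm η = (algebraMap C Ω ξ)⁻¹ * η := by
    rw [RingEquiv.symm_apply_eq, map_mul, map_inv₀, hgC, hgη', inv_mul_cancel_left₀ hξ0]
  have hgsE : ∀ z ∈ E, g.symm z = z := by
    intro z hz
    rw [RingEquiv.symm_apply_eq]
    exact (hgE z hz).symm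
  -- stability of `N`
  have heN : ∀ z ∈ N, e z ∈ N := a12_mem (e : Ω →+* Ω) heE (by
    show e η ∈ N
    rw [heη]
    exact hηN)
  have hgN : ∀ z ∈ N, g z ∈ N := a12_mem (g : Ω →+* Ω) (fun z hz => by
    show g z ∈ E
    rw [hgE z hz]
    exact hz) (by
    show g η ∈ N
    rw [hgη']
    exact mul_mem (N.algebraMap_mem ξ) hηN)
  have hgsN : ∀ z ∈ N, g.symm z ∈ N := a12_mem (g.symm : Ω →+* Ω) (fun z hz => by
    show g.symm z ∈ E
    rw [hgsE z hz]
    exact hz) (by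
    show g.symm η ∈ N
    rw [hgsη]
    exact mul_mem (inv_mem (N.algebraMap_mem ξ)) hηN)
  -- `e` and `g` commute on `N`
  have hcomm : ∀ z ∈ N, e (g z) = g (e z) := a12_ext ((e : Ω →+* Ω).comp (g : Ω →+* Ω))
    ((g : Ω →+* Ω).comp (e : Ω →+* Ω)) (fun z hz => by
      show e (g z) = g (e z)
      rw [hgE z hz, hgE _ (heE z hz)]) (by
      show e (g η) = g (e η)
      rw [heη, hgη', map_mul, hl, heη])
  -- the place `R = g P`
  have hR : ∀ z, z ∈ P.comap (g.symm : Ω →+* Ω) ↔ g.symm z ∈ P := fun z => Iff.rfl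
  have hRE : ∀ z ∈ E, (z ∈ P.comap (g.symm : Ω →+* Ω) ↔ z ∈ P) := by
    intro z hz
    rw [hR, hgsE z hz]
  have hRN : Plc C (N : Set Ω) (P.comap (g.symm : Ω →+* Ω)) := by
    refine ⟨fun c => (hRE _ (E.algebraMap_mem c)).2 (hP.1 c), ?_⟩
    obtain ⟨z, hz, hzP⟩ := hP.2
    exact ⟨z, hEN hz, fun h => hzP ((hRE z hz).1 h)⟩
  have hRst : StP e (N : Set Ω) (P.comap (g.symm : Ω →+* Ω)) := by
    intro z hz
    have h1 : g.symm (e z) = e (g.symm z) := by
      rw [RingEquiv.symm_apply_eq, ← hcomm _ (hgsN z hz), RingEquiv.apply_symm_apply]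
    rw [hR, hR, h1]
    exact hPL _ (hNL (hgsN z hz))
  have hPRN : ¬ Eqv (N : Set Ω) P (P.comap (g.symm : Ω →+* Ω)) := by
    intro hcon
    -- `P₁ = {z | g z ∈ P}` agrees with `P` on `N`
    have hP1 : ∀ z, z ∈ P.comap (g : Ω →+* Ω) ↔ g z ∈ P := fun z => Iff.rfl
    have hP1E : ∀ z ∈ E, (z ∈ P.comap (g : Ω →+* Ω) ↔ z ∈ P) := by
      intro z hz
      rw [hP1, hgE z hz]
    have hP1N : Eqv (N : Set Ω) (P.comap (g : Ω →+* Ω)) P := by
      intro z hz
      rw [hP1, hcon (g z) (hgN z hz), hR, RingEquiv.symm_apply_apply]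
    have hPLp : Plc C (L : Set Ω) P := by
      obtain ⟨z, hz, hzP⟩ := hP.2
      exact ⟨hP.1, z, hEL hz, hzP⟩
    have hP1L : Plc C (L : Set Ω) (P.comap (g : Ω →+* Ω)) := by
      refine ⟨fun c => (hP1E _ (E.algebraMap_mem c)).2 (hP.1 c), ?_⟩
      obtain ⟨z, hz, hzP⟩ := hP.2
      exact ⟨z, hEL hz, fun h => hzP ((hP1E z hz).1 h)⟩
    obtain ⟨g₂, hg₂N, hg₂L, hg₂⟩ := hNor.conj N hEN hNL (P.comap (g : Ω →+* Ω)) P hP1L hPLp hP1N
    -- `γ = g g₂⁻¹`
    have hg₂s : ∀ z ∈ N, g₂.symm z = z := by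
      intro z hz
      rw [RingEquiv.symm_apply_eq]
      exact (hg₂N z hz).symm
    have hg₂sL : ∀ z, g₂.symm z ∈ L ↔ z ∈ L := by
      intro z
      have h := hg₂L (g₂.symm z)
      rw [RingEquiv.apply_symm_apply] at h
      exact h.symm
    have hst := hNor.stab (g₂.symm.trans g) (fun z hz => by
        show g (g₂.symm z) = z
        rw [hg₂s z (hEN hz), hgE z hz]) (fun z => by
        show g (g₂.symm z) ∈ (L : Set Ω) ↔ z ∈ (L : Set Ω)
        rw [hgL]
        exact hg₂sL z) P hPLp (fun z hz => by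
        show g (g₂.symm z) ∈ P ↔ z ∈ P
        have h := hg₂ (g₂.symm z) ((hg₂sL z).2 hz)
        rw [RingEquiv.apply_symm_apply, hP1] at h
        exact h.symm)
    have h5 : g (g₂.symm η) = η := hst η hηL
    rw [hg₂s η hηN] at h5
    exact hgη h5
  refine h6 C Ω L N e ℓ hNL hFN hKC hl heN heL hℓ hL ?_ P Q _ ?_ ?_ hRN hPL hQL hRst ?_ hPRN ?_
  · obtain ⟨z, hz, hz'⟩ := hmv
    exact ⟨z, hEN hz, hz'⟩
  · obtain ⟨z, hz, hzP⟩ := hP.2
    exact ⟨hP.1, z, hEN hz, hzP⟩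
  · obtain ⟨z, hz, hzQ⟩ := hQ.2
    exact ⟨hQ.1, z, hEN hz, hzQ⟩
  · exact fun h => hPQ (fun z hz => h z (hEN hz))
  · exact fun h => hPQ (fun z hz => by rw [← hRE z hz]; exact (h z (hEN hz)).symm)

end SGT
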