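import Pool.Agent.SGT.StX

/-!
# [SGT-A12a] descent of the unramified cyclic extension to the fixed field (MP_3dd09b_ag)
-/

set_option autoImplicit false
set_option linter.unusedVariables false

open GT IsLocalRing Polynomial

namespace SGT

section basic

variable {C Ω : Type} [Field C] [Field Ω] [Algebra C Ω]

/-- `σ ^ n` preserves `N`. -/
private theorem a12a_pow_mem {N : IntermediateField C Ω} {σ : Ω ≃+* Ω} (h : ∀ z ∈ N, σ z ∈ N) (n : ℕ) :
    ∀ z ∈ N, (σ ^ n) z ∈ N := by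
  induction n with
  | zero => intro z hz; exact hz
  | succ n ih =>
    intro z hz
    rw [pow_succ']
    exact h _ (ih z hz)

/-- Eigenvectors. -/
private theorem a12a_pow_eig {σ : Ω ≃+* Ω} (hl : Lin C σ) {z : Ω} {c : C}
    (h : σ z = algebraMap C Ω c * z) (n : ℕ) : (σ ^ n) z = algebraMap C Ω (c ^ n) * z := by
  induction n with
  | zero => simp
  | succ n ih =>
    have e : (σ ^ (n + 1)) z = σ ((σ ^ n) z) := by
      rw [pow_succ']
      rfl
    rw [e, ih, map_mul, hl, h, pow_succ, map_mul]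
    ring

/-- `σ ^ (ℓ q + r) = σ ^ r` on the elements fixed by `σ ^ ℓ`. -/
private theorem a12a_mod' {N : IntermediateField C Ω} {σ : Ω ≃+* Ω} (hσ : ∀ z ∈ N, σ z ∈ N) {ℓ : ℕ}
    (h : ∀ z ∈ N, (σ ^ ℓ) z = z) (q r : ℕ) : ∀ z ∈ N, (σ ^ (ℓ * q + r)) z = (σ ^ r) z := by
  induction q with
  | zero => intro z hz; simp
  | succ q ih =>
    intro z hz
    have e : ℓ * (q + 1) + r = ℓ + (ℓ * q + r) := by ring
    have e2 : (σ ^ (ℓ + (ℓ * q + r))) z = (σ ^ ℓ) ((σ ^ (ℓ * q + r)) z) := by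
      rw [pow_add]
      rfl
    rw [e, e2, h _ (a12a_pow_mem hσ _ z hz), ih z hz]

/-- The Lagrange resolvents. -/
private theorem a12a_lag {N : IntermediateField C Ω} {σ : Ω ≃+* Ω} (hl : Lin C σ)
    (hσ : ∀ z ∈ N, σ z ∈ N) {ℓ : ℕ} (hℓ : 0 < ℓ) (h : ∀ z ∈ N, (σ ^ ℓ) z = z) {ζ : C}
    (hζ : IsPrimitiveRoot ζ ℓ) (z : Ω) (hz : z ∈ N) :
    ∃ w : ℕ → Ω, (∀ k, w k ∈ N) ∧ (∀ k, σ (w k) = algebraMap C Ω (ζ ^ k) * w k) ∧
      (ℓ : Ω) * z = ∑ k ∈ Finset.range ℓ, w k := by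
  have hζ0 : ζ ≠ 0 := hζ.ne_zero hℓ.ne'
  refine ⟨fun k => ∑ i ∈ Finset.range ℓ, algebraMap C Ω ((ζ⁻¹) ^ (i * k)) * (σ ^ i) z, ?_, ?_, ?_⟩
  · intro k
    apply sum_mem
    intro i _
    exact mul_mem (N.algebraMap_mem _) (a12a_pow_mem hσ i z hz)
  · intro k
    have hstep : ∀ i, σ (algebraMap C Ω ((ζ⁻¹) ^ (i * k)) * (σ ^ i) z) =
        algebraMap C Ω (ζ ^ k) * (algebraMap C Ω ((ζ⁻¹) ^ ((i + 1) * k)) * (σ ^ (i + 1)) z) := by
      intro i
      have e : (σ ^ (i + 1)) z = σ ((σ ^ i) z) := by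
        rw [pow_succ']
        rfl
      rw [map_mul, hl, e, ← mul_assoc, ← map_mul]
      congr 2
      rw [add_mul, one_mul, pow_add, inv_pow ζ k, mul_comm ((ζ⁻¹) ^ (i * k)), ← mul_assoc,
        mul_inv_cancel₀ (pow_ne_zero _ hζ0), one_mul]
    rw [map_sum, Finset.mul_sum]
    simp only [hstep]
    rw [← Finset.mul_sum, ← Finset.mul_sum]
    congr 1
    have h1 := Finset.sum_range_succ
      (fun i => algebraMap C Ω ((ζ⁻¹) ^ (i * k)) * (σ ^ i) z) ℓ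
    have h2 := Finset.sum_range_succ'
      (fun i => algebraMap C Ω ((ζ⁻¹) ^ (i * k)) * (σ ^ i) z) ℓ
    have h3 : algebraMap C Ω ((ζ⁻¹) ^ (ℓ * k)) * (σ ^ ℓ) z =
        algebraMap C Ω ((ζ⁻¹) ^ (0 * k)) * (σ ^ 0) z := by
      rw [h z hz, pow_mul, inv_pow, hζ.pow_eq_one]
      simp
    rw [h1, h3] at h2
    exact (add_right_cancel h2).symm
  · rw [Finset.sum_comm]
    have hsum : ∀ i ∈ Finset.range ℓ, ∑ k ∈ Finset.range ℓ, algebraMap C Ω ((ζ⁻¹) ^ (i * k)) * (σ ^ i) z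
        = if i = 0 then (ℓ : Ω) * z else 0 := by
      intro i hi
      rw [Finset.mem_range] at hi
      rw [← Finset.sum_mul]
      by_cases h0 : i = 0
      · subst h0
        simp
      · rw [if_neg h0]
        have hx : (ζ⁻¹) ^ i ≠ 1 := by
          rw [inv_pow, Ne, inv_eq_one]
          exact hζ.pow_ne_one_of_pos_of_lt h0 hi
        have hg : ∑ k ∈ Finset.range ℓ, ((ζ⁻¹) ^ i) ^ k = 0 := by
          have h1 := mul_geom_sum ((ζ⁻¹) ^ i) ℓ
          have h2 : ((ζ⁻¹) ^ i) ^ ℓ = 1 := by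
            rw [← pow_mul, mul_comm i ℓ, pow_mul, inv_pow ζ ℓ, hζ.pow_eq_one, inv_one, one_pow]
          rw [h2, sub_self] at h1
          exact (mul_eq_zero.1 h1).resolve_left (sub_ne_zero.2 hx)
        have hg' : ∑ k ∈ Finset.range ℓ, algebraMap C Ω ((ζ⁻¹) ^ (i * k)) = 0 := by
          simp only [pow_mul]
          rw [← map_sum, hg, map_zero]
        rw [hg', zero_mul]
    rw [Finset.sum_congr rfl hsum, Finset.sum_ite_eq' (Finset.range ℓ) 0 (fun _ => (ℓ : Ω) * z),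
      if_pos (Finset.mem_range.2 hℓ)]

/-- An automorphism of `N` which is trivial on the fixed field and maps `ρ` to `ζ ^ j ρ` is
`σ ^ j`. -/
private theorem a12a_ext [CharZero Ω] {N : IntermediateField C Ω} {σ : Ω ≃+* Ω} (hl : Lin C σ)
    (hσ : ∀ z ∈ N, σ z ∈ N) {ℓ : ℕ} (hℓ : 0 < ℓ) (h : ∀ z ∈ N, (σ ^ ℓ) z = z) {ζ : C}
    (hζ : IsPrimitiveRoot ζ ℓ) {ρ : Ω} (hρ : ρ ∈ N) (hρ0 : ρ ≠ 0)
    (hσρ : σ ρ = algebraMap C Ω ζ * ρ) (g : N ≃+* N)
    (hg : ∀ w : N, σ (w : Ω) = w → g w = w) (j : ℕ)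
    (hgρ : ((g ⟨ρ, hρ⟩ : N) : Ω) = algebraMap C Ω (ζ ^ j) * ρ) (z : N) :
    ((g z : N) : Ω) = (σ ^ j) (z : Ω) := by
  obtain ⟨w, hw1, hw2, hw3⟩ := a12a_lag hl hσ hℓ h hζ (z : Ω) z.2
  have hk : ∀ k, ((g ⟨w k, hw1 k⟩ : N) : Ω) = (σ ^ j) (w k) := by
    intro k
    have hc : ∀ c : C, g (algebraMap C N c) = algebraMap C N c := by
      intro c
      apply hg
      exact hl c
    have hρk : ρ ^ k ∈ N := pow_mem hρ k
    have hfix : σ (w k / ρ ^ k) = w k / ρ ^ k := by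
      rw [map_div₀, map_pow, hσρ, hw2, mul_pow, ← map_pow]
      have h1 : algebraMap C Ω (ζ ^ k) ≠ 0 := by
        rw [_root_.map_ne_zero]
        exact pow_ne_zero _ (hζ.ne_zero hℓ.ne')
      rw [mul_div_mul_left _ _ h1]
    have hmem : w k / ρ ^ k ∈ N := div_mem (hw1 k) hρk
    have e1 : (⟨w k, hw1 k⟩ : N) = ⟨w k / ρ ^ k, hmem⟩ * (⟨ρ, hρ⟩ : N) ^ k := by
      apply Subtype.ext
      show w k = w k / ρ ^ k * ρ ^ k
      rw [div_mul_cancel₀ _ (pow_ne_zero _ hρ0)]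
    have e2 : g ⟨w k / ρ ^ k, hmem⟩ = ⟨w k / ρ ^ k, hmem⟩ := hg _ hfix
    rw [e1, map_mul, map_pow, e2]
    show w k / ρ ^ k * ((g ⟨ρ, hρ⟩ : N) : Ω) ^ k = _
    have e3 : (σ ^ j) (w k) = algebraMap C Ω ((ζ ^ k) ^ j) * w k := a12a_pow_eig hl (hw2 k) j
    rw [hgρ, e3, mul_pow, ← map_pow, ← pow_mul, ← pow_mul, mul_comm j k]
    have h2 : ρ ^ k ≠ 0 := pow_ne_zero _ hρ0
    field_simp
  have hs : (ℓ : Ω) * ((g z : N) : Ω) = (ℓ : Ω) * (σ ^ j) (z : Ω) := by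
    have e1 : (ℓ : N) * z = ∑ k ∈ Finset.range ℓ, (⟨w k, hw1 k⟩ : N) := by
      apply Subtype.ext
      have : ((∑ k ∈ Finset.range ℓ, (⟨w k, hw1 k⟩ : N) : N) : Ω) = ∑ k ∈ Finset.range ℓ, w k := by
        rw [show ((∑ k ∈ Finset.range ℓ, (⟨w k, hw1 k⟩ : N) : N) : Ω) =
          algebraMap N Ω (∑ k ∈ Finset.range ℓ, (⟨w k, hw1 k⟩ : N)) from rfl, map_sum]
        rfl
      rw [this, ← hw3]
      rfl
    have e2 : (ℓ : N) * g z = ∑ k ∈ Finset.range ℓ, g (⟨w k, hw1 k⟩ : N) := by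
      rw [← map_sum, ← e1, map_mul, map_natCast]
    have e3 : (ℓ : Ω) * ((g z : N) : Ω) = ∑ k ∈ Finset.range ℓ, ((g (⟨w k, hw1 k⟩ : N) : N) : Ω) := by
      have := congrArg (algebraMap N Ω) e2
      rw [map_sum] at this
      exact this
    rw [e3]
    have e4 : (ℓ : Ω) * (σ ^ j) (z : Ω) = ∑ k ∈ Finset.range ℓ, (σ ^ j) (w k) := by
      rw [← map_sum, ← hw3, map_mul, map_natCast]
    rw [e4]
    exact Finset.sum_congr rfl fun k _ => hk k
  exact mul_left_cancel₀ (Nat.cast_ne_zero.2 hℓ.ne') hs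

/-- The restriction of `σ` to a stable subfield. -/
private def a12a_res (N : IntermediateField C Ω) (σ : Ω ≃+* Ω) (h : ∀ z ∈ N, σ z ∈ N)
    (h' : ∀ z ∈ N, σ.symm z ∈ N) : N ≃+* N where
  toFun z := ⟨σ z, h z z.2⟩
  invFun z := ⟨σ.symm z, h' z z.2⟩
  left_inv z := Subtype.ext (σ.symm_apply_apply z)
  right_inv z := Subtype.ext (σ.apply_symm_apply z)
  map_mul' x y := Subtype.ext (map_mul σ (x : Ω) y)
  map_add' x y := Subtype.ext (map_add σ (x : Ω) y)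

/-- Powers of an automorphism that is given by `σ ^ j`. -/
private theorem a12a_iter {N : IntermediateField C Ω} {σ : Ω ≃+* Ω} (g : N ≃+* N) (j : ℕ)
    (hg : ∀ z : N, ((g z : N) : Ω) = (σ ^ j) (z : Ω)) (m : ℕ) (z : N) :
    (((g ^ m) z : N) : Ω) = (σ ^ (j * m)) (z : Ω) := by
  induction m with
  | zero => simp
  | succ m ih =>
    have e : (g ^ (m + 1)) z = g ((g ^ m) z) := by
      rw [pow_succ']
      rfl
    have e2 : (σ ^ (j * (m + 1))) (z : Ω) = (σ ^ j) ((σ ^ (j * m)) (z : Ω)) := by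
      rw [mul_add, mul_one, add_comm, pow_add]
      rfl
    rw [e, hg, ih, e2]

end basic

section a12a

/-- `(T - 1) ^ ℓ x` is an `ℓ`-th multiple if `T ^ ℓ x = x`. -/
private theorem a12a_end {A : Type} [AddCommGroup A] (T : AddMonoid.End A) {ℓ : ℕ} (hℓ : ℓ.Prime)
    (x : A) (hT : (T ^ ℓ) x = x) : ∃ y : A, ((T + (-1)) ^ ℓ) x = ℓ • y := by
  obtain ⟨r, hr⟩ : ∃ r : AddMonoid.End A, (T + (-1)) ^ ℓ = T ^ ℓ + (-1) ^ ℓ + (ℓ : AddMonoid.End A) * r := by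
    obtain ⟨r, hr⟩ := Commute.exists_add_pow_prime_eq hℓ (Commute.neg_right (Commute.one_right T))
    exact ⟨T * -1 * r, by rw [hr]; simp only [mul_assoc]⟩
  have h1 : ((T + (-1)) ^ ℓ) x = (T ^ ℓ) x + ((-1 : AddMonoid.End A) ^ ℓ) x + ℓ • (r x) := by
    rw [hr]
    have h2 : (T ^ ℓ + (-1) ^ ℓ + (ℓ : AddMonoid.End A) * r) x =
        (T ^ ℓ) x + ((-1 : AddMonoid.End A) ^ ℓ) x + ((ℓ : AddMonoid.End A) * r) x := rfl
    rw [h2]
    congr 1
  rw [h1, hT]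
  rcases hℓ.eq_two_or_odd' with h | h
  · subst h
    refine ⟨x + r x, ?_⟩
    have h2 : ((-1 : AddMonoid.End A) ^ 2) = 1 := by rw [neg_one_sq]
    rw [h2]
    have h3 : (1 : AddMonoid.End A) x = x := rfl
    rw [h3, two_nsmul, two_nsmul]
    abel
  · refine ⟨r x, ?_⟩
    have h2 : ((-1 : AddMonoid.End A) ^ ℓ) = -1 := h.neg_one_pow
    rw [h2]
    have h3 : (-1 : AddMonoid.End A) x = -x := rfl
    rw [h3, add_neg_cancel, zero_add]

/-- Among `b, τ b / b, ...` there is an element which is not an `ℓ`-th power while the next one is. -/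
private theorem a12a_step {N : Type} [Field N] (τ : N ≃+* N) {ℓ : ℕ} (hℓ : ℓ.Prime)
    (hτ : ∀ z, (τ ^ ℓ) z = z) (Q : N → Prop) (hQτ : ∀ z, z ≠ 0 → Q z → Q (τ z))
    (hQd : ∀ z w, z ≠ 0 → w ≠ 0 → Q z → Q w → Q (z / w)) (b : N) (hb : b ≠ 0) (hQ : Q b)
    (hpow : ∀ z, z ^ ℓ ≠ b) :
    ∃ b₁ c : N, b₁ ≠ 0 ∧ c ≠ 0 ∧ Q b₁ ∧ (∀ z, z ^ ℓ ≠ b₁) ∧ τ b₁ = b₁ * c ^ ℓ := by
  classical
  let T : AddMonoid.End (Additive Nˣ) := MonoidHom.toAdditive (Units.map (τ : N →* N))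
  have hT1 : ∀ x : Additive Nˣ, ((Additive.toMul (T x) : Nˣ) : N) = τ ((Additive.toMul x : Nˣ) : N) :=
    fun x => rfl
  have hTn : ∀ (n : ℕ) (x : Additive Nˣ),
      ((Additive.toMul ((T ^ n) x) : Nˣ) : N) = (τ ^ n) ((Additive.toMul x : Nˣ) : N) := by
    intro n
    induction n with
    | zero => intro x; rfl
    | succ n ih =>
      intro x
      have e1 : (T ^ (n + 1)) x = T ((T ^ n) x) := by
        rw [pow_succ']
        rfl
      have e2 : (τ ^ (n + 1)) ((Additive.toMul x : Nˣ) : N) =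
          τ ((τ ^ n) ((Additive.toMul x : Nˣ) : N)) := by
        rw [pow_succ']
        rfl
      rw [e1, e2, hT1, ih]
  let x₀ : Additive Nˣ := Additive.ofMul (Units.mk0 b hb)
  let p : ℕ → Prop := fun n => ∃ y : Additive Nˣ, ((T + (-1)) ^ n) x₀ = ℓ • y
  have hp0 : ¬ p 0 := by
    rintro ⟨y, hy⟩
    apply hpow ((Additive.toMul y : Nˣ) : N)
    have h1 : x₀ = ℓ • y := hy
    have h2 : (Additive.toMul x₀ : Nˣ) = (Additive.toMul y) ^ ℓ := by
      rw [h1]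
      rfl
    have h3 := congrArg (Units.val) h2
    rw [Units.val_pow_eq_pow_val] at h3
    exact h3.symm
  have hpl : p ℓ := by
    refine a12a_end T hℓ x₀ ?_
    apply Additive.toMul.injective
    apply Units.ext
    rw [hTn, hτ]
  obtain ⟨n, hn1, hn2⟩ := Nat.exists_not_and_succ_of_not_zero_of_exists hp0 ⟨ℓ, hpl⟩
  obtain ⟨y, hy⟩ := hn2
  have hDx : ∀ x : Additive Nˣ, ((Additive.toMul ((T + (-1)) x) : Nˣ) : N) =
      τ ((Additive.toMul x : Nˣ) : N) / ((Additive.toMul x : Nˣ) : N) := by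
    intro x
    have e1 : (T + (-1)) x = T x - x := by
      rw [sub_eq_add_neg]
      rfl
    rw [e1]
    have e2 : (Additive.toMul (T x - x) : Nˣ) = Additive.toMul (T x) / Additive.toMul x := rfl
    rw [e2, Units.val_div_eq_div_val, hT1]
  have hsucc : ((T + (-1)) ^ (n + 1)) x₀ = (T + (-1)) (((T + (-1)) ^ n) x₀) := by
    rw [pow_succ']
    rfl
  set x := ((T + (-1)) ^ n) x₀ with hx
  refine ⟨((Additive.toMul x : Nˣ) : N), ((Additive.toMul y : Nˣ) : N), Units.ne_zero _,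
    Units.ne_zero _, ?_, ?_, ?_⟩
  · have key : ∀ m : ℕ, Q ((Additive.toMul (((T + (-1)) ^ m) x₀) : Nˣ) : N) := by
      intro m
      induction m with
      | zero => exact hQ
      | succ m ih =>
        have e1 : ((T + (-1)) ^ (m + 1)) x₀ = (T + (-1)) (((T + (-1)) ^ m) x₀) := by
          rw [pow_succ']
          rfl
        rw [e1, hDx]
        exact hQd _ _ ((_root_.map_ne_zero τ).2 (Units.ne_zero _)) (Units.ne_zero _)
          (hQτ _ (Units.ne_zero _) ih) ih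
    exact key n
  · intro z hz
    apply hn1
    have hz0 : z ≠ 0 := by
      rintro rfl
      rw [zero_pow hℓ.ne_zero] at hz
      exact Units.ne_zero _ hz.symm
    refine ⟨Additive.ofMul (Units.mk0 z hz0), ?_⟩
    apply Additive.toMul.injective
    apply Units.ext
    have e1 : (Additive.toMul (ℓ • Additive.ofMul (Units.mk0 z hz0)) : Nˣ) = Units.mk0 z hz0 ^ ℓ := rfl
    rw [e1, Units.val_pow_eq_pow_val, Units.val_mk0]
    exact hz.symm
  · have h1 := hDx x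
    rw [← hsucc, hy] at h1
    have e1 : (Additive.toMul (ℓ • y) : Nˣ) = (Additive.toMul y) ^ ℓ := rfl
    rw [e1, Units.val_pow_eq_pow_val, eq_div_iff (Units.ne_zero _)] at h1
    rw [← h1, mul_comm]

/-- An eigenvector for the twisted action (a form of Hilbert 90). -/
private theorem a12a_h90 {C N : Type} [Field C] [IsAlgClosed C] [Field N] [Algebra C N]
    (τ : N ≃+* N) (hC : ∀ c : C, τ (algebraMap C N c) = algebraMap C N c) {ℓ : ℕ} (hℓ : ℓ.Prime)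
    (hτ : ∀ z, (τ ^ ℓ) z = z) {ζ : C} (hζ : IsPrimitiveRoot ζ ℓ) {b c : N} (hb : b ≠ 0) (hc : c ≠ 0)
    (hbc : τ b = b * c ^ ℓ) :
    ∃ (w : N) (θ : C), w ≠ 0 ∧ τ (b * w ^ ℓ) = algebraMap C N θ * (b * w ^ ℓ) := by
  classical
  -- the norm of `c`
  have hsc : ∀ (j : ℕ) (z : N), (τ ^ (j + 1)) z = τ ((τ ^ j) z) := by
    intro j z
    rw [pow_succ']
    rfl
  have hcb : c ^ ℓ = τ b / b := by
    rw [hbc, mul_div_cancel_left₀ _ hb]
  have hnl : (∏ j ∈ Finset.range ℓ, (τ ^ j) c) ^ ℓ = 1 := by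
    rw [← Finset.prod_pow]
    have e1 : ∀ j ∈ Finset.range ℓ, ((τ ^ j) c) ^ ℓ = (τ ^ (j + 1)) b / (τ ^ j) b := by
      intro j _
      rw [← map_pow, hcb, map_div₀]
      congr 1
    have e2 : ∀ n : ℕ, ∏ j ∈ Finset.range n, (τ ^ (j + 1)) b / (τ ^ j) b = (τ ^ n) b / b := by
      intro n
      induction n with
      | zero =>
        rw [Finset.prod_range_zero]
        exact (div_self hb).symm
      | succ n ih =>
        have hn : (τ ^ n) b ≠ 0 := (_root_.map_ne_zero (τ ^ n)).2 hb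
        rw [Finset.prod_range_succ, ih]
        field_simp
    rw [Finset.prod_congr rfl e1, e2, hτ]
    exact div_self hb
  have hζN : IsPrimitiveRoot (algebraMap C N ζ) ℓ := hζ.map_of_injective (algebraMap C N).injective
  have : NeZero ℓ := ⟨hℓ.ne_zero⟩
  obtain ⟨k, _, hk⟩ := hζN.eq_pow_of_pow_eq_one hnl
  -- the twisted action
  let τL : N →ₗ[C] N :=
    { toFun := τ
      map_add' := map_add τ
      map_smul' := fun a z => by
        rw [Algebra.smul_def, map_mul, hC, RingHom.id_apply, Algebra.smul_def] }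
  let T : N →ₗ[C] N := (LinearMap.mulLeft C c).comp τL
  have hTz : ∀ z, T z = c * τ z := fun z => rfl
  have hT1 : ∀ m : ℕ, (T ^ m) 1 = ∏ j ∈ Finset.range m, (τ ^ j) c := by
    intro m
    induction m with
    | zero => rfl
    | succ m ih =>
      have e1 : (T ^ (m + 1)) 1 = T ((T ^ m) 1) := by
        rw [pow_succ']
        rfl
      rw [e1, ih, hTz, map_prod, Finset.prod_range_succ', mul_comm]
      congr 1
      refine Finset.prod_congr rfl fun j _ => ?_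
      rw [hsc]
  let W : Submodule C N := Submodule.span C (Set.range fun i : Fin ℓ => (T ^ (i : ℕ)) 1)
  have hW1 : (1 : N) ∈ W := Submodule.subset_span ⟨⟨0, hℓ.pos⟩, rfl⟩
  have hWT : ∀ w ∈ W, T w ∈ W := by
    intro w hw
    induction hw using Submodule.span_induction with
    | mem z hz =>
      obtain ⟨i, rfl⟩ := hz
      have e1 : T ((T ^ (i : ℕ)) 1) = (T ^ ((i : ℕ) + 1)) 1 := by
        rw [pow_succ']
        rfl
      show T ((T ^ (i : ℕ)) 1) ∈ W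
      rw [e1]
      by_cases hi : (i : ℕ) + 1 < ℓ
      · exact Submodule.subset_span ⟨⟨(i : ℕ) + 1, hi⟩, rfl⟩
      · have hi' : (i : ℕ) + 1 = ℓ := by omega
        rw [hi', hT1, ← hk, ← map_pow]
        have e2 : algebraMap C N (ζ ^ k) = ζ ^ k • (1 : N) := by
          rw [Algebra.smul_def, mul_one]
        rw [e2]
        exact W.smul_mem _ hW1
    | zero => rw [map_zero]; exact zero_mem _
    | add a b _ _ ha hb => rw [map_add]; exact add_mem ha hb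
    | smul a z _ hz => rw [map_smul]; exact W.smul_mem _ hz
  have hfd : FiniteDimensional C W := FiniteDimensional.span_of_finite C (Set.finite_range _)
  have hnt : Nontrivial W := ⟨⟨⟨1, hW1⟩, 0, fun h => one_ne_zero (congrArg Subtype.val h)⟩⟩
  obtain ⟨μ, hμ⟩ := Module.End.exists_eigenvalue (T.restrict hWT)
  obtain ⟨w, hw⟩ := hμ.exists_hasEigenvector
  have hw1 : c * τ (w : N) = algebraMap C N μ * (w : N) := by
    have h1 := congrArg Subtype.val hw.apply_eq_smul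
    have h2 : ((μ • w : W) : N) = algebraMap C N μ * (w : N) := by
      rw [← Algebra.smul_def]
      rfl
    rw [h2] at h1
    exact h1
  have hw0 : (w : N) ≠ 0 := fun h => hw.2 (Subtype.ext h)
  refine ⟨w, μ ^ ℓ, hw0, ?_⟩
  rw [map_mul, map_pow, hbc, map_pow]
  calc b * c ^ ℓ * τ (w : N) ^ ℓ = b * (c * τ (w : N)) ^ ℓ := by rw [mul_pow]; ring
    _ = b * (algebraMap C N μ * (w : N)) ^ ℓ := by rw [hw1]
    _ = _ := by rw [mul_pow]; ring

/-- A constant which is a nonunit is zero. -/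
private theorem a12a_const {C Ω : Type} [Field C] [Field Ω] [Algebra C Ω] {P : ValuationSubring Ω}
    (hP : ∀ c : C, algebraMap C Ω c ∈ P) {c : C} (h : algebraMap C Ω c ∈ P.nonunits) : c = 0 := by
  by_contra hc
  rw [ValuationSubring.mem_nonunits_iff] at h
  have h2 : P.valuation (algebraMap C Ω c⁻¹) ≤ 1 := (P.valuation_le_one_iff _).2 (hP c⁻¹)
  have h3 : P.valuation (algebraMap C Ω c) * P.valuation (algebraMap C Ω c⁻¹) = 1 := by
    rw [← map_mul, ← map_mul, mul_inv_cancel₀ hc, map_one, map_one]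
  have h4 : P.valuation (algebraMap C Ω c) * P.valuation (algebraMap C Ω c⁻¹) < 1 :=
    calc P.valuation (algebraMap C Ω c) * P.valuation (algebraMap C Ω c⁻¹)
        ≤ P.valuation (algebraMap C Ω c) * 1 := mul_le_mul_right h2 _
      _ < 1 := by rw [mul_one]; exact h
  rw [h3] at h4
  exact lt_irrefl _ h4

/-- The restriction of a place. -/
private theorem a12a_rs {C Ω : Type} [Field C] [Field Ω] [Algebra C Ω] {N : IntermediateField C Ω}
    {P : ValuationSubring Ω} (h : Plc C (N : Set Ω) P) : IsPl C (rs N P) := by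
  refine ⟨fun c => h.1 c, fun ht => ?_⟩
  obtain ⟨z, hz, hzP⟩ := h.2
  apply hzP
  have h1 : (⟨z, hz⟩ : N) ∈ rs N P := by
    rw [ht]
    exact ValuationSubring.mem_top _
  exact h1

/-- Solving `u + j v = 0` modulo a prime. -/
private theorem a12a_solve {ℓ : ℕ} (hℓ : ℓ.Prime) (u v : ℤ) (hv : ¬ (ℓ : ℤ) ∣ v) :
    ∃ j : ℕ, (ℓ : ℤ) ∣ u + j * v := by
  have : Fact ℓ.Prime := ⟨hℓ⟩
  have hv' : ((v : ℤ) : ZMod ℓ) ≠ 0 := fun h => hv ((ZMod.intCast_zmod_eq_zero_iff_dvd _ _).1 h)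
  refine ⟨(-((u : ℤ) : ZMod ℓ) / ((v : ℤ) : ZMod ℓ)).val, ?_⟩
  rw [← ZMod.intCast_zmod_eq_zero_iff_dvd]
  push_cast
  rw [ZMod.natCast_val, ZMod.cast_id', id, div_mul_cancel₀ _ hv', add_neg_cancel]

end a12a

theorem R_A12a (h0f : st_A0f) (h1 : st_A1) (h2 : st_A2) (h4 : st_A4) (h6a : st_A6a) : st_A12a := by
  classical
  intro C Ω _ _ _ _ _ E E' σ ℓ P Q hFE hl hσ hℓ hN hmv hE' hP hPs hQ hQs hPQ hU
  have hchar : CharZero Ω := charZero_of_injective_algebraMap (algebraMap C Ω).injective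
  obtain ⟨z₀, hz₀, hz₀'⟩ := hmv
  obtain ⟨p, ρ, ζ, hp, hpl, hρ, hρ0, hζ, hσρ⟩ := h1 C Ω E σ ℓ hl hσ hℓ.pos z₀ hz₀ (hN z₀ hz₀) hz₀'
  obtain rfl : p = ℓ := (Nat.prime_dvd_prime_iff_eq hp hℓ).1 hpl
  -- the fixed field
  obtain ⟨N₀, hN₀, hF₀, halg⟩ := h0f C Ω E σ p hFE hl hσ hℓ.pos hN
  obtain rfl : N₀ = E' := by
    ext z
    rw [hN₀, hE']
  have hle : N₀ ≤ E := fun z hz => ((hN₀ z).1 hz).1
  have hsym : ∀ z ∈ E, σ.symm z ∈ E := by
    intro z hz
    have e : σ.symm z = (σ ^ (p - 1)) z := by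
      rw [RingEquiv.symm_apply_eq]
      have e2 : σ ((σ ^ (p - 1)) z) = (σ ^ (p - 1 + 1)) z := by
        rw [pow_succ']
        rfl
      rw [e2, Nat.sub_add_cancel hℓ.one_lt.le, hN z hz]
    rw [e]
    exact a12a_pow_mem hσ _ z hz
  have hSta : Sta σ (E : Set Ω) := by
    intro z
    constructor
    · intro hz
      have h3 := hsym _ hz
      rwa [RingEquiv.symm_apply_apply] at h3
    · exact fun hz => hσ z hz
  let i : N₀ →+* E := (IntermediateField.inclusion hle : N₀ →+* E)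
  have hicoe : ∀ w : N₀, ((i w : E) : Ω) = (w : Ω) := fun w => rfl
  have hi : ∀ c : C, i (algebraMap C N₀ c) = algebraMap C E c := fun c => rfl
  have halg' : ∀ z : E, ∃ q : Polynomial N₀, q ≠ 0 ∧ q.eval₂ i z = 0 := by
    intro z
    obtain ⟨q, hq0, hq⟩ := halg z z.2
    refine ⟨q, hq0, ?_⟩
    apply (algebraMap E Ω).injective
    rw [map_zero, Polynomial.hom_eval₂]
    exact hq
  let τ : E ≃+* E := a12a_res E σ hσ hsym
  have hτcoe : ∀ z : E, ((τ z : E) : Ω) = σ (z : Ω) := fun z => rfl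
  have hτpow : ∀ (n : ℕ) (z : E), (((τ ^ n) z : E) : Ω) = (σ ^ n) (z : Ω) := by
    intro n
    induction n with
    | zero => intro z; rfl
    | succ n ih =>
      intro z
      have e1 : (τ ^ (n + 1)) z = τ ((τ ^ n) z) := by
        rw [pow_succ']
        rfl
      have e2 : (σ ^ (n + 1)) (z : Ω) = σ ((σ ^ n) (z : Ω)) := by
        rw [pow_succ']
        rfl
      rw [e1, e2, hτcoe, ih]
  have hτl : ∀ z : E, (τ ^ p) z = z := by
    intro z
    apply Subtype.ext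
    rw [hτpow, hN _ z.2]
  have hτC : ∀ c : C, τ (algebraMap C E c) = algebraMap C E c := fun c => Subtype.ext (hl c)
  have hfix : ∀ z : E, (∀ g : E ≃+* E, (∀ w : N₀, g (i w) = i w) → g z = z) → ∃ w : N₀, i w = z := by
    intro z hz
    have h3 := hz τ (fun w => Subtype.ext ((hN₀ w).1 w.2).2)
    have h4 : σ (z : Ω) = z := congrArg Subtype.val h3
    exact ⟨⟨z, (hN₀ z).2 ⟨z.2, h4⟩⟩, rfl⟩
  have hρN : (⟨ρ, hρ⟩ : E) ≠ 0 := fun h0 => hρ0 (congrArg Subtype.val h0)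
  -- only the identity stabilises a place which is not stable under `σ`
  have hone : ∀ O : ValuationSubring E, IsPl C O → (¬ ∀ z : E, τ z ∈ O ↔ z ∈ O) →
      ∀ g : E ≃+* E, (∀ w : N₀, g (i w) = i w) → (∀ z, g z ∈ O ↔ z ∈ O) → g = 1 := by
    intro O hO hnst g hg hgP
    have hgfix : ∀ w : E, σ (w : Ω) = w → g w = w := by
      intro w hw
      exact hg ⟨w, (hN₀ w).2 ⟨w.2, hw⟩⟩
    have hρp : σ (ρ ^ p) = ρ ^ p := by
      rw [map_pow, hσρ, mul_pow, ← map_pow, hζ.pow_eq_one, map_one, one_mul]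
    have hgp : g ((⟨ρ, hρ⟩ : E) ^ p) = (⟨ρ, hρ⟩ : E) ^ p := hgfix _ hρp
    have hξ : (g ⟨ρ, hρ⟩ / ⟨ρ, hρ⟩) ^ p = 1 := by
      rw [div_pow, ← map_pow, hgp, div_self (pow_ne_zero _ hρN)]
    have hζN : IsPrimitiveRoot (algebraMap C E ζ) p := hζ.map_of_injective (algebraMap C E).injective
    have : NeZero p := ⟨hℓ.ne_zero⟩
    obtain ⟨j, hj, hj'⟩ := hζN.eq_pow_of_pow_eq_one hξ
    have hgρ : ((g ⟨ρ, hρ⟩ : E) : Ω) = algebraMap C Ω (ζ ^ j) * ρ := by
      have h5 : g ⟨ρ, hρ⟩ = algebraMap C E (ζ ^ j) * ⟨ρ, hρ⟩ := by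
        rw [map_pow, hj', div_mul_cancel₀ _ hρN]
      rw [h5]
      rfl
    have hgj := a12a_ext hl hσ hℓ.pos hN hζ hρ hρ0 hσρ g hgfix j hgρ
    rcases Nat.eq_zero_or_pos j with h0 | h0
    · subst h0
      apply RingEquiv.ext
      intro z
      apply Subtype.ext
      rw [hgj z]
      rfl
    · exfalso
      have hcop : Nat.Coprime j p :=
        (Nat.coprime_of_lt_prime h0.ne' hj hℓ).symm
      obtain ⟨m, hm⟩ := Nat.exists_mul_mod_eq_one_of_coprime hcop hℓ.one_lt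
      have hgm : ∀ z : E, (((g ^ m) z : E) : Ω) = σ (z : Ω) := by
        intro z
        rw [a12a_iter g j hgj m z]
        have e : j * m = p * (j * m / p) + 1 := by
          have := Nat.div_add_mod (j * m) p
          omega
        rw [e, a12a_mod' hσ hN _ _ _ z.2, pow_one]
      have hgmP : ∀ (n : ℕ) (z : E), (g ^ n) z ∈ O ↔ z ∈ O := by
        intro n
        induction n with
        | zero => intro z; exact Iff.rfl
        | succ n ih =>
          intro z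
          have e : (g ^ (n + 1)) z = g ((g ^ n) z) := by
            rw [pow_succ']
            rfl
          rw [e, hgP, ih]
      apply hnst
      intro z
      have e1 : τ z = (g ^ m) z := Subtype.ext (hgm z).symm
      rw [e1]
      exact hgmP m z
  -- such places are unramified
  have hunr : ∀ O : ValuationSubring E, IsPl C O → (¬ ∀ z : E, τ z ∈ O ↔ z ∈ O) →
      ∀ f : N₀, f ≠ 0 → od C O (i f) = od C (O.comap i) f := by
    intro O hO hnst f hf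
    obtain ⟨_, e, he0, hed, he⟩ := h2 C N₀ E i hi hF₀ hFE halg' hfix O hO
    have hsub : Subsingleton {g : E ≃+* E // (∀ w : N₀, g (i w) = i w) ∧ ∀ z, g z ∈ O ↔ z ∈ O} := by
      constructor
      intro g g'
      apply Subtype.ext
      rw [hone O hO hnst g.1 g.2.1 g.2.2, hone O hO hnst g'.1 g'.2.1 g'.2.2]
    have hcard : Nat.card {g : E ≃+* E // (∀ w : N₀, g (i w) = i w) ∧ ∀ z, g z ∈ O ↔ z ∈ O} = 1 := by
      rw [Nat.card_eq_one_iff_unique]
      exact ⟨hsub, ⟨⟨1, fun w => rfl, fun z => Iff.rfl⟩⟩⟩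
    rw [hcard] at hed
    have he1 : e = 1 := Nat.dvd_one.1 hed
    rw [he f hf, he1]
    simp
  -- step 1
  obtain ⟨b₀, hb₀, hb₀d, hb₀p⟩ := hU
  obtain ⟨b₁, c, hb₁, hc, hb₁d, hb₁p, hb₁c⟩ := a12a_step τ hℓ hτl
    (fun z => ∀ O : ValuationSubring E, IsPl C O → (p : ℤ) ∣ od C O z)
    (fun z hz hzd O hO => by
      obtain ⟨g1, g2⟩ := mv_spec hFE τ.symm (fun c => ⟨c, by
        rw [RingEquiv.symm_apply_eq, hτC]⟩) (fun c => ⟨c, hτC c⟩) hO
      have g3 := g2 z hz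
      have g4 : (τ.symm.symm) z = τ z := rfl
      rw [g4] at g3
      rw [← g3]
      exact hzd _ g1)
    (fun z w hz hw hzd hwd O hO => by
      have ho := od_spec hFE hO
      rw [div_eq_mul_inv, ho.mul _ _ hz (inv_ne_zero hw), ord_inv ho hw]
      exact dvd_add (hzd O hO) ((dvd_neg).2 (hwd O hO))) b₀ hb₀ hb₀d hb₀p
  -- step 2
  obtain ⟨w, θ, hw0, hθ⟩ := a12a_h90 τ hτC hℓ hτl hζ hb₁ hc hb₁c
  set b' : E := b₁ * w ^ p with hb'
  have hb'0 : b' ≠ 0 := mul_ne_zero hb₁ (pow_ne_zero _ hw0)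
  have hb'd : ∀ O : ValuationSubring E, IsPl C O → (p : ℤ) ∣ od C O b' := by
    intro O hO
    have ho := od_spec hFE hO
    rw [hb', ho.mul _ _ hb₁ (pow_ne_zero _ hw0), ord_pow ho hw0]
    exact dvd_add (hb₁d O hO) (Dvd.intro _ rfl)
  have hb'p : ∀ z : E, z ^ p ≠ b' := by
    intro z hz
    apply hb₁p (z / w)
    rw [div_pow, hz, hb', mul_div_cancel_right₀ _ (pow_ne_zero _ hw0)]
  -- step 3: the character at `P`
  obtain ⟨lam, hlam0, hlam1, hlam2⟩ := h4 C Ω E σ P hFE hl hSta hP hPs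
  obtain ⟨hlam3, -⟩ := hlam2 p hℓ.pos hN
  have hθ1 : θ = 1 := by
    have g1 := hlam1 b' hb'0
    obtain ⟨m, hm⟩ := hb'd _ (a12a_rs hP)
    have g2 : σ (b' : Ω) / (b' : Ω) = algebraMap C Ω θ := by
      have g3 : σ (b' : Ω) = algebraMap C Ω θ * (b' : Ω) := congrArg Subtype.val hθ
      rw [g3, mul_div_cancel_right₀]
      exact fun h => hb'0 (Subtype.ext h)
    rw [hm, zpow_mul, zpow_natCast, hlam3, one_zpow, g2, ← map_sub] at g1
    exact sub_eq_zero.1 (a12a_const hP.1 g1)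
  have hb'E : (b' : Ω) ∈ N₀ := by
    rw [hN₀]
    refine ⟨b'.2, ?_⟩
    have g3 : σ (b' : Ω) = algebraMap C Ω θ * (b' : Ω) := congrArg Subtype.val hθ
    rw [g3, hθ1, map_one, one_mul]
  -- step 4
  have haE : ρ ^ p ∈ N₀ := by
    rw [hN₀]
    refine ⟨pow_mem hρ _, ?_⟩
    rw [map_pow, hσρ, mul_pow, ← map_pow, hζ.pow_eq_one, map_one, one_mul]
  have hP6 := (h6a C Ω E N₀ σ p P hFE hl hσ hℓ hN ⟨z₀, hz₀, hz₀'⟩ hN₀ hP hPs).1
  have hplP : IsPl C (rs N₀ P) :=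
    pl_comap (C := C) i hi halg' (a12a_rs hP)
  have hoP := od_spec hFE (a12a_rs hP)
  have hodρ : od C (rs N₀ P) ⟨ρ ^ p, haE⟩ = od C (rs E P) ⟨ρ, hρ⟩ := by
    have g1 := hP6 (ρ ^ p) haE (pow_mem hρ _) (pow_ne_zero _ hρ0)
    have g2 : (⟨ρ ^ p, pow_mem hρ p⟩ : E) = (⟨ρ, hρ⟩ : E) ^ p := rfl
    rw [g2, ord_pow hoP hρN] at g1
    have g3 : (p : ℤ) ≠ 0 := by exact_mod_cast hℓ.ne_zero
    exact (mul_left_cancel₀ g3 g1).symm
  have hnd : ¬ (p : ℤ) ∣ od C (rs N₀ P) ⟨ρ ^ p, haE⟩ := by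
    rw [hodρ]
    rintro ⟨m, hm⟩
    have g1 := hlam1 ⟨ρ, hρ⟩ hρN
    have g2 : σ ((⟨ρ, hρ⟩ : E) : Ω) / ((⟨ρ, hρ⟩ : E) : Ω) = algebraMap C Ω ζ := by
      show σ ρ / ρ = _
      rw [hσρ, mul_div_cancel_right₀ _ hρ0]
    rw [hm, zpow_mul, zpow_natCast, hlam3, one_zpow, g2, ← map_sub] at g1
    exact hζ.ne_one hℓ.one_lt (sub_eq_zero.1 (a12a_const hP.1 g1))
  obtain ⟨j, hj⟩ := a12a_solve hℓ (od C (rs N₀ P) ⟨(b' : Ω), hb'E⟩) _ hnd
  have ha0 : (⟨ρ ^ p, haE⟩ : N₀) ≠ 0 := fun h0 => pow_ne_zero p hρ0 (congrArg Subtype.val h0)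
  have hbE0 : (⟨(b' : Ω), hb'E⟩ : N₀) ≠ 0 :=
    fun h0 => hb'0 (Subtype.ext (show (b' : Ω) = 0 from congrArg Subtype.val h0))
  have hbb0 : (⟨(b' : Ω), hb'E⟩ * ⟨ρ ^ p, haE⟩ ^ j : N₀) ≠ 0 := mul_ne_zero hbE0 (pow_ne_zero _ ha0)
  refine ⟨⟨(b' : Ω), hb'E⟩ * ⟨ρ ^ p, haE⟩ ^ j, hbb0, ?_, ?_⟩
  · refine ord_dvd_all hF₀ hℓ.pos hbb0 (rs N₀ Q) ?_
    intro O' hO' hne
    have ho' := od_spec hF₀ hO'
    obtain ⟨O, hO, hOO'⟩ := pl_up (C := C) i hi hO'
    by_cases hst : ∀ z : E, τ z ∈ O ↔ z ∈ O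
    · -- a stable place
      obtain ⟨V, hV, hVO⟩ := pl_up (C := C) (algebraMap E Ω) (fun c => rfl) hO
      have hmem : ∀ z : E, (z : Ω) ∈ V ↔ z ∈ O := by
        intro z
        rw [← hVO]
        exact Iff.rfl
      have hV1 : Plc C (E : Set Ω) V := by
        refine ⟨hV.1, ?_⟩
        by_contra hn
        push Not at hn
        apply hO.2
        rw [eq_top_iff]
        intro z _
        exact (hmem z).1 (hn z z.2)
      have hV2 : StP σ (E : Set Ω) V := by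
        intro z hz
        have g1 : σ z = ((τ ⟨z, hz⟩ : E) : Ω) := rfl
        rw [g1, hmem, hst]
        exact (hmem ⟨z, hz⟩).symm
      have hVN : ∀ z : N₀, z ∈ O' ↔ (z : Ω) ∈ V := by
        intro z
        rw [← hOO']
        exact (hmem (i z)).symm
      rcases hPQ V hV1 hV2 with h3 | h3
      · have g1 : O' = rs N₀ P := by
          ext z
          rw [hVN]
          exact h3 z (hle z.2)
        subst g1
        rw [ho'.mul _ _ hbE0 (pow_ne_zero _ ha0), ord_pow ho' ha0]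
        exact hj
      · exfalso
        apply hne
        ext z
        rw [hVN]
        exact h3 z (hle z.2)
    · -- a place which is not stable
      have g1 := hunr O hO hst _ hbb0
      rw [hOO'] at g1
      rw [← g1]
      have ho := od_spec hFE hO
      have g2 : i (⟨(b' : Ω), hb'E⟩ * ⟨ρ ^ p, haE⟩ ^ j) = b' * ((⟨ρ, hρ⟩ : E) ^ p) ^ j := rfl
      rw [g2, ho.mul _ _ hb'0 (pow_ne_zero _ (pow_ne_zero _ hρN)),
        ord_pow ho (pow_ne_zero _ hρN), ord_pow ho hρN]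
      refine dvd_add (hb'd O hO) ?_
      exact Dvd.dvd.mul_left (Dvd.intro _ rfl) _
  · intro z hz hcon
    apply hb'p (⟨z, hz⟩ / (⟨ρ, hρ⟩ : E) ^ j)
    apply Subtype.ext
    show (z / ρ ^ j) ^ p = (b' : Ω)
    have g1 : z ^ p = (b' : Ω) * (ρ ^ p) ^ j := hcon
    rw [div_pow, g1, ← pow_mul, ← pow_mul, mul_comm j p, mul_div_cancel_right₀]
    exact pow_ne_zero _ hρ0

end SGT
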