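import Pool.Agent.SGT.StA

/-!
# [SGT-A2] the ramification index divides the order of the stabiliser (MP_3dd09b_ag)
-/

set_option autoImplicit false
set_option linter.unusedVariables false

open GT IsLocalRing Polynomial

namespace SGT

section a2

variable {C N N' : Type} [Field C] [Field N] [Field N'] [Algebra C N] [Algebra C N']

/-- The group of the automorphisms of `N'` over `N`. -/
private def a2_G (i : N →+* N') : Subgroup (N' ≃+* N') where
  carrier := {g | ∀ w : N, g (i w) = i w}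
  mul_mem' := fun {a b} ha hb w => by
    show a (b (i w)) = i w
    rw [hb w, ha w]
  one_mem' := fun w => rfl
  inv_mem' := fun {a} ha w => by
    show a.symm (i w) = i w
    rw [RingEquiv.symm_apply_eq]
    exact (ha w).symm

private theorem a2_mem {i : N →+* N'} {g : N' ≃+* N'} : g ∈ a2_G i ↔ ∀ w : N, g (i w) = i w :=
  Iff.rfl

/-- This group is finite: `N'` is finite over `C(i t)`, `t` transcendental. -/
private theorem a2_fin (i : N →+* N') (hi : ∀ c : C, i (algebraMap C N c) = algebraMap C N' c)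
    (hF : FF C N) (hF' : FF C N') : Finite (a2_G i) := by
  obtain ⟨t, ht⟩ := hF.ex
  let iA : N →ₐ[C] N' := { i with commutes' := hi }
  have hiA : ∀ w, iA w = i w := fun w => rfl
  have ht' : Transcendental C (i t) := by
    intro hal
    apply ht
    have h1 : IsAlgebraic C (iA t) := hal
    exact (isAlgebraic_algHom_iff iA iA.toRingHom.injective).1 h1
  have hfd := hF'.fin (i t) ht'
  have hle : IntermediateField.adjoin C {i t} ≤ iA.fieldRange := by
    rw [IntermediateField.adjoin_le_iff]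
    intro z hz
    rw [Set.mem_singleton_iff] at hz
    rw [hz]
    exact ⟨t, rfl⟩
  have hfix : ∀ g ∈ a2_G i, ∀ r : IntermediateField.adjoin C {i t},
      g (algebraMap (IntermediateField.adjoin C {i t}) N' r) =
        algebraMap (IntermediateField.adjoin C {i t}) N' r := by
    intro g hg r
    obtain ⟨w, hw⟩ := hle r.2
    have h1 : algebraMap (IntermediateField.adjoin C {i t}) N' r = i w := hw.symm
    rw [h1]
    exact hg w
  let Φ : a2_G i → (N' ≃ₐ[IntermediateField.adjoin C {i t}] N') :=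
    fun g => AlgEquiv.ofRingEquiv (f := (g : N' ≃+* N')) (hfix g g.2)
  have hΦ : Function.Injective Φ := by
    intro g g' h
    apply Subtype.ext
    ext z
    have h2 : Φ g z = Φ g' z := by rw [h]
    exact h2
  exact Finite.of_injective Φ hΦ

/-- `g⁻¹ P = P` if and only if `g` stabilises `P`. -/
private theorem a2_mv (g : N' ≃+* N') (P : ValuationSubring N') :
    mv g⁻¹ P = P ↔ ∀ z, g z ∈ P ↔ z ∈ P := by
  have h0 : ∀ z, (g⁻¹ : N' ≃+* N').symm z = g z := fun z => rfl
  constructor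
  · intro h z
    have h1 : z ∈ mv g⁻¹ P ↔ z ∈ P := by rw [h]
    rwa [mem_mv, h0] at h1
  · intro h
    ext z
    rw [mem_mv, h0]
    exact h z

/-- The order of the norm of a function with orders `1` at `P`, `-1` at `Q` (not conjugate) and `0`
elsewhere, modulo `n`. -/
private theorem a2_norm [CharZero C] [IsAlgClosed C] (hF' : FF C N') (i : N →+* N')
    (hi : ∀ c : C, i (algebraMap C N c) = algebraMap C N' c) {n : ℕ} (hn : 0 < n)
    (G : Subgroup (N' ≃+* N')) [Fintype G] (hfix : ∀ g ∈ G, ∀ z : N, g (i z) = i z)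
    {P Q : ValuationSubring N'} (hP : IsPl C P) (hQ : IsPl C Q) (hne : Q.comap i ≠ P.comap i) :
    ∃ t : N', t ≠ 0 ∧ ((od C P (∏ g : G, (g : N' ≃+* N') t) : ℤ) : ZMod n) =
      (Nat.card {g : G // ∀ z, (g : N' ≃+* N') z ∈ P ↔ z ∈ P} : ZMod n) := by
  classical
  have hPQ : P ≠ Q := by
    rintro rfl
    exact hne rfl
  obtain ⟨t, ht0, ht1, ht2, ht3⟩ := exists_t' hF' hn hP hQ hPQ
  refine ⟨t, ht0, ?_⟩
  have hgt0 : ∀ g : G, (g : N' ≃+* N') t ≠ 0 := fun g => (map_ne_zero (g : N' ≃+* N')).2 ht0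
  have ho' := od_spec hF' hP
  rw [(ord_rules ho').2.2.2 Finset.univ (fun g : G => (g : N' ≃+* N') t) (fun g _ => hgt0 g)]
  rw [Int.cast_sum]
  have hterm : ∀ g : G, ((od C P ((g : N' ≃+* N') t) : ℤ) : ZMod n) =
      if (∀ z, (g : N' ≃+* N') z ∈ P ↔ z ∈ P) then 1 else 0 := by
    intro g
    have hgm : ((g : N' ≃+* N')⁻¹) ∈ G := G.inv_mem g.2
    have hconst : ∀ h ∈ G, ∀ c : C, ∃ c' : C, h (algebraMap C N' c) = algebraMap C N' c' := by
      intro h hh c
      refine ⟨c, ?_⟩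
      rw [← hi c]
      exact hfix h hh _
    obtain ⟨h1, h2⟩ := mv_spec hF' ((g : N' ≃+* N')⁻¹) (hconst _ hgm)
      (fun c => hconst (g : N' ≃+* N') g.2 c) hP
    have h3 : od C P ((g : N' ≃+* N') t) = od C (mv (g : N' ≃+* N')⁻¹ P) t := (h2 t ht0).symm
    rw [h3]
    split_ifs with h
    · rw [(a2_mv (g : N' ≃+* N') P).2 h]
      exact ht1
    · refine ht3 _ h1 (fun h4 => h ((a2_mv (g : N' ≃+* N') P).1 h4)) ?_
      intro h4
      apply hne
      rw [← h4]
      exact j2b_comap i (g : N' ≃+* N') (hfix _ g.2) P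
  rw [Finset.sum_congr rfl fun g _ => hterm g, Finset.sum_boole, Nat.card_eq_fintype_card,
    Fintype.card_subtype]

end a2

theorem R_A2 : st_A2 := by
  intro C N N' _ _ _ _ _ _ _ i hi hF hF' halg hG P hP
  have hfinG : Finite (a2_G i) := a2_fin i hi hF hF'
  have hft : Fintype (a2_G i) := Fintype.ofFinite _
  -- the stabiliser as a subtype of the group
  let Ψ : {g : N' ≃+* N' // (∀ w : N, g (i w) = i w) ∧ ∀ z, g z ∈ P ↔ z ∈ P} ≃
      {g : a2_G i // ∀ z, (g : N' ≃+* N') z ∈ P ↔ z ∈ P} :=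
    { toFun := fun g => ⟨⟨g.1, g.2.1⟩, g.2.2⟩
      invFun := fun g => ⟨g.1.1, g.1.2, g.2⟩
      left_inv := fun g => rfl
      right_inv := fun g => rfl }
  have hfin : Finite {g : N' ≃+* N' // (∀ w : N, g (i w) = i w) ∧ ∀ z, g z ∈ P ↔ z ∈ P} :=
    Finite.of_equiv _ Ψ.symm
  refine ⟨hfin, ?_⟩
  have hpl := pl_comap i hi halg hP
  have ho' := od_spec hF' hP
  have ho := od_spec hF hpl
  obtain ⟨e, he0, he⟩ := ord_comap i ho' ho
  obtain ⟨n, rfl⟩ := Int.eq_ofNat_of_zero_le he0.le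
  have hn : 0 < n := by exact_mod_cast he0
  refine ⟨n, hn, ?_, fun f hf => he f hf⟩
  -- a second place
  obtain ⟨Q₀, hQ₀, hQne⟩ := exists_other hpl
  obtain ⟨Q, hQ, hQc⟩ := pl_up i hi hQ₀
  have hne : Q.comap i ≠ P.comap i := by
    rw [hQc]
    exact hQne
  obtain ⟨t, ht0, ht⟩ := a2_norm hF' i hi hn (a2_G i) (fun g hg => hg) hP hQ hne
  obtain ⟨w, hw⟩ := hG (∏ g : a2_G i, (g : N' ≃+* N') t)
    (fun g hg => j2b_fix (a2_G i) t g hg)
  have hw0 : w ≠ 0 := by
    rintro rfl
    rw [map_zero] at hw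
    exact Finset.prod_ne_zero_iff.2
      (fun g _ => (map_ne_zero ((g : a2_G i) : N' ≃+* N')).2 ht0) hw.symm
  rw [← hw, he w hw0] at ht
  have h1 : ((((n : ℕ) : ℤ) * od C (P.comap i) w : ℤ) : ZMod n) = 0 := by
    rw [ZMod.intCast_zmod_eq_zero_iff_dvd]
    exact Dvd.intro _ rfl
  rw [h1] at ht
  rw [Nat.card_congr Ψ]
  exact (ZMod.natCast_eq_zero_iff _ _).1 ht.symm

end SGT
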