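import Pool.Agent.SGT.StA

/-!
# [SGT-A3] automorphisms stabilising a place: residues and the character (MP_3dd09b_ag)
-/

set_option autoImplicit false
set_option linter.unusedVariables false

open GT IsLocalRing Polynomial

namespace SGT

/-- The nonunits of a valuation ring by inverses. -/
theorem a3_nu {K : Type} [Field K] (A : ValuationSubring K) (x : K) :
    x ∈ A.nonunits ↔ (x = 0 ∨ x⁻¹ ∉ A) := by
  rw [ValuationSubring.mem_nonunits_iff]
  by_cases hx : x = 0
  · rw [hx, map_zero]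
    exact ⟨fun _ => Or.inl rfl, fun _ => zero_lt_one⟩
  · have h0 : 0 < A.valuation x := zero_lt_iff.2 ((Valuation.ne_zero_iff _).2 hx)
    rw [← A.valuation_le_one_iff, map_inv₀, inv_le_one₀ h0, not_le]
    exact ⟨fun h => Or.inr h, fun h => h.resolve_left hx⟩

/-- The nonunits of the restriction of a valuation ring. -/
theorem a3_nu_rs {C Ω : Type} [Field C] [Field Ω] [Algebra C Ω] (N : IntermediateField C Ω)
    (P : ValuationSubring Ω) (x : N) : x ∈ (rs N P).nonunits ↔ (x : Ω) ∈ P.nonunits := by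
  rw [a3_nu, a3_nu]
  have h1 : (x = 0) ↔ ((x : Ω) = 0) := by
    constructor
    · intro h; rw [h]; rfl
    · intro h; exact Subtype.ext h
  have h2 : (x⁻¹ ∈ rs N P) ↔ ((x : Ω)⁻¹ ∈ P) := by
    rw [ValuationSubring.mem_comap, map_inv₀]
    rfl
  rw [h1, h2]

/-- The restriction of a place. -/
theorem a3_pl {C Ω : Type} [Field C] [Field Ω] [Algebra C Ω] (N : IntermediateField C Ω)
    (P : ValuationSubring Ω) (h : Plc C (N : Set Ω) P) : IsPl C (rs N P) := by
  refine ⟨fun c => ?_, fun htop => ?_⟩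
  · rw [ValuationSubring.mem_comap]
    exact h.1 c
  · obtain ⟨z, hz, hzP⟩ := h.2
    apply hzP
    have h1 : (⟨z, hz⟩ : N) ∈ rs N P := by rw [htop]; exact ValuationSubring.mem_top _
    rw [ValuationSubring.mem_comap] at h1
    exact h1

/-- The nonunits are closed under subtraction. -/
theorem a3_sub {K : Type} [Field K] (A : ValuationSubring K) {x y : K} (hx : x ∈ A.nonunits)
    (hy : y ∈ A.nonunits) : x - y ∈ A.nonunits := by
  rw [ValuationSubring.mem_nonunits_iff] at *
  exact lt_of_le_of_lt (Valuation.map_sub _ _ _) (max_lt hx hy)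

/-- Every element of a place has a value in `C`. -/
theorem a3_plres {C N : Type} [Field C] [CharZero C] [IsAlgClosed C] [Field N] [Algebra C N]
    (hF : FF C N) {O : ValuationSubring N} (hO : IsPl C O) (z : N) (hz : z ∈ O) :
    ∃ c : C, z - algebraMap C N c ∈ O.nonunits := by
  have ho := od_spec hF hO
  obtain ⟨c, hc⟩ := ho.res z hz
  refine ⟨c, ?_⟩
  rw [a3_nu]
  by_cases h0 : z - algebraMap C N c = 0
  · exact Or.inl h0
  · right
    have h1 : 0 < od C O (z - algebraMap C N c) := hc.resolve_left h0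
    rw [ho.mem _ (inv_ne_zero h0)]
    have h2 := ho.mul _ _ h0 (inv_ne_zero h0)
    rw [mul_inv_cancel₀ h0] at h2
    have h3 := ho.mul 1 1 one_ne_zero one_ne_zero
    rw [mul_one] at h3
    omega

/-- [A3] -/
theorem R_A3 : st_A3 := by
  intro C Ω _ _ _ _ _ N σ P hF hσ hP hst
  have hPl := a3_pl N P hP
  have h1 : ∀ z ∈ N, z ∈ P → ∃ c : C, z - algebraMap C Ω c ∈ P.nonunits := by
    intro z hz hzP
    have h2 : (⟨z, hz⟩ : N) ∈ rs N P := by
      rw [ValuationSubring.mem_comap]; exact hzP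
    obtain ⟨c, hc⟩ := a3_plres hF hPl ⟨z, hz⟩ h2
    rw [a3_nu_rs] at hc
    exact ⟨c, hc⟩
  have h2 : ∀ z ∈ N, z ∈ P → σ z - z ∈ P.nonunits := by
    intro z hz hzP
    obtain ⟨c, hc⟩ := h1 z hz hzP
    have hn : z - algebraMap C Ω c ∈ N := N.sub_mem hz (N.algebraMap_mem c)
    have h3 : σ (z - algebraMap C Ω c) ∈ P.nonunits := by
      rw [a3_nu] at hc ⊢
      rcases hc with h0 | h0
      · left; rw [h0, map_zero]
      · right
        rw [← map_inv₀]
        intro h4
        exact h0 ((hst _ (N.inv_mem hn)).1 h4)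
    have h4 := a3_sub P h3 hc
    rw [map_sub, hσ c] at h4
    have h5 : σ z - algebraMap C Ω c - (z - algebraMap C Ω c) = σ z - z := by ring
    rwa [h5] at h4
  refine ⟨h1, h2, ?_, ?_⟩
  · intro z hz hz0 hzP hzP'
    have h3 := h2 z hz hzP
    rw [ValuationSubring.mem_nonunits_iff] at h3 ⊢
    have h4 : σ z / z - 1 = (σ z - z) * z⁻¹ := by field_simp
    rw [h4, map_mul]
    calc P.valuation (σ z - z) * P.valuation z⁻¹ ≤ P.valuation (σ z - z) * 1 := by
          gcongr
          exact (P.valuation_le_one_iff _).2 hzP'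
      _ = P.valuation (σ z - z) := mul_one _
      _ < 1 := h3
  · intro c hc
    by_contra hc0
    rw [a3_nu] at hc
    rcases hc with h0 | h0
    · exact hc0 ((map_eq_zero _).1 h0)
    · rw [← map_inv₀] at h0
      exact h0 (hP.1 _)

/-- Congruent units. -/
def a3_Cg {K : Type} [Field K] (A : ValuationSubring K) (x a : K) : Prop :=
  A.valuation x = 1 ∧ A.valuation a = 1 ∧ A.valuation (x - a) < 1

theorem a3_Cg_mul {K : Type} [Field K] {A : ValuationSubring K} {x a y b : K}
    (h : a3_Cg A x a) (h' : a3_Cg A y b) : a3_Cg A (x * y) (a * b) := by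
  obtain ⟨h1, h2, h3⟩ := h
  obtain ⟨g1, g2, g3⟩ := h'
  refine ⟨by rw [map_mul, h1, g1, one_mul], by rw [map_mul, h2, g2, one_mul], ?_⟩
  have h4 : x * y - a * b = x * (y - b) + (x - a) * b := by ring
  rw [h4]
  refine lt_of_le_of_lt (Valuation.map_add _ _ _) (max_lt ?_ ?_)
  · rw [map_mul, h1, one_mul]; exact g3
  · rw [map_mul, g2, mul_one]; exact h3

theorem a3_Cg_inv {K : Type} [Field K] {A : ValuationSubring K} {x a : K}
    (h : a3_Cg A x a) : a3_Cg A x⁻¹ a⁻¹ := by
  obtain ⟨h1, h2, h3⟩ := h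
  have hx : x ≠ 0 := by
    intro h0; rw [h0, map_zero] at h1; exact zero_ne_one h1
  have ha : a ≠ 0 := by
    intro h0; rw [h0, map_zero] at h2; exact zero_ne_one h2
  refine ⟨by rw [map_inv₀, h1, inv_one], by rw [map_inv₀, h2, inv_one], ?_⟩
  have h4 : x⁻¹ - a⁻¹ = (a - x) * (x⁻¹ * a⁻¹) := by field_simp
  rw [h4, map_mul, map_mul, map_inv₀, map_inv₀, h1, h2, inv_one, mul_one, mul_one,
    Valuation.map_sub_swap]
  exact h3

theorem a3_Cg_one {K : Type} [Field K] {A : ValuationSubring K} : a3_Cg A (1 : K) 1 := by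
  refine ⟨map_one _, map_one _, ?_⟩
  rw [sub_self, map_zero]; exact zero_lt_one

theorem a3_Cg_pow {K : Type} [Field K] {A : ValuationSubring K} {x a : K}
    (h : a3_Cg A x a) (n : ℕ) : a3_Cg A (x ^ n) (a ^ n) := by
  induction n with
  | zero => rw [pow_zero, pow_zero]; exact a3_Cg_one
  | succ n ih => rw [pow_succ, pow_succ]; exact a3_Cg_mul ih h

theorem a3_Cg_zpow {K : Type} [Field K] {A : ValuationSubring K} {x a : K}
    (h : a3_Cg A x a) (n : ℤ) : a3_Cg A (x ^ n) (a ^ n) := by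
  cases n with
  | ofNat n =>
    rw [Int.ofNat_eq_natCast, zpow_natCast, zpow_natCast]
    exact a3_Cg_pow h n
  | negSucc n =>
    rw [zpow_negSucc, zpow_negSucc]
    exact a3_Cg_inv (a3_Cg_pow h _)

/-- A unit has valuation one. -/
theorem a3_val_one {K : Type} [Field K] {A : ValuationSubring K} {x : K} (hx : x ≠ 0) (h : x ∈ A)
    (h' : x⁻¹ ∈ A) : A.valuation x = 1 := by
  apply le_antisymm ((A.valuation_le_one_iff _).2 h)
  have h0 : 0 < A.valuation x := zero_lt_iff.2 ((Valuation.ne_zero_iff _).2 hx)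
  have h1 := (A.valuation_le_one_iff _).2 h'
  rwa [map_inv₀, inv_le_one₀ h0] at h1

/-- The restriction of an automorphism to a stable subfield. -/
def a3_res {C Ω : Type} [Field C] [Field Ω] [Algebra C Ω] (N : IntermediateField C Ω)
    (σ : Ω ≃+* Ω) (h : Sta σ (N : Set Ω)) : N ≃+* N where
  toFun z := ⟨σ z, (h z).2 z.2⟩
  invFun z := ⟨σ.symm z, (h _).1 (by rw [RingEquiv.apply_symm_apply]; exact z.2)⟩
  left_inv z := Subtype.ext (σ.symm_apply_apply z)
  right_inv z := Subtype.ext (σ.apply_symm_apply z)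
  map_mul' x y := Subtype.ext (map_mul σ _ _)
  map_add' x y := Subtype.ext (map_add σ _ _)

/-- Orders are preserved by an automorphism which stabilises the place. -/
theorem a3_od {C Ω : Type} [Field C] [CharZero C] [IsAlgClosed C] [Field Ω] [Algebra C Ω]
    (N : IntermediateField C Ω) (σ : Ω ≃+* Ω) (P : ValuationSubring Ω) (hF : FF C N)
    (hσ : Lin C σ) (hs : Sta σ (N : Set Ω)) (hP : Plc C (N : Set Ω) P)
    (hst : StP σ (N : Set Ω) P) (z : N) (hz : z ≠ 0) :
    od C (rs N P) (a3_res N σ hs z) = od C (rs N P) z := by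
  have hO := od_spec hF (a3_pl N P hP)
  have hO' : IsOrd C (rs N P) (fun w => od C (rs N P) (a3_res N σ hs w)) := by
    have hne : ∀ w : N, w ≠ 0 → a3_res N σ hs w ≠ 0 := fun w hw => by
      rw [Ne, map_eq_zero_iff _ (a3_res N σ hs).injective]; exact hw
    have hcon : ∀ c : C, a3_res N σ hs (algebraMap C N c) = algebraMap C N c := fun c =>
      Subtype.ext (hσ c)
    refine ⟨?_, ?_, ?_, ?_⟩
    · intro a b ha hb
      rw [map_mul, hO.mul _ _ (hne a ha) (hne b hb)]
    · intro a ha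
      rw [← hO.mem _ (hne a ha), ValuationSubring.mem_comap, ValuationSubring.mem_comap]
      exact (hst a a.2).symm
    · obtain ⟨a, ha, ha1⟩ := hO.surj
      refine ⟨(a3_res N σ hs).symm a, ?_, ?_⟩
      · rw [Ne, map_eq_zero_iff _ (a3_res N σ hs).symm.injective]; exact ha
      · rw [RingEquiv.apply_symm_apply]; exact ha1
    · intro a ha
      have h1 : a3_res N σ hs a ∈ rs N P := by
        rw [ValuationSubring.mem_comap] at ha ⊢
        exact (hst a a.2).2 ha
      obtain ⟨c, hc⟩ := hO.res _ h1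
      refine ⟨c, ?_⟩
      have h2 : a3_res N σ hs (a - algebraMap C N c) = a3_res N σ hs a - algebraMap C N c := by
        rw [map_sub, hcon]
      rw [h2]
      rcases hc with h3 | h3
      · left
        rw [← h2] at h3
        exact (map_eq_zero_iff _ (a3_res N σ hs).injective).1 h3
      · right; exact h3
  exact ord_unique hO' hO hz

/-- [A4] -/
theorem R_A4 (h1 : st_A1) (h3 : st_A3) : st_A4 := by
  intro C Ω _ _ _ _ _ N σ P hF hσ hs hP hst
  have hPl := a3_pl N P hP
  have hO := od_spec hF hPl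
  obtain ⟨hA, hB, hD, hE⟩ := h3 C Ω N σ P hF hσ hP hst
  have hod := a3_od N σ P hF hσ hs hP hst
  have hne : ∀ w : N, w ≠ 0 → a3_res N σ hs w ≠ 0 := fun w hw => by
    rw [Ne, map_eq_zero_iff _ (a3_res N σ hs).injective]; exact hw
  have hone : od C (rs N P) 1 = 0 := by
    have h := hO.mul 1 1 one_ne_zero one_ne_zero
    rw [mul_one] at h
    omega
  have hinv : ∀ a : N, a ≠ 0 → od C (rs N P) a⁻¹ = - od C (rs N P) a := by
    intro a ha
    have h := hO.mul a a⁻¹ ha (inv_ne_zero ha)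
    rw [mul_inv_cancel₀ ha, hone] at h
    omega
  -- elements of order 0 have valuation 1
  have hval : ∀ a : N, a ≠ 0 → od C (rs N P) a = 0 → P.valuation (a : Ω) = 1 := by
    intro a ha h0
    have ha' : (a : Ω) ≠ 0 := fun h => ha (Subtype.ext h)
    apply a3_val_one ha'
    · have h := (hO.mem a ha).2 (by omega)
      rw [ValuationSubring.mem_comap] at h
      exact h
    · have h := (hO.mem a⁻¹ (inv_ne_zero ha)).2 (by rw [hinv a ha]; omega)
      rw [ValuationSubring.mem_comap] at h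
      exact h
  obtain ⟨π, hπ, hπ1⟩ := hO.surj
  have hπ' : (π : Ω) ≠ 0 := fun h => hπ (Subtype.ext h)
  have hu0 : a3_res N σ hs π / π ≠ 0 := div_ne_zero (hne π hπ) hπ
  have huod : od C (rs N P) (a3_res N σ hs π / π) = 0 := by
    rw [div_eq_mul_inv, hO.mul _ _ (hne π hπ) (inv_ne_zero hπ), hinv π hπ, hod π hπ]
    omega
  have huP : (((a3_res N σ hs π / π : N)) : Ω) ∈ P := by
    rw [← P.valuation_le_one_iff, hval _ hu0 huod]
  obtain ⟨c, hc⟩ := hA _ (a3_res N σ hs π / π).2 huP
  have hc0 : c ≠ 0 := by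
    intro h0
    rw [h0, map_zero, sub_zero, ValuationSubring.mem_nonunits_iff, hval _ hu0 huod] at hc
    exact lt_irrefl _ hc
  have hcv : ∀ d : C, d ≠ 0 → P.valuation (algebraMap C Ω d) = 1 := by
    intro d hd
    apply a3_val_one (by rw [Ne, map_eq_zero]; exact hd) (hP.1 d)
    rw [← map_inv₀]
    exact hP.1 _
  have hCu : a3_Cg P (σ (π : Ω) / π) (algebraMap C Ω c) := by
    refine ⟨hval _ hu0 huod, hcv c hc0, ?_⟩
    rw [← ValuationSubring.mem_nonunits_iff]
    exact hc
  have hmain : ∀ z : N, z ≠ 0 →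
      a3_Cg P (σ (z : Ω) / z) ((algebraMap C Ω c) ^ (od C (rs N P) z)) := by
    intro z hz
    have hz' : (z : Ω) ≠ 0 := fun h => hz (Subtype.ext h)
    obtain ⟨n, hn⟩ : ∃ n, n = od C (rs N P) z := ⟨_, rfl⟩
    rw [← hn]
    have hpow : ∀ m : ℤ, od C (rs N P) (π ^ m) = m := by
      have hnat : ∀ m : ℕ, od C (rs N P) (π ^ m) = m := by
        intro m
        induction m with
        | zero => rw [pow_zero, hone]; rfl
        | succ m ih => rw [pow_succ, hO.mul _ _ (pow_ne_zero m hπ) hπ, ih, hπ1]; push_cast; rfl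
      intro m
      cases m with
      | ofNat m => rw [Int.ofNat_eq_natCast, zpow_natCast, hnat]
      | negSucc m =>
        rw [zpow_negSucc, hinv _ (pow_ne_zero _ hπ), hnat]
        rfl
    obtain ⟨ε, hε⟩ : ∃ ε : N, ε = z * (π ^ n)⁻¹ := ⟨_, rfl⟩
    have hπn : π ^ n ≠ 0 := zpow_ne_zero n hπ
    have hε0 : ε ≠ 0 := by rw [hε]; exact mul_ne_zero hz (inv_ne_zero hπn)
    have hεod : od C (rs N P) ε = 0 := by
      rw [hε, hO.mul _ _ hz (inv_ne_zero hπn), hinv _ hπn, hpow]
      omega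
    have hε' : (ε : Ω) ≠ 0 := fun h => hε0 (Subtype.ext h)
    have hεv := hval ε hε0 hεod
    have hεP : (ε : Ω) ∈ P := by rw [← P.valuation_le_one_iff, hεv]
    have hεP' : (ε : Ω)⁻¹ ∈ P := by
      rw [← P.valuation_le_one_iff, map_inv₀, hεv, inv_one]
    have hw := hD ε ε.2 hε' hεP hεP'
    have hσε : od C (rs N P) (a3_res N σ hs ε) = 0 := by rw [hod ε hε0, hεod]
    have hCw : a3_Cg P (σ (ε : Ω) / ε) 1 := by
      refine ⟨?_, map_one _, ?_⟩
      · rw [map_div₀, hεv, div_one]
        exact hval _ (hne ε hε0) hσε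
      · rw [← ValuationSubring.mem_nonunits_iff]; exact hw
    have hzε : (z : Ω) = (π : Ω) ^ n * ε := by
      have h : z = π ^ n * ε := by rw [hε]; field_simp
      rw [h]
      push_cast
      rfl
    have hfin := a3_Cg_mul (a3_Cg_zpow hCu n) hCw
    have h5 : σ (z : Ω) / z = (σ (π : Ω) / π) ^ n * (σ (ε : Ω) / ε) := by
      rw [hzε, map_mul, map_zpow₀, div_zpow]
      have h6 : (π : Ω) ^ n ≠ 0 := zpow_ne_zero n hπ'
      field_simp
    rw [h5]
    rwa [mul_one] at hfin
  refine ⟨c, hc0, ?_, ?_⟩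
  · intro z hz
    rw [ValuationSubring.mem_nonunits_iff, map_zpow₀]
    exact (hmain z hz).2.2
  · intro n hn hσn
    constructor
    · have hit : ∀ i : ℕ, ∃ w : N, w ≠ 0 ∧ (w : Ω) = (σ ^ i) (π : Ω) ∧ od C (rs N P) w = 1 ∧
          a3_Cg P ((w : Ω) / π) ((algebraMap C Ω c) ^ i) := by
        intro i
        induction i with
        | zero =>
          refine ⟨π, hπ, rfl, hπ1, ?_⟩
          rw [div_self hπ', pow_zero]; exact a3_Cg_one
        | succ i ih =>
          obtain ⟨w, hw0, hw1, hw2, hw3⟩ := ih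
          refine ⟨a3_res N σ hs w, hne w hw0, ?_, ?_, ?_⟩
          · show σ (w : Ω) = _
            rw [hw1, pow_succ']; rfl
          · rw [hod w hw0, hw2]
          · have hw' : (w : Ω) ≠ 0 := fun h => hw0 (Subtype.ext h)
            have h4 := hmain w hw0
            rw [hw2, zpow_one] at h4
            have h5 := a3_Cg_mul h4 hw3
            have h6 : σ (w : Ω) / w * ((w : Ω) / π) = σ (w : Ω) / π := by field_simp
            rw [h6, ← pow_succ'] at h5
            exact h5
      obtain ⟨w, hw0, hw1, hw2, hw3⟩ := hit n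
      rw [hσn π π.2] at hw1
      rw [hw1, div_self hπ'] at hw3
      have h7 : algebraMap C Ω (1 - c ^ n) ∈ P.nonunits := by
        rw [ValuationSubring.mem_nonunits_iff, map_sub, map_one, map_pow]
        exact hw3.2.2
      have h8 := hE _ h7
      exact (sub_eq_zero.1 h8).symm
    · intro hc1 z hz
      by_contra hzne
      obtain ⟨p, ρ, ζ, hp, _, hρ, hρ0, hζ, hσρ⟩ :=
        h1 C Ω N σ n hσ (fun z hz => (hs z).2 hz) hn z hz (hσn z hz) hzne
      have h4 := hmain ⟨ρ, hρ⟩ (fun h => hρ0 (congrArg Subtype.val h))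
      have h5 : σ ρ / ρ = algebraMap C Ω ζ := by rw [hσρ]; field_simp
      have h6 : algebraMap C Ω (ζ - 1) ∈ P.nonunits := by
        rw [ValuationSubring.mem_nonunits_iff, map_sub, map_one]
        have h7 := h4.2.2
        rw [hc1, map_one, one_zpow] at h7
        rw [← h5]
        exact h7
      have h8 := sub_eq_zero.1 (hE _ h6)
      rw [h8] at hζ
      have h9 := IsPrimitiveRoot.one_left_iff.1 hζ
      exact hp.one_lt.ne' h9

end SGT
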