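import Pool.Agent.SGT.StA

/-!
# [SGT-A5] automorphisms of prime order have fixed places on every level (MP_3dd09b_ag)
-/

set_option autoImplicit false
set_option linter.unusedVariables false

open GT IsLocalRing Polynomial

namespace SGT

/-- If all the orders of `a` are divisible by `ℓ` then, up to an `ℓ`-th power, they are divisible
by `ℓ ^ 2` (the class group of the complement of a place is divisible). -/
private theorem a5_fun {C L : Type} [Field C] [CharZero C] [IsAlgClosed C] [Field L] [Algebra C L]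
    (hF : FF C L) {ℓ : ℕ} (hℓ : 0 < ℓ) {a : L} (ha : a ≠ 0)
    (hd : ∀ O : ValuationSubring L, IsPl C O → (ℓ : ℤ) ∣ od C O a) :
    ∃ h : L, h ≠ 0 ∧ ∀ O : ValuationSubring L, IsPl C O → ((ℓ ^ 2 : ℕ) : ℤ) ∣ od C O (a * h ^ ℓ) := by
  obtain ⟨O₁, hO₁⟩ := exists_pl hF
  obtain ⟨d, hdz, T, E, h⟩ := exists_model hF hO₁
  have := h.ded
  obtain ⟨a₁, b, J, ha₁, hb, hab, hJ⟩ := exists_root_fun hF hO₁ h hℓ ha
    (fun O o hO hne ho => by
      rw [ord_unique ho (od_spec hF hO) ha]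
      exact hd O hO)
  have hJ0 : J ≠ ⊥ := by
    rintro rfl
    rw [← Ideal.zero_eq_bot, zero_pow hℓ.ne'] at hJ
    apply ha₁
    have h1 : a₁ ∈ (0 : Ideal (WB T)) := by
      rw [hJ]
      exact Ideal.mem_span_singleton_self a₁
    simpa using h1
  obtain ⟨D', hD'⟩ := h.div hF hO₁ hℓ (SUP.cls J)
  obtain ⟨J', hJ', hJD⟩ := SUP.exists_cls D'
  have hcl : SUP.cls (J' ^ ℓ) = SUP.cls J := by
    have key : ∀ n : ℕ, SUP.cls (J' ^ n) = D' ^ n := by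
      intro n
      induction n with
      | zero =>
        rw [pow_zero, pow_zero, Ideal.one_eq_top, ← Ideal.span_singleton_one]
        exact SUP.cls_span one_ne_zero
      | succ n ih =>
        have h0 : J' ^ n ≠ ⊥ := by
          rw [← Ideal.zero_eq_bot]
          exact pow_ne_zero n (by rwa [Ideal.zero_eq_bot])
        rw [pow_succ, SUP.cls_mul h0 hJ', ih, hJD, pow_succ]
    rw [key, hD']
  have hJl : J' ^ ℓ ≠ ⊥ := by
    rw [← Ideal.zero_eq_bot]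
    exact pow_ne_zero ℓ (by rwa [Ideal.zero_eq_bot])
  obtain ⟨x, y, hx, hy, hxy⟩ := (SUP.cls_eq_iff hJl hJ0).1 hcl
  have hEx : E x ≠ 0 := fun h0 => hx (h.inj (by rw [h0, map_zero]))
  have hEy : E y ≠ 0 := fun h0 => hy (h.inj (by rw [h0, map_zero]))
  have hEb : E b ≠ 0 := fun h0 => hb (h.inj (by rw [h0, map_zero]))
  have hEa : E a₁ ≠ 0 := fun h0 => ha₁ (h.inj (by rw [h0, map_zero]))
  refine ⟨E b * E y / E x, div_ne_zero (mul_ne_zero hEb hEy) hEx, ?_⟩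
  have hf : a * (E b * E y / E x) ^ ℓ = E (y ^ ℓ * a₁) / E x ^ ℓ := by
    rw [div_pow, mul_pow, map_mul, map_pow, ← hab]
    ring
  have hf0 : a * (E b * E y / E x) ^ ℓ ≠ 0 :=
    mul_ne_zero ha (pow_ne_zero _ (div_ne_zero (mul_ne_zero hEb hEy) hEx))
  refine ord_dvd_all hF (pow_pos hℓ 2) hf0 O₁ ?_
  intro O hO hne
  have ho := od_spec hF hO
  have e1 : (Ideal.span {x}) ^ ℓ * J' ^ (ℓ ^ 2) = Ideal.span {y ^ ℓ * a₁} := by
    calc (Ideal.span {x}) ^ ℓ * J' ^ (ℓ ^ 2) = (Ideal.span {x} * J' ^ ℓ) ^ ℓ := by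
          rw [mul_pow, ← pow_mul, sq]
      _ = (Ideal.span {y} * J) ^ ℓ := by rw [hxy]
      _ = (Ideal.span {y}) ^ ℓ * J ^ ℓ := by rw [mul_pow]
      _ = Ideal.span {y ^ ℓ} * Ideal.span {a₁} := by rw [Ideal.span_singleton_pow, hJ]
      _ = Ideal.span {y ^ ℓ * a₁} := by rw [Ideal.span_singleton_mul_span_singleton]
  have hx' : (Ideal.span {x} : Ideal (WB T)) ≠ ⊥ := by
    rw [Ne, Ideal.span_singleton_eq_bot]
    exact hx
  have hxl : (Ideal.span {x} : Ideal (WB T)) ^ ℓ ≠ ⊥ := by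
    rw [← Ideal.zero_eq_bot]
    exact pow_ne_zero ℓ (by rwa [Ideal.zero_eq_bot])
  have hJl2 : J' ^ (ℓ ^ 2) ≠ ⊥ := by
    rw [← Ideal.zero_eq_bot]
    exact pow_ne_zero _ (by rwa [Ideal.zero_eq_bot])
  have hya : y ^ ℓ * a₁ ≠ 0 := mul_ne_zero (pow_ne_zero _ hy) ha₁
  have e2 : (oI E (od C O) (Ideal.span {y ^ ℓ * a₁}) : ℤ) = od C O (E (y ^ ℓ * a₁)) :=
    oI_span h hO hne ho hya
  have e3 : oI E (od C O) (Ideal.span {y ^ ℓ * a₁}) =
      ℓ * oI E (od C O) (Ideal.span {x}) + ℓ ^ 2 * oI E (od C O) J' := by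
    rw [← e1, oI_mul h hO hne ho hxl hJl2, oI_pow h hO hne ho hx', oI_pow h hO hne ho hJ']
  have e4 : (oI E (od C O) (Ideal.span {x}) : ℤ) = od C O (E x) := oI_span h hO hne ho hx
  have hEya : E (y ^ ℓ * a₁) ≠ 0 := fun h0 => hya (h.inj (by rw [h0, map_zero]))
  have e5 : od C O (a * (E b * E y / E x) ^ ℓ) = ((ℓ ^ 2 : ℕ) : ℤ) * oI E (od C O) J' := by
    rw [hf, div_eq_mul_inv, ho.mul _ _ hEya (inv_ne_zero (pow_ne_zero _ hEx)),
      ord_inv ho (pow_ne_zero _ hEx), ord_pow ho hEx, ← e2, e3, ← e4]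
    push_cast
    ring
  rw [e5]
  exact Dvd.intro _ rfl

section basic

variable {C Ω : Type} [Field C] [Field Ω] [Algebra C Ω]

/-- `σ ^ n` preserves `N`. -/
private theorem a5_pow_mem {N : IntermediateField C Ω} {σ : Ω ≃+* Ω} (h : ∀ z ∈ N, σ z ∈ N) (n : ℕ) :
    ∀ z ∈ N, (σ ^ n) z ∈ N := by
  induction n with
  | zero => intro z hz; exact hz
  | succ n ih =>
    intro z hz
    rw [pow_succ']
    exact h _ (ih z hz)

/-- Eigenvectors. -/
private theorem a5_pow_eig {σ : Ω ≃+* Ω} (hl : Lin C σ) {z : Ω} {c : C}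
    (h : σ z = algebraMap C Ω c * z) (n : ℕ) : (σ ^ n) z = algebraMap C Ω (c ^ n) * z := by
  induction n with
  | zero => simp
  | succ n ih =>
    have e : (σ ^ (n + 1)) z = σ ((σ ^ n) z) := by
      rw [pow_succ']
      rfl
    rw [e, ih, map_mul, hl, h, pow_succ, map_mul]
    ring

/-- `σ ^ (ℓ q + r) = σ ^ r` on the elements fixed by `σ ^ ℓ`. -/
private theorem a5_mod {N : IntermediateField C Ω} {σ : Ω ≃+* Ω} (hσ : ∀ z ∈ N, σ z ∈ N) {ℓ : ℕ}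
    (h : ∀ z ∈ N, (σ ^ ℓ) z = z) (q r : ℕ) : ∀ z ∈ N, (σ ^ (ℓ * q + r)) z = (σ ^ r) z := by
  induction q with
  | zero => intro z hz; simp
  | succ q ih =>
    intro z hz
    have e : ℓ * (q + 1) + r = ℓ + (ℓ * q + r) := by ring
    have e2 : (σ ^ (ℓ + (ℓ * q + r))) z = (σ ^ ℓ) ((σ ^ (ℓ * q + r)) z) := by
      rw [pow_add]
      rfl
    rw [e, e2, h _ (a5_pow_mem hσ _ z hz), ih z hz]

/-- The Lagrange resolvents. -/
private theorem a5_lag {N : IntermediateField C Ω} {σ : Ω ≃+* Ω} (hl : Lin C σ)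
    (hσ : ∀ z ∈ N, σ z ∈ N) {ℓ : ℕ} (hℓ : 0 < ℓ) (h : ∀ z ∈ N, (σ ^ ℓ) z = z) {ζ : C}
    (hζ : IsPrimitiveRoot ζ ℓ) (z : Ω) (hz : z ∈ N) :
    ∃ w : ℕ → Ω, (∀ k, w k ∈ N) ∧ (∀ k, σ (w k) = algebraMap C Ω (ζ ^ k) * w k) ∧
      (ℓ : Ω) * z = ∑ k ∈ Finset.range ℓ, w k := by
  have hζ0 : ζ ≠ 0 := hζ.ne_zero hℓ.ne'
  refine ⟨fun k => ∑ i ∈ Finset.range ℓ, algebraMap C Ω ((ζ⁻¹) ^ (i * k)) * (σ ^ i) z, ?_, ?_, ?_⟩
  · intro k
    apply sum_mem
    intro i _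
    exact mul_mem (N.algebraMap_mem _) (a5_pow_mem hσ i z hz)
  · intro k
    have hstep : ∀ i, σ (algebraMap C Ω ((ζ⁻¹) ^ (i * k)) * (σ ^ i) z) =
        algebraMap C Ω (ζ ^ k) * (algebraMap C Ω ((ζ⁻¹) ^ ((i + 1) * k)) * (σ ^ (i + 1)) z) := by
      intro i
      have e : (σ ^ (i + 1)) z = σ ((σ ^ i) z) := by
        rw [pow_succ']
        rfl
      rw [map_mul, hl, e, ← mul_assoc, ← map_mul]
      congr 2
      rw [add_mul, one_mul, pow_add, inv_pow ζ k, mul_comm ((ζ⁻¹) ^ (i * k)), ← mul_assoc,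
        mul_inv_cancel₀ (pow_ne_zero _ hζ0), one_mul]
    rw [map_sum, Finset.mul_sum]
    simp only [hstep]
    rw [← Finset.mul_sum, ← Finset.mul_sum]
    congr 1
    have h1 := Finset.sum_range_succ
      (fun i => algebraMap C Ω ((ζ⁻¹) ^ (i * k)) * (σ ^ i) z) ℓ
    have h2 := Finset.sum_range_succ'
      (fun i => algebraMap C Ω ((ζ⁻¹) ^ (i * k)) * (σ ^ i) z) ℓ
    have h3 : algebraMap C Ω ((ζ⁻¹) ^ (ℓ * k)) * (σ ^ ℓ) z =
        algebraMap C Ω ((ζ⁻¹) ^ (0 * k)) * (σ ^ 0) z := by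
      rw [h z hz, pow_mul, inv_pow, hζ.pow_eq_one]
      simp
    rw [h1, h3] at h2
    exact (add_right_cancel h2).symm
  · rw [Finset.sum_comm]
    have hsum : ∀ i ∈ Finset.range ℓ, ∑ k ∈ Finset.range ℓ, algebraMap C Ω ((ζ⁻¹) ^ (i * k)) * (σ ^ i) z
        = if i = 0 then (ℓ : Ω) * z else 0 := by
      intro i hi
      rw [Finset.mem_range] at hi
      rw [← Finset.sum_mul]
      by_cases h0 : i = 0
      · subst h0
        simp
      · rw [if_neg h0]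
        have hx : (ζ⁻¹) ^ i ≠ 1 := by
          rw [inv_pow, Ne, inv_eq_one]
          exact hζ.pow_ne_one_of_pos_of_lt h0 hi
        have hg : ∑ k ∈ Finset.range ℓ, ((ζ⁻¹) ^ i) ^ k = 0 := by
          have h1 := mul_geom_sum ((ζ⁻¹) ^ i) ℓ
          have h2 : ((ζ⁻¹) ^ i) ^ ℓ = 1 := by
            rw [← pow_mul, mul_comm i ℓ, pow_mul, inv_pow ζ ℓ, hζ.pow_eq_one, inv_one, one_pow]
          rw [h2, sub_self] at h1
          exact (mul_eq_zero.1 h1).resolve_left (sub_ne_zero.2 hx)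
        have hg' : ∑ k ∈ Finset.range ℓ, algebraMap C Ω ((ζ⁻¹) ^ (i * k)) = 0 := by
          simp only [pow_mul]
          rw [← map_sum, hg, map_zero]
        rw [hg', zero_mul]
    rw [Finset.sum_congr rfl hsum, Finset.sum_ite_eq' (Finset.range ℓ) 0 (fun _ => (ℓ : Ω) * z),
      if_pos (Finset.mem_range.2 hℓ)]

/-- An automorphism of `N` which is trivial on the fixed field and maps `ρ` to `ζ ^ j ρ` is
`σ ^ j`. -/
private theorem a5_ext [CharZero Ω] {N : IntermediateField C Ω} {σ : Ω ≃+* Ω} (hl : Lin C σ)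
    (hσ : ∀ z ∈ N, σ z ∈ N) {ℓ : ℕ} (hℓ : 0 < ℓ) (h : ∀ z ∈ N, (σ ^ ℓ) z = z) {ζ : C}
    (hζ : IsPrimitiveRoot ζ ℓ) {ρ : Ω} (hρ : ρ ∈ N) (hρ0 : ρ ≠ 0)
    (hσρ : σ ρ = algebraMap C Ω ζ * ρ) (g : N ≃+* N)
    (hg : ∀ w : N, σ (w : Ω) = w → g w = w) (j : ℕ)
    (hgρ : ((g ⟨ρ, hρ⟩ : N) : Ω) = algebraMap C Ω (ζ ^ j) * ρ) (z : N) :
    ((g z : N) : Ω) = (σ ^ j) (z : Ω) := by
  obtain ⟨w, hw1, hw2, hw3⟩ := a5_lag hl hσ hℓ h hζ (z : Ω) z.2
  have hk : ∀ k, ((g ⟨w k, hw1 k⟩ : N) : Ω) = (σ ^ j) (w k) := by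
    intro k
    have hc : ∀ c : C, g (algebraMap C N c) = algebraMap C N c := by
      intro c
      apply hg
      exact hl c
    have hρk : ρ ^ k ∈ N := pow_mem hρ k
    have hfix : σ (w k / ρ ^ k) = w k / ρ ^ k := by
      rw [map_div₀, map_pow, hσρ, hw2, mul_pow, ← map_pow]
      have h1 : algebraMap C Ω (ζ ^ k) ≠ 0 := by
        rw [_root_.map_ne_zero]
        exact pow_ne_zero _ (hζ.ne_zero hℓ.ne')
      rw [mul_div_mul_left _ _ h1]
    have hmem : w k / ρ ^ k ∈ N := div_mem (hw1 k) hρk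
    have e1 : (⟨w k, hw1 k⟩ : N) = ⟨w k / ρ ^ k, hmem⟩ * (⟨ρ, hρ⟩ : N) ^ k := by
      apply Subtype.ext
      show w k = w k / ρ ^ k * ρ ^ k
      rw [div_mul_cancel₀ _ (pow_ne_zero _ hρ0)]
    have e2 : g ⟨w k / ρ ^ k, hmem⟩ = ⟨w k / ρ ^ k, hmem⟩ := hg _ hfix
    rw [e1, map_mul, map_pow, e2]
    show w k / ρ ^ k * ((g ⟨ρ, hρ⟩ : N) : Ω) ^ k = _
    have e3 : (σ ^ j) (w k) = algebraMap C Ω ((ζ ^ k) ^ j) * w k := a5_pow_eig hl (hw2 k) j
    rw [hgρ, e3, mul_pow, ← map_pow, ← pow_mul, ← pow_mul, mul_comm j k]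
    have h2 : ρ ^ k ≠ 0 := pow_ne_zero _ hρ0
    field_simp
  have hs : (ℓ : Ω) * ((g z : N) : Ω) = (ℓ : Ω) * (σ ^ j) (z : Ω) := by
    have e1 : (ℓ : N) * z = ∑ k ∈ Finset.range ℓ, (⟨w k, hw1 k⟩ : N) := by
      apply Subtype.ext
      have : ((∑ k ∈ Finset.range ℓ, (⟨w k, hw1 k⟩ : N) : N) : Ω) = ∑ k ∈ Finset.range ℓ, w k := by
        rw [show ((∑ k ∈ Finset.range ℓ, (⟨w k, hw1 k⟩ : N) : N) : Ω) =
          algebraMap N Ω (∑ k ∈ Finset.range ℓ, (⟨w k, hw1 k⟩ : N)) from rfl, map_sum]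
        rfl
      rw [this, ← hw3]
      rfl
    have e2 : (ℓ : N) * g z = ∑ k ∈ Finset.range ℓ, g (⟨w k, hw1 k⟩ : N) := by
      rw [← map_sum, ← e1, map_mul, map_natCast]
    have e3 : (ℓ : Ω) * ((g z : N) : Ω) = ∑ k ∈ Finset.range ℓ, ((g (⟨w k, hw1 k⟩ : N) : N) : Ω) := by
      have := congrArg (algebraMap N Ω) e2
      rw [map_sum] at this
      exact this
    rw [e3]
    have e4 : (ℓ : Ω) * (σ ^ j) (z : Ω) = ∑ k ∈ Finset.range ℓ, (σ ^ j) (w k) := by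
      rw [← map_sum, ← hw3, map_mul, map_natCast]
    rw [e4]
    exact Finset.sum_congr rfl fun k _ => hk k
  exact mul_left_cancel₀ (Nat.cast_ne_zero.2 hℓ.ne') hs

/-- The restriction of `σ` to a stable subfield. -/
private def a5_res (N : IntermediateField C Ω) (σ : Ω ≃+* Ω) (h : ∀ z ∈ N, σ z ∈ N)
    (h' : ∀ z ∈ N, σ.symm z ∈ N) : N ≃+* N where
  toFun z := ⟨σ z, h z z.2⟩
  invFun z := ⟨σ.symm z, h' z z.2⟩
  left_inv z := Subtype.ext (σ.symm_apply_apply z)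
  right_inv z := Subtype.ext (σ.apply_symm_apply z)
  map_mul' x y := Subtype.ext (map_mul σ (x : Ω) y)
  map_add' x y := Subtype.ext (map_add σ (x : Ω) y)

/-- Powers of an automorphism that is given by `σ ^ j`. -/
private theorem a5_iter {N : IntermediateField C Ω} {σ : Ω ≃+* Ω} (g : N ≃+* N) (j : ℕ)
    (hg : ∀ z : N, ((g z : N) : Ω) = (σ ^ j) (z : Ω)) (m : ℕ) (z : N) :
    (((g ^ m) z : N) : Ω) = (σ ^ (j * m)) (z : Ω) := by
  induction m with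
  | zero => simp
  | succ m ih =>
    have e : (g ^ (m + 1)) z = g ((g ^ m) z) := by
      rw [pow_succ']
      rfl
    have e2 : (σ ^ (j * (m + 1))) (z : Ω) = (σ ^ j) ((σ ^ (j * m)) (z : Ω)) := by
      rw [mul_add, mul_one, add_comm, pow_add]
      rfl
    rw [e, hg, ih, e2]

end basic

theorem R_A5 (h0f : st_A0f) (h1 : st_A1) (h2 : st_A2) : st_A5 := by
  intro C Ω _ _ _ _ _ _ L N σ ℓ hNL hFN hKC hl hσ hℓ hL hmv
  by_contra hcon
  have hN : ∀ z ∈ N, (σ ^ ℓ) z = z := fun z hz => hL z (hNL hz)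
  have hchar : CharZero Ω := charZero_of_injective_algebraMap (algebraMap C Ω).injective
  -- the eigenvector
  obtain ⟨z₀, hz₀, hz₀'⟩ := hmv
  obtain ⟨p, ρ, ζ, hp, hpl, hρ, hρ0, hζ, hσρ⟩ := h1 C Ω N σ ℓ hl hσ hℓ.pos z₀ hz₀ (hN z₀ hz₀) hz₀'
  obtain rfl : p = ℓ := (Nat.prime_dvd_prime_iff_eq hp hℓ).1 hpl
  -- the fixed field
  obtain ⟨N₀, hN₀, hF₀, halg⟩ := h0f C Ω N σ p hFN hl hσ hℓ.pos hN
  have hle : N₀ ≤ N := fun z hz => ((hN₀ z).1 hz).1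
  have hsym : ∀ z ∈ N, σ.symm z ∈ N := by
    intro z hz
    have e : σ.symm z = (σ ^ (p - 1)) z := by
      rw [RingEquiv.symm_apply_eq]
      have e2 : σ ((σ ^ (p - 1)) z) = (σ ^ (p - 1 + 1)) z := by
        rw [pow_succ']
        rfl
      rw [e2, Nat.sub_add_cancel hℓ.one_lt.le, hN z hz]
    rw [e]
    exact a5_pow_mem hσ _ z hz
  let i : N₀ →+* N := (IntermediateField.inclusion hle : N₀ →+* N)
  have hicoe : ∀ w : N₀, ((i w : N) : Ω) = (w : Ω) := fun w => rfl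
  have hi : ∀ c : C, i (algebraMap C N₀ c) = algebraMap C N c := fun c => rfl
  have halg' : ∀ z : N, ∃ q : Polynomial N₀, q ≠ 0 ∧ q.eval₂ i z = 0 := by
    intro z
    obtain ⟨q, hq0, hq⟩ := halg z z.2
    refine ⟨q, hq0, ?_⟩
    apply (algebraMap N Ω).injective
    rw [map_zero, Polynomial.hom_eval₂]
    exact hq
  have hfix : ∀ z : N, (∀ g : N ≃+* N, (∀ w : N₀, g (i w) = i w) → g z = z) → ∃ w : N₀, i w = z := by
    intro z hz
    have h3 := hz (a5_res N σ hσ hsym) (fun w => Subtype.ext ((hN₀ w).1 w.2).2)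
    have h4 : σ (z : Ω) = z := congrArg Subtype.val h3
    exact ⟨⟨z, (hN₀ z).2 ⟨z.2, h4⟩⟩, rfl⟩
  -- only the identity stabilises a place
  have hone : ∀ P : ValuationSubring N, IsPl C P → ∀ g : N ≃+* N, (∀ w : N₀, g (i w) = i w) →
      (∀ z, g z ∈ P ↔ z ∈ P) → g = 1 := by
    intro P hP g hg hgP
    have hgfix : ∀ w : N, σ (w : Ω) = w → g w = w := by
      intro w hw
      exact hg ⟨w, (hN₀ w).2 ⟨w.2, hw⟩⟩
    have hρp : σ (ρ ^ p) = ρ ^ p := by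
      rw [map_pow, hσρ, mul_pow, ← map_pow, hζ.pow_eq_one, map_one, one_mul]
    have hgp : g ((⟨ρ, hρ⟩ : N) ^ p) = (⟨ρ, hρ⟩ : N) ^ p := hgfix _ hρp
    have hρN : (⟨ρ, hρ⟩ : N) ≠ 0 := fun h0 => hρ0 (congrArg Subtype.val h0)
    have hξ : (g ⟨ρ, hρ⟩ / ⟨ρ, hρ⟩) ^ p = 1 := by
      rw [div_pow, ← map_pow, hgp, div_self (pow_ne_zero _ hρN)]
    have hζN : IsPrimitiveRoot (algebraMap C N ζ) p := hζ.map_of_injective (algebraMap C N).injective
    have : NeZero p := ⟨hℓ.ne_zero⟩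
    obtain ⟨j, hj, hj'⟩ := hζN.eq_pow_of_pow_eq_one hξ
    have hgρ : ((g ⟨ρ, hρ⟩ : N) : Ω) = algebraMap C Ω (ζ ^ j) * ρ := by
      have h5 : g ⟨ρ, hρ⟩ = algebraMap C N (ζ ^ j) * ⟨ρ, hρ⟩ := by
        rw [map_pow, hj', div_mul_cancel₀ _ hρN]
      rw [h5]
      rfl
    have hgj := a5_ext hl hσ hℓ.pos hN hζ hρ hρ0 hσρ g hgfix j hgρ
    rcases Nat.eq_zero_or_pos j with h0 | h0
    · subst h0
      apply RingEquiv.ext
      intro z
      apply Subtype.ext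
      rw [hgj z]
      rfl
    · exfalso
      have hcop : Nat.Coprime j p :=
        (Nat.coprime_of_lt_prime h0.ne' hj hℓ).symm
      obtain ⟨m, hm⟩ := Nat.exists_mul_mod_eq_one_of_coprime hcop hℓ.one_lt
      have hgm : ∀ z : N, (((g ^ m) z : N) : Ω) = σ (z : Ω) := by
        intro z
        rw [a5_iter g j hgj m z]
        have e : j * m = p * (j * m / p) + 1 := by
          have := Nat.div_add_mod (j * m) p
          omega
        rw [e, a5_mod hσ hN _ _ _ z.2, pow_one]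
      have hgmP : ∀ (n : ℕ) (z : N), (g ^ n) z ∈ P ↔ z ∈ P := by
        intro n
        induction n with
        | zero => intro z; exact Iff.rfl
        | succ n ih =>
          intro z
          have e : (g ^ (n + 1)) z = g ((g ^ n) z) := by
            rw [pow_succ']
            rfl
          rw [e, hgP, ih]
      obtain ⟨P', hP', hP'c⟩ := pl_up (C := C) (algebraMap N Ω) (fun c => rfl) hP
      have hmem : ∀ z : N, (z : Ω) ∈ P' ↔ z ∈ P := by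
        intro z
        rw [← hP'c]
        exact Iff.rfl
      apply hcon
      refine ⟨P', ⟨hP'.1, ?_⟩, ?_⟩
      · by_contra hn
        push Not at hn
        apply hP.2
        rw [eq_top_iff]
        intro z _
        exact (hmem z).1 (hn z z.2)
      · intro z hz
        have e1 : σ z = (((g ^ m) ⟨z, hz⟩ : N) : Ω) := (hgm ⟨z, hz⟩).symm
        rw [e1, hmem, hgmP]
        exact (hmem ⟨z, hz⟩).symm
  -- the extension is unramified
  have hunr : ∀ P : ValuationSubring N, IsPl C P → ∀ f : N₀, f ≠ 0 →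
      od C P (i f) = od C (P.comap i) f := by
    intro P hP f hf
    obtain ⟨_, e, he0, hed, he⟩ := h2 C N₀ N i hi hF₀ hFN halg' hfix P hP
    have hsub : Subsingleton {g : N ≃+* N // (∀ w : N₀, g (i w) = i w) ∧ ∀ z, g z ∈ P ↔ z ∈ P} := by
      constructor
      intro g g'
      apply Subtype.ext
      rw [hone P hP g.1 g.2.1 g.2.2, hone P hP g'.1 g'.2.1 g'.2.2]
    have hcard : Nat.card {g : N ≃+* N // (∀ w : N₀, g (i w) = i w) ∧ ∀ z, g z ∈ P ↔ z ∈ P} = 1 := by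
      rw [Nat.card_eq_one_iff_unique]
      exact ⟨hsub, ⟨⟨1, fun w => rfl, fun z => Iff.rfl⟩⟩⟩
    rw [hcard] at hed
    have he1 : e = 1 := Nat.dvd_one.1 hed
    rw [he f hf, he1]
    simp
  -- the function `a = ρ ^ p` on `N₀`
  have ha : ρ ^ p ∈ N₀ := by
    rw [hN₀]
    refine ⟨pow_mem hρ _, ?_⟩
    rw [map_pow, hσρ, mul_pow, ← map_pow, hζ.pow_eq_one, map_one, one_mul]
  have ha0 : (⟨ρ ^ p, ha⟩ : N₀) ≠ 0 := fun h0 => pow_ne_zero p hρ0 (congrArg Subtype.val h0)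
  obtain ⟨h, hh0, hh⟩ := a5_fun hF₀ hℓ.pos ha0 (by
    intro O hO
    obtain ⟨P, hP, hPO⟩ := pl_up (C := C) i hi hO
    have e1 := hunr P hP ⟨ρ ^ p, ha⟩ ha0
    rw [hPO] at e1
    rw [← e1]
    have hρN : (⟨ρ, hρ⟩ : N) ≠ 0 := fun h0 => hρ0 (congrArg Subtype.val h0)
    have e2 : i ⟨ρ ^ p, ha⟩ = (⟨ρ, hρ⟩ : N) ^ p := rfl
    rw [e2, ord_pow (od_spec hFN hP) hρN]
    exact Dvd.intro _ rfl)
  -- a root of order `p ^ 2`
  obtain ⟨η, hη⟩ := IsAlgClosed.exists_pow_nat_eq (((⟨ρ ^ p, ha⟩ * h ^ p : N₀) : Ω))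
    (pow_pos hℓ.pos 2)
  have hηL : η ∈ L := by
    refine hKC N₀ (hle.trans hNL) hF₀ (⟨ρ ^ p, ha⟩ * h ^ p) (p ^ 2) (pow_pos hℓ.pos 2)
      (mul_ne_zero ha0 (pow_ne_zero _ hh0)) ?_ η hη
    intro O hO
    exact hh O hO
  have hhΩ : (h : Ω) ≠ 0 := fun h0 => hh0 (Subtype.ext h0)
  have hσh : σ (h : Ω) = h := ((hN₀ h).1 h.2).2
  have hη2 : η ^ (p ^ 2) = (ρ * h) ^ p := by
    rw [hη, mul_pow]
    rfl
  have hη0 : η ≠ 0 := by
    rintro rfl
    rw [zero_pow (pow_pos hℓ.pos 2).ne'] at hη2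
    exact pow_ne_zero p (mul_ne_zero hρ0 hhΩ) hη2.symm
  have hζΩ : IsPrimitiveRoot (algebraMap C Ω ζ) p := hζ.map_of_injective (algebraMap C Ω).injective
  have : NeZero p := ⟨hℓ.ne_zero⟩
  have hξ : (η ^ p / (ρ * h)) ^ p = 1 := by
    rw [div_pow, ← pow_mul, ← sq, hη2, div_self (pow_ne_zero _ (mul_ne_zero hρ0 hhΩ))]
  obtain ⟨j, _, hj⟩ := hζΩ.eq_pow_of_pow_eq_one hξ
  have hηp : η ^ p = algebraMap C Ω (ζ ^ j) * (ρ * h) := by
    rw [map_pow, hj, div_mul_cancel₀ _ (mul_ne_zero hρ0 hhΩ)]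
  have hσηp : (σ η) ^ p = algebraMap C Ω ζ * η ^ p := by
    rw [← map_pow, hηp, map_mul, hl, map_mul, hσρ, hσh]
    ring
  obtain ⟨c, hc⟩ := IsAlgClosed.exists_pow_nat_eq ζ hℓ.pos
  have hζ0 : ζ ≠ 0 := hζ.ne_zero hℓ.ne_zero
  have hc0 : c ≠ 0 := by
    rintro rfl
    rw [zero_pow hℓ.ne_zero] at hc
    exact hζ0 hc.symm
  have hcΩ : algebraMap C Ω c ≠ 0 := by
    rw [_root_.map_ne_zero]
    exact hc0
  have hξ2 : (σ η / (algebraMap C Ω c * η)) ^ p = 1 := by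
    rw [div_pow, mul_pow, hσηp, ← map_pow, hc]
    apply div_self
    apply mul_ne_zero
    · rw [_root_.map_ne_zero]
      exact hζ0
    · exact pow_ne_zero _ hη0
  obtain ⟨j', _, hj'⟩ := hζΩ.eq_pow_of_pow_eq_one hξ2
  have hση : σ η = algebraMap C Ω (c * ζ ^ j') * η := by
    have h5 : σ η = (algebraMap C Ω ζ) ^ j' * (algebraMap C Ω c * η) := by
      rw [hj', div_mul_cancel₀ _ (mul_ne_zero hcΩ hη0)]
    rw [h5, map_mul, map_pow]
    ring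
  have h6 := a5_pow_eig hl hση p
  rw [hL η hηL, mul_pow, hc, ← pow_mul, mul_comm j' p, pow_mul, hζ.pow_eq_one, one_pow,
    mul_one] at h6
  have h7 : algebraMap C Ω ζ = 1 := by
    have : algebraMap C Ω ζ * η = 1 * η := by rw [one_mul, ← h6]
    exact mul_right_cancel₀ hη0 this
  exact hζΩ.ne_one hℓ.one_lt h7

end SGT
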