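import Pool.Agent.SGT.StA

/-!
# [SGT-A6] no three fixed places (MP_3dd09b_ag)
-/

set_option autoImplicit false
set_option linter.unusedVariables false

open GT IsLocalRing Polynomial

namespace SGT

section basic

variable {C Ω : Type} [Field C] [Field Ω] [Algebra C Ω]

/-- `σ ^ n` preserves `N`. -/
private theorem a6_pow_mem {N : IntermediateField C Ω} {σ : Ω ≃+* Ω} (h : ∀ z ∈ N, σ z ∈ N) (n : ℕ) :
    ∀ z ∈ N, (σ ^ n) z ∈ N := by
  induction n with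
  | zero => intro z hz; exact hz
  | succ n ih =>
    intro z hz
    rw [pow_succ']
    exact h _ (ih z hz)

/-- `N` is stable under `σ` and its inverse. -/
private theorem a6_sta {N : IntermediateField C Ω} {σ : Ω ≃+* Ω} (h : ∀ z ∈ N, σ z ∈ N) {ℓ : ℕ}
    (hℓ : 0 < ℓ) (hN : ∀ z ∈ N, (σ ^ ℓ) z = z) : Sta σ (N : Set Ω) := by
  intro z
  constructor
  · intro hz
    have e : z = (σ ^ (ℓ - 1)) (σ z) := by
      have e2 : (σ ^ ℓ) (σ z) = σ ((σ ^ (ℓ - 1)) (σ z)) := by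
        have e3 : σ ^ ℓ = σ * σ ^ (ℓ - 1) := by
          rw [← pow_succ', Nat.sub_add_cancel hℓ]
        rw [e3]
        rfl
      rw [hN _ hz] at e2
      exact σ.injective e2
    rw [e]
    exact a6_pow_mem h _ _ hz
  · intro hz
    exact h z hz

/-- A valuation ring is closed under roots. -/
private theorem a6_root (P : ValuationSubring Ω) {x : Ω} {n : ℕ} (hn : 0 < n) (h : x ^ n ∈ P) :
    x ∈ P := by
  rcases P.mem_or_inv_mem x with h1 | h1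
  · exact h1
  · by_cases h0 : x = 0
    · rw [h0]
      exact P.zero_mem
    · have e : x = x ^ n * (x⁻¹) ^ (n - 1) := by
        have e2 : x ^ n = x * x ^ (n - 1) := by
          rw [← pow_succ', Nat.sub_add_cancel hn]
        rw [e2, mul_assoc, ← mul_pow, mul_inv_cancel₀ h0, one_pow, mul_one]
      rw [e]
      exact P.mul_mem _ _ h (pow_mem h1 _)

/-- The restriction of a place of `N` to a subfield over which `N` is algebraic. -/
private theorem a6_pl {N₀ N : IntermediateField C Ω} (hle : N₀ ≤ N)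
    (halg : ∀ z ∈ N, IsAlgebraic N₀ z) :
    (∀ c : C, (IntermediateField.inclusion hle : N₀ →+* N) (algebraMap C N₀ c) = algebraMap C N c) ∧
    (∀ z : N, ∃ q : Polynomial N₀, q ≠ 0 ∧
      q.eval₂ (IntermediateField.inclusion hle : N₀ →+* N) z = 0) := by
  refine ⟨fun c => rfl, fun z => ?_⟩
  obtain ⟨q, hq0, hq⟩ := halg z z.2
  refine ⟨q, hq0, ?_⟩
  apply (algebraMap N Ω).injective
  rw [map_zero, Polynomial.hom_eval₂]
  exact hq

private theorem a6_rs {N : IntermediateField C Ω} {P : ValuationSubring Ω}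
    (h : Plc C (N : Set Ω) P) : IsPl C (rs N P) := by
  refine ⟨fun c => h.1 c, fun ht => ?_⟩
  obtain ⟨z, hz, hzP⟩ := h.2
  apply hzP
  have h1 : (⟨z, hz⟩ : N) ∈ rs N P := by
    rw [ht]
    exact ValuationSubring.mem_top _
  exact h1

end basic

/-- The eigenvalue of `σ` at a root `η` of a function `g` on the fixed field, from the character of
`σ` at a fixed place. -/
private theorem a6_key (h3 : st_A3) (h4 : st_A4) {C Ω : Type} [Field C] [CharZero C] [IsAlgClosed C]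
    [Field Ω] [Algebra C Ω] {L N : IntermediateField C Ω} {σ : Ω ≃+* Ω} {ℓ : ℕ} (hNL : N ≤ L)
    (hFN : FF C N) (hl : Lin C σ) (hσ : ∀ z ∈ N, σ z ∈ N) (hℓ : ℓ.Prime)
    (hN : ∀ z ∈ N, (σ ^ ℓ) z = z) (hmv : ∃ z ∈ N, σ z ≠ z) {P : ValuationSubring Ω}
    (hP : Plc C (N : Set Ω) P) (hPL : StP σ (L : Set Ω) P) {g : Ω} (hg : g ∈ N) (hg0 : g ≠ 0)
    {η : Ω} (hηL : η ∈ L) (hη : η ^ ℓ = g) {θ : C} (hθ : σ η = algebraMap C Ω θ * η) {n : ℤ}
    (hn : od C (rs N P) ⟨g, hg⟩ = ℓ * n) :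
    ∃ c : C, c ≠ 0 ∧ c ^ ℓ = 1 ∧ c ≠ 1 ∧ θ = c ^ n := by
  have hPN : StP σ (N : Set Ω) P := fun z hz => hPL z (hNL hz)
  obtain ⟨c, hc0, hc1, hc2⟩ := h4 C Ω N σ P hFN hl (a6_sta hσ hℓ.pos hN) hP hPN
  obtain ⟨hc3, hc4⟩ := hc2 ℓ hℓ.pos hN
  refine ⟨c, hc0, hc3, ?_, ?_⟩
  · intro h1
    obtain ⟨z, hz, hz'⟩ := hmv
    exact hz' (hc4 h1 z hz)
  -- the uniformiser
  have hpl := a6_rs hP
  have ho := od_spec hFN hpl
  obtain ⟨π, hπ0, hπ⟩ := ho.surj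
  have hz0 : (π ^ n : N) ≠ 0 := zpow_ne_zero n hπ0
  have hzn : od C (rs N P) (π ^ n) = n := by
    have hnat : ∀ m : ℕ, od C (rs N P) (π ^ m) = m := by
      intro m
      rw [ord_pow ho hπ0, hπ, mul_one]
    rcases Int.eq_nat_or_neg n with ⟨m, hm | hm⟩
    · rw [hm, zpow_natCast, hnat]
    · rw [hm, zpow_neg, zpow_natCast, ord_inv ho (pow_ne_zero _ hπ0), hnat]
  have hz0' : ((π ^ n : N) : Ω) ≠ 0 := fun h0 => hz0 (Subtype.ext h0)
  have hη0 : η ≠ 0 := by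
    rintro rfl
    rw [zero_pow hℓ.ne_zero] at hη
    exact hg0 hη.symm
  set ε : Ω := η / ((π ^ n : N) : Ω) with hε
  have hε0 : ε ≠ 0 := div_ne_zero hη0 hz0'
  -- `ε ^ ℓ` is a unit at `P`
  have hgN0 : (⟨g, hg⟩ : N) ≠ 0 := fun h0 => hg0 (congrArg Subtype.val h0)
  have hy : od C (rs N P) (⟨g, hg⟩ / (π ^ n) ^ ℓ) = 0 := by
    rw [div_eq_mul_inv, ho.mul _ _ hgN0 (inv_ne_zero (pow_ne_zero _ hz0)),
      ord_inv ho (pow_ne_zero _ hz0), ord_pow ho hz0, hzn, hn]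
    ring
  have hy0 : (⟨g, hg⟩ / (π ^ n) ^ ℓ : N) ≠ 0 := div_ne_zero hgN0 (pow_ne_zero _ hz0)
  have hεl : ε ^ ℓ = ((⟨g, hg⟩ / (π ^ n) ^ ℓ : N) : Ω) := by
    rw [hε, div_pow, hη]
    rfl
  have hεP : ε ∈ P := by
    apply a6_root P hℓ.pos
    rw [hεl]
    exact (ho.mem _ hy0).2 (by rw [hy])
  have hεP' : ε⁻¹ ∈ P := by
    apply a6_root P hℓ.pos
    rw [inv_pow, hεl]
    have h1 : (⟨g, hg⟩ / (π ^ n) ^ ℓ : N)⁻¹ ∈ rs N P :=
      (ho.mem _ (inv_ne_zero hy0)).2 (by rw [ord_inv ho hy0, hy, neg_zero])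
    exact h1
  -- the field `N (η)`
  have hηalg : IsAlgebraic N η := by
    refine ⟨X ^ ℓ - Polynomial.C (⟨g, hg⟩ : N), ?_, ?_⟩
    · exact (monic_X_pow_sub_C _ hℓ.ne_zero).ne_zero
    · rw [map_sub, map_pow, aeval_X, aeval_C, hη]
      exact sub_self _
  have hFN' : FF C (IntermediateField.adjoin C ((N : Set Ω) ∪ (({η} : Finset Ω) : Set Ω))) :=
    ff_sup N hFN {η} (fun y hy => by
      rw [Finset.mem_singleton] at hy
      rw [hy]
      exact hηalg)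
  set N' := IntermediateField.adjoin C ((N : Set Ω) ∪ (({η} : Finset Ω) : Set Ω)) with hN'
  have hNN' : N ≤ N' := fun z hz => IntermediateField.subset_adjoin C _ (Or.inl hz)
  have hηN' : η ∈ N' := IntermediateField.subset_adjoin C _ (Or.inr (by simp))
  have hN'L : N' ≤ L := by
    rw [hN', IntermediateField.adjoin_le_iff]
    rintro z (hz | hz)
    · exact hNL hz
    · rw [Finset.coe_singleton, Set.mem_singleton_iff] at hz
      rw [hz]
      exact hηL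
  have hP' : Plc C (N' : Set Ω) P := by
    obtain ⟨z, hz, hzP⟩ := hP.2
    exact ⟨hP.1, z, hNN' hz, hzP⟩
  obtain ⟨_, _, g3, g4⟩ := h3 C Ω N' σ P hFN' hl hP' (fun z hz => hPL z (hN'L hz))
  have hεN' : ε ∈ N' := div_mem hηN' (hNN' (π ^ n : N).2)
  have k1 := g3 ε hεN' hε0 hεP hεP'
  have k2 := hc1 (π ^ n) hz0
  rw [hzn] at k2
  rw [ValuationSubring.mem_nonunits_iff] at k1 k2
  -- compare
  have hc : algebraMap C Ω (c ^ n) ∈ P := hP.1 _
  have hu : P.valuation (σ ((π ^ n : N) : Ω) / ((π ^ n : N) : Ω)) ≤ 1 := by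
    have e : σ ((π ^ n : N) : Ω) / ((π ^ n : N) : Ω) =
        (σ ((π ^ n : N) : Ω) / ((π ^ n : N) : Ω) - algebraMap C Ω (c ^ n)) +
          algebraMap C Ω (c ^ n) := by ring
    rw [e]
    refine (Valuation.map_add _ _ _).trans (max_le k2.le ?_)
    rw [ValuationSubring.valuation_le_one_iff]
    exact hc
  have hσz0 : σ ((π ^ n : N) : Ω) ≠ 0 := (_root_.map_ne_zero σ).2 hz0'
  have e1 : algebraMap C Ω (θ - c ^ n) =
      (σ ε / ε - 1) * (σ ((π ^ n : N) : Ω) / ((π ^ n : N) : Ω)) +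
        (σ ((π ^ n : N) : Ω) / ((π ^ n : N) : Ω) - algebraMap C Ω (c ^ n)) := by
    have e2 : (σ ε / ε) * (σ ((π ^ n : N) : Ω) / ((π ^ n : N) : Ω)) = algebraMap C Ω θ := by
      rw [hε, map_div₀, hθ]
      field_simp
    rw [map_sub, ← e2]
    ring
  have k3 : algebraMap C Ω (θ - c ^ n) ∈ P.nonunits := by
    rw [ValuationSubring.mem_nonunits_iff, e1]
    refine lt_of_le_of_lt (Valuation.map_add _ _ _) (max_lt ?_ k2)
    rw [map_mul]
    calc P.valuation (σ ε / ε - 1) * P.valuation (σ ((π ^ n : N) : Ω) / ((π ^ n : N) : Ω))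
        ≤ P.valuation (σ ε / ε - 1) * 1 := by
          exact mul_le_mul_right hu _
      _ < 1 := by rw [mul_one]; exact k1
  exact sub_eq_zero.1 (g4 _ k3)

theorem R_A6 (h0f : st_A0f) (h3 : st_A3) (h4 : st_A4) (h6a : st_A6a) : st_A6 := by
  intro C Ω _ _ _ _ _ _ L N σ ℓ hNL hFN hKC hl hσ hσL hℓ hL hmv P Q R hP hQ hR hPL hQL hRN
    hPQ hPR hQR
  have hN : ∀ z ∈ N, (σ ^ ℓ) z = z := fun z hz => hL z (hNL hz)
  have hPN : StP σ (N : Set Ω) P := fun z hz => hPL z (hNL hz)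
  have hQN : StP σ (N : Set Ω) Q := fun z hz => hQL z (hNL hz)
  obtain ⟨N₀, hN₀, hF₀, halg⟩ := h0f C Ω N σ ℓ hFN hl hσ hℓ.pos hN
  have hle : N₀ ≤ N := fun z hz => ((hN₀ z).1 hz).1
  obtain ⟨hi, halg'⟩ := a6_pl hle halg
  obtain ⟨hP1, hP2⟩ := h6a C Ω N N₀ σ ℓ P hFN hl hσ hℓ hN hmv hN₀ hP hPN
  obtain ⟨hQ1, hQ2⟩ := h6a C Ω N N₀ σ ℓ Q hFN hl hσ hℓ hN hmv hN₀ hQ hQN
  obtain ⟨hR1, hR2⟩ := h6a C Ω N N₀ σ ℓ R hFN hl hσ hℓ hN hmv hN₀ hR hRN
  have hpl : ∀ O : ValuationSubring Ω, Plc C (N : Set Ω) O → IsPl C (rs N₀ O) := by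
    intro O hO
    exact pl_comap (C := C) (IntermediateField.inclusion hle : N₀ →+* N) hi halg' (a6_rs hO)
  have hPR0 : rs N₀ P ≠ rs N₀ R := by
    intro h0
    apply hPR
    intro z hz
    have h1 : Eqv (N₀ : Set Ω) R P := by
      intro w hw
      have h2 : (⟨w, hw⟩ : N₀) ∈ rs N₀ P ↔ (⟨w, hw⟩ : N₀) ∈ rs N₀ R := by rw [h0]
      exact h2.symm
    exact (hP2 R hR h1 z hz).symm
  have hQP0 : rs N₀ Q ≠ rs N₀ P := by
    intro h0
    apply hPQ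
    intro z hz
    have h1 : Eqv (N₀ : Set Ω) Q P := by
      intro w hw
      have h2 : (⟨w, hw⟩ : N₀) ∈ rs N₀ Q ↔ (⟨w, hw⟩ : N₀) ∈ rs N₀ P := by rw [h0]
      exact h2
    exact (hP2 Q hQ h1 z hz).symm
  have hQR0 : rs N₀ Q ≠ rs N₀ R := by
    intro h0
    apply hQR
    intro z hz
    have h1 : Eqv (N₀ : Set Ω) R Q := by
      intro w hw
      have h2 : (⟨w, hw⟩ : N₀) ∈ rs N₀ Q ↔ (⟨w, hw⟩ : N₀) ∈ rs N₀ R := by rw [h0]
      exact h2.symm
    exact (hQ2 R hR h1 z hz).symm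
  obtain ⟨g, hg0, hgP, hgR, hgO⟩ := exists_t' hF₀ hℓ.pos (hpl P hP) (hpl R hR) hPR0
  have hgN : (g : Ω) ∈ N := hle g.2
  have hg0' : (g : Ω) ≠ 0 := fun h0 => hg0 (Subtype.ext h0)
  have hgN0 : (⟨g, hgN⟩ : N) ≠ 0 := fun h0 => hg0' (congrArg Subtype.val h0)
  -- all the orders of `g` on `N` are divisible by `ℓ`
  have hdiv : ∀ O : ValuationSubring N, IsPl C O → (ℓ : ℤ) ∣ od C O (⟨g, hgN⟩ : N) := by
    intro O hO
    obtain ⟨O', hO', hOO'⟩ := pl_up (C := C) (algebraMap N Ω) (fun c => rfl) hO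
    have hmem : ∀ z : N, (z : Ω) ∈ O' ↔ z ∈ O := by
      intro z
      rw [← hOO']
      exact Iff.rfl
    have hO'N : Plc C (N : Set Ω) O' := by
      refine ⟨hO'.1, ?_⟩
      by_contra hn
      push Not at hn
      apply hO.2
      rw [eq_top_iff]
      intro z _
      exact (hmem z).1 (hn z z.2)
    have hcase : ∀ S : ValuationSubring Ω,
        (∀ O : ValuationSubring Ω, Plc C (N : Set Ω) O → Eqv (N₀ : Set Ω) O S →
          Eqv (N : Set Ω) O S) → rs N₀ O' = rs N₀ S → O = rs N S := by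
      intro S hS h0
      have h1 : Eqv (N₀ : Set Ω) O' S := by
        intro w hw
        have h2 : (⟨w, hw⟩ : N₀) ∈ rs N₀ O' ↔ (⟨w, hw⟩ : N₀) ∈ rs N₀ S := by rw [h0]
        exact h2
      have h2 := hS O' hO'N h1
      ext z
      rw [← hmem z]
      exact h2 z z.2
    by_cases hc1 : rs N₀ O' = rs N₀ P
    · rw [hcase P hP2 hc1, hP1 g g.2 hgN hg0']
      exact Dvd.intro _ rfl
    by_cases hc2 : rs N₀ O' = rs N₀ R
    · rw [hcase R hR2 hc2, hR1 g g.2 hgN hg0']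
      exact Dvd.intro _ rfl
    have h1 := hgO (rs N₀ O') (hpl O' hO'N) hc1 hc2
    rw [ZMod.intCast_zmod_eq_zero_iff_dvd] at h1
    have hcomap : O.comap (IntermediateField.inclusion hle : N₀ →+* N) = rs N₀ O' := by
      rw [← hOO']
      rfl
    have ho : IsOrd C (O.comap (IntermediateField.inclusion hle : N₀ →+* N)) (od C (rs N₀ O')) := by
      rw [hcomap]
      exact od_spec hF₀ (hpl O' hO'N)
    obtain ⟨e, _, he⟩ := ord_comap (IntermediateField.inclusion hle : N₀ →+* N) (od_spec hFN hO) ho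
    have h2 := he g hg0
    have h3 : (IntermediateField.inclusion hle : N₀ →+* N) g = ⟨g, hgN⟩ := rfl
    rw [h3] at h2
    rw [h2]
    exact Dvd.dvd.mul_left h1 e
  -- the root of `g`
  obtain ⟨η, hη⟩ := IsAlgClosed.exists_pow_nat_eq (g : Ω) hℓ.pos
  have hηL : η ∈ L := hKC N hNL hFN ⟨g, hgN⟩ ℓ hℓ.pos hgN0 hdiv η hη
  have hη0 : η ≠ 0 := by
    rintro rfl
    rw [zero_pow hℓ.ne_zero] at hη
    exact hg0' hη.symm
  -- a primitive root of unity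
  obtain ⟨c, hc0, hc1, hc2⟩ := h4 C Ω N σ P hFN hl (a6_sta hσ hℓ.pos hN) hP hPN
  obtain ⟨hc3, hc4⟩ := hc2 ℓ hℓ.pos hN
  have hcne : c ≠ 1 := by
    intro h1
    obtain ⟨z, hz, hz'⟩ := hmv
    exact hz' (hc4 h1 z hz)
  have : Fact ℓ.Prime := ⟨hℓ⟩
  have hcprim : IsPrimitiveRoot c ℓ := by
    have h1 := orderOf_eq_prime hc3 hcne
    have h2 := IsPrimitiveRoot.orderOf c
    rwa [h1] at h2
  have hcΩ : IsPrimitiveRoot (algebraMap C Ω c) ℓ :=
    hcprim.map_of_injective (algebraMap C Ω).injective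
  have : NeZero ℓ := ⟨hℓ.ne_zero⟩
  have hθ : (σ η / η) ^ ℓ = 1 := by
    rw [div_pow, ← map_pow, hη, ((hN₀ g).1 g.2).2, div_self hg0']
  obtain ⟨j, _, hj⟩ := hcΩ.eq_pow_of_pow_eq_one hθ
  have hση : σ η = algebraMap C Ω (c ^ j) * η := by
    rw [map_pow, hj, div_mul_cancel₀ _ hη0]
  obtain ⟨a, ha0, ha1, ha2, ha3⟩ := a6_key h3 h4 hNL hFN hl hσ hℓ hN hmv hP hPL hgN hg0' hηL hη hση
    (hP1 g g.2 hgN hg0')
  obtain ⟨b, hb0, hb1, hb2, hb3⟩ := a6_key h3 h4 hNL hFN hl hσ hℓ hN hmv hQ hQL hgN hg0' hηL hη hση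
    (hQ1 g g.2 hgN hg0')
  -- the exponents
  have hnQ := hgO (rs N₀ Q) (hpl Q hQ) hQP0 hQR0
  rw [ZMod.intCast_zmod_eq_zero_iff_dvd] at hnQ
  have hnP : (ℓ : ℤ) ∣ od C (rs N₀ P) g - 1 := by
    rw [← ZMod.intCast_zmod_eq_zero_iff_dvd]
    push_cast
    rw [hgP, sub_self]
  have e1 : c ^ j = 1 := by
    obtain ⟨m, hm⟩ := hnQ
    rw [hb3]
    have : od C (rs N₀ Q) g = (ℓ : ℤ) * m := hm
    rw [show od C (rs N₀ Q) ⟨(g : Ω), g.2⟩ = od C (rs N₀ Q) g from rfl, this, zpow_mul,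
      zpow_natCast, hb1, one_zpow]
  have e2 : c ^ j = a := by
    obtain ⟨m, hm⟩ := hnP
    rw [ha3]
    have : od C (rs N₀ P) g = (ℓ : ℤ) * m + 1 := by linarith
    rw [show od C (rs N₀ P) ⟨(g : Ω), g.2⟩ = od C (rs N₀ P) g from rfl, this, zpow_add₀ ha0,
      zpow_mul, zpow_natCast, ha1, one_zpow, one_mul, zpow_one]
  exact ha2 (by rw [← e2, e1])

end SGT
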