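import Pool.Agent.SGT.StA

/-!
# [SGT-A6a] fixed places are totally ramified and unique over the quotient (MP_3dd09b_ag)
-/

set_option autoImplicit false
set_option linter.unusedVariables false

open GT IsLocalRing Polynomial

namespace SGT

/-- The nonunits of a valuation ring by inverses. -/
theorem a6a_nu {K : Type} [Field K] (A : ValuationSubring K) (x : K) :
    x ∈ A.nonunits ↔ (x = 0 ∨ x⁻¹ ∉ A) := by
  rw [ValuationSubring.mem_nonunits_iff]
  by_cases hx : x = 0
  · rw [hx, map_zero]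
    exact ⟨fun _ => Or.inl rfl, fun _ => zero_lt_one⟩
  · have h0 : 0 < A.valuation x := zero_lt_iff.2 ((Valuation.ne_zero_iff _).2 hx)
    rw [← A.valuation_le_one_iff, map_inv₀, inv_le_one₀ h0, not_le]
    exact ⟨fun h => Or.inr h, fun h => h.resolve_left hx⟩

/-- The restriction of a place. -/
theorem a6a_pl {C Ω : Type} [Field C] [Field Ω] [Algebra C Ω] (N : IntermediateField C Ω)
    (P : ValuationSubring Ω) (h : Plc C (N : Set Ω) P) : IsPl C (rs N P) := by
  refine ⟨fun c => ?_, fun htop => ?_⟩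
  · rw [ValuationSubring.mem_comap]
    exact h.1 c
  · obtain ⟨z, hz, hzP⟩ := h.2
    apply hzP
    have h1 : (⟨z, hz⟩ : N) ∈ rs N P := by rw [htop]; exact ValuationSubring.mem_top _
    rw [ValuationSubring.mem_comap] at h1
    exact h1

/-- The restriction of an automorphism to a stable subfield. -/
def a6a_res {C Ω : Type} [Field C] [Field Ω] [Algebra C Ω] (N : IntermediateField C Ω)
    (σ : Ω ≃+* Ω) (h : Sta σ (N : Set Ω)) : N ≃+* N where
  toFun z := ⟨σ z, (h z).2 z.2⟩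
  invFun z := ⟨σ.symm z, (h _).1 (by rw [RingEquiv.apply_symm_apply]; exact z.2)⟩
  left_inv z := Subtype.ext (σ.symm_apply_apply z)
  right_inv z := Subtype.ext (σ.apply_symm_apply z)
  map_mul' x y := Subtype.ext (map_mul σ _ _)
  map_add' x y := Subtype.ext (map_add σ _ _)

theorem a6a_res_pow {C Ω : Type} [Field C] [Field Ω] [Algebra C Ω] (N : IntermediateField C Ω)
    (σ : Ω ≃+* Ω) (h : Sta σ (N : Set Ω)) (n : ℕ) (z : N) :
    (((a6a_res N σ h ^ n) z : N) : Ω) = (σ ^ n) (z : Ω) := by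
  induction n with
  | zero => rfl
  | succ n ih =>
    rw [pow_succ', pow_succ']
    show σ (((a6a_res N σ h ^ n) z : N) : Ω) = σ ((σ ^ n) (z : Ω))
    rw [ih]

/-- An automorphism of finite order which maps `N` into `N` satisfies `σ N = N`. -/
theorem a6a_sta {C Ω : Type} [Field C] [Field Ω] [Algebra C Ω] (N : IntermediateField C Ω)
    (σ : Ω ≃+* Ω) (n : ℕ) (hn : 0 < n) (h : ∀ z ∈ N, σ z ∈ N) (hσ : ∀ z ∈ N, (σ ^ n) z = z) :
    Sta σ (N : Set Ω) := by
  have hpow : ∀ m : ℕ, ∀ z ∈ N, (σ ^ m) z ∈ N := by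
    intro m
    induction m with
    | zero => intro z hz; exact hz
    | succ m ih =>
      intro z hz
      rw [pow_succ']
      exact h _ (ih z hz)
  intro z
  refine ⟨fun hz => ?_, fun hz => h z hz⟩
  have h1 := hσ _ hz
  obtain ⟨m, rfl⟩ : ∃ m, n = m + 1 := ⟨n - 1, by omega⟩
  rw [pow_succ'] at h1
  have h2 : σ ((σ ^ m) (σ z)) = σ z := h1
  have h3 := σ.injective h2
  have h4 := hpow m _ hz
  rw [h3] at h4
  exact h4

/-- The automorphisms which stabilise `A`. -/
def a6a_St {K : Type} [Field K] (A : ValuationSubring K) : Subgroup (K ≃+* K) where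
  carrier := {g | ∀ z, g z ∈ A ↔ z ∈ A}
  mul_mem' := by
    intro g h hg hh z
    show g (h z) ∈ A ↔ z ∈ A
    rw [hg, hh]
  one_mem' := fun z => Iff.rfl
  inv_mem' := by
    intro g hg z
    show g.symm z ∈ A ↔ z ∈ A
    rw [← hg, RingEquiv.apply_symm_apply]

/-- The automorphisms which fix a set. -/
def a6a_Fx {K : Type} [Field K] (S : Set K) : Subgroup (K ≃+* K) where
  carrier := {g | ∀ z ∈ S, g z = z}
  mul_mem' := by
    intro g h hg hh z hz
    show g (h z) = z
    rw [hh z hz, hg z hz]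
  one_mem' := fun z _ => rfl
  inv_mem' := by
    intro g hg z hz
    show g.symm z = z
    rw [RingEquiv.symm_apply_eq, hg z hz]

/-- Artin: an automorphism which fixes the fixed field of `s` is a power of `s`. -/
theorem a6a_artin {K : Type} [Field K] (s : K ≃+* K) [Finite (Subgroup.zpowers s)] (g : K ≃+* K)
    (h : ∀ z, s z = z → g z = z) : g ∈ Subgroup.zpowers s := by
  have h1 : ∀ r : FixedPoints.subfield (Subgroup.zpowers s) K,
      g (algebraMap (FixedPoints.subfield (Subgroup.zpowers s) K) K r) =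
        algebraMap (FixedPoints.subfield (Subgroup.zpowers s) K) K r := by
    intro r
    apply h
    exact r.2 ⟨s, Subgroup.mem_zpowers s⟩
  obtain ⟨γ, hγ⟩ := FixedPoints.toAlgAut_surjective (Subgroup.zpowers s) K
    (AlgEquiv.ofRingEquiv (f := g) h1)
  have h2 : (γ : K ≃+* K) = g := by
    ext z
    have h3 := DFunLike.congr_fun hγ z
    exact h3
  rw [← h2]
  exact γ.2

/-- Two valuation rings above the same valuation ring of the fixed field of `s` are conjugate. -/
theorem a6a_conj {K : Type} [Field K] (s : K ≃+* K) [Finite (Subgroup.zpowers s)]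
    (V V' : ValuationSubring K) (h : ∀ z, s z = z → (z ∈ V ↔ z ∈ V')) :
    ∃ g ∈ Subgroup.zpowers s, ∀ z, g z ∈ V' ↔ z ∈ V := by
  have hfix : ∀ r : FixedPoints.subfield (Subgroup.zpowers s) K,
      s (algebraMap (FixedPoints.subfield (Subgroup.zpowers s) K) K r) =
        algebraMap (FixedPoints.subfield (Subgroup.zpowers s) K) K r := fun r =>
    r.2 ⟨s, Subgroup.mem_zpowers s⟩
  haveI : IsGalois (FixedPoints.subfield (Subgroup.zpowers s) K) K := ⟨⟩
  obtain ⟨g, hg⟩ := SC2.exists_conj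
    (k := FixedPoints.subfield (Subgroup.zpowers s) K) (C := K)
    (A := V'.comap (algebraMap (FixedPoints.subfield (Subgroup.zpowers s) K) K))
    (V := V) (V' := V')
    (fun a => by
      rw [ValuationSubring.mem_comap]
      exact h _ (hfix a))
    (fun a => by rw [ValuationSubring.mem_comap])
  refine ⟨(g : K ≃+* K), ?_, fun z => hg z⟩
  apply a6a_artin
  intro z hz
  have h1 : z ∈ FixedPoints.subfield (Subgroup.zpowers s) K := by
    intro γ
    have h2 : Subgroup.zpowers s ≤ a6a_Fx {z} := by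
      rw [Subgroup.zpowers_le]
      intro w hw
      rw [Set.mem_singleton_iff] at hw
      rw [hw]; exact hz
    exact h2 γ.2 z rfl
  exact g.commutes ⟨z, h1⟩

/-- [A6a] -/
theorem R_A6a (h0f : st_A0f) (h2 : st_A2) (h4 : st_A4) : st_A6a := by
  intro C Ω _ _ _ _ _ N N₀ σ ℓ P hF hσ hN hℓ hσℓ hmove hN₀ hP hst
  have hs : Sta σ (N : Set Ω) := a6a_sta N σ ℓ hℓ.pos hN hσℓ
  haveI : Fact ℓ.Prime := ⟨hℓ⟩
  -- the fixed field
  obtain ⟨N₁, hN₁, hF₁, halg₁⟩ := h0f C Ω N σ ℓ hF hσ hN hℓ.pos hσℓ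
  have hN₁₀ : N₁ = N₀ := by
    ext z
    rw [hN₁, hN₀]
  rw [hN₁₀] at hF₁ halg₁
  have hle : N₀ ≤ N := fun z hz => ((hN₀ z).1 hz).1
  -- the restriction of `σ`
  obtain ⟨s, hs'⟩ : ∃ s : N ≃+* N, s = a6a_res N σ hs := ⟨_, rfl⟩
  have hsx : ∀ z : N, ((s z : N) : Ω) = σ z := fun z => by rw [hs']; rfl
  have hsℓ : s ^ ℓ = 1 := by
    ext z
    rw [hs', a6a_res_pow, hσℓ _ z.2]
    rfl
  have hs1 : s ≠ 1 := by
    intro h
    obtain ⟨z, hz, hz'⟩ := hmove
    apply hz'
    have h1 := hsx ⟨z, hz⟩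
    rw [h] at h1
    exact h1.symm
  have hord : orderOf s = ℓ := orderOf_eq_prime hsℓ hs1
  have hcard : Nat.card (Subgroup.zpowers s) = ℓ := by rw [Nat.card_zpowers, hord]
  haveI : Finite (Subgroup.zpowers s) := Nat.finite_of_card_ne_zero (by rw [hcard]; exact hℓ.ne_zero)
  have hPl := a6a_pl N P hP
  have hO := od_spec hF hPl
  -- `s` stabilises the place
  have hsP : ∀ g ∈ Subgroup.zpowers s, ∀ z : N, g z ∈ rs N P ↔ z ∈ rs N P := by
    intro g hg
    have h1 : Subgroup.zpowers s ≤ a6a_St (rs N P) := by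
      rw [Subgroup.zpowers_le]
      intro z
      rw [ValuationSubring.mem_comap, ValuationSubring.mem_comap]
      show ((s z : N) : Ω) ∈ P ↔ (z : Ω) ∈ P
      rw [hsx]
      exact hst z z.2
    exact h1 hg
  -- the inclusion
  obtain ⟨i, hi⟩ : ∃ i : N₀ →+* N, ∀ w : N₀, ((i w : N) : Ω) = w :=
    ⟨(IntermediateField.inclusion hle : N₀ →ₐ[C] N), fun w => rfl⟩
  have hiC : ∀ c : C, i (algebraMap C N₀ c) = algebraMap C N c := fun c =>
    Subtype.ext (hi _)
  have hsi : ∀ w : N₀, s (i w) = i w := by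
    intro w
    apply Subtype.ext
    rw [hsx, hi]
    exact ((hN₀ w).1 w.2).2
  have hfixed : ∀ z : N, s z = z → ∃ w : N₀, i w = z := by
    intro z hz
    have h1 : σ (z : Ω) = z := by rw [← hsx, hz]
    exact ⟨⟨z, (hN₀ z).2 ⟨z.2, h1⟩⟩, Subtype.ext (hi _)⟩
  have halg : ∀ z : N, ∃ p : Polynomial N₀, p ≠ 0 ∧ p.eval₂ i z = 0 := by
    intro z
    obtain ⟨p, hp0, hp⟩ := halg₁ z z.2
    refine ⟨p, hp0, ?_⟩
    apply Subtype.ext
    have h1 : ((p.eval₂ i z : N) : Ω) = p.eval₂ (algebraMap N₀ Ω) (z : Ω) := by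
      have h2 := Polynomial.hom_eval₂ p i (algebraMap N Ω) z
      have h3 : (algebraMap N Ω).comp i = algebraMap N₀ Ω := by
        ext w
        exact hi w
      rw [h3] at h2
      exact h2
    rw [h1]
    exact hp
  have hZ := h2 C N₀ N i hiC hF₁ hF halg
    (fun z hz => hfixed z (hz s hsi)) (rs N P) hPl
  obtain ⟨_, e, he0, hedvd, he⟩ := hZ
  have hcardZ : Nat.card {g : N ≃+* N // (∀ w : N₀, g (i w) = i w) ∧
      ∀ z, g z ∈ rs N P ↔ z ∈ rs N P} = ℓ := by
    rw [← hcard]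
    apply Nat.card_congr
    apply Equiv.subtypeEquivRight
    intro g
    constructor
    · rintro ⟨hg1, _⟩
      apply a6a_artin
      intro z hz
      obtain ⟨w, rfl⟩ := hfixed z hz
      exact hg1 w
    · intro hg
      refine ⟨fun w => ?_, hsP g hg⟩
      have h1 : Subgroup.zpowers s ≤ a6a_Fx {i w} := by
        rw [Subgroup.zpowers_le]
        intro x hx
        rw [Set.mem_singleton_iff] at hx
        rw [hx]; exact hsi w
      exact h1 hg _ rfl
  rw [hcardZ] at hedvd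
  -- the order on `N` of a function on `N₀` is divisible by `ℓ`
  obtain ⟨c, hc0, hc1, hc2⟩ := h4 C Ω N σ P hF hσ hs hP hst
  obtain ⟨hcℓ, hctri⟩ := hc2 ℓ hℓ.pos hσℓ
  have hcne : c ≠ 1 := by
    intro h
    obtain ⟨z, hz, hz'⟩ := hmove
    exact hz' (hctri h z hz)
  have hprim : IsPrimitiveRoot c ℓ := by
    have h := IsPrimitiveRoot.orderOf c
    rwa [orderOf_eq_prime hcℓ hcne] at h
  have hdiv : ∀ w : N₀, w ≠ 0 → (ℓ : ℤ) ∣ od C (rs N P) (i w) := by
    intro w hw
    have hiw : i w ≠ 0 := by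
      rw [Ne, map_eq_zero_iff _ i.injective]; exact hw
    have h1 := hc1 (i w) hiw
    have h3 : ((i w : N) : Ω) ≠ 0 := fun h => hiw (Subtype.ext h)
    have h5 : σ ((i w : N) : Ω) = ((i w : N) : Ω) := by rw [← hsx, hsi]
    rw [h5, div_self h3] at h1
    rw [← hprim.zpow_eq_one_iff_dvd]
    have h6 : algebraMap C Ω (1 - c ^ (od C (rs N P) (i w))) ∈ P.nonunits := by
      rw [map_sub, map_one]; exact h1
    rw [a6a_nu] at h6
    rcases h6 with h7 | h7
    · have h8 := (map_eq_zero _).1 h7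
      exact (sub_eq_zero.1 h8).symm
    · rw [← map_inv₀] at h7
      exact absurd (hP.1 _) h7
  have hcomap : (rs N P).comap i = rs N₀ P := by
    ext w
    rw [ValuationSubring.mem_comap, ValuationSubring.mem_comap, ValuationSubring.mem_comap]
    show ((i w : N) : Ω) ∈ P ↔ (w : Ω) ∈ P
    rw [hi]
  rw [hcomap] at he
  have hP₀ : IsPl C (rs N₀ P) := by
    rw [← hcomap]
    exact pl_comap i hiC halg hPl
  have hO₀ := od_spec hF₁ hP₀
  have heℓ : e = ℓ := by
    obtain ⟨f, hf0, hf1⟩ := hO₀.surj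
    have h1 := hdiv f hf0
    rw [he f hf0, hf1, mul_one] at h1
    have h3 : ℓ ∣ e := by exact_mod_cast h1
    exact Nat.dvd_antisymm hedvd h3
  refine ⟨?_, ?_⟩
  · intro z h0 h hz
    have h1 : (⟨z, h0⟩ : N₀) ≠ 0 := fun h => hz (congrArg Subtype.val h)
    have h3 := he ⟨z, h0⟩ h1
    have h5 : i ⟨z, h0⟩ = ⟨z, h⟩ := Subtype.ext (hi _)
    rw [h5, heℓ] at h3
    exact h3
  · intro O hOp heq
    obtain ⟨g, hg, hgz⟩ := a6a_conj s (rs N O) (rs N P) (by
      intro z hz
      have h1 : σ (z : Ω) = z := by rw [← hsx, hz]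
      rw [ValuationSubring.mem_comap, ValuationSubring.mem_comap]
      exact heq _ ((hN₀ z).2 ⟨z.2, h1⟩))
    intro z hz
    have h1 := hgz ⟨z, hz⟩
    rw [hsP g hg] at h1
    exact h1.symm

end SGT
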