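import Pool.Agent.SGT.StA

/-!
# [SGT-A7] compactness (ultrafilter) (MP_3dd09b_ag)
-/

set_option autoImplicit false
set_option linter.unusedVariables false

open GT IsLocalRing Polynomial

namespace SGT

/-- The limit of a family of valuation rings along an ultrafilter. -/
private noncomputable def a7_lim {Ω I : Type} [Field Ω] (𝓤 : Ultrafilter I) (P : I → ValuationSubring Ω) :
    ValuationSubring Ω where
  carrier := {z | ∀ᶠ i in (𝓤 : Filter I), z ∈ P i}
  zero_mem' := Filter.Eventually.of_forall fun i => zero_mem _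
  one_mem' := Filter.Eventually.of_forall fun i => one_mem _
  add_mem' := fun ha hb => (ha.and hb).mono fun i h => add_mem h.1 h.2
  mul_mem' := fun ha hb => (ha.and hb).mono fun i h => mul_mem h.1 h.2
  neg_mem' := fun ha => ha.mono fun i h => neg_mem h
  mem_or_inv_mem' := fun z =>
    Ultrafilter.eventually_or.1 (Filter.Eventually.of_forall fun i => (P i).mem_or_inv_mem z)

private theorem a7_mem {Ω I : Type} [Field Ω] {𝓤 : Ultrafilter I} {P : I → ValuationSubring Ω} {z : Ω} :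
    z ∈ a7_lim 𝓤 P ↔ ∀ᶠ i in (𝓤 : Filter I), z ∈ P i := Iff.rfl

/-- A valuation ring which contains a field contains the algebraic elements. -/
theorem a7_alg {C Ω : Type} [Field C] [Field Ω] [Algebra C Ω] {N : IntermediateField C Ω}
    {P : ValuationSubring Ω} (h : ∀ z ∈ N, z ∈ P) {z : Ω} (hz : IsAlgebraic N z) : z ∈ P := by
  have hi : IsIntegral N z := hz.isIntegral
  obtain ⟨p, hp, hev⟩ := hi
  let φ : N →+* P :=
    { toFun := fun x => ⟨(x : Ω), h _ x.2⟩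
      map_one' := rfl
      map_zero' := rfl
      map_mul' := fun _ _ => rfl
      map_add' := fun _ _ => rfl }
  have hc : (algebraMap P Ω).comp φ = algebraMap N Ω := by
    ext x
    rfl
  have hI : IsIntegral P z := by
    refine ⟨p.map φ, hp.map φ, ?_⟩
    rw [Polynomial.eval₂_map, hc]
    exact hev
  obtain ⟨y, hy⟩ := (IsIntegrallyClosed.isIntegral_iff (R := P) (K := Ω)).1 hI
  rw [← hy]
  exact y.2

theorem R_A7 (h0g : st_A0g) (h1 : st_A1) (h3 : st_A3) : st_A7 := by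
  intro C Ω _ _ _ _ _ F L σ n hL hG hLin hn hσn hmv hP
  classical
  obtain ⟨z₀, hz₀L, hz₀⟩ := hmv
  -- the levels
  have hlev : ∀ S : Finset L, ∃ N : IntermediateField C Ω, SLv F L N ∧ ∀ z ∈ S, (z : Ω) ∈ N := by
    intro S
    obtain ⟨N, hN, hS⟩ := hL (S.image Subtype.val) (by
      intro z hz
      obtain ⟨y, _, rfl⟩ := Finset.mem_image.1 hz
      exact y.2)
    exact ⟨N, hN, fun z hz => hS _ (Finset.mem_image_of_mem _ hz)⟩
  choose N hN hNS using hlev
  choose P hP1 hP2 using fun S => hP (N S) (hN S)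
  let 𝓤 : Ultrafilter (Finset L) := Ultrafilter.of Filter.atTop
  have hge : ∀ S₀ : Finset L, ∀ᶠ S in (𝓤 : Filter (Finset L)), S₀ ≤ S := fun S₀ =>
    Ultrafilter.of_le Filter.atTop (Filter.eventually_ge_atTop S₀)
  refine ⟨a7_lim 𝓤 P, ⟨fun c => a7_mem.2 (Filter.Eventually.of_forall fun S => (hP1 S).1 c), ?_⟩, ?_⟩
  swap
  · -- stability
    intro z hz
    rw [a7_mem, a7_mem]
    refine Filter.eventually_congr ?_
    filter_upwards [hge {⟨z, hz⟩}] with S hS
    have hzS : z ∈ N S := hNS S ⟨z, hz⟩ (hS (Finset.mem_singleton_self _))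
    exact hP2 S z hzS
  -- the level of `z₀`
  let N1 : IntermediateField C Ω := N {⟨z₀, hz₀L⟩}
  have hN1 : SLv F L N1 := hN _
  have hz₀N : z₀ ∈ N1 := hNS {⟨z₀, hz₀L⟩} ⟨z₀, hz₀L⟩ (Finset.mem_singleton_self _)
  obtain ⟨p, ρ, ζ, hp, -, hρN, hρ0, hζ, hρ⟩ := h1 C Ω N1 σ n hLin
    (fun z hz => hN1.2.2.2 σ hG z hz) hn z₀ hz₀N (hσn z₀ hz₀L) hz₀
  obtain ⟨⟨G, hGN⟩, -⟩ := h0g C Ω N1 hN1.2.2.1
  -- for large `S` the place `P S` is nontrivial on `N1`
  have hev : ∀ᶠ S in (𝓤 : Filter (Finset L)),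
      rs N1 (P S) ∈ {O : ValuationSubring N1 | IsPl C O ∧ od C O (⟨ρ, hρN⟩ : N1) ≠ 0} := by
    filter_upwards [hge (G.subtype (· ∈ L))] with S hS
    have hle : N1 ≤ N S := by
      rw [hGN, IntermediateField.adjoin_le_iff]
      intro g hg
      have hgN1 : g ∈ N1 := by
        rw [hGN]
        exact IntermediateField.subset_adjoin C _ hg
      have hgL : g ∈ L := hN1.2.1 hgN1
      exact hNS S ⟨g, hgL⟩ (hS (Finset.mem_subtype.2 hg))
    have hstP : StP σ (N1 : Set Ω) (P S) := fun z hz => hP2 S z (hle hz)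
    have hpl : Plc C (N1 : Set Ω) (P S) := by
      refine ⟨(hP1 S).1, ?_⟩
      by_contra hcon
      push Not at hcon
      obtain ⟨w, hw, hwP⟩ := (hP1 S).2
      exact hwP (a7_alg hcon ((h0g C Ω (N S) (hN S).2.2.1).2 N1 hle hN1.2.2.1 w hw))
    have hIs : IsPl C (rs N1 (P S)) := by
      refine ⟨fun c => hpl.1 c, fun htop => ?_⟩
      obtain ⟨w, hw, hwP⟩ := hpl.2
      have : (⟨w, hw⟩ : N1) ∈ rs N1 (P S) := by rw [htop]; trivial
      exact hwP this
    refine ⟨hIs, fun hod => ?_⟩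
    have ho := GT.od_spec hN1.2.2.1 hIs
    set ρ' : N1 := ⟨ρ, hρN⟩ with hρ'
    have hρ'0 : ρ' ≠ 0 := fun h => hρ0 (congrArg Subtype.val h)
    have h1od : od C (rs N1 (P S)) 1 = 0 := by
      have := ho.mul 1 1 one_ne_zero one_ne_zero
      rw [mul_one] at this
      omega
    have hinv : od C (rs N1 (P S)) ρ'⁻¹ = 0 := by
      have := ho.mul ρ' ρ'⁻¹ hρ'0 (inv_ne_zero hρ'0)
      rw [mul_inv_cancel₀ hρ'0, h1od, hod] at this
      omega
    have m1 : ρ ∈ P S := (ho.mem ρ' hρ'0).2 hod.ge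
    have m2 : ρ⁻¹ ∈ P S := (ho.mem ρ'⁻¹ (inv_ne_zero hρ'0)).2 hinv.ge
    obtain ⟨-, -, k3, k4⟩ := h3 C Ω N1 σ (P S) hN1.2.2.1 hLin hpl hstP
    have k := k3 ρ hρN hρ0 m1 m2
    rw [hρ, mul_div_cancel_right₀ _ hρ0, ← map_one (algebraMap C Ω), ← map_sub] at k
    have := k4 _ k
    have hζ1 : ζ = 1 := sub_eq_zero.1 this
    rw [hζ1] at hζ
    exact hp.one_lt.ne' (hζ.unique (IsPrimitiveRoot.one_right_iff.2 rfl))
  have hfin := GT.finite_ord hN1.2.2.1 (t := (⟨ρ, hρN⟩ : N1)) (fun h => hρ0 (congrArg Subtype.val h))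
  have hex : ∃ O ∈ {O : ValuationSubring N1 | IsPl C O ∧ od C O (⟨ρ, hρN⟩ : N1) ≠ 0},
      ∀ᶠ S in (𝓤 : Filter (Finset L)), rs N1 (P S) = O := by
    rw [← Ultrafilter.eventually_exists_mem_iff hfin]
    exact hev.mono fun S h => ⟨_, h, rfl⟩
  obtain ⟨O, hO, hOS⟩ := hex
  have hne := hO.1.2
  obtain ⟨w, hw⟩ : ∃ w : N1, w ∉ O := by
    by_contra hcon
    push Not at hcon
    exact hne (by ext z; exact ⟨fun _ => trivial, fun _ => hcon z⟩)
  refine ⟨(w : Ω), hN1.2.1 w.2, fun hmem => hw ?_⟩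
  obtain ⟨S, hS1, hS2⟩ := ((a7_mem.1 hmem).and hOS).exists
  rw [← hS2]
  exact hS1

end SGT
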