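import Pool.Agent.SGT.StA

/-!
# [SGT-A8] exactly one fixed place, trivial centraliser (MP_3dd09b_ag)
-/

set_option autoImplicit false
set_option linter.unusedVariables false

open GT IsLocalRing Polynomial

namespace SGT

section a8

variable {C Ω : Type} [Field C] [Field Ω] [Algebra C Ω]

/-- If `E ⊆ P` then the elements algebraic over `E` are in `P`. -/
private theorem a8_alg {E : IntermediateField C Ω} {P : ValuationSubring Ω}
    (hE : ∀ z ∈ E, z ∈ P) {z : Ω} (hz : IsAlgebraic E z) : z ∈ P := by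
  obtain ⟨p, hp, hpz⟩ := hz.isIntegral
  let j : E →+* P := (algebraMap E Ω).codRestrict P.toSubring fun x => hE x x.2
  have hint : IsIntegral P z := by
    refine ⟨p.map j, hp.map j, ?_⟩
    rw [Polynomial.eval₂_map]
    have hj : (algebraMap P Ω).comp j = algebraMap E Ω := by
      ext x
      rfl
    rw [hj]
    exact hpz
  obtain ⟨y, hy⟩ := IsIntegrallyClosed.isIntegral_iff.1 hint
  rw [← hy]
  exact y.2

/-- A place of `L` is nontrivial on `E`, hence on the fields above `E`. -/
private theorem a8_plc [CharZero C] [IsAlgClosed C] (h0g : st_A0g) {F : Set Ω}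
    {L E : IntermediateField C Ω} (hL : Lvs F L) (hE : FF C E) (hEL : E ≤ L)
    {P : ValuationSubring Ω} (hP : Plc C (L : Set Ω) P) (N : IntermediateField C Ω) (hN : E ≤ N) :
    Plc C (N : Set Ω) P := by
  classical
  refine ⟨hP.1, ?_⟩
  by_contra hcon
  push Not at hcon
  obtain ⟨z, hzL, hzP⟩ := hP.2
  apply hzP
  obtain ⟨⟨S, hS⟩, -⟩ := h0g C Ω E hE
  obtain ⟨M, hM, hSM⟩ := hL (insert z S) (by
    intro w hw
    rcases Finset.mem_insert.1 hw with rfl | hw
    · exact hzL
    · apply hEL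
      rw [hS]
      exact IntermediateField.subset_adjoin C _ hw)
  have hEM : E ≤ M := by
    rw [hS, IntermediateField.adjoin_le_iff]
    intro w hw
    exact hSM w (Finset.mem_insert_of_mem hw)
  obtain ⟨-, h2⟩ := h0g C Ω M hM.2.2.1
  have h3 := h2 E hEM hE z (hSM z (Finset.mem_insert_self _ _))
  exact a8_alg (fun w hw => hcon w (hN hw)) h3

/-- One of three pairwise different places differs from two given ones. -/
private theorem a8_three {S : Set Ω} (R : Fin 3 → ValuationSubring Ω)
    (hR : ∀ i j, i ≠ j → ¬ Eqv S (R i) (R j)) (P Q : ValuationSubring Ω) :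
    ∃ i, ¬ Eqv S P (R i) ∧ ¬ Eqv S Q (R i) := by
  classical
  by_contra hcon
  push Not at hcon
  obtain ⟨i, j, hij, h⟩ := Fintype.exists_ne_map_eq_of_card_lt
    (fun i : Fin 3 => (decide (Eqv S P (R i)) : Bool)) (by simp)
  apply hR i j hij
  by_cases h1 : Eqv S P (R i)
  · have h2 : Eqv S P (R j) := by
      have h3 : decide (Eqv S P (R i)) = decide (Eqv S P (R j)) := h
      rw [decide_eq_true h1] at h3
      exact of_decide_eq_true h3.symm
    intro z hz
    exact (h1 z hz).symm.trans (h2 z hz)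
  · have h2 : ¬ Eqv S P (R j) := by
      have h3 : decide (Eqv S P (R i)) = decide (Eqv S P (R j)) := h
      rw [decide_eq_false h1] at h3
      exact of_decide_eq_false h3.symm
    intro z hz
    exact (hcon i h1 z hz).symm.trans (hcon j h2 z hz)

/-- The image `g P` of a place. -/
private theorem a8_mem_mv {g : Ω ≃+* Ω} {P : ValuationSubring Ω} {z : Ω} :
    z ∈ mv g P ↔ g.symm z ∈ P := Iff.rfl

private theorem a8_symm {g : Ω ≃+* Ω} {S : Set Ω} (hg : Sta g S) {z : Ω} (hz : z ∈ S) :
    g.symm z ∈ S := by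
  rw [← hg, RingEquiv.apply_symm_apply]
  exact hz

/-- `g P` is a place of `L`. -/
private theorem a8_mv_plc {g : Ω ≃+* Ω} {L E : IntermediateField C Ω} (hg : Tri g (E : Set Ω))
    (hgL : Sta g (L : Set Ω)) {P : ValuationSubring Ω} (hP : Plc C (L : Set Ω) P) :
    Plc C (L : Set Ω) (mv g P) := by
  constructor
  · intro c
    rw [a8_mem_mv]
    have h1 : g (algebraMap C Ω c) = algebraMap C Ω c := hg _ (E.algebraMap_mem c)
    have h2 : g.symm (algebraMap C Ω c) = algebraMap C Ω c := by
      rw [RingEquiv.symm_apply_eq, h1]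
    rw [h2]
    exact hP.1 c
  · obtain ⟨z, hz, hzP⟩ := hP.2
    refine ⟨g z, (hgL z).2 hz, ?_⟩
    rw [a8_mem_mv, RingEquiv.symm_apply_apply]
    exact hzP

/-- `g P` is fixed by `e` if `g` commutes with `e` on `L`. -/
private theorem a8_mv_stp {g e : Ω ≃+* Ω} {L : IntermediateField C Ω}
    (hgL : Sta g (L : Set Ω)) (hc : ∀ z ∈ L, g (e z) = e (g z))
    {P : ValuationSubring Ω} (hP : StP e (L : Set Ω) P) : StP e (L : Set Ω) (mv g P) := by
  intro z hz
  have h1 : g.symm z ∈ (L : Set Ω) := a8_symm hgL hz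
  have h2 : g.symm (e z) = e (g.symm z) := by
    rw [RingEquiv.symm_apply_eq, hc _ h1, RingEquiv.apply_symm_apply]
  rw [a8_mem_mv, a8_mem_mv, h2]
  exact hP _ h1

/-- `P` and `g P` agree on `L` only if `g` stabilises `P`. -/
private theorem a8_mv_eqv {g : Ω ≃+* Ω} {L : IntermediateField C Ω} (hgL : Sta g (L : Set Ω))
    {P : ValuationSubring Ω} (h : Eqv (L : Set Ω) (mv g P) P) : StP g (L : Set Ω) P := by
  intro z hz
  have h1 := h (g z) ((hgL z).2 hz)
  rw [a8_mem_mv, RingEquiv.symm_apply_apply] at h1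
  exact h1.symm

end a8

theorem R_A8 (h0g : st_A0g) (h6 : st_A6) (h8a : st_A8a) (h8b : st_A8b) : st_A8 := by
  classical
  intro C Ω _ _ _ _ _ _ F L E hLv hFE hEL hE hKC hN e ℓ hℓ hLin hGr hStE hord hmov hthree
  obtain ⟨y₀, hy₀, hy₀e⟩ := hmov
  obtain ⟨R, hR, hRne⟩ := hthree
  have heL : ∀ z ∈ L, e z ∈ L := fun z hz => (hGr.2.1 z).2 hz
  have heE : ∀ z ∈ E, e z ∈ E := fun z hz => (hStE z).2 hz
  obtain ⟨P, hP, hPe⟩ := h8a C Ω F L e ℓ hLv hGr hLin hKC hℓ hord ⟨y₀, hEL hy₀, hy₀e⟩
  -- uniqueness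
  have huniq : ∀ Q : ValuationSubring Ω, Plc C (L : Set Ω) Q → StP e (L : Set Ω) Q →
      Eqv (L : Set Ω) Q P := by
    intro Q hQ hQe
    by_contra hne
    have hneL : ¬ Eqv (L : Set Ω) P Q := fun h => hne fun z hz => (h z hz).symm
    by_cases hEq : Eqv (E : Set Ω) P Q
    · -- `Q = g P`
      obtain ⟨g, hgE, hgL, hg⟩ := hN.conj E le_rfl hEL P Q hP hQ hEq
      have hgsL : ∀ z ∈ L, g.symm z ∈ L := fun z hz => a8_symm hgL hz
      have hgfL : ∀ z ∈ L, g z ∈ L := fun z hz => (hgL z).2 hz
      have hesL : ∀ z ∈ L, e.symm z ∈ L := fun z hz => a8_symm hGr.2.1 hz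
      -- `g` is not trivial on `L`
      have hgnt : ¬ Tri g (L : Set Ω) := by
        intro ht
        apply hneL
        intro z hz
        have h1 := hg z hz
        rw [ht z hz] at h1
        exact h1.symm
      -- the commutator is trivial
      have hcE : Tri (g.symm * e * g * e.symm : Ω ≃+* Ω) (E : Set Ω) := by
        intro z hz
        show g.symm (e (g (e.symm z))) = z
        have h1 : e.symm z ∈ (E : Set Ω) := a8_symm hStE hz
        rw [hgE _ h1, RingEquiv.apply_symm_apply, RingEquiv.symm_apply_eq]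
        exact (hgE z hz).symm
      have hcL : Sta (g.symm * e * g * e.symm : Ω ≃+* Ω) (L : Set Ω) := by
        intro z
        show g.symm (e (g (e.symm z))) ∈ (L : Set Ω) ↔ z ∈ (L : Set Ω)
        rw [← hgL, RingEquiv.apply_symm_apply, hGr.2.1, hgL, ← hGr.2.1,
          RingEquiv.apply_symm_apply]
      have hcP : StP (g.symm * e * g * e.symm : Ω ≃+* Ω) (L : Set Ω) P := by
        intro z hz
        show g.symm (e (g (e.symm z))) ∈ P ↔ z ∈ P
        have h1 : e.symm z ∈ L := hesL z hz
        have h2 : e (g (e.symm z)) ∈ L := heL _ (hgfL _ h1)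
        have h3 := hg _ (hgsL _ h2)
        rw [RingEquiv.apply_symm_apply] at h3
        have h4 := hQe _ (hgfL _ h1)
        have h5 := hg _ h1
        have h6 := hPe _ h1
        rw [RingEquiv.apply_symm_apply] at h6
        exact h3.symm.trans (h4.trans (h5.trans h6.symm))
      have hcT := hN.stab _ hcE hcL P hP hcP
      have hcom : ∀ z ∈ L, g (e z) = e (g z) := by
        intro z hz
        have h1 : g.symm (e (g (e.symm (e z)))) = e z := hcT (e z) (heL z hz)
        rw [RingEquiv.symm_apply_apply, RingEquiv.symm_apply_eq] at h1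
        exact h1.symm
      -- `g * g`
      have hg2E : Tri (g * g : Ω ≃+* Ω) (E : Set Ω) := by
        intro z hz
        show g (g z) = z
        rw [hgE z hz, hgE z hz]
      have hg2L : Sta (g * g : Ω ≃+* Ω) (L : Set Ω) := by
        intro z
        show g (g z) ∈ (L : Set Ω) ↔ z ∈ (L : Set Ω)
        rw [hgL, hgL]
      have hg2c : ∀ z ∈ L, (g * g : Ω ≃+* Ω) (e z) = e ((g * g : Ω ≃+* Ω) z) := by
        intro z hz
        show g (g (e z)) = e (g (g z))
        rw [hcom z hz, hcom _ (hgfL z hz)]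
      have hP'1 := a8_mv_plc hg2E hg2L hP
      have hP'2 := a8_mv_stp hg2L hg2c hPe
      -- the three places are different
      have hne1 : ¬ Eqv (L : Set Ω) P (mv (g * g) P) := by
        intro h
        have h1 := a8_mv_eqv hg2L (P := P) fun z hz => (h z hz).symm
        have h2 := hN.stab _ hg2E hg2L P hP h1
        exact hgnt (h8b C Ω F L E hLv hFE hEL hKC hN g hgE hgL 2 (by norm_num) (by
          intro z hz
          rw [pow_two]
          exact h2 z hz))
      have hne2 : ¬ Eqv (L : Set Ω) Q (mv (g * g) P) := by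
        intro h
        apply hgnt
        refine hN.stab g hgE hgL P hP ?_
        intro z hz
        have h1 := h (g (g z)) (hgfL _ (hgfL _ hz))
        have h2 := hg (g z) (hgfL _ hz)
        have h3 : g (g z) ∈ mv (g * g) P ↔ z ∈ P := by
          have h4 : (g * g : Ω ≃+* Ω).symm (g (g z)) = z := by
            rw [RingEquiv.symm_apply_eq]
            rfl
          rw [a8_mem_mv, h4]
        exact h2.symm.trans (h1.trans h3)
      -- witnesses
      have hw : ∀ A B : ValuationSubring Ω, ¬ Eqv (L : Set Ω) A B →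
          ∃ z ∈ L, ¬ (z ∈ A ↔ z ∈ B) := by
        intro A B h
        by_contra hcon
        push Not at hcon
        exact h fun z hz => hcon z hz
      obtain ⟨z₁, hz₁, hz₁'⟩ := hw _ _ hneL
      obtain ⟨z₂, hz₂, hz₂'⟩ := hw _ _ hne1
      obtain ⟨z₃, hz₃, hz₃'⟩ := hw _ _ hne2
      obtain ⟨⟨S, hS⟩, -⟩ := h0g C Ω E hE
      obtain ⟨M, hM, hSM⟩ := hLv (insert z₁ (insert z₂ (insert z₃ S))) (by
        intro w hw
        simp only [Finset.mem_insert] at hw
        rcases hw with rfl | rfl | rfl | hw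
        · exact hz₁
        · exact hz₂
        · exact hz₃
        · apply hEL
          rw [hS]
          exact IntermediateField.subset_adjoin C _ hw)
      have hEM : E ≤ M := by
        rw [hS, IntermediateField.adjoin_le_iff]
        intro w hw
        exact hSM w (by
          simp only [Finset.mem_insert]
          exact Or.inr (Or.inr (Or.inr hw)))
      have m1 : z₁ ∈ M := hSM z₁ (by simp)
      have m2 : z₂ ∈ M := hSM z₂ (by simp)
      have m3 : z₃ ∈ M := hSM z₃ (by simp)
      exact h6 C Ω L M e ℓ hM.2.1 hM.2.2.1 hKC hLin (hM.2.2.2 e hGr) heL hℓ hord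
        ⟨y₀, hEM hy₀, hy₀e⟩ P Q (mv (g * g) P) (a8_plc h0g hLv hE hEL hP M hEM)
        (a8_plc h0g hLv hE hEL hQ M hEM) (a8_plc h0g hLv hE hEL hP'1 M hEM) hPe hQe
        (fun z hz => hP'2 z (hM.2.1 hz)) (fun h => hz₁' (h z₁ m1)) (fun h => hz₂' (h z₂ m2))
        (fun h => hz₃' (h z₃ m3))
    · -- a third fixed place on `E`
      obtain ⟨i, hi1, hi2⟩ := a8_three R hRne P Q
      exact h6 C Ω L E e ℓ hEL hE hKC hLin heE heL hℓ hord ⟨y₀, hy₀, hy₀e⟩ P Q (R i)
        (a8_plc h0g hLv hE hEL hP E le_rfl) (a8_plc h0g hLv hE hEL hQ E le_rfl) (hR i).1 hPe hQe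
        (hR i).2 hEq hi1 hi2
  refine ⟨P, hP, hPe, huniq, ?_⟩
  -- the centraliser
  intro g hgE hgL hc
  have h1 := huniq _ (a8_mv_plc hgE hgL hP) (a8_mv_stp hgL hc hPe)
  exact hN.stab g hgE hgL P hP (a8_mv_eqv hgL h1)

end SGT
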