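import Pool.Agent.SGT.StA

/-!
# [SGT-A8a] fixed places on L; torsion-freeness (MP_3dd09b_ag)
-/

set_option autoImplicit false
set_option linter.unusedVariables false

open GT IsLocalRing Polynomial

namespace SGT

/-- The case of the trivial action on a level. -/
private theorem a8a_triv {C Ω : Type} [Field C] [Field Ω] [Algebra C Ω] (N : IntermediateField C Ω)
    (σ : Ω ≃+* Ω) (hF : FF C N) (h : ∀ z ∈ N, σ z = z) :
    ∃ P : ValuationSubring Ω, Plc C (N : Set Ω) P ∧ StP σ (N : Set Ω) P := by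
  obtain ⟨O, hO⟩ := GT.exists_pl hF
  obtain ⟨P, hP, hPO⟩ := GT.pl_up (C := C) (algebraMap N Ω) (fun c => rfl) hO
  refine ⟨P, ⟨hP.1, ?_⟩, fun z hz => by rw [h z hz]⟩
  obtain ⟨w, hw⟩ : ∃ w : N, w ∉ O := by
    by_contra hcon
    push Not at hcon
    exact hO.2 (by ext z; exact ⟨fun _ => trivial, fun _ => hcon z⟩)
  refine ⟨(w : Ω), w.2, fun hm => hw ?_⟩
  rw [← hPO]
  exact hm

theorem R_A8a (h5 : st_A5) (h7 : st_A7) : st_A8a := by
  intro C Ω _ _ _ _ _ _ F L σ ℓ hL hG hLin hKC hℓ hσ hmv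
  refine h7 C Ω F L σ ℓ hL hG hLin hℓ.pos hσ hmv fun N hN => ?_
  by_cases h : ∃ z ∈ N, σ z ≠ z
  · exact h5 C Ω L N σ ℓ hN.2.1 hN.2.2.1 hKC hLin (fun z hz => hN.2.2.2 σ hG z hz) hℓ hσ h
  · push Not at h
    exact a8a_triv N σ hN.2.2.1 h

/-- Powers of an automorphism which is trivial on a set. -/
private theorem a8a_tri_pow {Ω : Type} [Field Ω] {g : Ω ≃+* Ω} {S : Set Ω} (h : Tri g S) (k : ℕ) :
    Tri (g ^ k) S := by
  induction k with
  | zero => intro z hz; rfl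
  | succ k ih =>
    intro z hz
    rw [pow_succ]
    change (g ^ k) (g z) = z
    rw [h z hz]
    exact ih z hz

/-- Powers of an automorphism which preserves a set. -/
private theorem a8a_sta_pow {Ω : Type} [Field Ω] {g : Ω ≃+* Ω} {S : Set Ω} (h : Sta g S) (k : ℕ) :
    Sta (g ^ k) S := by
  induction k with
  | zero => intro z; exact Iff.rfl
  | succ k ih =>
    intro z
    rw [pow_succ]
    change (g ^ k) (g z) ∈ S ↔ z ∈ S
    rw [ih (g z), h z]

theorem R_A8b (h8a : st_A8a) : st_A8b := by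
  intro C Ω _ _ _ _ _ _ F L E hL hFE hEL hKC hNor g hgE hgL n hn hgn
  classical
  by_contra hnot
  have hmv : ∃ z ∈ L, g z ≠ z := by
    by_contra hcon
    push Not at hcon
    exact hnot fun z hz => hcon z hz
  have hex : ∃ m : ℕ, 0 < m ∧ ∀ z ∈ L, (g ^ m) z = z := ⟨n, hn, hgn⟩
  obtain ⟨hm0, hm⟩ := Nat.find_spec hex
  set m := Nat.find hex with hmdef
  have hm1 : m ≠ 1 := by
    intro h1
    obtain ⟨z, hz, hgz⟩ := hmv
    apply hgz
    have := hm z hz
    rw [h1, pow_one] at this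
    exact this
  have hℓ : (m.minFac).Prime := Nat.minFac_prime hm1
  set ℓ := m.minFac with hℓdef
  have hdvd : ℓ ∣ m := Nat.minFac_dvd m
  obtain ⟨k, hk⟩ := hdvd
  have hk0 : 0 < k := by
    rcases Nat.eq_zero_or_pos k with h | h
    · rw [h, mul_zero] at hk
      omega
    · exact h
  have hkm : k < m := by
    have := hℓ.two_le
    nlinarith
  have hsE : Tri (g ^ k) (E : Set Ω) := a8a_tri_pow hgE k
  have hsL : Sta (g ^ k) (L : Set Ω) := a8a_sta_pow hgL k
  have hLin : Lin C (g ^ k) := fun c => hsE _ (E.algebraMap_mem c)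
  have hGr : Gr C F (L : Set Ω) (g ^ k) := by
    refine ⟨fun z hz => hsE z (hFE hz), hsL, fun z => ⟨?_, ?_⟩⟩
    · rintro ⟨c, hc⟩
      refine ⟨c, ?_⟩
      apply (g ^ k).injective
      rw [hLin c, hc]
    · rintro ⟨c, rfl⟩
      rw [hLin c]
      exact ⟨c, rfl⟩
  have hsl : ∀ z ∈ L, ((g ^ k) ^ ℓ) z = z := by
    intro z hz
    rw [← pow_mul, mul_comm k ℓ, ← hk]
    exact hm z hz
  have hsmv : ∃ z ∈ L, (g ^ k) z ≠ z := by
    by_contra hcon
    push Not at hcon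
    exact Nat.find_min hex hkm ⟨hk0, hcon⟩
  obtain ⟨P, hP1, hP2⟩ := h8a C Ω F L (g ^ k) ℓ hL hGr hLin hKC hℓ hsl hsmv
  have htri := hNor.stab (g ^ k) hsE hsL P hP1 hP2
  obtain ⟨z, hz, hgz⟩ := hsmv
  exact hgz (htri z hz)

end SGT
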