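import Pool.Agent.SGT.StB

/-!
# [SGT-B0] derivations of algebraic extensions; d/dt on an algebraic extension of F(t) (MP_3dd09b_ag)
-/

set_option autoImplicit false
set_option linter.unusedVariables false

open GT IsLocalRing Polynomial

namespace SGT

/-- `D (Q(z)) = Q^D(z) + Q'(z) D z`, where the first term lies in every subfield which contains `F`
and `z`, provided that `D F ⊆ F`. -/
private theorem b0_aeval {Ω : Type} [Field Ω] (D : Derivation ℤ Ω Ω) (F : Subfield Ω)
    (hF : ∀ z ∈ F, D z ∈ F) (z : Ω) (Q : F[X]) :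
    ∃ a ∈ Subfield.closure ((F : Set Ω) ∪ {z}),
      D (aeval z Q) = a + aeval z (derivative Q) * D z := by
  have hz : z ∈ Subfield.closure ((F : Set Ω) ∪ {z}) := Subfield.subset_closure (Or.inr rfl)
  have hf : ∀ f ∈ F, f ∈ Subfield.closure ((F : Set Ω) ∪ {z}) := fun f hf =>
    Subfield.subset_closure (Or.inl hf)
  induction Q using Polynomial.induction_on' with
  | add p q hp hq =>
    obtain ⟨a, ha, ha'⟩ := hp
    obtain ⟨b, hb, hb'⟩ := hq
    refine ⟨a + b, add_mem ha hb, ?_⟩
    rw [map_add, map_add, ha', hb', derivative_add, map_add]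
    ring
  | monomial n c =>
    refine ⟨z ^ n * D (c : Ω), mul_mem (pow_mem hz n) (hf _ (hF _ c.2)), ?_⟩
    rw [aeval_monomial, derivative_monomial, aeval_monomial, Derivation.leibniz,
      Derivation.leibniz_pow]
    have h1 : (algebraMap F Ω) c = (c : Ω) := rfl
    rw [map_mul, h1, map_natCast]
    simp only [smul_eq_mul, nsmul_eq_mul]
    ring

theorem R_B0 : st_B0 := by
  intro Ω _ _ D F hF z hz
  have hz0 : z ∈ Subfield.closure ((F : Set Ω) ∪ {z}) := Subfield.subset_closure (Or.inr rfl)
  have hf : ∀ f ∈ F, f ∈ Subfield.closure ((F : Set Ω) ∪ {z}) := fun f hf =>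
    Subfield.subset_closure (Or.inl hf)
  have hint : IsIntegral F z := hz.isIntegral
  have hsep : (minpoly F z).Separable := (minpoly.irreducible hint).separable
  obtain ⟨a, ha, h⟩ := b0_aeval D F hF z (minpoly F z)
  have hne : aeval z (derivative (minpoly F z)) ≠ 0 :=
    hsep.aeval_derivative_ne_zero (minpoly.aeval F z)
  -- values of polynomials over `F` at `z` are in the closure
  have hval : ∀ Q : F[X], aeval z Q ∈ Subfield.closure ((F : Set Ω) ∪ {z}) := by
    intro Q
    rw [aeval_eq_sum_range]
    refine sum_mem fun i _ => ?_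
    rw [Algebra.smul_def]
    exact mul_mem (hf _ (Q.coeff i).2) (pow_mem hz0 i)
  rw [minpoly.aeval, map_zero] at h
  have h2 : D z = -a / aeval z (derivative (minpoly F z)) := by
    rw [eq_div_iff hne]
    linear_combination -h
  rw [h2]
  exact div_mem (neg_mem ha) (hval _)

/-- A derivation which is zero on the field `K` is zero on every element algebraic over `K`
(characteristic zero). -/
private theorem b0_zero {F Ω : Type} [Field F] [Field Ω] [CharZero Ω] [Algebra F Ω]
    (D : Derivation F Ω Ω) (K : IntermediateField F Ω) (hK : ∀ z ∈ K, D z = 0) (z : Ω)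
    (hz : IsAlgebraic K z) : D z = 0 := by
  have key : ∀ Q : K[X], D (aeval z Q) = aeval z (derivative Q) * D z := by
    intro Q
    induction Q using Polynomial.induction_on' with
    | add p q hp hq => rw [map_add, map_add, hp, hq, derivative_add, map_add, add_mul]
    | monomial n c =>
      rw [aeval_monomial, derivative_monomial, aeval_monomial, Derivation.leibniz,
        Derivation.leibniz_pow]
      have h1 : (algebraMap K Ω) c = (c : Ω) := rfl
      have h2 : D (c : Ω) = 0 := hK _ c.2
      rw [map_mul, h1, map_natCast, h2]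
      simp only [smul_eq_mul, nsmul_eq_mul]
      ring
  have hchar : CharZero K :=
    ⟨fun m n h => by
      have h' := congrArg (algebraMap K Ω) h
      rw [map_natCast, map_natCast] at h'
      exact Nat.cast_injective h'⟩
  have hsep : (minpoly K z).Separable := (minpoly.irreducible hz.isIntegral).separable
  have hne : aeval z (derivative (minpoly K z)) ≠ 0 :=
    hsep.aeval_derivative_ne_zero (minpoly.aeval K z)
  have h := key (minpoly K z)
  rw [minpoly.aeval, map_zero] at h
  exact (mul_eq_zero.mp h.symm).resolve_left hne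

/-- A derivation which kills `z` is zero on `F(z)`. -/
private theorem b0_adjoin {F Ω : Type} [Field F] [Field Ω] [Algebra F Ω]
    (D : Derivation F Ω Ω) (z : Ω) (hz : D z = 0) (w : Ω)
    (hw : w ∈ IntermediateField.adjoin F {z}) : D w = 0 := by
  induction hw using IntermediateField.adjoin_induction with
  | mem x hx => rw [Set.mem_singleton_iff.mp hx, hz]
  | algebraMap x => exact D.map_algebraMap x
  | add x y _ _ hx hy => rw [map_add, hx, hy, add_zero]
  | inv x _ hx => rw [Derivation.leibniz_inv, hx, smul_zero]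
  | mul x y _ _ hx hy => rw [Derivation.leibniz, hx, hy, smul_zero, smul_zero, add_zero]

/-- The derivation `d / dt` on `F[t]`, with values in `Ω`. -/
private theorem b0_poly {F Ω : Type} [Field F] [Field Ω] [Algebra F Ω] (t : Ω)
    (ht : Transcendental F t) :
    ∃ D : Derivation F (Algebra.adjoin F {t}) Ω,
      D ⟨t, Algebra.self_mem_adjoin_singleton F t⟩ = 1 := by
  have hinj : Function.Injective (aeval t : F[X] →ₐ[F] Ω) :=
    transcendental_iff_injective.mp ht
  let e : F[X] ≃ₐ[F] Algebra.adjoin F {t} :=
    (AlgEquiv.ofInjective (aeval t) hinj).trans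
      (Subalgebra.equivOfEq _ _ (Algebra.adjoin_singleton_eq_range_aeval F t).symm)
  have he : ∀ p : F[X], ((e p : Algebra.adjoin F {t}) : Ω) = aeval t p := fun p => rfl
  have he' : ∀ a : Algebra.adjoin F {t}, aeval t (e.symm a) = (a : Ω) := fun a => by
    rw [← he, e.apply_symm_apply]
  refine ⟨Derivation.mk' (((aeval t : F[X] →ₐ[F] Ω).toLinearMap ∘ₗ derivative) ∘ₗ
    e.symm.toLinearMap) ?_, ?_⟩
  · intro a b
    simp only [LinearMap.comp_apply, AlgEquiv.toLinearMap_apply, AlgHom.toLinearMap_apply,
      map_mul, derivative_mul, map_add, he', Algebra.smul_def]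
    have h1 : ∀ a : Algebra.adjoin F {t}, algebraMap (Algebra.adjoin F {t}) Ω a = (a : Ω) :=
      fun a => rfl
    rw [h1, h1]
    ring
  · have h1 : e.symm ⟨t, Algebra.self_mem_adjoin_singleton F t⟩ = X := by
      rw [AlgEquiv.symm_apply_eq]
      apply Subtype.ext
      rw [he, aeval_X]
    simp [h1]

open scoped IntermediateField.algebraAdjoinAdjoin in
/-- The derivation `d / dt`: `F[t] → F(t) → Ω` is formally étale, so that derivations of `F[t]`
with values in `Ω` extend to `Ω`. -/
private theorem b0_exists {F Ω : Type} [Field F] [CharZero F] [Field Ω] [Algebra F Ω] (t : Ω)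
    (ht : Transcendental F t)
    (halg : ∀ z : Ω, IsAlgebraic (IntermediateField.adjoin F {t}) z) :
    ∃ D : Derivation F Ω Ω, D t = 1 := by
  obtain ⟨D0, hD0⟩ := b0_poly t ht
  have h1 : Algebra.IsAlgebraic (IntermediateField.adjoin F {t}) Ω := ⟨halg⟩
  have h2 : Algebra.IsSeparable (IntermediateField.adjoin F {t}) Ω := inferInstance
  have h3 : Algebra.FormallyEtale (IntermediateField.adjoin F {t}) Ω :=
    Algebra.FormallyEtale.of_isSeparable _ _
  have h4 : Algebra.FormallyEtale (Algebra.adjoin F {t}) (IntermediateField.adjoin F {t}) :=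
    Algebra.FormallyEtale.of_isLocalization (nonZeroDivisors (Algebra.adjoin F {t}))
  have h5 : Algebra.FormallyEtale (Algebra.adjoin F {t}) Ω :=
    Algebra.FormallyEtale.comp _ (IntermediateField.adjoin F {t}) _
  have h6 := KaehlerDifferential.isBaseChange_of_formallyEtale F (Algebra.adjoin F {t}) Ω
  refine ⟨(h6.lift D0.liftKaehlerDifferential).compDer (KaehlerDifferential.D F Ω), ?_⟩
  have h7 := h6.lift_eq D0.liftKaehlerDifferential
    (KaehlerDifferential.D F (Algebra.adjoin F {t}) ⟨t, Algebra.self_mem_adjoin_singleton F t⟩)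
  rw [Derivation.liftKaehlerDifferential_comp_D, hD0, KaehlerDifferential.map_D] at h7
  exact h7

open scoped IntermediateField.algebraAdjoinAdjoin in
/-- Exchange: if `Ω` is algebraic over `F(t)`, it is algebraic over `F(z)` for each transcendental
`z`. -/
private theorem b0_exch {F Ω : Type} [Field F] [Field Ω] [Algebra F Ω] (t z : Ω)
    (hz : AlgebraicIndependent F (fun _ : Unit => z))
    (halg : ∀ w : Ω, IsAlgebraic (IntermediateField.adjoin F {t}) w) (w : Ω) :
    IsAlgebraic (IntermediateField.adjoin F {z}) w := by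
  have h1 : Algebra.IsAlgebraic (IntermediateField.adjoin F {t}) Ω := ⟨halg⟩
  have h2 : Algebra.IsAlgebraic (Algebra.adjoin F {t}) Ω :=
    Algebra.IsAlgebraic.trans (Algebra.adjoin F {t}) (IntermediateField.adjoin F {t}) Ω
  have h3 : Algebra.trdeg F Ω ≤ Cardinal.mk ({t} : Set Ω) :=
    Algebra.IsAlgebraic.trdeg_le_cardinalMk F {t}
  have h4 : IsTranscendenceBasis F (fun _ : Unit => z) :=
    hz.isTranscendenceBasis_of_trdeg_le_of_finite (by simpa using h3)
  have h5 := h4.isAlgebraic_field
  rw [Set.range_const] at h5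
  exact h5.isAlgebraic w

theorem R_B9 (h0 : st_B0) : st_B9 := by
  intro F Ω _ _ _ _ t ht halg
  have hΩ : CharZero Ω := charZero_of_injective_algebraMap (algebraMap F Ω).injective
  obtain ⟨D, hD⟩ := b0_exists t ht halg
  refine ⟨D, hD, fun z hz => ?_⟩
  by_contra hz'
  have htr : Transcendental F z := hz'
  -- `t` is algebraic over `F(z)`
  have h1 : IsAlgebraic (IntermediateField.adjoin F {z}) t := by
    have a2 : AlgebraicIndependent F (fun _ : Unit => z) :=
      algebraicIndependent_unique_type_iff.mpr htr
    exact b0_exch t z a2 halg t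
  have h2 := b0_zero D (IntermediateField.adjoin F {z}) (fun w hw => b0_adjoin D z hz w hw) t h1
  rw [hD] at h2
  exact one_ne_zero h2

end SGT
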