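import Pool.Agent.SGT.StB

/-!
# [SGT-B10] 𝕜 E / 𝕜(x) is unramified at nonconstant places (MP_3dd09b_ag)
-/

set_option autoImplicit false
set_option linter.unusedVariables false

open GT IsLocalRing Polynomial

namespace SGT

section b10

variable {𝕜 N : Type} [Field 𝕜] [Field N] [Algebra 𝕜 N]

/-- `(t)` in the localisation of `A` at the centre of `O`. -/
private def b10_J (O : ValuationSubring N) (A : Subalgebra 𝕜 N) (t : N) : Set N :=
  {z | ∃ a ∈ A, ∃ b ∈ A, O.valuation b = 1 ∧ b * z = t * a}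

private theorem b10_zero (O : ValuationSubring N) (A : Subalgebra 𝕜 N) (t : N) :
    (0 : N) ∈ b10_J O A t :=
  ⟨0, A.zero_mem, 1, A.one_mem, map_one _, by ring⟩

private theorem b10_add {O : ValuationSubring N} {A : Subalgebra 𝕜 N} {t z w : N}
    (hz : z ∈ b10_J O A t) (hw : w ∈ b10_J O A t) : z + w ∈ b10_J O A t := by
  obtain ⟨a, ha, b, hb, hb1, h⟩ := hz
  obtain ⟨a', ha', b', hb', hb1', h'⟩ := hw
  refine ⟨b' * a + b * a', A.add_mem (A.mul_mem hb' ha) (A.mul_mem hb ha'), b * b',
    A.mul_mem hb hb', by rw [map_mul, hb1, hb1', one_mul], ?_⟩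
  linear_combination b' * h + b * h'

private theorem b10_mul {O : ValuationSubring N} {A : Subalgebra 𝕜 N} {t z c : N}
    (hc : c ∈ A) (hz : z ∈ b10_J O A t) : c * z ∈ b10_J O A t := by
  obtain ⟨a, ha, b, hb, hb1, h⟩ := hz
  refine ⟨c * a, A.mul_mem hc ha, b, hb, hb1, ?_⟩
  linear_combination c * h

private theorem b10_neg {O : ValuationSubring N} {A : Subalgebra 𝕜 N} {t z : N}
    (hz : z ∈ b10_J O A t) : -z ∈ b10_J O A t := by
  have h := b10_mul (c := -1) (A.neg_mem A.one_mem) hz
  rwa [neg_one_mul] at h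

private theorem b10_sum {O : ValuationSubring N} {A : Subalgebra 𝕜 N} {t : N} {ι : Type}
    (s : Finset ι) (f : ι → N) (h : ∀ i ∈ s, f i ∈ b10_J O A t) : ∑ i ∈ s, f i ∈ b10_J O A t := by
  classical
  induction s using Finset.induction_on with
  | empty => rw [Finset.sum_empty]; exact b10_zero O A t
  | insert a s ha ih =>
    rw [Finset.sum_insert ha]
    exact b10_add (h a (Finset.mem_insert_self a s))
      (ih (fun i hi => h i (Finset.mem_insert_of_mem hi)))

private theorem b10_cancel {O : ValuationSubring N} {A : Subalgebra 𝕜 N} {t z c : N}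
    (hc : c ∈ A) (hc1 : O.valuation c = 1) (hz : c * z ∈ b10_J O A t) : z ∈ b10_J O A t := by
  obtain ⟨a, ha, b, hb, hb1, h⟩ := hz
  refine ⟨a, ha, b * c, A.mul_mem hb hc, by rw [map_mul, hb1, hc1, one_mul], ?_⟩
  linear_combination h

private theorem b10_non {O : ValuationSubring N} {A : Subalgebra 𝕜 N} {t z : N}
    (hA : ∀ a ∈ A, a ∈ O) (ht : t ∈ O.nonunits) (hz : z ∈ b10_J O A t) : z ∈ O.nonunits := by
  obtain ⟨a, ha, b, hb, hb1, h⟩ := hz
  rw [ValuationSubring.mem_nonunits_iff] at ht ⊢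
  have h1 : O.valuation z = O.valuation t * O.valuation a := by
    have h2 := congrArg O.valuation h
    rwa [map_mul, map_mul, hb1, one_mul] at h2
  rw [h1]
  have h3 : O.valuation a ≤ 1 := (O.valuation_le_one_iff a).2 (hA a ha)
  exact mul_lt_one_of_lt_of_le ht h3

/-- The residue of the elements of a subfield of `N` contained in `O`. -/
private theorem b10_nu [CharZero 𝕜] [IsAlgClosed 𝕜] (hF : FF 𝕜 N) {O : ValuationSubring N}
    (hO : IsPl 𝕜 O) {z : N} (hz : z ≠ 0) : z ∈ O.nonunits ↔ 0 < od 𝕜 O z := by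
  have ho := od_spec hF hO
  rw [ValuationSubring.mem_nonunits_iff_or, ho.mem _ (inv_ne_zero hz), ord_inv ho hz]
  constructor
  · rintro (h | h)
    · exact absurd h hz
    · omega
  · intro h
    right
    omega

private theorem b10_pl_zero {P : ValuationSubring N} (hP : IsPl 𝕜 P) {c : 𝕜}
    (h : algebraMap 𝕜 N c ∈ P.nonunits) : c = 0 := by
  by_contra hc
  rw [ValuationSubring.mem_nonunits_iff_or] at h
  rcases h with h | h
  · rw [map_eq_zero] at h
    exact hc h
  · apply h
    rw [← map_inv₀]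
    exact hP.1 _

private theorem b10_pl_unique {P : ValuationSubring N} (hP : IsPl 𝕜 P) {z : N} {c c' : 𝕜}
    (h : z - algebraMap 𝕜 N c ∈ P.nonunits) (h' : z - algebraMap 𝕜 N c' ∈ P.nonunits) : c = c' := by
  have h1 := P.nonunits.sub_mem h' h
  have e : z - algebraMap 𝕜 N c' - (z - algebraMap 𝕜 N c) = algebraMap 𝕜 N (c - c') := by
    rw [map_sub]; ring
  rw [e] at h1
  exact sub_eq_zero.1 (b10_pl_zero hP h1)

private theorem b10_pl_res [CharZero 𝕜] [IsAlgClosed 𝕜] (hF : FF 𝕜 N) {P : ValuationSubring N}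
    (hP : IsPl 𝕜 P) (z : N) (hz : z ∈ P) : ∃ c : 𝕜, z - algebraMap 𝕜 N c ∈ P.nonunits := by
  obtain ⟨c, hc⟩ := (od_spec hF hP).res z hz
  refine ⟨c, ?_⟩
  rcases hc with hc | hc
  · rw [hc]
    exact P.nonunits.zero_mem
  · by_cases h0 : z - algebraMap 𝕜 N c = 0
    · rw [h0]
      exact P.nonunits.zero_mem
    · exact (b10_nu hF hP h0).2 hc

private theorem b10_const {O : ValuationSubring N} (hO : IsPl 𝕜 O) {c : 𝕜} (hc : c ≠ 0) :
    O.valuation (algebraMap 𝕜 N c) = 1 := by
  have h1 : O.valuation (algebraMap 𝕜 N c) ≤ 1 := (O.valuation_le_one_iff _).2 (hO.1 c)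
  have h2 : O.valuation (algebraMap 𝕜 N c⁻¹) ≤ 1 := (O.valuation_le_one_iff _).2 (hO.1 c⁻¹)
  rcases h1.lt_or_eq with h | h
  · exfalso
    exact hc (b10_pl_zero hO ((O.mem_nonunits_iff).2 h))
  · exact h

/-- The set of the elements of `E` congruent to a constant modulo `t`. -/
private def b10_S (O : ValuationSubring N) (E : Subfield N) (A : Subalgebra 𝕜 N) (t : N)
    (hO : IsPl 𝕜 O) (hEO : ∀ z ∈ E, z ∈ O) (hEA : ∀ z ∈ E, z ∈ A) (hA : ∀ a ∈ A, a ∈ O)
    (ht : t ∈ O.nonunits) : Subfield N where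
  carrier := {z | z ∈ E ∧ ∃ c : 𝕜, z - algebraMap 𝕜 N c ∈ b10_J O A t}
  zero_mem' := ⟨E.zero_mem, 0, by rw [map_zero, sub_zero]; exact b10_zero O A t⟩
  one_mem' := ⟨E.one_mem, 1, by rw [map_one, sub_self]; exact b10_zero O A t⟩
  add_mem' := by
    rintro z w ⟨hz, c, hc⟩ ⟨hw, d, hd⟩
    refine ⟨E.add_mem hz hw, c + d, ?_⟩
    have h := b10_add hc hd
    have e : z + w - algebraMap 𝕜 N (c + d) =
        z - algebraMap 𝕜 N c + (w - algebraMap 𝕜 N d) := by rw [map_add]; ring
    rw [e]
    exact h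
  neg_mem' := by
    rintro z ⟨hz, c, hc⟩
    refine ⟨E.neg_mem hz, -c, ?_⟩
    have h := b10_neg hc
    have e : -z - algebraMap 𝕜 N (-c) = -(z - algebraMap 𝕜 N c) := by rw [map_neg]; ring
    rw [e]
    exact h
  mul_mem' := by
    rintro z w ⟨hz, c, hc⟩ ⟨hw, d, hd⟩
    refine ⟨E.mul_mem hz hw, c * d, ?_⟩
    have h := b10_add (b10_mul (hEA z hz) hd) (b10_mul (A.algebraMap_mem d) hc)
    have e : z * w - algebraMap 𝕜 N (c * d) =
        z * (w - algebraMap 𝕜 N d) + algebraMap 𝕜 N d * (z - algebraMap 𝕜 N c) := by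
      rw [map_mul]; ring
    rw [e]
    exact h
  inv_mem' := by
    rintro z ⟨hz, c, hc⟩
    refine ⟨E.inv_mem hz, c⁻¹, ?_⟩
    by_cases hz0 : z = 0
    · subst hz0
      have h1 := b10_non hA ht hc
      have h2 : algebraMap 𝕜 N c ∈ O.nonunits := by
        have h3 := O.nonunits.neg_mem h1
        have e : -(0 - algebraMap 𝕜 N c) = algebraMap 𝕜 N c := by ring
        rwa [e] at h3
      have h4 : c = 0 := b10_pl_zero hO h2
      subst h4
      rw [inv_zero, inv_zero, map_zero, sub_zero]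
      exact b10_zero O A t
    · have hc0 : c ≠ 0 := by
        rintro rfl
        rw [map_zero, sub_zero] at hc
        have h1 := b10_non hA ht hc
        rw [ValuationSubring.mem_nonunits_iff_or] at h1
        rcases h1 with h1 | h1
        · exact hz0 h1
        · exact h1 (hEO _ (E.inv_mem hz))
      have h := b10_mul (A.mul_mem (hEA _ (E.inv_mem hz)) (A.algebraMap_mem c⁻¹)) (b10_neg hc)
      have hc1 : algebraMap 𝕜 N c ≠ 0 := by
        rw [Ne, map_eq_zero]
        exact hc0
      have e : z⁻¹ - algebraMap 𝕜 N c⁻¹ =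
          z⁻¹ * algebraMap 𝕜 N c⁻¹ * -(z - algebraMap 𝕜 N c) := by
        rw [map_inv₀]
        field_simp
        ring
      rw [e]
      exact h

/-- The fractions of elements of `A`. -/
private def b10_F (A : Subalgebra 𝕜 N) : Subfield N where
  carrier := {z | ∃ a ∈ A, ∃ b ∈ A, b ≠ 0 ∧ z * b = a}
  zero_mem' := ⟨0, A.zero_mem, 1, A.one_mem, one_ne_zero, by ring⟩
  one_mem' := ⟨1, A.one_mem, 1, A.one_mem, one_ne_zero, by ring⟩
  add_mem' := by
    rintro z w ⟨a, ha, b, hb, hb0, h⟩ ⟨a', ha', b', hb', hb0', h'⟩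
    exact ⟨a * b' + a' * b, A.add_mem (A.mul_mem ha hb') (A.mul_mem ha' hb), b * b',
      A.mul_mem hb hb', mul_ne_zero hb0 hb0', by linear_combination b' * h + b * h'⟩
  neg_mem' := by
    rintro z ⟨a, ha, b, hb, hb0, h⟩
    exact ⟨-a, A.neg_mem ha, b, hb, hb0, by linear_combination -h⟩
  mul_mem' := by
    rintro z w ⟨a, ha, b, hb, hb0, h⟩ ⟨a', ha', b', hb', hb0', h'⟩
    exact ⟨a * a', A.mul_mem ha ha', b * b', A.mul_mem hb hb', mul_ne_zero hb0 hb0',
      by rw [← h, ← h']; ring⟩
  inv_mem' := by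
    rintro z ⟨a, ha, b, hb, hb0, h⟩
    by_cases hz : z = 0
    · subst hz
      exact ⟨0, A.zero_mem, 1, A.one_mem, one_ne_zero, by rw [inv_zero]; ring⟩
    · refine ⟨b, hb, a, ha, ?_, ?_⟩
      · rw [← h]
        exact mul_ne_zero hz hb0
      · rw [← h, inv_mul_cancel_left₀ hz]

/-- The residue homomorphism. -/
private noncomputable def b10_k [CharZero 𝕜] [IsAlgClosed 𝕜] (hF : FF 𝕜 N) {O : ValuationSubring N}
    (hO : IsPl 𝕜 O) : O →+* 𝕜 where
  toFun z := Classical.choose (b10_pl_res hF hO (z : N) z.2)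
  map_one' := by
    apply b10_pl_unique hO (Classical.choose_spec (b10_pl_res hF hO ((1 : O) : N) (1 : O).2))
    have e : ((1 : O) : N) - algebraMap 𝕜 N 1 = 0 := by
      rw [map_one]
      exact sub_self _
    rw [e]
    exact O.nonunits.zero_mem
  map_zero' := by
    apply b10_pl_unique hO (Classical.choose_spec (b10_pl_res hF hO ((0 : O) : N) (0 : O).2))
    have e : ((0 : O) : N) - algebraMap 𝕜 N 0 = 0 := by
      rw [map_zero]
      exact sub_self _
    rw [e]
    exact O.nonunits.zero_mem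
  map_add' := by
    intro z w
    apply b10_pl_unique hO (Classical.choose_spec (b10_pl_res hF hO ((z + w : O) : N) (z + w : O).2))
    have h1 := Classical.choose_spec (b10_pl_res hF hO (z : N) z.2)
    have h2 := Classical.choose_spec (b10_pl_res hF hO (w : N) w.2)
    have h3 := O.nonunits.add_mem h1 h2
    rw [map_add]
    have e : ∀ c d : N, ((z + w : O) : N) - (c + d) = ((z : N) - c) + ((w : N) - d) := by
      intro c d
      have : ((z + w : O) : N) = (z : N) + (w : N) := rfl
      rw [this]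
      ring
    rw [e]
    exact h3
  map_mul' := by
    intro z w
    apply b10_pl_unique hO (Classical.choose_spec (b10_pl_res hF hO ((z * w : O) : N) (z * w : O).2))
    have h1 := Classical.choose_spec (b10_pl_res hF hO (z : N) z.2)
    have h2 := Classical.choose_spec (b10_pl_res hF hO (w : N) w.2)
    rw [map_mul]
    have e : ∀ c d : N, ((z * w : O) : N) - (c * d) = (z : N) * ((w : N) - d) + d * ((z : N) - c) := by
      intro c d
      have : ((z * w : O) : N) = (z : N) * (w : N) := rfl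
      rw [this]
      ring
    rw [e]
    rw [ValuationSubring.mem_nonunits_iff] at h1 h2 ⊢
    have h3 : O.valuation ((z : N) * ((w : N) - algebraMap 𝕜 N
        (Classical.choose (b10_pl_res hF hO (w : N) w.2)))) < 1 := by
      rw [map_mul, mul_comm]
      exact mul_lt_one_of_lt_of_le h2 ((O.valuation_le_one_iff _).2 z.2)
    have h4 : O.valuation (algebraMap 𝕜 N (Classical.choose (b10_pl_res hF hO (w : N) w.2)) *
        ((z : N) - algebraMap 𝕜 N (Classical.choose (b10_pl_res hF hO (z : N) z.2)))) < 1 := by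
      rw [map_mul, mul_comm]
      exact mul_lt_one_of_lt_of_le h1 ((O.valuation_le_one_iff _).2 (hO.1 _))
    exact Valuation.map_add_lt _ h3 h4

private theorem b10_k_spec [CharZero 𝕜] [IsAlgClosed 𝕜] (hF : FF 𝕜 N) {O : ValuationSubring N}
    (hO : IsPl 𝕜 O) (z : O) : (z : N) - algebraMap 𝕜 N (b10_k hF hO z) ∈ O.nonunits :=
  Classical.choose_spec (b10_pl_res hF hO (z : N) z.2)

/-- The key step: an element `e` of `E` algebraic over `S` is congruent to a constant modulo `t` if the
elements of `S` are (Hensel-like argument with the minimal polynomial of `e`). -/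
private theorem b10_step [CharZero 𝕜] [IsAlgClosed 𝕜] (hF : FF 𝕜 N) {O : ValuationSubring N}
    (hO : IsPl 𝕜 O) (E : Subfield N) (A : Subalgebra 𝕜 N) (t : N) (hEO : ∀ z ∈ E, z ∈ O)
    (hEA : ∀ z ∈ E, z ∈ A) (hA : ∀ a ∈ A, a ∈ O) (ht : t ∈ O.nonunits) (S : Subfield N) (hSE : S ≤ E)
    (hS : ∀ z ∈ S, ∃ c : 𝕜, z - algebraMap 𝕜 N c ∈ b10_J O A t) (e : N) (he : e ∈ E)
    (halg : IsAlgebraic S e) : ∃ c : 𝕜, e - algebraMap 𝕜 N c ∈ b10_J O A t := by
  have hch : CharZero N := charZero_of_injective_algebraMap (algebraMap 𝕜 N).injective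
  have hchS : CharZero S := inferInstance
  set P : S[X] := minpoly S e with hP
  have hint : IsIntegral S e := halg.isIntegral
  have hP0 : aeval e P = 0 := minpoly.aeval S e
  have hP1 : aeval e (derivative P) ≠ 0 :=
    (minpoly.irreducible hint).separable.aeval_derivative_ne_zero hP0
  set i1 : S →+* E := Subfield.inclusion hSE with hi1
  set eE : E := ⟨e, he⟩ with heE
  have hcomp : ∀ R : S[X], E.subtype (R.eval₂ i1 eE) = aeval e R := by
    intro R
    rw [Polynomial.hom_eval₂]
    rfl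
  have hQ0 : P.eval₂ i1 eE = 0 := by
    apply E.subtype.injective
    rw [hcomp, hP0, map_zero]
  have hQ1 : (derivative P).eval₂ i1 eE ≠ 0 := by
    intro h
    apply hP1
    rw [← hcomp, h, map_zero]
  set jE : E →+* O := (E.subtype).codRestrict O (fun z => hEO z z.2) with hjE
  set φ : E →+* 𝕜 := (b10_k hF hO).comp jE with hφ
  have hφs : ∀ z : E, (z : N) - algebraMap 𝕜 N (φ z) ∈ O.nonunits :=
    fun z => b10_k_spec hF hO (jE z)
  set γ : 𝕜 := φ eE with hγ
  have hg0 : P.eval₂ (φ.comp i1) γ = 0 := by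
    rw [hγ, ← Polynomial.hom_eval₂, hQ0, map_zero]
  have hg1 : (derivative P).eval₂ (φ.comp i1) γ ≠ 0 := by
    rw [hγ, ← Polynomial.hom_eval₂]
    intro h
    exact hQ1 ((map_eq_zero φ).1 h)
  set T : S →+* A := (algebraMap 𝕜 A).comp (φ.comp i1) with hT
  set eA : A := ⟨e, hEA e he⟩ with heA
  set γA : A := algebraMap 𝕜 A γ with hγA
  have hev : ∀ R : S[X], (R.map T).eval γA = algebraMap 𝕜 A (R.eval₂ (φ.comp i1) γ) := by
    intro R
    rw [Polynomial.eval_map, hT, hγA, ← Polynomial.hom_eval₂]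
  obtain ⟨k, hk⟩ := Polynomial.binomExpansion (P.map T) γA (eA - γA)
  rw [add_sub_cancel, hev P, hg0, map_zero, zero_add, Polynomial.derivative_map,
    hev (derivative P)] at hk
  set d : 𝕜 := (derivative P).eval₂ (φ.comp i1) γ with hd
  set B : A := algebraMap 𝕜 A d + k * (eA - γA) with hB
  have hk2 : (P.map T).eval eA = B * (eA - γA) := by
    rw [hk, hB]
    ring
  have hBv : O.valuation (B : N) = 1 := by
    have e1 : (B : N) = algebraMap 𝕜 N d + (k : N) * (e - algebraMap 𝕜 N γ) := rfl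
    rw [e1]
    have e2 : O.valuation (algebraMap 𝕜 N d) = 1 := b10_const hO hg1
    have e3 : O.valuation ((k : N) * (e - algebraMap 𝕜 N γ)) < 1 := by
      rw [map_mul, mul_comm]
      exact mul_lt_one_of_lt_of_le ((O.mem_nonunits_iff).1 (hφs eE))
        ((O.valuation_le_one_iff _).2 (hA _ k.2))
    rw [Valuation.map_add_eq_of_lt_left (v := O.valuation) (by rw [e2]; exact e3), e2]
  have hTs : ∀ s : S, (s : N) - (T s : N) ∈ b10_J O A t := by
    intro s
    obtain ⟨c, hc⟩ := hS s s.2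
    have h1 := b10_non hA ht hc
    have h2 := hφs (i1 s)
    have h3 : c = φ (i1 s) := b10_pl_unique hO h1 h2
    rw [h3] at hc
    exact hc
  have hQJ : (((P.map T).eval eA : A) : N) ∈ b10_J O A t := by
    have e1 : (((P.map T).eval eA : A) : N) =
        ∑ j ∈ Finset.range (P.natDegree + 1), (T (P.coeff j) : N) * e ^ j := by
      rw [Polynomial.eval_map, Polynomial.eval₂_eq_sum_range]
      have e2 : ∀ f : ℕ → A, ((∑ j ∈ Finset.range (P.natDegree + 1), f j : A) : N) =
          ∑ j ∈ Finset.range (P.natDegree + 1), (f j : N) := fun f => map_sum A.val f _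
      rw [e2]
      rfl
    have e3 : ∑ j ∈ Finset.range (P.natDegree + 1), (P.coeff j : N) * e ^ j = 0 := by
      rw [← hP0, Polynomial.aeval_eq_sum_range]
      rfl
    have e4 : (((P.map T).eval eA : A) : N) =
        ∑ j ∈ Finset.range (P.natDegree + 1), e ^ j * -((P.coeff j : N) - (T (P.coeff j) : N)) := by
      rw [e1, ← sub_zero (∑ j ∈ Finset.range (P.natDegree + 1), (T (P.coeff j) : N) * e ^ j), ← e3,
        ← Finset.sum_sub_distrib]
      apply Finset.sum_congr rfl
      intro j _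
      ring
    rw [e4]
    apply b10_sum
    intro j _
    exact b10_mul (A.pow_mem (hEA e he) j) (b10_neg (hTs _))
  refine ⟨γ, ?_⟩
  apply b10_cancel B.2 hBv
  have e5 : (((P.map T).eval eA : A) : N) = (B : N) * (e - algebraMap 𝕜 N γ) := by
    rw [hk2]
    rfl
  rw [← e5]
  exact hQJ

/-- The abstract form of the result. -/
private theorem b10_main {C : Type} [Field C] [Algebra C 𝕜] [CharZero 𝕜] [IsAlgClosed 𝕜]
    (hF : FF 𝕜 N) {O : ValuationSubring N} (hO : IsPl 𝕜 O) (E : Subfield N) (x : N) (β : 𝕜)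
    (hxE : x ∈ E) (hCE : ∀ c : C, algebraMap 𝕜 N (algebraMap C 𝕜 c) ∈ E)
    (halg : ∀ S : Subfield N, x ∈ S → (∀ c : C, algebraMap 𝕜 N (algebraMap C 𝕜 c) ∈ S) →
      ∀ z ∈ E, IsAlgebraic S z)
    (hgen : ∀ S : Subfield N, (∀ c : 𝕜, algebraMap 𝕜 N c ∈ S) → E ≤ S → ∀ z : N, z ∈ S)
    (hEO : ∀ z ∈ E, z ∈ O) (hx : x - algebraMap 𝕜 N β ∈ O.nonunits)
    (hx0 : x - algebraMap 𝕜 N β ≠ 0) : od 𝕜 O (x - algebraMap 𝕜 N β) = 1 := by
  set A : Subalgebra 𝕜 N := Algebra.adjoin 𝕜 (E : Set N) with hAdef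
  set t : N := x - algebraMap 𝕜 N β with ht
  have ho := od_spec hF hO
  have hEA : ∀ z ∈ E, z ∈ A := fun z hz => Algebra.subset_adjoin hz
  have hA : ∀ a ∈ A, a ∈ O := by
    intro a ha
    induction ha using Algebra.adjoin_induction with
    | mem z hz => exact hEO z hz
    | algebraMap r => exact hO.1 r
    | add z w _ _ h1 h2 => exact O.add_mem _ _ h1 h2
    | mul z w _ _ h1 h2 => exact O.mul_mem _ _ h1 h2
  set S := b10_S O E A t hO hEO hEA hA hx with hS
  have hSE : S ≤ E := fun z hz => hz.1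
  have hSJ : ∀ z ∈ S, ∃ c : 𝕜, z - algebraMap 𝕜 N c ∈ b10_J O A t := fun z hz => hz.2
  have hxS : x ∈ S := by
    refine ⟨hxE, β, 1, A.one_mem, 1, A.one_mem, map_one _, ?_⟩
    rw [ht]
    ring
  have hCS : ∀ c : C, algebraMap 𝕜 N (algebraMap C 𝕜 c) ∈ S := by
    intro c
    refine ⟨hCE c, algebraMap C 𝕜 c, ?_⟩
    rw [sub_self]
    exact b10_zero O A t
  have hEJ : ∀ z ∈ E, ∃ c : 𝕜, z - algebraMap 𝕜 N c ∈ b10_J O A t := fun z hz =>
    b10_step hF hO E A t hEO hEA hA hx S hSE hSJ z hz (halg S hxS hCS z hz)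
  have hAJ : ∀ a ∈ A, ∃ c : 𝕜, a - algebraMap 𝕜 N c ∈ b10_J O A t := by
    intro a ha
    induction ha using Algebra.adjoin_induction with
    | mem z hz => exact hEJ z hz
    | algebraMap r => exact ⟨r, by rw [sub_self]; exact b10_zero O A t⟩
    | add z w _ _ h1 h2 =>
      obtain ⟨c, hc⟩ := h1
      obtain ⟨d, hd⟩ := h2
      refine ⟨c + d, ?_⟩
      have h := b10_add hc hd
      have e : z + w - algebraMap 𝕜 N (c + d) =
          z - algebraMap 𝕜 N c + (w - algebraMap 𝕜 N d) := by rw [map_add]; ring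
      rw [e]
      exact h
    | mul z w hzA _ h1 h2 =>
      obtain ⟨c, hc⟩ := h1
      obtain ⟨d, hd⟩ := h2
      refine ⟨c * d, ?_⟩
      have h := b10_add (b10_mul (c := z) hzA hd) (b10_mul (A.algebraMap_mem d) hc)
      have e : z * w - algebraMap 𝕜 N (c * d) =
          z * (w - algebraMap 𝕜 N d) + algebraMap 𝕜 N d * (z - algebraMap 𝕜 N c) := by
        rw [map_mul]; ring
      rw [e]
      exact h
  have hnuJ : ∀ a ∈ A, a ∈ O.nonunits → a ∈ b10_J O A t := by
    intro a ha hn
    obtain ⟨c, hc⟩ := hAJ a ha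
    have h1 := b10_non hA hx hc
    have h2 := O.nonunits.sub_mem hn h1
    have e : a - (a - algebraMap 𝕜 N c) = algebraMap 𝕜 N c := by ring
    rw [e] at h2
    have h3 := b10_pl_zero hO h2
    rw [h3, map_zero, sub_zero] at hc
    exact hc
  have ht0 : 0 < od 𝕜 O t := (b10_nu hF hO hx0).1 hx
  have hdiv : ∀ (n : ℕ) (a : N), a ∈ A → a ≠ 0 → od 𝕜 O a = n → od 𝕜 O t ∣ od 𝕜 O a := by
    intro n
    induction n using Nat.strong_induction_on with
    | _ n ih =>
      intro a ha ha0 hn
      rcases Nat.eq_zero_or_pos n with h | h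
      · rw [hn, h]
        exact dvd_zero _
      · have h1 : a ∈ O.nonunits := (b10_nu hF hO ha0).2 (by omega)
        obtain ⟨a', ha', b, hb, hb1, hab⟩ := hnuJ a ha h1
        have hb0 : b ≠ 0 := by
          rintro rfl
          rw [map_zero] at hb1
          exact zero_ne_one hb1
        have ha0' : a' ≠ 0 := by
          rintro rfl
          rw [mul_zero] at hab
          exact mul_ne_zero hb0 ha0 hab
        have hob : od 𝕜 O b = 0 := by
          have h2 : ¬ 0 < od 𝕜 O b := by
            intro h3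
            have h4 := (b10_nu hF hO hb0).2 h3
            rw [ValuationSubring.mem_nonunits_iff, hb1] at h4
            exact lt_irrefl _ h4
          have h5 : 0 ≤ od 𝕜 O b := (ho.mem b hb0).1 (hA b hb)
          omega
        have h6 := congrArg (od 𝕜 O) hab
        rw [ho.mul b a hb0 ha0, ho.mul t a' hx0 ha0', hob, zero_add] at h6
        have h7 : 0 ≤ od 𝕜 O a' := (ho.mem a' ha0').1 (hA a' ha')
        have h8 := ih (od 𝕜 O a').toNat (by omega) a' ha' ha0' (by omega)
        rw [h6]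
        exact dvd_add (dvd_refl _) h8
  have hdivA : ∀ a ∈ A, a ≠ 0 → od 𝕜 O t ∣ od 𝕜 O a := by
    intro a ha ha0
    have h7 : 0 ≤ od 𝕜 O a := (ho.mem a ha0).1 (hA a ha)
    exact hdiv (od 𝕜 O a).toNat a ha ha0 (by omega)
  obtain ⟨z, hz0, hz1⟩ := ho.surj
  have hzF : z ∈ b10_F A := by
    apply hgen
    · intro c
      exact ⟨algebraMap 𝕜 N c, A.algebraMap_mem c, 1, A.one_mem, one_ne_zero, by ring⟩
    · intro w hw
      exact ⟨w, hEA w hw, 1, A.one_mem, one_ne_zero, by ring⟩
  obtain ⟨a, ha, b, hb, hb0, hab⟩ := hzF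
  have ha0 : a ≠ 0 := by
    rw [← hab]
    exact mul_ne_zero hz0 hb0
  have h9 := congrArg (od 𝕜 O) hab
  rw [ho.mul z b hz0 hb0, hz1] at h9
  have h10 : od 𝕜 O t ∣ 1 := by
    have e : (1 : ℤ) = od 𝕜 O a - od 𝕜 O b := by omega
    rw [e]
    exact dvd_sub (hdivA a ha ha0) (hdivA b hb hb0)
  have h11 := Int.le_of_dvd one_pos h10
  omega

end b10

theorem R_B10 : st_B10 := by
  intro C 𝕜 Ω _ _ _ _ _ _ _ _ _ _ E N x hFE hxE hxtr hN hFN hx O β hO hβ hxβ
  have hch : CharZero 𝕜 := charZero_of_injective_algebraMap (algebraMap C 𝕜).injective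
  have hEN : ∀ z : Ω, z ∈ E → z ∈ N := by
    intro z hz
    rw [hN]
    exact IntermediateField.subset_adjoin 𝕜 _ hz
  -- the inclusion of `E` in `N`
  set j : E →+* N :=
    (algebraMap E Ω).codRestrict N (fun z => hEN z z.2) with hj
  have hjv : ∀ z : E, ((j z : N) : Ω) = z := fun _ => rfl
  have hjC : ∀ c : C, j (algebraMap C E c) = algebraMap 𝕜 N (algebraMap C 𝕜 c) := by
    intro c
    apply Subtype.ext
    show algebraMap C Ω c = algebraMap 𝕜 Ω (algebraMap C 𝕜 c)
    exact IsScalarTower.algebraMap_apply C 𝕜 Ω c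
  set E' : Subfield N := j.fieldRange with hE'
  set xE : E := ⟨x, hxE⟩ with hxE'
  set xN : N := ⟨x, hx⟩ with hxN
  have hjx : j xE = xN := rfl
  have htrΩ : Transcendental C x := by
    intro h
    exact hxtr (h.extendScalars (algebraMap C 𝕜).injective)
  have htr : Transcendental C xE := by
    intro h
    apply htrΩ
    exact h.algebraMap (A := Ω)
  have hxE2 : xN ∈ E' := ⟨xE, hjx⟩
  apply b10_main (C := C) hFN hO E' xN β hxE2
  · intro c
    exact ⟨algebraMap C E c, hjC c⟩
  · -- algebraic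
    rintro S hxS hCS z ⟨w, rfl⟩
    have hfin := hFE.fin xE htr
    have hw : IsAlgebraic (IntermediateField.adjoin C {xE}) w := Algebra.IsAlgebraic.isAlgebraic w
    set F : IntermediateField C E := (S.comap j).toIntermediateField (by
      intro c
      show j (algebraMap C E c) ∈ S
      rw [hjC]
      exact hCS c) with hF
    have hle : IntermediateField.adjoin C {xE} ≤ F := by
      rw [IntermediateField.adjoin_le_iff]
      intro y hy
      rw [Set.mem_singleton_iff] at hy
      subst hy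
      show j xE ∈ S
      rw [hjx]
      exact hxS
    set f : (IntermediateField.adjoin C {xE}) →+* S :=
      (j.comp (algebraMap (IntermediateField.adjoin C {xE}) E)).codRestrict S
        (fun y => hle y.2) with hf
    obtain ⟨p, hp0, hp⟩ := hw
    refine ⟨p.map f, (Polynomial.map_ne_zero_iff f.injective).2 hp0, ?_⟩
    have e1 : aeval (j w) (p.map f) = j (aeval w p) := by
      rw [Polynomial.aeval_def, Polynomial.eval₂_map, Polynomial.aeval_def, Polynomial.hom_eval₂]
      rfl
    rw [e1, hp, map_zero]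
  · -- generation
    intro S hS1 hS2 z
    set F : IntermediateField 𝕜 Ω := (S.map (algebraMap N Ω)).toIntermediateField (by
      intro c
      exact ⟨algebraMap 𝕜 N c, hS1 c, rfl⟩) with hF
    have hle : N ≤ F := by
      rw [hN, IntermediateField.adjoin_le_iff]
      intro y hy
      exact ⟨j ⟨y, hy⟩, hS2 ⟨⟨y, hy⟩, rfl⟩, rfl⟩
    obtain ⟨s, hs, hs2⟩ := hle z.2
    have e : s = z := Subtype.ext hs2
    rw [← e]
    exact hs
  · -- `E ⊆ O`
    by_contra hcon
    have hP : IsPl C (O.comap j) := by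
      constructor
      · intro c
        show j (algebraMap C E c) ∈ O
        rw [hjC]
        exact hO.1 _
      · intro htop
        apply hcon
        rintro z ⟨w, rfl⟩
        have h1 : w ∈ O.comap j := by
          rw [htop]
          exact ValuationSubring.mem_top w
        exact h1
    have hxO : xN ∈ O := by
      have h1 := O.nonunits_subset hxβ
      have h2 := O.add_mem _ _ h1 (hO.1 β)
      have e : xN - algebraMap 𝕜 N β + algebraMap 𝕜 N β = xN := by ring
      rw [e] at h2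
      exact h2
    obtain ⟨c, hc⟩ := b10_pl_res hFE hP xE hxO
    have h3 : j (xE - algebraMap C E c) ∈ O.nonunits := by
      rw [ValuationSubring.mem_nonunits_iff_or] at hc ⊢
      rcases hc with hc | hc
      · left
        rw [hc, map_zero]
      · right
        intro h4
        apply hc
        show j (xE - algebraMap C E c)⁻¹ ∈ O
        rw [map_inv₀]
        exact h4
    rw [map_sub, hjC, hjx] at h3
    exact hβ c (b10_pl_unique hO h3 hxβ)
  · exact hxβ
  · intro h
    apply hxtr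
    have h1 : x = algebraMap 𝕜 Ω β := by
      have h2 := congrArg (algebraMap N Ω) h
      rw [map_sub, map_zero, sub_eq_zero] at h2
      exact h2
    rw [h1]
    exact isAlgebraic_algebraMap β

end SGT
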