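import Pool.Agent.SGT.StB
import Pool.Agent.MP_c1dca2_ag.GT.P2a
import Pool.Agent.MP_c1dca2_ag.GT.P2b
import Pool.Agent.MP_c1dca2_ag.GT.P2c
import Pool.Agent.MP_c1dca2_ag.GT.P4a

/-!
# [SGT-B1a] bounded poles of D z (MP_3dd09b_ag)
-/

set_option autoImplicit false
set_option linter.unusedVariables false

open GT IsLocalRing Polynomial

namespace SGT

section b1a

variable {𝕜 N : Type} [Field 𝕜] [Field N] [Algebra 𝕜 N]

open scoped IntermediateField.algebraAdjoinAdjoin in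
/-- The integral closure of `𝕜[x]` is a finite module. -/
private theorem b1a_fin [CharZero 𝕜] (hF : FF 𝕜 N) {x : N} (hx : Transcendental 𝕜 x) :
    Module.Finite (Algebra.adjoin 𝕜 {x}) (Rt 𝕜 x) := by
  have hpid := p2c_pid hx
  have hfin : FiniteDimensional (IntermediateField.adjoin 𝕜 {x}) N := hF.fin x hx
  have hchar : CharZero (IntermediateField.adjoin 𝕜 {x}) := charZero_of_injective_algebraMap
    (algebraMap 𝕜 (IntermediateField.adjoin 𝕜 {x})).injective
  have hsep : Algebra.IsSeparable (IntermediateField.adjoin 𝕜 {x}) N := inferInstance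
  exact IsIntegralClosure.finite (Algebra.adjoin 𝕜 {x}) (IntermediateField.adjoin 𝕜 {x}) N (Rt 𝕜 x)

/-- `𝕜[x]` is contained in its integral closure. -/
private theorem b1a_le {x a : N} (ha : a ∈ Algebra.adjoin 𝕜 {x}) : a ∈ Rt 𝕜 x :=
  (Rt 𝕜 x).algebraMap_mem (⟨a, ha⟩ : Algebra.adjoin 𝕜 {x})

private theorem b1a_aeval {x : N} (q : 𝕜[X]) : aeval x q ∈ Rt 𝕜 x :=
  b1a_le (Polynomial.aeval_mem_adjoin_singleton 𝕜 x)

/-- `D` maps `𝕜[x]` into itself. -/
private theorem b1a_D {D : Derivation ℤ N N} {x : N}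
    (hD : ∀ β : 𝕜, ∃ β' : 𝕜, D (algebraMap 𝕜 N β) = algebraMap 𝕜 N β')
    (hDx : D x ∈ Algebra.adjoin 𝕜 {x}) {a : N} (ha : a ∈ Algebra.adjoin 𝕜 {x}) :
    D a ∈ Algebra.adjoin 𝕜 {x} := by
  induction ha using Algebra.adjoin_induction with
  | mem y hy =>
    rw [Set.mem_singleton_iff] at hy
    rw [hy]
    exact hDx
  | algebraMap r =>
    obtain ⟨β', h⟩ := hD r
    rw [h]
    exact Subalgebra.algebraMap_mem _ _
  | add a b _ _ ha hb =>
    rw [map_add]
    exact add_mem ha hb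
  | mul a b h1 h2 ha hb =>
    rw [Derivation.leibniz, smul_eq_mul, smul_eq_mul]
    exact add_mem (mul_mem h1 hb) (mul_mem h2 ha)

/-- A common denominator for `D` on the integral closure. -/
private theorem b1a_den [CharZero 𝕜] (hF : FF 𝕜 N) {D : Derivation ℤ N N} {x : N}
    (hx : Transcendental 𝕜 x)
    (hD : ∀ β : 𝕜, ∃ β' : 𝕜, D (algebraMap 𝕜 N β) = algebraMap 𝕜 N β')
    (hDx : D x ∈ Algebra.adjoin 𝕜 {x}) :
    ∃ q : 𝕜[X], q ≠ 0 ∧ ∀ r : N, r ∈ Rt 𝕜 x → aeval x q * D r ∈ Rt 𝕜 x := by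
  classical
  have hfin := b1a_fin hF hx
  obtain ⟨S, hS⟩ := hfin.fg_top
  choose q hq0 hq using fun s : Rt 𝕜 x => rt_frac hF hx (D (s : N))
  refine ⟨∏ s ∈ S, q s, Finset.prod_ne_zero_iff.2 fun s _ => hq0 s, ?_⟩
  have key : ∀ r : Rt 𝕜 x, aeval x (∏ s ∈ S, q s) * D (r : N) ∈ Rt 𝕜 x := by
    intro r
    have hr : r ∈ Submodule.span (Algebra.adjoin 𝕜 {x}) (S : Set (Rt 𝕜 x)) := by
      rw [hS]
      exact Submodule.mem_top
    induction hr using Submodule.span_induction with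
    | mem s hs =>
      rw [← Finset.mul_prod_erase S q hs, map_mul]
      have h1 : aeval x (q s) * aeval x (∏ s ∈ S.erase s, q s) * D (s : N) =
          aeval x (∏ s ∈ S.erase s, q s) * (D (s : N) * aeval x (q s)) := by ring
      rw [h1]
      exact mul_mem (b1a_aeval _) (hq s)
    | zero =>
      rw [ZeroMemClass.coe_zero, map_zero, mul_zero]
      exact zero_mem _
    | add a b _ _ ha hb =>
      have h1 : D (((a + b : Rt 𝕜 x)) : N) = D (a : N) + D (b : N) := map_add D _ _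
      rw [h1, mul_add]
      exact add_mem ha hb
    | smul c a _ ha =>
      have h1 : (((c • a : Rt 𝕜 x)) : N) = (c : N) * (a : N) := rfl
      rw [h1, Derivation.leibniz, smul_eq_mul, smul_eq_mul]
      have h2 : aeval x (∏ s ∈ S, q s) * ((c : N) * D (a : N) + (a : N) * D (c : N)) =
          (c : N) * (aeval x (∏ s ∈ S, q s) * D (a : N)) +
            aeval x (∏ s ∈ S, q s) * ((a : N) * D (c : N)) := by ring
      rw [h2]
      exact add_mem (mul_mem (b1a_le c.2) ha)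
        (mul_mem (b1a_aeval _) (mul_mem a.2 (b1a_le (b1a_D hD hDx c.2))))
  exact fun r hr => key ⟨r, hr⟩

end b1a

theorem R_B1a : st_B1a := by
  intro 𝕜 N _ _ _ _ _ D x hF hD hx hDx O hO hxO
  obtain ⟨q, hq0, hq⟩ := b1a_den hF hx hD hDx
  obtain ⟨p, -, -, hp, hc⟩ := centre hF hx hO hxO
  have hRO : ∀ f : N, f ∈ Rt 𝕜 x → f ∈ O := fun f hf => (rt_mem x f).1 hf O hO.1 hxO
  have ho := od_spec hF hO
  have hqx : aeval x q ≠ 0 := fun h => hq0 ((transcendental_iff.1 hx) q h)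
  refine ⟨(od 𝕜 O (aeval x q)).toNat, fun z hz hDz => ?_⟩
  have hqO : aeval x q ∈ O := hRO _ (b1a_aeval q)
  have hq1 : 0 ≤ od 𝕜 O (aeval x q) := (ho.mem _ hqx).1 hqO
  -- `q(x) D z` is regular
  have hreg : aeval x q * D z ∈ O := by
    obtain ⟨r, s, hs, hzs⟩ := (hc z).1 hz
    have hs1 : ¬ (s : N) ∈ O.nonunits := fun h => hs ((hp s).2 h)
    rw [ValuationSubring.mem_nonunits_iff, not_lt] at hs1
    have hs0 : (s : N) ≠ 0 := by
      intro h
      rw [h, map_zero] at hs1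
      exact absurd hs1 (not_le.2 zero_lt_one)
    have hsi : (s : N)⁻¹ ∈ O := by
      rw [← O.valuation_le_one_iff, map_inv₀]
      exact inv_le_one_of_one_le₀ hs1
    have h1 : D (z * (s : N)) = D (r : N) := by rw [hzs]
    rw [Derivation.leibniz, smul_eq_mul, smul_eq_mul] at h1
    have h2 : aeval x q * D z = (aeval x q * D (r : N) - z * (aeval x q * D (s : N))) * (s : N)⁻¹ := by
      rw [eq_mul_inv_iff_mul_eq₀ hs0, ← h1]
      ring
    rw [h2]
    exact mul_mem (sub_mem (hRO _ (hq _ r.2)) (mul_mem hz (hRO _ (hq _ s.2)))) hsi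
  have h3 := (ho.mem _ (mul_ne_zero hqx hDz)).1 hreg
  rw [ho.mul _ _ hqx hDz] at h3
  rw [Int.toNat_of_nonneg hq1]
  linarith

end SGT
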