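import Pool.Agent.SGT.StB

/-!
# [SGT-B1b] a derivation preserves the valuation ring (MP_3dd09b_ag)
-/

set_option autoImplicit false
set_option linter.unusedVariables false

open GT IsLocalRing Polynomial

namespace SGT

/-- the logarithmic derivative of a product -/
theorem b1b_mul {N : Type} [Field N] (D : Derivation ℤ N N) {a b : N} (ha : a ≠ 0) (hb : b ≠ 0) :
    D (a * b) / (a * b) = D a / a + D b / b := by
  rw [D.leibniz, smul_eq_mul, smul_eq_mul]
  field_simp
  ring

/-- the logarithmic derivative of a power -/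
theorem b1b_pow {N : Type} [Field N] (D : Derivation ℤ N N) {a : N} (ha : a ≠ 0) (n : ℕ) :
    D (a ^ n) / a ^ n = (n : N) * (D a / a) := by
  induction n with
  | zero => simp
  | succ n ih =>
    rw [pow_succ, b1b_mul D (pow_ne_zero n ha) ha, ih]
    push_cast
    ring

/-- the logarithmic derivative of an inverse -/
theorem b1b_inv {N : Type} [Field N] (D : Derivation ℤ N N) {a : N} (ha : a ≠ 0) :
    D a⁻¹ / a⁻¹ = -(D a / a) := by
  have h := b1b_mul D ha (inv_ne_zero ha)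
  rw [mul_inv_cancel₀ ha, D.map_one_eq_zero, zero_div] at h
  exact (neg_eq_of_add_eq_zero_right h.symm).symm

/-- nonunits and orders -/
theorem b1b_non {𝕜 N : Type} [Field 𝕜] [Field N] [Algebra 𝕜 N] {O : ValuationSubring N} {o : N → ℤ}
    (ho : IsOrd 𝕜 O o) {a : N} (ha : a ≠ 0) : a ∈ O.nonunits ↔ 0 < o a := by
  have h1 : a⁻¹ ∈ O ↔ 0 ≤ - o a := by
    rw [ho.mem _ (inv_ne_zero ha), h1c_inv ho a ha]
  have h2 : a ∈ O.nonunits ↔ ¬ a⁻¹ ∈ O := by
    have hv : 0 < O.valuation a := by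
      rw [zero_lt_iff]
      exact (Valuation.ne_zero_iff _).2 ha
    rw [ValuationSubring.mem_nonunits_iff, ← ValuationSubring.valuation_le_one_iff, map_inv₀,
      inv_le_one₀ hv, not_le]
  rw [h2, h1]
  omega

/-- the basic computation: `y = z ^ e / s ^ k` is a unit -/
theorem b1b_key {𝕜 N : Type} [Field 𝕜] [Field N] [Algebra 𝕜 N] {O : ValuationSubring N} {o : N → ℤ}
    (ho : IsOrd 𝕜 O o) (D : Derivation ℤ N N) {s z : N} (hs : s ≠ 0) (hz : z ≠ 0) (e k : ℕ)
    (hes : o s = e) (hkz : o z = k) (t : N) (hD : ∀ y ∈ O, t * D y ∈ O) :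
    t * ((e : N) * (D z / z) - (k : N) * (D s / s)) ∈ O := by
  obtain ⟨y, hy⟩ : ∃ y, y = z ^ e * (s ^ k)⁻¹ := ⟨_, rfl⟩
  have hze : z ^ e ≠ 0 := pow_ne_zero e hz
  have hsk : s ^ k ≠ 0 := pow_ne_zero k hs
  have hy0 : y ≠ 0 := by
    rw [hy]
    exact mul_ne_zero hze (inv_ne_zero hsk)
  have hoy : o y = 0 := by
    rw [hy, ho.mul _ _ hze (inv_ne_zero hsk), h1c_inv ho _ hsk, h1c_pow ho _ hz, h1c_pow ho _ hs,
      hes, hkz]
    ring
  have hyO : y ∈ O := (ho.mem y hy0).2 (by omega)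
  have hyO' : y⁻¹ ∈ O := (ho.mem _ (inv_ne_zero hy0)).2 (by rw [h1c_inv ho y hy0]; omega)
  have hDy : D y / y = (e : N) * (D z / z) - (k : N) * (D s / s) := by
    rw [hy, b1b_mul D hze (inv_ne_zero hsk), b1b_pow D hz, b1b_inv D hsk, b1b_pow D hs]
    ring
  rw [← hDy]
  have h1 : t * (D y / y) = (t * D y) * y⁻¹ := by
    rw [div_eq_mul_inv]
    ring
  rw [h1]
  exact O.mul_mem _ _ (hD y hyO) hyO'

theorem R_B1b : st_B1b := by
  intro 𝕜 N _ _ _ _ _ D s O hF hDk hO hs hs0 hDs hM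
  have ho : IsOrd 𝕜 O (od 𝕜 O) := od_spec hF hO
  obtain ⟨o, hoo⟩ : ∃ o, o = od 𝕜 O := ⟨_, rfl⟩
  rw [← hoo] at ho hDs hM
  have hC : ∀ c : 𝕜, algebraMap 𝕜 N c ∈ O := hO.1
  have hos : 0 < o s := (b1b_non ho hs0).1 hs
  obtain ⟨e, he⟩ := Int.eq_ofNat_of_zero_le hos.le
  have he0 : e ≠ 0 := by
    rintro rfl
    rw [he] at hos
    exact absurd hos (by norm_num)
  have hnat : ∀ n : ℕ, (n : N) ∈ O := fun n => by
    have := hC (n : 𝕜)
    rwa [map_natCast] at this
  have heinv : ((e : N))⁻¹ ∈ O := by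
    have := hC ((e : 𝕜)⁻¹)
    rwa [map_inv₀, map_natCast] at this
  have : CharZero N := charZero_of_injective_algebraMap (FaithfulSMul.algebraMap_injective 𝕜 N)
  have heN : (e : N) ≠ 0 := Nat.cast_ne_zero.2 he0
  obtain ⟨ϖ, hϖ0, hϖ⟩ := ho.surj
  have hϖO : ϖ ∈ O := (ho.mem _ hϖ0).2 (by omega)
  -- the step for one nonunit `z`
  have step : ∀ n : ℕ, (∀ y ∈ O, ϖ ^ n * D y ∈ O) → ∀ z : N, z ≠ 0 → 0 < o z →
      (D s = 0 ∨ 1 ≤ n) → ϖ ^ n * (D z / z) ∈ O := by
    intro n hn z hz hoz hor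
    obtain ⟨k, hk⟩ := Int.eq_ofNat_of_zero_le hoz.le
    have h1 := b1b_key ho D hs0 hz e k he hk (ϖ ^ n) hn
    have h2 : ϖ ^ n * ((k : N) * (D s / s)) ∈ O := by
      by_cases h3 : D s = 0
      · rw [h3, zero_div, mul_zero, mul_zero]
        exact O.zero_mem
      · rcases hDs with h4 | ⟨h4, h5⟩
        · exact absurd h4 h3
        · have h6 : 1 ≤ n := by
            rcases hor with h | h
            · exact absurd h h3
            · exact h
          have h7 : ϖ ^ n * (D s / s) ∈ O := by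
            have h8 : ϖ ^ n * (D s / s) ≠ 0 :=
              mul_ne_zero (pow_ne_zero n hϖ0) (div_ne_zero h3 hs0)
            rw [ho.mem _ h8, div_eq_mul_inv, ho.mul _ _ (pow_ne_zero n hϖ0)
              (mul_ne_zero h3 (inv_ne_zero hs0)), ho.mul _ _ h3 (inv_ne_zero hs0), h1c_inv ho _ hs0,
              h1c_pow ho _ hϖ0, hϖ, h4]
            have := (ho.mem _ h3).1 h5
            omega
          have h9 : ϖ ^ n * ((k : N) * (D s / s)) = (k : N) * (ϖ ^ n * (D s / s)) := by ring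
          rw [h9]
          exact O.mul_mem _ _ (hnat k) h7
    have h3 : ϖ ^ n * (D z / z) = (e : N)⁻¹ * (ϖ ^ n * ((e : N) * (D z / z) - (k : N) * (D s / s)) +
        ϖ ^ n * ((k : N) * (D s / s))) := by
      field_simp
      ring
    rw [h3]
    exact O.mul_mem _ _ heinv (O.add_mem _ _ h1 h2)
  -- the descent
  have desc : ∀ n : ℕ, (∀ y ∈ O, ϖ ^ n * D y ∈ O) → ∀ y ∈ O, D y ∈ O := by
    intro n
    induction n with
    | zero =>
      intro h y hy
      have := h y hy
      rwa [pow_zero, one_mul] at this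
    | succ n ih =>
      intro h
      apply ih
      intro y hy
      obtain ⟨β, hβ⟩ := ho.res y hy
      obtain ⟨β', hβ'⟩ := hDk β
      have h1 : D y = algebraMap 𝕜 N β' + D (y - algebraMap 𝕜 N β) := by
        rw [map_sub, hβ']
        ring
      rw [h1, mul_add]
      apply O.add_mem
      · exact O.mul_mem _ _ (O.pow_mem hϖO n) (hC β')
      · rcases hβ with h2 | h2
        · rw [h2, map_zero, mul_zero]
          exact O.zero_mem
        · by_cases h3 : y - algebraMap 𝕜 N β = 0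
          · rw [h3, map_zero, mul_zero]
            exact O.zero_mem
          · obtain ⟨z, hz⟩ : ∃ z, z = y - algebraMap 𝕜 N β := ⟨_, rfl⟩
            rw [← hz] at h2 h3 ⊢
            have h4 := step (n + 1) h z h3 h2 (Or.inr (by omega))
            have h5 : z * ϖ⁻¹ ∈ O := by
              rw [ho.mem _ (mul_ne_zero h3 (inv_ne_zero hϖ0)), ho.mul _ _ h3 (inv_ne_zero hϖ0),
                h1c_inv ho _ hϖ0, hϖ]
              omega
            have h6 : ϖ ^ n * D z = (ϖ ^ (n + 1) * (D z / z)) * (z * ϖ⁻¹) := by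
              rw [pow_succ]
              field_simp
            rw [h6]
            exact O.mul_mem _ _ h4 h5
  have hmain : ∀ z ∈ O, D z ∈ O := by
    obtain ⟨M, hM⟩ := hM
    apply desc M
    intro y hy
    by_cases h : D y = 0
    · rw [h, mul_zero]
      exact O.zero_mem
    · rw [ho.mem _ (mul_ne_zero (pow_ne_zero M hϖ0) h), ho.mul _ _ (pow_ne_zero M hϖ0) h,
        h1c_pow ho _ hϖ0, hϖ]
      have := hM y hy h
      omega
  refine ⟨hmain, ?_⟩
  intro hD0 z hz
  by_cases hz0 : z = 0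
  · rw [hz0, map_zero]
    rw [hz0] at hz
    exact hz
  · have hoz : 0 < o z := (b1b_non ho hz0).1 hz
    have h1 := step 0 (fun y hy => by
      rw [pow_zero, one_mul]
      exact hmain y hy) z hz0 hoz (Or.inl hD0)
    rw [pow_zero, one_mul] at h1
    by_cases h2 : D z = 0
    · rw [h2]
      rw [ValuationSubring.mem_nonunits_iff, map_zero]
      exact zero_lt_one
    · rw [b1b_non ho h2]
      rw [ho.mem _ (div_ne_zero h2 hz0), div_eq_mul_inv, ho.mul _ _ h2 (inv_ne_zero hz0),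
        h1c_inv ho _ hz0] at h1
      omega

end SGT
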