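import Pool.Agent.SGT.StB

/-!
# [SGT-B4] everywhere unramified extensions of C(u) are trivial (MP_3dd09b_ag)
-/

set_option autoImplicit false
set_option linter.unusedVariables false
set_option linter.unusedSectionVars false

open GT IsLocalRing Polynomial

namespace SGT

section

variable {C N : Type} [Field C] [CharZero C] [IsAlgClosed C] [Field N] [Algebra C N]

/-- In the valuation ring: division by a local parameter. -/
theorem b4_div (hF : FF C N) {O : ValuationSubring N} (hO : IsPl C O) {s : N} (hs0 : s ≠ 0)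
    (hs : od C O s = 1) {y : N} (hy : y ∈ O) : ∃ (c : C) (w : N), w ∈ O ∧ y = algebraMap C N c + s * w := by
  have ho := od_spec hF hO
  obtain ⟨c, hc⟩ := ho.res y hy
  refine ⟨c, (y - algebraMap C N c) * s⁻¹, ?_, ?_⟩
  · rcases hc with hc | hc
    · rw [hc, zero_mul]
      exact O.zero_mem
    · have hne : y - algebraMap C N c ≠ 0 ∨ y - algebraMap C N c = 0 := by tauto
      rcases hne with hne | hne
      · have hsi : s⁻¹ ≠ 0 := inv_ne_zero hs0
        rw [ho.mem _ (mul_ne_zero hne hsi), ho.mul _ _ hne hsi, ord_inv ho hs0, hs]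
        omega
      · rw [hne, zero_mul]
        exact O.zero_mem
  · field_simp
    ring

/-- The condition: no pole outside the poles of `u`, and there a pole of order at most `m`. -/
def b4_P (C : Type) {N : Type} [Field C] [Field N] [Algebra C N] (u : N) (m : ℕ) (r : N) : Prop :=
  ∀ O : ValuationSubring N, IsPl C O → (u ∈ O → r ∈ O) ∧ (u ∉ O → r * u⁻¹ ^ m ∈ O)

theorem b4_res (hF : FF C N) {O : ValuationSubring N} (hO : IsPl C O) {y : N} (hy : y ∈ O) :
    ∃ c : C, y - algebraMap C N c ∈ O.nonunits := by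
  have ho := od_spec hF hO
  obtain ⟨c, hc⟩ := ho.res y hy
  refine ⟨c, ?_⟩
  by_cases h0 : y - algebraMap C N c = 0
  · rw [h0, ValuationSubring.mem_nonunits_iff, map_zero]
    exact zero_lt_one
  · rcases hc with hc | hc
    · exact absurd hc h0
    · rw [ValuationSubring.mem_nonunits_iff]
      have h1 : (y - algebraMap C N c)⁻¹ ∉ O := by
        rw [ho.mem _ (inv_ne_zero h0), ord_inv ho h0]
        omega
      rw [← ValuationSubring.valuation_le_one_iff, map_inv₀, not_le] at h1
      by_contra h2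
      exact absurd (inv_le_one_of_one_le₀ (not_lt.1 h2)) (not_le.2 h1)

/-- Integration of polynomials. -/
theorem b4_integral (D : Derivation C N N) (u : N) (hu : D u = 1) (q : C[X]) :
    ∃ Q : C[X], D (aeval u Q) = aeval u q := by
  induction q using Polynomial.induction_on' with
  | add p q hp hq =>
    obtain ⟨P, hP⟩ := hp
    obtain ⟨Q, hQ⟩ := hq
    exact ⟨P + Q, by rw [map_add, map_add, map_add, hP, hQ]⟩
  | monomial n a =>
    refine ⟨monomial (n + 1) (a / (n + 1)), ?_⟩
    rw [Derivation.map_aeval, hu, smul_eq_mul, mul_one, derivative_monomial]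
    have h : ((n : C) + 1) ≠ 0 := by exact_mod_cast Nat.succ_ne_zero n
    have e : a / ((n : C) + 1) * ((n + 1 : ℕ) : C) = a := by
      push_cast
      exact div_mul_cancel₀ a h
    rw [e, Nat.add_sub_cancel]

theorem b4_trans (D : Derivation C N N) (u : N) (hu : D u = 1) : Transcendental C u := by
  apply transc_of
  intro c hc
  rw [hc, D.map_algebraMap] at hu
  exact zero_ne_one hu

theorem b4_inv (D : Derivation C N N) (u : N) (hu : D u = 1) : D u⁻¹ = - u⁻¹ ^ 2 := by
  rw [Derivation.leibniz_inv, hu, smul_eq_mul, mul_one]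

/-- `D` preserves all places. -/
theorem b4_pres (h1a : st_B1a) (h1b : st_B1b) (D : Derivation C N N) (u : N) (hF : FF C N)
    (hu : D u = 1)
    (H : ∀ O : ValuationSubring N, IsPl C O →
      (∀ c : C, u - algebraMap C N c ∈ O.nonunits → od C O (u - algebraMap C N c) = 1) ∧
      (u⁻¹ ∈ O.nonunits → od C O u⁻¹ = 1))
    {O : ValuationSubring N} (hO : IsPl C O) : ∀ z ∈ O, D z ∈ O := by
  have htr := b4_trans D u hu
  set D' : Derivation ℤ N N := D.restrictScalars ℤ with hD'
  have hDD : ∀ z, D' z = D z := fun z => rfl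
  have hc : ∀ β : C, ∃ β' : C, D' (algebraMap C N β) = algebraMap C N β' := by
    intro β
    refine ⟨0, ?_⟩
    rw [hDD, D.map_algebraMap, map_zero]
  have hu0 : u ≠ 0 := by
    rintro rfl
    rw [map_zero] at hu
    exact zero_ne_one hu
  by_cases huO : u ∈ O
  · obtain ⟨c, hcc⟩ := b4_res hF hO huO
    have hM := h1a C N D' u hF hc htr (by
      rw [hDD, hu]
      exact Subalgebra.one_mem _) O hO huO
    have hs0 : u - algebraMap C N c ≠ 0 := by
      intro h
      rw [sub_eq_zero] at h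
      rw [h, D.map_algebraMap] at hu
      exact zero_ne_one hu
    have hDs : D' (u - algebraMap C N c) = 1 := by
      rw [hDD, map_sub, hu, D.map_algebraMap, sub_zero]
    have := (h1b C N D' (u - algebraMap C N c) O hF hc hO hcc hs0
      (Or.inr ⟨(H O hO).1 c hcc, by rw [hDs]; exact O.one_mem⟩) hM).1
    exact this
  · have hn : u⁻¹ ∈ O.nonunits := by
      rw [ValuationSubring.mem_nonunits_iff]
      have h1 : ¬ O.valuation u ≤ 1 := by rwa [ValuationSubring.valuation_le_one_iff]
      rw [map_inv₀]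
      exact inv_lt_one_of_one_lt₀ (not_le.1 h1)
    have hui : u⁻¹ ∈ O := ValuationSubring.nonunits_le hn
    have hDs : D' u⁻¹ = - u⁻¹ ^ 2 := b4_inv D u hu
    have hM := h1a C N D' u⁻¹ hF hc (transc_inv htr) (by
      rw [hDs]
      apply neg_mem
      apply pow_mem
      exact Algebra.self_mem_adjoin_singleton C u⁻¹) O hO hui
    have := (h1b C N D' u⁻¹ O hF hc hO hn (inv_ne_zero hu0)
      (Or.inr ⟨(H O hO).2 hn, by rw [hDs]; exact neg_mem (pow_mem hui 2)⟩) hM).1
    exact this

theorem b4_nonunits {O : ValuationSubring N} {u : N} (huO : u ∉ O) : u⁻¹ ∈ O.nonunits := by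
  rw [ValuationSubring.mem_nonunits_iff]
  have h1 : ¬ O.valuation u ≤ 1 := by rwa [ValuationSubring.valuation_le_one_iff]
  rw [map_inv₀]
  exact inv_lt_one_of_one_lt₀ (not_le.1 h1)

/-- The derivation lowers the pole order. -/
theorem b4_step (h1a : st_B1a) (h1b : st_B1b) (D : Derivation C N N) (u : N) (hF : FF C N)
    (hu : D u = 1)
    (H : ∀ O : ValuationSubring N, IsPl C O →
      (∀ c : C, u - algebraMap C N c ∈ O.nonunits → od C O (u - algebraMap C N c) = 1) ∧
      (u⁻¹ ∈ O.nonunits → od C O u⁻¹ = 1))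
    (m : ℕ) (r : N) (hr : b4_P C u (m + 1) r) : b4_P C u m (D r) := by
  intro O hO
  have hpres := b4_pres h1a h1b D u hF hu H hO
  have hu0 : u ≠ 0 := by
    rintro rfl
    rw [map_zero] at hu
    exact zero_ne_one hu
  refine ⟨fun huO => hpres r ((hr O hO).1 huO), fun huO => ?_⟩
  have hn := b4_nonunits huO
  have hui : u⁻¹ ∈ O := ValuationSubring.nonunits_le hn
  have hs := (H O hO).2 hn
  obtain ⟨c, w, hw, hy⟩ := b4_div hF hO (inv_ne_zero hu0) hs ((hr O hO).2 huO)
  have hDs := b4_inv D u hu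
  -- the derivative of `r u⁻¹ ^ (m + 1)` in two ways
  have e1 : D (r * u⁻¹ ^ (m + 1)) = D r * u⁻¹ ^ (m + 1) - (m + 1) * r * u⁻¹ ^ (m + 2) := by
    rw [D.leibniz, D.leibniz_pow, hDs]
    simp only [smul_eq_mul, Nat.add_sub_cancel, nsmul_eq_mul]
    push_cast
    ring
  have e2 : D (r * u⁻¹ ^ (m + 1)) = u⁻¹ * D w - u⁻¹ ^ 2 * w := by
    rw [hy, map_add, D.map_algebraMap, D.leibniz, hDs]
    simp only [smul_eq_mul]
    ring
  have e3 : D r * u⁻¹ ^ m = D w - u⁻¹ * w + (m + 1) * (r * u⁻¹ ^ (m + 1)) := by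
    have hui0 : u⁻¹ ≠ 0 := inv_ne_zero hu0
    apply mul_left_cancel₀ hui0
    have e4 : D r * u⁻¹ ^ (m + 1) = u⁻¹ * D w - u⁻¹ ^ 2 * w + (m + 1) * r * u⁻¹ ^ (m + 2) := by
      rw [← e2, e1]
      ring
    calc u⁻¹ * (D r * u⁻¹ ^ m) = D r * u⁻¹ ^ (m + 1) := by ring
      _ = u⁻¹ * D w - u⁻¹ ^ 2 * w + (m + 1) * r * u⁻¹ ^ (m + 2) := e4
      _ = u⁻¹ * (D w - u⁻¹ * w + (m + 1) * (r * u⁻¹ ^ (m + 1))) := by ring
  rw [e3]
  refine O.add_mem _ _ (sub_mem (hpres w hw) (O.mul_mem _ _ hui hw)) ?_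
  refine O.mul_mem _ _ ?_ ((hr O hO).2 huO)
  have : ((m : N) + 1) = ((m + 1 : ℕ) : N) := by push_cast; ring
  rw [this]
  exact natCast_mem O (m + 1)

theorem b4_poly (h1a : st_B1a) (h1b : st_B1b) (D : Derivation C N N) (u : N) (hF : FF C N)
    (hker : ∀ z : N, D z = 0 → ∃ c : C, z = algebraMap C N c)
    (hu : D u = 1)
    (H : ∀ O : ValuationSubring N, IsPl C O →
      (∀ c : C, u - algebraMap C N c ∈ O.nonunits → od C O (u - algebraMap C N c) = 1) ∧
      (u⁻¹ ∈ O.nonunits → od C O u⁻¹ = 1))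
    (m : ℕ) : ∀ r : N, b4_P C u m r → ∃ q : C[X], r = aeval u q := by
  induction m with
  | zero =>
    intro r hr
    obtain ⟨c, hc⟩ := mem_const (C := C) r (by
      intro O hO
      by_cases huO : u ∈ O
      · exact (hr O hO).1 huO
      · have := (hr O hO).2 huO
        rwa [pow_zero, mul_one] at this)
    exact ⟨Polynomial.C c, by rw [hc, aeval_C]⟩
  | succ m ih =>
    intro r hr
    obtain ⟨q, hq⟩ := ih (D r) (b4_step h1a h1b D u hF hu H m r hr)
    obtain ⟨Q, hQ⟩ := b4_integral D u hu q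
    obtain ⟨c, hc⟩ := hker (r - aeval u Q) (by rw [map_sub, hQ, hq, sub_self])
    refine ⟨Q + Polynomial.C c, ?_⟩
    rw [map_add, aeval_C, ← hc]
    ring

end

theorem R_B4 (h1a : st_B1a) (h1b : st_B1b) : st_B4 := by
  intro C N _ _ _ _ _ D u hF hker hu H z
  have htr := b4_trans D u hu
  have hu0 : u ≠ 0 := by
    rintro rfl
    rw [map_zero] at hu
    exact zero_ne_one hu
  obtain ⟨q, hq0, hq⟩ := rt_frac hF htr z
  set r := z * aeval u q with hr
  have hreg : ∀ O : ValuationSubring N, IsPl C O → u ∈ O → r ∈ O :=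
    fun O hO huO => (rt_mem u r).1 hq O hO.1 huO
  have hP : ∃ m : ℕ, b4_P C u m r := by
    by_cases hr0 : r = 0
    · refine ⟨0, fun O hO => ⟨fun _ => ?_, fun _ => ?_⟩⟩
      · rw [hr0]
        exact O.zero_mem
      · rw [hr0, zero_mul]
        exact O.zero_mem
    · have hfin := finite_ord hF hr0
      obtain ⟨m, hm⟩ : ∃ m : ℕ, ∀ O : ValuationSubring N, IsPl C O → -(m : ℤ) ≤ od C O r := by
        obtain ⟨m, hm⟩ := (hfin.image (fun O => (od C O r).natAbs)).bddAbove
        refine ⟨m, fun O hO => ?_⟩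
        by_cases h0 : od C O r = 0
        · rw [h0]
          omega
        · have : (od C O r).natAbs ≤ m := hm ⟨O, ⟨hO, h0⟩, rfl⟩
          omega
      refine ⟨m, fun O hO => ⟨hreg O hO, fun huO => ?_⟩⟩
      have ho := od_spec hF hO
      have hui0 : u⁻¹ ≠ 0 := inv_ne_zero hu0
      have hs := (H O hO).2 (b4_nonunits huO)
      rw [ho.mem _ (mul_ne_zero hr0 (pow_ne_zero _ hui0)),
        ho.mul _ _ hr0 (pow_ne_zero _ hui0), ord_pow ho hui0, hs]
      have := hm O hO
      omega
  obtain ⟨m, hm⟩ := hP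
  obtain ⟨q', hq'⟩ := b4_poly h1a h1b D u hF hker hu H m r hm
  have hne : aeval u q ≠ 0 := by
    intro h
    exact htr ⟨q, hq0, h⟩
  have hz : z = aeval u q' / aeval u q := by
    rw [← hq', hr]
    field_simp
  have hmem : ∀ p : C[X], aeval u p ∈ IntermediateField.adjoin C {u} := by
    intro p
    apply IntermediateField.algebra_adjoin_le_adjoin C {u}
    exact Polynomial.aeval_mem_adjoin_singleton C u
  rw [hz]
  exact div_mem (hmem q') (hmem q)

end SGT
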