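import Pool.Agent.SGT.StB

/-!
# [SGT-B6] spaces of functions with bounded poles (MP_3dd09b_ag)
-/

set_option autoImplicit false
set_option linter.unusedVariables false

open GT IsLocalRing Polynomial

namespace SGT

/-- Some place is a pole of the transcendental element `x`. -/
private theorem b6_pole {𝕜 N : Type} [Field 𝕜] [IsAlgClosed 𝕜] [Field N] [Algebra 𝕜 N] {x : N}
    (hx : Transcendental 𝕜 x) : ∃ O : ValuationSubring N, IsPl 𝕜 O ∧ x ∉ O := by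
  by_contra hcon
  push Not at hcon
  obtain ⟨c, hc⟩ := mem_const (C := 𝕜) x hcon
  exact hx (hc ▸ isAlgebraic_algebraMap c)

/-- An element of `Rt 𝕜 t` is regular at every place where `t` is regular. -/
private theorem b6_rt {𝕜 N : Type} [Field 𝕜] [Field N] [Algebra 𝕜 N] {t r : N}
    (hr : r ∈ Rt 𝕜 t) {O : ValuationSubring N} (hO : IsPl 𝕜 O) (ht : t ∈ O) : r ∈ O :=
  (rt_mem t r).1 hr O hO.1 ht

/-- An element which is regular at every place where `t` is regular lies in `Rt 𝕜 t`. -/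
private theorem b6_rt' {𝕜 N : Type} [Field 𝕜] [Field N] [Algebra 𝕜 N] {t r : N}
    (h : ∀ O : ValuationSubring N, IsPl 𝕜 O → t ∈ O → r ∈ O) : r ∈ Rt 𝕜 t := by
  refine (rt_mem t r).2 (fun V hV htV => ?_)
  by_cases hT : V = ⊤
  · rw [hT]
    exact ValuationSubring.mem_top r
  · exact h V ⟨hV, hT⟩ htV

/-- The space of functions with bounded poles. -/
private def b6_W (𝕜 : Type) {N : Type} [Field 𝕜] [Field N] [Algebra 𝕜 N] (x : N) (m : ℕ) :
    Submodule 𝕜 N where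
  carrier := {z : N | ∀ O : ValuationSubring N, IsPl 𝕜 O →
    (x ∈ O → z ∈ O) ∧ (x⁻¹ ∈ O → z * x⁻¹ ^ m ∈ O)}
  zero_mem' := fun O hO => ⟨fun _ => O.zero_mem, fun _ => by rw [zero_mul]; exact O.zero_mem⟩
  add_mem' := fun {a b} ha hb O hO => ⟨fun h => O.add_mem _ _ ((ha O hO).1 h) ((hb O hO).1 h),
    fun h => by rw [add_mul]; exact O.add_mem _ _ ((ha O hO).2 h) ((hb O hO).2 h)⟩
  smul_mem' := fun c z hz O hO => ⟨fun h => by
      rw [Algebra.smul_def]; exact O.mul_mem _ _ (hO.1 c) ((hz O hO).1 h),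
    fun h => by
      rw [Algebra.smul_def, mul_assoc]; exact O.mul_mem _ _ (hO.1 c) ((hz O hO).2 h)⟩

/-- Multiplication by `x⁻¹ ^ m` maps this space to `Rt 𝕜 x⁻¹`. -/
private noncomputable def b6_psi (𝕜 : Type) {N : Type} [Field 𝕜] [Field N] [Algebra 𝕜 N] (x : N)
    (m : ℕ) : b6_W 𝕜 x m →ₗ[𝕜] Rt 𝕜 x⁻¹ where
  toFun := fun z => ⟨(z : N) * x⁻¹ ^ m, b6_rt' fun O hO h => (z.2 O hO).2 h⟩
  map_add' := fun a b => Subtype.ext (by
    change ((a : N) + (b : N)) * x⁻¹ ^ m = (a : N) * x⁻¹ ^ m + (b : N) * x⁻¹ ^ m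
    ring)
  map_smul' := fun c z => Subtype.ext (by
    change (c • (z : N)) * x⁻¹ ^ m = c • ((z : N) * x⁻¹ ^ m)
    rw [smul_mul_assoc])

/-- [B6] Spaces of functions with bounded poles are finite-dimensional. -/
theorem R_B6 : st_B6 := by
  intro 𝕜 N _ _ _ _ _ x hF hx m
  refine ⟨b6_W 𝕜 x m, ?_, fun z => Iff.rfl⟩
  have hx0 : x ≠ 0 := by
    rintro rfl
    exact hx isAlgebraic_zero
  have ht : Transcendental 𝕜 x⁻¹ := transc_inv hx
  have : FiniteDimensional 𝕜 (Rt 𝕜 x⁻¹ ⧸ (Ideal.span {tt 𝕜 x⁻¹ ^ (m + 1)} : Ideal (Rt 𝕜 x⁻¹))) :=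
    (rt_quot hF ht (m + 1)).1
  have hinj : Function.Injective
      ((Ideal.Quotient.mkₐ 𝕜 (Ideal.span {tt 𝕜 x⁻¹ ^ (m + 1)} : Ideal (Rt 𝕜 x⁻¹))).toLinearMap ∘ₗ
        b6_psi 𝕜 x m) := by
    rw [← LinearMap.ker_eq_bot, LinearMap.ker_eq_bot']
    intro z hz
    have hz' : Ideal.Quotient.mk (Ideal.span {tt 𝕜 x⁻¹ ^ (m + 1)} : Ideal (Rt 𝕜 x⁻¹))
        (b6_psi 𝕜 x m z) = 0 := hz
    rw [Ideal.Quotient.eq_zero_iff_mem, Ideal.mem_span_singleton] at hz'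
    obtain ⟨r, hr⟩ := hz'
    have h1 : (z : N) * x⁻¹ ^ m = x⁻¹ ^ (m + 1) * (r : N) := congrArg Subtype.val hr
    have h2 : (z : N) = x⁻¹ * (r : N) := by
      have h3 : x⁻¹ ^ m ≠ 0 := pow_ne_zero _ (inv_ne_zero hx0)
      have h4 : (z : N) * x⁻¹ ^ m = (x⁻¹ * (r : N)) * x⁻¹ ^ m := by
        rw [h1]; ring
      exact mul_right_cancel₀ h3 h4
    have h5 : ∀ O : ValuationSubring N, IsPl 𝕜 O → (z : N) ∈ O := by
      intro O hO
      by_cases hxO : x ∈ O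
      · exact (z.2 O hO).1 hxO
      · have htO : x⁻¹ ∈ O := (O.mem_or_inv_mem x).resolve_left hxO
        rw [h2]
        exact O.mul_mem _ _ htO (b6_rt r.2 hO htO)
    obtain ⟨c, hc⟩ := mem_const (C := 𝕜) (z : N) h5
    obtain ⟨O, hO, hxO⟩ := b6_pole hx
    have htO : x⁻¹ ∈ O := (O.mem_or_inv_mem x).resolve_left hxO
    by_cases hc0 : c = 0
    · refine Subtype.ext ?_
      rw [hc, hc0, map_zero]
      rfl
    · exfalso
      apply hxO
      have h6 : x = (r : N) * algebraMap 𝕜 N c⁻¹ := by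
        have h7 : algebraMap 𝕜 N c ≠ 0 := (_root_.map_ne_zero (algebraMap 𝕜 N)).2 hc0
        rw [map_inv₀, ← hc]
        rw [← hc] at h7
        rw [eq_mul_inv_iff_mul_eq₀ h7, h2, ← mul_assoc, mul_inv_cancel₀ hx0, one_mul]
      rw [h6]
      exact O.mul_mem _ _ (b6_rt r.2 hO htO) (hO.1 _)
  exact FiniteDimensional.of_injective _ hinj

/-- [B6b] Every element of `N` is a quotient of an element of one of these spaces by a polynomial in
`x`. -/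
theorem R_B6b : st_B6b := by
  intro 𝕜 N _ _ _ _ _ x hF hx z
  obtain ⟨q, hq, hr⟩ := rt_frac hF hx z
  have hx0 : x ≠ 0 := by
    rintro rfl
    exact hx isAlgebraic_zero
  have hq0 : aeval x q ≠ 0 := fun h => hq (transcendental_iff.1 hx q h)
  by_cases hr0 : z * aeval x q = 0
  · refine ⟨q, 0, hq0, fun O hO => ⟨fun _ => ?_, fun _ => ?_⟩⟩
    · rw [hr0]; exact O.zero_mem
    · rw [hr0, zero_mul]; exact O.zero_mem
  obtain ⟨m, hm⟩ := ((finite_ord hF hr0).image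
    (fun O => (od 𝕜 O (z * aeval x q)).natAbs)).bddAbove
  refine ⟨q, m, hq0, fun O hO => ⟨fun hxO => b6_rt hr hO hxO, fun htO => ?_⟩⟩
  by_cases hxO : x ∈ O
  · exact O.mul_mem _ _ (b6_rt hr hO hxO) (pow_mem htO m)
  have ho : IsOrd 𝕜 O (od 𝕜 O) := od_spec hF hO
  have hi0 : x⁻¹ ≠ 0 := inv_ne_zero hx0
  have h1 : 1 ≤ od 𝕜 O x⁻¹ := by
    have h2 : ¬ 0 ≤ od 𝕜 O x := fun h => hxO ((ho.mem x hx0).2 h)
    have h3 : od 𝕜 O x⁻¹ = - od 𝕜 O x := ord_inv ho hx0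
    omega
  rw [ho.mem _ (mul_ne_zero hr0 (pow_ne_zero _ hi0)), ho.mul _ _ hr0 (pow_ne_zero _ hi0),
    ord_pow ho hi0]
  by_cases h4 : od 𝕜 O (z * aeval x q) = 0
  · rw [h4, zero_add]
    positivity
  · have h5 : (od 𝕜 O (z * aeval x q)).natAbs ≤ m := hm ⟨O, ⟨hO, h4⟩, rfl⟩
    have h6 : -(m : ℤ) ≤ od 𝕜 O (z * aeval x q) := by omega
    have h7 : (m : ℤ) * 1 ≤ (m : ℤ) * od 𝕜 O x⁻¹ :=
      mul_le_mul_of_nonneg_left h1 (by positivity)
    linarith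

end SGT
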