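import Pool.Agent.SGT.StB

/-!
# [SGT-B7] horizontal elements span (linear algebra) (MP_3dd09b_ag)
-/

set_option autoImplicit false
set_option linter.unusedVariables false

open GT IsLocalRing Polynomial

namespace SGT

/-- Functionals without a common zero span the dual space; take a basis of the dual space consisting of some
of them and the dual basis of `W`: its elements are horizontal. -/
theorem R_B7 : st_B7 := by
  intro 𝕜 W ι _ _ _ _ δ D φ h0 h1 hD hφ
  classical
  -- the functionals span the dual space
  have hspan : Submodule.span 𝕜 (Set.range φ) = (⊤ : Submodule 𝕜 (Module.Dual 𝕜 W)) := by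
    have h2 : (Submodule.span 𝕜 (Set.range φ)).dualCoannihilator = (⊥ : Submodule 𝕜 W) := by
      rw [eq_bot_iff]
      intro z hz
      rw [Submodule.mem_dualCoannihilator] at hz
      rw [Submodule.mem_bot]
      exact hφ z fun i => hz (φ i) (Submodule.subset_span ⟨i, rfl⟩)
    rw [← Subspace.dualCoannihilator_dualAnnihilator_eq (W := Submodule.span 𝕜 (Set.range φ)), h2,
      Submodule.dualAnnihilator_bot]
  obtain ⟨b, hb, hbs, hbl⟩ := exists_linearIndependent 𝕜 (Set.range φ)
  let B : Module.Basis b 𝕜 (Module.Dual 𝕜 W) := Module.Basis.mk hbl (by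
    rw [Subtype.range_coe, hbs, hspan])
  have hB : ∀ j : b, B j = (j : Module.Dual 𝕜 W) := fun j => Module.Basis.mk_apply _ _ j
  have : Finite b := Module.Finite.finite_basis B
  have : Fintype b := Fintype.ofFinite b
  -- the dual basis of `W`
  let w : b → W := fun l => (Module.evalEquiv 𝕜 W).symm (B.coord l)
  have hw : ∀ (l : b) (f : Module.Dual 𝕜 W), f (w l) = B.coord l f := by
    intro l f
    have h3 : Module.evalEquiv 𝕜 W (w l) = B.coord l := LinearEquiv.apply_symm_apply _ _
    rw [← h3]
    rfl
  have hz0 : ∀ z : W, (∀ j : b, (j : Module.Dual 𝕜 W) z = 0) → z = 0 := by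
    intro z hz
    apply hφ
    intro i
    have h4 : φ i ∈ Submodule.span 𝕜 b := by
      rw [hbs]
      exact Submodule.subset_span ⟨i, rfl⟩
    refine Submodule.span_induction (p := fun f _ => f z = 0) ?_ ?_ ?_ ?_ h4
    · intro f hf
      exact hz ⟨f, hf⟩
    · rfl
    · intro f g _ _ hf hg
      rw [LinearMap.add_apply, hf, hg, add_zero]
    · intro c f _ hf
      rw [LinearMap.smul_apply, hf, smul_zero]
  have hhor : ∀ l : b, D (w l) = 0 := by
    intro l
    apply hz0
    intro j
    obtain ⟨i, hi⟩ := hb j.2
    have h5 : φ i (w l) = if j = l then 1 else 0 := by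
      rw [hi, hw, ← hB j, Module.Basis.coord_apply, Module.Basis.repr_self, Finsupp.single_apply]
    rw [← hi, hD, h5]
    split_ifs
    · exact h1
    · exact h0
  rw [eq_top_iff]
  intro z _
  have h6 : z = ∑ l : b, ((l : Module.Dual 𝕜 W) z) • w l := by
    rw [← sub_eq_zero]
    apply hz0
    intro j
    rw [map_sub, map_sum, sub_eq_zero]
    have h7 : ∀ l : b, (j : Module.Dual 𝕜 W) (((l : Module.Dual 𝕜 W) z) • w l) =
        if l = j then (l : Module.Dual 𝕜 W) z else 0 := by
      intro l
      rw [map_smul, hw, ← hB j, Module.Basis.coord_apply, Module.Basis.repr_self,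
        Finsupp.single_apply, smul_eq_mul]
      by_cases h : j = l
      · rw [if_pos h, if_pos h.symm, mul_one]
      · rw [if_neg h, if_neg (fun h' => h h'.symm), mul_zero]
    rw [Finset.sum_congr rfl fun l _ => h7 l, Finset.sum_ite_eq' Finset.univ j]
    simp
  rw [h6]
  exact Submodule.sum_mem _ fun l _ => Submodule.smul_mem _ _ (Submodule.subset_span (hhor l))

end SGT
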