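import Pool.Agent.SGT.StB

/-!
# [SGT-B8] function fields with a derivation without poles (MP_3dd09b_ag)
-/

set_option autoImplicit false
set_option linter.unusedVariables false

open GT IsLocalRing Polynomial

namespace SGT

/-- The nonunits of a valuation ring. -/
private theorem b8_nu {N : Type} [Field N] (O : ValuationSubring N) {w : N} (hw : w ≠ 0) :
    w ∈ O.nonunits ↔ w⁻¹ ∉ O := by
  rw [ValuationSubring.mem_nonunits_iff, ← ValuationSubring.valuation_le_one_iff, map_inv₀, not_le]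
  have h0 : 0 < O.valuation w := zero_lt_iff.2 ((O.valuation.ne_zero_iff).2 hw)
  exact (one_lt_inv₀ h0).symm

/-- The nonunits are stable under subtraction. -/
private theorem b8_sub {N : Type} [Field N] (O : ValuationSubring N) {a b : N}
    (ha : a ∈ O.nonunits) (hb : b ∈ O.nonunits) : a - b ∈ O.nonunits := by
  rw [ValuationSubring.mem_nonunits_iff] at *
  exact Valuation.map_sub_lt _ ha hb

/-- The nonunits are stable under addition. -/
private theorem b8_add {N : Type} [Field N] (O : ValuationSubring N) {a b : N}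
    (ha : a ∈ O.nonunits) (hb : b ∈ O.nonunits) : a + b ∈ O.nonunits := by
  rw [ValuationSubring.mem_nonunits_iff] at *
  exact Valuation.map_add_lt _ ha hb

/-- The nonunits are an ideal. -/
private theorem b8_mul {N : Type} [Field N] (O : ValuationSubring N) {a b : N}
    (ha : a ∈ O) (hb : b ∈ O.nonunits) : a * b ∈ O.nonunits := by
  rw [ValuationSubring.mem_nonunits_iff, map_mul] at *
  rw [← ValuationSubring.valuation_le_one_iff] at ha
  exact (mul_le_of_le_one_left' ha).trans_lt hb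

section

variable {𝕜 N : Type} [Field 𝕜] [Field N] [Algebra 𝕜 N]

/-- The residue is unique. -/
private theorem b8_uniq {O : ValuationSubring N} (hO : IsPl 𝕜 O) {z : N} {c c' : 𝕜}
    (h : z - algebraMap 𝕜 N c ∈ O.nonunits) (h' : z - algebraMap 𝕜 N c' ∈ O.nonunits) : c = c' := by
  by_contra hne
  have h1 : algebraMap 𝕜 N (c - c') ∈ O.nonunits := by
    have := b8_sub O h' h
    rw [map_sub]
    convert this using 1
    ring
  have h2 : algebraMap 𝕜 N (c - c') ≠ 0 := by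
    intro h0
    exact sub_ne_zero.2 hne ((algebraMap 𝕜 N).injective (by rw [h0, map_zero]))
  rw [b8_nu O h2, ← map_inv₀] at h1
  exact h1 (hO.1 _)

/-- The residue exists. -/
private theorem b8_res [CharZero 𝕜] [IsAlgClosed 𝕜] (hF : FF 𝕜 N) {O : ValuationSubring N}
    (hO : IsPl 𝕜 O) {z : N} (hz : z ∈ O) : ∃ c : 𝕜, z - algebraMap 𝕜 N c ∈ O.nonunits := by
  have ho := od_spec hF hO
  obtain ⟨c, hc⟩ := ho.res z hz
  refine ⟨c, ?_⟩
  by_cases h0 : z - algebraMap 𝕜 N c = 0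
  · rw [h0, ValuationSubring.mem_nonunits_iff, map_zero]
    exact zero_lt_one
  · rcases hc with hc | hc
    · exact absurd hc h0
    · rw [b8_nu O h0, ho.mem _ (inv_ne_zero h0), ord_inv ho h0]
      omega

/-- Positive order. -/
private theorem b8_pos [CharZero 𝕜] [IsAlgClosed 𝕜] (hF : FF 𝕜 N) {O : ValuationSubring N}
    (hO : IsPl 𝕜 O) {z : N} (h0 : z ≠ 0) (hz : z ∈ O.nonunits) : od 𝕜 O z ≠ 0 := by
  have ho := od_spec hF hO
  rw [b8_nu O h0, ho.mem _ (inv_ne_zero h0), ord_inv ho h0] at hz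
  omega

/-- `x - c ≠ 0` for a transcendental `x`. -/
private theorem b8_ne {x : N} (hx : Transcendental 𝕜 x) (c : 𝕜) : x - algebraMap 𝕜 N c ≠ 0 := by
  intro h
  rw [sub_eq_zero] at h
  exact hx (h ▸ isAlgebraic_algebraMap c)

/-- There is a place over `x = c`. -/
private theorem b8_pl [IsAlgClosed 𝕜] {x : N} (hx : Transcendental 𝕜 x) (c : 𝕜) :
    ∃ O : ValuationSubring N, IsPl 𝕜 O ∧ x - algebraMap 𝕜 N c ∈ O.nonunits := by
  by_contra hno
  push Not at hno
  obtain ⟨a, ha⟩ := mem_const (C := 𝕜) (x - algebraMap 𝕜 N c)⁻¹ (by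
    intro O hO
    by_contra h
    exact hno O hO ((b8_nu O (b8_ne hx c)).2 h))
  refine b8_ne hx (c + a⁻¹) ?_
  rw [map_add, map_inv₀, ← ha, inv_inv]
  ring

variable [CharZero 𝕜] [IsAlgClosed 𝕜] {D : Derivation ℤ N N} {x : N}

/-- `D` preserves all places. -/
private theorem b8_D (h1a : st_B1a) (h1b : st_B1b) (hF : FF 𝕜 N)
    (hD : ∀ β : 𝕜, ∃ β' : 𝕜, D (algebraMap 𝕜 N β) = algebraMap 𝕜 N β') (hx : Transcendental 𝕜 x)
    (hDx : D x = 0) (hr : ∀ O : ValuationSubring N, IsPl 𝕜 O → ∀ β : 𝕜,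
      x - algebraMap 𝕜 N β ∈ O.nonunits → D (algebraMap 𝕜 N β) ≠ 0 →
      od 𝕜 O (x - algebraMap 𝕜 N β) = 1) {O : ValuationSubring N} (hO : IsPl 𝕜 O) :
    (∀ z ∈ O, D z ∈ O) ∧ ∀ β : 𝕜, x - algebraMap 𝕜 N β ∈ O.nonunits →
      D (algebraMap 𝕜 N β) = 0 → ∀ z ∈ O.nonunits, D z ∈ O.nonunits := by
  have key : ∀ β : 𝕜, x - algebraMap 𝕜 N β ∈ O.nonunits → (∀ z ∈ O, D z ∈ O) ∧
      (D (x - algebraMap 𝕜 N β) = 0 → ∀ z ∈ O.nonunits, D z ∈ O.nonunits) := by
    intro β hβ
    have hxO : x ∈ O := by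
      have := O.add_mem _ _ (O.nonunits_subset hβ) (hO.1 β)
      simpa using this
    refine h1b 𝕜 N D _ O hF hD hO hβ (b8_ne hx β) ?_
      (h1a 𝕜 N D x hF hD hx (by rw [hDx]; exact zero_mem _) O hO hxO)
    by_cases h0 : D (algebraMap 𝕜 N β) = 0
    · left
      rw [map_sub, hDx, h0, sub_zero]
    · right
      refine ⟨hr O hO β hβ h0, ?_⟩
      obtain ⟨β', hβ'⟩ := hD β
      rw [map_sub, hDx, zero_sub, hβ']
      exact O.neg_mem _ (hO.1 β')
  refine ⟨?_, fun β hβ h0 => (key β hβ).2 (by rw [map_sub, hDx, h0, sub_zero])⟩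
  by_cases hxO : x ∈ O
  · obtain ⟨β, hβ⟩ := b8_res hF hO hxO
    exact (key β hβ).1
  · have hx0 : x ≠ 0 := by
      rintro rfl
      exact hxO O.zero_mem
    have hi0 : x⁻¹ ≠ 0 := inv_ne_zero hx0
    have hin : x⁻¹ ∈ O.nonunits := by
      rw [b8_nu O hi0, inv_inv]
      exact hxO
    have hDi : D x⁻¹ = 0 := by
      rw [Derivation.leibniz_inv, hDx, smul_zero]
    have hti : Transcendental 𝕜 x⁻¹ := by
      intro h
      apply hx
      have := h.inv
      rwa [inv_inv] at this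
    exact (h1b 𝕜 N D _ O hF hD hO hin hi0 (Or.inl hDi)
      (h1a 𝕜 N D x⁻¹ hF hD hti (by rw [hDi]; exact zero_mem _) O hO (O.nonunits_subset hin))).1

end

theorem R_B8 (h1a : st_B1a) (h1b : st_B1b) (h6 : st_B6) (h6b : st_B6b) (h7 : st_B7) : st_B8 := by
  intro 𝕜 N _ _ _ _ _ D x hF hD hx hDx hr z
  have hP := fun (O : ValuationSubring N) (hO : IsPl 𝕜 O) => b8_D h1a h1b hF hD hx hDx hr hO
  obtain ⟨q, m, hq, hqW⟩ := h6b 𝕜 N x hF hx z
  obtain ⟨W, hWf, hW⟩ := h6 𝕜 N x hF hx m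
  have hDi : D x⁻¹ = 0 := by
    rw [Derivation.leibniz_inv, hDx, smul_zero]
  have hDim : D (x⁻¹ ^ m) = 0 := by
    rw [Derivation.leibniz_pow, hDi, smul_zero, smul_zero]
  have hDW : ∀ w ∈ W, D w ∈ W := by
    intro w hw
    rw [hW] at hw ⊢
    intro O hO
    refine ⟨fun h => (hP O hO).1 _ ((hw O hO).1 h), fun h => ?_⟩
    have h1 := (hP O hO).1 _ ((hw O hO).2 h)
    rw [Derivation.leibniz, hDim, smul_zero, zero_add, smul_eq_mul, mul_comm] at h1
    exact h1
  choose δ hδ using hD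
  have hδ0 : δ 0 = 0 := by
    apply (algebraMap 𝕜 N).injective
    rw [← hδ, map_zero, map_zero]
  have hδ1 : δ 1 = 0 := by
    apply (algebraMap 𝕜 N).injective
    rw [← hδ, map_one, map_zero, Derivation.map_one_eq_zero]
  have hmem : ∀ O : ValuationSubring N, IsPl 𝕜 O → ∀ β : 𝕜, x - algebraMap 𝕜 N β ∈ O.nonunits →
      ∀ w : W, (w : N) ∈ O := by
    intro O hO β hβ w
    have hxO : x ∈ O := by
      have := O.add_mem _ _ (O.nonunits_subset hβ) (hO.1 β)
      simpa using this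
    exact ((hW _).1 w.2 O hO).1 hxO
  have hres : ∀ i : {p : ValuationSubring N × 𝕜 // IsPl 𝕜 p.1 ∧
      x - algebraMap 𝕜 N p.2 ∈ p.1.nonunits ∧ D (algebraMap 𝕜 N p.2) = 0}, ∀ w : W,
      ∃ c : 𝕜, (w : N) - algebraMap 𝕜 N c ∈ i.1.1.nonunits := fun i w =>
    b8_res hF i.2.1 (hmem _ i.2.1 i.1.2 i.2.2.1 w)
  choose f hf using hres
  let φ : {p : ValuationSubring N × 𝕜 // IsPl 𝕜 p.1 ∧
      x - algebraMap 𝕜 N p.2 ∈ p.1.nonunits ∧ D (algebraMap 𝕜 N p.2) = 0} → W →ₗ[𝕜] 𝕜 := fun i =>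
    { toFun := f i
      map_add' := by
        intro a b
        refine b8_uniq i.2.1 (hf i (a + b)) ?_
        have h1 := b8_add _ (hf i a) (hf i b)
        rw [map_add, Submodule.coe_add]
        convert h1 using 1
        ring
      map_smul' := by
        intro c a
        refine b8_uniq i.2.1 (hf i (c • a)) ?_
        have h1 := b8_mul _ (i.2.1.1 c) (hf i a)
        rw [RingHom.id_apply, smul_eq_mul, map_mul, Submodule.coe_smul, Algebra.smul_def]
        convert h1 using 1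
        ring }
  have hspan := h7 𝕜 W _ δ (fun w => ⟨D w, hDW _ w.2⟩) φ hδ0 hδ1 (by
    intro i w
    refine b8_uniq i.2.1 (hf i _) ?_
    have h1 := (hP _ i.2.1).2 i.1.2 i.2.2.1 i.2.2.2 _ (hf i w)
    rw [map_sub, hδ] at h1
    exact h1) (by
    intro w hw
    by_contra hne
    have hne' : (w : N) ≠ 0 := fun h => hne (Subtype.ext h)
    have hex := fun n : ℕ => b8_pl hx (n : 𝕜)
    choose O hO hxO using hex
    have hinj : Function.Injective O := by
      intro a b hab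
      have h1 := hxO a
      rw [hab] at h1
      exact_mod_cast b8_uniq (hO b) h1 (hxO b)
    refine Set.infinite_of_injective_forall_mem hinj (s := {O : ValuationSubring N | IsPl 𝕜 O ∧
      od 𝕜 O (w : N) ≠ 0}) (fun n => ⟨hO n, b8_pos hF (hO n) hne' ?_⟩) (finite_ord hF hne')
    have hD0 : D (algebraMap 𝕜 N (n : 𝕜)) = 0 := by
      rw [map_natCast, Derivation.map_natCast]
    have h1 := hf ⟨(O n, (n : 𝕜)), hO n, hxO n, hD0⟩ w
    have h2 : f ⟨(O n, (n : 𝕜)), hO n, hxO n, hD0⟩ w = 0 := hw ⟨(O n, (n : 𝕜)), hO n, hxO n, hD0⟩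
    rw [h2, map_zero, sub_zero] at h1
    exact h1)
  have hle : Submodule.span 𝕜 {w : W | (⟨D w, hDW _ w.2⟩ : W) = 0} ≤
      (Subalgebra.toSubmodule (IntermediateField.adjoin 𝕜 {w : N | D w = 0}).toSubalgebra).comap
        W.subtype := by
    rw [Submodule.span_le]
    intro w hw
    have hw' : D (w : N) = 0 := congrArg Subtype.val hw
    exact IntermediateField.subset_adjoin 𝕜 _ hw'
  have hzW : z * aeval x q ∈ W := (hW _).2 hqW
  have h1 : z * aeval x q ∈ IntermediateField.adjoin 𝕜 {w : N | D w = 0} := by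
    have h2 : (⟨_, hzW⟩ : W) ∈ Submodule.span 𝕜 {w : W | (⟨D w, hDW _ w.2⟩ : W) = 0} := by
      rw [hspan]
      trivial
    exact hle h2
  have hxA : x ∈ IntermediateField.adjoin 𝕜 {w : N | D w = 0} :=
    IntermediateField.subset_adjoin 𝕜 _ hDx
  have hqA : aeval x q ∈ IntermediateField.adjoin 𝕜 {w : N | D w = 0} := by
    have h3 : Algebra.adjoin 𝕜 {x} ≤ (IntermediateField.adjoin 𝕜 {w : N | D w = 0}).toSubalgebra :=
      Algebra.adjoin_le (by rintro _ rfl; exact hxA)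
    exact h3 (aeval_mem_adjoin_singleton 𝕜 x)
  have h4 := div_mem h1 hqA
  rwa [mul_div_assoc, div_self hq, mul_one] at h4

end SGT
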