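import Pool.Agent.SGT.StA

/-!
# [SGT-C1] linear disjointness from a derivation (MP_3dd09b_ag)
-/

set_option autoImplicit false
set_option linter.unusedVariables false

open GT IsLocalRing Polynomial

namespace SGT

/-- Constants of `D` in `L` which are independent over `C` are independent over `𝕜`: induction on the
number of nonzero coefficients of a relation. -/
private theorem c1_key {C 𝕜 Ω ι : Type} [Field C] [Field 𝕜] [Field Ω] [Algebra C 𝕜] [Algebra 𝕜 Ω]
    [Algebra C Ω] [IsScalarTower C 𝕜 Ω] [Fintype ι] [DecidableEq ι] [DecidableEq 𝕜] (D : Derivation ℤ Ω Ω)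
    (h2 : ∀ β : 𝕜, ∃ β' : 𝕜, D (algebraMap 𝕜 Ω β) = algebraMap 𝕜 Ω β')
    (h3 : ∀ β : 𝕜, D (algebraMap 𝕜 Ω β) = 0 → ∃ c : C, algebraMap C 𝕜 c = β)
    (w : ι → Ω) (hw : ∀ i, D (w i) = 0) (hwi : LinearIndependent C w) :
    ∀ (N : ℕ) (γ : ι → 𝕜), (Finset.univ.filter fun i => γ i ≠ 0).card ≤ N →
      ∑ i, algebraMap 𝕜 Ω (γ i) * w i = 0 → ∀ i, γ i = 0 := by
  intro N
  induction N with
  | zero =>
    intro γ hc _ i
    by_contra hi
    have : i ∈ Finset.univ.filter fun i => γ i ≠ 0 := by simp [hi]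
    have h0 := Finset.card_pos.2 ⟨i, this⟩
    omega
  | succ N ih =>
    intro γ hc hs
    by_contra hne
    push Not at hne
    obtain ⟨i₀, hi₀⟩ := hne
    choose E hE using h2
    have hinj : Function.Injective (algebraMap 𝕜 Ω) := (algebraMap 𝕜 Ω).injective
    have hs1 : ∑ i, algebraMap 𝕜 Ω (γ i / γ i₀) * w i = 0 := by
      have : ∑ i, algebraMap 𝕜 Ω (γ i / γ i₀) * w i =
          algebraMap 𝕜 Ω (γ i₀)⁻¹ * ∑ i, algebraMap 𝕜 Ω (γ i) * w i := by
        rw [Finset.mul_sum]
        refine Finset.sum_congr rfl fun i _ => ?_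
        rw [div_eq_mul_inv, map_mul]
        ring
      rw [this, hs, mul_zero]
    have hD : ∑ i, algebraMap 𝕜 Ω (E (γ i / γ i₀)) * w i = 0 := by
      have h := congrArg D hs1
      rw [map_sum, map_zero] at h
      rw [← h]
      refine Finset.sum_congr rfl fun i _ => ?_
      rw [Derivation.leibniz, hw i, smul_zero, zero_add, hE, smul_eq_mul, mul_comm]
    have hE0 : E 0 = 0 := hinj (by rw [← hE]; simp)
    have hE1 : E 1 = 0 := hinj (by rw [← hE]; simp)
    have hz := ih (fun i => E (γ i / γ i₀)) (by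
      have hsub : (Finset.univ.filter fun i => E (γ i / γ i₀) ≠ 0) ⊆
          (Finset.univ.filter fun i => γ i ≠ 0).erase i₀ := by
        intro i hi
        rw [Finset.mem_filter] at hi
        rw [Finset.mem_erase, Finset.mem_filter]
        refine ⟨?_, Finset.mem_univ _, ?_⟩
        · rintro rfl
          exact hi.2 (by rw [div_self hi₀, hE1])
        · intro h0
          exact hi.2 (by rw [h0, zero_div, hE0])
      have h1 := Finset.card_le_card hsub
      rw [Finset.card_erase_of_mem (by simp [hi₀])] at h1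
      omega) hD
    have hcc : ∀ i, ∃ c : C, algebraMap C 𝕜 c = γ i / γ i₀ := fun i => h3 _ (by
      rw [hE, hz i, map_zero])
    choose c hc' using hcc
    have hsc : ∑ i, c i • w i = 0 := by
      rw [← hs1]
      refine Finset.sum_congr rfl fun i _ => ?_
      rw [← hc', ← IsScalarTower.algebraMap_apply, Algebra.smul_def]
    have h0 := Fintype.linearIndependent_iff.1 hwi c hsc i₀
    have h1 := hc' i₀
    rw [h0, map_zero, div_self hi₀] at h1
    exact zero_ne_one h1

theorem R_C1 : st_C1 := by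
  classical
  intro C 𝕜 Ω _ _ _ _ _ _ _ L D h1 h2 h3 n β z hβ hz hs
  set W : Submodule C Ω := Submodule.span C (Set.range z) with hW
  have hfin : Module.Finite C W := Module.Finite.iff_fg.2 (Submodule.fg_span (Set.finite_range z))
  let b := Module.finBasis C W
  have hbL : ∀ j, ((b j : W) : Ω) ∈ L := by
    intro j
    have hle : W ≤ L.toSubalgebra.toSubmodule := by
      rw [hW, Submodule.span_le]
      rintro _ ⟨i, rfl⟩
      exact hz i
    exact hle (b j).2
  have hbi : LinearIndependent C fun j => ((b j : W) : Ω) :=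
    b.linearIndependent.map' W.subtype (Submodule.ker_subtype W)
  have hzW : ∀ i, z i ∈ W := fun i => Submodule.subset_span ⟨i, rfl⟩
  let c : Fin n → Fin (Module.finrank C W) → C := fun i j => b.repr ⟨z i, hzW i⟩ j
  have hze : ∀ i, z i = ∑ j, algebraMap C Ω (c i j) * ((b j : W) : Ω) := by
    intro i
    have h := b.sum_repr ⟨z i, hzW i⟩
    have h' := congrArg (fun x : W => (x : Ω)) h
    simp only [Submodule.coe_sum, Submodule.coe_smul, Algebra.smul_def] at h'
    exact h'.symm
  have hrel : ∑ j, algebraMap 𝕜 Ω (∑ i, c i j • β i) * ((b j : W) : Ω) = 0 := by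
    rw [← hs]
    have e1 : ∀ j, algebraMap 𝕜 Ω (∑ i, c i j • β i) * ((b j : W) : Ω) =
        ∑ i, algebraMap 𝕜 Ω (β i) * (algebraMap C Ω (c i j) * ((b j : W) : Ω)) := by
      intro j
      rw [map_sum, Finset.sum_mul]
      refine Finset.sum_congr rfl fun i _ => ?_
      rw [Algebra.smul_def, map_mul, ← IsScalarTower.algebraMap_apply]
      ring
    simp_rw [e1]
    rw [Finset.sum_comm]
    refine Finset.sum_congr rfl fun i _ => ?_
    rw [← Finset.mul_sum, ← hze i]
  have hkey := c1_key D h2 h3 (fun j => ((b j : W) : Ω)) (fun j => h1 _ (hbL j)) hbi _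
    (fun j => ∑ i, c i j • β i) le_rfl hrel
  intro i
  rw [hze i]
  refine Finset.sum_eq_zero fun j _ => ?_
  rw [Fintype.linearIndependent_iff.1 hβ (fun i => c i j) (hkey j) i, map_zero, zero_mul]

end SGT
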