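import Pool.Agent.SGT.StA

/-!
# [SGT-C2] Gauss valuation; uniqueness of the extension of a place to 𝕜 L (MP_3dd09b_ag)
-/

set_option autoImplicit false
set_option linter.unusedVariables false

open GT IsLocalRing Polynomial

namespace SGT

/-- elements of a subfield contained in the valuation ring have valuation one -/
theorem c2_val_one {𝕜 Ω : Type} [Field 𝕜] [Field Ω] [Algebra 𝕜 Ω] (Q : ValuationSubring Ω)
    (hQ : ∀ β : 𝕜, algebraMap 𝕜 Ω β ∈ Q) (γ : 𝕜) (hγ : γ ≠ 0) : Q.valuation (algebraMap 𝕜 Ω γ) = 1 := by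
  have h1 : Q.valuation (algebraMap 𝕜 Ω γ) ≤ 1 := (Q.valuation_le_one_iff _).2 (hQ γ)
  have h2 : Q.valuation (algebraMap 𝕜 Ω γ⁻¹) ≤ 1 := (Q.valuation_le_one_iff _).2 (hQ γ⁻¹)
  have h3 : Q.valuation (algebraMap 𝕜 Ω γ) * Q.valuation (algebraMap 𝕜 Ω γ⁻¹) = 1 := by
    rw [← map_mul, ← map_mul, mul_inv_cancel₀ hγ, map_one, map_one]
  refine le_antisymm h1 ?_
  rw [← h3]
  exact mul_le_of_le_one_right' h2

/-- congruent elements have the same valuation if it is one -/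
theorem c2_val_of_sub {Ω : Type} [Field Ω] (Q : ValuationSubring Ω) (x y : Ω) (hy : Q.valuation y = 1)
    (h : Q.valuation (x - y) < 1) : Q.valuation x = 1 := by
  have h1 : Q.valuation (y + (x - y)) = Q.valuation y :=
    Valuation.map_add_eq_of_lt_left Q.valuation (h.trans_eq hy.symm)
  rw [add_sub_cancel, hy] at h1
  exact h1

/-- a product with a factor of valuation less than one -/
theorem c2_ml {Ω : Type} [Field Ω] (Q : ValuationSubring Ω) (x y : Ω) (hx : Q.valuation x ≤ 1)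
    (hy : Q.valuation y < 1) : Q.valuation (x * y) < 1 := by
  rw [map_mul]
  exact (mul_le_of_le_one_left' hx).trans_lt hy

/-- congruences may be multiplied -/
theorem c2_mul {Ω : Type} [Field Ω] (Q : ValuationSubring Ω) (x x' y y' : Ω) (hx : Q.valuation x' ≤ 1)
    (hy : Q.valuation y ≤ 1) (h : Q.valuation (x - x') < 1) (h' : Q.valuation (y - y') < 1) :
    Q.valuation (x * y - x' * y') < 1 := by
  have h1 : x * y - x' * y' = (x - x') * y + x' * (y - y') := by ring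
  rw [h1]
  refine Q.valuation.map_add_lt ?_ ?_
  · rw [mul_comm]
    exact c2_ml Q _ _ hy h
  · exact c2_ml Q _ _ hx h'

/-- congruences may be inverted -/
theorem c2_inv {Ω : Type} [Field Ω] (Q : ValuationSubring Ω) (x y : Ω) (hx : Q.valuation x = 1)
    (hy : Q.valuation y = 1) (h : Q.valuation (x - y) < 1) : Q.valuation (x⁻¹ - y⁻¹) < 1 := by
  have hx0 : x ≠ 0 := by
    intro h0
    rw [h0, map_zero] at hx
    exact zero_ne_one hx
  have hy0 : y ≠ 0 := by
    intro h0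
    rw [h0, map_zero] at hy
    exact zero_ne_one hy
  have h1 : x⁻¹ - y⁻¹ = -((x - y) * x⁻¹ * y⁻¹) := by
    field_simp
    ring
  rw [h1, Valuation.map_neg, map_mul, map_mul, map_inv₀, map_inv₀, hx, hy, inv_one, mul_one, mul_one]
  exact h

theorem R_C2 : st_C2 := by
  intro C 𝕜 Ω _ _ _ _ _ _ _ L Q hQ hRes n β z hβ hz
  obtain ⟨i, hi⟩ := Finite.exists_max (fun j => Q.valuation (z j))
  refine ⟨i, hi, ?_⟩
  by_cases hzi : z i = 0
  · have h0 : ∀ j, z j = 0 := by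
      intro j
      have h1 := hi j
      simp only [hzi, map_zero, le_zero_iff] at h1
      exact (map_eq_zero _).1 h1
    refine ⟨?_, fun h => absurd hzi h⟩
    have h2 : ∑ j, algebraMap 𝕜 Ω (β j) * z j = 0 := Finset.sum_eq_zero fun j _ => by rw [h0 j, mul_zero]
    rw [h2, hzi]
  · have hvi : Q.valuation (z i) ≠ 0 := (_root_.map_ne_zero _).2 hzi
    have hu : ∀ j, ∃ c : C, Q.valuation (z j / z i - algebraMap C Ω c) < 1 := by
      intro j
      have h1 : z j / z i ∈ Q := by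
        rw [← Q.valuation_le_one_iff, map_div₀]
        exact div_le_one_of_le₀ (hi j) zero_le
      obtain ⟨c, hc⟩ := hRes _ (L.div_mem (hz j) (hz i)) h1
      exact ⟨c, (Q.mem_nonunits_iff).1 hc⟩
    choose c hc using hu
    have hci : c i ≠ 0 := by
      intro h0
      have h1 := hc i
      rw [h0, map_zero, sub_zero, div_self hzi, map_one] at h1
      exact lt_irrefl _ h1
    have hγ : ∑ j, β j * algebraMap C 𝕜 (c j) ≠ 0 := by
      intro h0
      have h1 : ∑ j, c j • β j = 0 := by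
        rw [← h0]
        refine Finset.sum_congr rfl fun j _ => ?_
        rw [Algebra.smul_def, mul_comm]
      exact hci ((Fintype.linearIndependent_iff.1 hβ) c h1 i)
    have hsub : Q.valuation ((∑ j, algebraMap 𝕜 Ω (β j) * z j) / z i -
        algebraMap 𝕜 Ω (∑ j, β j * algebraMap C 𝕜 (c j))) < 1 := by
      have h1 : (∑ j, algebraMap 𝕜 Ω (β j) * z j) / z i - algebraMap 𝕜 Ω (∑ j, β j * algebraMap C 𝕜 (c j)) =
          ∑ j, algebraMap 𝕜 Ω (β j) * (z j / z i - algebraMap C Ω (c j)) := by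
        rw [map_sum, Finset.sum_div, ← Finset.sum_sub_distrib]
        refine Finset.sum_congr rfl fun j _ => ?_
        rw [map_mul, ← IsScalarTower.algebraMap_apply]
        ring
      rw [h1]
      refine Q.valuation.map_sum_lt one_ne_zero fun j _ => ?_
      exact c2_ml Q _ _ ((Q.valuation_le_one_iff _).2 (hQ _)) (hc j)
    have hv := c2_val_of_sub Q _ _ (c2_val_one Q hQ _ hγ) hsub
    refine ⟨?_, fun _ => ⟨_, hγ, (Q.mem_nonunits_iff).2 hsub⟩⟩
    rw [map_div₀, div_eq_one_iff_eq hvi] at hv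
    exact hv

/-- comparison of valuations on `L` -/
theorem c2_cmp {C Ω : Type} [Field C] [Field Ω] [Algebra C Ω] (L : IntermediateField C Ω)
    (Q Q' : ValuationSubring Ω) (h : Eqv (L : Set Ω) Q Q') (x y : Ω) (hx : x ∈ L) (hy : y ∈ L) (hy0 : y ≠ 0) :
    Q.valuation x ≤ Q.valuation y ↔ Q'.valuation x ≤ Q'.valuation y := by
  have key : ∀ P : ValuationSubring Ω, P.valuation x ≤ P.valuation y ↔ x / y ∈ P := by
    intro P
    rw [← P.valuation_le_one_iff, map_div₀, div_le_one₀ (lt_of_le_of_ne zero_le ((_root_.map_ne_zero _).2 hy0).symm)]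
  rw [key Q, key Q']
  exact h _ (L.div_mem hx hy)

/-- nonunits on `L` -/
theorem c2_nonunits {C Ω : Type} [Field C] [Field Ω] [Algebra C Ω] (L : IntermediateField C Ω)
    (Q Q' : ValuationSubring Ω) (h : Eqv (L : Set Ω) Q Q') (x : Ω) (hx : x ∈ L) (hxQ : x ∈ Q.nonunits) :
    x ∈ Q'.nonunits := by
  rw [ValuationSubring.mem_nonunits_iff] at hxQ ⊢
  by_cases h0 : x = 0
  · rw [h0, map_zero]
    exact zero_lt_one
  · have h1 : ¬ Q.valuation (1 : Ω) ≤ Q.valuation x := by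
      rw [map_one]
      exact not_le.2 hxQ
    rw [c2_cmp L Q Q' h 1 x L.one_mem hx h0, map_one] at h1
    exact not_le.1 h1

theorem R_C3 (h0 : st_C0) (h2 : st_C2) : st_C3 := by
  intro C 𝕜 Ω _ _ _ _ _ _ _ L Q hQ hRes
  refine ⟨?_, ?_, ?_⟩
  · intro Q' hQ' hE
    have hRes' : Res L Q' := by
      intro z hz hzQ'
      obtain ⟨c, hc⟩ := hRes z hz ((hE z hz).2 hzQ')
      exact ⟨c, c2_nonunits L Q Q' hE _ (L.sub_mem hz (L.algebraMap_mem c)) hc⟩
    intro z hz
    obtain ⟨n, β, a, b, hβ, ha, hb, hB, hzB⟩ := h0 C 𝕜 Ω L z hz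
    obtain ⟨i, hi, hiv, -⟩ := h2 C 𝕜 Ω L Q hQ hRes n β b hβ hb
    obtain ⟨j, hj, hjv, -⟩ := h2 C 𝕜 Ω L Q hQ hRes n β a hβ ha
    obtain ⟨i', hi', hiv', -⟩ := h2 C 𝕜 Ω L Q' hQ' hRes' n β b hβ hb
    obtain ⟨j', hj', hjv', -⟩ := h2 C 𝕜 Ω L Q' hQ' hRes' n β a hβ ha
    have hbi : b i ≠ 0 := by
      intro h
      rw [h, map_zero] at hiv
      exact hB ((map_eq_zero _).1 hiv)
    have hbi' : b i' ≠ 0 := by
      intro h
      rw [h, map_zero] at hiv'
      exact hB ((map_eq_zero _).1 hiv')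
    have hz1 : z = (∑ j, algebraMap 𝕜 Ω (β j) * a j) / (∑ j, algebraMap 𝕜 Ω (β j) * b j) := by
      rw [eq_div_iff hB]
      exact hzB
    have key : ∀ (P : ValuationSubring Ω) (k l : Fin (n + 1)), b k ≠ 0 →
        P.valuation (∑ j, algebraMap 𝕜 Ω (β j) * b j) = P.valuation (b k) →
        P.valuation (∑ j, algebraMap 𝕜 Ω (β j) * a j) = P.valuation (a l) →
        (z ∈ P ↔ P.valuation (a l) ≤ P.valuation (b k)) := by
      intro P k l hbk h1 h2
      rw [← P.valuation_le_one_iff, hz1, map_div₀, h1, h2,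
        div_le_one₀ (lt_of_le_of_ne zero_le ((_root_.map_ne_zero _).2 hbk).symm)]
    rw [key Q i j hbi hiv hjv, key Q' i' j' hbi' hiv' hjv']
    constructor
    · intro h3
      have h4 := (c2_cmp L Q Q' hE (a j') (b i) (ha _) (hb _) hbi).1 ((hj j').trans h3)
      exact h4.trans (hi' i)
    · intro h3
      have h4 := (c2_cmp L Q Q' hE (a j) (b i') (ha _) (hb _) hbi').2 ((hj' j).trans h3)
      exact h4.trans (hi i')
  · intro z hz
    obtain ⟨n, β, a, b, hβ, ha, hb, hB, hzB⟩ := h0 C 𝕜 Ω L z hz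
    obtain ⟨i, hi, hiv, -⟩ := h2 C 𝕜 Ω L Q hQ hRes n β b hβ hb
    obtain ⟨j, hj, hjv, -⟩ := h2 C 𝕜 Ω L Q hQ hRes n β a hβ ha
    have hz1 : z = (∑ j, algebraMap 𝕜 Ω (β j) * a j) / (∑ j, algebraMap 𝕜 Ω (β j) * b j) := by
      rw [eq_div_iff hB]
      exact hzB
    refine ⟨a j / b i, L.div_mem (ha _) (hb _), ?_⟩
    rw [hz1, map_div₀, map_div₀, hiv, hjv]
  · intro z hz hzQ
    by_cases hlt : Q.valuation z < 1
    · exact ⟨0, by rw [map_zero, sub_zero]; exact (Q.mem_nonunits_iff).2 hlt⟩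
    have hz1' : Q.valuation z = 1 := le_antisymm ((Q.valuation_le_one_iff _).2 hzQ) (not_lt.1 hlt)
    obtain ⟨n, β, a, b, hβ, ha, hb, hB, hzB⟩ := h0 C 𝕜 Ω L z hz
    obtain ⟨i, hi, hiv, hi3⟩ := h2 C 𝕜 Ω L Q hQ hRes n β b hβ hb
    obtain ⟨j, hj, hjv, hj3⟩ := h2 C 𝕜 Ω L Q hQ hRes n β a hβ ha
    set B := ∑ j, algebraMap 𝕜 Ω (β j) * b j with hBdef
    set A := ∑ j, algebraMap 𝕜 Ω (β j) * a j with hAdef
    have hbi : b i ≠ 0 := by
      intro h
      rw [h, map_zero] at hiv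
      exact hB ((map_eq_zero _).1 hiv)
    have hz1 : z = A / B := by
      rw [eq_div_iff hB]
      exact hzB
    have hab : Q.valuation (a j) = Q.valuation (b i) := by
      rw [hz1, map_div₀, hiv, hjv, div_eq_one_iff_eq ((_root_.map_ne_zero _).2 hbi)] at hz1'
      exact hz1'
    have haj : a j ≠ 0 := by
      intro h
      rw [h, map_zero] at hab
      exact hbi ((map_eq_zero _).1 hab.symm)
    obtain ⟨γ, hγ, hγ1⟩ := hj3 haj
    obtain ⟨δ, hδ, hδ1⟩ := hi3 hbi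
    rw [ValuationSubring.mem_nonunits_iff] at hγ1 hδ1
    have hq : Q.valuation (a j / b i) = 1 := by
      rw [map_div₀, hab, div_self ((_root_.map_ne_zero _).2 hbi)]
    obtain ⟨c, hc⟩ := hRes (a j / b i) (L.div_mem (ha _) (hb _)) ((Q.valuation_le_one_iff _).1 hq.le)
    rw [ValuationSubring.mem_nonunits_iff] at hc
    have vγ := c2_val_one Q hQ γ hγ
    have vδ := c2_val_one Q hQ δ hδ
    have vA := c2_val_of_sub Q _ _ vγ hγ1
    have vB := c2_val_of_sub Q _ _ vδ hδ1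
    have h3 := c2_inv Q _ _ vB vδ hδ1
    have h4 : Q.valuation (A / a j * (B / b i)⁻¹ - algebraMap 𝕜 Ω γ * (algebraMap 𝕜 Ω δ)⁻¹) < 1 := by
      refine c2_mul Q _ _ _ _ vγ.le ?_ hγ1 h3
      rw [map_inv₀, vB, inv_one]
    have h5 : Q.valuation (A / a j * (B / b i)⁻¹ * (a j / b i) -
        algebraMap 𝕜 Ω γ * (algebraMap 𝕜 Ω δ)⁻¹ * algebraMap C Ω c) < 1 := by
      refine c2_mul Q _ _ _ _ ?_ hq.le h4 hc
      rw [map_mul, map_inv₀, vγ, vδ, inv_one, mul_one]
    refine ⟨γ * δ⁻¹ * algebraMap C 𝕜 c, ?_⟩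
    rw [ValuationSubring.mem_nonunits_iff]
    have h6 : z - algebraMap 𝕜 Ω (γ * δ⁻¹ * algebraMap C 𝕜 c) = A / a j * (B / b i)⁻¹ * (a j / b i) -
        algebraMap 𝕜 Ω γ * (algebraMap 𝕜 Ω δ)⁻¹ * algebraMap C Ω c := by
      rw [hz1, map_mul, map_mul, map_inv₀, ← IsScalarTower.algebraMap_apply]
      congr 1
      field_simp
    rw [h6]
    exact h5

end SGT
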