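import Pool.Agent.SGT.StA

/-!
# [SGT-C4] existence of the extension of a place to 𝕜 L (MP_3dd09b_ag)
-/

set_option autoImplicit false
set_option linter.unusedVariables false

open GT IsLocalRing Polynomial

namespace SGT

/-- nonunits are closed under sums -/
private lemma c4_add {Ω : Type} [Field Ω] (P : ValuationSubring Ω) {x y : Ω}
    (hx : x ∈ P.nonunits) (hy : y ∈ P.nonunits) : x + y ∈ P.nonunits := by
  rw [ValuationSubring.mem_nonunits_iff] at *
  exact lt_of_le_of_lt (P.valuation.map_add x y) (max_lt hx hy)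

/-- the product of an element of `P` and a nonunit is a nonunit -/
private lemma c4_mul {Ω : Type} [Field Ω] (P : ValuationSubring Ω) {x y : Ω}
    (hx : x ∈ P) (hy : y ∈ P.nonunits) : x * y ∈ P.nonunits := by
  rw [ValuationSubring.mem_nonunits_iff] at *
  rw [map_mul]
  have h1 : P.valuation x ≤ 1 := (P.valuation_le_one_iff x).mpr hx
  calc P.valuation x * P.valuation y ≤ 1 * P.valuation y := by gcongr
    _ < 1 := by rwa [one_mul]

/-- finite sums of nonunits are nonunits -/
private lemma c4_sum {Ω : Type} [Field Ω] (P : ValuationSubring Ω) {ι : Type*} (s : Finset ι)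
    (f : ι → Ω) (hf : ∀ i ∈ s, f i ∈ P.nonunits) : ∑ i ∈ s, f i ∈ P.nonunits := by
  classical
  induction s using Finset.induction_on with
  | empty => simp [ValuationSubring.mem_nonunits_iff]
  | insert a s ha ih =>
    rw [Finset.sum_insert ha]
    exact c4_add P (hf a (Finset.mem_insert_self _ _)) (ih fun i hi => hf i (Finset.mem_insert_of_mem hi))

/-- `1` is not a `𝕜`-combination of nonunits of `P` in `L` -/
private lemma c4_one (C 𝕜 Ω : Type) [Field C] [Field 𝕜] [Field Ω] [Algebra C 𝕜] [Algebra 𝕜 Ω]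
    [Algebra C Ω] [IsScalarTower C 𝕜 Ω] (L : IntermediateField C Ω) (P : ValuationSubring Ω)
    (hL : LDJ C 𝕜 (L : Set Ω)) (hC : ∀ c : C, algebraMap C Ω c ∈ P) :
    (1 : Ω) ∉ Submodule.span 𝕜 {z : Ω | z ∈ L ∧ z ∈ P.nonunits} := by
  classical
  intro h1
  rw [Submodule.mem_span_set] at h1
  obtain ⟨c, hc, hs⟩ := h1
  set b := Module.Basis.ofVectorSpace C 𝕜 with hb
  set s := (b.repr 1).support ∪ c.support.biUnion (fun p => (b.repr (c p)).support) with hsdef
  -- expansion of an element of `𝕜` on `s`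
  have hexp : ∀ β : 𝕜, (b.repr β).support ⊆ s →
      ∑ j ∈ s, algebraMap 𝕜 Ω (b j) * algebraMap C Ω (b.repr β j) = algebraMap 𝕜 Ω β := by
    intro β hβ
    have h2 : ∑ j ∈ s, (b.repr β j) • b j = β := by
      conv_rhs => rw [← b.linearCombination_repr β]
      rw [Finsupp.linearCombination_apply, Finsupp.sum]
      symm
      apply Finset.sum_subset hβ
      intro j _ hj
      rw [Finsupp.notMem_support_iff.mp hj, zero_smul]
    conv_rhs => rw [← h2]
    rw [map_sum]
    refine Finset.sum_congr rfl fun j _ => ?_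
    rw [Algebra.smul_def, map_mul, ← IsScalarTower.algebraMap_apply, mul_comm]
  -- the coefficients
  set g : _ → Ω := fun j => algebraMap C Ω (b.repr 1 j) -
    ∑ p ∈ c.support, algebraMap C Ω (b.repr (c p) j) * p with hg
  have hgL : ∀ j, g j ∈ L := by
    intro j
    refine sub_mem (L.algebraMap_mem _) (sum_mem fun p hp => mul_mem (L.algebraMap_mem _) ?_)
    exact (hc hp).1
  have hsum : ∑ j ∈ s, algebraMap 𝕜 Ω (b j) * g j = 0 := by
    have e1 : ∑ j ∈ s, algebraMap 𝕜 Ω (b j) * g j =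
        (∑ j ∈ s, algebraMap 𝕜 Ω (b j) * algebraMap C Ω (b.repr 1 j)) -
        ∑ p ∈ c.support, (∑ j ∈ s, algebraMap 𝕜 Ω (b j) * algebraMap C Ω (b.repr (c p) j)) * p := by
      simp only [hg, mul_sub, Finset.sum_sub_distrib]
      congr 1
      simp only [Finset.mul_sum, Finset.sum_mul]
      rw [Finset.sum_comm]
      refine Finset.sum_congr rfl fun p _ => Finset.sum_congr rfl fun j _ => ?_
      ring
    rw [e1, hexp 1 Finset.subset_union_left, map_one]
    have e2 : ∑ p ∈ c.support, (∑ j ∈ s, algebraMap 𝕜 Ω (b j) * algebraMap C Ω (b.repr (c p) j)) * p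
        = 1 := by
      rw [← hs, Finsupp.sum]
      refine Finset.sum_congr rfl fun p hp => ?_
      rw [hexp (c p), Algebra.smul_def]
      exact (Finset.subset_biUnion_of_mem (fun p => (b.repr (c p)).support) hp).trans
        Finset.subset_union_right
    rw [e2, sub_self]
  -- linear disjointness
  have hzero : ∀ j ∈ s, g j = 0 := by
    have h3 := hL s.card (fun i => b (s.equivFin.symm i)) (fun i => g (s.equivFin.symm i))
      (b.linearIndependent.comp (fun i => ((s.equivFin.symm i : s) : _))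
        (fun i j hij => s.equivFin.symm.injective (Subtype.ext hij)))
      (fun i => hgL _) (by
        rw [← hsum, ← Finset.sum_coe_sort s (fun j => algebraMap 𝕜 Ω (b j) * g j)]
        exact Equiv.sum_comp s.equivFin.symm (fun j : s => algebraMap 𝕜 Ω (b j) * g j))
    intro j hj
    have h4 := h3 (s.equivFin ⟨j, hj⟩)
    simpa using h4
  -- a nonzero coefficient of `1`
  have h5 : b.repr (1 : 𝕜) ≠ 0 := by
    intro h
    exact one_ne_zero ((LinearEquiv.map_eq_zero_iff b.repr).mp h)
  obtain ⟨j, hj⟩ := Finsupp.support_nonempty_iff.mpr h5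
  have h6 := hzero j (Finset.mem_union_left _ hj)
  have h7 : algebraMap C Ω (b.repr 1 j) ∈ P.nonunits := by
    have : algebraMap C Ω (b.repr 1 j) = ∑ p ∈ c.support, algebraMap C Ω (b.repr (c p) j) * p :=
      sub_eq_zero.mp h6
    rw [this]
    exact c4_sum P _ _ fun p hp => c4_mul P (hC _) (hc hp).2
  have h8 : b.repr 1 j ≠ 0 := Finsupp.mem_support_iff.mp hj
  have h9 := c4_mul P (hC (b.repr 1 j)⁻¹) h7
  rw [← map_mul, inv_mul_cancel₀ h8, map_one, ValuationSubring.mem_nonunits_iff, map_one] at h9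
  exact lt_irrefl _ h9

theorem R_C4 : st_C4 := by
  intro C 𝕜 Ω _ _ _ _ _ _ _ L P hL hC
  classical
  -- the submonoid `P ∩ L`
  let A : Submonoid Ω := P.toSubring.toSubmonoid ⊓ L.toSubalgebra.toSubmonoid
  have hA : ∀ z, z ∈ A ↔ z ∈ P ∧ z ∈ L := fun z => Iff.rfl
  let R : Subalgebra 𝕜 Ω := Algebra.adjoin 𝕜 (A : Set Ω)
  have hRspan : Subalgebra.toSubmodule R = Submodule.span 𝕜 (A : Set Ω) := by
    have := Algebra.adjoin_eq_span 𝕜 (A : Set Ω)
    rw [Submonoid.closure_eq] at this
    exact this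
  set m : Set Ω := {z : Ω | z ∈ L ∧ z ∈ P.nonunits} with hm
  set J : Submodule 𝕜 Ω := Submodule.span 𝕜 m with hJ
  have hmul : ∀ r ∈ R, ∀ x ∈ J, r * x ∈ J := by
    intro r hr x hx
    have hr' : r ∈ Submodule.span 𝕜 (A : Set Ω) := by
      rw [← hRspan]; exact hr
    have h1 : r * x ∈ Submodule.span 𝕜 (A : Set Ω) * Submodule.span 𝕜 m :=
      Submodule.mul_mem_mul hr' hx
    rw [Submodule.span_mul_span] at h1
    refine Submodule.span_mono ?_ h1
    rintro _ ⟨a, ha, y, hy, rfl⟩
    exact ⟨mul_mem ha.2 hy.1, c4_mul P ha.1 hy.2⟩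
  let I : Ideal R.toSubring :=
    { carrier := {r | (r : Ω) ∈ J}
      add_mem' := fun {x y} hx hy => J.add_mem hx hy
      zero_mem' := J.zero_mem
      smul_mem' := fun r x hx => hmul r r.2 x hx }
  have hI : I ≠ ⊤ := by
    intro h
    have h1 : (1 : R.toSubring) ∈ I := by rw [h]; trivial
    exact c4_one C 𝕜 Ω L P hL hC h1
  obtain ⟨Q, hQ1, hQ2⟩ := Ideal.image_subset_nonunits_valuationSubring I hI
  refine ⟨Q, fun β => hQ1 (R.algebraMap_mem β), fun z hz => ?_⟩
  constructor
  · intro hzQ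
    by_contra hzP
    have h0 : z ≠ 0 := by
      rintro rfl
      exact hzP P.zero_mem
    have h1 : z⁻¹ ∈ P.nonunits := (P.inv_mem_nonunits_iff.mpr (Or.inr hzP))
    have h2 : z⁻¹ ∈ Q.nonunits := by
      refine hQ2 ⟨⟨z⁻¹, ?_⟩, ?_, rfl⟩
      · refine Algebra.subset_adjoin ((hA _).mpr ⟨?_, inv_mem hz⟩)
        exact (P.mem_or_inv_mem z).resolve_left hzP
      · exact Submodule.subset_span ⟨inv_mem hz, h1⟩
    rcases Q.inv_mem_nonunits_iff.mp h2 with h | h
    · exact h0 h
    · exact h hzQ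
  · intro hzP
    exact hQ1 (Algebra.subset_adjoin ((hA _).mpr ⟨hzP, hz⟩))

end SGT
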