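import Pool.Agent.SGT.StK

/-!
# [SGT-K1] concrete fields C, 𝕜, u (MP_3dd09b_ag)
-/

set_option autoImplicit false
set_option linter.unusedVariables false
set_option linter.unusedSectionVars false
set_option linter.style.haveILetI false

open GT IsLocalRing Polynomial SEC

namespace SGT

section k1

variable {k K₁ B K : Type} [Field k] [Field K₁] [Field B] [Field K] [Algebra k K₁] [Algebra k B]
  [Algebra k K] [Algebra B K] [Algebra K₁ K] [IsScalarTower k B K] [IsScalarTower k K₁ K]

/-- `C → 𝕜 → Ω` is `C → Ω`. -/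
private theorem k1_tower : letI := algCk k B K
    IsScalarTower (kb k K) (kb B K) (Om K) := by
  letI := algCk k B K
  exact IsScalarTower.of_algebraMap_eq fun x => rfl

/-- `K₁ → Ω` through `K`. -/
private theorem k1_K₁ (x : K₁) : algebraMap K₁ (Om K) x = algebraMap K (Om K) (algebraMap K₁ K x) :=
  IsScalarTower.algebraMap_apply K₁ K (Om K) x

/-- `B → 𝕜 → Ω` is `B → K → Ω`. -/
private theorem k1_B (x : B) :
    ((algebraMap B (kb B K) x : kb B K) : Om K) = algebraMap K (Om K) (algebraMap B K x) := by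
  change algebraMap B (Om K) x = _
  exact IsScalarTower.algebraMap_apply B K (Om K) x

/-- `u ^ m = t` in `Ω`. -/
private theorem k1_u {t : B} {m : ℕ} {u : kb B K} (hu : u ^ m = algebraMap B (kb B K) t) :
    (u : Om K) ^ m = algebraMap K (Om K) (algebraMap B K t) := by
  rw [← k1_B, ← hu]
  rfl

/-- `t` is transcendental over `K₁` in `Ω`. -/
private theorem k1_tr {t : B} {y : K} {h : K₁} {m : ℕ} (hT : Tw k K₁ B K t y h m) :
    Transcendental K₁ (algebraMap K (Om K) (algebraMap B K t)) := by
  intro hcon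
  have hinj : Function.Injective (algebraMap K (Om K)) := (algebraMap K (Om K)).injective
  exact hT.tr ((isAlgebraic_algebraMap_iff hinj).1 hcon)

/-- `u` is transcendental over `C`. -/
private theorem k1_transc {t : B} {y : K} {h : K₁} {m : ℕ} (hT : Tw k K₁ B K t y h m) {u : kb B K}
    (hu : u ^ m = algebraMap B (kb B K) t) : letI := algCk k B K
    Transcendental (kb k K) u := by
  letI := algCk k B K
  haveI : IsScalarTower (kb k K) (kb B K) (Om K) := k1_tower
  intro hcon
  have h1 : IsAlgebraic (kb k K) (u : Om K) :=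
    hcon.algebraMap (A := Om K)
  have h2 : IsAlgebraic (kb k K) ((u : Om K) ^ m) := h1.pow m
  have hal : Algebra.IsAlgebraic k (kb k K) := algebraicClosure.isAlgebraic k (Om K)
  have h3 : IsAlgebraic k ((u : Om K) ^ m) := h2.restrictScalars k
  rw [k1_u hu] at h3
  exact k1_tr hT (h3.tower_top K₁)

/-- The image of `B = k(t)` is in `C(u)`. -/
private theorem k1_BC {t : B} {y : K} {h : K₁} {m : ℕ} (hT : Tw k K₁ B K t y h m) {u : kb B K}
    (hu : u ^ m = algebraMap B (kb B K) t) : letI := algCk k B K
    ∀ z : B, algebraMap B (kb B K) z ∈ IntermediateField.adjoin (kb k K) {u} := by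
  letI := algCk k B K
  intro z
  have hz : z ∈ IntermediateField.adjoin k {t} := by
    rw [hT.gen]
    exact IntermediateField.mem_top
  refine IntermediateField.adjoin_induction k
    (p := fun z _ => algebraMap B (kb B K) z ∈ IntermediateField.adjoin (kb k K) {u})
    ?_ ?_ ?_ ?_ ?_ hz
  · intro x hx
    rw [Set.mem_singleton_iff] at hx
    rw [hx, ← hu]
    exact pow_mem (IntermediateField.mem_adjoin_simple_self _ u) m
  · intro a
    have h1 : algebraMap B (kb B K) (algebraMap k B a)
        = algebraMap (kb k K) (kb B K) (algebraMap k (kb k K) a) := by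
      apply Subtype.ext
      change algebraMap B (Om K) (algebraMap k B a) = algebraMap k (Om K) a
      rw [IsScalarTower.algebraMap_apply B K (Om K), ← IsScalarTower.algebraMap_apply k B K,
        ← IsScalarTower.algebraMap_apply k K (Om K)]
    rw [h1]
    exact IntermediateField.algebraMap_mem _ _
  · intro x y _ _ hx hy
    rw [map_add]
    exact add_mem hx hy
  · intro x _ hx
    rw [map_inv₀]
    exact inv_mem hx
  · intro x y _ _ hx hy
    rw [map_mul]
    exact mul_mem hx hy

/-- `𝕜` is algebraic over `C(u)`. -/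
private theorem k1_alg {t : B} {y : K} {h : K₁} {m : ℕ} (hT : Tw k K₁ B K t y h m) {u : kb B K}
    (hu : u ^ m = algebraMap B (kb B K) t) : letI := algCk k B K
    ∀ z : kb B K, IsAlgebraic (IntermediateField.adjoin (kb k K) {u}) z := by
  letI := algCk k B K
  intro z
  have hal : Algebra.IsAlgebraic B (kb B K) := algebraicClosure.isAlgebraic B (Om K)
  obtain ⟨p, hp0, hp⟩ := hal.isAlgebraic z
  let j : B →+* IntermediateField.adjoin (kb k K) {u} :=
    (algebraMap B (kb B K)).codRestrict (IntermediateField.adjoin (kb k K) {u}) (k1_BC hT hu)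
  refine ⟨p.map j, ?_, ?_⟩
  · rwa [Ne, Polynomial.map_eq_zero_iff j.injective]
  · rw [Polynomial.aeval_def, Polynomial.eval₂_map]
    exact hp

/-- `w ^ m = h`. -/
private theorem k1_w {t : B} {y : K} {h : K₁} {m : ℕ} (hT : Tw k K₁ B K t y h m) {u : kb B K}
    (hu : u ^ m = algebraMap B (kb B K) t) :
    (algebraMap K (Om K) y / (u : Om K)) ^ m = algebraMap K₁ (Om K) h := by
  have ht0 : algebraMap K (Om K) (algebraMap B K t) ≠ 0 := by
    intro h0
    refine k1_tr hT ?_
    rw [h0]
    exact isAlgebraic_zero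
  rw [div_pow, k1_u hu, ← map_pow, hT.eq, map_mul, mul_div_cancel_left₀ _ ht0]
  exact (k1_K₁ h).symm

/-- An automorphism which fixes `k` and `t` fixes `B`. -/
private theorem k1_fix {t : B} {y : K} {h : K₁} {m : ℕ} (hT : Tw k K₁ B K t y h m) {u : kb B K}
    (hu : u ^ m = algebraMap B (kb B K) t) (z : B) (τ : kb B K ≃+* kb B K)
    (hτ : ∀ a : k, τ (algebraMap k (kb B K) a) = algebraMap k (kb B K) a)
    (hτu : τ (u ^ m) = u ^ m) : τ (algebraMap B (kb B K) z) = algebraMap B (kb B K) z := by
  have hz : z ∈ IntermediateField.adjoin k {t} := by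
    rw [hT.gen]
    exact IntermediateField.mem_top
  refine IntermediateField.adjoin_induction k
    (p := fun z _ => τ (algebraMap B (kb B K) z) = algebraMap B (kb B K) z)
    ?_ ?_ ?_ ?_ ?_ hz
  · intro x hx
    rw [Set.mem_singleton_iff] at hx
    rw [hx, ← hu]
    exact hτu
  · intro a
    rw [← IsScalarTower.algebraMap_apply k B (kb B K)]
    exact hτ a
  · intro x y _ _ hx hy
    rw [map_add, map_add, hx, hy]
  · intro x _ hx
    rw [map_inv₀, map_inv₀, hx]
  · intro x y _ _ hx hy
    rw [map_mul, map_mul, hx, hy]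

/-- `K ⊆ 𝕜 E`. -/
private theorem k1_K {t : B} {y : K} {h : K₁} {m : ℕ} (hT : Tw k K₁ B K t y h m) {u : kb B K}
    (hu : u ^ m = algebraMap B (kb B K) t) (x : K) :
    algebraMap K (Om K) x ∈ IntermediateField.adjoin (kb B K) (E0 k K₁ K u y : Set (Om K)) := by
  have hu0 : (u : Om K) ≠ 0 := by
    intro h0
    have h1 := k1_u hu
    rw [h0, zero_pow hT.hm.ne'] at h1
    refine k1_tr hT ?_
    rw [← h1]
    exact isAlgebraic_zero
  have hx : x ∈ IntermediateField.adjoin B (Set.range (algebraMap K₁ K) ∪ {y}) := by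
    rw [hT.top]
    exact IntermediateField.mem_top
  have hβ : ∀ β : kb B K, (β : Om K) ∈
      IntermediateField.adjoin (kb B K) (E0 k K₁ K u y : Set (Om K)) := fun β =>
    IntermediateField.algebraMap_mem _ β
  refine IntermediateField.adjoin_induction B
    (p := fun z _ => algebraMap K (Om K) z ∈
      IntermediateField.adjoin (kb B K) (E0 k K₁ K u y : Set (Om K)))
    ?_ ?_ ?_ ?_ ?_ hx
  · rintro z (⟨a, rfl⟩ | hz)
    · refine IntermediateField.subset_adjoin _ _ ?_
      refine IntermediateField.subset_adjoin _ _ (Or.inl ?_)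
      rw [← k1_K₁]
      exact ⟨a, rfl⟩
    · rw [Set.mem_singleton_iff] at hz
      rw [hz]
      have h1 : algebraMap K (Om K) y / (u : Om K) ∈
          IntermediateField.adjoin (kb B K) (E0 k K₁ K u y : Set (Om K)) :=
        IntermediateField.subset_adjoin _ _ (IntermediateField.subset_adjoin _ _ (Or.inr rfl))
      have h2 := mul_mem h1 (hβ u)
      rwa [div_mul_cancel₀ _ hu0] at h2
  · intro b
    rw [← k1_B]
    exact hβ _
  · intro x y _ _ hx hy
    rw [map_add]
    exact add_mem hx hy
  · intro x _ hx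
    rw [map_inv₀]
    exact inv_mem hx
  · intro x y _ _ hx hy
    rw [map_mul]
    exact mul_mem hx hy

end k1

theorem R_K1 : st_K1 := by
  intro k K₁ B K _ _ _ _ _ _ _ _ _ _ _ _ t y h m hT
  letI := algCk k B K
  have hac : IsAlgClosed (kb B K) := SC2.kb_isAlgClosed
  refine ⟨SC2.kb_isAlgClosed, hac, algebraicClosure.isAlgebraic k (Om K), k1_tower,
    IsAlgClosed.exists_pow_nat_eq _ hT.hm, fun u hu => ?_⟩
  exact ⟨k1_transc hT hu, k1_alg hT hu, k1_w hT hu, fun z τ h1 h2 => k1_fix hT hu z τ h1 h2,
    fun x => k1_K hT hu x⟩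

end SGT
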