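import Pool.Agent.SGT.StK

/-!
# [SGT-K10a] a stable place gives a rational point (MP_3dd09b_ag)
-/

set_option autoImplicit false
set_option linter.unusedVariables false

open GT IsLocalRing Polynomial

namespace SGT

/-- A valuation ring of an algebraic extension of `K` which contains `K` is the whole field. -/
theorem k10a_top {K Ω : Type} [Field K] [Field Ω] [Algebra K Ω] [Algebra.IsAlgebraic K Ω]
    (Q : ValuationSubring Ω) (h : ∀ x : K, algebraMap K Ω x ∈ Q) : Q = ⊤ := by
  rw [eq_top_iff]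
  intro z _
  have hz : IsIntegral K z := (Algebra.IsAlgebraic.isAlgebraic (R := K) z).isIntegral
  obtain ⟨p, hp, hp0⟩ := hz
  let f : K →+* Q := (algebraMap K Ω).codRestrict Q h
  have hint : IsIntegral Q z := by
    refine ⟨p.map f, hp.map f, ?_⟩
    rw [Polynomial.eval₂_map]
    exact hp0
  obtain ⟨y, hy⟩ := (IsIntegrallyClosed.isIntegral_iff (R := Q) (K := Ω)).1 hint
  rw [← hy]
  exact y.2

/-- Differences of nonunits are nonunits. -/
theorem k10a_sub {Ω : Type} [Field Ω] (Q : ValuationSubring Ω) {a b : Ω} (ha : a ∈ Q.nonunits)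
    (hb : b ∈ Q.nonunits) : a - b ∈ Q.nonunits := by
  rw [ValuationSubring.mem_nonunits_iff] at ha hb ⊢
  exact lt_of_le_of_lt (Q.valuation.map_sub a b) (max_lt ha hb)

open SEC in
theorem R_K10a : st_K10a := by
  intro B K _ _ _ _ s H hH Q hQ hQt hst hres
  have halg : Algebra.IsAlgebraic K (Om K) :=
    (inferInstance : Algebra.IsAlgebraic K (AlgebraicClosure K))
  have hgal : IsGalois B (kb B K) := SC2.kb_isGalois
  have htower : ∀ a : B, algebraMap K (Om K) (algebraMap B K a) = algebraMap B (Om K) a := fun a =>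
    (IsScalarTower.algebraMap_apply B K (Om K) a).symm
  have hBQ : ∀ a : B, algebraMap B (Om K) a ∈ Q := fun a => hQ (algebraMap B (kb B K) a)
  -- nonunits of `Q` in `M` are preserved by `H`
  have hnon : ∀ g ∈ H, ∀ w ∈ Mnr B K, w ∈ Q.nonunits → g w ∈ Q.nonunits := by
    intro g hg w hw hwQ
    rw [ValuationSubring.mem_nonunits_iff_or] at hwQ ⊢
    rcases hwQ with h1 | h1
    · left
      rw [h1, map_zero]
    · right
      rw [← map_inv₀]
      exact fun h2 => h1 ((hst g hg _ (inv_mem hw)).1 h2)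
  let A : ValuationSubring K := Q.comap (algebraMap K (Om K))
  have hA : ∀ z : K, z ∈ A ↔ algebraMap K (Om K) z ∈ Q := fun z => Iff.rfl
  have hAn : ∀ z : K, algebraMap K (Om K) z ∈ Q.nonunits → z ∈ A.nonunits := by
    intro z hz
    rw [ValuationSubring.mem_nonunits_iff_or] at hz ⊢
    rcases hz with h1 | h1
    · left
      exact (map_eq_zero _).1 h1
    · right
      rw [hA, map_inv₀]
      exact h1
  have hrat : ∀ z ∈ A, ∃ a : B, z - algebraMap B K a ∈ A.nonunits := by
    intro z hz
    have hzM : algebraMap K (Om K) z ∈ Mnr B K := (Mnr B K).algebraMap_mem z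
    obtain ⟨β, hβ⟩ := hres _ hzM hz
    have hβM : (β : Om K) ∈ Mnr B K := kb_le _ β.2
    have hfix : ∀ τ : kb B K ≃ₐ[B] kb B K, τ β = β := by
      intro τ
      obtain ⟨g, hg, hg1, hg2⟩ := hH.ofS τ
      have h1 := hnon g hg _ (sub_mem hzM hβM) hβ
      rw [map_sub, hH.fixK g hg, hg1] at h1
      have h2 := k10a_sub Q hβ h1
      have h3 : ((τ β - β : kb B K) : Om K) = algebraMap K (Om K) z - (β : Om K)
          - (algebraMap K (Om K) z - (τ β : Om K)) := by
        have : ((τ β - β : kb B K) : Om K) = (τ β : Om K) - (β : Om K) := rfl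
        rw [this]
        ring
      rw [← h3, ValuationSubring.mem_nonunits_iff_or] at h2
      rcases h2 with h4 | h4
      · have h5 : τ β - β = 0 := Subtype.ext h4
        exact sub_eq_zero.1 h5
      · exfalso
        exact h4 (hQ (τ β - β)⁻¹)
    obtain ⟨a, ha⟩ := (InfiniteGalois.mem_range_algebraMap_iff_fixed β).2 hfix
    refine ⟨a, hAn _ ?_⟩
    rw [map_sub, htower]
    have h6 : algebraMap B (Om K) a = (β : Om K) := congrArg Subtype.val ha
    rw [h6]
    exact hβ
  have hAtop : A ≠ ⊤ := by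
    intro h
    apply hQt
    refine k10a_top (K := K) Q fun x => ?_
    rw [← hA, h]
    exact ValuationSubring.mem_top x
  refine ⟨⟨A, fun a => ?_, hAtop, hrat⟩, Set.mem_univ _, ?_⟩
  · rw [hA, htower]
    exact hBQ a
  · let Q' : ValuationSubring (SCJ.Om K) := Q
    let B' : ValuationSubring (FSC.MU B K Set.univ) :=
      Q'.comap (algebraMap (FSC.MU B K Set.univ) (SCJ.Om K))
    refine ⟨B', fun z => Iff.rfl, ?_⟩
    intro τ z
    obtain ⟨g, hg, hg1, hg2⟩ := hH.ofS τ
    have hzM : FSC.MMU.incl B K Set.univ z ∈ Mnr B K :=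
      fun Q' hQ' σ hσ => z.2 Q' hQ' (Set.mem_univ _) σ hσ
    have h1 := hst g hg _ hzM
    rw [hg2] at h1
    exact h1

end SGT
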