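import Pool.Agent.SGT.StK

/-!
# [SGT-K10b] the centraliser F(s) (MP_3dd09b_ag)
-/

set_option autoImplicit false
set_option linter.unusedVariables false

open GT IsLocalRing Polynomial

namespace SGT

open SEC in
/-- Automorphisms of `M_U` over `K` extend to `K^alg`. -/
private theorem k10b_extend {K : Type} [Field K] (M : IntermediateField K (Om K)) (γ : M ≃ₐ[K] M) :
    ∃ g : Om K ≃ₐ[K] Om K, ∀ z : M, g (z : Om K) = (γ z : Om K) := by
  have : Normal K (Om K) := (inferInstance : Normal K (AlgebraicClosure K))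
  exact ⟨γ.liftNormal (Om K), fun z => AlgEquiv.liftNormal_commutes γ (Om K) z⟩

open SEC in
/-- `Mnr ⊆ M_U`. -/
private theorem k10b_mem {B K : Type} [Field B] [Field K] [Algebra B K] {z : Om K}
    (hz : z ∈ Mnr B K) : z ∈ FSC.MU B K Set.univ := fun Q hQ _ σ hσ => hz Q hQ σ hσ

open SEC in
theorem R_K10b : st_K10b := by
  intro B K _ _ _ _ s H hH hyp
  ext γ
  constructor
  · intro hγ
    obtain ⟨g, hg⟩ := k10b_extend (FSC.MU B K Set.univ) γ
    have hg' : ∀ z : FSC.MMU B K Set.univ, g z.incl = (γ.act B K Set.univ z).incl := hg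
    -- the extension is trivial on `kbar`
    have hβ : ∀ β : kb B K, (g : Om K ≃+* Om K) (β : Om K) = (β : Om K) := by
      intro β
      have h1 := hg' (⟨(β : Om K), k10b_mem (kb_le _ β.2)⟩ : FSC.MU B K Set.univ)
      have h2 := hγ.1 (⟨(β : Om K), k10b_mem (kb_le _ β.2)⟩ : FSC.MU B K Set.univ) β.2
      rw [h2] at h1
      exact h1
    have hcomm : ∀ g' ∈ H, (∀ (ζ : kb B K) (n : ℕ), 0 < n → ζ ^ n = 1 →
        g' (ζ : Om K) = (ζ : Om K)) → ∀ z ∈ Mnr B K,
        (g : Om K ≃+* Om K) (g' z) = g' ((g : Om K ≃+* Om K) z) := by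
      intro g' hg'H hμ z hz
      obtain ⟨τ, h1, h2⟩ := hH.toS g' hg'H
      have h3 : s.toHom τ * γ = γ * s.toHom τ := by
        refine hγ.2 τ fun ζ n hn hζ => ?_
        have h4 := hμ ζ n hn hζ
        rw [h1] at h4
        exact Subtype.ext h4
      set w : FSC.MMU B K Set.univ := (⟨z, k10b_mem hz⟩ : FSC.MU B K Set.univ) with hw
      have e1 : g' z = ((s.toHom τ).act B K Set.univ w).incl := h2 w
      have e2 : g z = (γ.act B K Set.univ w).incl := hg' w
      have e3 : g (g' z) = (γ.act B K Set.univ ((s.toHom τ).act B K Set.univ w)).incl := by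
        rw [e1]
        exact hg' _
      have e4 : g' (g z) = ((s.toHom τ).act B K Set.univ (γ.act B K Set.univ w)).incl := by
        rw [e2]
        exact h2 _
      have e5 : (s.toHom τ).act B K Set.univ (γ.act B K Set.univ w)
          = γ.act B K Set.univ ((s.toHom τ).act B K Set.univ w) := by
        change (s.toHom τ * γ).act B K Set.univ w = (γ * s.toHom τ).act B K Set.univ w
        rw [h3]
      change g (g' z) = g' (g z)
      rw [e3, e4, e5]
    have hT := hyp (g : Om K ≃+* Om K) (fun x => g.commutes x) hβ hcomm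
    rw [Set.mem_singleton_iff]
    have hall : ∀ w : FSC.MMU B K Set.univ, γ.act B K Set.univ w = w := by
      intro w
      have hwM : w.incl ∈ Mnr B K := fun Q' hQ' σ hσ => w.2 Q' hQ' (Set.mem_univ _) σ hσ
      have h1 : g w.incl = w.incl := hT _ hwM
      have h2 := hg' w
      rw [h1] at h2
      exact Subtype.ext h2.symm
    exact AlgEquiv.ext hall
  · intro hγ
    rw [Set.mem_singleton_iff] at hγ
    subst hγ
    exact ⟨fun z _ => rfl, fun τ _ => by rw [mul_one, one_mul]⟩

end SGT
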