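import Pool.Agent.SGT.StK

/-!
# [SGT-K10c] the centraliser in the case of a twist (MP_3dd09b_ag)
-/

set_option autoImplicit false
set_option linter.unusedVariables false

open GT IsLocalRing Polynomial SEC

namespace SGT

/-- An automorphism of `Ω / K` preserves the maximal unramified extension: conjugation maps inertia
groups to inertia groups. -/
private theorem k10c_mnr {B K : Type} [Field B] [Field K] [Algebra B K] (γ : Om K ≃ₐ[K] Om K)
    {z : Om K} (hz : z ∈ Mnr B K) : γ z ∈ Mnr B K := by
  intro Q hQ σ hσ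
  set Q' : ValuationSubring (Om K) := Q.comap (γ : Om K →+* Om K) with hQ'
  have hmem : ∀ x : Om K, x ∈ Q' ↔ γ x ∈ Q := fun x => Iff.rfl
  have hnu : ∀ x : Om K, γ x ∈ Q.nonunits → x ∈ Q'.nonunits := by
    intro x hx
    by_cases h0 : x = 0
    · subst h0
      rw [ValuationSubring.mem_nonunits_iff]
      simp
    rw [ValuationSubring.mem_nonunits_iff] at hx ⊢
    by_contra hcon
    have h1 : 1 ≤ Q'.valuation x := not_lt.1 hcon
    have h2 : x⁻¹ ∈ Q' := by
      rw [← ValuationSubring.valuation_le_one_iff, map_inv₀]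
      exact inv_le_one_of_one_le₀ h1
    have h3 : γ x⁻¹ ∈ Q := (hmem _).1 h2
    rw [← ValuationSubring.valuation_le_one_iff, map_inv₀, map_inv₀] at h3
    have h4 : (0 : Q.ValueGroup) < Q.valuation (γ x) := by
      rw [zero_lt_iff]
      intro h
      have := (map_eq_zero Q.valuation).1 h
      exact h0 ((map_eq_zero γ).1 this)
    have h5 : 1 < (Q.valuation (γ x))⁻¹ := (one_lt_inv₀ h4).2 hx
    exact absurd h3 (not_le.2 h5)
  have hP : IsPlace B K Q' := by
    refine ⟨fun a => ?_, fun htop => hQ.2 ?_⟩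
    · rw [hmem, IsScalarTower.algebraMap_apply B K (Om K), γ.commutes,
        ← IsScalarTower.algebraMap_apply B K (Om K)]
      exact hQ.1 a
    · rw [eq_top_iff]
      intro x _
      have : γ.symm x ∈ Q' := by rw [htop]; exact ValuationSubring.mem_top _
      rw [hmem, γ.apply_symm_apply] at this
      exact this
  have hI : IsInert K Q' ((γ.trans σ).trans γ.symm) := by
    refine ⟨fun x => ?_, fun x hx => ?_⟩
    · rw [hmem, hmem]
      simp only [AlgEquiv.trans_apply, AlgEquiv.apply_symm_apply]
      exact hσ.1 (γ x)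
    · apply hnu
      rw [map_sub]
      simp only [AlgEquiv.trans_apply, AlgEquiv.apply_symm_apply]
      exact hσ.2 (γ x) hx
  have h := hz Q' hP _ hI
  simp only [AlgEquiv.trans_apply] at h
  have h' := congrArg γ h
  rwa [γ.apply_symm_apply] at h'

theorem R_K10c (h1 : st_K1) (h4 : st_K4) : st_K10c := by
  intro k K₁ B K _ _ _ _ _ _ _ _ _ _ _ _ t y h m hT H hH u hu hyp γ hγK hγB hcomm
  have hK1 : ∀ a : K₁, γ (algebraMap K₁ (Om K) a) = algebraMap K₁ (Om K) a := by
    intro a
    rw [IsScalarTower.algebraMap_apply K₁ K (Om K)]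
    exact hγK _
  have hkk : ∀ c : kb k K, γ (c : Om K) = (c : Om K) := fun c => hγB ⟨(c : Om K), kb_sub c.2⟩
  let γ' : Om K ≃ₐ[K] Om K := AlgEquiv.ofRingEquiv (f := γ) hγK
  let γ₁ : Om K ≃ₐ[K₁] Om K := AlgEquiv.ofRingEquiv (f := γ) hK1
  have hMn : ∀ z : Om K, γ z ∈ Mnr B K ↔ z ∈ Mnr B K := by
    intro z
    constructor
    · intro hz
      have := k10c_mnr (B := B) γ'.symm hz
      have h2 : γ'.symm (γ z) = z := γ'.symm_apply_apply z
      rwa [h2] at this
    · intro hz
      exact k10c_mnr (B := B) γ' hz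
  have hAl : ∀ z : Om K, IsAlgebraic K₁ (γ z) ↔ IsAlgebraic K₁ z := by
    intro z
    exact isAlgebraic_algHom_iff (γ₁ : Om K →ₐ[K₁] Om K) γ₁.injective
  have hE : Tri γ (E0 k K₁ K u y : Set (Om K)) := by
    intro z hz
    have hz' : z ∈ IntermediateField.adjoin (kb k K)
      ((F1 K₁ K : Set (Om K)) ∪ {algebraMap K (Om K) y / (u : Om K)}) := hz
    induction hz' using IntermediateField.adjoin_induction with
    | mem x hx =>
      rcases hx with hx | hx
      · obtain ⟨a, rfl⟩ := hx
        exact hK1 a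
      · rw [Set.mem_singleton_iff] at hx
        rw [hx, map_div₀, hγK, hγB]
    | algebraMap x => exact hkk x
    | add x y hx hy ihx ihy => rw [map_add, ihx hx, ihy hy]
    | inv x hx ihx => rw [map_inv₀, ihx hx]
    | mul x y hx hy ihx ihy => rw [map_mul, ihx hx, ihy hy]
  have hS : Sta γ (L0 k K₁ B K : Set (Om K)) := fun z => and_congr (hMn z) (hAl z)
  have hL : Tri γ (L0 k K₁ B K : Set (Om K)) := by
    refine hyp γ hE hS fun g hg hlin z hz => hcomm g hg ?_ z hz.1
    intro ζ n hn hζ
    have hint : IsIntegral k (ζ : Om K) := by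
      refine IsIntegral.of_pow hn ?_
      have : (ζ : Om K) ^ n = 1 := by
        have := congrArg (fun x : kb B K => (x : Om K)) hζ
        simpa using this
      rw [this]
      exact isIntegral_one
    exact hlin ⟨(ζ : Om K), mem_algebraicClosure_iff.2 hint.isAlgebraic⟩
  intro z hz
  have hz' := h4 k K₁ B K t y h m hT z hz
  clear hz
  induction hz' using IntermediateField.adjoin_induction with
  | mem x hx => exact hL x hx
  | algebraMap x => exact hγB x
  | add x y hx hy ihx ihy => rw [map_add, ihx, ihy]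
  | inv x hx ihx => rw [map_inv₀, ihx]
  | mul x y hx hy ihx ihy => rw [map_mul, ihx, ihy]

end SGT
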