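import Pool.Agent.SGT.StX

/-!
# [SGT-K11ax] main assembly for groups, both cases (MP_3dd09b_ag)
-/

set_option autoImplicit false
set_option linter.unusedVariables false

open GT IsLocalRing Polynomial SEC

namespace SGT

theorem R_K11ax (h11a : st_K11a) (hr5x : st_R5x) (hr6 : st_R6) (h1 : st_K1) (h1b : st_K1b)
    (h3 : st_K3) (h4 : st_K4) (h7x : st_K7x) (h9 : st_K9) (h10c : st_K10c) : st_K11ax := by
  intro k K₁ B K K₀ _ _ _ _ _ _ _ _ _ _ _ _ _ _ _ _ t y h m hT hPl w hw hw' ℓ a hℓ hlm hqm hbr H hH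
  rcases hbr with hbr | hbr
  · exact h11a k K₁ B K t y h m hT hPl ℓ a hℓ hqm hbr H hH
  let _ := algCk k B K
  have hB : CharZero B := charZero_of_injective_algebraMap (algebraMap k B).injective
  obtain ⟨i1, i2, i3, i4, ⟨u, hu⟩, hu'⟩ := h1 k K₁ B K t y h m hT
  have := i1
  have := i2
  have := i3
  have := i4
  have : IsAlgClosed (Om K) := (inferInstance : IsAlgClosed (AlgebraicClosure K))
  have hS := h9 k K₁ B K t y h m hT H hH u hu
  obtain ⟨P, hP, hPH, hc⟩ := hr5x k (kb k K) (kb B K) (Om K) (F1 K₁ K) (L0 k K₁ B K)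
    (E0 k K₁ K u y) u _ _ m H hS hPl ℓ hℓ hlm (h7x k K₁ B K K₀ t y h m hT w hw hw' ℓ hℓ hbr u hu)
  obtain ⟨Q, hQ, hQt, hQH, hQr⟩ := hr6 k (kb k K) (kb B K) (Om K) (F1 K₁ K) (L0 k K₁ B K)
    (E0 k K₁ K u y) u _ _ m H hS (h3 k K₁ B K t y h m hT) P hP hPH
  have hM := h4 k K₁ B K t y h m hT
  refine ⟨⟨Q, hQ, hQt, fun g hg z hz => hQH g hg z (hM z hz), fun z hz hzQ => hQr z (hM z hz) hzQ⟩, ?_⟩
  exact h10c k K₁ B K t y h m hT H hH u hu hc

end SGT
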