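import Pool.Agent.SGT.StX

/-!
# [SGT-K11x] final assembly, both cases (MP_3dd09b_ag)
-/

set_option autoImplicit false
set_option linter.unusedVariables false

open GT IsLocalRing Polynomial SEC

namespace SGT

theorem R_K11x (h8 : st_K8) (h10a : st_K10a) (h10b : st_K10b) (h11ax : st_K11ax) (h12 : st_K12) :
    st_K11x := by
  intro k K₁ B K K' K₀ _ _ _ _ _ _ _ _ _ _ _ _ _ _ _ _ _ _ _ _ t y h m hT hPl w hw hw' ℓ a hℓ hlm
    hqm hbr ι hι s
  have hB : CharZero B := charZero_of_injective_algebraMap (algebraMap k B).injective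
  obtain ⟨H', hH'⟩ := h8 B K' s
  obtain ⟨H, hH, hC⟩ := h12 B K K' ι hι s H' hH'
  obtain ⟨⟨Q, hQ, hQt, hQH, hQr⟩, hc⟩ :=
    hC (h11ax k K₁ B K K₀ t y h m hT hPl w hw hw' ℓ a hℓ hlm hqm hbr H hH)
  exact ⟨h10a B K' s H' hH' Q hQ hQt hQH hQr, h10b B K' s H' hH' hc⟩

end SGT
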