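import Pool.Agent.SGT.StK

/-!
# [SGT-K12] transport to an unramified extension (MP_3dd09b_ag)

`Φ : Om K' ≃+* Om K` extends `ι : K' → Om K`. It is compatible with `B` and `K`, maps the algebraic
closure of `B` onto the algebraic closure of `B`, places to places, and (as `ι K' ⊆ Mnr B K`) the
maximal unramified extension of `K'` onto the one of `K`. `H = Φ H' Φ⁻¹`.
-/

set_option autoImplicit false
set_option linter.unusedVariables false

open GT IsLocalRing Polynomial SEC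

noncomputable section

namespace SGT

section k12

variable {B K K' : Type} [Field B] [Field K] [Field K'] [Algebra B K]
  [Algebra B K'] [Algebra K K'] [IsScalarTower B K K']

omit [Field B] [Algebra B K] [Algebra B K'] [IsScalarTower B K K'] in
/-- The isomorphism of the algebraic closures. -/
private theorem k12_ex (ι : K' →ₐ[K] Om K) :
    ∃ Φ : Om K' ≃+* Om K, ∀ x : K', Φ (algebraMap K' (Om K') x) = ι x := by
  let _ : Algebra K' (Om K) := ι.toRingHom.toAlgebra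
  have h1 : IsScalarTower K K' (Om K) := IsScalarTower.of_algebraMap_eq fun x => (ι.commutes x).symm
  have h2 : Algebra.IsAlgebraic K' (Om K) := Algebra.IsAlgebraic.tower_top (K := K) K'
  have h3 : IsAlgClosure K' (Om K) := ⟨inferInstance, h2⟩
  exact ⟨(IsAlgClosure.equiv K' (Om K') (Om K)).toRingEquiv, fun x =>
    (IsAlgClosure.equiv K' (Om K') (Om K)).commutes x⟩

/-- The hypotheses on `Φ`. -/
private def k12_H (B : Type) {K K' : Type} [Field B] [Field K] [Field K'] [Algebra B K]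
    [Algebra B K'] [Algebra K K'] (ι : K' →ₐ[K] Om K) (Φ : Om K' ≃+* Om K) : Prop :=
  (∀ x : K', Φ (algebraMap K' (Om K') x) = ι x) ∧ ∀ z, ι z ∈ Mnr B K

variable {ι : K' →ₐ[K] Om K} {Φ : Om K' ≃+* Om K}

omit [IsScalarTower B K K'] in
/-- `Φ` is the identity on `K`. -/
private theorem k12_K (h : k12_H B ι Φ) (x : K) :
    Φ (algebraMap K' (Om K') (algebraMap K K' x)) = algebraMap K (Om K) x := by
  rw [h.1, ι.commutes]

/-- `Φ` is the identity on `B`. -/
private theorem k12_B (h : k12_H B ι Φ) (b : B) :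
    Φ (algebraMap B (Om K') b) = algebraMap B (Om K) b := by
  rw [IsScalarTower.algebraMap_apply B K' (Om K'), IsScalarTower.algebraMap_apply B K K',
    k12_K h, ← IsScalarTower.algebraMap_apply B K (Om K)]

/-- `Φ` as an isomorphism of `B`-algebras. -/
private def k12_A (h : k12_H B ι Φ) : Om K' ≃ₐ[B] Om K := AlgEquiv.ofRingEquiv (f := Φ) (k12_B h)

/-- `Φ` on the algebraic closures of `B`. -/
private theorem k12_kb (h : k12_H B ι Φ) (z : Om K') : Φ z ∈ kb B K ↔ z ∈ kb B K' :=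
  map_mem_algebraicClosure_iff (k12_A h).toAlgHom

/-- `Φ` as an isomorphism of the algebraic closures of `B`. -/
private theorem k12_E (h : k12_H B ι Φ) : ∃ e : kb B K' ≃ₐ[B] kb B K,
    (∀ z : kb B K', ((e z : kb B K) : Om K) = Φ (z : Om K')) ∧
    ∀ z : kb B K, Φ ((e.symm z : kb B K') : Om K') = (z : Om K) := by
  have h1 : ∀ z : kb B K', ((algebraicClosure.algEquivOfAlgEquiv (k12_A h) z : kb B K) : Om K) =
      Φ (z : Om K') := fun z => rfl
  refine ⟨algebraicClosure.algEquivOfAlgEquiv (k12_A h), h1, fun z => ?_⟩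
  rw [← h1, AlgEquiv.apply_symm_apply]

/-- Conjugation with `Φ`. -/
private def k12_c (Φ : Om K' ≃+* Om K) (g : Om K ≃+* Om K) : Om K' ≃+* Om K' :=
  (Φ.trans g).trans Φ.symm

/-- Conjugation with `Φ⁻¹`. -/
private def k12_d (Φ : Om K' ≃+* Om K) (g : Om K' ≃+* Om K') : Om K ≃+* Om K :=
  (Φ.symm.trans g).trans Φ

omit [Algebra K K'] in
private theorem k12_c_apply (g : Om K ≃+* Om K) (z : Om K') :
    Φ (k12_c Φ g z) = g (Φ z) := Φ.apply_symm_apply _

omit [Algebra K K'] in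
private theorem k12_d_apply (g : Om K' ≃+* Om K') (z : Om K') :
    k12_d Φ g (Φ z) = Φ (g z) := by
  change Φ (g (Φ.symm (Φ z))) = _
  rw [Φ.symm_apply_apply]

omit [Algebra K K'] in
private theorem k12_cd (g : Om K' ≃+* Om K') : k12_c Φ (k12_d Φ g) = g := by
  ext z
  apply Φ.injective
  rw [k12_c_apply, k12_d_apply]

omit [Algebra K K'] in
/-- Nonunits. -/
private theorem k12_nu (Q : ValuationSubring (Om K)) (z : Om K') :
    z ∈ (Q.comap (Φ : Om K' →+* Om K)).nonunits ↔ Φ z ∈ Q.nonunits := by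
  rw [ValuationSubring.mem_nonunits_iff_or, ValuationSubring.mem_nonunits_iff_or,
    ValuationSubring.mem_comap]
  change z = 0 ∨ Φ z⁻¹ ∉ Q ↔ _
  rw [map_inv₀, map_eq_zero_iff Φ Φ.injective]

omit [Algebra K K'] in
/-- Nontrivial valuation rings. -/
private theorem k12_top (Q : ValuationSubring (Om K)) (hQ : Q ≠ ⊤) :
    Q.comap (Φ : Om K' →+* Om K) ≠ ⊤ := by
  intro h
  apply hQ
  rw [eq_top_iff]
  intro x _
  have h1 : Φ.symm x ∈ Q.comap (Φ : Om K' →+* Om K) := by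
    rw [h]
    exact ValuationSubring.mem_top _
  have h2 : Φ (Φ.symm x) ∈ Q := h1
  rwa [Φ.apply_symm_apply] at h2

/-- Places. -/
private theorem k12_pl (h : k12_H B ι Φ) (Q : ValuationSubring (Om K)) (hQ : IsPlace B K Q) :
    IsPlace B K' (Q.comap (Φ : Om K' →+* Om K)) := by
  refine ⟨fun b => ?_, k12_top Q hQ.2⟩
  change Φ _ ∈ Q
  rw [k12_B h]
  exact hQ.1 b

/-- Places, in the other direction. -/
private theorem k12_pl' (h : k12_H B ι Φ) (Q : ValuationSubring (Om K')) (hQ : IsPlace B K' Q) :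
    IsPlace B K (Q.comap (Φ.symm : Om K →+* Om K')) := by
  refine ⟨fun b => ?_, k12_top Q hQ.2⟩
  change Φ.symm _ ∈ Q
  rw [← k12_B h, Φ.symm_apply_apply]
  exact hQ.1 b

/-- The maximal unramified extensions. -/
private theorem k12_Mnr (h : k12_H B ι Φ) (z : Om K') : Φ z ∈ Mnr B K ↔ z ∈ Mnr B K' := by
  constructor
  · intro hz Q hQ σ hσ
    -- `Φ σ Φ⁻¹` is inert at the image of `Q`
    let τ : Om K ≃ₐ[K] Om K := AlgEquiv.ofRingEquiv (f := k12_d Φ σ.toRingEquiv) (fun x => by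
      rw [← k12_K h, k12_d_apply]
      exact congrArg Φ (σ.commutes _))
    have hτ : ∀ x, τ (Φ x) = Φ (σ x) := fun x => k12_d_apply σ.toRingEquiv x
    have h1 : IsInert K (Q.comap (Φ.symm : Om K →+* Om K')) τ := by
      refine ⟨fun x => ?_, fun x hx => ?_⟩
      · obtain ⟨w, rfl⟩ := Φ.surjective x
        rw [hτ]
        change Φ.symm _ ∈ Q ↔ Φ.symm _ ∈ Q
        rw [Φ.symm_apply_apply, Φ.symm_apply_apply]
        exact hσ.1 w
      · obtain ⟨w, rfl⟩ := Φ.surjective x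
        have hx' : Φ.symm (Φ w) ∈ Q := hx
        rw [Φ.symm_apply_apply] at hx'
        rw [k12_nu (Φ := Φ.symm), hτ, map_sub, Φ.symm_apply_apply, Φ.symm_apply_apply]
        exact hσ.2 w hx'
    have h2 := hz _ (k12_pl' h Q hQ) τ h1
    rw [hτ] at h2
    exact Φ.injective h2
  · intro hz Q hQ σ hσ
    -- `Φ⁻¹ σ Φ` fixes `K'` and is inert at the preimage of `Q`
    let τ : Om K' ≃ₐ[K'] Om K' := AlgEquiv.ofRingEquiv (f := k12_c Φ σ.toRingEquiv) (fun x => by
      apply Φ.injective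
      rw [k12_c_apply, h.1]
      exact h.2 x Q hQ σ hσ)
    have hτ : ∀ x, Φ (τ x) = σ (Φ x) := fun x => k12_c_apply σ.toRingEquiv x
    have h1 : IsInert K' (Q.comap (Φ : Om K' →+* Om K)) τ := by
      refine ⟨fun x => ?_, fun x hx => ?_⟩
      · change Φ _ ∈ Q ↔ Φ _ ∈ Q
        rw [hτ]
        exact hσ.1 _
      · rw [k12_nu, map_sub, hτ]
        exact hσ.2 _ hx
    have h2 := hz _ (k12_pl h Q hQ) τ h1
    rw [← hτ, h2]

omit [Algebra K K'] in
/-- The group `Φ H' Φ⁻¹`. -/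
private def k12_G (Φ : Om K' ≃+* Om K) (H' : Subgroup (Om K' ≃+* Om K')) :
    Subgroup (Om K ≃+* Om K) where
  carrier := {g | k12_c Φ g ∈ H'}
  mul_mem' := by
    intro a b ha hb
    have h1 : k12_c Φ (a * b) = k12_c Φ a * k12_c Φ b := by
      ext z
      apply Φ.injective
      rw [k12_c_apply]
      change _ = Φ (k12_c Φ a (k12_c Φ b z))
      rw [k12_c_apply, k12_c_apply]
      rfl
    change k12_c Φ (a * b) ∈ H'
    rw [h1]
    exact H'.mul_mem ha hb
  one_mem' := by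
    have h1 : k12_c Φ (1 : Om K ≃+* Om K) = 1 := by
      ext z
      apply Φ.injective
      rw [k12_c_apply]
      rfl
    change k12_c Φ 1 ∈ H'
    rw [h1]
    exact H'.one_mem
  inv_mem' := by
    intro a ha
    have h1 : k12_c Φ a⁻¹ = (k12_c Φ a)⁻¹ := by
      rw [eq_inv_iff_mul_eq_one]
      ext z
      apply Φ.injective
      change Φ (k12_c Φ a⁻¹ (k12_c Φ a z)) = Φ z
      rw [k12_c_apply, k12_c_apply]
      exact a.symm_apply_apply _
    change k12_c Φ a⁻¹ ∈ H'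
    rw [h1]
    exact H'.inv_mem ha

/-- `Sec0` for the transported group. -/
private theorem k12_Sec0 (h : k12_H B ι Φ) (s : FSC.SectU B K' Set.univ)
    (H' : Subgroup (Om K' ≃+* Om K')) (hs : Sec B K' s H') : Sec0 B K (k12_G Φ H') := by
  obtain ⟨e, he1, he2⟩ := k12_E h
  refine ⟨fun g hg x => ?_, fun g hg => ?_, fun τ => ?_, fun z hz => ?_⟩
  · rw [← k12_K h, ← k12_c_apply, hs.fixK _ hg]
  · obtain ⟨τ, hτ, -⟩ := hs.toS _ hg
    refine ⟨(e.symm.trans τ).trans e, fun β => ?_⟩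
    change _ = ((e (τ (e.symm β)) : kb B K) : Om K)
    rw [he1, ← hτ, k12_c_apply, he2]
  · obtain ⟨g, hg, hgτ, -⟩ := hs.ofS ((e.trans τ).trans e.symm)
    refine ⟨k12_d Φ g, ?_, fun β => ?_⟩
    · change k12_c Φ (k12_d Φ g) ∈ H'
      rw [k12_cd]
      exact hg
    · have h1 := hgτ (e.symm β)
      change _ = ((e.symm (τ (e (e.symm β))) : kb B K') : Om K') at h1
      rw [AlgEquiv.apply_symm_apply] at h1
      rw [← he2 β, k12_d_apply, h1, he2]
  · obtain ⟨w, rfl⟩ := Φ.surjective z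
    obtain ⟨S, hS⟩ := hs.cont w ((k12_Mnr h w).1 hz)
    refine ⟨S.map e.toEquiv.toEmbedding, fun g hg hgS => ?_⟩
    have h1 := hS _ hg (fun β hβ => by
      apply Φ.injective
      rw [k12_c_apply, ← he1]
      exact hgS (e β) (Finset.mem_map_of_mem _ hβ))
    rw [← k12_c_apply, h1]

/-- The transport of the conclusion. -/
private theorem k12_Concl (h : k12_H B ι Φ) (H' : Subgroup (Om K' ≃+* Om K'))
    (hC : Concl B K (k12_G Φ H')) : Concl B K' H' := by
  obtain ⟨⟨Q, hQ1, hQ2, hQ3, hQ4⟩, hγ⟩ := hC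
  have hd : ∀ g ∈ H', k12_d Φ g ∈ k12_G Φ H' := by
    intro g hg
    change k12_c Φ (k12_d Φ g) ∈ H'
    rw [k12_cd]
    exact hg
  refine ⟨⟨Q.comap (Φ : Om K' →+* Om K), fun β => ?_, k12_top Q hQ2, fun g hg z hz => ?_,
    fun z hz hzQ => ?_⟩, fun γ hγ1 hγ2 hγ3 z hz => ?_⟩
  · exact hQ1 ⟨Φ (β : Om K'), (k12_kb h _).2 β.2⟩
  · change Φ _ ∈ Q ↔ Φ _ ∈ Q
    rw [← k12_d_apply]
    exact hQ3 _ (hd g hg) _ ((k12_Mnr h z).2 hz)
  · obtain ⟨β, hβ⟩ := hQ4 (Φ z) ((k12_Mnr h z).2 hz) hzQ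
    have h1 : Φ (Φ.symm (β : Om K)) = (β : Om K) := Φ.apply_symm_apply _
    refine ⟨⟨Φ.symm (β : Om K), (k12_kb h _).1 (by rw [h1]; exact β.2)⟩, ?_⟩
    rw [k12_nu, map_sub]
    change Φ z - Φ (Φ.symm (β : Om K)) ∈ _
    rw [h1]
    exact hβ
  · have h1 := hγ (k12_d Φ γ) (fun x => ?_) (fun β => ?_) (fun g hg hgζ w hw => ?_) (Φ z)
      ((k12_Mnr h z).2 hz)
    · rw [k12_d_apply] at h1
      exact Φ.injective h1
    · rw [← k12_K h, k12_d_apply, hγ1]
    · have h2 : Φ (Φ.symm (β : Om K)) = (β : Om K) := Φ.apply_symm_apply _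
      have h3 := hγ2 ⟨Φ.symm (β : Om K), (k12_kb h _).1 (by rw [h2]; exact β.2)⟩
      change γ (Φ.symm (β : Om K)) = Φ.symm (β : Om K) at h3
      rw [← h2, k12_d_apply, h3]
    · obtain ⟨v, rfl⟩ := Φ.surjective w
      have h2 := hγ3 (k12_c Φ g) hg (fun ζ n hn hζ => by
        apply Φ.injective
        rw [k12_c_apply]
        refine hgζ ⟨Φ (ζ : Om K'), (k12_kb h _).2 ζ.2⟩ n hn ?_
        apply Subtype.ext
        change Φ (ζ : Om K') ^ n = 1
        rw [← map_pow, ← map_one Φ]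
        exact congrArg Φ (congrArg (fun x : kb B K' => (x : Om K')) hζ)) v ((k12_Mnr h v).1 hw)
      rw [← k12_c_apply (Φ := Φ) g v, k12_d_apply, h2, k12_c_apply, k12_d_apply]

end k12

theorem R_K12 : st_K12 := by
  intro B K K' _ _ _ _ _ _ _ _ ι hι s H' hs
  obtain ⟨Φ, hΦ⟩ := k12_ex ι
  have h : k12_H B ι Φ := ⟨hΦ, hι⟩
  exact ⟨k12_G Φ H', k12_Sec0 h s H' hs, k12_Concl h H'⟩

end SGT
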