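import Pool.Agent.SGT.StK

/-!
# [SGT-K1b] concrete function fields; stable levels (MP_3dd09b_ag)
-/

set_option autoImplicit false
set_option linter.unusedVariables false
set_option linter.unusedSectionVars false

open GT IsLocalRing Polynomial

namespace SGT

/-- Algebraic over a subring whose image is contained in a bigger subring. -/
theorem k1b_alg_of {R S Ω : Type} [Field R] [Field S] [Field Ω] [Algebra R Ω] [Algebra S Ω]
    (h : ∀ r : R, ∃ s : S, algebraMap S Ω s = algebraMap R Ω r) {z : Ω} (hz : IsAlgebraic R z) :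
    IsAlgebraic S z := by
  choose f hf using h
  let φ : R →+* S :=
    { toFun := f
      map_one' := (algebraMap S Ω).injective (by rw [hf, map_one, map_one])
      map_mul' := fun a b => (algebraMap S Ω).injective (by rw [hf, map_mul, map_mul, hf, hf])
      map_zero' := (algebraMap S Ω).injective (by rw [hf, map_zero, map_zero])
      map_add' := fun a b => (algebraMap S Ω).injective (by rw [hf, map_add, map_add, hf, hf]) }
  obtain ⟨p, hp0, hp⟩ := hz
  refine ⟨p.map φ, ?_, ?_⟩
  · rw [Ne, Polynomial.map_eq_zero]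
    exact hp0
  · rw [Polynomial.aeval_def, Polynomial.eval₂_map]
    have h3 : (algebraMap S Ω).comp φ = algebraMap R Ω := by
      ext c
      exact hf c
    rw [h3, ← Polynomial.aeval_def, hp]

/-- Generators of `C K₁`. -/
theorem k1b_gen {k K₁ C Ω : Type} [Field k] [Field K₁] [Field C] [Field Ω] [Algebra k K₁]
    [Algebra k C] [Algebra C Ω] [Algebra k Ω] [Algebra K₁ Ω] [IsScalarTower k C Ω]
    [IsScalarTower k K₁ Ω] {x : K₁} (hfin : FiniteDimensional (IntermediateField.adjoin k {x}) K₁) :
    ∃ s : Finset Ω, (∀ y ∈ s, IsAlgebraic (IntermediateField.adjoin C {algebraMap K₁ Ω x}) y) ∧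
      IntermediateField.adjoin C (Set.range (algebraMap K₁ Ω)) =
        IntermediateField.adjoin C (insert (algebraMap K₁ Ω x) (s : Set Ω)) := by
  classical
  let x' : Ω := algebraMap K₁ Ω x
  let ι := Fin (Module.finrank (IntermediateField.adjoin k {x}) K₁)
  let e : Module.Basis ι (IntermediateField.adjoin k {x}) K₁ := Module.finBasis _ _
  let s : Finset Ω := Finset.univ.image fun j => algebraMap K₁ Ω (e j)
  have hmem : ∀ c ∈ IntermediateField.adjoin k {x},
      algebraMap K₁ Ω c ∈ IntermediateField.adjoin C {x'} := by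
    intro c hc
    have h1 : (IntermediateField.adjoin k {x}) ≤
        ((IntermediateField.adjoin C {x'}).restrictScalars k).comap
          (IsScalarTower.toAlgHom k K₁ Ω) := by
      rw [IntermediateField.adjoin_le_iff]
      intro y hy
      rw [Set.mem_singleton_iff] at hy
      subst hy
      exact IntermediateField.mem_adjoin_simple_self C x'
    exact h1 hc
  refine ⟨s, ?_, ?_⟩
  · intro y hy
    rw [Finset.mem_image] at hy
    obtain ⟨j, _, rfl⟩ := hy
    have halg : IsAlgebraic (IntermediateField.adjoin k {x}) (e j) :=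
      Algebra.IsAlgebraic.isAlgebraic _
    obtain ⟨p, hp0, hp⟩ := halg
    let φ : IntermediateField.adjoin k {x} →+* IntermediateField.adjoin C {x'} :=
      { toFun := fun c => ⟨algebraMap K₁ Ω c, hmem _ c.2⟩
        map_one' := Subtype.ext (map_one _)
        map_mul' := fun a b => Subtype.ext (map_mul _ _ _)
        map_zero' := Subtype.ext (map_zero _)
        map_add' := fun a b => Subtype.ext (map_add _ _ _) }
    refine ⟨p.map φ, ?_, ?_⟩
    · rw [Ne, Polynomial.map_eq_zero]
      exact hp0
    · rw [Polynomial.aeval_def, Polynomial.eval₂_map]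
      have h3 : (algebraMap (IntermediateField.adjoin C {x'}) Ω).comp φ =
          (algebraMap K₁ Ω).comp (algebraMap (IntermediateField.adjoin k {x}) K₁) := by
        ext c
        rfl
      rw [h3, ← Polynomial.hom_eval₂, ← Polynomial.aeval_def, hp, map_zero]
  · apply le_antisymm
    · rw [IntermediateField.adjoin_le_iff]
      rintro _ ⟨y, rfl⟩
      have hxle : IntermediateField.adjoin C {x'} ≤
          IntermediateField.adjoin C (insert x' (s : Set Ω)) :=
        IntermediateField.adjoin.mono C _ _ (Set.singleton_subset_iff.2 (Set.mem_insert _ _))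
      have h2 : algebraMap K₁ Ω y =
          ∑ j, algebraMap K₁ Ω (e.repr y j : K₁) * algebraMap K₁ Ω (e j) := by
        conv_lhs => rw [← e.sum_repr y]
        rw [map_sum]
        apply Finset.sum_congr rfl
        intro j _
        rw [← map_mul]
        rfl
      rw [SetLike.mem_coe, h2]
      apply sum_mem
      intro j _
      apply mul_mem
      · exact hxle (hmem _ (e.repr y j).2)
      · apply IntermediateField.subset_adjoin
        apply Set.mem_insert_of_mem
        rw [Finset.mem_coe]
        exact Finset.mem_image_of_mem _ (Finset.mem_univ j)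
    · rw [IntermediateField.adjoin_le_iff]
      intro y hy
      rcases Set.mem_insert_iff.1 hy with rfl | hy
      · exact IntermediateField.subset_adjoin _ _ ⟨x, rfl⟩
      · rw [Finset.mem_coe, Finset.mem_image] at hy
        obtain ⟨j, _, rfl⟩ := hy
        exact IntermediateField.subset_adjoin _ _ ⟨e j, rfl⟩

/-- The exchange property. -/
theorem k1b_exch {k K₁ Ω : Type} [Field k] [Field K₁] [Field Ω] [Algebra k K₁] [Algebra k Ω]
    [Algebra K₁ Ω] [IsScalarTower k K₁ Ω] {x : K₁} {t : Ω} (hx : Transcendental k x)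
    (ht : Transcendental K₁ t) :
    Transcendental (IntermediateField.adjoin k {t}) (algebraMap K₁ Ω x) := by
  have h1 : AlgebraicIndependent k (fun _ : Unit => x) :=
    (algebraicIndependent_unique_type_iff (R := k) (x := fun _ : Unit => x)).2 hx
  have h2 : AlgebraicIndependent K₁ (fun _ : Unit => t) :=
    (algebraicIndependent_unique_type_iff (R := K₁) (x := fun _ : Unit => t)).2 ht
  have h3 := h1.sumElim_comp h2
  have h4 := h3.transcendental_adjoin (s := {Sum.inl ()}) (i := Sum.inr ()) (by simp)
  have key : ∀ S : Set Ω, S = {t} → Transcendental (Algebra.adjoin k S) (algebraMap K₁ Ω x) →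
      Transcendental (IntermediateField.adjoin k {t}) (algebraMap K₁ Ω x) := by
    intro S hS h6 h5
    subst hS
    apply h6
    open scoped IntermediateField.algebraAdjoinAdjoin in
    exact (IsFractionRing.isAlgebraic_iff (Algebra.adjoin k {t})
      (IntermediateField.adjoin k {t}) Ω).2 h5
  exact key _ (by simp) h4

section

variable {k K₁ B K : Type} [Field k] [CharZero k] [Field K₁] [Field B] [Field K]
  [Algebra k K₁] [Algebra k B] [Algebra k K] [Algebra B K] [Algebra K₁ K] [IsScalarTower k B K]
  [IsScalarTower k K₁ K] {t : B} {y : K} {h : K₁} {m : ℕ}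

/-- Elements of `K₁` transcendental over `k` are transcendental over `𝕜`. -/
theorem k1b_tr (hT : Tw k K₁ B K t y h m) {x : K₁} (hx : Transcendental k x) :
    Transcendental (SEC.kb B K) (algebraMap K₁ (SEC.Om K) x) := by
  intro h1
  have h2 : IsAlgebraic B (algebraMap K₁ (SEC.Om K) x) := by
    have : Algebra.IsAlgebraic B (SEC.kb B K) := inferInstance
    exact IsAlgebraic.restrictScalars B h1
  have ht : Transcendental K₁ (algebraMap B (SEC.Om K) t) := by
    have h3 := hT.tr
    rw [IsScalarTower.algebraMap_apply B K (SEC.Om K)]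
    intro h4
    exact h3 ((isAlgebraic_algebraMap_iff (algebraMap K (SEC.Om K)).injective).1 h4)
  have h5 := k1b_exch hx ht
  apply h5
  refine k1b_alg_of (R := B) ?_ h2
  intro b
  have hb : b ∈ IntermediateField.adjoin k {t} := by
    rw [hT.gen]
    exact IntermediateField.mem_top
  have h6 : (IntermediateField.adjoin k {t}) ≤
      (IntermediateField.adjoin k {algebraMap B (SEC.Om K) t}).comap
        (IsScalarTower.toAlgHom k B (SEC.Om K)) := by
    rw [IntermediateField.adjoin_le_iff]
    intro z hz
    rw [Set.mem_singleton_iff] at hz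
    subst hz
    exact IntermediateField.mem_adjoin_simple_self k _
  exact ⟨⟨algebraMap B (SEC.Om K) b, h6 hb⟩, rfl⟩

theorem k1b_F1 : ((F1 K₁ K : Subfield (SEC.Om K)) : Set (SEC.Om K)) =
    Set.range (algebraMap K₁ (SEC.Om K)) := by
  rw [F1, RingHom.coe_fieldRange]

/-- `C K₁` is a function field. -/
theorem k1b_E1 (hT : Tw k K₁ B K t y h m) : FF (SEC.kb k K) (E1 k K₁ K) := by
  obtain ⟨x, hx, hfin⟩ := hT.ff
  have hx' : Transcendental (SEC.kb k K) (algebraMap K₁ (SEC.Om K) x) := by
    intro h1
    apply hx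
    have h2 : IsAlgebraic k (algebraMap K₁ (SEC.Om K) x) := by
      have : Algebra.IsAlgebraic k (SEC.kb k K) := inferInstance
      exact IsAlgebraic.restrictScalars k h1
    exact (isAlgebraic_algebraMap_iff (algebraMap K₁ (SEC.Om K)).injective).1 h2
  obtain ⟨s, hs, hgen⟩ := k1b_gen (C := SEC.kb k K) (Ω := SEC.Om K) hfin
  rw [E1, k1b_F1, hgen]
  exact ff_adjoin hx' s hs

/-- `𝕜 K₁` is a function field. -/
theorem k1b_E1B (hT : Tw k K₁ B K t y h m) : FF (SEC.kb B K)
    (IntermediateField.adjoin (SEC.kb B K) (Set.range (algebraMap K₁ (SEC.Om K)))) := by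
  obtain ⟨x, hx, hfin⟩ := hT.ff
  have hx' := k1b_tr hT hx
  have : CharZero B := charZero_of_injective_algebraMap (algebraMap k B).injective
  have : IsScalarTower k (SEC.kb B K) (SEC.Om K) := IsScalarTower.of_algebraMap_eq fun c => rfl
  obtain ⟨s, hs, hgen⟩ := k1b_gen (C := SEC.kb B K) (Ω := SEC.Om K) hfin
  rw [hgen]
  exact ff_adjoin hx' s hs

theorem k1b_w (hT : Tw k K₁ B K t y h m) {u : SEC.kb B K}
    (hu : u ^ m = algebraMap B (SEC.kb B K) t) :
    (algebraMap K (SEC.Om K) y / (u : SEC.Om K)) ^ m = algebraMap K₁ (SEC.Om K) h ∧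
      (u : SEC.Om K) ≠ 0 := by
  have ht0 : algebraMap B K t ≠ 0 := by
    intro h0
    have := hT.tr
    rw [h0] at this
    exact this (isAlgebraic_zero)
  have hu' : (u : SEC.Om K) ^ m = algebraMap B (SEC.Om K) t := by
    have := congrArg (fun z : SEC.kb B K => (z : SEC.Om K)) hu
    simpa using this
  have ht1 : algebraMap B (SEC.Om K) t ≠ 0 := by
    rw [IsScalarTower.algebraMap_apply B K (SEC.Om K)]
    exact (_root_.map_ne_zero _).2 ht0
  have hu0 : (u : SEC.Om K) ≠ 0 := by
    intro h0
    rw [h0, zero_pow hT.hm.ne'] at hu'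
    exact ht1 hu'.symm
  refine ⟨?_, hu0⟩
  rw [div_pow, hu', ← map_pow, hT.eq, map_mul, ← IsScalarTower.algebraMap_apply B K (SEC.Om K),
    ← IsScalarTower.algebraMap_apply K₁ K (SEC.Om K), mul_div_cancel_left₀ _ ht1]

theorem k1b_alg_pow {F Ω : Type} [Field F] [Field Ω] [Algebra F Ω] {w : Ω} {m : ℕ} (hm : 0 < m)
    {c : F} (h : w ^ m = algebraMap F Ω c) : IsAlgebraic F w := by
  refine ⟨X ^ m - Polynomial.C c, ?_, ?_⟩
  · exact X_pow_sub_C_ne_zero hm c
  · rw [map_sub, map_pow, aeval_X, aeval_C, h, sub_self]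

end

theorem R_K1b : st_K1b := by
  intro k K₁ B K _ _ _ _ _ _ _ _ _ _ _ _ t y h m hT
  refine ⟨k1b_E1 hT, fun x hx => k1b_tr hT hx, ?_⟩
  intro u hu
  classical
  obtain ⟨hw, hu0⟩ := k1b_w hT hu
  have hcz : CharZero B := charZero_of_injective_algebraMap (algebraMap k B).injective
  set w : SEC.Om K := algebraMap K (SEC.Om K) y / (u : SEC.Om K) with hwdef
  have hE0 : E0 k K₁ K u y =
      IntermediateField.adjoin (SEC.kb k K) ((F1 K₁ K : Set (SEC.Om K)) ∪ {w}) := rfl
  -- the first field
  have hsub1 : E0 k K₁ K u y = IntermediateField.adjoin (SEC.kb k K)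
      ((E1 k K₁ K : Set (SEC.Om K)) ∪ (({w} : Finset (SEC.Om K)) : Set (SEC.Om K))) := by
    rw [hE0]
    apply le_antisymm
    · apply IntermediateField.adjoin.mono
      apply Set.union_subset_union
      · exact IntermediateField.subset_adjoin _ _
      · simp
    · rw [IntermediateField.adjoin_le_iff]
      apply Set.union_subset
      · have : E1 k K₁ K ≤ IntermediateField.adjoin (SEC.kb k K)
            ((F1 K₁ K : Set (SEC.Om K)) ∪ {w}) :=
          IntermediateField.adjoin.mono _ _ _ Set.subset_union_left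
        exact this
      · intro z hz
        apply IntermediateField.subset_adjoin
        right
        simpa using hz
  have hwE1 : IsAlgebraic (E1 k K₁ K) w := by
    have hh : algebraMap K₁ (SEC.Om K) h ∈ E1 k K₁ K := by
      apply IntermediateField.subset_adjoin
      rw [k1b_F1]
      exact ⟨h, rfl⟩
    exact k1b_alg_pow (F := E1 k K₁ K) (c := ⟨_, hh⟩) hT.hm hw
  have hFF0 : FF (SEC.kb k K) (E0 k K₁ K u y) := by
    rw [hsub1]
    apply ff_sup (E1 k K₁ K) (k1b_E1 hT) {w}
    intro z hz
    rw [Finset.mem_singleton] at hz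
    rw [hz]
    exact hwE1
  -- the inclusion in `L0`
  have hle : E0 k K₁ K u y ≤ L0 k K₁ B K := by
    rw [hE0, IntermediateField.adjoin_le_iff]
    rintro z (hz | hz)
    · rw [k1b_F1] at hz
      obtain ⟨x, rfl⟩ := hz
      refine ⟨?_, isAlgebraic_algebraMap x⟩
      rw [IsScalarTower.algebraMap_apply K₁ K (SEC.Om K)]
      exact (SEC.Mnr B K).algebraMap_mem _
    · rw [Set.mem_singleton_iff] at hz
      rw [hz]
      refine ⟨?_, k1b_alg_pow (F := K₁) hT.hm hw⟩
      exact div_mem ((SEC.Mnr B K).algebraMap_mem _) (SEC.kb_le _ u.2)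
  -- the big field
  set N : IntermediateField (SEC.kb B K) (SEC.Om K) :=
    IntermediateField.adjoin (SEC.kb B K) (E0 k K₁ K u y : Set (SEC.Om K)) with hN
  have hK1N : ∀ x : K₁, algebraMap K₁ (SEC.Om K) x ∈ N := by
    intro x
    apply IntermediateField.subset_adjoin
    apply IntermediateField.subset_adjoin
    left
    rw [k1b_F1]
    exact ⟨x, rfl⟩
  have hwN : w ∈ N := by
    apply IntermediateField.subset_adjoin
    apply IntermediateField.subset_adjoin
    right
    rfl
  have huN : (u : SEC.Om K) ∈ N := N.algebraMap_mem u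
  have hyN : algebraMap K (SEC.Om K) y ∈ N := by
    have : algebraMap K (SEC.Om K) y = w * u := by
      rw [hwdef, div_mul_cancel₀ _ hu0]
    rw [this]
    exact mul_mem hwN huN
  have hBN : ∀ b : B, algebraMap B (SEC.Om K) b ∈ N := by
    intro b
    have := N.algebraMap_mem (algebraMap B (SEC.kb B K) b)
    exact this
  have hKN : ∀ x : K, algebraMap K (SEC.Om K) x ∈ N := by
    intro x
    have hx : x ∈ IntermediateField.adjoin B (Set.range (algebraMap K₁ K) ∪ {y}) := by
      rw [hT.top]
      exact IntermediateField.mem_top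
    induction hx using IntermediateField.adjoin_induction with
    | mem z hz =>
      rcases hz with ⟨a, rfl⟩ | hz
      · rw [← IsScalarTower.algebraMap_apply K₁ K (SEC.Om K)]
        exact hK1N a
      · rw [Set.mem_singleton_iff] at hz
        rw [hz]
        exact hyN
    | algebraMap b =>
      rw [← IsScalarTower.algebraMap_apply B K (SEC.Om K)]
      exact hBN b
    | add a b _ _ ha hb =>
      rw [map_add]
      exact add_mem ha hb
    | inv a _ ha =>
      rw [map_inv₀]
      exact inv_mem ha
    | mul a b _ _ ha hb =>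
      rw [map_mul]
      exact mul_mem ha hb
  have hNalg : ∀ z : SEC.Om K, IsAlgebraic N z := by
    intro z
    have hz : IsAlgebraic K z := Algebra.IsAlgebraic.isAlgebraic z
    exact k1b_alg_of (R := K) (fun r => ⟨⟨_, hKN r⟩, rfl⟩) hz
  refine ⟨hFF0, hle, hNalg, ?_⟩
  -- the function field over `𝕜`
  set N1 : IntermediateField (SEC.kb B K) (SEC.Om K) :=
    IntermediateField.adjoin (SEC.kb B K) (Set.range (algebraMap K₁ (SEC.Om K))) with hN1
  have hsub2 : N = IntermediateField.adjoin (SEC.kb B K)
      ((N1 : Set (SEC.Om K)) ∪ (({w} : Finset (SEC.Om K)) : Set (SEC.Om K))) := by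
    apply le_antisymm
    · rw [hN, IntermediateField.adjoin_le_iff]
      intro z hz
      have hz' : z ∈ IntermediateField.adjoin (SEC.kb k K)
          ((F1 K₁ K : Set (SEC.Om K)) ∪ {w}) := hz
      clear hz
      induction hz' using IntermediateField.adjoin_induction with
      | mem z hz =>
        rcases hz with hz | hz
        · apply IntermediateField.subset_adjoin
          left
          rw [k1b_F1] at hz
          exact IntermediateField.subset_adjoin _ _ hz
        · apply IntermediateField.subset_adjoin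
          right
          simpa using hz
      | algebraMap c =>
        exact IntermediateField.algebraMap_mem _ (⟨(c : SEC.Om K), kb_sub c.2⟩ : SEC.kb B K)
      | add a b _ _ ha hb => exact add_mem ha hb
      | inv a _ ha => exact inv_mem ha
      | mul a b _ _ ha hb => exact mul_mem ha hb
    · rw [IntermediateField.adjoin_le_iff]
      apply Set.union_subset
      · have : N1 ≤ N := by
          rw [hN1, IntermediateField.adjoin_le_iff]
          rintro _ ⟨x, rfl⟩
          exact hK1N x
        exact this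
      · intro z hz
        have : z = w := by simpa using hz
        rw [this]
        exact hwN
  have hwN1 : IsAlgebraic N1 w := by
    have hh : algebraMap K₁ (SEC.Om K) h ∈ N1 := by
      apply IntermediateField.subset_adjoin
      exact ⟨h, rfl⟩
    exact k1b_alg_pow (F := N1) (c := ⟨_, hh⟩) hT.hm hw
  rw [hsub2]
  apply ff_sup N1 (k1b_E1B hT) {w}
  intro z hz
  rw [Finset.mem_singleton] at hz
  rw [hz]
  exact hwN1

theorem R_K1c (h9 : st_A9) (h1b : st_K1b) : st_K1c := by
  intro k K₁ B K _ _ _ _ _ _ _ _ _ _ _ _ t y h m hT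
  have hF : (F1 K₁ K : Set (SEC.Om K)) ⊆ L0 k K₁ B K := by
    intro z hz
    rw [k1b_F1] at hz
    obtain ⟨x, rfl⟩ := hz
    refine ⟨?_, isAlgebraic_algebraMap x⟩
    rw [IsScalarTower.algebraMap_apply K₁ K (SEC.Om K)]
    exact (SEC.Mnr B K).algebraMap_mem _
  have hp : ∀ z ∈ L0 k K₁ B K, ∃ p : Polynomial (SEC.Om K), p ≠ 0 ∧
      (∀ n, p.coeff n ∈ F1 K₁ K) ∧ p.eval z = 0 := by
    intro z hz
    obtain ⟨p, hp0, hp⟩ := hz.2
    refine ⟨p.map (algebraMap K₁ (SEC.Om K)), ?_, ?_, ?_⟩
    · rw [Ne, Polynomial.map_eq_zero]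
      exact hp0
    · intro n
      rw [Polynomial.coeff_map]
      exact ⟨_, rfl⟩
    · rw [Polynomial.eval_map, ← Polynomial.aeval_def, hp]
  have hcl : IsAlgClosed (SEC.kb k K) := SC2.kb_isAlgClosed
  refine ⟨hF, hp, h9 (SEC.kb k K) (SEC.Om K) (F1 K₁ K) (L0 k K₁ B K) hF (k1b_E1 hT) hp⟩

end SGT
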