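import Pool.Agent.SGT.StR
import Pool.Agent.MP_c1dca2_ag.GT.S

/-!
# SGT: the concrete situation, rows K
-/

set_option autoImplicit false
set_option linter.unusedVariables false

open GT IsLocalRing Polynomial SEC

noncomputable section

namespace SGT

section conc

variable (k K₁ B K : Type) [Field k] [Field K₁] [Field B] [Field K] [Algebra k K₁] [Algebra k B]
  [Algebra k K] [Algebra B K] [Algebra K₁ K] [IsScalarTower k B K] [IsScalarTower k K₁ K]

omit [Field K₁] [Algebra k K₁] [Algebra K₁ K] [IsScalarTower k K₁ K] in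
variable {k B K} in
theorem kb_sub {z : Om K} (hz : z ∈ kb k K) : z ∈ kb B K := by
  have h : IsAlgebraic k z := mem_algebraicClosure_iff.1 hz
  exact mem_algebraicClosure_iff.2 (h.tower_top B)

/-- The inclusion of the algebraic closure `C` of `k` in the algebraic closure `𝕜` of `B`. -/
def ik : kb k K →+* kb B K where
  toFun z := ⟨(z : Om K), kb_sub z.2⟩
  map_one' := rfl
  map_mul' _ _ := rfl
  map_zero' := rfl
  map_add' _ _ := rfl

/-- `𝕜` as an algebra over `C`. -/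
@[reducible] def algCk : Algebra (kb k K) (kb B K) := (ik k B K).toAlgebra

/-- `F = K₁` in `Ω`. -/
def F1 : Subfield (Om K) := (algebraMap K₁ (Om K)).fieldRange

variable [CharZero k]

/-- `L`: the elements of the maximal unramified extension of `K` which are algebraic over `K₁`. -/
def L0 : IntermediateField (kb k K) (Om K) where
  carrier := {z | z ∈ Mnr B K ∧ IsAlgebraic K₁ z}
  mul_mem' := fun ha hb => ⟨mul_mem ha.1 hb.1, ha.2.mul hb.2⟩
  add_mem' := fun ha hb => ⟨add_mem ha.1 hb.1, ha.2.add hb.2⟩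
  algebraMap_mem' := fun a => ⟨kb_le _ (kb_sub a.2),
    (mem_algebraicClosure_iff.1 a.2).tower_top K₁⟩
  inv_mem' := fun _ ha => ⟨inv_mem ha.1, ha.2.inv⟩

/-- `C K₁` in `Ω`. -/
def E1 : IntermediateField (kb k K) (Om K) := IntermediateField.adjoin (kb k K) (F1 K₁ K : Set (Om K))

variable {B} in
/-- `E = C K₁(w)`, `w = y / u`. -/
def E0 (u : kb B K) (y : K) : IntermediateField (kb k K) (Om K) :=
  IntermediateField.adjoin (kb k K) ((F1 K₁ K : Set (Om K)) ∪ {algebraMap K (Om K) y / (u : Om K)})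

/-- The data of a generic twist. -/
structure Tw (t : B) (y : K) (h : K₁) (m : ℕ) : Prop where
  ff : GTS.IsFunctionField k K₁
  gen : IntermediateField.adjoin k {t} = ⊤
  tr : Transcendental K₁ (algebraMap B K t)
  hm : 0 < m
  h0 : h ≠ 0
  eq : y ^ m = algebraMap B K t * algebraMap K₁ K h
  top : IntermediateField.adjoin B (Set.range (algebraMap K₁ K) ∪ {y}) = ⊤

end conc

/-- [K1] The fields `C`, `𝕜` and the element `u`. -/
def st_K1 : Prop := ∀ (k K₁ B K : Type) [Field k] [CharZero k] [Field K₁] [Field B] [Field K]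
  [Algebra k K₁] [Algebra k B] [Algebra k K] [Algebra B K] [Algebra K₁ K] [IsScalarTower k B K]
  [IsScalarTower k K₁ K] (t : B) (y : K) (h : K₁) (m : ℕ), Tw k K₁ B K t y h m →
  letI := algCk k B K
  IsAlgClosed (kb k K) ∧ IsAlgClosed (kb B K) ∧ Algebra.IsAlgebraic k (kb k K) ∧
  IsScalarTower (kb k K) (kb B K) (Om K) ∧
  (∃ u : kb B K, u ^ m = algebraMap B (kb B K) t) ∧
  ∀ u : kb B K, u ^ m = algebraMap B (kb B K) t → Transcendental (kb k K) u ∧
    (∀ z : kb B K, IsAlgebraic (IntermediateField.adjoin (kb k K) {u}) z) ∧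
    (algebraMap K (Om K) y / (u : Om K)) ^ m = algebraMap K₁ (Om K) h ∧
    (∀ z : B, ∀ τ : kb B K ≃+* kb B K, (∀ a : k, τ (algebraMap k (kb B K) a) =
      algebraMap k (kb B K) a) → τ (u ^ m) = u ^ m → τ (algebraMap B (kb B K) z) =
      algebraMap B (kb B K) z) ∧
    (∀ x : K, algebraMap K (Om K) x ∈ IntermediateField.adjoin (kb B K)
      (E0 k K₁ K u y : Set (Om K)))

/-- [K1b] Function fields. -/
def st_K1b : Prop := ∀ (k K₁ B K : Type) [Field k] [CharZero k] [Field K₁] [Field B] [Field K]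
  [Algebra k K₁] [Algebra k B] [Algebra k K] [Algebra B K] [Algebra K₁ K] [IsScalarTower k B K]
  [IsScalarTower k K₁ K] (t : B) (y : K) (h : K₁) (m : ℕ), Tw k K₁ B K t y h m →
  FF (kb k K) (E1 k K₁ K) ∧ (∀ x : K₁, Transcendental k x →
    Transcendental (kb B K) (algebraMap K₁ (Om K) x)) ∧
  ∀ u : kb B K, u ^ m = algebraMap B (kb B K) t → FF (kb k K) (E0 k K₁ K u y) ∧
    E0 k K₁ K u y ≤ L0 k K₁ B K ∧
    (∀ z : Om K, IsAlgebraic (IntermediateField.adjoin (kb B K) (E0 k K₁ K u y : Set (Om K))) z) ∧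
    FF (kb B K) (IntermediateField.adjoin (kb B K) (E0 k K₁ K u y : Set (Om K)))

/-- [K1c] `L` is algebraic over `F` and has stable levels. -/
def st_K1c : Prop := ∀ (k K₁ B K : Type) [Field k] [CharZero k] [Field K₁] [Field B] [Field K]
  [Algebra k K₁] [Algebra k B] [Algebra k K] [Algebra B K] [Algebra K₁ K] [IsScalarTower k B K]
  [IsScalarTower k K₁ K] (t : B) (y : K) (h : K₁) (m : ℕ), Tw k K₁ B K t y h m →
  ((F1 K₁ K : Set (Om K)) ⊆ L0 k K₁ B K) ∧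
  (∀ z ∈ L0 k K₁ B K, ∃ p : Polynomial (Om K), p ≠ 0 ∧ (∀ n, p.coeff n ∈ F1 K₁ K) ∧
    p.eval z = 0) ∧ Lvs (F1 K₁ K : Set (Om K)) (L0 k K₁ B K)

/-- [K2] The derivation. -/
def st_K2 : Prop := ∀ (k K₁ B K : Type) [Field k] [CharZero k] [Field K₁] [Field B] [Field K]
  [Algebra k K₁] [Algebra k B] [Algebra k K] [Algebra B K] [Algebra K₁ K] [IsScalarTower k B K]
  [IsScalarTower k K₁ K] (t : B) (y : K) (h : K₁) (m : ℕ), Tw k K₁ B K t y h m →
  ∃ D : Derivation ℤ (Om K) (Om K), D (algebraMap B (Om K) t) = 1 ∧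
    (∀ z : Om K, D z = 0 ↔ IsAlgebraic K₁ z) ∧ (∀ z ∈ kb B K, D z ∈ kb B K) ∧
    (∀ z ∈ kb B K, D z = 0 → z ∈ kb k K) ∧ ∀ z ∈ Mnr B K, D z ∈ Mnr B K

/-- [K3] Linear disjointness. -/
def st_K3 : Prop := ∀ (k K₁ B K : Type) [Field k] [CharZero k] [Field K₁] [Field B] [Field K]
  [Algebra k K₁] [Algebra k B] [Algebra k K] [Algebra B K] [Algebra K₁ K] [IsScalarTower k B K]
  [IsScalarTower k K₁ K] (t : B) (y : K) (h : K₁) (m : ℕ), Tw k K₁ B K t y h m →
  letI := algCk k B K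
  LDJ (kb k K) (kb B K) (L0 k K₁ B K : Set (Om K))

/-- [K4i] Automorphisms over `𝕜 K` which stabilise a place are inertial. -/
def st_K4i : Prop := ∀ (k K₁ B K : Type) [Field k] [CharZero k] [Field K₁] [Field B] [Field K]
  [Algebra k K₁] [Algebra k B] [Algebra k K] [Algebra B K] [Algebra K₁ K] [IsScalarTower k B K]
  [IsScalarTower k K₁ K] (t : B) (y : K) (h : K₁) (m : ℕ), Tw k K₁ B K t y h m →
  ∀ g : Om K ≃+* Om K, Lin (kb B K) g → (∀ x : K, g (algebraMap K (Om K) x) = algebraMap K (Om K) x) →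
  (∀ z ∈ Mnr B K, g z ∈ Mnr B K) ∧ ∀ Q : ValuationSubring (Om K),
    (∀ β : kb B K, (β : Om K) ∈ Q) → Q ≠ ⊤ → (∀ z, g z ∈ Q ↔ z ∈ Q) → Tri g (Mnr B K : Set (Om K))

/-- [K4] `M = 𝕜 L`. -/
def st_K4 : Prop := ∀ (k K₁ B K : Type) [Field k] [CharZero k] [Field K₁] [Field B] [Field K]
  [Algebra k K₁] [Algebra k B] [Algebra k K] [Algebra B K] [Algebra K₁ K] [IsScalarTower k B K]
  [IsScalarTower k K₁ K] (t : B) (y : K) (h : K₁) (m : ℕ), Tw k K₁ B K t y h m →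
  ∀ z ∈ Mnr B K, z ∈ IntermediateField.adjoin (kb B K) (L0 k K₁ B K : Set (Om K))

/-- [K5] `L` is Kummer closed. -/
def st_K5 : Prop := ∀ (k K₁ B K : Type) [Field k] [CharZero k] [Field K₁] [Field B] [Field K]
  [Algebra k K₁] [Algebra k B] [Algebra k K] [Algebra B K] [Algebra K₁ K] [IsScalarTower k B K]
  [IsScalarTower k K₁ K] (t : B) (y : K) (h : K₁) (m : ℕ), Tw k K₁ B K t y h m →
  KC (L0 k K₁ B K)

/-- [K6] `L / E` satisfies `Inr`. -/
def st_K6 : Prop := ∀ (k K₁ B K : Type) [Field k] [CharZero k] [Field K₁] [Field B] [Field K]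
  [Algebra k K₁] [Algebra k B] [Algebra k K] [Algebra B K] [Algebra K₁ K] [IsScalarTower k B K]
  [IsScalarTower k K₁ K] (t : B) (y : K) (h : K₁) (m : ℕ), Tw k K₁ B K t y h m →
  ∀ u : kb B K, u ^ m = algebraMap B (kb B K) t →
  letI := algCk k B K
  Inr (kb k K) (kb B K) (F1 K₁ K : Set (Om K)) (E0 k K₁ K u y) (L0 k K₁ B K)

/-- [K7] The branch points. -/
def st_K7 : Prop := ∀ (k K₁ B K : Type) [Field k] [CharZero k] [Field K₁] [Field B] [Field K]
  [Algebra k K₁] [Algebra k B] [Algebra k K] [Algebra B K] [Algebra K₁ K] [IsScalarTower k B K]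
  [IsScalarTower k K₁ K] (t : B) (y : K) (h : K₁) (m : ℕ), Tw k K₁ B K t y h m →
  ∀ (q : ℕ) (hh : algebraMap K₁ (Om K) h ∈ E1 k K₁ K), 3 ≤ (GTS.Branch k K₁ q h).ncard →
  ∃ P : Fin 3 → ValuationSubring (Om K), (∀ i, Plc (kb k K) (E1 k K₁ K : Set (Om K)) (P i) ∧
    ¬ (q : ℤ) ∣ od (kb k K) (rs (E1 k K₁ K) (P i)) ⟨algebraMap K₁ (Om K) h, hh⟩) ∧
    ∀ i j, i ≠ j → ¬ Eqv (E1 k K₁ K : Set (Om K)) (P i) (P j)

/-- The group of automorphisms of `Ω` attached to a section of `π₁(X)`. -/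
structure Sec (B K : Type) [Field B] [Field K] [Algebra B K]
    (s : FSC.SectU B K Set.univ) (H : Subgroup (Om K ≃+* Om K)) : Prop where
  fixK : ∀ g ∈ H, ∀ x : K, g (algebraMap K (Om K) x) = algebraMap K (Om K) x
  toS : ∀ g ∈ H, ∃ τ : kb B K ≃ₐ[B] kb B K, (∀ β : kb B K, g (β : Om K) = (τ β : Om K)) ∧
    ∀ z : FSC.MMU B K Set.univ, g z.incl = ((s.toHom τ).act B K Set.univ z).incl
  ofS : ∀ τ : kb B K ≃ₐ[B] kb B K, ∃ g ∈ H, (∀ β : kb B K, g (β : Om K) = (τ β : Om K)) ∧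
    ∀ z : FSC.MMU B K Set.univ, g z.incl = ((s.toHom τ).act B K Set.univ z).incl
  cont : ∀ z ∈ Mnr B K, ∃ S : Finset (kb B K), ∀ g ∈ H, (∀ β ∈ S, g (β : Om K) = (β : Om K)) →
    g z = z

/-- [K8] -/
def st_K8 : Prop := ∀ (B K : Type) [Field B] [CharZero B] [Field K] [Algebra B K]
  (s : FSC.SectU B K Set.univ), ∃ H : Subgroup (Om K ≃+* Om K), Sec B K s H

/-- The weaker form of `Sec` without reference to the section. -/
structure Sec0 (B K : Type) [Field B] [Field K] [Algebra B K] (H : Subgroup (Om K ≃+* Om K)) :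
    Prop where
  fixK : ∀ g ∈ H, ∀ x : K, g (algebraMap K (Om K) x) = algebraMap K (Om K) x
  act : ∀ g ∈ H, ∃ τ : kb B K ≃ₐ[B] kb B K, ∀ β : kb B K, g (β : Om K) = (τ β : Om K)
  lift : ∀ τ : kb B K ≃ₐ[B] kb B K, ∃ g ∈ H, ∀ β : kb B K, g (β : Om K) = (τ β : Om K)
  cont : ∀ z ∈ Mnr B K, ∃ S : Finset (kb B K), ∀ g ∈ H, (∀ β ∈ S, g (β : Om K) = (β : Om K)) →
    g z = z

/-- `H` has a stable place on `M` with residue field `𝕜`, and no automorphism over `K 𝕜` commutes on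
`M` with the elements of `H` which fix the roots of unity. -/
def Concl (B K : Type) [Field B] [Field K] [Algebra B K] (H : Subgroup (Om K ≃+* Om K)) : Prop :=
  (∃ Q : ValuationSubring (Om K), (∀ β : kb B K, (β : Om K) ∈ Q) ∧ Q ≠ ⊤ ∧
    (∀ g ∈ H, StP g (Mnr B K : Set (Om K)) Q) ∧
    ∀ z ∈ Mnr B K, z ∈ Q → ∃ β : kb B K, z - (β : Om K) ∈ Q.nonunits) ∧
  ∀ γ : Om K ≃+* Om K, (∀ x : K, γ (algebraMap K (Om K) x) = algebraMap K (Om K) x) →
    (∀ β : kb B K, γ (β : Om K) = (β : Om K)) →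
    (∀ g ∈ H, (∀ (ζ : kb B K) (n : ℕ), 0 < n → ζ ^ n = 1 → g (ζ : Om K) = (ζ : Om K)) →
      ∀ z ∈ Mnr B K, γ (g z) = g (γ z)) → Tri γ (Mnr B K : Set (Om K))

/-- [K9] The abstract setup. -/
def st_K9 : Prop := ∀ (k K₁ B K : Type) [Field k] [CharZero k] [Field K₁] [Field B] [Field K]
  [Algebra k K₁] [Algebra k B] [Algebra k K] [Algebra B K] [Algebra K₁ K] [IsScalarTower k B K]
  [IsScalarTower k K₁ K] (t : B) (y : K) (h : K₁) (m : ℕ), Tw k K₁ B K t y h m →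
  ∀ (H : Subgroup (Om K ≃+* Om K)), Sec0 B K H →
  ∀ u : kb B K, u ^ m = algebraMap B (kb B K) t →
  letI := algCk k B K
  Stp k (kb k K) (kb B K) (Om K) (F1 K₁ K) (L0 k K₁ B K) (E0 k K₁ K u y) u
    (algebraMap K (Om K) y) (algebraMap K₁ (Om K) h) m H

/-- [K10a] A stable place of `M` gives a rational point. -/
def st_K10a : Prop := ∀ (B K : Type) [Field B] [CharZero B] [Field K] [Algebra B K]
  (s : FSC.SectU B K Set.univ) (H : Subgroup (Om K ≃+* Om K)), Sec B K s H →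
  ∀ Q : ValuationSubring (Om K), (∀ β : kb B K, (β : Om K) ∈ Q) → Q ≠ ⊤ →
  (∀ g ∈ H, StP g (Mnr B K : Set (Om K)) Q) →
  (∀ z ∈ Mnr B K, z ∈ Q → ∃ β : kb B K, z - (β : Om K) ∈ Q.nonunits) → s.Geometric

/-- [K10b] The centraliser. -/
def st_K10b : Prop := ∀ (B K : Type) [Field B] [CharZero B] [Field K] [Algebra B K]
  (s : FSC.SectU B K Set.univ) (H : Subgroup (Om K ≃+* Om K)), Sec B K s H →
  (∀ γ : Om K ≃+* Om K, (∀ x : K, γ (algebraMap K (Om K) x) = algebraMap K (Om K) x) →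
    (∀ β : kb B K, γ (β : Om K) = (β : Om K)) →
    (∀ g ∈ H, (∀ (ζ : kb B K) (n : ℕ), 0 < n → ζ ^ n = 1 → g (ζ : Om K) = (ζ : Om K)) →
      ∀ z ∈ Mnr B K, γ (g z) = g (γ z)) → Tri γ (Mnr B K : Set (Om K))) → s.F = {1}

/-- [K10c] The centraliser in the case of a twist: from `L` to `M`. -/
def st_K10c : Prop := ∀ (k K₁ B K : Type) [Field k] [CharZero k] [Field K₁] [Field B] [Field K]
  [Algebra k K₁] [Algebra k B] [Algebra k K] [Algebra B K] [Algebra K₁ K] [IsScalarTower k B K]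
  [IsScalarTower k K₁ K] (t : B) (y : K) (h : K₁) (m : ℕ), Tw k K₁ B K t y h m →
  ∀ (H : Subgroup (Om K ≃+* Om K)), Sec0 B K H →
  ∀ u : kb B K, u ^ m = algebraMap B (kb B K) t →
  (∀ γ : Om K ≃+* Om K, Tri γ (E0 k K₁ K u y : Set (Om K)) → Sta γ (L0 k K₁ B K : Set (Om K)) →
    (∀ g ∈ H, Lin (kb k K) g → ∀ z ∈ L0 k K₁ B K, γ (g z) = g (γ z)) →
      Tri γ (L0 k K₁ B K : Set (Om K))) →
  ∀ γ : Om K ≃+* Om K, (∀ x : K, γ (algebraMap K (Om K) x) = algebraMap K (Om K) x) →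
    (∀ β : kb B K, γ (β : Om K) = (β : Om K)) →
    (∀ g ∈ H, (∀ (ζ : kb B K) (n : ℕ), 0 < n → ζ ^ n = 1 → g (ζ : Om K) = (ζ : Om K)) →
      ∀ z ∈ Mnr B K, γ (g z) = g (γ z)) → Tri γ (Mnr B K : Set (Om K))

/-- [K11a] The main theorem for groups of automorphisms. -/
def st_K11a : Prop := ∀ (k K₁ B K : Type) [Field k] [CharZero k] [Field K₁] [Field B] [Field K]
  [Algebra k K₁] [Algebra k B] [Algebra k K] [Algebra B K] [Algebra K₁ K] [IsScalarTower k B K]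
  [IsScalarTower k K₁ K] (t : B) (y : K) (h : K₁) (m : ℕ), Tw k K₁ B K t y h m → HasPl k →
  ∀ (ℓ a : ℕ), ℓ.Prime → ℓ ^ a ∣ m → 3 ≤ (GTS.Branch k K₁ (ℓ ^ a) h).ncard →
  ∀ H : Subgroup (Om K ≃+* Om K), Sec0 B K H → Concl B K H

/-- [K12] Transport to an unramified extension `K' / K`: a section of `K'` gives a group `H` for `K`,
and the conclusion for `H` gives the conclusion for the section. -/
def st_K12 : Prop := ∀ (B K K' : Type) [Field B] [CharZero B] [Field K] [Field K'] [Algebra B K]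
  [Algebra B K'] [Algebra K K'] [IsScalarTower B K K'] (ι : K' →ₐ[K] Om K),
  (∀ z, ι z ∈ Mnr B K) → ∀ (s : FSC.SectU B K' Set.univ) (H' : Subgroup (Om K' ≃+* Om K')),
  Sec B K' s H' → ∃ H : Subgroup (Om K ≃+* Om K), Sec0 B K H ∧ (Concl B K H → Concl B K' H')

/-- [K11] The main theorem, for all finite étale covers of the curve as well. -/
def st_K11 : Prop := ∀ (k K₁ B K K' : Type) [Field k] [CharZero k] [Field K₁] [Field B] [Field K]
  [Field K'] [Algebra k K₁] [Algebra k B] [Algebra k K] [Algebra B K] [Algebra K₁ K] [Algebra B K']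
  [Algebra K K'] [IsScalarTower B K K'] [IsScalarTower k B K] [IsScalarTower k K₁ K]
  (t : B) (y : K) (h : K₁) (m : ℕ), Tw k K₁ B K t y h m → HasPl k →
  ∀ (ℓ a : ℕ), ℓ.Prime → ℓ ^ a ∣ m → 3 ≤ (GTS.Branch k K₁ (ℓ ^ a) h).ncard →
  ∀ ι : K' →ₐ[K] Om K, (∀ z, ι z ∈ Mnr B K) →
  ∀ s : FSC.SectU B K' Set.univ, s.Geometric ∧ s.F = {1}

end SGT
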