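import Pool.Agent.SGT.StB
import Pool.Agent.SGT.StK

/-!
# [SGT-K2] the concrete derivation; linear disjointness (MP_3dd09b_ag)
-/

set_option autoImplicit false
set_option linter.unusedVariables false

open GT IsLocalRing Polynomial

namespace SGT

open SEC

/-- algebraicity over a field whose elements are algebraic over `A` -/
theorem k2_up {R Ω A : Type} [Field R] [Field Ω] [Field A] [Algebra A Ω] (f : R →+* Ω)
    (hf : ∀ r, IsAlgebraic A (f r)) (z : Ω) (p : R[X]) (hp : p ≠ 0) (hz : p.eval₂ f z = 0) :
    IsAlgebraic A z := by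
  have hlift : p.map f ∈ Polynomial.lifts (algebraMap (algebraicClosure A Ω) Ω) := by
    rw [Polynomial.lifts_iff_coeff_lifts]
    intro n
    rw [Polynomial.coeff_map]
    exact ⟨⟨f (p.coeff n), mem_algebraicClosure_iff.2 (hf _)⟩, rfl⟩
  rw [Polynomial.mem_lifts] at hlift
  obtain ⟨q, hq⟩ := hlift
  have h1 : IsAlgebraic (algebraicClosure A Ω) z := by
    refine ⟨q, ?_, ?_⟩
    · rintro rfl
      rw [Polynomial.map_zero] at hq
      exact hp ((Polynomial.map_eq_zero_iff f.injective).1 hq.symm)
    · rw [Polynomial.aeval_def, ← Polynomial.eval_map, hq, Polynomial.eval_map]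
      exact hz
  exact h1.restrictScalars A

/-- the version for an algebraic element -/
theorem k2_up' {R Ω A : Type} [Field R] [Field Ω] [Field A] [Algebra A Ω] [Algebra R Ω]
    (hf : ∀ r : R, IsAlgebraic A (algebraMap R Ω r)) (z : Ω) (hz : IsAlgebraic R z) : IsAlgebraic A z := by
  obtain ⟨p, hp, hpz⟩ := hz
  exact k2_up (algebraMap R Ω) hf z p hp hpz

/-- a subfield which contains the images of generators -/
theorem k2_adj {R E Ω : Type} [Field R] [Field E] [Field Ω] [Algebra R E] (f : E →+* Ω) (G : Subfield Ω)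
    (T : Set E) (hT : IntermediateField.adjoin R T = ⊤) (hR : ∀ r : R, f (algebraMap R E r) ∈ G)
    (hTG : ∀ x ∈ T, f x ∈ G) (x : E) : f x ∈ G := by
  have hle : IntermediateField.adjoin R T ≤ (G.comap f).toIntermediateField (fun r => hR r) := by
    rw [IntermediateField.adjoin_le_iff]
    intro x hx
    exact hTG x hx
  rw [hT] at hle
  exact hle (IntermediateField.mem_top (x := x))

/-- the elements of a subfield with derivative in the subfield -/
def k2_FD {R Ω : Type} [CommRing R] [Field Ω] [Algebra R Ω] (D : Derivation R Ω Ω) (F : Subfield Ω) :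
    Subfield Ω where
  carrier := {w | w ∈ F ∧ D w ∈ F}
  mul_mem' := by
    rintro a b ⟨ha, ha'⟩ ⟨hb, hb'⟩
    refine ⟨F.mul_mem ha hb, ?_⟩
    rw [D.leibniz, smul_eq_mul, smul_eq_mul]
    exact F.add_mem (F.mul_mem ha hb') (F.mul_mem hb ha')
  add_mem' := by
    rintro a b ⟨ha, ha'⟩ ⟨hb, hb'⟩
    refine ⟨F.add_mem ha hb, ?_⟩
    rw [map_add]
    exact F.add_mem ha' hb'
  one_mem' := ⟨F.one_mem, by rw [D.map_one_eq_zero]; exact F.zero_mem⟩
  zero_mem' := ⟨F.zero_mem, by rw [map_zero]; exact F.zero_mem⟩
  neg_mem' := by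
    rintro a ⟨ha, ha'⟩
    refine ⟨F.neg_mem ha, ?_⟩
    rw [map_neg]
    exact F.neg_mem ha'
  inv_mem' := by
    rintro a ⟨ha, ha'⟩
    refine ⟨F.inv_mem ha, ?_⟩
    rw [D.leibniz_inv, smul_eq_mul]
    exact F.mul_mem (F.neg_mem (F.pow_mem (F.inv_mem ha) 2)) ha'

open scoped IntermediateField.algebraAdjoinAdjoin in
/-- exchange: `z ∈ A` algebraic over `k(t)`, `t` transcendental over `A` -/
theorem k2_swap {k A Ω : Type} [Field k] [Field A] [Field Ω] [Algebra k A] [Algebra k Ω] [Algebra A Ω]
    [IsScalarTower k A Ω] (t z : Ω) (ht : Transcendental A t) (hzA : IsAlgebraic A z)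
    (hz : IsAlgebraic (IntermediateField.adjoin k {t}) z) : IsAlgebraic k z := by
  by_contra hzk
  have hzk' : Transcendental k z := hzk
  have h1 : AlgebraicIndependent k (fun _ : Unit => z) :=
    algebraicIndependent_unique_type_iff.2 hzk'
  have h2 : Transcendental (Algebra.adjoin k (Set.range (fun _ : Unit => z))) t := by
    intro hta
    -- over the field
    have h3 : IsAlgebraic (IntermediateField.adjoin k {z}) t := by
      have h4 : Set.range (fun _ : Unit => z) = {z} := by
        ext x
        simp [eq_comm]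
      rw [h4] at hta
      exact (IsFractionRing.isAlgebraic_iff (Algebra.adjoin k {z}) (IntermediateField.adjoin k {z}) Ω).1 hta
    refine ht (k2_up' (R := IntermediateField.adjoin k {z}) (fun r => ?_) t h3)
    have h5 : IntermediateField.adjoin k {z} ≤
        (algebraicClosure A Ω).restrictScalars k := by
      rw [IntermediateField.adjoin_le_iff]
      intro x hx
      rw [Set.mem_singleton_iff] at hx
      rw [hx]
      exact mem_algebraicClosure_iff.2 hzA
    exact mem_algebraicClosure_iff.1 (h5 r.2)
  have h3 : AlgebraicIndependent k (fun o : Option Unit => o.elim t (fun _ => z)) :=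
    (h1.option_iff_transcendental t).2 h2
  have h4 : AlgebraicIndependent k (fun o : Option Unit => o.elim z (fun _ => t)) := by
    have h5 := h3.comp (fun o : Option Unit => o.elim (some ()) (fun _ => none)) (by
      rintro (_ | _) (_ | _) h
      · rfl
      · cases h
      · cases h
      · rfl)
    convert h5 using 1
    funext o
    rcases o with _ | _
    · rfl
    · rfl
  have h6 : AlgebraicIndependent k (fun _ : Unit => t) := by
    refine algebraicIndependent_unique_type_iff.2 ?_
    intro htk
    exact ht (htk.tower_top A)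
  have h7 := (h6.option_iff_transcendental z).1 h4
  apply h7
  have h8 : Set.range (fun _ : Unit => t) = {t} := by
    ext x
    simp [eq_comm]
  rw [h8]
  exact (IsFractionRing.isAlgebraic_iff (Algebra.adjoin k {t}) (IntermediateField.adjoin k {t}) Ω).2 hz

/-- a derivation over a field of characteristic zero vanishes on the algebraic elements -/
theorem k2_alg_zero {F Ω : Type} [Field F] [CharZero F] [Field Ω] [Algebra F Ω] (D : Derivation F Ω Ω) (z : Ω)
    (hz : IsAlgebraic F z) : D z = 0 := by
  have h1 := D.map_aeval (minpoly F z) z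
  rw [minpoly.aeval, map_zero, smul_eq_mul] at h1
  have h2 : aeval z (derivative (minpoly F z)) ≠ 0 :=
    ((minpoly.irreducible hz.isIntegral).separable).aeval_derivative_ne_zero (minpoly.aeval F z)
  exact (mul_eq_zero.1 h1.symm).resolve_left h2

/-- `st_B0` for a derivation over any field -/
theorem k2_B0 (h0 : st_B0) {R Ω : Type} [Field R] [Field Ω] [CharZero Ω] [Algebra R Ω] (D : Derivation R Ω Ω)
    (F : Subfield Ω) (hF : ∀ z ∈ F, D z ∈ F) (z : Ω) (hz : IsAlgebraic F z) :
    D z ∈ Subfield.closure ((F : Set Ω) ∪ {z}) :=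
  h0 Ω (D.restrictScalars ℤ) F hF z hz

section

variable {k K₁ B K : Type} [Field k] [CharZero k] [Field K₁] [Field B] [Field K]
  [Algebra k K₁] [Algebra k B] [Algebra k K] [Algebra B K] [Algebra K₁ K] [IsScalarTower k B K]
  [IsScalarTower k K₁ K] {t : B} {y : K} {h : K₁} {m : ℕ}

omit [CharZero k] in
theorem k2_kOm (a : k) : algebraMap B (Om K) (algebraMap k B a) = algebraMap K₁ (Om K) (algebraMap k K₁ a) := by
  rw [IsScalarTower.algebraMap_apply B K (Om K), IsScalarTower.algebraMap_apply K₁ K (Om K),
    ← IsScalarTower.algebraMap_apply k B K, ← IsScalarTower.algebraMap_apply k K₁ K]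

omit [CharZero k] in
/-- the equation in the algebraic closure -/
theorem k2_eq (hT : Tw k K₁ B K t y h m) : (algebraMap K (Om K) y) ^ m =
    algebraMap B (Om K) t * algebraMap K₁ (Om K) h := by
  rw [← map_pow, hT.eq, map_mul, ← IsScalarTower.algebraMap_apply, ← IsScalarTower.algebraMap_apply]

omit [CharZero k] in
/-- `B` lies in `K₁(t)` -/
theorem k2_B (hT : Tw k K₁ B K t y h m) (b : B) :
    algebraMap B (Om K) b ∈ (IntermediateField.adjoin K₁ {algebraMap B (Om K) t}).toSubfield := by
  refine k2_adj (R := k) (algebraMap B (Om K)) _ {t} hT.gen (fun a => ?_) (fun x hx => ?_) b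
  · rw [k2_kOm (K₁ := K₁)]
    exact (IntermediateField.adjoin K₁ {algebraMap B (Om K) t}).algebraMap_mem _
  · rw [Set.mem_singleton_iff] at hx
    rw [hx]
    exact IntermediateField.mem_adjoin_simple_self K₁ _

omit [CharZero k] in
/-- everything is algebraic over `K₁(t)` -/
theorem k2_all (hT : Tw k K₁ B K t y h m) (z : Om K) :
    IsAlgebraic (IntermediateField.adjoin K₁ {algebraMap B (Om K) t}) z := by
  have hK : ∀ x : K, algebraMap K (Om K) x ∈
      (algebraicClosure (IntermediateField.adjoin K₁ {algebraMap B (Om K) t}) (Om K)).toSubfield := by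
    refine k2_adj (R := B) (algebraMap K (Om K)) _ _ hT.top (fun b => ?_) (fun x hx => ?_)
    · rw [← IsScalarTower.algebraMap_apply]
      exact (algebraicClosure (IntermediateField.adjoin K₁ {algebraMap B (Om K) t}) (Om K)).algebraMap_mem
        ⟨_, k2_B hT b⟩
    · rcases hx with ⟨a, rfl⟩ | hx
      · rw [← IsScalarTower.algebraMap_apply]
        exact (algebraicClosure (IntermediateField.adjoin K₁ {algebraMap B (Om K) t}) (Om K)).algebraMap_mem
          ⟨_, (IntermediateField.adjoin K₁ {algebraMap B (Om K) t}).algebraMap_mem a⟩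
      · rw [Set.mem_singleton_iff] at hx
        rw [hx]
        refine mem_algebraicClosure_iff.2 (IsAlgebraic.of_pow hT.hm ?_)
        rw [k2_eq hT]
        exact isAlgebraic_algebraMap (⟨_, (IntermediateField.adjoin K₁ {algebraMap B (Om K) t}).mul_mem
          (IntermediateField.mem_adjoin_simple_self K₁ _)
          ((IntermediateField.adjoin K₁ {algebraMap B (Om K) t}).algebraMap_mem h)⟩ :
          IntermediateField.adjoin K₁ {algebraMap B (Om K) t})
  exact k2_up' (R := K) (fun r => mem_algebraicClosure_iff.1 (hK r)) z (Algebra.IsAlgebraic.isAlgebraic z)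

end

theorem R_K2 (h0 : st_B0) (h9 : st_B9) : st_K2 := by
  intro k K₁ B K _ _ _ _ _ _ _ _ _ _ _ _ t y h m hT
  have hc1 : CharZero K₁ := charZero_of_injective_algebraMap (algebraMap k K₁).injective
  have hcB : CharZero B := charZero_of_injective_algebraMap (algebraMap k B).injective
  have hcK : CharZero K := charZero_of_injective_algebraMap (algebraMap k K).injective
  have hcO : CharZero (Om K) := charZero_of_injective_algebraMap (algebraMap K (Om K)).injective
  have htr : Transcendental K₁ (algebraMap B (Om K) t) := by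
    rw [IsScalarTower.algebraMap_apply B K (Om K)]
    exact (transcendental_algebraMap_iff (algebraMap K (Om K)).injective).2 hT.tr
  obtain ⟨D, hDt, hD0⟩ := h9 K₁ (Om K) (algebraMap B (Om K) t) htr (k2_all hT)
  have hD1 : ∀ a : K₁, D (algebraMap K₁ (Om K) a) = 0 := fun a => D.map_algebraMap a
  have hDB : ∀ b : B, algebraMap B (Om K) b ∈ k2_FD D (algebraMap B (Om K)).fieldRange := by
    refine k2_adj (R := k) (algebraMap B (Om K)) _ {t} hT.gen (fun a => ?_) (fun x hx => ?_)
    · refine ⟨⟨_, rfl⟩, ?_⟩
      rw [k2_kOm (K₁ := K₁), hD1]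
      exact Subfield.zero_mem _
    · rw [Set.mem_singleton_iff] at hx
      rw [hx]
      refine ⟨⟨_, rfl⟩, ?_⟩
      rw [hDt]
      exact Subfield.one_mem _
  have hDkb : ∀ z ∈ kb B K, D z ∈ kb B K := by
    intro z hz
    have h1 := k2_B0 h0 D (algebraMap B (Om K)).fieldRange (by
      rintro _ ⟨b, rfl⟩
      exact (hDB b).2) z (k2_up' (R := B) (fun b => isAlgebraic_algebraMap
        (⟨_, b, rfl⟩ : (algebraMap B (Om K)).fieldRange)) z (mem_algebraicClosure_iff.1 hz))
    have h2 : Subfield.closure (((algebraMap B (Om K)).fieldRange : Set (Om K)) ∪ {z}) ≤ (kb B K).toSubfield := by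
      rw [Subfield.closure_le]
      rintro w (⟨b, rfl⟩ | hw)
      · exact (kb B K).algebraMap_mem b
      · rw [Set.mem_singleton_iff] at hw
        rw [hw]
        exact hz
    exact h2 h1
  refine ⟨D.restrictScalars ℤ, hDt, fun z => ⟨fun hz => hD0 z hz, fun hz => k2_alg_zero D z hz⟩, hDkb, ?_, ?_⟩
  · intro z hz hDz
    refine mem_algebraicClosure_iff.2 (k2_swap (A := K₁) (algebraMap B (Om K) t) z htr (hD0 z hDz) ?_)
    refine k2_up' (R := B) (fun b => ?_) z (mem_algebraicClosure_iff.1 hz)
    have h1 : algebraMap B (Om K) b ∈ (IntermediateField.adjoin k {algebraMap B (Om K) t}).toSubfield := by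
      refine k2_adj (R := k) (algebraMap B (Om K)) _ {t} hT.gen (fun a => ?_) (fun x hx => ?_) b
      · rw [← IsScalarTower.algebraMap_apply]
        exact (IntermediateField.adjoin k {algebraMap B (Om K) t}).algebraMap_mem _
      · rw [Set.mem_singleton_iff] at hx
        rw [hx]
        exact IntermediateField.mem_adjoin_simple_self k _
    exact isAlgebraic_algebraMap (⟨_, h1⟩ : IntermediateField.adjoin k {algebraMap B (Om K) t})
  · intro z hz
    have hDK : ∀ x : K, algebraMap K (Om K) x ∈ k2_FD D (algebraMap K (Om K)).fieldRange := by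
      refine k2_adj (R := B) (algebraMap K (Om K)) _ _ hT.top (fun b => ?_) (fun x hx => ?_)
      · refine ⟨⟨_, rfl⟩, ?_⟩
        rw [← IsScalarTower.algebraMap_apply]
        obtain ⟨b', hb'⟩ := (hDB b).2
        refine ⟨algebraMap B K b', ?_⟩
        rw [← IsScalarTower.algebraMap_apply]
        exact hb'
      · rcases hx with ⟨a, rfl⟩ | hx
        · refine ⟨⟨_, rfl⟩, ?_⟩
          rw [← IsScalarTower.algebraMap_apply, hD1]
          exact Subfield.zero_mem _
        · rw [Set.mem_singleton_iff] at hx
          rw [hx]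
          refine ⟨⟨_, rfl⟩, ?_⟩
          have h1 : D ((algebraMap K (Om K) y) ^ m) = algebraMap K₁ (Om K) h := by
            rw [k2_eq hT, D.leibniz, hD1, hDt, smul_zero, zero_add, smul_eq_mul, mul_one]
          rw [D.leibniz_pow, smul_eq_mul, nsmul_eq_mul] at h1
          have hy0 : algebraMap K (Om K) y ≠ 0 := by
            intro h0
            have h2 := k2_eq hT
            rw [h0, zero_pow hT.hm.ne'] at h2
            rcases mul_eq_zero.1 h2.symm with h3 | h3
            · rw [h3] at hDt
              rw [map_zero] at hDt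
              exact zero_ne_one hDt
            · exact hT.h0 ((map_eq_zero _).1 h3)
          have hm0 : ((m : ℕ) : Om K) ≠ 0 := Nat.cast_ne_zero.2 hT.hm.ne'
          have h2 : D (algebraMap K (Om K) y) = algebraMap K (Om K)
              (algebraMap K₁ K h / ((m : K) * y ^ (m - 1))) := by
            rw [map_div₀, map_mul, map_pow, map_natCast, ← IsScalarTower.algebraMap_apply, ← h1]
            field_simp
          rw [h2]
          exact ⟨_, rfl⟩
    have h1 := k2_B0 h0 D (algebraMap K (Om K)).fieldRange (by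
      rintro _ ⟨b, rfl⟩
      exact (hDK b).2) z (k2_up' (R := K) (fun b => isAlgebraic_algebraMap
        (⟨_, b, rfl⟩ : (algebraMap K (Om K)).fieldRange)) z (Algebra.IsAlgebraic.isAlgebraic z))
    have h2 : Subfield.closure (((algebraMap K (Om K)).fieldRange : Set (Om K)) ∪ {z}) ≤
        (Mnr B K).toSubfield := by
      rw [Subfield.closure_le]
      rintro w (⟨b, rfl⟩ | hw)
      · exact (Mnr B K).algebraMap_mem b
      · rw [Set.mem_singleton_iff] at hw
        rw [hw]
        exact hz
    exact h2 h1

theorem R_K3 (h1 : st_C1) (h2 : st_K2) : st_K3 := by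
  intro k K₁ B K _ _ _ _ _ _ _ _ _ _ _ _ t y h m hT
  obtain ⟨D, hDt, hD0, hDkb, hDk, -⟩ := h2 k K₁ B K t y h m hT
  let _ := algCk k B K
  have _ : IsScalarTower (kb k K) (kb B K) (Om K) := IsScalarTower.of_algebraMap_eq (fun x => rfl)
  let D2 : Derivation ℤ (Om K) (Om K) := Derivation.mk' (AddMonoidHom.toIntLinearMap
    { toFun := fun z => D z
      map_zero' := map_zero D
      map_add' := map_add D }) (fun a b => D.leibniz a b)
  refine h1 (kb k K) (kb B K) (Om K) (L0 k K₁ B K) D2 (fun z hz => (hD0 z).2 hz.2) (fun β => ?_) (fun β hβ => ?_)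
  · exact ⟨⟨D (β : Om K), hDkb _ β.2⟩, rfl⟩
  · exact ⟨⟨(β : Om K), hDk _ β.2 hβ⟩, rfl⟩

end SGT
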