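import Pool.Agent.SGT.StB
import Pool.Agent.SGT.StK

/-!
# [SGT-K4] Mnr = 𝕜 L (MP_3dd09b_ag)
-/

set_option autoImplicit false
set_option linter.unusedVariables false

open GT IsLocalRing Polynomial

namespace SGT

section k4

/-- An automorphism of the subfield `Nz` of `Ω` over `N₀` extends to `Ω`. -/
private theorem k4_ext {F Ω : Type} [Field F] [Field Ω] [Algebra F Ω] [IsAlgClosed Ω]
    [Algebra.IsAlgebraic F Ω] (Nz : IntermediateField F Ω) (g : Nz ≃ₐ[F] Nz) :
    ∃ G : Ω ≃ₐ[F] Ω, ∀ z : Nz, G (z : Ω) = (g z : Ω) := by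
  have : Normal F Ω := by
    have : IsAlgClosure F Ω := ⟨inferInstance, inferInstance⟩
    exact IsAlgClosure.normal F Ω
  refine ⟨AlgEquiv.liftNormal g Ω, fun z => ?_⟩
  exact AlgEquiv.liftNormal_commutes g Ω z

/-- If the automorphisms over `N₀` which stabilise a place are trivial on `Nz`, then `Nz / N₀` is
unramified. -/
private theorem k4_unram (ha : st_A2) {𝕜 Ω : Type} [Field 𝕜] [CharZero 𝕜] [IsAlgClosed 𝕜] [Field Ω]
    [IsAlgClosed Ω] [Algebra 𝕜 Ω] (N₀ : IntermediateField 𝕜 Ω) (hFF : FF 𝕜 N₀)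
    (halg : ∀ z : Ω, IsAlgebraic N₀ z) (Nz : IntermediateField N₀ Ω) (hgal : IsGalois N₀ Nz)
    (hfin : FiniteDimensional N₀ Nz) (hFFz : FF 𝕜 (Nz.restrictScalars 𝕜))
    (hin : ∀ g : Ω ≃+* Ω, (∀ w : N₀, g w = w) → ∀ Q : ValuationSubring Ω,
      (∀ β : 𝕜, algebraMap 𝕜 Ω β ∈ Q) → Q ≠ ⊤ → (∀ z, g z ∈ Q ↔ z ∈ Q) → ∀ z ∈ Nz, g z = z)
    (i : N₀ →+* Nz.restrictScalars 𝕜) (hi : ∀ z : N₀, ((i z : Nz.restrictScalars 𝕜) : Ω) = z)
    (O : ValuationSubring (Nz.restrictScalars 𝕜)) (hO : IsPl 𝕜 O) (f : N₀) (hf : f ≠ 0) :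
    od 𝕜 O (i f) = od 𝕜 (O.comap i) f := by
  have hch : CharZero N₀ := charZero_of_injective_algebraMap (algebraMap 𝕜 N₀).injective
  have hchΩ : CharZero Ω := charZero_of_injective_algebraMap (algebraMap 𝕜 Ω).injective
  have hAlg : Algebra.IsAlgebraic N₀ Ω := ⟨halg⟩
  have hiC : ∀ c : 𝕜, i (algebraMap 𝕜 N₀ c) = algebraMap 𝕜 (Nz.restrictScalars 𝕜) c := by
    intro c
    apply Subtype.ext
    rw [hi]
    rfl
  have hii : ∀ x : N₀, i x = algebraMap N₀ Nz x := by
    intro x
    apply Subtype.ext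
    rw [hi]
    rfl
  obtain ⟨hZfin, e, he0, hedvd, he⟩ := ha 𝕜 N₀ (Nz.restrictScalars 𝕜) i hiC hFF hFFz (by
      intro z
      obtain ⟨p, hp, hp0⟩ := Algebra.IsAlgebraic.isAlgebraic (R := N₀) (A := Nz) z
      refine ⟨p, hp, ?_⟩
      have e1 : i = algebraMap N₀ Nz := RingHom.ext hii
      rw [e1]
      exact hp0) (by
      intro z hz
      have h1 : z ∈ Set.range (algebraMap N₀ Nz) := by
        refine (IsGalois.mem_range_algebraMap_iff_fixed (F := N₀) (E := Nz) z).2 ?_
        intro g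
        exact hz (g : Nz ≃+* Nz) (fun x => by rw [hii]; exact g.commutes x)
      obtain ⟨w, hw⟩ := h1
      exact ⟨w, by rw [hii]; exact hw⟩) O hO
  have hcard : Nat.card {g : (Nz.restrictScalars 𝕜) ≃+* (Nz.restrictScalars 𝕜) //
      (∀ w : N₀, g (i w) = i w) ∧ ∀ z, g z ∈ O ↔ z ∈ O} = 1 := by
    rw [Nat.card_eq_one_iff_unique]
    constructor
    · constructor
      have key : ∀ g : {g : (Nz.restrictScalars 𝕜) ≃+* (Nz.restrictScalars 𝕜) //
          (∀ w : N₀, g (i w) = i w) ∧ ∀ z, g z ∈ O ↔ z ∈ O}, g.1 = RingEquiv.refl _ := by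
        rintro ⟨g, hg1, hg2⟩
        apply RingEquiv.ext
        intro z
        -- the automorphism of `Nz / N₀`
        let ga : Nz ≃ₐ[N₀] Nz := AlgEquiv.ofRingEquiv (f := (g : Nz ≃+* Nz)) (fun x => by
          have h1 := hg1 x
          rw [hii] at h1
          exact h1)
        obtain ⟨G, hG⟩ := k4_ext Nz ga
        -- a place of `Ω` above `O`
        let j : (Nz.restrictScalars 𝕜) →+* Ω := algebraMap (Nz.restrictScalars 𝕜) Ω
        obtain ⟨Q, hQ, hQO⟩ := pl_up (C := 𝕜) j (fun c => rfl) hO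
        have hQO' : ∀ y : Nz.restrictScalars 𝕜, (y : Ω) ∈ Q ↔ y ∈ O := by
          intro y
          rw [← hQO]
          rfl
        have hGalΩ : IsGalois Nz Ω := by
          have h3 : Algebra.IsAlgebraic Nz Ω := Algebra.IsAlgebraic.tower_top (K := N₀) Nz
          have h4 : IsAlgClosure Nz Ω := ⟨inferInstance, h3⟩
          have h5 : Normal Nz Ω := IsAlgClosure.normal Nz Ω
          have h6 : CharZero Nz := charZero_of_injective_algebraMap (algebraMap N₀ Nz).injective
          exact ⟨⟩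
        set Q2 : ValuationSubring Ω := Q.comap (G : Ω →+* Ω) with hQ2
        let O' : ValuationSubring Nz := O
        have hab1 : SC2.Above (k := Nz) (C := Ω) O' Q2 := by
          intro y
          show G (y : Ω) ∈ Q ↔ y ∈ O
          rw [hG]
          exact (hQO' (g y)).trans (hg2 y)
        have hab2 : SC2.Above (k := Nz) (C := Ω) O' Q := fun y => hQO' y
        obtain ⟨σ, hσ⟩ := SC2.exists_conj (k := Nz) (C := Ω) hab1 hab2
        let τ : Ω ≃+* Ω := ((σ : Ω ≃+* Ω).symm).trans (G : Ω ≃+* Ω)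
        have hτ : ∀ y, τ y = G (σ.symm y) := fun y => rfl
        have hσsymm : ∀ y : Nz, σ.symm (y : Ω) = y := by
          intro y
          rw [AlgEquiv.symm_apply_eq]
          exact (σ.commutes y).symm
        have h7 := hin τ (by
          intro w
          rw [hτ]
          have h8 : ((i w : Nz.restrictScalars 𝕜) : Ω) = (w : Ω) := hi w
          rw [← h8]
          have h9 := hσsymm (i w)
          rw [h9, hG]
          have h10 : ga (i w) = i w := hg1 w
          rw [h10]) Q hQ.1 hQ.2 (by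
          intro y
          rw [hτ]
          have h11 := hσ (σ.symm y)
          rw [AlgEquiv.apply_symm_apply] at h11
          rw [h11]
          rfl) (z : Ω) z.2
        rw [hτ] at h7
        have h12 := hσsymm z
        rw [h12, hG] at h7
        apply Subtype.ext
        exact h7
      intro g g'
      apply Subtype.ext
      rw [key g, key g']
    · exact ⟨⟨RingEquiv.refl _, fun w => rfl, fun z => Iff.rfl⟩⟩
  rw [hcard] at hedvd
  have he1 : e = 1 := Nat.dvd_one.1 hedvd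
  have h13 := he f hf
  rw [he1, Nat.cast_one, one_mul] at h13
  exact h13

/-- The splitting field of the minimal polynomial of `z`. -/
private theorem k4_split {F Ω : Type} [Field F] [CharZero F] [Field Ω] [Algebra F Ω] [IsAlgClosed Ω]
    (z : Ω) (hz : IsAlgebraic F z) :
    IsGalois F (IntermediateField.adjoin F ((minpoly F z).rootSet Ω)) ∧
      FiniteDimensional F (IntermediateField.adjoin F ((minpoly F z).rootSet Ω)) ∧
      z ∈ IntermediateField.adjoin F ((minpoly F z).rootSet Ω) := by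
  have hint : IsIntegral F z := hz.isIntegral
  have hsep : (minpoly F z).Separable := (minpoly.irreducible hint).separable
  have hspl : (minpoly F z).IsSplittingField F
      (IntermediateField.adjoin F ((minpoly F z).rootSet Ω)) :=
    IntermediateField.adjoin_rootSet_isSplittingField (IsAlgClosed.splits _)
  refine ⟨IsGalois.of_separable_splitting_field hsep,
    Polynomial.IsSplittingField.finiteDimensional _ (minpoly F z), ?_⟩
  apply IntermediateField.subset_adjoin
  rw [Polynomial.mem_rootSet_of_ne (minpoly.ne_zero hint)]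
  exact minpoly.aeval F z

/-- A derivation which maps `F` and the generators of `F(S)` to `F(S)` preserves `F(S)`. -/
private theorem k4_der {F Ω : Type} [Field F] [Field Ω] [Algebra F Ω] (D : Derivation ℤ Ω Ω)
    (S : Set Ω) (h1 : ∀ c : F, D (algebraMap F Ω c) ∈ IntermediateField.adjoin F S)
    (h2 : ∀ z ∈ S, D z ∈ IntermediateField.adjoin F S) :
    ∀ z ∈ IntermediateField.adjoin F S, D z ∈ IntermediateField.adjoin F S := by
  intro z hz
  induction hz using IntermediateField.adjoin_induction with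
  | mem z hz => exact h2 z hz
  | algebraMap c => exact h1 c
  | add z w hz hw h3 h4 =>
    rw [map_add]
    exact add_mem h3 h4
  | inv z hz h3 =>
    by_cases hz0 : z = 0
    · rw [hz0, inv_zero, map_zero]
      exact zero_mem _
    · have h4 : D z⁻¹ = -(z⁻¹ * z⁻¹ * D z) := by
        have h5 := D.leibniz z z⁻¹
        rw [mul_inv_cancel₀ hz0, D.map_one_eq_zero, smul_eq_mul, smul_eq_mul] at h5
        have h6 : z * D z⁻¹ = -(z⁻¹ * D z) := by linear_combination -h5
        have h7 : z⁻¹ * (z * D z⁻¹) = z⁻¹ * -(z⁻¹ * D z) := by rw [h6]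
        rw [inv_mul_cancel_left₀ hz0] at h7
        rw [h7]
        ring
      rw [h4]
      exact neg_mem (mul_mem (mul_mem (inv_mem hz) (inv_mem hz)) h3)
  | mul z w hz hw h3 h4 =>
    rw [D.leibniz, smul_eq_mul, smul_eq_mul]
    exact add_mem (mul_mem hz h4) (mul_mem hw h3)

/-- The restriction of a derivation. -/
private noncomputable def k4_res {𝕜 Ω : Type} [Field 𝕜] [Field Ω] [Algebra 𝕜 Ω]
    (D : Derivation ℤ Ω Ω) (N : IntermediateField 𝕜 Ω) (h : ∀ z ∈ N, D z ∈ N) : Derivation ℤ N N where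
  toFun z := ⟨D z, h z z.2⟩
  map_add' z w := Subtype.ext (D.map_add z w)
  map_smul' n z := by
    apply Subtype.ext
    show D ((n • z : N) : Ω) = ((n • (⟨D z, h z z.2⟩ : N) : N) : Ω)
    have e1 : ((n • z : N) : Ω) = n • (z : Ω) := by
      rw [zsmul_eq_mul, zsmul_eq_mul]
      push_cast
      rfl
    have e2 : ((n • (⟨D z, h z z.2⟩ : N) : N) : Ω) = n • D z := by
      rw [zsmul_eq_mul, zsmul_eq_mul]
      push_cast
      rfl
    rw [e1, e2]
    exact map_zsmul D n (z : Ω)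
  map_one_eq_zero' := Subtype.ext D.map_one_eq_zero
  leibniz' z w := Subtype.ext (D.leibniz (z : Ω) (w : Ω))

/-- The abstract form of the result. -/
private theorem k4_main (ha : st_A2) (hb0 : st_B0) (hb8 : st_B8) (hb10 : st_B10) {C 𝕜 Ω : Type}
    [Field C] [CharZero C] [IsAlgClosed C] [Field 𝕜] [CharZero 𝕜] [IsAlgClosed 𝕜] [Field Ω]
    [CharZero Ω] [IsAlgClosed Ω] [Algebra C 𝕜] [Algebra 𝕜 Ω] [Algebra C Ω] [IsScalarTower C 𝕜 Ω]
    (E : IntermediateField C Ω) (N₀ : IntermediateField 𝕜 Ω)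
    (hN₀ : N₀ = IntermediateField.adjoin 𝕜 (E : Set Ω)) (M : Subfield Ω) (D : Derivation ℤ Ω Ω) (x : Ω)
    (hFE : FF C E) (hFN : FF 𝕜 N₀) (halg : ∀ z : Ω, IsAlgebraic N₀ z) (hxE : x ∈ E)
    (hxtr : Transcendental 𝕜 x) (hDE : ∀ z ∈ E, D z = 0)
    (hDk : ∀ β : 𝕜, ∃ β' : 𝕜, D (algebraMap 𝕜 Ω β) = algebraMap 𝕜 Ω β')
    (hkM : ∀ β : 𝕜, algebraMap 𝕜 Ω β ∈ M) (hEM : ∀ z ∈ E, z ∈ M)
    (hst : ∀ g : Ω ≃+* Ω, (∀ w ∈ N₀, g w = w) → ∀ z ∈ M, g z ∈ M)
    (hin : ∀ g : Ω ≃+* Ω, (∀ w ∈ N₀, g w = w) → ∀ Q : ValuationSubring Ω,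
      (∀ β : 𝕜, algebraMap 𝕜 Ω β ∈ Q) → Q ≠ ⊤ → (∀ z, g z ∈ Q ↔ z ∈ Q) → ∀ z ∈ M, g z = z)
    (z : Ω) (hz : z ∈ M) : z ∈ IntermediateField.adjoin 𝕜 {w : Ω | w ∈ M ∧ D w = 0} := by
  classical
  have hch : CharZero N₀ := charZero_of_injective_algebraMap (algebraMap 𝕜 N₀).injective
  have hAlg : Algebra.IsAlgebraic N₀ Ω := ⟨halg⟩
  obtain ⟨hgal, hfin, hzN⟩ := k4_split (F := N₀) z (halg z)
  set S : Set Ω := (minpoly N₀ z).rootSet Ω with hS
  set Nz : IntermediateField N₀ Ω := IntermediateField.adjoin N₀ S with hNz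
  have hint : IsIntegral N₀ z := (halg z).isIntegral
  have hNM : ∀ w ∈ N₀, w ∈ M := by
    intro w hw
    let M' : IntermediateField 𝕜 Ω := M.toIntermediateField hkM
    have h3 : N₀ ≤ M' := by
      rw [hN₀, IntermediateField.adjoin_le_iff]
      exact hEM
    exact h3 hw
  have hSM : ∀ w ∈ S, w ∈ M := by
    intro w hw
    rw [hS, Polynomial.mem_rootSet_of_ne (minpoly.ne_zero hint)] at hw
    have hnorm : Normal N₀ Ω := by
      have h3 : IsAlgClosure N₀ Ω := ⟨inferInstance, inferInstance⟩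
      exact IsAlgClosure.normal N₀ Ω
    obtain ⟨σ, hσ⟩ := minpoly.exists_algEquiv_of_root' (K := N₀) (halg z) hw
    rw [← hσ]
    exact hst (σ : Ω ≃+* Ω) (fun v hv => σ.commutes ⟨v, hv⟩) z hz
  have hNzM : ∀ w ∈ Nz, w ∈ M := by
    intro w hw
    let M' : IntermediateField N₀ Ω := M.toIntermediateField (fun v => hNM v v.2)
    have h3 : Nz ≤ M' := by
      rw [hNz, IntermediateField.adjoin_le_iff]
      exact hSM
    exact h3 hw
  have hFFz : FF 𝕜 (Nz.restrictScalars 𝕜) := by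
    have h3 := ff_sup N₀ hFN ((minpoly N₀ z).aroots Ω).toFinset (fun y _ => halg y)
    have h4 : ((((minpoly N₀ z).aroots Ω).toFinset : Finset Ω) : Set Ω) = S := by
      rw [hS, Polynomial.rootSet_def]
    rw [h4, ← IntermediateField.restrictScalars_adjoin] at h3
    exact h3
  -- the derivation preserves `N₀` and `Nz`
  have hDN₀ : ∀ w ∈ N₀, D w ∈ N₀ := by
    rw [hN₀]
    apply k4_der D (E : Set Ω)
    · intro c
      obtain ⟨c', hc'⟩ := hDk c
      rw [hc']
      exact IntermediateField.algebraMap_mem _ c'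
    · intro w hw
      rw [hDE w hw]
      exact zero_mem _
  have hDNz : ∀ w ∈ Nz, D w ∈ Nz := by
    apply k4_der D S
    · intro c
      have h3 : D (c : Ω) ∈ N₀ := hDN₀ c c.2
      exact IntermediateField.algebraMap_mem (IntermediateField.adjoin N₀ S) ⟨D (c : Ω), h3⟩
    · intro w hw
      have h3 : D w ∈ Subfield.closure ((N₀.toSubfield : Set Ω) ∪ {w}) :=
        hb0 Ω D N₀.toSubfield hDN₀ w (halg w)
      have h4 : Subfield.closure ((N₀.toSubfield : Set Ω) ∪ {w}) ≤
          (IntermediateField.adjoin N₀ S).toSubfield := by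
        rw [Subfield.closure_le]
        rintro v (hv | hv)
        · exact IntermediateField.algebraMap_mem (IntermediateField.adjoin N₀ S) ⟨v, hv⟩
        · rw [Set.mem_singleton_iff] at hv
          subst hv
          exact IntermediateField.subset_adjoin _ _ hw
      exact h4 h3
  set DN : Derivation ℤ (Nz.restrictScalars 𝕜) (Nz.restrictScalars 𝕜) :=
    k4_res D (Nz.restrictScalars 𝕜) hDNz with hDN
  have hDNv : ∀ w : Nz.restrictScalars 𝕜, ((DN w : Nz.restrictScalars 𝕜) : Ω) = D (w : Ω) :=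
    fun w => rfl
  have hxN₀ : x ∈ N₀ := by
    rw [hN₀]
    exact IntermediateField.subset_adjoin _ _ hxE
  let i : N₀ →+* Nz.restrictScalars 𝕜 := algebraMap N₀ Nz
  have hi : ∀ w : N₀, ((i w : Nz.restrictScalars 𝕜) : Ω) = w := fun w => rfl
  let xN : Nz.restrictScalars 𝕜 := i ⟨x, hxN₀⟩
  have hxNv : (xN : Ω) = x := rfl
  have hcv : ∀ c : 𝕜, ((algebraMap 𝕜 (Nz.restrictScalars 𝕜) c : Nz.restrictScalars 𝕜) : Ω) =
      algebraMap 𝕜 Ω c := fun c => rfl
  have hiC : ∀ c : 𝕜, i (algebraMap 𝕜 N₀ c) = algebraMap 𝕜 (Nz.restrictScalars 𝕜) c := fun c => rfl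
  have hinz : ∀ g : Ω ≃+* Ω, (∀ w : N₀, g w = w) → ∀ Q : ValuationSubring Ω,
      (∀ β : 𝕜, algebraMap 𝕜 Ω β ∈ Q) → Q ≠ ⊤ → (∀ z, g z ∈ Q ↔ z ∈ Q) → ∀ z ∈ Nz, g z = z :=
    fun g hg Q hQ1 hQ2 hQ3 w hw => hin g (fun v hv => hg ⟨v, hv⟩) Q hQ1 hQ2 hQ3 w (hNzM w hw)
  have hmain := hb8 𝕜 (Nz.restrictScalars 𝕜) DN xN hFFz (by
      intro β
      obtain ⟨β', hβ'⟩ := hDk β
      exact ⟨β', Subtype.ext hβ'⟩) (by
      intro h3
      apply hxtr
      have h4 := h3.algebraMap (A := Ω)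
      exact h4) (by
      apply Subtype.ext
      rw [hDNv, hxNv, hDE x hxE]
      rfl) (by
      intro O hO β hβ hDβ
      have hx0 : x - algebraMap 𝕜 Ω β ≠ 0 := by
        intro h3
        apply hxtr
        rw [sub_eq_zero.1 h3]
        exact isAlgebraic_algebraMap β
      set f : N₀ := ⟨x, hxN₀⟩ - algebraMap 𝕜 N₀ β with hf
      have hfv : (f : Ω) = x - algebraMap 𝕜 Ω β := rfl
      have hf0 : f ≠ 0 := by
        intro h3
        apply hx0
        rw [← hfv, h3]
        rfl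
      have hif : i f = xN - algebraMap 𝕜 (Nz.restrictScalars 𝕜) β := by
        rw [hf, map_sub, hiC]
      have hnu : f ∈ (O.comap i).nonunits := by
        rw [ValuationSubring.mem_nonunits_iff_or]
        right
        intro h3
        rw [← hif, ValuationSubring.mem_nonunits_iff_or] at hβ
        rcases hβ with h4 | h4
        · rw [map_eq_zero] at h4
          exact hf0 h4
        · apply h4
          have h5 : i f⁻¹ ∈ O := h3
          rwa [map_inv₀] at h5
      have hPl : IsPl 𝕜 (O.comap i) := by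
        constructor
        · intro c
          show i (algebraMap 𝕜 N₀ c) ∈ O
          rw [hiC]
          exact hO.1 c
        · intro h3
          rw [ValuationSubring.mem_nonunits_iff_or] at hnu
          rcases hnu with h4 | h4
          · exact hf0 h4
          · apply h4
            rw [h3]
            exact ValuationSubring.mem_top _
      have h5 := hb10 C 𝕜 Ω E N₀ x hFE hxE hxtr hN₀ hFN hxN₀ (O.comap i) β hPl (by
        intro c hc
        apply hDβ
        apply Subtype.ext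
        rw [hDNv, hcv, ← hc, ← IsScalarTower.algebraMap_apply C 𝕜 Ω c,
          hDE _ (E.algebraMap_mem c)]
        rfl) hnu
      have h6 := k4_unram ha N₀ hFN halg Nz hgal hfin hFFz hinz i hi O hO f hf0
      rw [hif] at h6
      rw [h6]
      exact h5) ⟨z, hzN⟩
  -- transfer to `Ω`
  have hfinal : ∀ w : Nz.restrictScalars 𝕜,
      w ∈ IntermediateField.adjoin 𝕜 {w : Nz.restrictScalars 𝕜 | DN w = 0} →
      (w : Ω) ∈ IntermediateField.adjoin 𝕜 {w : Ω | w ∈ M ∧ D w = 0} := by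
    intro w hw
    have h3 : IntermediateField.adjoin 𝕜 {w : Nz.restrictScalars 𝕜 | DN w = 0} ≤
        (IntermediateField.adjoin 𝕜 {w : Ω | w ∈ M ∧ D w = 0}).comap
          (Nz.restrictScalars 𝕜).val := by
      rw [IntermediateField.adjoin_le_iff]
      intro v hv
      apply IntermediateField.subset_adjoin
      refine ⟨hNzM _ v.2, ?_⟩
      have h4 : DN v = 0 := hv
      have h5 := congrArg (Subtype.val) h4
      exact h5
    exact h3 hw
  exact hfinal ⟨z, hzN⟩ hmain

end k4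

open SEC in
theorem R_K4 (ha : st_A2) (hb0 : st_B0) (hb8 : st_B8) (hb10 : st_B10) (h1 : st_K1) (h1b : st_K1b) (h2 : st_K2) (h4i : st_K4i) : st_K4 := by
  intro k K₁ B K _ _ _ _ _ _ _ _ _ _ _ _ t y h m hTw z hz
  let _ := algCk k B K
  obtain ⟨hC, hKK, halgk, htower, ⟨u, hu⟩, hu2⟩ := h1 k K₁ B K t y h m hTw
  obtain ⟨hutr, hKKalg, hw, hB, hKin⟩ := hu2 u hu
  obtain ⟨hFE1, hxtr, hrest⟩ := h1b k K₁ B K t y h m hTw
  obtain ⟨hFE0, hE0L, halgΩ, hFN0⟩ := hrest u hu
  obtain ⟨D, hDt, hD0, hDKK, hDC, hDM⟩ := h2 k K₁ B K t y h m hTw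
  have hchK : CharZero K := charZero_of_injective_algebraMap (algebraMap k K).injective
  have hchΩ : CharZero (Om K) := charZero_of_injective_algebraMap (algebraMap K (Om K)).injective
  have hchC : CharZero (kb k K) := charZero_of_injective_algebraMap (algebraMap k (kb k K)).injective
  have hchB : CharZero (kb B K) := charZero_of_injective_algebraMap (algebraMap k (kb B K)).injective
  obtain ⟨x, hx, _⟩ := hTw.ff
  set N₀ : IntermediateField (kb B K) (Om K) :=
    IntermediateField.adjoin (kb B K) (E0 k K₁ K u y : Set (Om K)) with hN₀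
  have hKN : ∀ a : K, algebraMap K (Om K) a ∈ N₀ := hKin
  have hlinN : ∀ g : Om K ≃+* Om K, (∀ w ∈ N₀, g w = w) → Lin (kb B K) g :=
    fun g hg c => hg _ (N₀.algebraMap_mem c)
  have hmain := k4_main ha hb0 hb8 hb10 (E0 k K₁ K u y) N₀ hN₀ (Mnr B K).toSubfield D
    (algebraMap K₁ (Om K) x) hFE0 hFN0 halgΩ (by
      apply IntermediateField.subset_adjoin
      left
      exact ⟨x, rfl⟩) (hxtr x hx) (by
      intro w hwE
      exact (hD0 w).2 (hE0L hwE).2) (by
      intro β
      exact ⟨⟨D (β : Om K), hDKK _ β.2⟩, rfl⟩) (fun β => kb_le _ β.2)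
      (fun w hwE => (hE0L hwE).1) (by
      intro g hg w hwM
      exact (h4i k K₁ B K t y h m hTw g (hlinN g hg) (fun a => hg _ (hKN a))).1 w hwM) (by
      intro g hg Q hQ1 hQ2 hQ3 w hwM
      exact (h4i k K₁ B K t y h m hTw g (hlinN g hg) (fun a => hg _ (hKN a))).2 Q hQ1 hQ2 hQ3 w hwM)
    z hz
  have hle : IntermediateField.adjoin (kb B K)
      {w : Om K | w ∈ (Mnr B K).toSubfield ∧ D w = 0} ≤
      IntermediateField.adjoin (kb B K) (L0 k K₁ B K : Set (Om K)) := by
    apply IntermediateField.adjoin.mono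
    rintro w ⟨hw1, hw2⟩
    exact ⟨hw1, (hD0 w).1 hw2⟩
  exact hle hmain

end SGT
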