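import Pool.Agent.SGT.StK

/-!
# [SGT-K4i] automorphisms over 𝕜 K which stabilise a place are inertial (MP_3dd09b_ag)
-/

set_option autoImplicit false
set_option linter.unusedVariables false

open GT IsLocalRing Polynomial SEC

namespace SGT

/-- The nonunits of a valuation ring. -/
private theorem k4i_nu {N : Type} [Field N] (O : ValuationSubring N) {w : N} (hw : w ≠ 0) :
    w ∈ O.nonunits ↔ w⁻¹ ∉ O := by
  rw [ValuationSubring.mem_nonunits_iff, ← ValuationSubring.valuation_le_one_iff, map_inv₀, not_le]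
  have h0 : 0 < O.valuation w := zero_lt_iff.2 ((O.valuation.ne_zero_iff).2 hw)
  exact (one_lt_inv₀ h0).symm

/-- `0` is a nonunit. -/
private theorem k4i_zero {N : Type} [Field N] (O : ValuationSubring N) : (0 : N) ∈ O.nonunits := by
  rw [ValuationSubring.mem_nonunits_iff, map_zero]
  exact zero_lt_one

/-- The nonunits of the preimage of a valuation ring. -/
private theorem k4i_map {N M : Type} [Field N] [Field M] (f : N →+* M) (O : ValuationSubring N)
    (Q : ValuationSubring M) (h : ∀ z, z ∈ O ↔ f z ∈ Q) (z : N) :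
    z ∈ O.nonunits ↔ f z ∈ Q.nonunits := by
  by_cases hz : z = 0
  · rw [hz, map_zero]
    exact ⟨fun _ => k4i_zero Q, fun _ => k4i_zero O⟩
  · rw [k4i_nu O hz, k4i_nu Q ((_root_.map_ne_zero f).2 hz), h, map_inv₀]

/-- The residue exists. -/
private theorem k4i_res {C N : Type} [Field C] [Field N] [Algebra C N] [CharZero C] [IsAlgClosed C]
    (hF : FF C N) {O : ValuationSubring N} (hO : IsPl C O) {z : N} (hz : z ∈ O) :
    ∃ c : C, z - algebraMap C N c ∈ O.nonunits := by
  have ho := od_spec hF hO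
  obtain ⟨c, hc⟩ := ho.res z hz
  refine ⟨c, ?_⟩
  by_cases h0 : z - algebraMap C N c = 0
  · rw [h0]
    exact k4i_zero O
  · rcases hc with hc | hc
    · exact absurd hc h0
    · rw [k4i_nu O h0, ho.mem _ (inv_ne_zero h0), ord_inv ho h0]
      omega

/-- Valuation rings are integrally closed. -/
private theorem k4i_alg {C Ω : Type} [Field C] [Field Ω] [Algebra C Ω]
    {N : IntermediateField C Ω} (Q : ValuationSubring Ω) (hN : ∀ z ∈ N, z ∈ Q) {z : Ω}
    (hz : IsAlgebraic N z) : z ∈ Q := by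
  have h1 : IsIntegral N z := hz.isIntegral
  obtain ⟨P, hP, hPz⟩ := h1
  let φ : N →+* Q := (algebraMap N Ω).codRestrict Q.toSubring (fun w => hN _ w.2)
  have h2 : IsIntegral Q z := by
    refine ⟨P.map φ, hP.map φ, ?_⟩
    rw [eval₂_map]
    exact hPz
  obtain ⟨w, hw⟩ := IsIntegrallyClosed.isIntegral_iff.1 h2
  rw [← hw]
  exact w.2

section

variable {B K : Type} [Field B] [Field K] [Algebra B K]

/-- Every automorphism over `K` preserves `Mnr`. -/
private theorem k4i_sta (g : Om K ≃+* Om K)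
    (hg : ∀ x : K, g (algebraMap K (Om K) x) = algebraMap K (Om K) x) (z : Om K)
    (hz : z ∈ Mnr B K) : g z ∈ Mnr B K := by
  intro Q hQ σ hσ
  have hgs : ∀ x : K, g.symm (algebraMap K (Om K) x) = algebraMap K (Om K) x := by
    intro x
    rw [RingEquiv.symm_apply_eq, hg]
  let σ' : Om K ≃ₐ[K] Om K := AlgEquiv.ofRingEquiv (f := (g.trans σ.toRingEquiv).trans g.symm) (by
    intro x
    change g.symm (σ (g (algebraMap K (Om K) x))) = _
    rw [hg, σ.commutes, hgs])
  have hσ' : ∀ w, σ' w = g.symm (σ (g w)) := fun w => rfl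
  let Q' : ValuationSubring (Om K) := Q.comap (g : Om K →+* Om K)
  have hQ' : ∀ w, w ∈ Q' ↔ g w ∈ Q := fun w => Iff.rfl
  have hpl : IsPlace B K Q' := by
    refine ⟨fun a => ?_, fun htop => hQ.2 ?_⟩
    · rw [hQ', IsScalarTower.algebraMap_apply B K (Om K), hg, ← IsScalarTower.algebraMap_apply]
      exact hQ.1 a
    · rw [eq_top_iff]
      intro w _
      have h1 : g.symm w ∈ Q' := by
        rw [htop]
        trivial
      rw [hQ', RingEquiv.apply_symm_apply] at h1
      exact h1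
  have hin : IsInert K Q' σ' := by
    refine ⟨fun w => ?_, fun w hw => ?_⟩
    · rw [hσ', hQ', hQ', RingEquiv.apply_symm_apply]
      exact hσ.1 _
    · rw [k4i_map (g : Om K →+* Om K) Q' Q hQ', hσ']
      change g (g.symm (σ (g w)) - w) ∈ Q.nonunits
      rw [map_sub, RingEquiv.apply_symm_apply]
      exact hσ.2 _ hw
  have h1 := hz Q' hpl σ' hin
  rw [hσ', RingEquiv.symm_apply_eq] at h1
  exact h1

end

theorem R_K4i (h1 : st_K1) (h1b : st_K1b) : st_K4i := by
  intro k K₁ B K _ _ _ _ _ _ _ _ _ _ _ _ t y h m hT g hg hgK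
  refine ⟨k4i_sta g hgK, ?_⟩
  intro Q hQ hQt hgQ z hz
  have hC0 : CharZero (kb B K) := charZero_of_injective_algebraMap (algebraMap k (kb B K)).injective
  have hCc : IsAlgClosed (kb B K) := SC2.kb_isAlgClosed
  obtain ⟨u, hu⟩ := (h1 k K₁ B K t y h m hT).2.2.2.2.1
  obtain ⟨_, _, halg, hFF⟩ := (h1b k K₁ B K t y h m hT).2.2 u hu
  let σ : Om K ≃ₐ[K] Om K := AlgEquiv.ofRingEquiv (f := g) hgK
  have hpl : IsPlace B K Q := ⟨fun a => hQ (algebraMap B (kb B K) a), hQt⟩
  refine hz Q hpl σ ⟨hgQ, ?_⟩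
  intro w hw
  let N₀ : IntermediateField (kb B K) (Om K) :=
    IntermediateField.adjoin (kb B K) (E0 k K₁ K u y : Set (Om K))
  have hF := ff_sup N₀ hFF {w} (by
    intro y' hy'
    exact halg y')
  obtain ⟨N, hN⟩ : ∃ N, N = IntermediateField.adjoin (kb B K)
    ((N₀ : Set (Om K)) ∪ (({w} : Finset (Om K)) : Set (Om K))) := ⟨_, rfl⟩
  rw [← hN] at hF
  have hN₀ : N₀ ≤ N := by
    rw [hN]
    exact fun v hv => IntermediateField.subset_adjoin _ _ (Or.inl hv)
  have hwN : w ∈ N := by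
    rw [hN]
    exact IntermediateField.subset_adjoin _ _ (Or.inr (by simp))
  have hP : IsPl (kb B K) (rs N Q) := by
    refine ⟨fun c => hQ c, fun htop => hQt ?_⟩
    rw [eq_top_iff]
    intro v _
    refine k4i_alg (N := N₀) Q (fun v' hv' => ?_) (halg v)
    have h1 : (⟨v', hN₀ hv'⟩ : N) ∈ rs N Q := by
      rw [htop]
      trivial
    exact h1
  obtain ⟨c, hc⟩ := k4i_res hF hP (z := ⟨w, hwN⟩) hw
  rw [k4i_map (algebraMap N (Om K)) (rs N Q) Q (fun _ => Iff.rfl), map_sub] at hc
  have hc' : w - (c : Om K) ∈ Q.nonunits := hc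
  have h2 : g (w - (c : Om K)) ∈ Q.nonunits :=
    (k4i_map (g : Om K →+* Om K) Q Q (fun z => (hgQ z).symm) _).1 hc'
  rw [map_sub] at h2
  have h3 : g (c : Om K) = (c : Om K) := hg c
  rw [h3] at h2
  have h4 : σ w - w = (g w - (c : Om K)) - (w - (c : Om K)) := by
    change g w - w = _
    ring
  rw [h4]
  rw [ValuationSubring.mem_nonunits_iff] at h2 hc' ⊢
  exact Valuation.map_sub_lt _ h2 hc'

end SGT
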