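import Pool.Agent.SGT.StK

/-!
# [SGT-K5] L is Kummer closed (MP_3dd09b_ag)
-/

set_option autoImplicit false
set_option linter.unusedVariables false

open GT IsLocalRing Polynomial SEC

namespace SGT

/-- The value of a function is the `n`-th power of a value if the order is divisible by `n`. -/
private theorem k5_val {C Ω : Type} [Field C] [CharZero C] [IsAlgClosed C] [Field Ω] [Algebra C Ω]
    {N : IntermediateField C Ω} (hF : FF C N) (Q : ValuationSubring Ω)
    (hQ : ∀ c : C, algebraMap C Ω c ∈ Q) (g : N) {n : ℕ} (hg : g ≠ 0)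
    (hd : ∀ O : ValuationSubring N, IsPl C O → (n : ℤ) ∣ od C O g) :
    ∃ y : N, Q.valuation (g : Ω) = Q.valuation (y : Ω) ^ n := by
  by_cases hall : ∀ z : N, (z : Ω) ∈ Q
  · refine ⟨1, ?_⟩
    have h1 : Q.valuation (g : Ω) ≤ 1 := (Q.valuation_le_one_iff _).2 (hall g)
    have h2 : Q.valuation ((g⁻¹ : N) : Ω) ≤ 1 := (Q.valuation_le_one_iff _).2 (hall g⁻¹)
    have h3 : Q.valuation (g : Ω) * Q.valuation ((g⁻¹ : N) : Ω) = 1 := by
      rw [← map_mul, ← IntermediateField.coe_mul, mul_inv_cancel₀ hg, IntermediateField.coe_one,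
        map_one]
    rw [IntermediateField.coe_one, map_one, one_pow]
    refine le_antisymm h1 ?_
    calc (1 : Q.ValueGroup) = Q.valuation (g : Ω) * Q.valuation ((g⁻¹ : N) : Ω) := h3.symm
      _ ≤ Q.valuation (g : Ω) * 1 := mul_le_mul' le_rfl h2
      _ = Q.valuation (g : Ω) := mul_one _
  · push Not at hall
    obtain ⟨z₀, hz₀⟩ := hall
    have hP : IsPl C (rs N Q) := by
      refine ⟨fun c => hQ c, fun htop => hz₀ ?_⟩
      have h1 : z₀ ∈ rs N Q := by
        rw [htop]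
        trivial
      exact h1
    have ho := od_spec hF hP
    obtain ⟨π, hπ0, hπ⟩ := ho.surj
    obtain ⟨r, hr⟩ := hd _ hP
    refine ⟨π ^ r, ?_⟩
    have hw0 : g / π ^ (n * r : ℤ) ≠ 0 := div_ne_zero hg (zpow_ne_zero _ hπ0)
    have hw : od C (rs N Q) (g / π ^ (n * r : ℤ)) = 0 := by
      rw [div_eq_mul_inv, ho.mul _ _ hg (inv_ne_zero (zpow_ne_zero _ hπ0)),
        ord_inv ho (zpow_ne_zero _ hπ0), kv_zpow ho _ hπ0, hπ, hr]
      ring
    have h1 := val_of_ord_zero (algebraMap N Ω) Q (P := rs N Q) (fun z => Iff.rfl) ho _ hw0 hw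
    have h2 : Q.valuation (g : Ω) = Q.valuation (algebraMap N Ω (g / π ^ (n * r : ℤ))) *
        Q.valuation (algebraMap N Ω (π ^ (n * r : ℤ))) := by
      rw [← map_mul, ← map_mul, div_mul_cancel₀ _ (zpow_ne_zero _ hπ0)]
      rfl
    rw [h2, h1, one_mul]
    change _ = Q.valuation (algebraMap N Ω (π ^ r)) ^ n
    rw [← map_pow, ← map_pow, ← zpow_natCast, ← zpow_mul, mul_comm r]

theorem R_K5 : st_K5 := by
  intro k K₁ B K _ _ _ _ _ _ _ _ _ _ _ _ t y h m hT N hNL hF g n hn hg hd η hη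
  have hC0 : CharZero (kb k K) := charZero_of_injective_algebraMap (algebraMap k (kb k K)).injective
  have hB0 : CharZero B := charZero_of_injective_algebraMap (algebraMap k B).injective
  have hCc : IsAlgClosed (kb k K) := SC2.kb_isAlgClosed
  refine ⟨?_, ?_⟩
  · refine y1_mem_of_val ⟨(g : Om K), (hNL g.2).1⟩ n hn ?_ η hη
    intro Q hQ
    obtain ⟨y, hy⟩ := k5_val hF Q (fun c => place_alg Q hQ _ (kb_sub c.2)) g hg hd
    exact ⟨⟨(y : Om K), (hNL y.2).1⟩, hy⟩
  · exact IsAlgebraic.of_pow hn (hη ▸ (hNL g.2).2)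

end SGT
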