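import Pool.Agent.SGT.StK

/-!
# [SGT-K6] L / E satisfies Inr (MP_3dd09b_ag)
-/

set_option autoImplicit false
set_option linter.unusedVariables false

open GT IsLocalRing Polynomial SEC

namespace SGT

/-- A map fixes the field generated by elements which it fixes. -/
private theorem k6_fix {C Ω : Type} [Field C] [Field Ω] [Algebra C Ω] {S : Set Ω} (g : Ω ≃+* Ω)
    (hg : Lin C g) (hS : Tri g S) : ∀ z ∈ IntermediateField.adjoin C S, g z = z := by
  let F : IntermediateField C Ω :=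
    { carrier := {z | g z = z}
      mul_mem' := by
        intro a b ha hb
        change g (a * b) = a * b
        rw [map_mul, ha, hb]
      add_mem' := by
        intro a b ha hb
        change g (a + b) = a + b
        rw [map_add, ha, hb]
      algebraMap_mem' := hg
      inv_mem' := by
        intro a ha
        change g a⁻¹ = a⁻¹
        rw [map_inv₀, ha] }
  have h1 : IntermediateField.adjoin C S ≤ F := IntermediateField.adjoin_le_iff.2 hS
  exact fun z hz => h1 hz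

theorem R_K6 (h1 : st_K1) (h1b : st_K1b) (h1c : st_K1c) (h3 : st_K3) (h4i : st_K4i) : st_K6 := by
  intro k K₁ B K _ _ _ _ _ _ _ _ _ _ _ _ t y h m hT u hu
  let _ := algCk k B K
  obtain ⟨_, _, _, _, _, h1u⟩ := h1 k K₁ B K t y h m hT
  obtain ⟨_, _, _, _, hKE⟩ := h1u u hu
  obtain ⟨_, _, h1bu⟩ := h1b k K₁ B K t y h m hT
  obtain ⟨hFE, hEL, halg, _⟩ := h1bu u hu
  obtain ⟨_, _, hlvs⟩ := h1c k K₁ B K t y h m hT
  have h3' := h3 k K₁ B K t y h m hT
  have hFE0 : (F1 K₁ K : Set (Om K)) ⊆ E0 k K₁ K u y := fun z hz =>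
    IntermediateField.subset_adjoin _ _ (Or.inl hz)
  -- `g` fixes `K` and `K₁`
  have hK : ∀ g : Om K ≃+* Om K, Lin (kb B K) g → Tri g (E0 k K₁ K u y : Set (Om K)) →
      ∀ x : K, g (algebraMap K (Om K) x) = algebraMap K (Om K) x := fun g hg hE x =>
    k6_fix g hg hE _ (hKE x)
  have hK1 : ∀ g : Om K ≃+* Om K, Tri g (E0 k K₁ K u y : Set (Om K)) →
      ∀ x : K₁, g (algebraMap K₁ (Om K) x) = algebraMap K₁ (Om K) x := fun g hE x =>
    hE _ (hFE0 ⟨x, rfl⟩)
  have hsym : ∀ g : Om K ≃+* Om K, Lin (kb B K) g → Tri g (E0 k K₁ K u y : Set (Om K)) →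
      Lin (kb B K) g.symm ∧ Tri g.symm (E0 k K₁ K u y : Set (Om K)) := by
    intro g hg hE
    refine ⟨fun c => ?_, fun z hz => ?_⟩
    · rw [RingEquiv.symm_apply_eq, hg]
    · rw [RingEquiv.symm_apply_eq, hE z hz]
  have hpre : ∀ g : Om K ≃+* Om K, Lin (kb B K) g → Tri g (E0 k K₁ K u y : Set (Om K)) →
      ∀ z ∈ L0 k K₁ B K, g z ∈ L0 k K₁ B K := by
    intro g hg hE z hz
    refine ⟨(h4i k K₁ B K t y h m hT g hg (hK g hg hE)).1 z hz.1, ?_⟩
    let φ : Om K →ₐ[K₁] Om K := { (g : Om K →+* Om K) with commutes' := hK1 g hE }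
    exact IsAlgebraic.algHom φ hz.2
  refine ⟨h3', hEL, hFE0, hFE, ⟨{algebraMap K (Om K) y / (u : Om K)}, ?_⟩, hlvs, halg, ?_, ?_⟩
  · rw [Finset.coe_singleton]
    rfl
  · intro g hg hE z
    refine ⟨fun hz => ?_, hpre g hg hE z⟩
    have h2 := hpre g.symm (hsym g hg hE).1 (hsym g hg hE).2 _ hz
    rwa [RingEquiv.symm_apply_apply] at h2
  · intro g hg hE Q hQ hQt hgQ z hz
    exact (h4i k K₁ B K t y h m hT g hg (hK g hg hE)).2 Q hQ hQt hgQ z hz.1

end SGT
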