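import Pool.Agent.SGT.StK

/-!
# [SGT-K7] branch points (MP_3dd09b_ag)
-/

set_option autoImplicit false
set_option linter.unusedVariables false

open GT IsLocalRing Polynomial

namespace SGT

section

variable {k K₁ K : Type} [Field k] [Field K₁] [Field K] [Algebra k K₁]
  [Algebra k K] [Algebra K₁ K] [IsScalarTower k K₁ K]

/-- `E1` is a function field (as `GT.ff_LL`). -/
private theorem k7_ff [CharZero k] {x : K₁} (hx : Transcendental k x)
    (hfin : FiniteDimensional (IntermediateField.adjoin k {x}) K₁) :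
    FF (SEC.kb k K) (E1 k K₁ K) := by
  classical
  let C := SEC.kb k K
  let x' : SEC.Om K := algebraMap K₁ (SEC.Om K) x
  have hx' : Transcendental C x' := by
    intro h
    apply hx
    have h1 : IsAlgebraic k x' := by
      have : Algebra.IsAlgebraic k C := inferInstance
      exact IsAlgebraic.restrictScalars k h
    exact (isAlgebraic_algebraMap_iff (algebraMap K₁ (SEC.Om K)).injective).1 h1
  let ι := Fin (Module.finrank (IntermediateField.adjoin k {x}) K₁)
  let e : Module.Basis ι (IntermediateField.adjoin k {x}) K₁ := Module.finBasis _ _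
  let s : Finset (SEC.Om K) := Finset.univ.image fun j => algebraMap K₁ (SEC.Om K) (e j)
  have hmem : ∀ c ∈ IntermediateField.adjoin k {x},
      algebraMap K₁ (SEC.Om K) c ∈ IntermediateField.adjoin C {x'} := by
    intro c hc
    have h1 : (IntermediateField.adjoin k {x}) ≤
        ((IntermediateField.adjoin C {x'}).restrictScalars k).comap
          (IsScalarTower.toAlgHom k K₁ (SEC.Om K)) := by
      rw [IntermediateField.adjoin_le_iff]
      intro y hy
      rw [Set.mem_singleton_iff] at hy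
      subst hy
      exact IntermediateField.mem_adjoin_simple_self C x'
    exact h1 hc
  have hLL : E1 k K₁ K = IntermediateField.adjoin C (insert x' (s : Set (SEC.Om K))) := by
    apply le_antisymm
    · rw [E1, IntermediateField.adjoin_le_iff]
      rintro _ ⟨y, rfl⟩
      have hxle : IntermediateField.adjoin C {x'} ≤
          IntermediateField.adjoin C (insert x' (s : Set (SEC.Om K))) :=
        IntermediateField.adjoin.mono C _ _ (Set.singleton_subset_iff.2 (Set.mem_insert _ _))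
      have h2 : algebraMap K₁ (SEC.Om K) y =
          ∑ j, algebraMap K₁ (SEC.Om K) (e.repr y j : K₁) * algebraMap K₁ (SEC.Om K) (e j) := by
        conv_lhs => rw [← e.sum_repr y]
        rw [map_sum]
        apply Finset.sum_congr rfl
        intro j _
        rw [← map_mul]
        rfl
      rw [SetLike.mem_coe, h2]
      apply sum_mem
      intro j _
      apply mul_mem
      · exact hxle (hmem _ (e.repr y j).2)
      · apply IntermediateField.subset_adjoin
        apply Set.mem_insert_of_mem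
        rw [Finset.mem_coe]
        exact Finset.mem_image_of_mem _ (Finset.mem_univ j)
    · rw [IntermediateField.adjoin_le_iff]
      intro y hy
      rcases Set.mem_insert_iff.1 hy with rfl | hy
      · exact IntermediateField.subset_adjoin _ _ ⟨x, rfl⟩
      · rw [Finset.mem_coe, Finset.mem_image] at hy
        obtain ⟨j, _, rfl⟩ := hy
        exact IntermediateField.subset_adjoin _ _ ⟨e j, rfl⟩
  have hs : ∀ y ∈ s, IsAlgebraic (IntermediateField.adjoin C {x'}) y := by
    intro y hy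
    rw [Finset.mem_image] at hy
    obtain ⟨j, _, rfl⟩ := hy
    have halg : IsAlgebraic (IntermediateField.adjoin k {x}) (e j) :=
      Algebra.IsAlgebraic.isAlgebraic _
    obtain ⟨p, hp0, hp⟩ := halg
    let φ : IntermediateField.adjoin k {x} →+* IntermediateField.adjoin C {x'} :=
      { toFun := fun c => ⟨algebraMap K₁ (SEC.Om K) c, hmem _ c.2⟩
        map_one' := Subtype.ext (map_one _)
        map_mul' := fun a b => Subtype.ext (map_mul _ _ _)
        map_zero' := Subtype.ext (map_zero _)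
        map_add' := fun a b => Subtype.ext (map_add _ _ _) }
    refine ⟨p.map φ, ?_, ?_⟩
    · rw [Ne, Polynomial.map_eq_zero]
      exact hp0
    · rw [Polynomial.aeval_def, Polynomial.eval₂_map]
      have h3 : (algebraMap (IntermediateField.adjoin C {x'}) (SEC.Om K)).comp φ =
          (algebraMap K₁ (SEC.Om K)).comp (algebraMap (IntermediateField.adjoin k {x}) K₁) := by
        ext c
        rfl
      rw [h3, ← Polynomial.hom_eval₂, ← Polynomial.aeval_def, hp, map_zero]
  rw [hLL]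
  exact ff_adjoin hx' s hs

/-- Elements integral over a subring of a valuation ring are in the valuation ring. -/
private theorem k7_int {R F M : Type} [CommRing R] [Field F] [Field M] (ψ : F →+* M)
    (g : R →+* F) (P : ValuationSubring F) (hR : ∀ r : R, g r ∈ P) {z : F} {p : R[X]}
    (hp : p.Monic) (hz' : p.eval₂ (ψ.comp g) (ψ z) = 0) : z ∈ P := by
  have hz : p.eval₂ g z = 0 := by
    apply ψ.injective
    rw [Polynomial.hom_eval₂, map_zero]
    exact hz'
  let f : R →+* P := g.codRestrict P.toSubring hR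
  have h2 : IsIntegral P z := by
    refine ⟨p.map f, hp.map f, ?_⟩
    rw [Polynomial.eval₂_map]
    exact hz
  obtain ⟨y, hy⟩ := IsIntegrallyClosed.isIntegral_iff.1 h2
  exact hy ▸ y.2

/-- The embedding of the algebraic closure of `K₁`. -/
private noncomputable def k7_th : AlgebraicClosure K₁ →ₐ[K₁] SEC.Om K := IsAlgClosed.lift

/-- Every element algebraic over `k` is in the image of the algebraic closure of `k`. -/
private theorem k7_alg {z : SEC.Om K} (hz : IsAlgebraic k z) :
    ∃ w : AlgebraicClosure K₁, IsAlgebraic k w ∧ k7_th (K := K) w = z := by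
  obtain ⟨p, hp0, hp⟩ := hz
  let q : (AlgebraicClosure K₁)[X] := p.map (algebraMap k (AlgebraicClosure K₁))
  have hq0 : q ≠ 0 := by
    rw [Ne, Polynomial.map_eq_zero]
    exact hp0
  have hcomp : ((k7_th (K₁ := K₁) (K := K)) : AlgebraicClosure K₁ →+* SEC.Om K).comp
      (algebraMap k (AlgebraicClosure K₁)) = algebraMap k (SEC.Om K) := by
    ext a
    rw [RingHom.comp_apply, IsScalarTower.algebraMap_apply k K₁ (AlgebraicClosure K₁),
      IsScalarTower.algebraMap_apply k K₁ (SEC.Om K)]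
    exact (k7_th (K₁ := K₁) (K := K)).commutes _
  have h1 := (IsAlgClosed.splits q).roots_map
    ((k7_th (K₁ := K₁) (K := K)) : AlgebraicClosure K₁ →+* SEC.Om K)
  have h2 : z ∈ (q.map ((k7_th (K₁ := K₁) (K := K)) : AlgebraicClosure K₁ →+* SEC.Om K)).roots := by
    rw [Polynomial.mem_roots]
    · rw [Polynomial.IsRoot.def, Polynomial.map_map, hcomp, Polynomial.eval_map]
      exact hp
    · rw [Ne, Polynomial.map_eq_zero]
      exact hq0
  rw [h1, Multiset.mem_map] at h2
  obtain ⟨w, hw, hwz⟩ := h2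
  refine ⟨w, ⟨p, hp0, ?_⟩, hwz⟩
  have h3 := (Polynomial.mem_roots hq0).1 hw
  rw [Polynomial.IsRoot.def, Polynomial.eval_map] at h3
  exact h3

/-- `θ` maps elements algebraic over `k` to elements algebraic over `k`. -/
private theorem k7_alg' {w : AlgebraicClosure K₁} (hw : IsAlgebraic k w) :
    k7_th (K := K) w ∈ SEC.kb k K := by
  rw [mem_algebraicClosure_iff]
  obtain ⟨p, hp0, hp⟩ := hw
  refine ⟨p, hp0, ?_⟩
  have hcomp : ((k7_th (K₁ := K₁) (K := K)) : AlgebraicClosure K₁ →+* SEC.Om K).comp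
      (algebraMap k (AlgebraicClosure K₁)) = algebraMap k (SEC.Om K) := by
    ext a
    rw [RingHom.comp_apply, IsScalarTower.algebraMap_apply k K₁ (AlgebraicClosure K₁),
      IsScalarTower.algebraMap_apply k K₁ (SEC.Om K)]
    exact (k7_th (K₁ := K₁) (K := K)).commutes _
  rw [Polynomial.aeval_def] at hp ⊢
  have h := congrArg ((k7_th (K₁ := K₁) (K := K)) : AlgebraicClosure K₁ →+* SEC.Om K) hp
  rw [Polynomial.hom_eval₂, hcomp, map_zero] at h
  exact h

/-- The field `Geo`. -/
private noncomputable abbrev k7_G (k K₁ : Type) [Field k] [Field K₁] [Algebra k K₁] :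
    IntermediateField K₁ (AlgebraicClosure K₁) :=
  IntermediateField.adjoin K₁ (algebraicClosure k (AlgebraicClosure K₁) : Set (AlgebraicClosure K₁))

private theorem k7_to {w : AlgebraicClosure K₁} (hw : w ∈ k7_G k K₁) :
    k7_th (K := K) w ∈ E1 k K₁ K := by
  induction hw using IntermediateField.adjoin_induction with
  | mem x hx =>
    have h := k7_alg' (k := k) (K := K) (mem_algebraicClosure_iff.1 hx)
    exact (E1 k K₁ K).algebraMap_mem ⟨_, h⟩
  | algebraMap x =>
    rw [AlgHom.commutes]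
    exact IntermediateField.subset_adjoin _ _ ⟨x, rfl⟩
  | add x y _ _ hx hy => rw [map_add]; exact add_mem hx hy
  | inv x _ hx => rw [map_inv₀]; exact inv_mem hx
  | mul x y _ _ hx hy => rw [map_mul]; exact mul_mem hx hy

private theorem k7_from {z : SEC.Om K} (hz : z ∈ E1 k K₁ K) :
    ∃ w ∈ k7_G k K₁, k7_th (K := K) w = z := by
  induction hz using IntermediateField.adjoin_induction with
  | mem x hx =>
    obtain ⟨y, rfl⟩ := hx
    exact ⟨algebraMap K₁ _ y, (k7_G k K₁).algebraMap_mem y, AlgHom.commutes _ _⟩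
  | algebraMap x =>
    obtain ⟨w, hw, hwx⟩ := k7_alg (k := k) (K₁ := K₁) (mem_algebraicClosure_iff.1 x.2)
    exact ⟨w, IntermediateField.subset_adjoin _ _ (mem_algebraicClosure_iff.2 hw), hwx⟩
  | add x y _ _ hx hy =>
    obtain ⟨a, ha, rfl⟩ := hx
    obtain ⟨b, hb, rfl⟩ := hy
    exact ⟨a + b, add_mem ha hb, map_add _ _ _⟩
  | inv x _ hx =>
    obtain ⟨a, ha, rfl⟩ := hx
    exact ⟨a⁻¹, inv_mem ha, map_inv₀ _ _⟩
  | mul x y _ _ hx hy =>
    obtain ⟨a, ha, rfl⟩ := hx
    obtain ⟨b, hb, rfl⟩ := hy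
    exact ⟨a * b, mul_mem ha hb, map_mul _ _ _⟩

/-- The map `Geo → E1`. -/
private noncomputable def k7_p0 (k K₁ K : Type) [Field k] [Field K₁] [Field K] [Algebra k K₁]
    [Algebra k K] [Algebra K₁ K] [IsScalarTower k K₁ K] : k7_G k K₁ →+* E1 k K₁ K where
  toFun w := ⟨k7_th (K := K) (w : AlgebraicClosure K₁), k7_to w.2⟩
  map_one' := Subtype.ext (map_one _)
  map_mul' a b := Subtype.ext (map_mul _ _ _)
  map_zero' := Subtype.ext (map_zero _)
  map_add' a b := Subtype.ext (map_add _ _ _)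

private theorem k7_bij : Function.Bijective (k7_p0 k K₁ K) := by
  refine ⟨(k7_p0 k K₁ K).injective, ?_⟩
  intro z
  obtain ⟨w, hw, h⟩ := k7_from (k := k) (K₁ := K₁) z.2
  exact ⟨(⟨w, hw⟩ : k7_G k K₁), Subtype.ext h⟩

/-- The isomorphism. -/
private noncomputable def k7_e0 (k K₁ K : Type) [Field k] [Field K₁] [Field K] [Algebra k K₁]
    [Algebra k K] [Algebra K₁ K] [IsScalarTower k K₁ K] : k7_G k K₁ ≃+* E1 k K₁ K :=
  RingEquiv.ofBijective (k7_p0 k K₁ K) k7_bij

private theorem k7_e0_alg (x : K₁) :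
    ((k7_e0 k K₁ K (algebraMap K₁ (k7_G k K₁) x) : E1 k K₁ K) : SEC.Om K) =
      algebraMap K₁ (SEC.Om K) x :=
  (k7_th (K₁ := K₁) (K := K)).commutes x

private theorem k7_e (k K₁ K : Type) [Field k] [Field K₁] [Field K] [Algebra k K₁]
    [Algebra k K] [Algebra K₁ K] [IsScalarTower k K₁ K] : ∃ e : GTS.Geo k K₁ ≃+* E1 k K₁ K,
    ∀ x : K₁, ((e (algebraMap K₁ (GTS.Geo k K₁) x) : E1 k K₁ K) : SEC.Om K) =
      algebraMap K₁ (SEC.Om K) x :=
  ⟨k7_e0 k K₁ K, k7_e0_alg⟩

end

/-- The order of a power with integral exponent. -/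
private theorem k7_zpow {C N : Type} [Field C] [Field N] [Algebra C N] {P : ValuationSubring N}
    {o : N → ℤ} (ho : IsOrd C P o) {π : N} (h0 : π ≠ 0) (h1 : o π = 1) (r : ℤ) :
    o (π ^ r) = r := by
  obtain ⟨_, hi, hp, _⟩ := ord_rules ho
  obtain ⟨n, rfl | rfl⟩ := r.eq_nat_or_neg
  · rw [zpow_natCast, hp π h0, h1, mul_one]
  · rw [zpow_neg, zpow_natCast, hi _ (pow_ne_zero _ h0), hp π h0, h1, mul_one]

/-- A place where `g` has an order divisible by `q`: its value is a `q`-th power. -/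
private theorem k7_val {C N M : Type} [Field C] [Field N] [Field M] [Algebra C N] (f : N →+* M)
    (B : ValuationSubring M) {P : ValuationSubring N} (hP : ∀ z, z ∈ P ↔ f z ∈ B) {o : N → ℤ}
    (ho : IsOrd C P o) (q : ℕ) {g : N} (hg : g ≠ 0) (hd : (q : ℤ) ∣ o g) :
    ∃ w : M, B.valuation (f g) = B.valuation w ^ q := by
  obtain ⟨r, hr⟩ := hd
  obtain ⟨π, hπ0, hπ1⟩ := ho.surj
  obtain ⟨_, hi, hp, _⟩ := ord_rules ho
  have hw0 : π ^ r ≠ 0 := zpow_ne_zero _ hπ0
  have hwq0 : (π ^ r) ^ q ≠ 0 := pow_ne_zero _ hw0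
  refine ⟨f (π ^ r), ?_⟩
  have hu : o (g * ((π ^ r) ^ q)⁻¹) = 0 := by
    rw [ho.mul _ _ hg (inv_ne_zero hwq0), hi _ hwq0, hp _ hw0, k7_zpow ho hπ0 hπ1, hr]
    ring
  have h1 := val_of_ord_zero f B hP ho _ (mul_ne_zero hg (inv_ne_zero hwq0)) hu
  rw [map_mul, map_mul, map_inv₀, map_inv₀, map_pow, map_pow] at h1
  have h2 : B.valuation (f (π ^ r)) ≠ 0 := by
    rw [Ne, map_eq_zero, map_eq_zero]
    exact hw0
  exact (mul_inv_eq_one₀ (pow_ne_zero _ h2)).1 h1

theorem R_K7 : st_K7 := by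
  intro k K₁ B K _ _ _ _ _ _ _ _ _ _ _ _ t y h m hT q hh hc
  classical
  obtain ⟨x, hx, hfin⟩ := hT.ff
  have hF : FF (SEC.kb k K) (E1 k K₁ K) := k7_ff hx hfin
  obtain ⟨e, he⟩ := k7_e k K₁ K
  have hCl : IsAlgClosed (SEC.kb k K) := SC2.kb_isAlgClosed
  have key : ∀ P ∈ GTS.Branch k K₁ q h, ∃ P' : ValuationSubring (SEC.Om K),
      Plc (SEC.kb k K) (E1 k K₁ K : Set (SEC.Om K)) P' ∧
      ¬ (q : ℤ) ∣ od (SEC.kb k K) (rs (E1 k K₁ K) P') ⟨algebraMap K₁ (SEC.Om K) h, hh⟩ ∧
      rs (E1 k K₁ K) P' = P.comap (e.symm : E1 k K₁ K →+* GTS.Geo k K₁) := by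
    intro P hP
    obtain ⟨⟨hPk, hPt⟩, hPv⟩ := hP
    let P1 : ValuationSubring (E1 k K₁ K) := P.comap (e.symm : E1 k K₁ K →+* GTS.Geo k K₁)
    have hP1 : IsPl (SEC.kb k K) P1 := by
      refine ⟨fun c => ?_, fun hT => hPt ?_⟩
      · have hc := mem_algebraicClosure_iff'.1 c.2
        obtain ⟨p, hp, hpc⟩ := hc
        let ψ : GTS.Geo k K₁ →+* SEC.Om K :=
          (algebraMap (E1 k K₁ K) (SEC.Om K)).comp (e : GTS.Geo k K₁ →+* E1 k K₁ K)
        refine k7_int ψ ((algebraMap K₁ (GTS.Geo k K₁)).comp (algebraMap k K₁)) P hPk hp ?_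
        have h1 : ψ.comp ((algebraMap K₁ (GTS.Geo k K₁)).comp (algebraMap k K₁)) =
            algebraMap k (SEC.Om K) := by
          ext a
          rw [IsScalarTower.algebraMap_apply k K₁ (SEC.Om K)]
          exact he _
        have h2 : ψ (e.symm (algebraMap (SEC.kb k K) (E1 k K₁ K) c)) = (c : SEC.Om K) := by
          change ((e (e.symm _) : E1 k K₁ K) : SEC.Om K) = _
          rw [RingEquiv.apply_symm_apply]
          rfl
        have h3 : p.eval₂ (ψ.comp ((algebraMap K₁ (GTS.Geo k K₁)).comp (algebraMap k K₁)))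
            (ψ (e.symm (algebraMap (SEC.kb k K) (E1 k K₁ K) c))) = 0 := by
          rw [h1, h2]
          exact hpc
        exact h3
      · ext z
        have h1 : e z ∈ P1 := by rw [hT]; exact ValuationSubring.mem_top _
        have h2 : e.symm (e z) ∈ P := h1
        rw [RingEquiv.symm_apply_apply] at h2
        exact ⟨fun _ => ValuationSubring.mem_top _, fun _ => h2⟩
    obtain ⟨P', hP', hP'1⟩ := pl_up (C := SEC.kb k K) (algebraMap (E1 k K₁ K) (SEC.Om K))
      (fun _ => rfl) hP1
    have hrs : rs (E1 k K₁ K) P' = P1 := hP'1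
    refine ⟨P', ⟨hP'.1, ?_⟩, ?_, hrs⟩
    · by_contra hcon
      push Not at hcon
      apply hP1.2
      ext z
      refine ⟨fun _ => ValuationSubring.mem_top _, fun _ => ?_⟩
      rw [← hrs]
      exact hcon _ z.2
    · intro hd
      rw [hrs] at hd
      have ho := od_spec hF hP1
      have hg0 : (⟨algebraMap K₁ (SEC.Om K) h, hh⟩ : E1 k K₁ K) ≠ 0 := by
        intro h0
        have h1 := congrArg Subtype.val h0
        exact hT.h0 ((map_eq_zero (algebraMap K₁ (SEC.Om K))).1 h1)
      obtain ⟨w, hw⟩ := k7_val (e.symm : E1 k K₁ K →+* GTS.Geo k K₁) P (fun z => Iff.rfl) ho q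
        hg0 hd
      apply hPv w
      rw [← hw]
      congr 1
      apply e.injective
      change _ = e (e.symm _)
      rw [RingEquiv.apply_symm_apply]
      exact Subtype.ext (he h)
  choose Q hQ1 hQ2 hQ3 using key
  have hfinB : (GTS.Branch k K₁ q h).Finite := by
    by_contra hinf
    rw [Set.Infinite.ncard hinf] at hc
    omega
  obtain ⟨a, b, c, ha, hb, hc', hab, hac, hbc⟩ := (Set.two_lt_ncard_iff hfinB).1 hc
  let v : Fin 3 → GTS.Branch k K₁ q h := ![⟨a, ha⟩, ⟨b, hb⟩, ⟨c, hc'⟩]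
  have hv : Function.Injective v := by
    intro i j hij
    fin_cases i <;> fin_cases j <;>
      simp [v, hab, hac, hbc, hab.symm, hac.symm, hbc.symm] at hij ⊢
  refine ⟨fun i => Q (v i).1 (v i).2, fun i => ⟨hQ1 _ _, hQ2 _ _⟩, ?_⟩
  intro i j hij hE
  apply hij
  apply hv
  apply Subtype.ext
  have h1 : rs (E1 k K₁ K) (Q (v i).1 (v i).2) = rs (E1 k K₁ K) (Q (v j).1 (v j).2) := by
    ext z
    exact hE _ z.2
  rw [hQ3, hQ3] at h1
  ext z
  have h2 : e z ∈ (v i).1.comap (e.symm : E1 k K₁ K →+* GTS.Geo k K₁) ↔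
      e z ∈ (v j).1.comap (e.symm : E1 k K₁ K →+* GTS.Geo k K₁) := by rw [h1]
  have h3 : e.symm (e z) ∈ (v i).1 ↔ e.symm (e z) ∈ (v j).1 := h2
  rwa [RingEquiv.symm_apply_apply] at h3

end SGT
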