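import Pool.Agent.SGT.StX

/-!
# [SGT-K7x] the unramified cover in Ω (MP_3dd09b_ag)
-/

set_option autoImplicit false
set_option linter.unusedVariables false

open GT IsLocalRing Polynomial

namespace SGT

open SEC

/-- an algebraic element over an algebraically closed field -/
theorem k7x_mem {C Ω : Type} [Field C] [IsAlgClosed C] [Field Ω] [Algebra C Ω] {x : Ω}
    (hx : IsAlgebraic C x) : ∃ c : C, algebraMap C Ω c = x := by
  have h1 : IsIntegral C x := hx.isIntegral
  have h2 : (minpoly C x).degree = 1 :=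
    IsAlgClosed.degree_eq_one_of_irreducible C (minpoly.irreducible h1)
  exact minpoly.mem_range_of_degree_eq_one C x h2

/-- an element of `Ω` algebraic over `k` is in the image of every embedding of an algebraically
closed field over `k` -/
theorem k7x_surj {k F Ω : Type} [Field k] [Field F] [IsAlgClosed F] [Field Ω] [Algebra k F]
    [Algebra k Ω] (ι : F →ₐ[k] Ω) {x : Ω} (hx : IsAlgebraic k x) : ∃ c : F, ι c = x := by
  letI := (ι : F →+* Ω).toAlgebra
  apply k7x_mem (C := F)
  obtain ⟨p, hp0, hp⟩ := hx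
  refine ⟨p.map (algebraMap k F), (Polynomial.map_ne_zero_iff (algebraMap k F).injective).2 hp0, ?_⟩
  rw [Polynomial.aeval_def, Polynomial.eval₂_map]
  have h1 : (algebraMap F Ω).comp (algebraMap k F) = algebraMap k Ω := by
    ext a
    exact ι.commutes a
  rw [h1]
  exact hp

/-- the inclusion of `Geo k K₀` -/
noncomputable def k7x_incl (k K₀ : Type) [Field k] [Field K₀] [Algebra k K₀] :
    GTS.Geo k K₀ →+* AlgebraicClosure K₀ :=
  (IntermediateField.val (IntermediateField.adjoin K₀ (SCJ.kbar k K₀ : Set (SCJ.Om K₀)))).toRingHom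

/-- the elements of `Geo k K₀` -/
theorem k7x_incl_mem {k K₀ : Type} [Field k] [Field K₀] [Algebra k K₀] (x : AlgebraicClosure K₀) :
    (∃ z : GTS.Geo k K₀, k7x_incl k K₀ z = x) ↔
      x ∈ IntermediateField.adjoin K₀ (algebraicClosure k (AlgebraicClosure K₀) :
        Set (AlgebraicClosure K₀)) := by
  constructor
  · rintro ⟨z, rfl⟩
    exact Subtype.prop (p := fun x => x ∈ IntermediateField.adjoin K₀
      (algebraicClosure k (AlgebraicClosure K₀) : Set (AlgebraicClosure K₀))) z
  · intro hx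
    exact ⟨⟨x, hx⟩, rfl⟩

theorem R_K7x (h1 : st_K1) : st_K7x := by
  intro k K₁ B K K₀ _ _ _ _ _ _ _ _ _ _ _ _ _ _ _ _ t y h m hT w hw hadj ℓ hℓ hUC u hu
  letI := algCk k B K
  obtain ⟨a1, a2, a3, a4, a5, a6⟩ := h1 k K₁ B K t y h m hT
  obtain ⟨b1, b2, b3, b4, b5⟩ := a6 u hu
  have hm := hT.hm
  obtain ⟨v, hv⟩ : ∃ v : Om K, v = algebraMap K (Om K) y / (u : Om K) := ⟨_, rfl⟩
  rw [← hv] at b3
  have hh : algebraMap K₁ (Om K) h ≠ 0 := by
    rw [Ne, map_eq_zero]
    exact hT.h0
  have hv0 : v ≠ 0 := by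
    rintro rfl
    rw [zero_pow hm.ne'] at b3
    exact hh b3.symm
  -- the embedding
  have hwalg : IsAlgebraic K₁ w := by
    apply IsAlgebraic.of_pow hm
    rw [hw]
    exact isAlgebraic_algebraMap h
  have hK0 : Algebra.IsAlgebraic K₁ K₀ := by
    constructor
    intro z
    have hz : z ∈ IntermediateField.adjoin K₁ {w} := by
      rw [hadj]
      trivial
    have h2 := (IntermediateField.isAlgebraic_adjoin_simple hwalg.isIntegral).isAlgebraic
      (⟨z, hz⟩ : IntermediateField.adjoin K₁ {w})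
    exact (isAlgebraic_algHom_iff (IntermediateField.adjoin K₁ {w}).val
      Subtype.val_injective).2 h2
  have hAC : Algebra.IsAlgebraic K₁ (AlgebraicClosure K₀) :=
    Algebra.IsAlgebraic.trans K₁ K₀ (AlgebraicClosure K₀)
  obtain ⟨ι⟩ : Nonempty (AlgebraicClosure K₀ →ₐ[K₁] Om K) := ⟨IsAlgClosed.lift⟩
  have hιK : ∀ x : K₁, ι (algebraMap K₀ (AlgebraicClosure K₀) (algebraMap K₁ K₀ x)) =
      algebraMap K₁ (Om K) x := by
    intro x
    rw [← IsScalarTower.algebraMap_apply K₁ K₀ (AlgebraicClosure K₀)]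
    exact ι.commutes x
  -- the algebraic closures of `k`
  have hk1 : ∀ z : AlgebraicClosure K₀, z ∈ algebraicClosure k (AlgebraicClosure K₀) →
      ι z ∈ kb k K := by
    intro z hz
    rw [mem_algebraicClosure_iff] at hz ⊢
    exact hz.algHom (ι.restrictScalars k)
  have hk2 : ∀ c : kb k K, ∃ z : AlgebraicClosure K₀,
      z ∈ algebraicClosure k (AlgebraicClosure K₀) ∧ ι z = (c : Om K) := by
    intro c
    have h3 : IsAlgebraic k (c : Om K) := mem_algebraicClosure_iff.1 c.2
    obtain ⟨z, hz⟩ := k7x_surj (ι.restrictScalars k) h3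
    refine ⟨z, ?_, hz⟩
    rw [mem_algebraicClosure_iff]
    rw [← hz] at h3
    exact (isAlgebraic_algHom_iff (ι.restrictScalars k) (fun a b hab =>
      (ι : AlgebraicClosure K₀ →+* Om K).injective hab)).1 h3
  -- the element `w`
  obtain ⟨W, hW⟩ : ∃ W, W = algebraMap K₀ (AlgebraicClosure K₀) w := ⟨_, rfl⟩
  have hWm : ι W ^ m = v ^ m := by
    rw [b3, ← map_pow, hW, ← map_pow, hw, hιK]
  obtain ⟨c, hc⟩ : ∃ c : kb k K, algebraMap (kb k K) (Om K) c = ι W / v := by
    apply k7x_mem
    apply IsAlgebraic.of_pow hm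
    rw [div_pow, hWm, div_self (pow_ne_zero _ hv0)]
    exact isAlgebraic_one
  have hWv : ι W = (c : Om K) * v := by
    have h3 : (c : Om K) = ι W / v := hc
    rw [h3]
    field_simp
  have hW0 : ι W ≠ 0 := by
    intro h3
    rw [h3, zero_pow hm.ne'] at hWm
    exact pow_ne_zero m hv0 hWm.symm
  -- generators of `E0`
  have hvE : v ∈ E0 k K₁ K u y := by
    rw [hv]
    exact IntermediateField.subset_adjoin _ _ (Or.inr rfl)
  have hFE : ∀ x : K₁, algebraMap K₁ (Om K) x ∈ E0 k K₁ K u y := by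
    intro x
    exact IntermediateField.subset_adjoin _ _ (Or.inl ⟨x, rfl⟩)
  have hCE : ∀ c : kb k K, (c : Om K) ∈ E0 k K₁ K u y := fun c =>
    (E0 k K₁ K u y).algebraMap_mem c
  have hK0E : ∀ x : K₀, ι (algebraMap K₀ (AlgebraicClosure K₀) x) ∈ E0 k K₁ K u y := by
    intro x
    have hx : x ∈ IntermediateField.adjoin K₁ {w} := by
      rw [hadj]
      trivial
    induction hx using IntermediateField.adjoin_induction with
    | mem x hx =>
      rw [Set.mem_singleton_iff] at hx
      rw [hx, ← hW, hWv]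
      exact (E0 k K₁ K u y).mul_mem (hCE c) hvE
    | algebraMap x =>
      rw [hιK]
      exact hFE x
    | add x y _ _ hx hy =>
      rw [map_add, map_add]
      exact (E0 k K₁ K u _).add_mem hx hy
    | inv x _ hx =>
      rw [map_inv₀, map_inv₀]
      exact (E0 k K₁ K u _).inv_mem hx
    | mul x y _ _ hx hy =>
      rw [map_mul, map_mul]
      exact (E0 k K₁ K u _).mul_mem hx hy
  have hA : ∀ z ∈ IntermediateField.adjoin K₀ (algebraicClosure k (AlgebraicClosure K₀) :
      Set (AlgebraicClosure K₀)), ι z ∈ E0 k K₁ K u y := by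
    intro z hz
    induction hz using IntermediateField.adjoin_induction with
    | mem x hx => exact hCE ⟨ι x, hk1 x hx⟩
    | algebraMap x => exact hK0E x
    | add x y _ _ hx hy =>
      rw [map_add]
      exact (E0 k K₁ K u _).add_mem hx hy
    | inv x _ hx =>
      rw [map_inv₀]
      exact (E0 k K₁ K u _).inv_mem hx
    | mul x y _ _ hx hy =>
      rw [map_mul]
      exact (E0 k K₁ K u _).mul_mem hx hy
  have hB : ∀ x ∈ E0 k K₁ K u y, ∃ z ∈ IntermediateField.adjoin K₀
      (algebraicClosure k (AlgebraicClosure K₀) : Set (AlgebraicClosure K₀)), ι z = x := by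
    obtain ⟨G, hG⟩ : ∃ G : IntermediateField K₀ (AlgebraicClosure K₀), G =
      IntermediateField.adjoin K₀ (algebraicClosure k (AlgebraicClosure K₀) :
        Set (AlgebraicClosure K₀)) := ⟨_, rfl⟩
    have hGk : ∀ z ∈ algebraicClosure k (AlgebraicClosure K₀), z ∈ G := by
      intro z hz
      rw [hG]
      exact IntermediateField.subset_adjoin _ _ hz
    rw [← hG]
    intro x hx
    have hx' : x ∈ IntermediateField.adjoin (kb k K) ((F1 K₁ K : Set (Om K)) ∪ {v}) := by
      rw [hv]
      exact hx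
    clear hx
    induction hx' using IntermediateField.adjoin_induction with
    | mem x hx =>
      rcases hx with ⟨x₁, hx₁⟩ | hx
      · exact ⟨algebraMap K₀ (AlgebraicClosure K₀) (algebraMap K₁ K₀ x₁), G.algebraMap_mem _, by
          rw [hιK]
          exact hx₁⟩
      · rw [Set.mem_singleton_iff] at hx
        obtain ⟨c', hc'1, hc'2⟩ := hk2 c
        refine ⟨c'⁻¹ * W, G.mul_mem (G.inv_mem (hGk c' hc'1)) ?_, ?_⟩
        · rw [hW]
          exact G.algebraMap_mem _
        · rw [map_mul, map_inv₀, hc'2, hWv, hx]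
          have hc0 : (c : Om K) ≠ 0 := by
            intro h3
            rw [hWv, h3, zero_mul] at hW0
            exact hW0 rfl
          field_simp
    | algebraMap c =>
      obtain ⟨c', hc'1, hc'2⟩ := hk2 c
      exact ⟨c', hGk c' hc'1, hc'2⟩
    | add x y _ _ hx hy =>
      obtain ⟨z₁, h3, h4⟩ := hx
      obtain ⟨z₂, h5, h6⟩ := hy
      exact ⟨z₁ + z₂, G.add_mem h3 h5, by rw [map_add, h4, h6]⟩
    | inv x _ hx =>
      obtain ⟨z₁, h3, h4⟩ := hx
      exact ⟨z₁⁻¹, G.inv_mem h3, by rw [map_inv₀, h4]⟩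
    | mul x y _ _ hx hy =>
      obtain ⟨z₁, h3, h4⟩ := hx
      obtain ⟨z₂, h5, h6⟩ := hy
      exact ⟨z₁ * z₂, G.mul_mem h3 h5, by rw [map_mul, h4, h6]⟩
  -- the isomorphism
  obtain ⟨i, hi⟩ : ∃ i : GTS.Geo k K₀ →+* E0 k K₁ K u y, ∀ z, ((i z : E0 k K₁ K u y) : Om K) =
      ι (k7x_incl k K₀ z) :=
    ⟨RingHom.codRestrict ((ι : AlgebraicClosure K₀ →+* Om K).comp (k7x_incl k K₀))
      (E0 k K₁ K u y) (fun z => hA _ ((k7x_incl_mem _).1 ⟨z, rfl⟩)), fun z => rfl⟩
  have hisurj : ∀ x : E0 k K₁ K u y, ∃ z, i z = x := by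
    intro x
    obtain ⟨z, hz1, hz2⟩ := hB x x.2
    obtain ⟨z', hz'⟩ := (k7x_incl_mem (k := k) z).2 hz1
    refine ⟨z', ?_⟩
    apply Subtype.ext
    rw [hi, hz', hz2]
  obtain ⟨t₀, ht0, ht1, ht2⟩ := hUC
  have hit0 : i t₀ ≠ 0 := by
    rw [Ne, map_eq_zero]
    exact ht0
  refine ⟨i t₀, hit0, ?_, ?_⟩
  · intro O hO
    by_cases hex : ∃ o, IsOrd (kb k K) O o
    · have ho : IsOrd (kb k K) O (od (kb k K) O) := by
        rw [od, dif_pos hex]
        exact hex.choose_spec
      have hmemP : ∀ z, z ∈ O.comap i ↔ i z ∈ O := fun z => Iff.rfl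
      have hPl : GTS.IsPlace k K₀ (O.comap i) := by
        constructor
        · intro a
          rw [hmemP]
          have h3 : i (algebraMap K₀ (GTS.Geo k K₀) (algebraMap k K₀ a)) =
              algebraMap (kb k K) (E0 k K₁ K u y) (algebraMap k (kb k K) a) := by
            apply Subtype.ext
            rw [hi]
            have h4 : k7x_incl k K₀ (algebraMap K₀ (GTS.Geo k K₀) (algebraMap k K₀ a)) =
                algebraMap K₀ (AlgebraicClosure K₀) (algebraMap k K₀ a) := rfl
            rw [h4, ← IsScalarTower.algebraMap_apply k K₀ (AlgebraicClosure K₀)]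
            exact (ι.restrictScalars k).commutes a
          rw [h3]
          exact hO.1 _
        · intro htop
          apply hO.2
          ext x
          refine ⟨fun _ => trivial, fun _ => ?_⟩
          obtain ⟨z, hz⟩ := hisurj x
          have h3 : z ∈ O.comap i := by
            rw [htop]
            trivial
          rw [hmemP, hz] at h3
          exact h3
      obtain ⟨z, hz⟩ := ht1 _ hPl
      obtain ⟨P, hP⟩ : ∃ P, P = O.comap i := ⟨_, rfl⟩
      rw [← hP] at hz hmemP
      have hvt : P.valuation t₀ ≠ 0 := (Valuation.ne_zero_iff _).2 ht0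
      have hz0 : z ≠ 0 := by
        rintro rfl
        rw [map_zero, zero_pow hℓ.ne_zero] at hz
        exact hvt hz
      have hzl : z ^ ℓ ≠ 0 := pow_ne_zero _ hz0
      have hx1 : P.valuation (t₀ * (z ^ ℓ)⁻¹) = 1 := by
        rw [map_mul, map_inv₀, map_pow, ← hz]
        exact mul_inv_cancel₀ hvt
      have hx2 : t₀ * (z ^ ℓ)⁻¹ ∈ P := by
        rw [← ValuationSubring.valuation_le_one_iff, hx1]
      have hx3 : (t₀ * (z ^ ℓ)⁻¹)⁻¹ ∈ P := by
        rw [← ValuationSubring.valuation_le_one_iff, map_inv₀, hx1, inv_one]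
      rw [hmemP] at hx2 hx3
      have hx0 : i (t₀ * (z ^ ℓ)⁻¹) ≠ 0 := by
        rw [Ne, map_eq_zero]
        exact mul_ne_zero ht0 (inv_ne_zero hzl)
      rw [map_inv₀] at hx3
      have ho1 := (ho.mem _ hx0).1 hx2
      have ho2 := (ho.mem _ (inv_ne_zero hx0)).1 hx3
      rw [h1c_inv ho _ hx0] at ho2
      have hiz0 : i z ≠ 0 := by
        rw [Ne, map_eq_zero]
        exact hz0
      have hizl : i z ^ ℓ ≠ 0 := pow_ne_zero _ hiz0
      have ho3 : od (kb k K) O (i (t₀ * (z ^ ℓ)⁻¹)) =
          od (kb k K) O (i t₀) - ℓ * od (kb k K) O (i z) := by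
        rw [map_mul, map_inv₀, map_pow, ho.mul _ _ hit0 (inv_ne_zero hizl), h1c_inv ho _ hizl,
          h1c_pow ho _ hiz0]
        ring
      refine ⟨od (kb k K) O (i z), ?_⟩
      omega
    · have h3 : od (kb k K) O (i t₀) = 0 := by
        rw [od, dif_neg hex]
      rw [h3]
      exact dvd_zero _
  · intro x hx
    obtain ⟨z, rfl⟩ := hisurj x
    apply ht2 z
    apply i.injective
    exact (RingHom.map_pow i z ℓ).trans hx

end SGT
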