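import Pool.Agent.SGT.StK

/-!
# [SGT-K8] from a section to a group of automorphisms (MP_3dd09b_ag)
-/

set_option autoImplicit false
set_option linter.unusedVariables false

open GT IsLocalRing Polynomial

namespace SGT

open SEC in
/-- The stabiliser of an element of `M_U` under a section is open. -/
theorem k8_open {B K : Type} [Field B] [Field K] [Algebra B K]
    (s : (kb B K ≃ₐ[B] kb B K) →* (FSC.MU B K Set.univ ≃ₐ[K] FSC.MU B K Set.univ))
    (hs : Continuous s) (z : FSC.MU B K Set.univ) :
    ∃ E : IntermediateField B (kb B K), FiniteDimensional B E ∧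
      ∀ σ ∈ E.fixingSubgroup, s σ z = z := by
  have halg : Algebra.IsAlgebraic K (FSC.MU B K Set.univ) := by
    have : Algebra.IsAlgebraic K (SCJ.Om K) :=
      (inferInstance : Algebra.IsAlgebraic K (AlgebraicClosure K))
    infer_instance
  have hz : IsIntegral K z := (Algebra.IsAlgebraic.isAlgebraic (R := K) z).isIntegral
  have : FiniteDimensional K (IntermediateField.adjoin K {z}) :=
    IntermediateField.adjoin.finiteDimensional hz
  have h1 : IsOpen ((IntermediateField.adjoin K {z}).fixingSubgroup :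
      Set (FSC.MU B K Set.univ ≃ₐ[K] FSC.MU B K Set.univ)) :=
    IntermediateField.fixingSubgroup_isOpen _
  have h2 : IsOpen (s ⁻¹' ((IntermediateField.adjoin K {z}).fixingSubgroup :
      Set (FSC.MU B K Set.univ ≃ₐ[K] FSC.MU B K Set.univ))) := h1.preimage hs
  have h3 : (s ⁻¹' ((IntermediateField.adjoin K {z}).fixingSubgroup :
      Set (FSC.MU B K Set.univ ≃ₐ[K] FSC.MU B K Set.univ))) ∈ nhds (1 : kb B K ≃ₐ[B] kb B K) := by
    refine h2.mem_nhds ?_
    rw [Set.mem_preimage, map_one]
    exact Subgroup.one_mem _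
  rw [krullTopology_mem_nhds_one_iff] at h3
  obtain ⟨E, hE, hsub⟩ := h3
  refine ⟨E, hE, fun σ hσ => ?_⟩
  have h4 := hsub hσ
  rw [Set.mem_preimage, SetLike.mem_coe, IntermediateField.mem_fixingSubgroup_iff] at h4
  exact h4 z (IntermediateField.mem_adjoin_simple_self K z)

open SEC in
/-- Automorphisms of `M_U` over `K` extend to `K^alg`. -/
theorem k8_extend {K : Type} [Field K] (M : IntermediateField K (Om K)) (γ : M ≃ₐ[K] M) :
    ∃ g : Om K ≃ₐ[K] Om K, ∀ z : M, g (z : Om K) = (γ z : Om K) := by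
  have : Normal K (Om K) := (inferInstance : Normal K (AlgebraicClosure K))
  exact ⟨γ.liftNormal (Om K), fun z => AlgEquiv.liftNormal_commutes γ (Om K) z⟩

open SEC in
/-- The elements of `k^alg` belong to `M_U`. -/
theorem k8_mem {B K : Type} [Field B] [Field K] [Algebra B K] {z : Om K} (hz : z ∈ Mnr B K) :
    z ∈ FSC.MU B K Set.univ := fun Q hQ _ σ hσ => hz Q hQ σ hσ

/-- An automorphism which fixes the elements of a basis fixes a finite extension. -/
theorem k8_basis {k C : Type} [Field k] [Field C] [Algebra k C] (E : IntermediateField k C)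
    [FiniteDimensional k E] : ∃ S : Finset C, ∀ σ : C ≃ₐ[k] C, (∀ β ∈ S, σ β = β) →
      σ ∈ E.fixingSubgroup := by
  classical
  let b := Module.finBasis k E
  refine ⟨Finset.univ.image fun i => ((b i : E) : C), fun σ hσ => ?_⟩
  rw [IntermediateField.mem_fixingSubgroup_iff]
  intro x hx
  have h6 := congrArg E.val (b.sum_repr ⟨x, hx⟩)
  rw [map_sum] at h6
  have h7 : x = ∑ i, (b.repr ⟨x, hx⟩ i) • ((b i : E) : C) := h6.symm
  rw [h7, map_sum]
  refine Finset.sum_congr rfl fun i _ => ?_
  rw [map_smul, hσ _ (Finset.mem_image_of_mem _ (Finset.mem_univ i))]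

open SEC in
theorem R_K8 : st_K8 := by
  intro B K _ _ _ _ s
  let H : Subgroup (Om K ≃+* Om K) :=
    { carrier := {g | (∀ x : K, g (algebraMap K (Om K) x) = algebraMap K (Om K) x) ∧
        ∃ τ : kb B K ≃ₐ[B] kb B K, (∀ β : kb B K, g (β : Om K) = (τ β : Om K)) ∧
          ∀ z : FSC.MMU B K Set.univ, g z.incl = ((s.toHom τ).act B K Set.univ z).incl}
      mul_mem' := by
        rintro g1 g2 ⟨h1, τ1, h2, h3⟩ ⟨h1', τ2, h2', h3'⟩
        refine ⟨fun x => ?_, τ1 * τ2, fun β => ?_, fun z => ?_⟩
        · change g1 (g2 _) = _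
          rw [h1', h1]
        · change g1 (g2 _) = _
          rw [h2', h2]
          rfl
        · change g1 (g2 _) = _
          rw [h3', h3]
          have : s.toHom (τ1 * τ2) = s.toHom τ1 * s.toHom τ2 := map_mul s.toHom τ1 τ2
          rw [this]
          rfl
      one_mem' := by
        refine ⟨fun x => rfl, 1, fun β => rfl, fun z => ?_⟩
        have : s.toHom (1 : kb B K ≃ₐ[B] kb B K) = 1 := map_one s.toHom
        rw [this]
        rfl
      inv_mem' := by
        rintro g ⟨h1, τ, h2, h3⟩
        refine ⟨fun x => ?_, τ⁻¹, fun β => ?_, fun z => ?_⟩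
        · apply g.injective
          change g (g.symm _) = _
          rw [RingEquiv.apply_symm_apply, h1]
        · apply g.injective
          change g (g.symm _) = _
          rw [RingEquiv.apply_symm_apply, h2]
          change _ = ((τ * τ⁻¹) β : Om K)
          rw [mul_inv_cancel]
          rfl
        · apply g.injective
          change g (g.symm _) = _
          rw [RingEquiv.apply_symm_apply, h3]
          have h4 : s.toHom τ * s.toHom τ⁻¹ = 1 := by
            have h5 : s.toHom τ⁻¹ = (s.toHom τ)⁻¹ := map_inv s.toHom τ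
            rw [h5, mul_inv_cancel]
          have h6 : (s.toHom τ).act B K Set.univ ((s.toHom τ⁻¹).act B K Set.univ z) = z := by
            change (s.toHom τ * s.toHom τ⁻¹).act B K Set.univ z = z
            rw [h4]
            rfl
          exact congrArg (FSC.MMU.incl B K Set.univ) h6.symm }
  refine ⟨H, fun g hg => hg.1, fun g hg => hg.2, ?_, ?_⟩
  · intro τ
    obtain ⟨g, hg⟩ := k8_extend (FSC.MU B K Set.univ) (s.toHom τ)
    have hβ : ∀ β : kb B K, g (β : Om K) = (τ β : Om K) := by
      intro β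
      have h1 := hg ⟨(β : Om K), k8_mem (kb_le _ β.2)⟩
      have h2 := s.split τ β (⟨(β : Om K), k8_mem (kb_le _ β.2)⟩ : FSC.MU B K Set.univ) rfl
      exact h1.trans h2
    exact ⟨(g : Om K ≃+* Om K), ⟨fun x => g.commutes x, τ, hβ, hg⟩, hβ, hg⟩
  · intro z hz
    obtain ⟨E, hEf, hE⟩ := k8_open (B := B) (K := K) s.toHom s.cont ⟨z, k8_mem hz⟩
    obtain ⟨S, hS⟩ := k8_basis E
    refine ⟨S, ?_⟩
    rintro g ⟨h1, τ, h2, h3⟩ hfix
    have h4 : τ ∈ E.fixingSubgroup := hS τ fun β hβ => Subtype.ext ((h2 β).symm.trans (hfix β hβ))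
    have h8 := hE τ h4
    have h9 := h3 (⟨z, k8_mem hz⟩ : FSC.MU B K Set.univ)
    exact h9.trans (congrArg (fun w : FSC.MU B K Set.univ => (w : SCJ.Om K)) h8)

end SGT
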