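import Pool.Agent.SGT.StK
import Pool.Agent.MP_c1dca2_ag.GT.E0

/-!
# [SGT-K9] the abstract setup from a section (MP_3dd09b_ag)
-/

set_option autoImplicit false
set_option linter.unusedVariables false

open GT IsLocalRing Polynomial

namespace SGT

open SEC

/-- an automorphism over `K` maps `L` to itself -/
theorem k9_sta {k K₁ B K : Type} [Field k] [CharZero k] [Field K₁] [Field B] [Field K]
    [Algebra k K₁] [Algebra k B] [Algebra k K] [Algebra B K] [Algebra K₁ K] [IsScalarTower k B K]
    [IsScalarTower k K₁ K] (g : Om K ≃+* Om K)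
    (hg : ∀ x : K, g (algebraMap K (Om K) x) = algebraMap K (Om K) x) :
    ∀ z ∈ L0 k K₁ B K, g z ∈ L0 k K₁ B K := by
  intro z hz
  obtain ⟨g', hg'⟩ : ∃ g' : Om K ≃ₐ[K] Om K, ∀ z, g' z = g z :=
    ⟨AlgEquiv.ofRingEquiv (f := g) hg, fun z => rfl⟩
  refine ⟨?_, ?_⟩
  · rw [← hg']
    exact GT.E0_normal_mem z hz.1 g'
  · have h1 : IsAlgebraic K₁ z := hz.2
    have h2 := h1.algHom (g'.toAlgHom.restrictScalars K₁)
    have h3 : (g'.toAlgHom.restrictScalars K₁) z = g z := hg' z
    rw [h3] at h2
    exact h2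

theorem R_K9 (hn3 : st_N3) (h1 : st_K1) (h1b : st_K1b) (h1c : st_K1c) (h5 : st_K5) (h6 : st_K6) :
    st_K9 := by
  intro k K₁ B K _ _ _ _ _ _ _ _ _ _ _ _ t y h m hT H hH u hu
  letI := algCk k B K
  obtain ⟨a1, a2, a3, a4, a5, a6⟩ := h1 k K₁ B K t y h m hT
  obtain ⟨b1, b2, b3, b4, b5⟩ := a6 u hu
  obtain ⟨c1, c2, c3⟩ := h1b k K₁ B K t y h m hT
  obtain ⟨d1, d2, d3, d4⟩ := c3 u hu
  obtain ⟨e1, e2, e3⟩ := h1c k K₁ B K t y h m hT
  have f5 := h5 k K₁ B K t y h m hT
  have f6 := h6 k K₁ B K t y h m hT u hu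
  have : CharZero (kb k K) :=
    charZero_of_injective_algebraMap (FaithfulSMul.algebraMap_injective k (kb k K))
  have : IsAlgClosed (Om K) := AlgebraicClosure.isAlgClosed K
  have hkF : ∀ x : K₁, algebraMap K₁ (Om K) x = algebraMap K (Om K) (algebraMap K₁ K x) := fun x =>
    IsScalarTower.algebraMap_apply K₁ K (Om K) x
  exact
    { tr := b1
      alg := b2
      hm := hT.hm
      kF := by
        intro a
        refine ⟨algebraMap k K₁ a, ?_⟩
        rw [hkF, ← IsScalarTower.algebraMap_apply k K₁ K]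
        rfl
      hF := ⟨h, rfl⟩
      h0 := by
        rw [Ne, map_eq_zero]
        exact hT.h0
      w := b3
      EE := rfl
      ff1 := c1
      ff := d1
      le := d2
      lvs := e3
      la := e2
      kc := f5
      nor := hn3 (kb k K) (kb B K) (Om K) _ _ _ f6
      fixF := by
        rintro g hg z ⟨x, rfl⟩
        rw [hkF]
        exact hH.fixK g hg _
      fixy := fun g hg => hH.fixK g hg y
      sta := by
        intro g hg z
        constructor
        · intro hz
          have h7 := k9_sta (k := k) (K₁ := K₁) (B := B) g⁻¹ (hH.fixK g⁻¹ (H.inv_mem hg)) (g z) hz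
          have h8 : g⁻¹ (g z) = z := g.symm_apply_apply z
          rw [h8] at h7
          exact h7
        · exact k9_sta (k := k) (K₁ := K₁) (B := B) g (hH.fixK g hg) z
      rst := by
        intro g hg
        obtain ⟨τ, hτ⟩ := hH.act g hg
        refine ⟨τ.toRingEquiv, fun β => hτ β, ?_, ?_⟩
        · intro a
          have h7 : algebraMap (kb k K) (kb B K) (algebraMap k (kb k K) a) =
              algebraMap B (kb B K) (algebraMap k B a) := by
            apply Subtype.ext
            change algebraMap k (Om K) a = algebraMap B (Om K) (algebraMap k B a)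
            rw [← IsScalarTower.algebraMap_apply k B (Om K)]
          rw [h7]
          exact τ.commutes _
        · rw [hu]
          exact τ.commutes t
      lift := by
        intro τ hτ1 hτ2
        have h7 : ∀ a : k, τ (algebraMap k (kb B K) a) = algebraMap k (kb B K) a := fun a => hτ1 a
        have h8 : ∀ z : B, τ (algebraMap B (kb B K) z) = algebraMap B (kb B K) z := fun z =>
          b4 z τ h7 hτ2
        obtain ⟨g, hg, hg'⟩ := hH.lift (AlgEquiv.ofRingEquiv (f := τ) h8)
        exact ⟨g, hg, fun β => hg' β⟩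
      cont := by
        intro z hz
        obtain ⟨S, hS⟩ := hH.cont z hz.1
        exact ⟨S, fun g hg hs => hS g hg hs⟩ }

end SGT
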