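import Pool.Agent.SGT.StA
import Pool.Agent.MP_c1dca2_ag.GT.H2a
import Pool.Agent.MP_c1dca2_ag.SC2.A2

/-!
# [SGT-N1] Galois theory of L / N (MP_3dd09b_ag)
-/

set_option autoImplicit false
set_option linter.unusedVariables false

open GT IsLocalRing Polynomial

namespace SGT

/-- `Ω` is Galois over `𝕜 N`. -/
private theorem n1_gal {C 𝕜 Ω : Type} [Field C] [CharZero C] [Field 𝕜] [Field Ω] [IsAlgClosed Ω]
    [Algebra C 𝕜] [Algebra 𝕜 Ω] [Algebra C Ω] [IsScalarTower C 𝕜 Ω] {F : Set Ω}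
    {E L : IntermediateField C Ω} (hI : Inr C 𝕜 F E L) (N : IntermediateField C Ω) (hEN : E ≤ N) :
    IsGalois (IntermediateField.adjoin 𝕜 (N : Set Ω)) Ω := by
  have hΩ : CharZero Ω := charZero_of_injective_algebraMap (algebraMap C Ω).injective
  have hM : CharZero (IntermediateField.adjoin 𝕜 (N : Set Ω)) :=
    RingHom.charZero (algebraMap (IntermediateField.adjoin 𝕜 (N : Set Ω)) Ω)
  have halg : Algebra.IsAlgebraic (IntermediateField.adjoin 𝕜 (N : Set Ω)) Ω := by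
    refine ⟨fun z => h2a_int ?_ (hI.alg z)⟩
    intro a
    have h1 : IntermediateField.adjoin 𝕜 (E : Set Ω) ≤ IntermediateField.adjoin 𝕜 (N : Set Ω) :=
      IntermediateField.adjoin.mono _ _ _ hEN
    exact ⟨⟨a, h1 a.2⟩, rfl⟩
  have : IsAlgClosure (IntermediateField.adjoin 𝕜 (N : Set Ω)) Ω := ⟨inferInstance, halg⟩
  exact IsAlgClosure.isGalois _ _

/-- An automorphism over `𝕜 N` is `𝕜`-linear and trivial on `N`. -/
private theorem n1_lin {C 𝕜 Ω : Type} [Field C] [Field 𝕜] [Field Ω]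
    [Algebra C 𝕜] [Algebra 𝕜 Ω] [Algebra C Ω] (N : IntermediateField C Ω)
    (g : Ω ≃ₐ[IntermediateField.adjoin 𝕜 (N : Set Ω)] Ω) :
    Lin 𝕜 (g : Ω ≃+* Ω) ∧ Tri (g : Ω ≃+* Ω) (N : Set Ω) := by
  constructor
  · intro c
    exact g.commutes ⟨algebraMap 𝕜 Ω c, IntermediateField.algebraMap_mem _ c⟩
  · intro z hz
    exact g.commutes ⟨z, IntermediateField.subset_adjoin _ _ hz⟩

theorem R_N1 (h5 : st_C5) : st_N1 := by
  intro C 𝕜 Ω _ _ _ _ _ _ _ _ _ _ _ F E L hI N hEN hNL z hz hzN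
  have hG := n1_gal hI N hEN
  have h1 : z ∉ IntermediateField.adjoin 𝕜 (N : Set Ω) := fun h =>
    hzN (h5 C 𝕜 Ω L N hI.ldj hNL z hz h)
  have h2 : ¬ ∀ g : Ω ≃ₐ[IntermediateField.adjoin 𝕜 (N : Set Ω)] Ω, g z = z := by
    intro h
    obtain ⟨y, hy⟩ := (InfiniteGalois.mem_range_algebraMap_iff_fixed
      (k := IntermediateField.adjoin 𝕜 (N : Set Ω)) (K := Ω) z).2 h
    exact h1 (hy ▸ y.2)
  push Not at h2
  obtain ⟨g, hg⟩ := h2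
  obtain ⟨h3, h4⟩ := n1_lin N g
  exact ⟨(g : Ω ≃+* Ω), h3, h4, hI.sta _ h3 (fun w hw => h4 w (hEN hw)), hg⟩

theorem R_N2 (h11 : st_A11) (h3 : st_C3) (h4 : st_C4) : st_N2 := by
  intro C 𝕜 Ω _ _ _ _ _ _ _ _ _ _ _ F E L hI N hEN hNL
  -- conjugacy of the extensions to `Ω`
  have key : ∀ P Q : ValuationSubring Ω, (∀ β : 𝕜, algebraMap 𝕜 Ω β ∈ P) →
      (∀ β : 𝕜, algebraMap 𝕜 Ω β ∈ Q) → Plc C (N : Set Ω) P → Eqv (N : Set Ω) P Q →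
      ∃ g : Ω ≃+* Ω, Lin 𝕜 g ∧ Tri g (N : Set Ω) ∧ Sta g (L : Set Ω) ∧ ∀ z, (g z ∈ Q ↔ z ∈ P) := by
    intro P Q hP hQ hPN hPQ
    have hG := n1_gal hI N hEN
    have hPL : Plc C (L : Set Ω) P := ⟨hPN.1, by
      obtain ⟨z, hz, hz'⟩ := hPN.2
      exact ⟨z, hNL hz, hz'⟩⟩
    have hRes : Res L P := (h11 C Ω F L hI.lvs P hPL).2
    have hRN : Res N P := fun z hz hzP => hRes z (hNL hz) hzP
    have h5 : Eqv (IntermediateField.adjoin 𝕜 (N : Set Ω) : Set Ω) P Q :=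
      (h3 C 𝕜 Ω N P hP hRN).1 Q hQ hPQ
    obtain ⟨g, hg⟩ := SC2.exists_conj (k := IntermediateField.adjoin 𝕜 (N : Set Ω)) (C := Ω)
      (A := P.comap (algebraMap (IntermediateField.adjoin 𝕜 (N : Set Ω)) Ω)) (V := P) (V' := Q)
      (fun a => Iff.rfl) (fun a => (h5 a a.2).symm)
    obtain ⟨h6, h7⟩ := n1_lin N g
    exact ⟨(g : Ω ≃+* Ω), h6, h7, hI.sta _ h6 (fun w hw => h7 w (hEN hw)), hg⟩
  refine ⟨key, ?_⟩
  intro P Q hP hQ hPQ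
  obtain ⟨P', hP', hPP⟩ := h4 C 𝕜 Ω L P hI.ldj hP.1
  obtain ⟨Q', hQ', hQQ⟩ := h4 C 𝕜 Ω L Q hI.ldj hQ.1
  have hPL : Plc C (L : Set Ω) P' := ⟨fun c => by
      rw [IsScalarTower.algebraMap_apply C 𝕜 Ω]
      exact hP' _, by
      obtain ⟨z, hz, hz'⟩ := hP.2
      exact ⟨z, hz, fun h => hz' ((hPP z hz).1 h)⟩⟩
  have hPE : Plc C (E : Set Ω) P' := (h11 C Ω F L hI.lvs P' hPL).1 E hI.le hI.ff
  have hPN : Plc C (N : Set Ω) P' := ⟨hPE.1, by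
      obtain ⟨z, hz, hz'⟩ := hPE.2
      exact ⟨z, hEN hz, hz'⟩⟩
  have h5 : Eqv (N : Set Ω) P' Q' := fun z hz => by
    rw [hPP z (hNL hz), hPQ z hz, hQQ z (hNL hz)]
  obtain ⟨g, h6, h7, h8, h9⟩ := key P' Q' hP' hQ' hPN h5
  refine ⟨g, h7, h8, fun z hz => ?_⟩
  rw [← hQQ (g z) ((h8 z).2 hz), h9 z, hPP z hz]

end SGT
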