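import Pool.Agent.SGT.StA

/-!
# [SGT-N3] Inr implies Nor (MP_3dd09b_ag)
-/

set_option autoImplicit false
set_option linter.unusedVariables false

open GT IsLocalRing Polynomial

namespace SGT

/-- An automorphism of `Ω` which is trivial on `E` and maps `N` onto `N` restricts to `N`. -/
private theorem n3_restrict {C Ω : Type} [Field C] [Field Ω] [Algebra C Ω]
    (E : IntermediateField C Ω) (N' : IntermediateField E Ω) (g : Ω ≃+* Ω)
    (hE : Tri g (E : Set Ω)) (h1 : ∀ z ∈ N', g z ∈ N') (h2 : ∀ z ∈ N', g.symm z ∈ N') :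
    ∃ φ : N' ≃ₐ[E] N', ∀ x : N', ((φ x : N') : Ω) = g (x : Ω) := by
  refine ⟨AlgEquiv.ofRingEquiv (f :=
    { toFun := fun x => ⟨g (x : Ω), h1 _ x.2⟩
      invFun := fun x => ⟨g.symm (x : Ω), h2 _ x.2⟩
      left_inv := fun x => by
        apply Subtype.ext
        simp
      right_inv := fun x => by
        apply Subtype.ext
        simp
      map_mul' := fun x y => by
        apply Subtype.ext
        simp
      map_add' := fun x y => by
        apply Subtype.ext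
        simp }) ?_, fun x => rfl⟩
  intro e
  apply Subtype.ext
  exact hE (e : Ω) e.2

/-- Artin: an automorphism `g` of `N` over `E` comes from a set `A` of automorphisms whose fixed field is
`E`. -/
private theorem n3_artin {C Ω : Type} [Field C] [Field Ω] [Algebra C Ω]
    (E : IntermediateField C Ω) (N' : IntermediateField E Ω) [FiniteDimensional E N']
    (A : (Ω ≃+* Ω) → Prop) (A1 : A 1) (Amul : ∀ g h, A g → A h → A (g * h)) (Ainv : ∀ g, A g → A g⁻¹)
    (hAE : ∀ g, A g → Tri g (E : Set Ω)) (hAN : ∀ g, A g → ∀ z ∈ N', g z ∈ N')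
    (hfix : ∀ z ∈ N', (∀ g, A g → g z = z) → z ∈ E)
    (g : Ω ≃+* Ω) (hE : Tri g (E : Set Ω)) (h1 : ∀ z ∈ N', g z ∈ N') (h2 : ∀ z ∈ N', g.symm z ∈ N') :
    ∃ g', A g' ∧ ∀ z ∈ N', g' z = g z := by
  let H : Subgroup (N' ≃ₐ[E] N') :=
    { carrier := {φ | ∃ g', A g' ∧ ∀ x : N', ((φ x : N') : Ω) = g' (x : Ω)}
      mul_mem' := by
        rintro φ ψ ⟨g1, hg1, e1⟩ ⟨g2, hg2, e2⟩
        refine ⟨g1 * g2, Amul _ _ hg1 hg2, fun x => ?_⟩
        rw [AlgEquiv.mul_apply, e1, e2]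
        rfl
      one_mem' := ⟨1, A1, fun x => rfl⟩
      inv_mem' := by
        rintro φ ⟨g1, hg1, e1⟩
        refine ⟨g1⁻¹, Ainv _ hg1, fun x => ?_⟩
        have h3 := e1 (φ⁻¹ x)
        have h4 : φ (φ⁻¹ x) = x := by
          rw [← AlgEquiv.mul_apply, mul_inv_cancel, AlgEquiv.one_apply]
        rw [h4] at h3
        rw [h3]
        change _ = g1.symm (g1 _)
        rw [RingEquiv.symm_apply_apply] }
  have hH : IntermediateField.fixedField H = ⊥ := by
    rw [eq_bot_iff]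
    intro x hx
    rw [IntermediateField.mem_fixedField_iff] at hx
    have hxE : (x : Ω) ∈ E := by
      refine hfix _ x.2 fun g' hg' => ?_
      obtain ⟨φ, hφ⟩ := n3_restrict E N' g' (hAE _ hg') (hAN _ hg') (hAN _ (Ainv _ hg'))
      have h5 := hx φ ⟨g', hg', hφ⟩
      rw [← hφ, h5]
    rw [IntermediateField.mem_bot]
    exact ⟨⟨(x : Ω), hxE⟩, Subtype.ext rfl⟩
  have htop : H = ⊤ := by
    rw [← IntermediateField.fixingSubgroup_fixedField H, hH, IntermediateField.fixingSubgroup_bot]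
  obtain ⟨φ, hφ⟩ := n3_restrict E N' g hE h1 h2
  have hmem : φ ∈ H := by
    rw [htop]
    exact Subgroup.mem_top φ
  obtain ⟨g', hg', e'⟩ := hmem
  refine ⟨g', hg', fun z hz => ?_⟩
  rw [← hφ ⟨z, hz⟩, ← e' ⟨z, hz⟩]

/-- The inverse of an automorphism in `Gr`. -/
private theorem n3_gr {C Ω : Type} [Field C] [Field Ω] [Algebra C Ω] (F : Set Ω)
    (E L : IntermediateField C Ω) (hF : F ⊆ E) (g : Ω ≃+* Ω) (hE : Tri g (E : Set Ω))
    (hL : Sta g (L : Set Ω)) : Gr C F (L : Set Ω) g ∧ Gr C F (L : Set Ω) g.symm := by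
  have hCE : ∀ c : C, g (algebraMap C Ω c) = algebraMap C Ω c := fun c =>
    hE _ (E.algebraMap_mem c)
  have hCE' : ∀ c : C, g.symm (algebraMap C Ω c) = algebraMap C Ω c := fun c => by
    rw [RingEquiv.symm_apply_eq, hCE]
  refine ⟨⟨fun z hz => hE z (hF hz), hL, fun z => ⟨?_, ?_⟩⟩,
    ⟨fun z hz => ?_, fun z => ?_, fun z => ⟨?_, ?_⟩⟩⟩
  · rintro ⟨c, hc⟩
    refine ⟨c, ?_⟩
    apply g.injective
    rw [hCE, hc]
  · rintro ⟨c, hc⟩
    refine ⟨c, ?_⟩
    rw [← hc, hCE]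
  · rw [RingEquiv.symm_apply_eq, hE z (hF hz)]
  · have h := hL (g.symm z)
    rw [RingEquiv.apply_symm_apply] at h
    exact h.symm
  · rintro ⟨c, hc⟩
    refine ⟨c, ?_⟩
    apply g.symm.injective
    rw [hCE', hc]
  · rintro ⟨c, hc⟩
    refine ⟨c, ?_⟩
    rw [← hc, hCE']

/-- The part `stab` of `Nor`. -/
private theorem n3_stab (h0g : st_A0g) (h11 : st_A11) (h4 : st_C4) (hn1 : st_N1) (hn2 : st_N2)
    (C 𝕜 Ω : Type) [Field C] [CharZero C] [IsAlgClosed C] [Field 𝕜]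
    [IsAlgClosed 𝕜] [Field Ω] [IsAlgClosed Ω] [Algebra C 𝕜] [Algebra 𝕜 Ω] [Algebra C Ω]
    [IsScalarTower C 𝕜 Ω] (F : Set Ω) (E L : IntermediateField C Ω) (h : Inr C 𝕜 F E L)
    (g : Ω ≃+* Ω) (hgE : Tri g (E : Set Ω)) (hgL : Sta g (L : Set Ω)) (P : ValuationSubring Ω)
    (hP : Plc C (L : Set Ω) P) (hgP : StP g (L : Set Ω) P) : Tri g (L : Set Ω) := by
  classical
  intro z hz
  -- a level `N ⊇ E` containing `z`
  obtain ⟨S, hS⟩ := h.fin
  have hSE : ∀ w ∈ S, w ∈ E := fun w hw => by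
    rw [hS]
    exact IntermediateField.subset_adjoin C _ (Or.inr hw)
  obtain ⟨N, hN, hSN⟩ := h.lvs (insert z S) (fun w hw => by
    rcases Finset.mem_insert.1 hw with rfl | hw
    · exact hz
    · exact h.le (hSE w hw))
  obtain ⟨hFN, hNL, hNF, hNst⟩ := hN
  have hEN : E ≤ N := by
    rw [hS, IntermediateField.adjoin_le_iff]
    rintro w (hw | hw)
    · exact hFN hw
    · exact hSN w (Finset.mem_insert_of_mem hw)
  have hzN : z ∈ N := hSN z (Finset.mem_insert_self z S)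
  -- finiteness of `N / E`
  obtain ⟨⟨S', hS'⟩, hAlg⟩ := h0g C Ω N hNF
  have hNE := hAlg E hEN h.ff
  set N' : IntermediateField E Ω := IntermediateField.adjoin E (S' : Set Ω) with hN'
  have hNN' : ∀ w, w ∈ N' ↔ w ∈ N := by
    intro w
    constructor
    · intro hw
      have h1 : N' ≤ IntermediateField.extendScalars hEN := by
        rw [hN', IntermediateField.adjoin_le_iff]
        intro v hv
        have hvN : v ∈ N := by
          rw [hS']
          exact IntermediateField.subset_adjoin C _ hv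
        exact hvN
      exact h1 hw
    · intro hw
      have h1 : N ≤ N'.restrictScalars C := by
        rw [hS', IntermediateField.adjoin_le_iff]
        intro v hv
        exact IntermediateField.subset_adjoin E _ hv
      exact h1 hw
  have hfd : FiniteDimensional E N' := by
    refine IntermediateField.finiteDimensional_adjoin ?_
    intro w hw
    have hwN : w ∈ N := by
      rw [hS']
      exact IntermediateField.subset_adjoin C _ hw
    exact (hNE w hwN).isIntegral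
  -- the automorphisms over `𝕜 E`
  set A : (Ω ≃+* Ω) → Prop := fun g' => Lin 𝕜 g' ∧ Tri g' (E : Set Ω) with hA
  have hAN : ∀ g', A g' → ∀ w ∈ N', g' w ∈ N' := by
    rintro g' ⟨hg1, hg2⟩ w hw
    rw [hNN'] at hw ⊢
    exact hNst g' (n3_gr F E L h.sub g' hg2 (h.sta g' hg1 hg2)).1 w hw
  have hgr := n3_gr F E L h.sub g hgE hgL
  obtain ⟨g', ⟨hg'1, hg'2⟩, hg'3⟩ := n3_artin E N' A
    ⟨fun c => rfl, fun w hw => rfl⟩
    (by
      rintro g1 g2 ⟨a1, b1⟩ ⟨a2, b2⟩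
      refine ⟨fun c => ?_, fun w hw => ?_⟩
      · change g1 (g2 _) = _
        rw [a2, a1]
      · change g1 (g2 _) = _
        rw [b2 w hw, b1 w hw])
    (by
      rintro g1 ⟨a1, b1⟩
      refine ⟨fun c => ?_, fun w hw => ?_⟩
      · change g1.symm _ = _
        rw [RingEquiv.symm_apply_eq, a1]
      · change g1.symm _ = _
        rw [RingEquiv.symm_apply_eq, b1 w hw])
    (fun g1 hg1 => hg1.2) hAN
    (by
      intro w hw hfix
      by_contra hwE
      rw [hNN'] at hw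
      obtain ⟨g1, c1, c2, c3, c4⟩ := hn1 C 𝕜 Ω F E L h E le_rfl h.le w (hNL hw) hwE
      exact c4 (hfix g1 ⟨c1, c2⟩))
    g hgE
    (fun w hw => by
      rw [hNN'] at hw ⊢
      exact hNst g hgr.1 w hw)
    (fun w hw => by
      rw [hNN'] at hw ⊢
      exact hNst g.symm hgr.2 w hw)
  have hg'N : ∀ w ∈ N, g' w = g w := fun w hw => hg'3 w ((hNN' w).2 hw)
  -- the extension of `P` to `𝕜 L`
  obtain ⟨Q, hQ𝕜, hQP⟩ := h4 C 𝕜 Ω L P h.ldj hP.1
  have hQC : ∀ c : C, algebraMap C Ω c ∈ Q := fun c => by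
    rw [IsScalarTower.algebraMap_apply C 𝕜 Ω]
    exact hQ𝕜 _
  have hQL : Plc C (L : Set Ω) Q := by
    refine ⟨hQC, ?_⟩
    obtain ⟨w, hw, hwP⟩ := hP.2
    exact ⟨w, hw, fun hwQ => hwP ((hQP w hw).1 hwQ)⟩
  have hQN : Plc C (N : Set Ω) Q := (h11 C Ω F L h.lvs Q hQL).1 N hNL hNF
  set P1 : ValuationSubring Ω := Q.comap (g' : Ω →+* Ω) with hP1
  have hP1m : ∀ w, w ∈ P1 ↔ g' w ∈ Q := fun w => by
    rw [hP1, ValuationSubring.mem_comap]
    rfl
  have hP1𝕜 : ∀ β : 𝕜, algebraMap 𝕜 Ω β ∈ P1 := fun β => by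
    rw [hP1m, hg'1 β]
    exact hQ𝕜 β
  have hEqv : Eqv (N : Set Ω) P1 Q := by
    intro w hw
    rw [hP1m, hg'N w hw]
    have hwL : w ∈ (L : Set Ω) := hNL hw
    have hgwL : g w ∈ (L : Set Ω) := (hgL w).2 hwL
    rw [hQP _ hgwL, hgP w hwL, hQP _ hwL]
  have hP1N : Plc C (N : Set Ω) P1 := by
    refine ⟨fun c => ?_, ?_⟩
    · rw [IsScalarTower.algebraMap_apply C 𝕜 Ω]
      exact hP1𝕜 _
    · obtain ⟨w, hw, hwQ⟩ := hQN.2
      exact ⟨w, hw, fun hw1 => hwQ ((hEqv w hw).1 hw1)⟩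
  obtain ⟨g2, d1, d2, d3, d4⟩ := (hn2 C 𝕜 Ω F E L h N hEN hNL).1 P1 Q hP1𝕜 hQ𝕜 hP1N hEqv
  -- the automorphism `γ = g' g2⁻¹`
  have hγL := h.ine (g2.symm.trans g')
    (fun β => by
      have : g2.symm (algebraMap 𝕜 Ω β) = algebraMap 𝕜 Ω β := by
        rw [RingEquiv.symm_apply_eq, d1]
      rw [RingEquiv.trans_apply, this, hg'1])
    (fun w hw => by
      have : g2.symm w = w := by
        rw [RingEquiv.symm_apply_eq, d2 w (hEN hw)]
      rw [RingEquiv.trans_apply, this, hg'2 w hw])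
    Q hQ𝕜
    (by
      rintro rfl
      obtain ⟨w, hw, hwQ⟩ := hQL.2
      exact hwQ (ValuationSubring.mem_top w))
    (fun w => by
      rw [RingEquiv.trans_apply, ← hP1m, ← d4, RingEquiv.apply_symm_apply])
  have h6 := hγL z hz
  have h7 : g2.symm z = z := by
    rw [RingEquiv.symm_apply_eq, d2 z hzN]
  rw [RingEquiv.trans_apply, h7, hg'N z hzN] at h6
  exact h6

theorem R_N3 (h0g : st_A0g) (h11 : st_A11) (h4 : st_C4) (hn1 : st_N1) (hn2 : st_N2) : st_N3 := by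
  intro C 𝕜 Ω _ _ _ _ _ _ _ _ _ _ _ F E L h
  refine ⟨?_, ?_, ?_⟩
  · intro N hEN hNL z hz hzN
    obtain ⟨g, h1, h2, h3, h5⟩ := hn1 C 𝕜 Ω F E L h N hEN hNL z hz hzN
    exact ⟨g, h2, h3, h5⟩
  · intro N hEN hNL P Q hP hQ hPQ
    exact (hn2 C 𝕜 Ω F E L h N hEN hNL).2 P Q hP hQ hPQ
  · intro g hgE hgL P hP hgP
    exact n3_stab h0g h11 h4 hn1 hn2 C 𝕜 Ω F E L h g hgE hgL P hP hgP

end SGT
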