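import Pool.Agent.SGT.StT

/-!
# [SGT-P2] finite extensions of fields with enough places (MP_3dd09b_ag)
-/

set_option autoImplicit false
set_option linter.unusedVariables false

open GT IsLocalRing Polynomial

namespace SGT

/-- A height one prime with finite residue field of a Dedekind domain gives a discrete valuation
ring with finite residue field. -/
private theorem p2_ded {R K : Type} [CommRing R] [IsDedekindDomain R] [Field K] [Algebra R K]
    [IsFractionRing R K] (v : IsDedekindDomain.HeightOneSpectrum R) (hfin : Finite (R ⧸ v.asIdeal)) :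
    IsDiscreteValuationRing (v.valuation K).valuationSubring ∧
      Finite (ResidueField (v.valuation K).valuationSubring) := by
  have : (v.valuation K).IsRankOneDiscrete := Valuation.IsRankOneDiscrete.mk' (v.valuation K)
  refine ⟨Valuation.valuationSubring_isDiscreteValuationRing (v.valuation K), ?_⟩
  obtain ⟨A, hA⟩ : ∃ A : ValuationSubring K, A = (v.valuation K).valuationSubring := ⟨_, rfl⟩
  rw [← hA]
  have hmem : ∀ z : K, z ∈ A ↔ v.valuation K z ≤ 1 := by
    intro z
    rw [hA]
    exact Valuation.mem_valuationSubring_iff _ _
  have hnon : ∀ z : A, v.valuation K (z : K) < 1 → z ∈ maximalIdeal A := by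
    intro z hz
    rw [mem_maximalIdeal, mem_nonunits_iff]
    intro hu
    obtain ⟨w, hw⟩ := hu.exists_right_inv
    have h1 : v.valuation K (z : K) * v.valuation K (w : K) = 1 := by
      rw [← map_mul]
      have : (z : K) * (w : K) = 1 := by
        have := congrArg (fun t : A => (t : K)) hw
        simpa using this
      rw [this, map_one]
    have h2 := (hmem (w : K)).1 w.2
    have h3 : v.valuation K (z : K) * v.valuation K (w : K) < 1 :=
      lt_of_le_of_lt (mul_le_of_le_one_right' h2) hz
    exact absurd h1 h3.ne
  let f : R →+* A := (algebraMap R K).codRestrict A.toSubring (fun r => by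
    rw [ValuationSubring.mem_toSubring, hmem]
    exact v.valuation_le_one r)
  have hf : ∀ r, ((f r : A) : K) = algebraMap R K r := fun r => rfl
  let g : R →+* ResidueField A := (residue A).comp f
  have hg : ∀ a ∈ v.asIdeal, g a = 0 := by
    intro a ha
    show residue A (f a) = 0
    rw [residue_eq_zero_iff]
    apply hnon
    rw [hf]
    exact (v.valuation_lt_one_iff_mem a).2 ha
  have hsurj : Function.Surjective (Ideal.Quotient.lift v.asIdeal g hg) := by
    intro x
    obtain ⟨z, rfl⟩ := residue_surjective x
    obtain ⟨a, ha⟩ := v.exists_valuation_sub_lt_of_integer ((hmem (z : K)).1 z.2) 1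
    refine ⟨Ideal.Quotient.mk _ a, ?_⟩
    rw [Ideal.Quotient.lift_mk]
    show residue A (f a) = residue A z
    rw [← sub_eq_zero, ← map_sub, residue_eq_zero_iff]
    apply hnon
    rw [AddSubgroupClass.coe_sub, hf]
    simpa using ha
  exact Finite.of_surjective _ hsurj

theorem R_P2 : st_P2 := by
  intro k k' _ _ _ _ _ hk T'
  classical
  -- the coefficients of the minimal polynomials
  obtain ⟨A, hTA, hdvr, hfin⟩ := hk (T'.biUnion (fun t => (minpoly k t).coeffs))
  let : Algebra A k' := ((algebraMap k k').comp A.subtype).toAlgebra
  have : IsScalarTower A k k' := IsScalarTower.of_algebraMap_eq' rfl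
  have hint : ∀ t ∈ T', IsIntegral A t := by
    intro t ht
    have hti : IsIntegral k t := Algebra.IsIntegral.isIntegral t
    have hl : minpoly k t ∈ Polynomial.lifts A.subtype := by
      rw [Polynomial.lifts_iff_coeff_lifts]
      intro n
      by_cases hn : (minpoly k t).coeff n = 0
      · exact ⟨0, by rw [hn, map_zero]⟩
      · have h1 : (minpoly k t).coeff n ∈ A := by
          apply hTA
          rw [Finset.mem_biUnion]
          exact ⟨t, ht, Polynomial.coeff_mem_coeffs hn⟩
        exact ⟨⟨_, h1⟩, rfl⟩
    obtain ⟨q, hq1, _, hq3⟩ := Polynomial.lifts_and_natDegree_eq_and_monic hl (minpoly.monic hti)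
    refine ⟨q, hq3, ?_⟩
    have h2 : (algebraMap A k') = (algebraMap k k').comp A.subtype := rfl
    rw [h2, ← Polynomial.eval₂_map, hq1]
    exact minpoly.aeval k t
  have : Algebra.IsSeparable k k' := inferInstance
  have : IsDedekindDomain (integralClosure A k') := integralClosure.isDedekindDomain A k k'
  have : IsFractionRing (integralClosure A k') k' :=
    integralClosure.isFractionRing_of_finite_extension k k'
  have : Module.Finite A (integralClosure A k') := IsIntegralClosure.finite A k k' _
  have : Algebra.IsIntegral A (integralClosure A k') := inferInstance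
  obtain ⟨M, hM⟩ := Ideal.exists_maximal (integralClosure A k')
  have hMp : M.IsPrime := hM.isPrime
  have hcm : (M.comap (algebraMap A (integralClosure A k'))).IsMaximal :=
    Ideal.isMaximal_comap_of_isIntegral_of_isMaximal M
  have hMbot : M ≠ ⊥ := by
    intro h
    have h1 : M.comap (algebraMap A (integralClosure A k')) = ⊥ := by
      rw [h, ← RingHom.ker_eq_comap_bot]
      refine (RingHom.injective_iff_ker_eq_bot _).1 (fun a b hab => ?_)
      have h3 : algebraMap A k' a = algebraMap A k' b := congrArg (fun t : integralClosure A k' => (t : k')) hab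
      exact Subtype.ext ((algebraMap k k').injective h3)
    rw [h1] at hcm
    have h2 := IsLocalRing.eq_maximalIdeal hcm
    exact (IsDiscreteValuationRing.not_a_field A) h2.symm
  let v : IsDedekindDomain.HeightOneSpectrum (integralClosure A k') := ⟨M, hMp, hMbot⟩
  have hfin2 : Finite (integralClosure A k' ⧸ v.asIdeal) := by
    show Finite (integralClosure A k' ⧸ M)
    have : M.LiesOver (maximalIdeal A) := ⟨(IsLocalRing.eq_maximalIdeal hcm).symm⟩
    have : Finite (A ⧸ maximalIdeal A) := hfin
    exact Module.finite_of_finite (A ⧸ maximalIdeal A)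
  obtain ⟨h1, h2⟩ := p2_ded (K := k') v hfin2
  refine ⟨_, ?_, h1, h2⟩
  intro t ht
  rw [Valuation.mem_valuationSubring_iff]
  exact v.valuation_le_one (⟨t, hint t ht⟩ : integralClosure A k')

end SGT
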