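import Pool.Agent.SGT.StT

/-!
# [SGT-P3] purely transcendental extensions of fields with enough places (MP_3dd09b_ag)

`k' = k(x)`. We choose `A` (a discrete valuation ring of `k` with finite residue field) and a sequence
`a n` in a disc, such that the orders of `p(a n)` are bounded for every nonzero polynomial `p`. The
elements `f` of `k'` such that `f(a n) ∈ A` for almost all `n` (with respect to a nonprincipal
ultrafilter) form a discrete valuation ring with the same uniformiser, whose residue field is a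
quotient of the (finite) residue field of `A`.
-/

set_option autoImplicit false
set_option linter.unusedVariables false

open GT IsLocalRing Polynomial

namespace SGT

/-- `π` is a uniformiser of the rank one valuation ring `A`, written without the ring structure of
`A`. -/
structure p3_Unif {k : Type} [Field k] (A : ValuationSubring k) (π : k) : Prop where
  mem : π ∈ A
  inv : π⁻¹ ∉ A
  gen : ∀ z ∈ A, z⁻¹ ∈ A ∨ π⁻¹ * z ∈ A
  arch : ∀ z : k, ∃ M : ℕ, π ^ M * z ∈ A

section one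

variable {k : Type} [Field k] {A : ValuationSubring k} {π : k}

theorem p3_Unif.ne (h : p3_Unif A π) : π ≠ 0 := by
  intro h0
  apply h.inv
  rw [h0, inv_zero]
  exact A.zero_mem

theorem p3_Unif.pow_mem (h : p3_Unif A π) (n : ℕ) : π ^ n ∈ A := A.pow_mem h.mem n

/-- `1 + π s` is a unit. -/
theorem p3_Unif.one_add (h : p3_Unif A π) {s : k} (hs : s ∈ A) :
    1 + π * s ≠ 0 ∧ (1 + π * s)⁻¹ ∈ A := by
  have hne := h.ne
  constructor
  · intro h0
    apply h.inv
    have : π⁻¹ = -s := by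
      field_simp
      linear_combination h0
    rw [this]
    exact A.neg_mem _ hs
  · rcases h.gen (1 + π * s) (A.add_mem _ _ A.one_mem (A.mul_mem _ _ h.mem hs)) with h1 | h1
    · exact h1
    · exfalso
      apply h.inv
      have : π⁻¹ = π⁻¹ * (1 + π * s) + -s := by
        field_simp
        ring
      rw [this]
      exact A.add_mem _ _ h1 (A.neg_mem _ hs)

/-- A uniformiser of a discrete valuation ring. -/
theorem p3_exists_unif {k : Type} [Field k] (A : ValuationSubring k)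
    (hA : IsDiscreteValuationRing A) : ∃ π : k, p3_Unif A π := by
  obtain ⟨ϖ, hϖ⟩ := IsDiscreteValuationRing.exists_irreducible A
  have hne : (ϖ : k) ≠ 0 := fun h0 => hϖ.ne_zero (Subtype.ext h0)
  refine ⟨(ϖ : k), ϖ.2, ?_, ?_, ?_⟩
  · intro hinv
    apply hϖ.not_isUnit
    refine IsUnit.of_mul_eq_one (⟨_, hinv⟩ : A) (Subtype.ext ?_)
    change (ϖ : k) * (ϖ : k)⁻¹ = 1
    exact mul_inv_cancel₀ hne
  · intro z hz
    by_cases hu : IsUnit (⟨z, hz⟩ : A)
    · left
      obtain ⟨w, hw⟩ := hu.exists_right_inv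
      have hw' : z * (w : k) = 1 := congrArg Subtype.val hw
      rw [inv_eq_of_mul_eq_one_right hw']
      exact w.2
    · right
      have hm : (⟨z, hz⟩ : A) ∈ maximalIdeal A := (mem_maximalIdeal _).2 hu
      rw [hϖ.maximalIdeal_eq, Ideal.mem_span_singleton] at hm
      obtain ⟨w, hw⟩ := hm
      have hw' : z = (ϖ : k) * (w : k) := congrArg Subtype.val hw
      rw [hw', inv_mul_cancel_left₀ hne]
      exact w.2
  · intro z
    rcases A.mem_or_inv_mem z with hz | hz
    · exact ⟨0, by simpa using hz⟩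
    · by_cases hz0 : z = 0
      · exact ⟨0, by rw [hz0, mul_zero]; exact A.zero_mem⟩
      have hz0' : (⟨z⁻¹, hz⟩ : A) ≠ 0 := by
        intro h0
        exact inv_ne_zero hz0 (congrArg Subtype.val h0)
      obtain ⟨n, u, hu⟩ := IsDiscreteValuationRing.eq_unit_mul_pow_irreducible hz0' hϖ
      refine ⟨n, ?_⟩
      have hu' : z⁻¹ = ((u : A) : k) * (ϖ : k) ^ n := congrArg Subtype.val hu
      have hv : ((u : A) : k) * (((u⁻¹ : Aˣ) : A) : k) = 1 := by
        have := congrArg Subtype.val (Units.mul_inv u)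
        exact this
      have : (ϖ : k) ^ n * z = (((u⁻¹ : Aˣ) : A) : k) := by
        have h1 : z⁻¹ * z = 1 := inv_mul_cancel₀ hz0
        rw [hu'] at h1
        calc (ϖ : k) ^ n * z = (((u : A) : k) * (((u⁻¹ : Aˣ) : A) : k)) * ((ϖ : k) ^ n * z) := by
              rw [hv, one_mul]
          _ = (((u⁻¹ : Aˣ) : A) : k) * (((u : A) : k) * (ϖ : k) ^ n * z) := by ring
          _ = _ := by rw [h1, mul_one]
      rw [this]
      exact ((u⁻¹ : Aˣ) : A).2

/-- Polynomials are Lipschitz on `A`. -/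
theorem p3_lip (h : p3_Unif A π) (p : k[X]) : ∃ K : ℕ, ∀ b c : k, b ∈ A → c ∈ A →
    ∃ t ∈ A, π ^ K * (p.eval b - p.eval c) = (b - c) * t := by
  induction p using Polynomial.induction_on' with
  | add p q hp hq =>
    obtain ⟨K1, h1⟩ := hp
    obtain ⟨K2, h2⟩ := hq
    refine ⟨K1 + K2, fun b c hb hc => ?_⟩
    obtain ⟨t1, ht1, e1⟩ := h1 b c hb hc
    obtain ⟨t2, ht2, e2⟩ := h2 b c hb hc
    refine ⟨π ^ K2 * t1 + π ^ K1 * t2, A.add_mem _ _ (A.mul_mem _ _ (h.pow_mem _) ht1)
      (A.mul_mem _ _ (h.pow_mem _) ht2), ?_⟩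
    rw [Polynomial.eval_add, Polynomial.eval_add, pow_add]
    linear_combination π ^ K2 * e1 + π ^ K1 * e2
  | monomial n a =>
    obtain ⟨K, hK⟩ := h.arch a
    refine ⟨K, fun b c hb hc => ?_⟩
    obtain ⟨t, ht⟩ := sub_dvd_pow_sub_pow (⟨b, hb⟩ : A) (⟨c, hc⟩ : A) n
    have ht' : b ^ n - c ^ n = (b - c) * (t : k) := congrArg Subtype.val ht
    refine ⟨π ^ K * a * (t : k), A.mul_mem _ _ hK t.2, ?_⟩
    rw [Polynomial.eval_monomial, Polynomial.eval_monomial]
    linear_combination π ^ K * a * ht'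

/-- The values of a polynomial on `A` are bounded. -/
theorem p3_bdd (h : p3_Unif A π) (p : k[X]) : ∃ K : ℕ, ∀ b : k, b ∈ A → π ^ K * p.eval b ∈ A := by
  obtain ⟨K, hK⟩ := p3_lip h p
  obtain ⟨M, hM⟩ := h.arch (p.eval 0)
  refine ⟨K + M, fun b hb => ?_⟩
  obtain ⟨t, ht, e⟩ := hK b 0 hb A.zero_mem
  have : π ^ (K + M) * p.eval b = π ^ M * (b * t) + π ^ K * (π ^ M * p.eval 0) := by
    rw [pow_add]
    linear_combination π ^ M * e
  rw [this]
  exact A.add_mem _ _ (A.mul_mem _ _ (h.pow_mem _) (A.mul_mem _ _ hb ht))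
    (A.mul_mem _ _ (h.pow_mem _) hM)

/-- The disc `c + π ^ N A`. -/
def p3_disc (A : ValuationSubring k) (π c : k) (N : ℕ) : Set k := {b | ∃ t ∈ A, b = c + π ^ N * t}

theorem p3_self (c : k) (N : ℕ) : c ∈ p3_disc A π c N := ⟨0, A.zero_mem, by ring⟩

theorem p3_disc_mem (h : p3_Unif A π) {c : k} (hc : c ∈ A) {N : ℕ} {b : k}
    (hb : b ∈ p3_disc A π c N) : b ∈ A := by
  obtain ⟨t, ht, rfl⟩ := hb
  exact A.add_mem _ _ hc (A.mul_mem _ _ (h.pow_mem _) ht)

/-- Every disc contains a disc on which the given polynomial is bounded away from zero. -/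
theorem p3_step [CharZero k] (h : p3_Unif A π) (p : k[X]) (hp : p ≠ 0) (c : k) (hc : c ∈ A)
    (N : ℕ) : ∃ c' ∈ A, ∃ N' : ℕ, p3_disc A π c' N' ⊆ p3_disc A π c N ∧
      ∃ M : ℕ, ∀ b ∈ p3_disc A π c' N', p.eval b ≠ 0 ∧ π ^ M * (p.eval b)⁻¹ ∈ A := by
  have hne := h.ne
  -- a point of the disc which is not a root of `p`
  have h1 : ∃ m : ℕ, p.eval (c + π ^ N * (m : k)) ≠ 0 := by
    by_contra hcon
    push Not at hcon
    apply hp
    refine Polynomial.eq_zero_of_infinite_isRoot p ?_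
    refine Set.Infinite.mono (s := Set.range fun m : ℕ => c + π ^ N * (m : k)) ?_ ?_
    · rintro _ ⟨m, rfl⟩
      exact hcon m
    · refine Set.infinite_range_of_injective ?_
      intro m m' hmm
      have h2 : π ^ N * (m : k) = π ^ N * (m' : k) := by
        have : c + π ^ N * (m : k) = c + π ^ N * (m' : k) := hmm
        exact add_left_cancel this
      exact Nat.cast_injective (mul_left_cancel₀ (pow_ne_zero N hne) h2)
  obtain ⟨m, hm⟩ := h1
  have hmA : (m : k) ∈ A := by
    have := (m : A).2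
    simp
  set c' : k := c + π ^ N * (m : k) with hc'
  have hc'A : c' ∈ A := A.add_mem _ _ hc (A.mul_mem _ _ (h.pow_mem _) hmA)
  obtain ⟨K, hK⟩ := p3_lip h p
  obtain ⟨M, hM⟩ := h.arch (p.eval c')⁻¹
  refine ⟨c', hc'A, N + K + M + 1, ?_, M, ?_⟩
  · rintro b ⟨t, ht, rfl⟩
    refine ⟨(m : k) + π ^ (K + M + 1) * t, A.add_mem _ _ hmA (A.mul_mem _ _ (h.pow_mem _) ht), ?_⟩
    rw [hc', show N + K + M + 1 = N + (K + M + 1) by ring, pow_add]
    ring
  · rintro b ⟨t, ht, rfl⟩
    have hbA : c' + π ^ (N + K + M + 1) * t ∈ A :=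
      A.add_mem _ _ hc'A (A.mul_mem _ _ (h.pow_mem _) ht)
    obtain ⟨s, hs, e⟩ := hK _ _ hbA hc'A
    have hs' : π ^ N * t * s * (π ^ M * (p.eval c')⁻¹) ∈ A :=
      A.mul_mem _ _ (A.mul_mem _ _ (A.mul_mem _ _ (h.pow_mem _) ht) hs) hM
    obtain ⟨h2, h3⟩ := h.one_add hs'
    have e2 : p.eval (c' + π ^ (N + K + M + 1) * t)
        = p.eval c' * (1 + π * (π ^ N * t * s * (π ^ M * (p.eval c')⁻¹))) := by
      have e3 : p.eval (c' + π ^ (N + K + M + 1) * t) - p.eval c'
          = π ^ (N + M + 1) * t * s := by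
        have hK0 : π ^ K ≠ 0 := pow_ne_zero _ hne
        apply mul_left_cancel₀ hK0
        rw [e, show N + K + M + 1 = K + (N + M + 1) by ring, pow_add]
        ring
      have e4 : π * (π ^ N * t * s * (π ^ M * (p.eval c')⁻¹))
          = π ^ (N + M + 1) * t * s * (p.eval c')⁻¹ := by
        rw [show N + M + 1 = N + M + 1 from rfl, pow_add, pow_add]
        ring
      rw [e4, ← e3]
      field_simp
      ring
    refine ⟨?_, ?_⟩
    · rw [e2]
      exact mul_ne_zero hm h2
    · rw [e2, mul_inv, ← mul_assoc]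
      exact A.mul_mem _ _ hM h3

/-- A sequence in the disc `a + π A` on which all nonzero polynomials are bounded away from zero. -/
theorem p3_seq [CharZero k] [Countable k] (h : p3_Unif A π) (a : k) (ha : a ∈ A) :
    ∃ s : ℕ → k, (∀ n, s n ∈ p3_disc A π a 1) ∧
      ∀ p : k[X], p ≠ 0 → ∃ M : ℕ, ∀ᶠ n in Filter.atTop,
        p.eval (s n) ≠ 0 ∧ π ^ M * (p.eval (s n))⁻¹ ∈ A := by
  classical
  have hcnt : Countable {p : k[X] // p ≠ 0} := by
    have : Countable k[X] := by
      rw [← Cardinal.mk_le_aleph0_iff]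
      refine le_trans Polynomial.cardinalMk_le_max ?_
      exact max_le (Cardinal.mk_le_aleph0_iff.2 inferInstance) le_rfl
    infer_instance
  have : Nonempty {p : k[X] // p ≠ 0} := ⟨⟨1, one_ne_zero⟩⟩
  obtain ⟨e, he⟩ := exists_surjective_nat {p : k[X] // p ≠ 0}
  have hstep : ∀ (n : ℕ) (D : {D : k × ℕ // D.1 ∈ A}), ∃ D' : {D : k × ℕ // D.1 ∈ A},
      p3_disc A π D'.1.1 D'.1.2 ⊆ p3_disc A π D.1.1 D.1.2 ∧
      ∃ M : ℕ, ∀ b ∈ p3_disc A π D'.1.1 D'.1.2,
        (e n).1.eval b ≠ 0 ∧ π ^ M * ((e n).1.eval b)⁻¹ ∈ A := by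
    intro n D
    obtain ⟨c', hc', N', h1, h2⟩ := p3_step h (e n).1 (e n).2 D.1.1 D.2 D.1.2
    exact ⟨⟨(c', N'), hc'⟩, h1, h2⟩
  choose F hF1 hF2 using hstep
  let D : ℕ → {D : k × ℕ // D.1 ∈ A} := fun n => Nat.rec ⟨(a, 1), ha⟩ (fun n D => F n D) n
  have hD : ∀ n, D (n + 1) = F n (D n) := fun n => rfl
  have hmono : ∀ n m, n ≤ m → p3_disc A π (D m).1.1 (D m).1.2 ⊆ p3_disc A π (D n).1.1 (D n).1.2 := by
    intro n m hnm
    induction m, hnm using Nat.le_induction with
    | base => exact fun _ h => h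
    | succ m hm ih =>
      refine Set.Subset.trans ?_ ih
      rw [hD]
      exact hF1 m (D m)
  refine ⟨fun n => (D n).1.1, fun n => hmono 0 n (Nat.zero_le n) (p3_self _ _), ?_⟩
  intro p hp
  obtain ⟨n, hn⟩ := he ⟨p, hp⟩
  obtain ⟨M, hM⟩ := hF2 n (D n)
  refine ⟨M, ?_⟩
  filter_upwards [Filter.eventually_ge_atTop (n + 1)] with m hm
  have h1 := hM (D m).1.1 (by
    rw [← hD]
    exact hmono (n + 1) m hm (p3_self _ _))
  rw [hn] at h1
  exact h1

end one

section two

variable {k k' : Type} [Field k] [Field k'] [Algebra k k'] {x : k'} {A : ValuationSubring k} {π : k}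

/-- The values of `f = p(x) / q(x)` along the sequence `s`. -/
noncomputable def p3_ev (x : k') (hx : IntermediateField.adjoin k {x} = ⊤) (s : ℕ → k) (f : k')
    (n : ℕ) : k := by
  have h : ∃ r : k[X] × k[X], f = aeval x r.1 / aeval x r.2 ∧ r.2 ≠ 0 := by
    have hf : f ∈ IntermediateField.adjoin k {x} := by rw [hx]; trivial
    obtain ⟨p, q, e⟩ := (IntermediateField.mem_adjoin_simple_iff k f).1 hf
    by_cases hq : q = 0
    · exact ⟨(0, 1), by rw [e, hq]; simp, one_ne_zero⟩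
    · exact ⟨(p, q), e, hq⟩
  exact (Classical.choose h).1.eval (s n) / (Classical.choose h).2.eval (s n)

theorem p3_exists (hx : IntermediateField.adjoin k {x} = ⊤) (s : ℕ → k) (f : k') :
    ∃ p q : k[X], q ≠ 0 ∧ f = aeval x p / aeval x q ∧
      ∀ n, p3_ev x hx s f n = p.eval (s n) / q.eval (s n) := by
  have h : ∃ r : k[X] × k[X], f = aeval x r.1 / aeval x r.2 ∧ r.2 ≠ 0 := by
    have hf : f ∈ IntermediateField.adjoin k {x} := by rw [hx]; trivial
    obtain ⟨p, q, e⟩ := (IntermediateField.mem_adjoin_simple_iff k f).1 hf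
    by_cases hq : q = 0
    · exact ⟨(0, 1), by rw [e, hq]; simp, one_ne_zero⟩
    · exact ⟨(p, q), e, hq⟩
  exact ⟨(Classical.choose h).1, (Classical.choose h).2, (Classical.choose_spec h).2,
    (Classical.choose_spec h).1, fun n => rfl⟩

/-- The sequence `s` is generic: the nonzero polynomials are bounded away from zero along `s`. -/
def p3_Gen (A : ValuationSubring k) (π : k) (s : ℕ → k) : Prop :=
  (∀ n, s n ∈ A) ∧ ∀ p : k[X], p ≠ 0 → ∃ M : ℕ, ∀ᶠ n in Filter.atTop,
    p.eval (s n) ≠ 0 ∧ π ^ M * (p.eval (s n))⁻¹ ∈ A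

theorem p3_ev_eq (hx : IntermediateField.adjoin k {x} = ⊤) (ht : Transcendental k x) {s : ℕ → k}
    (hs : p3_Gen A π s) {f : k'} {p q : k[X]} (hq : q ≠ 0) (hf : f = aeval x p / aeval x q) :
    ∀ᶠ n in Filter.atTop, p3_ev x hx s f n = p.eval (s n) / q.eval (s n) := by
  obtain ⟨p1, q1, hq1, hf1, hev⟩ := p3_exists hx s f
  have hinj : Function.Injective (aeval x : k[X] →ₐ[k] k') :=
    transcendental_iff_injective.1 ht
  have hqx : aeval x q ≠ 0 := fun h => hq (hinj (by rw [h, map_zero]))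
  have hqx1 : aeval x q1 ≠ 0 := fun h => hq1 (hinj (by rw [h, map_zero]))
  have e : p1 * q = p * q1 := by
    apply hinj
    rw [map_mul, map_mul]
    rw [hf1, div_eq_div_iff hqx1 hqx] at hf
    exact hf
  obtain ⟨M, hM⟩ := hs.2 q hq
  obtain ⟨M1, hM1⟩ := hs.2 q1 hq1
  filter_upwards [hM, hM1] with n h1 h2
  rw [hev n, div_eq_div_iff h2.1 h1.1, ← Polynomial.eval_mul, e, Polynomial.eval_mul]

theorem p3_ev_add (hx : IntermediateField.adjoin k {x} = ⊤) (ht : Transcendental k x) {s : ℕ → k}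
    (hs : p3_Gen A π s) (f g : k') :
    ∀ᶠ n in Filter.atTop, p3_ev x hx s (f + g) n = p3_ev x hx s f n + p3_ev x hx s g n := by
  obtain ⟨p, q, hq, hf, hev⟩ := p3_exists hx s f
  obtain ⟨p1, q1, hq1, hf1, hev1⟩ := p3_exists hx s g
  have hinj : Function.Injective (aeval x : k[X] →ₐ[k] k') :=
    transcendental_iff_injective.1 ht
  have hqx : aeval x q ≠ 0 := fun h => hq (hinj (by rw [h, map_zero]))
  have hqx1 : aeval x q1 ≠ 0 := fun h => hq1 (hinj (by rw [h, map_zero]))
  have e : f + g = aeval x (p * q1 + q * p1) / aeval x (q * q1) := by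
    rw [hf, hf1, div_add_div _ _ hqx hqx1, map_add, map_mul, map_mul, map_mul]
  obtain ⟨M, hM⟩ := hs.2 q hq
  obtain ⟨M1, hM1⟩ := hs.2 q1 hq1
  filter_upwards [p3_ev_eq hx ht hs (mul_ne_zero hq hq1) e, hM, hM1] with n h1 h2 h3
  rw [h1, hev, hev1, div_add_div _ _ h2.1 h3.1, Polynomial.eval_add, Polynomial.eval_mul,
    Polynomial.eval_mul, Polynomial.eval_mul]

theorem p3_ev_mul (hx : IntermediateField.adjoin k {x} = ⊤) (ht : Transcendental k x) {s : ℕ → k}
    (hs : p3_Gen A π s) (f g : k') :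
    ∀ᶠ n in Filter.atTop, p3_ev x hx s (f * g) n = p3_ev x hx s f n * p3_ev x hx s g n := by
  obtain ⟨p, q, hq, hf, hev⟩ := p3_exists hx s f
  obtain ⟨p1, q1, hq1, hf1, hev1⟩ := p3_exists hx s g
  have e : f * g = aeval x (p * p1) / aeval x (q * q1) := by
    rw [hf, hf1, div_mul_div_comm, map_mul, map_mul]
  filter_upwards [p3_ev_eq hx ht hs (mul_ne_zero hq hq1) e] with n h1
  rw [h1, hev, hev1, div_mul_div_comm, Polynomial.eval_mul, Polynomial.eval_mul]

theorem p3_ev_const (hx : IntermediateField.adjoin k {x} = ⊤) (ht : Transcendental k x) {s : ℕ → k}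
    (hs : p3_Gen A π s) (c : k) :
    ∀ᶠ n in Filter.atTop, p3_ev x hx s (algebraMap k k' c) n = c := by
  have e : algebraMap k k' c = aeval x (C c) / aeval x (1 : k[X]) := by
    rw [aeval_C, map_one, div_one]
  filter_upwards [p3_ev_eq hx ht hs one_ne_zero e] with n h1
  rw [h1, Polynomial.eval_C, Polynomial.eval_one, div_one]

theorem p3_ev_inv (hx : IntermediateField.adjoin k {x} = ⊤) (ht : Transcendental k x) {s : ℕ → k}
    (hs : p3_Gen A π s) {f : k'} (hf : f ≠ 0) :
    ∀ᶠ n in Filter.atTop, p3_ev x hx s f n ≠ 0 ∧ p3_ev x hx s f⁻¹ n = (p3_ev x hx s f n)⁻¹ := by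
  have h1 := p3_ev_mul hx ht hs f f⁻¹
  rw [mul_inv_cancel₀ hf] at h1
  have h2 := p3_ev_const hx ht hs (1 : k)
  rw [map_one] at h2
  filter_upwards [h1, h2] with n h3 h4
  rw [h4] at h3
  have h5 : p3_ev x hx s f n ≠ 0 := by
    intro h0
    rw [h0, zero_mul] at h3
    exact one_ne_zero h3
  exact ⟨h5, eq_inv_of_mul_eq_one_right h3.symm⟩

/-- Every element of `k'` is bounded along `s`. -/
theorem p3_ev_bdd (hA : p3_Unif A π) (hx : IntermediateField.adjoin k {x} = ⊤)
    (ht : Transcendental k x) {s : ℕ → k} (hs : p3_Gen A π s) (f : k') :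
    ∃ M : ℕ, ∀ᶠ n in Filter.atTop, π ^ M * p3_ev x hx s f n ∈ A := by
  obtain ⟨p, q, hq, hf, hev⟩ := p3_exists hx s f
  obtain ⟨K, hK⟩ := p3_bdd hA p
  obtain ⟨M, hM⟩ := hs.2 q hq
  refine ⟨K + M, ?_⟩
  filter_upwards [hM] with n hn
  rw [hev, pow_add, show π ^ K * π ^ M * (p.eval (s n) / q.eval (s n))
    = (π ^ K * p.eval (s n)) * (π ^ M * (q.eval (s n))⁻¹) by rw [div_eq_mul_inv]; ring]
  exact A.mul_mem _ _ (hK _ (hs.1 n)) hn.2

open Filter in
/-- The valuation ring of `k'` defined by the sequence. -/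
noncomputable def p3_V (hx : IntermediateField.adjoin k {x} = ⊤) (ht : Transcendental k x)
    {s : ℕ → k} (hs : p3_Gen A π s) : ValuationSubring k' where
  carrier := {f | ∀ᶠ n in (hyperfilter ℕ : Filter ℕ), p3_ev x hx s f n ∈ A}
  mul_mem' := by
    intro f g hf hg
    have h := (p3_ev_mul hx ht hs f g).filter_mono Nat.hyperfilter_le_atTop
    simp only [Set.mem_ofPred_eq] at hf hg ⊢
    filter_upwards [h, hf, hg] with n h1 h2 h3
    rw [h1]
    exact A.mul_mem _ _ h2 h3
  add_mem' := by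
    intro f g hf hg
    have h := (p3_ev_add hx ht hs f g).filter_mono Nat.hyperfilter_le_atTop
    simp only [Set.mem_ofPred_eq] at hf hg ⊢
    filter_upwards [h, hf, hg] with n h1 h2 h3
    rw [h1]
    exact A.add_mem _ _ h2 h3
  one_mem' := by
    have h := (p3_ev_const hx ht hs (1 : k)).filter_mono Nat.hyperfilter_le_atTop
    rw [map_one] at h
    simp only [Set.mem_ofPred_eq]
    filter_upwards [h] with n h1
    rw [h1]
    exact A.one_mem
  zero_mem' := by
    have h := (p3_ev_const hx ht hs (0 : k)).filter_mono Nat.hyperfilter_le_atTop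
    rw [map_zero] at h
    simp only [Set.mem_ofPred_eq]
    filter_upwards [h] with n h1
    rw [h1]
    exact A.zero_mem
  neg_mem' := by
    intro f hf
    have h := (p3_ev_mul hx ht hs (algebraMap k k' (-1)) f).filter_mono Nat.hyperfilter_le_atTop
    have h' := (p3_ev_const hx ht hs (-1 : k)).filter_mono Nat.hyperfilter_le_atTop
    simp only [Set.mem_ofPred_eq] at hf ⊢
    filter_upwards [h, h', hf] with n h1 h2 h3
    rw [map_neg, map_one, neg_one_mul] at h1
    rw [map_neg, map_one] at h2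
    rw [h1, h2]
    exact A.mul_mem _ _ (A.neg_mem _ A.one_mem) h3
  mem_or_inv_mem' := by
    intro f
    by_cases hf : f = 0
    · left
      rw [hf]
      have h := (p3_ev_const hx ht hs (0 : k)).filter_mono Nat.hyperfilter_le_atTop
      rw [map_zero] at h
      change ∀ᶠ n in (hyperfilter ℕ : Filter ℕ), p3_ev x hx s 0 n ∈ A
      filter_upwards [h] with n h1
      rw [h1]
      exact A.zero_mem
    · have h := (p3_ev_inv hx ht hs hf).filter_mono Nat.hyperfilter_le_atTop
      change (∀ᶠ n in (hyperfilter ℕ : Filter ℕ), p3_ev x hx s f n ∈ A) ∨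
        ∀ᶠ n in (hyperfilter ℕ : Filter ℕ), p3_ev x hx s f⁻¹ n ∈ A
      rw [← Ultrafilter.eventually_or]
      filter_upwards [h] with n h1
      rw [h1.2]
      exact A.mem_or_inv_mem _

open Filter in
theorem p3_mem_V (hx : IntermediateField.adjoin k {x} = ⊤) (ht : Transcendental k x)
    {s : ℕ → k} (hs : p3_Gen A π s) (f : k') :
    f ∈ p3_V hx ht hs ↔ ∀ᶠ n in (hyperfilter ℕ : Filter ℕ), p3_ev x hx s f n ∈ A := Iff.rfl

open Filter in
/-- The uniformiser of `A` is a uniformiser of the new valuation ring. -/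
theorem p3_V_unif (hA : p3_Unif A π) (hx : IntermediateField.adjoin k {x} = ⊤)
    (ht : Transcendental k x) {s : ℕ → k} (hs : p3_Gen A π s) :
    p3_Unif (p3_V hx ht hs) (algebraMap k k' π) := by
  have hne := hA.ne
  have hc : ∀ c : k, ∀ᶠ n in (hyperfilter ℕ : Filter ℕ), p3_ev x hx s (algebraMap k k' c) n = c :=
    fun c => (p3_ev_const hx ht hs c).filter_mono Nat.hyperfilter_le_atTop
  have hm : ∀ f g : k', ∀ᶠ n in (hyperfilter ℕ : Filter ℕ),
      p3_ev x hx s (f * g) n = p3_ev x hx s f n * p3_ev x hx s g n :=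
    fun f g => (p3_ev_mul hx ht hs f g).filter_mono Nat.hyperfilter_le_atTop
  refine ⟨?_, ?_, ?_, ?_⟩
  · rw [p3_mem_V]
    filter_upwards [hc π] with n h1
    rw [h1]
    exact hA.mem
  · rw [← map_inv₀, p3_mem_V]
    intro hcon
    obtain ⟨n, h1, h2⟩ := (hcon.and (hc π⁻¹)).exists
    rw [h2] at h1
    exact hA.inv h1
  · intro z hz
    rw [p3_mem_V] at hz
    rw [p3_mem_V, p3_mem_V, ← Ultrafilter.eventually_or]
    by_cases hz0 : z = 0
    · filter_upwards [hz] with n h1
      left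
      rw [hz0, inv_zero, ← hz0]
      exact h1
    · have hi := (p3_ev_inv hx ht hs hz0).filter_mono Nat.hyperfilter_le_atTop
      have hmm := hm (algebraMap k k' π)⁻¹ z
      rw [← map_inv₀] at hmm ⊢
      filter_upwards [hz, hi, hc π⁻¹, hmm] with n h1 h2 h3 h4
      rw [h2.2, h4, h3]
      exact hA.gen _ h1
  · intro z
    obtain ⟨M, hM⟩ := p3_ev_bdd hA hx ht hs z
    refine ⟨M, ?_⟩
    rw [← map_pow, p3_mem_V]
    filter_upwards [hM.filter_mono Nat.hyperfilter_le_atTop, hc (π ^ M),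
      hm (algebraMap k k' (π ^ M)) z] with n h1 h2 h3
    rw [h3, h2]
    exact h1

/-- A valuation ring with a uniformiser is a discrete valuation ring. -/
theorem p3_dvr {K : Type} [Field K] {V : ValuationSubring K} {ϖ : K} (h : p3_Unif V ϖ) :
    IsDiscreteValuationRing V := by
  have hne := h.ne
  set w : V := ⟨ϖ, h.mem⟩ with hw
  have hnu : ∀ z : V, ¬ IsUnit z → ∃ z' : V, z = w * z' := by
    intro z hz
    by_cases hz0 : (z : K) = 0
    · exact ⟨0, Subtype.ext (by rw [hz0]; simp)⟩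
    rcases h.gen z z.2 with h1 | h1
    · exfalso
      apply hz
      refine IsUnit.of_mul_eq_one (⟨_, h1⟩ : V) (Subtype.ext ?_)
      change (z : K) * (z : K)⁻¹ = 1
      exact mul_inv_cancel₀ hz0
    · refine ⟨⟨_, h1⟩, Subtype.ext ?_⟩
      change (z : K) = ϖ * (ϖ⁻¹ * (z : K))
      rw [mul_inv_cancel_left₀ hne]
  have hw0 : w ≠ 0 := fun h0 => hne (congrArg Subtype.val h0)
  have hwu : ¬ IsUnit w := by
    intro hu
    obtain ⟨y, hy⟩ := hu.exists_right_inv
    apply h.inv
    have : ϖ * (y : K) = 1 := congrArg Subtype.val hy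
    rw [inv_eq_of_mul_eq_one_right this]
    exact y.2
  have hirr : Irreducible w := by
    refine ⟨hwu, ?_⟩
    intro b c hbc
    by_contra hcon
    push Not at hcon
    obtain ⟨b', hb'⟩ := hnu b hcon.1
    have h1 : b' * c = 1 := by
      apply mul_left_cancel₀ hw0
      rw [mul_one, ← mul_assoc, ← hb', ← hbc]
    exact hcon.2 (IsUnit.of_mul_eq_one b' (by rw [mul_comm]; exact h1))
  have hkey : ∀ M : ℕ, ∀ z : V, z ∣ w ^ M → ∃ n : ℕ, Associated (w ^ n) z := by
    intro M
    induction M with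
    | zero =>
      intro z hz
      rw [pow_zero] at hz
      exact ⟨0, by rw [pow_zero]; exact (associated_one_iff_isUnit.2 (isUnit_of_dvd_one hz)).symm⟩
    | succ M ih =>
      intro z hz
      by_cases hu : IsUnit z
      · exact ⟨0, by rw [pow_zero]; exact (associated_one_iff_isUnit.2 hu).symm⟩
      · obtain ⟨z', hz'⟩ := hnu z hu
        have h1 : z' ∣ w ^ M := by
          rw [hz', pow_succ'] at hz
          exact (mul_dvd_mul_iff_left hw0).1 hz
        obtain ⟨n, hn⟩ := ih z' h1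
        refine ⟨n + 1, ?_⟩
        rw [hz', pow_succ']
        exact Associated.mul_left w hn
  refine IsDiscreteValuationRing.ofHasUnitMulPowIrreducibleFactorization ⟨w, hirr, ?_⟩
  intro z hz
  obtain ⟨M, hM⟩ := h.arch (z : K)⁻¹
  refine hkey M z ⟨⟨_, hM⟩, Subtype.ext ?_⟩
  change ϖ ^ M = (z : K) * (ϖ ^ M * (z : K)⁻¹)
  have hz0 : (z : K) ≠ 0 := fun h0 => hz (Subtype.ext h0)
  field_simp

open Filter in
/-- The residue field is finite. -/
theorem p3_residue (hx : IntermediateField.adjoin k {x} = ⊤)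
    (ht : Transcendental k x) {s : ℕ → k} (hs : p3_Gen A π s) (hfin : Finite (ResidueField A)) :
    Finite (ResidueField (p3_V hx ht hs)) := by
  classical
  have hc : ∀ c : k, ∀ᶠ n in (hyperfilter ℕ : Filter ℕ), p3_ev x hx s (algebraMap k k' c) n = c :=
    fun c => (p3_ev_const hx ht hs c).filter_mono Nat.hyperfilter_le_atTop
  have hmem : ∀ c : A, algebraMap k k' (c : k) ∈ p3_V hx ht hs := by
    intro c
    rw [p3_mem_V]
    filter_upwards [hc c] with n h1
    rw [h1]
    exact c.2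
  have hsur : ∀ r : ResidueField A, ∃ c : A, residue A c = r := residue_surjective
  choose lift hlift using hsur
  refine Finite.of_surjective
    (fun r : ResidueField A => residue (p3_V hx ht hs) ⟨_, hmem (lift r)⟩) ?_
  intro r'
  obtain ⟨f, rfl⟩ := residue_surjective r'
  have hf : ∀ᶠ n in (hyperfilter ℕ : Filter ℕ), p3_ev x hx s (f : k') n ∈ A := f.2
  -- the residue class of the values is constant along the ultrafilter
  have h1 : ∃ r : ResidueField A, ∀ᶠ n in (hyperfilter ℕ : Filter ℕ),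
      ∃ hn : p3_ev x hx s (f : k') n ∈ A, residue A ⟨_, hn⟩ = r := by
    have h2 : ∀ᶠ n in (hyperfilter ℕ : Filter ℕ), ∃ r ∈ (Set.univ : Set (ResidueField A)),
        ∃ hn : p3_ev x hx s (f : k') n ∈ A, residue A ⟨_, hn⟩ = r := by
      filter_upwards [hf] with n hn
      exact ⟨_, Set.mem_univ _, hn, rfl⟩
    have h3 := (Ultrafilter.eventually_exists_mem_iff (f := hyperfilter ℕ)
      (Set.finite_univ (α := ResidueField A))).1 h2
    obtain ⟨r, -, h4⟩ := h3
    exact ⟨r, h4⟩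
  obtain ⟨r, hr⟩ := h1
  refine ⟨r, ?_⟩
  have hV : (⟨_, hmem (lift r)⟩ - f : p3_V hx ht hs) ∈ maximalIdeal (p3_V hx ht hs) := by
    rw [mem_maximalIdeal]
    intro hu
    obtain ⟨y, hy⟩ := hu.exists_right_inv
    have hy' : (algebraMap k k' (lift r : k) - (f : k')) * (y : k') = 1 := congrArg Subtype.val hy
    have e1 := (p3_ev_mul hx ht hs (algebraMap k k' (lift r : k) - (f : k')) (y : k')).filter_mono
      Nat.hyperfilter_le_atTop
    have e2 := (p3_ev_add hx ht hs (algebraMap k k' (lift r : k) - (f : k')) (f : k')).filter_mono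
      Nat.hyperfilter_le_atTop
    rw [hy'] at e1
    rw [sub_add_cancel] at e2
    have e3 := hc 1
    rw [map_one] at e3
    have e4 : ∀ᶠ n in (hyperfilter ℕ : Filter ℕ), p3_ev x hx s (y : k') n ∈ A := y.2
    obtain ⟨n, h1, h2, h3, h4, h5, hn, h6⟩ :=
      (e1.and (e2.and (e3.and (e4.and ((hc (lift r : k)).and hr))))).exists
    have h7 : (lift r : k) - p3_ev x hx s (f : k') n
        = p3_ev x hx s (algebraMap k k' (lift r : k) - (f : k')) n := by
      rw [h5] at h2
      exact sub_eq_of_eq_add h2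
    have h8 : (lift r - ⟨_, hn⟩ : A) ∈ maximalIdeal A := by
      rw [← residue_eq_zero_iff, map_sub, h6, hlift, sub_self]
    rw [mem_maximalIdeal] at h8
    apply h8
    refine IsUnit.of_mul_eq_one (⟨_, h4⟩ : A) (Subtype.ext ?_)
    change ((lift r : k) - p3_ev x hx s (f : k') n) * p3_ev x hx s (y : k') n = 1
    rw [h7, ← h1, h3]
  have h9 := (residue_eq_zero_iff _).2 hV
  rw [map_sub, sub_eq_zero] at h9
  exact h9

/-- Polynomials with coefficients in `A` are Lipschitz with constant one. -/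
theorem p3_int (q : k[X]) (hq : ∀ i, q.coeff i ∈ A) {b c : k} (hb : b ∈ A) (hc : c ∈ A) :
    ∃ t ∈ A, q.eval b - q.eval c = (b - c) * t := by
  have h : ∀ i : ℕ, ∃ t ∈ A, b ^ i - c ^ i = (b - c) * t := by
    intro i
    obtain ⟨t, ht⟩ := sub_dvd_pow_sub_pow (⟨b, hb⟩ : A) (⟨c, hc⟩ : A) i
    exact ⟨t, t.2, congrArg Subtype.val ht⟩
  choose t ht1 ht2 using h
  refine ⟨∑ i ∈ Finset.range (q.natDegree + 1), q.coeff i * t i,
    sum_mem fun i _ => A.mul_mem _ _ (hq i) (ht1 i), ?_⟩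
  rw [Polynomial.eval_eq_sum_range, Polynomial.eval_eq_sum_range, ← Finset.sum_sub_distrib,
    Finset.mul_sum]
  refine Finset.sum_congr rfl fun i _ => ?_
  rw [← mul_sub, ht2]
  ring

theorem p3_eval_mem (q : k[X]) (hq : ∀ i, q.coeff i ∈ A) {b : k} (hb : b ∈ A) : q.eval b ∈ A := by
  rw [Polynomial.eval_eq_sum_range]
  exact sum_mem fun i _ => A.mul_mem _ _ (hq i) (A.pow_mem hb i)

end two

theorem R_P3 : st_P3 := by
  classical
  intro k k' _ _ _ _ _ x ht hx hk T'
  -- representations of the elements of `T'`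
  have hrep : ∀ f : k', ∃ p q : k[X], q ≠ 0 ∧ f = aeval x p / aeval x q := by
    intro f
    obtain ⟨p, q, h1, h2, -⟩ := p3_exists hx (fun _ => (0 : k)) f
    exact ⟨p, q, h1, h2⟩
  choose p q hq hf using hrep
  -- a point at which no denominator vanishes
  have ha : ∃ a : k, ∀ f ∈ T', (q f).eval a ≠ 0 := by
    have h0 : (∏ f ∈ T', q f) ≠ 0 := Finset.prod_ne_zero_iff.2 fun f _ => hq f
    have h1 : ∃ m : ℕ, (∏ f ∈ T', q f).eval (m : k) ≠ 0 := by
      by_contra hcon
      push Not at hcon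
      apply h0
      refine Polynomial.eq_zero_of_infinite_isRoot _ ?_
      refine Set.Infinite.mono (s := Set.range fun m : ℕ => (m : k)) ?_ ?_
      · rintro _ ⟨m, rfl⟩
        exact hcon m
      · exact Set.infinite_range_of_injective Nat.cast_injective
    obtain ⟨m, hm⟩ := h1
    refine ⟨m, fun f hfT => ?_⟩
    rw [Polynomial.eval_prod] at hm
    exact Finset.prod_ne_zero_iff.1 hm f hfT
  obtain ⟨a, ha⟩ := ha
  obtain ⟨A, hAT, hAD, hAF⟩ := hk ({a} ∪ T'.biUnion (fun f => (p f).coeffs ∪ (q f).coeffs ∪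
    {((q f).eval a)⁻¹}))
  have haA : a ∈ A := hAT a (by simp)
  have hco : ∀ r : k[X], (∀ c ∈ r.coeffs, c ∈ A) → ∀ i, r.coeff i ∈ A := by
    intro r hr i
    by_cases h0 : r.coeff i = 0
    · rw [h0]
      exact A.zero_mem
    · exact hr _ (Polynomial.mem_coeffs_iff.2 ⟨i, Polynomial.mem_support_iff.2 h0, rfl⟩)
  have hp1 : ∀ f ∈ T', ∀ i, (p f).coeff i ∈ A := by
    intro f hfT
    refine hco _ fun c hc => hAT c ?_
    refine Finset.mem_union_right _ (Finset.mem_biUnion.2 ⟨f, hfT, ?_⟩)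
    exact Finset.mem_union_left _ (Finset.mem_union_left _ hc)
  have hq1 : ∀ f ∈ T', ∀ i, (q f).coeff i ∈ A := by
    intro f hfT
    refine hco _ fun c hc => hAT c ?_
    refine Finset.mem_union_right _ (Finset.mem_biUnion.2 ⟨f, hfT, ?_⟩)
    exact Finset.mem_union_left _ (Finset.mem_union_right _ hc)
  have hq2 : ∀ f ∈ T', ((q f).eval a)⁻¹ ∈ A := by
    intro f hfT
    refine hAT _ ?_
    refine Finset.mem_union_right _ (Finset.mem_biUnion.2 ⟨f, hfT, ?_⟩)
    exact Finset.mem_union_right _ (Finset.mem_singleton_self _)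
  obtain ⟨π, hπ⟩ := p3_exists_unif A hAD
  obtain ⟨s, hs1, hs2⟩ := p3_seq hπ a haA
  have hs : p3_Gen A π s := ⟨fun n => p3_disc_mem hπ haA (hs1 n), hs2⟩
  refine ⟨p3_V hx ht hs, ?_, p3_dvr (p3_V_unif hπ hx ht hs), p3_residue hx ht hs hAF⟩
  intro f hfT
  rw [p3_mem_V]
  filter_upwards [(p3_ev_eq hx ht hs (hq f) (hf f)).filter_mono Nat.hyperfilter_le_atTop]
    with n hn
  rw [hn, div_eq_mul_inv]
  refine A.mul_mem _ _ (p3_eval_mem _ (hp1 f hfT) (hs.1 n)) ?_
  obtain ⟨t, htA, et⟩ := p3_int (q f) (hq1 f hfT) (hs.1 n) haA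
  obtain ⟨t', htA', et'⟩ := hs1 n
  have hqa := ha f hfT
  have e : (q f).eval (s n) = (q f).eval a * (1 + π * (t' * t * ((q f).eval a)⁻¹)) := by
    have : (q f).eval (s n) = (q f).eval a + π * t' * t := by
      rw [← sub_eq_iff_eq_add', et, et']
      ring
    rw [this]
    field_simp
  rw [e, mul_inv]
  exact A.mul_mem _ _ (hq2 f hfT)
    (hπ.one_add (A.mul_mem _ _ (A.mul_mem _ _ htA' htA) (hq2 f hfT))).2

end SGT
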