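import Pool.Agent.SGT.StR

/-!
# [SGT-R0] abstract setup: elementary consequences; extension of the fixed place (MP_3dd09b_ag)
-/

set_option autoImplicit false
set_option linter.unusedVariables false

open GT IsLocalRing Polynomial

namespace SGT

/-- an algebraic element over an algebraically closed field -/
theorem r0_mem {C Ω : Type} [Field C] [IsAlgClosed C] [Field Ω] [Algebra C Ω] {x : Ω}
    (hx : IsAlgebraic C x) : ∃ c : C, algebraMap C Ω c = x := by
  have h1 : IsIntegral C x := hx.isIntegral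
  have h2 : (minpoly C x).degree = 1 :=
    IsAlgClosed.degree_eq_one_of_irreducible C (minpoly.irreducible h1)
  exact minpoly.mem_range_of_degree_eq_one C x h2

/-- an automorphism which is trivial on `k` maps `C` to itself, `C` algebraic over `k` -/
theorem r0_alg {k C Ω : Type} [Field k] [Field C] [IsAlgClosed C] [Field Ω] [Algebra k C]
    [Algebra.IsAlgebraic k C] [Algebra C Ω] (g : Ω ≃+* Ω)
    (hg : ∀ a : k, g (algebraMap C Ω (algebraMap k C a)) = algebraMap C Ω (algebraMap k C a))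
    (c : C) : ∃ c' : C, algebraMap C Ω c' = g (algebraMap C Ω c) := by
  apply r0_mem
  obtain ⟨p, hp0, hp⟩ := Algebra.IsAlgebraic.isAlgebraic (R := k) c
  refine ⟨p.map (algebraMap k C), ?_, ?_⟩
  · exact (Polynomial.map_ne_zero_iff (algebraMap k C).injective).2 hp0
  · have h1 : (g : Ω →+* Ω).comp ((algebraMap C Ω).comp (algebraMap k C)) =
        (algebraMap C Ω).comp (algebraMap k C) := by
      ext a
      exact hg a
    have h2 : Polynomial.eval₂ ((algebraMap C Ω).comp (algebraMap k C)) (algebraMap C Ω c) p = 0 := by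
      have h3 := congrArg (algebraMap C Ω) hp
      rw [map_zero, Polynomial.aeval_def, Polynomial.hom_eval₂] at h3
      exact h3
    have h4 := congrArg (g : Ω →+* Ω) h2
    rw [map_zero, Polynomial.hom_eval₂, h1] at h4
    rw [Polynomial.aeval_def, Polynomial.eval₂_map]
    exact h4

theorem R_R0 : st_R0 := by
  intro k C 𝕜 Ω _ _ _ _ _ _ _ _ _ _ _ _ _ _ F L E u y h m H hS
  have hinj' : Function.Injective (algebraMap 𝕜 Ω) := FaithfulSMul.algebraMap_injective 𝕜 Ω
  have htow : ∀ c : C, algebraMap 𝕜 Ω (algebraMap C 𝕜 c) = algebraMap C Ω c := fun c =>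
    (IsScalarTower.algebraMap_apply C 𝕜 Ω c).symm
  have hu0 : u ≠ 0 := by
    rintro rfl
    exact hS.tr isAlgebraic_zero
  obtain ⟨U, hU⟩ : ∃ U : Ω, U = algebraMap 𝕜 Ω u := ⟨_, rfl⟩
  have hU0 : U ≠ 0 := by
    rw [hU, Ne, map_eq_zero]
    exact hu0
  have hgC : ∀ g ∈ H, ∀ c : C, ∃ c' : C, algebraMap C Ω c' = g (algebraMap C Ω c) := by
    intro g hg c
    exact r0_alg (k := k) g (fun a => hS.fixF g hg _ (hS.kF a)) c
  have r1 : ∀ g ∈ H, Gr C (F : Set Ω) (L : Set Ω) g := by
    intro g hg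
    refine ⟨hS.fixF g hg, hS.sta g hg, ?_⟩
    intro z
    constructor
    · rintro ⟨c, hc⟩
      obtain ⟨c', hc'⟩ := hgC g⁻¹ (H.inv_mem hg) c
      refine ⟨c', ?_⟩
      rw [hc', hc]
      exact g.symm_apply_apply z
    · rintro ⟨c, rfl⟩
      exact hgC g hg c
  -- the action on w
  obtain ⟨w, hw⟩ : ∃ w : Ω, w = y / U := ⟨_, rfl⟩
  have hEE : E = IntermediateField.adjoin C ((F : Set Ω) ∪ {w}) := by
    rw [hw, hU]
    exact hS.EE
  have hsub : ∀ z ∈ (F : Set Ω) ∪ {w}, z ∈ E := by
    intro z hz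
    rw [hEE]
    exact IntermediateField.subset_adjoin C _ hz
  have hgw : ∀ g ∈ H, g w ∈ E := by
    intro g hg
    obtain ⟨τ, hτ1, _, hτ2⟩ := hS.rst g hg
    have h3 : g U ^ m = U ^ m := by
      rw [← map_pow, hU, ← map_pow, hτ1, hτ2]
    have h4 : (g U / U) ^ m = 1 := by
      rw [div_pow, h3, div_self (pow_ne_zero _ hU0)]
    obtain ⟨c, hc⟩ : ∃ c : C, algebraMap C Ω c = g U / U := by
      apply r0_mem
      have h5 : IsAlgebraic C ((g U / U) ^ m) := by
        rw [h4]
        exact isAlgebraic_one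
      exact IsAlgebraic.of_pow hS.hm h5
    have hgU0 : g U ≠ 0 := by
      rw [Ne, map_eq_zero_iff g g.injective]
      exact hU0
    have h6 : g w = algebraMap C Ω c⁻¹ * w := by
      rw [hw, map_div₀, hS.fixy g hg, map_inv₀, hc]
      field_simp
    rw [h6]
    exact E.mul_mem (E.algebraMap_mem _) (hsub w (Or.inr rfl))
  have hgE : ∀ g ∈ H, ∀ z ∈ E, g z ∈ E := by
    intro g hg z hz
    rw [hEE] at hz
    induction hz using IntermediateField.adjoin_induction with
    | mem x hx =>
      rcases hx with hx | hx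
      · rw [hS.fixF g hg x hx]
        exact hsub x (Or.inl hx)
      · rw [Set.mem_singleton_iff] at hx
        rw [hx]
        exact hgw g hg
    | algebraMap c =>
      obtain ⟨c', hc'⟩ := hgC g hg c
      rw [← hc']
      exact E.algebraMap_mem c'
    | add x y _ _ hx hy =>
      rw [map_add]
      exact E.add_mem hx hy
    | inv x _ hx =>
      rw [map_inv₀]
      exact E.inv_mem hx
    | mul x y _ _ hx hy =>
      rw [map_mul]
      exact E.mul_mem hx hy
  refine ⟨r1, ?_, ?_, ?_, ?_, ?_⟩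
  · intro g hg z
    constructor
    · intro h1
      have h2 := hgE g⁻¹ (H.inv_mem hg) (g z) h1
      have h3 : g⁻¹ (g z) = z := g.symm_apply_apply z
      rw [h3] at h2
      exact h2
    · exact hgE g hg z
  · intro g hg hl hgU z hz
    rw [← hU] at hgU
    have hz' : z ∈ IntermediateField.adjoin C ((F : Set Ω) ∪ {w}) := by
      rw [← hEE]
      exact hz
    induction hz' using IntermediateField.adjoin_induction with
    | mem x hx =>
      rcases hx with hx | hx
      · exact hS.fixF g hg x hx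
      · rw [Set.mem_singleton_iff] at hx
        rw [hx, hw, map_div₀, hS.fixy g hg, hgU]
    | algebraMap c => exact hl c
    | add x y hx' hy' hx hy =>
      rw [map_add, hx (by rw [SetLike.mem_coe, hEE]; exact hx'), hy (by rw [SetLike.mem_coe, hEE]; exact hy')]
    | inv x hx' hx =>
      rw [map_inv₀, hx (by rw [SetLike.mem_coe, hEE]; exact hx')]
    | mul x y hx' hy' hx hy =>
      rw [map_mul, hx (by rw [SetLike.mem_coe, hEE]; exact hx'), hy (by rw [SetLike.mem_coe, hEE]; exact hy')]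
  · intro g hg τ hτ
    constructor
    · constructor
      · intro hl c
        apply hinj'
        rw [← hτ, htow]
        exact hl c
      · intro hl c
        rw [← htow, hτ, hl c]
    · rw [hτ]
      exact ⟨fun h1 => hinj' h1, fun h1 => by rw [h1]⟩
  · intro g hg h1 z hz
    obtain ⟨S, hSz⟩ := hS.cont z hz
    exact hSz g hg (fun s _ => h1 s)
  · intro τ hτ hτu
    exact hS.lift τ (fun a => hτ _) (by rw [map_pow, hτu])

theorem R_R6 (h11 : st_A11) (h3 : st_C3) (h4 : st_C4) : st_R6 := by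
  intro k C 𝕜 Ω _ _ _ _ _ _ _ _ _ _ _ _ _ _ F L E u y h m H hS hL P hP hst
  have htow : ∀ c : C, algebraMap 𝕜 Ω (algebraMap C 𝕜 c) = algebraMap C Ω c := fun c =>
    (IsScalarTower.algebraMap_apply C 𝕜 Ω c).symm
  have : CharZero C := charZero_of_injective_algebraMap (FaithfulSMul.algebraMap_injective k C)
  obtain ⟨Q, hQ1, hQ2⟩ := h4 C 𝕜 Ω L P hL hP.1
  obtain ⟨z₀, hz₀, hz₀'⟩ := hP.2
  have hz₁ : z₀ ∉ Q := fun hh => hz₀' ((hQ2 z₀ hz₀).1 hh)
  have hPQ : Plc C (L : Set Ω) Q := by
    refine ⟨fun c => ?_, z₀, hz₀, hz₁⟩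
    rw [← htow]
    exact hQ1 _
  have hRes := (h11 C Ω (F : Set Ω) L hS.lvs Q hPQ).2
  obtain ⟨c1, c2, c3⟩ := h3 C 𝕜 Ω L Q hQ1 hRes
  refine ⟨Q, hQ1, ?_, ?_, c3⟩
  · rintro rfl
    exact hz₁ (ValuationSubring.mem_top z₀)
  · intro g hg
    obtain ⟨τ, hτ, _, _⟩ := hS.rst g hg
    have e1 := c1 (Q.comap (g : Ω →+* Ω)) (fun β => by
      rw [ValuationSubring.mem_comap]
      have : (g : Ω →+* Ω) (algebraMap 𝕜 Ω β) = algebraMap 𝕜 Ω (τ β) := hτ β
      rw [this]
      exact hQ1 _) (by
      intro z hz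
      rw [ValuationSubring.mem_comap]
      have hgz : g z ∈ (L : Set Ω) := (hS.sta g hg z).2 hz
      have a1 := hQ2 z hz
      have a2 := hst g hg z hz
      have a3 := hQ2 (g z) hgz
      have a4 : (g : Ω →+* Ω) z = g z := rfl
      rw [a4, a1, a3, a2])
    intro z hz
    have := e1 z hz
    rw [ValuationSubring.mem_comap] at this
    exact this.symm

end SGT
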