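import Pool.Agent.SGT.StA

/-!
# SGT: the abstract setup of a section and the rows R
-/

set_option autoImplicit false
set_option linter.unusedVariables false

open GT IsLocalRing Polynomial

noncomputable section

namespace SGT

/-- The abstract form of a section: `H` is a group of automorphisms of `Ω` which fix `F` (the function
field `K₁`) and `y`. `C` is the algebraic closure of `k`, `𝕜` the algebraic closure of `C(u)`,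
`u ^ m = t`, `w = y / u`, `w ^ m = h ∈ F`, `E = C F(w)`, `L / E` the maximal unramified extension. -/
structure Stp (k C 𝕜 Ω : Type) [Field k] [Field C] [Field 𝕜] [Field Ω] [Algebra k C] [Algebra C 𝕜]
    [Algebra 𝕜 Ω] [Algebra C Ω] (F : Subfield Ω) (L E : IntermediateField C Ω) (u : 𝕜) (y h : Ω)
    (m : ℕ) (H : Subgroup (Ω ≃+* Ω)) : Prop where
  tr : Transcendental C u
  alg : ∀ z : 𝕜, IsAlgebraic (IntermediateField.adjoin C {u}) z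
  hm : 0 < m
  kF : ∀ a : k, algebraMap C Ω (algebraMap k C a) ∈ F
  hF : h ∈ F
  h0 : h ≠ 0
  w : (y / algebraMap 𝕜 Ω u) ^ m = h
  EE : E = IntermediateField.adjoin C ((F : Set Ω) ∪ {y / algebraMap 𝕜 Ω u})
  ff1 : FF C (IntermediateField.adjoin C (F : Set Ω))
  ff : FF C E
  le : E ≤ L
  lvs : Lvs (F : Set Ω) L
  la : ∀ z ∈ L, ∃ p : Polynomial Ω, p ≠ 0 ∧ (∀ n, p.coeff n ∈ F) ∧ p.eval z = 0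
  kc : KC L
  nor : Nor E L
  fixF : ∀ g ∈ H, ∀ z ∈ F, g z = z
  fixy : ∀ g ∈ H, g y = y
  sta : ∀ g ∈ H, Sta g (L : Set Ω)
  rst : ∀ g ∈ H, ∃ τ : 𝕜 ≃+* 𝕜, Rst g τ ∧ (∀ a : k, τ (algebraMap C 𝕜 (algebraMap k C a)) =
    algebraMap C 𝕜 (algebraMap k C a)) ∧ τ (u ^ m) = u ^ m
  lift : ∀ τ : 𝕜 ≃+* 𝕜, (∀ a : k, τ (algebraMap C 𝕜 (algebraMap k C a)) =
    algebraMap C 𝕜 (algebraMap k C a)) → τ (u ^ m) = u ^ m → ∃ g ∈ H, Rst g τ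
  cont : ∀ z ∈ L, ∃ S : Finset 𝕜, ∀ g ∈ H, (∀ s ∈ S, g (algebraMap 𝕜 Ω s) = algebraMap 𝕜 Ω s) →
    g z = z

/-- [R0] Elementary consequences. -/
def st_R0 : Prop := ∀ (k C 𝕜 Ω : Type) [Field k] [CharZero k] [Field C] [IsAlgClosed C] [Field 𝕜]
  [IsAlgClosed 𝕜] [Field Ω] [IsAlgClosed Ω] [Algebra k C] [Algebra.IsAlgebraic k C] [Algebra C 𝕜]
  [Algebra 𝕜 Ω] [Algebra C Ω] [IsScalarTower C 𝕜 Ω] (F : Subfield Ω) (L E : IntermediateField C Ω)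
  (u : 𝕜) (y h : Ω) (m : ℕ) (H : Subgroup (Ω ≃+* Ω)), Stp k C 𝕜 Ω F L E u y h m H →
  (∀ g ∈ H, Gr C (F : Set Ω) (L : Set Ω) g) ∧ (∀ g ∈ H, Sta g (E : Set Ω)) ∧
  (∀ g ∈ H, Lin C g → g (algebraMap 𝕜 Ω u) = algebraMap 𝕜 Ω u → Tri g (E : Set Ω)) ∧
  (∀ g ∈ H, ∀ τ : 𝕜 ≃+* 𝕜, Rst g τ → (Lin C g ↔ Lin C τ) ∧
    (g (algebraMap 𝕜 Ω u) = algebraMap 𝕜 Ω u ↔ τ u = u)) ∧
  (∀ g ∈ H, (∀ β : 𝕜, g (algebraMap 𝕜 Ω β) = algebraMap 𝕜 Ω β) → Tri g (L : Set Ω)) ∧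
  ∀ τ : 𝕜 ≃+* 𝕜, Lin C τ → τ u = u → ∃ g ∈ H, Rst g τ

/-- [R1a] The relation `REL` for elements of `H`. -/
def st_R1a : Prop := ∀ (k C 𝕜 Ω : Type) [Field k] [CharZero k] [Field C] [IsAlgClosed C] [Field 𝕜]
  [IsAlgClosed 𝕜] [Field Ω] [IsAlgClosed Ω] [Algebra k C] [Algebra.IsAlgebraic k C] [Algebra C 𝕜]
  [Algebra 𝕜 Ω] [Algebra C Ω] [IsScalarTower C 𝕜 Ω] (F : Subfield Ω) (L E : IntermediateField C Ω)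
  (u : 𝕜) (y h : Ω) (m : ℕ) (H : Subgroup (Ω ≃+* Ω)), Stp k C 𝕜 Ω F L E u y h m H →
  ∀ (W : ValuationSubring 𝕜), (∀ c : C, algebraMap C 𝕜 c ∈ W) → W ≠ ⊤ →
  ∀ (τ₀ σ₀ : 𝕜 ≃+* 𝕜) (Ψ : C ≃+* C) (τ σ : Ω ≃+* Ω), τ ∈ H → σ ∈ H → Rst τ τ₀ → Rst σ σ₀ →
  (∀ c : C, ∃ n : ℕ, 0 < n ∧ (Ψ ^ n) c = c) →
  (∀ c : C, σ₀ (algebraMap C 𝕜 c) = algebraMap C 𝕜 (Ψ c)) → σ₀ u = u → (∀ z, σ₀ z ∈ W ↔ z ∈ W) →
  Lin C τ₀ → τ₀ u = u → (∀ z, τ₀ z ∈ W ↔ z ∈ W) → REL (L : Set Ω) τ σ Ψ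

/-- [R1b] Frobenius elements in `H`. -/
def st_R1b : Prop := ∀ (k C 𝕜 Ω : Type) [Field k] [CharZero k] [Field C] [IsAlgClosed C] [Field 𝕜]
  [IsAlgClosed 𝕜] [Field Ω] [IsAlgClosed Ω] [Algebra k C] [Algebra.IsAlgebraic k C] [Algebra C 𝕜]
  [Algebra 𝕜 Ω] [Algebra C Ω] [IsScalarTower C 𝕜 Ω] (F : Subfield Ω) (L E : IntermediateField C Ω)
  (u : 𝕜) (y h : Ω) (m : ℕ) (H : Subgroup (Ω ≃+* Ω)), Stp k C 𝕜 Ω F L E u y h m H → HasPl k →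
  ∀ (W : ValuationSubring 𝕜), (∀ c : C, algebraMap C 𝕜 c ∈ W) → W ≠ ⊤ →
  ∀ (τ₀ : 𝕜 ≃+* 𝕜) (τ : Ω ≃+* Ω), τ ∈ H → Rst τ τ₀ → Lin C τ₀ → τ₀ u = u →
  (∀ z, τ₀ z ∈ W ↔ z ∈ W) → ∀ N : IntermediateField C Ω, N ≤ L → Frb L (N : Set Ω) τ

/-- [R1] Step 1a: inertia elements act trivially on `L`. -/
def st_R1 : Prop := ∀ (k C 𝕜 Ω : Type) [Field k] [CharZero k] [Field C] [IsAlgClosed C] [Field 𝕜]
  [IsAlgClosed 𝕜] [Field Ω] [IsAlgClosed Ω] [Algebra k C] [Algebra.IsAlgebraic k C] [Algebra C 𝕜]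
  [Algebra 𝕜 Ω] [Algebra C Ω] [IsScalarTower C 𝕜 Ω] (F : Subfield Ω) (L E : IntermediateField C Ω)
  (u : 𝕜) (y h : Ω) (m : ℕ) (H : Subgroup (Ω ≃+* Ω)), Stp k C 𝕜 Ω F L E u y h m H → HasPl k →
  ∀ (W : ValuationSubring 𝕜), (∀ c : C, algebraMap C 𝕜 c ∈ W) → W ≠ ⊤ →
  ∀ (τ₀ : 𝕜 ≃+* 𝕜) (τ : Ω ≃+* Ω), τ ∈ H → Rst τ τ₀ → Lin C τ₀ → τ₀ u = u →
  (∀ z, τ₀ z ∈ W ↔ z ∈ W) → Tri τ (L : Set Ω)

/-- [R2] Step 1b: the elements of `H` over `C(u)` act trivially on `L`. -/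
def st_R2 : Prop := ∀ (k C 𝕜 Ω : Type) [Field k] [CharZero k] [Field C] [IsAlgClosed C] [Field 𝕜]
  [IsAlgClosed 𝕜] [Field Ω] [IsAlgClosed Ω] [Algebra k C] [Algebra.IsAlgebraic k C] [Algebra C 𝕜]
  [Algebra 𝕜 Ω] [Algebra C Ω] [IsScalarTower C 𝕜 Ω] (F : Subfield Ω) (L E : IntermediateField C Ω)
  (u : 𝕜) (y h : Ω) (m : ℕ) (H : Subgroup (Ω ≃+* Ω)), Stp k C 𝕜 Ω F L E u y h m H → HasPl k →
  ∀ g ∈ H, Lin C g → g (algebraMap 𝕜 Ω u) = algebraMap 𝕜 Ω u → Tri g (L : Set Ω)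

/-- [R3] The element `e` of order `ℓ`. -/
def st_R3 : Prop := ∀ (k C 𝕜 Ω : Type) [Field k] [CharZero k] [Field C] [IsAlgClosed C] [Field 𝕜]
  [IsAlgClosed 𝕜] [Field Ω] [IsAlgClosed Ω] [Algebra k C] [Algebra.IsAlgebraic k C] [Algebra C 𝕜]
  [Algebra 𝕜 Ω] [Algebra C Ω] [IsScalarTower C 𝕜 Ω] (F : Subfield Ω) (L E : IntermediateField C Ω)
  (u : 𝕜) (y h : Ω) (m : ℕ) (H : Subgroup (Ω ≃+* Ω)), Stp k C 𝕜 Ω F L E u y h m H → HasPl k →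
  ∀ ℓ : ℕ, ℓ.Prime → ℓ ∣ m → ∃ (e : Ω ≃+* Ω) (ζ : C), e ∈ H ∧ Lin C e ∧ IsPrimitiveRoot ζ ℓ ∧
    e (algebraMap 𝕜 Ω u) = algebraMap C Ω ζ * algebraMap 𝕜 Ω u ∧
    e (y / algebraMap 𝕜 Ω u) = algebraMap C Ω ζ⁻¹ * (y / algebraMap 𝕜 Ω u) ∧
    (∀ z ∈ L, (e ^ ℓ) z = z) ∧
    ∀ g ∈ H, ∃ j : ℕ, ¬ ℓ ∣ j ∧ ∀ z ∈ L, g (e z) = (e ^ j) (g z)

/-- [R4] The automorphism `e` of `E = E₁(w)`, `w ^ m = h`, fixes the places above the branch points. -/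
def st_R4 : Prop := ∀ (C Ω : Type) [Field C] [CharZero C] [IsAlgClosed C] [Field Ω] [IsAlgClosed Ω]
  [Algebra C Ω] (E₁ E : IntermediateField C Ω) (w : Ω) (m ℓ a : ℕ) (ζ : C) (e : Ω ≃+* Ω)
  (h : E₁) (P : ValuationSubring Ω), FF C E₁ → E = IntermediateField.adjoin C ((E₁ : Set Ω) ∪ {w}) →
  0 < m → w ^ m = (h : Ω) → h ≠ 0 → ℓ.Prime → ℓ ^ a ∣ m → IsPrimitiveRoot ζ ℓ → Lin C e →
  Tri e (E₁ : Set Ω) → e w = algebraMap C Ω ζ * w → Plc C (E₁ : Set Ω) P →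
  ¬ ((ℓ ^ a : ℕ) : ℤ) ∣ od C (rs E₁ P) h → StP e (E : Set Ω) P

/-- [R5] The fixed place of `H` on `L`. -/
def st_R5 : Prop := ∀ (k C 𝕜 Ω : Type) [Field k] [CharZero k] [Field C] [IsAlgClosed C] [Field 𝕜]
  [IsAlgClosed 𝕜] [Field Ω] [IsAlgClosed Ω] [Algebra k C] [Algebra.IsAlgebraic k C] [Algebra C 𝕜]
  [Algebra 𝕜 Ω] [Algebra C Ω] [IsScalarTower C 𝕜 Ω] (F : Subfield Ω) (L E : IntermediateField C Ω)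
  (u : 𝕜) (y h : Ω) (m : ℕ) (H : Subgroup (Ω ≃+* Ω)), Stp k C 𝕜 Ω F L E u y h m H → HasPl k →
  ∀ (ℓ a : ℕ) (hh : h ∈ IntermediateField.adjoin C (F : Set Ω)), ℓ.Prime → ℓ ^ a ∣ m →
  (∃ P : Fin 3 → ValuationSubring Ω,
    (∀ i, Plc C (IntermediateField.adjoin C (F : Set Ω) : Set Ω) (P i) ∧
      ¬ ((ℓ ^ a : ℕ) : ℤ) ∣ od C (rs (IntermediateField.adjoin C (F : Set Ω)) (P i)) ⟨h, hh⟩) ∧
    ∀ i j, i ≠ j → ¬ Eqv (IntermediateField.adjoin C (F : Set Ω) : Set Ω) (P i) (P j)) →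
  ∃ P : ValuationSubring Ω, Plc C (L : Set Ω) P ∧ (∀ g ∈ H, StP g (L : Set Ω) P) ∧
    ∀ γ : Ω ≃+* Ω, Tri γ (E : Set Ω) → Sta γ (L : Set Ω) →
      (∀ g ∈ H, Lin C g → ∀ z ∈ L, γ (g z) = g (γ z)) → Tri γ (L : Set Ω)

/-- [R6] The fixed place of `H` on `𝕜 L`. -/
def st_R6 : Prop := ∀ (k C 𝕜 Ω : Type) [Field k] [CharZero k] [Field C] [IsAlgClosed C] [Field 𝕜]
  [IsAlgClosed 𝕜] [Field Ω] [IsAlgClosed Ω] [Algebra k C] [Algebra.IsAlgebraic k C] [Algebra C 𝕜]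
  [Algebra 𝕜 Ω] [Algebra C Ω] [IsScalarTower C 𝕜 Ω] (F : Subfield Ω) (L E : IntermediateField C Ω)
  (u : 𝕜) (y h : Ω) (m : ℕ) (H : Subgroup (Ω ≃+* Ω)), Stp k C 𝕜 Ω F L E u y h m H →
  LDJ C 𝕜 (L : Set Ω) → ∀ P : ValuationSubring Ω, Plc C (L : Set Ω) P →
  (∀ g ∈ H, StP g (L : Set Ω) P) →
  ∃ Q : ValuationSubring Ω, (∀ β : 𝕜, algebraMap 𝕜 Ω β ∈ Q) ∧ Q ≠ ⊤ ∧
    (∀ g ∈ H, StP g (IntermediateField.adjoin 𝕜 (L : Set Ω) : Set Ω) Q) ∧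
    ∀ z ∈ IntermediateField.adjoin 𝕜 (L : Set Ω), z ∈ Q →
      ∃ β : 𝕜, z - algebraMap 𝕜 Ω β ∈ Q.nonunits

end SGT
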