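import Pool.Agent.SGT.StW
import Pool.Agent.SGT.StR

/-!
# [SGT-R1] Step 1a: inertia acts trivially (MP_3dd09b_ag)
-/

set_option autoImplicit false
set_option linter.unusedVariables false

open GT IsLocalRing Polynomial

namespace SGT

/-- A root of a nonzero polynomial whose coefficients are fixed by `τ` has a finite orbit. -/
private theorem r1_orbit {Ω : Type} [Field Ω] {F : Set Ω} {τ : Ω ≃+* Ω} (hF : Tri τ F) {z : Ω}
    {p : Polynomial Ω} (hp : p ≠ 0) (hc : ∀ n, p.coeff n ∈ F) (hz : p.eval z = 0) :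
    ∃ n : ℕ, 0 < n ∧ (τ ^ n) z = z := by
  classical
  have hmap : p.map (τ : Ω →+* Ω) = p := by
    ext n
    rw [Polynomial.coeff_map]
    exact hF _ (hc n)
  have hroot : ∀ w : Ω, p.eval w = 0 → p.eval (τ w) = 0 := by
    intro w hw
    have : (p.map (τ : Ω →+* Ω)).eval ((τ : Ω →+* Ω) w) = (τ : Ω →+* Ω) (p.eval w) :=
      Polynomial.eval_map_apply (τ : Ω →+* Ω) w
    rw [hmap, hw, map_zero] at this
    exact this
  have hpow : ∀ k : ℕ, p.eval ((τ ^ k) z) = 0 := by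
    intro k
    induction k with
    | zero => exact hz
    | succ k ih =>
      rw [pow_succ']
      exact hroot _ ih
  have hmem : ∀ k : ℕ, (τ ^ k) z ∈ p.roots.toFinset := fun k => by
    rw [Multiset.mem_toFinset, Polynomial.mem_roots hp]
    exact hpow k
  obtain ⟨i, -, j, -, hij, he⟩ := Set.infinite_univ.exists_ne_map_eq_of_mapsTo
    (f := fun k : ℕ => (τ ^ k) z) (t := (p.roots.toFinset : Set Ω)) (fun k _ => hmem k)
    (Finset.finite_toSet _)
  have key : ∀ a b : ℕ, a < b → (τ ^ a) z = (τ ^ b) z → ∃ n : ℕ, 0 < n ∧ (τ ^ n) z = z := by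
    intro a b hab h
    refine ⟨b - a, by omega, ?_⟩
    apply (τ ^ a).injective
    have e : τ ^ b = τ ^ a * τ ^ (b - a) := by
      rw [← pow_add]
      congr 1
      omega
    rw [h, e]
    rfl
  rcases lt_or_gt_of_ne hij with hlt | hlt
  · exact key i j hlt he
  · exact key j i hlt he.symm

/-- Powers of an automorphism with a fixed point. -/
private theorem r1_pow {Ω : Type} [Field Ω] {τ : Ω ≃+* Ω} {z : Ω} (h : τ z = z) (k : ℕ) :
    (τ ^ k) z = z := by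
  induction k with
  | zero => rfl
  | succ k ih =>
    rw [pow_succ]
    change (τ ^ k) (τ z) = z
    rw [h, ih]

/-- A common exponent for a finite set. -/
private theorem r1_fin {Ω : Type} [Field Ω] {τ : Ω ≃+* Ω} (G : Finset Ω)
    (h : ∀ z ∈ G, ∃ n : ℕ, 0 < n ∧ (τ ^ n) z = z) :
    ∃ n : ℕ, 0 < n ∧ ∀ z ∈ G, (τ ^ n) z = z := by
  classical
  induction G using Finset.induction_on with
  | empty => exact ⟨1, one_pos, fun z hz => absurd hz (Finset.notMem_empty z)⟩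
  | insert a G ha ih =>
    obtain ⟨n, hn, hG⟩ := ih fun z hz => h z (Finset.mem_insert_of_mem hz)
    obtain ⟨k, hk, hak⟩ := h a (Finset.mem_insert_self a G)
    refine ⟨n * k, Nat.mul_pos hn hk, fun z hz => ?_⟩
    rcases Finset.mem_insert.1 hz with rfl | hz
    · rw [mul_comm, pow_mul]
      exact r1_pow hak n
    · rw [pow_mul]
      exact r1_pow (hG z hz) k

theorem R_R1 (h0f : st_A0f) (h0g : st_A0g) (h1 : st_A1) (h10 : st_A10) (hw : st_W3) (h0 : st_R0) (h1b : st_R1b) : st_R1 := by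
  intro k C 𝕜 Ω _ _ _ _ _ _ _ _ _ _ _ _ _ _ F L E u y h m H hS hPl W hWC hWt τ₀ τ hτH hRst hLin₀ hu₀
    hWτ
  classical
  have : CharZero C := charZero_of_injective_algebraMap (algebraMap k C).injective
  by_contra hnot
  obtain ⟨z, hzL, hτz⟩ : ∃ z ∈ L, τ z ≠ z := by
    by_contra hcon
    push Not at hcon
    exact hnot fun z hz => hcon z hz
  obtain ⟨hGr, hStaE, hTriE, h4, -, -⟩ := h0 k C 𝕜 Ω F L E u y h m H hS
  have hLin : Lin C τ := (h4 τ hτH τ₀ hRst).1.2 hLin₀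
  have hτu : τ (algebraMap 𝕜 Ω u) = algebraMap 𝕜 Ω u := (h4 τ hτH τ₀ hRst).2.2 hu₀
  have hE : Tri τ (E : Set Ω) := hTriE τ hτH hLin hτu
  have hyL : y / algebraMap 𝕜 Ω u ∈ L := hS.le (by
    rw [hS.EE]
    exact IntermediateField.subset_adjoin C _ (Set.mem_union_right _ rfl))
  obtain ⟨N, hN, hNS⟩ := hS.lvs {z, y / algebraMap 𝕜 Ω u} (by
    intro w hw
    rcases Finset.mem_insert.1 hw with rfl | hw
    · exact hzL
    · rw [Finset.mem_singleton.1 hw]
      exact hyL)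
  have hzN : z ∈ N := hNS z (Finset.mem_insert_self _ _)
  have hyN : y / algebraMap 𝕜 Ω u ∈ N :=
    hNS _ (Finset.mem_insert_of_mem (Finset.mem_singleton_self _))
  have hEN : E ≤ N := by
    rw [hS.EE, IntermediateField.adjoin_le_iff]
    rintro w (hw | hw)
    · exact hN.1 hw
    · rw [Set.mem_singleton_iff.1 hw]
      exact hyN
  have hst : ∀ w ∈ N, τ w ∈ N := fun w hw => hN.2.2.2 τ (hGr τ hτH) w hw
  -- the order on `N`
  obtain ⟨⟨G, hG⟩, -⟩ := h0g C Ω N hN.2.2.1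
  obtain ⟨n, hn, hnG⟩ := r1_fin (τ := τ) G (by
    intro g hg
    have hgN : g ∈ N := by
      rw [hG]
      exact IntermediateField.subset_adjoin C _ hg
    obtain ⟨p, hp, hpc, hpg⟩ := hS.la g (hN.2.1 hgN)
    exact r1_orbit (F := (F : Set Ω)) (fun w hw => hS.fixF τ hτH w hw) hp hpc hpg)
  have hnN : ∀ w ∈ N, (τ ^ n) w = w := by
    intro w hw
    rw [hG] at hw
    refine IntermediateField.adjoin_induction C (p := fun w _ => (τ ^ n) w = w) ?_ ?_ ?_ ?_ ?_ hw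
    · intro g hg
      exact hnG g hg
    · intro c
      exact r1_pow (hLin c) n
    · intro a b _ _ ha hb
      rw [map_add, ha, hb]
    · intro a _ ha
      rw [map_inv₀, ha]
    · intro a b _ _ ha hb
      rw [map_mul, ha, hb]
  obtain ⟨N₀, hN₀, hFF₀, -⟩ := h0f C Ω N τ n hN.2.2.1 hLin hst hn hnN
  obtain ⟨p, ρ, ζ, hp, -, hρN, hρ0, hζ, hρ⟩ := h1 C Ω N τ n hLin hst hn z hzN (hnN z hzN) hτz
  have hN₀N : N₀ ≤ N := fun w hw => ((hN₀ w).1 hw).1
  have hN₀L : N₀ ≤ L := fun w hw => hN.2.1 (hN₀N hw)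
  have hTri₀ : Tri τ (N₀ : Set Ω) := fun w hw => ((hN₀ w).1 hw).2
  have hEN₀ : E ≤ N₀ := fun w hw => (hN₀ w).2 ⟨hEN hw, hE w hw⟩
  have ha : ρ ^ p ∈ N₀ := by
    refine (hN₀ _).2 ⟨pow_mem hρN p, ?_⟩
    rw [map_pow, hρ, mul_pow, ← map_pow, hζ.pow_eq_one, map_one, one_mul]
  have ha0 : (⟨ρ ^ p, ha⟩ : N₀) ≠ 0 := fun h => pow_ne_zero p hρ0 (congrArg Subtype.val h)
  have hur : UR E L := h10 C Ω E L hS.le hS.nor
  have hdiv := hur N₀ hEN₀ hN₀L hFF₀ ⟨ρ ^ p, ha⟩ p hp ha0 ρ (hN.2.1 hρN) rfl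
  have hfrb : Frb L (N₀ : Set Ω) τ := h1b k C 𝕜 Ω F L E u y h m H hS hPl W hWC hWt τ₀ τ hτH hRst
    hLin₀ hu₀ hWτ N₀ hN₀L
  have hfix := hw C Ω L N₀ τ hFF₀ hN₀L hS.kc hLin hTri₀ hfrb p ⟨ρ ^ p, ha⟩ ρ hp ha0 rfl hdiv
  rw [hρ] at hfix
  have h1' : algebraMap C Ω ζ = 1 := by
    have : algebraMap C Ω ζ * ρ = 1 * ρ := by rw [hfix, one_mul]
    exact mul_right_cancel₀ hρ0 this
  have hζ1 : ζ = 1 := (algebraMap C Ω).injective (by rw [h1', map_one])
  rw [hζ1] at hζ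
  exact hp.one_lt.ne' (hζ.unique (IsPrimitiveRoot.one_right_iff.2 rfl))

end SGT
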