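import Pool.Agent.SGT.StT
import Pool.Agent.SGT.StR

/-!
# [SGT-R1a] REL for elements of H (MP_3dd09b_ag)
-/

set_option autoImplicit false
set_option linter.unusedVariables false

open GT IsLocalRing Polynomial

namespace SGT

/-- powers of `τ` act on `𝕜` as the powers of `τ₀` -/
theorem r1a_pow {𝕜 Ω : Type} [Field 𝕜] [Field Ω] [Algebra 𝕜 Ω] {τ : Ω ≃+* Ω} {τ₀ : 𝕜 ≃+* 𝕜}
    (h : Rst τ τ₀) (c : ℕ) : Rst (τ ^ c) (τ₀ ^ c) := by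
  induction c with
  | zero => exact fun β => rfl
  | succ c ih =>
    intro β
    rw [pow_succ, pow_succ]
    show (τ ^ c) (τ (algebraMap 𝕜 Ω β)) = algebraMap 𝕜 Ω ((τ₀ ^ c) (τ₀ β))
    rw [h, ih]

/-- the element `τ ^ (-c) σ⁻¹ τ σ` of `H` fixes the finite set of `cont`, so it fixes `r` -/
theorem R_R1a (h1 : st_T1) (h0 : st_R0) : st_R1a := by
  intro k C 𝕜 Ω _ _ _ _ _ _ _ _ _ _ _ _ _ _ F L E u y h m H hs W hW hWt τ₀ σ₀ Ψ τ σ hτ hσ hτ₀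
    hσ₀ hΨ hσΨ hσu hσW hτC hτu hτW r hr M hM
  have : CharZero C := charZero_of_injective_algebraMap (algebraMap k C).injective
  obtain ⟨S, hS⟩ := hs.cont r hr
  obtain ⟨c, hc1, hc2⟩ := h1 C 𝕜 u hs.tr hs.alg W hW hWt Ψ σ₀ τ₀ hΨ hσΨ hσu hσW hτC hτu hτW S M hM
  refine ⟨c, ?_, hc2⟩
  have key : ((τ ^ c)⁻¹ * (σ⁻¹ * τ * σ)) r = r := by
    refine hS _ (H.mul_mem (H.inv_mem (H.pow_mem hτ c))
      (H.mul_mem (H.mul_mem (H.inv_mem hσ) hτ) hσ)) ?_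
    intro s hs'
    show (τ ^ c).symm (σ.symm (τ (σ (algebraMap 𝕜 Ω s)))) = algebraMap 𝕜 Ω s
    rw [RingEquiv.symm_apply_eq, RingEquiv.symm_apply_eq, r1a_pow hτ₀ c, ← hc1 s hs', hσ₀, hτ₀, hσ₀,
      RingEquiv.apply_symm_apply]
  have key2 : (τ ^ c).symm (σ.symm (τ (σ r))) = r := key
  rw [RingEquiv.symm_apply_eq] at key2
  exact key2

end SGT
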