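import Pool.Agent.SGT.StT
import Pool.Agent.SGT.StR

/-!
# [SGT-R1b] Frobenius elements in H (MP_3dd09b_ag)
-/

set_option autoImplicit false
set_option linter.unusedVariables false

open GT IsLocalRing Polynomial

namespace SGT

/-- powers fix what the automorphism fixes -/
theorem r1b_pow_fix {Ω : Type} [Field Ω] (g : Ω ≃+* Ω) (z : Ω) (h : g z = z) (n : ℕ) : (g ^ n) z = z := by
  induction n with
  | zero => rfl
  | succ n ih =>
    rw [pow_succ']
    change g ((g ^ n) z) = z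
    rw [ih, h]

/-- multiples of a period -/
theorem r1b_pow_mul {Ω : Type} [Field Ω] (g : Ω ≃+* Ω) (z : Ω) (n : ℕ) (h : (g ^ n) z = z) (m : ℕ) :
    (g ^ (n * m)) z = z := by
  rw [pow_mul]
  exact r1b_pow_fix _ _ h m

/-- a root of a polynomial with fixed coefficients has a finite orbit -/
theorem r1b_orbit {Ω : Type} [Field Ω] (g : Ω ≃+* Ω) (z : Ω) (p : Polynomial Ω) (hp : p ≠ 0)
    (hg : ∀ n, g (p.coeff n) = p.coeff n) (hz : p.eval z = 0) : ∃ n : ℕ, 0 < n ∧ (g ^ n) z = z := by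
  have hroot : ∀ x : Ω, p.eval x = 0 → p.eval (g x) = 0 := by
    intro x hx
    have h1 : p.map (g : Ω →+* Ω) = p := by
      ext n
      rw [Polynomial.coeff_map]
      exact hg n
    have h2 : (p.map (g : Ω →+* Ω)).eval ((g : Ω →+* Ω) x) = (g : Ω →+* Ω) (p.eval x) := by
      rw [Polynomial.eval_map, Polynomial.eval₂_at_apply]
    rw [h1, hx, map_zero] at h2
    exact h2
  have hall : ∀ n : ℕ, (g ^ n) z ∈ p.rootSet Ω := by
    intro n
    rw [Polynomial.mem_rootSet]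
    refine ⟨hp, ?_⟩
    rw [Polynomial.coe_aeval_eq_eval]
    induction n with
    | zero => exact hz
    | succ n ih =>
      rw [pow_succ']
      exact hroot _ ih
  have hnot : ¬ Function.Injective (fun n : ℕ => (⟨(g ^ n) z, hall n⟩ : p.rootSet Ω)) := by
    intro hinj
    exact not_injective_infinite_finite _ hinj
  rw [Function.Injective] at hnot
  push Not at hnot
  obtain ⟨a, b, hab, hne⟩ := hnot
  have hab' : (g ^ a) z = (g ^ b) z := congrArg Subtype.val hab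
  have key : ∀ a b : ℕ, a < b → (g ^ a) z = (g ^ b) z → ∃ n : ℕ, 0 < n ∧ (g ^ n) z = z := by
    intro a b hlt h
    refine ⟨b - a, by omega, ?_⟩
    have h1 : (g ^ b) z = (g ^ a) ((g ^ (b - a)) z) := by
      have h2 : g ^ b = g ^ a * g ^ (b - a) := by rw [← pow_add]; congr 1; omega
      rw [h2]
      rfl
    rw [h1] at h
    exact ((g ^ a).injective h).symm
  rcases lt_or_gt_of_ne hne with h | h
  · exact key a b h hab'
  · exact key b a h hab'.symm

/-- a common period of finitely many elements -/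
theorem r1b_common {Ω : Type} [Field Ω] (g : Ω ≃+* Ω) (Y : Finset Ω)
    (h : ∀ z ∈ Y, ∃ n : ℕ, 0 < n ∧ (g ^ n) z = z) : ∃ n : ℕ, 0 < n ∧ ∀ z ∈ Y, (g ^ n) z = z := by
  classical
  induction Y using Finset.induction_on with
  | empty => exact ⟨1, one_pos, by simp⟩
  | insert a s ha ih =>
    obtain ⟨n, hn, hn'⟩ := ih (fun z hz => h z (Finset.mem_insert_of_mem hz))
    obtain ⟨m, hm, hm'⟩ := h a (Finset.mem_insert_self a s)
    refine ⟨n * m, Nat.mul_pos hn hm, ?_⟩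
    intro z hz
    rcases Finset.mem_insert.1 hz with rfl | hz
    · rw [mul_comm]
      exact r1b_pow_mul g _ m hm' n
    · exact r1b_pow_mul g _ n (hn' z hz) m

/-- powers of the ring automorphism of an algebra automorphism -/
theorem r1b_coe {k C : Type} [Field k] [Field C] [Algebra k C] (Ψ : C ≃ₐ[k] C) (n j : ℕ) (c : C) :
    ((((Ψ ^ n : C ≃ₐ[k] C)) : C ≃+* C) ^ j) c = (Ψ ^ (n * j)) c := by
  induction j generalizing c with
  | zero => rfl
  | succ j ih =>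
    rw [pow_succ']
    change (Ψ ^ n) (((((Ψ ^ n : C ≃ₐ[k] C)) : C ≃+* C) ^ j) c) = _
    rw [ih, Nat.mul_succ, Nat.add_comm, pow_add]
    rfl

/-- an automorphism over `k` of an algebraic extension has finite orbits -/
theorem r1b_alg {k C : Type} [Field k] [Field C] [Algebra k C] [Algebra.IsAlgebraic k C] (Ψ : C ≃ₐ[k] C) (c : C) :
    ∃ n : ℕ, 0 < n ∧ (Ψ ^ n) c = c := by
  obtain ⟨p, hp0, hp⟩ := Algebra.IsAlgebraic.isAlgebraic (R := k) c
  obtain ⟨n, hn, h⟩ := r1b_orbit (((Ψ ^ 1 : C ≃ₐ[k] C)) : C ≃+* C) c (p.map (algebraMap k C))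
    ((Polynomial.map_ne_zero_iff (algebraMap k C).injective).2 hp0)
    (fun n => by
      rw [Polynomial.coeff_map]
      exact (Ψ ^ 1).commutes _) (by rw [Polynomial.eval_map]; exact hp)
  refine ⟨n, hn, ?_⟩
  rw [r1b_coe, one_mul] at h
  exact h

/-- powers of a lift -/
theorem r1b_rst {𝕜 Ω : Type} [Field 𝕜] [Field Ω] [Algebra 𝕜 Ω] (g : Ω ≃+* Ω) (τ : 𝕜 ≃+* 𝕜) (h : Rst g τ) (n : ℕ) :
    Rst (g ^ n) (τ ^ n) := by
  induction n with
  | zero => intro β; rfl
  | succ n ih =>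
    intro β
    rw [pow_succ', pow_succ']
    change g ((g ^ n) (algebraMap 𝕜 Ω β)) = algebraMap 𝕜 Ω (τ ((τ ^ n) β))
    rw [ih, h]

theorem R_R1b (h2 : st_T2) (h3 : st_T3) (h0 : st_R0) (h1a : st_R1a) : st_R1b := by
  intro k C 𝕜 Ω _ _ _ _ _ _ _ _ _ _ _ _ _ _ F L E u y h m H hS hk W hCW hW τ₀ τ hτ hττ hLin hτu hτW N hN p hp S Y hY
  have hchar : CharZero C := charZero_of_injective_algebraMap (algebraMap k C).injective
  obtain ⟨V, Ψ0, q, hSV, hRk, hpu, hq, hV⟩ := h3 k C hk p hp S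
  -- the residue of `u`
  obtain ⟨n1, hn1, hα⟩ : ∃ n1 : ℕ, 0 < n1 ∧ ∀ c : C, u - algebraMap C 𝕜 c ∈ W.nonunits → (Ψ0 ^ n1) c = c := by
    by_cases hex : ∃ c : C, u - algebraMap C 𝕜 c ∈ W.nonunits
    · obtain ⟨α, hα⟩ := hex
      obtain ⟨n1, hn1, hn1'⟩ := r1b_alg Ψ0 α
      refine ⟨n1, hn1, fun c hc => ?_⟩
      have hcα : c = α := by
        by_contra hne
        have h1 : algebraMap C 𝕜 (c - α) ∈ W.nonunits := by
          have h2 : algebraMap C 𝕜 (c - α) = (u - algebraMap C 𝕜 α) - (u - algebraMap C 𝕜 c) := by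
            rw [map_sub]
            ring
          rw [h2, ValuationSubring.mem_nonunits_iff]
          rw [ValuationSubring.mem_nonunits_iff] at hα hc
          exact (W.valuation.map_sub _ _).trans_lt (max_lt hα hc)
        rw [ValuationSubring.mem_nonunits_iff] at h1
        have h3 : W.valuation (algebraMap C 𝕜 (c - α)⁻¹) ≤ 1 := (W.valuation_le_one_iff _).2 (hCW _)
        have h4 : W.valuation (algebraMap C 𝕜 (c - α)) * W.valuation (algebraMap C 𝕜 (c - α)⁻¹) = 1 := by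
          rw [← map_mul, ← map_mul, mul_inv_cancel₀ (sub_ne_zero.2 hne), map_one, map_one]
        have h5 : W.valuation (algebraMap C 𝕜 (c - α)) * W.valuation (algebraMap C 𝕜 (c - α)⁻¹) < 1 :=
          (mul_le_of_le_one_right' h3).trans_lt h1
        rw [h4] at h5
        exact lt_irrefl _ h5
      rw [hcα]
      exact hn1'
    · exact ⟨1, one_pos, fun c hc => absurd ⟨c, hc⟩ hex⟩
  obtain ⟨σ0, hσC, hσu, hσW⟩ := h2 C 𝕜 u hS.tr hS.alg W hCW hW ((Ψ0 ^ n1 : C ≃ₐ[k] C) : C ≃+* C) hα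
  obtain ⟨g1, hg1, hg1σ⟩ := hS.lift σ0 (fun a => by
    rw [hσC]
    congr 1
    exact (Ψ0 ^ n1).commutes a) (by rw [map_pow, hσu])
  obtain ⟨n2, hn2, hY2⟩ := r1b_common g1 Y (fun z hz => by
    obtain ⟨P, hP0, hPF, hPz⟩ := hS.la z (hN (hY z hz))
    exact r1b_orbit g1 z P hP0 (fun n => hS.fixF g1 hg1 _ (hPF n)) hPz)
  have hn : 0 < n1 * n2 := Nat.mul_pos hn1 hn2
  obtain ⟨hV1, hV2, hV3⟩ := hV (n1 * n2) hn
  have hσC2 : ∀ c : C, (σ0 ^ n2) (algebraMap C 𝕜 c) = algebraMap C 𝕜 ((Ψ0 ^ (n1 * n2)) c) := by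
    intro c
    rw [← r1b_coe Ψ0 n1 n2 c]
    clear hY2 hn hV1 hV2 hV3
    induction n2 with
    | zero => rfl
    | succ j ih =>
      rcases Nat.eq_zero_or_pos j with rfl | hj
      · rw [zero_add, pow_one, pow_one]
        exact hσC c
      · rw [pow_succ', pow_succ']
        change σ0 ((σ0 ^ j) (algebraMap C 𝕜 c)) = _
        rw [ih hj]
        exact hσC _
  refine ⟨V, ((Ψ0 ^ (n1 * n2) : C ≃ₐ[k] C) : C ≃+* C), g1 ^ n2, q ^ (n1 * n2), hSV, hRk, hpu, ?_, hV1, hV2, hV3,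
    ?_, hY2, ?_⟩
  · calc 2 ≤ q := hq
      _ = q ^ 1 := (pow_one q).symm
      _ ≤ q ^ (n1 * n2) := Nat.pow_le_pow_right (by omega) hn
  · intro c
    rw [IsScalarTower.algebraMap_apply C 𝕜 Ω, r1b_rst g1 σ0 hg1σ n2, hσC2, ← IsScalarTower.algebraMap_apply]
    rfl
  · refine h1a k C 𝕜 Ω F L E u y h m H hS W hCW hW τ₀ (σ0 ^ n2) _ τ (g1 ^ n2) hτ (H.pow_mem hg1 n2) hττ
      (r1b_rst g1 σ0 hg1σ n2) ?_ hσC2 (r1b_pow_fix σ0 u hσu n2) ?_ hLin hτu hτW
    · intro c
      obtain ⟨n, hn3, hn4⟩ := r1b_alg (Ψ0 ^ (n1 * n2)) c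
      refine ⟨n, hn3, ?_⟩
      rw [r1b_coe]
      rw [← pow_mul] at hn4
      exact hn4
    · intro z
      clear hY2 hn hV1 hV2 hV3 hσC2
      induction n2 with
      | zero => rfl
      | succ j ih =>
        rcases Nat.eq_zero_or_pos j with rfl | hj
        · rw [zero_add, pow_one]
          exact hσW z
        · rw [pow_succ']
          change σ0 ((σ0 ^ j) z) ∈ W ↔ z ∈ W
          rw [hσW, ih hj]

end SGT
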