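import Pool.Agent.SGT.StT
import Pool.Agent.SGT.StR

/-!
# [SGT-R2] Step 1b: the elements of H over C(u) act trivially (MP_3dd09b_ag)
-/

set_option autoImplicit false
set_option linter.unusedVariables false

open GT IsLocalRing Polynomial

namespace SGT

/-- an automorphism which is trivial on `C` and on generators is trivial -/
theorem r2_adj {C Ω : Type} [Field C] [Field Ω] [Algebra C Ω] (g : Ω ≃+* Ω) (S : Set Ω)
    (hl : Lin C g) (hS : ∀ x ∈ S, g x = x) : ∀ z ∈ IntermediateField.adjoin C S, g z = z := by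
  intro z hz
  induction hz using IntermediateField.adjoin_induction with
  | mem x hx => exact hS x hx
  | algebraMap c => exact hl c
  | add x y _ _ hx hy => rw [map_add, hx, hy]
  | inv x _ hx => rw [map_inv₀, hx]
  | mul x y _ _ hx hy => rw [map_mul, hx, hy]

theorem R_R2 (h0g : st_A0g) (h6 : st_T6) (h0 : st_R0) (h1 : st_R1) : st_R2 := by
  intro k C 𝕜 Ω _ _ _ _ _ _ _ _ _ _ _ _ _ _ F L E u y h m H hS hP
  obtain ⟨r1, r2, r3, r4, r5, r6⟩ := h0 k C 𝕜 Ω F L E u y h m H hS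
  have R1 := h1 k C 𝕜 Ω F L E u y h m H hS hP
  have : CharZero C := charZero_of_injective_algebraMap (FaithfulSMul.algebraMap_injective k C)
  classical
  intro g hg hgl hgu z hz
  obtain ⟨N, hN, hzN⟩ := hS.lvs {z} (by
    intro x hx
    rw [Finset.mem_singleton] at hx
    rw [hx]
    exact hz)
  have hzN' : z ∈ N := hzN z (Finset.mem_singleton_self z)
  obtain ⟨hFN, hNL, hNF, hNst⟩ := hN
  obtain ⟨S₀, hS₀⟩ := (h0g C Ω N hNF).1
  have inv_app : ∀ (f : Ω ≃+* Ω) (x : Ω), f⁻¹ (f x) = x := fun f x => f.symm_apply_apply x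
  have app_inv : ∀ (f : Ω ≃+* Ω) (x : Ω), f (f⁻¹ x) = x := fun f x => f.apply_symm_apply x
  have inv_app' : ∀ (f : 𝕜 ≃+* 𝕜) (x : 𝕜), f⁻¹ (f x) = x := fun f x => f.symm_apply_apply x
  have app_inv' : ∀ (f : 𝕜 ≃+* 𝕜) (x : 𝕜), f (f⁻¹ x) = x := fun f x => f.apply_symm_apply x
  -- restriction of the inverse
  have rinv : ∀ (f : Ω ≃+* Ω) (τ : 𝕜 ≃+* 𝕜), Rst f τ → Rst f⁻¹ τ⁻¹ := by
    intro f τ hf β
    apply f.injective
    rw [app_inv, hf, app_inv']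
  -- the subgroup
  let U : Subgroup (𝕜 ≃+* 𝕜) :=
    { carrier := {τ | ∃ f ∈ H, Rst f τ ∧ Tri f (N : Set Ω)}
      mul_mem' := by
        rintro τ₁ τ₂ ⟨f₁, hf₁, ha₁, hb₁⟩ ⟨f₂, hf₂, ha₂, hb₂⟩
        refine ⟨f₁ * f₂, H.mul_mem hf₁ hf₂, ?_, ?_⟩
        · intro β
          change f₁ (f₂ (algebraMap 𝕜 Ω β)) = algebraMap 𝕜 Ω (τ₁ (τ₂ β))
          rw [ha₂, ha₁]
        · intro x hx
          change f₁ (f₂ x) = x
          rw [hb₂ x hx, hb₁ x hx]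
      one_mem' := ⟨1, H.one_mem, fun β => rfl, fun x _ => rfl⟩
      inv_mem' := by
        rintro τ ⟨f, hf, ha, hb⟩
        refine ⟨f⁻¹, H.inv_mem hf, rinv f τ ha, ?_⟩
        intro x hx
        apply f.injective
        rw [app_inv, hb x hx] }
  have hU : ∀ τ : 𝕜 ≃+* 𝕜, τ ∈ U ↔ ∃ f ∈ H, Rst f τ ∧ Tri f (N : Set Ω) := fun τ => Iff.rfl
  have key := h6 C 𝕜 u hS.tr hS.alg U ?_ ?_ ?_
  · -- conclusion
    obtain ⟨τ, hτ, _, _⟩ := hS.rst g hg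
    obtain ⟨e1, e2⟩ := r4 g hg τ hτ
    obtain ⟨f, hf, hfτ, hfN⟩ := (hU τ).1 (key τ (e1.1 hgl) (e2.1 hgu))
    have h7 := r5 (f⁻¹ * g) (H.mul_mem (H.inv_mem hf) hg) (fun β => by
      change f⁻¹ (g (algebraMap 𝕜 Ω β)) = algebraMap 𝕜 Ω β
      rw [hτ, ← hfτ, inv_app]) z hz
    have h8 : f⁻¹ (g z) = z := h7
    have h9 := congrArg f h8
    rw [app_inv, hfN z hzN'] at h9
    exact h9
  · -- normalised
    intro s τ hsl hsu hτ
    obtain ⟨f, hf, hfτ, hfN⟩ := (hU τ).1 hτ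
    obtain ⟨σ, hσ, hσs⟩ := r6 s hsl hsu
    rw [hU]
    refine ⟨σ * f * σ⁻¹, H.mul_mem (H.mul_mem hσ hf) (H.inv_mem hσ), ?_, ?_⟩
    · intro β
      change σ (f (σ⁻¹ (algebraMap 𝕜 Ω β))) = algebraMap 𝕜 Ω (s (τ (s⁻¹ β)))
      rw [rinv σ s hσs, hfτ, hσs]
    · intro x hx
      change σ (f (σ⁻¹ x)) = x
      rw [hfN (σ⁻¹ x) (hNst σ⁻¹ (r1 _ (H.inv_mem hσ)) x hx), app_inv]
  · -- open
    have hc : ∀ x : Ω, ∃ S : Finset 𝕜, x ∈ L → ∀ f ∈ H,
        (∀ s ∈ S, f (algebraMap 𝕜 Ω s) = algebraMap 𝕜 Ω s) → f x = x := by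
      intro x
      by_cases hx : x ∈ L
      · obtain ⟨S, hSx⟩ := hS.cont x hx
        exact ⟨S, fun _ => hSx⟩
      · exact ⟨∅, fun h => absurd h hx⟩
    choose T hT using hc
    refine ⟨S₀.biUnion T, ?_⟩
    intro s hsl hsu hs
    obtain ⟨f, hf, hfs⟩ := r6 s hsl hsu
    rw [hU]
    refine ⟨f, hf, hfs, ?_⟩
    have hfl : Lin C f := (r4 f hf s hfs).1.2 hsl
    intro x hx
    have hx' : x ∈ IntermediateField.adjoin C (S₀ : Set Ω) := by
      rw [← hS₀]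
      exact hx
    apply r2_adj f (S₀ : Set Ω) hfl _ x hx'
    intro x₀ hx₀
    have hxL : x₀ ∈ L := by
      apply hNL
      rw [hS₀]
      exact IntermediateField.subset_adjoin C _ hx₀
    apply hT x₀ hxL f hf
    intro t ht
    rw [hfs, hs t (Finset.mem_biUnion.2 ⟨x₀, hx₀, ht⟩)]
  · -- inertia
    intro W hW hW' s hsl hsu hsW
    obtain ⟨f, hf, hfs⟩ := r6 s hsl hsu
    rw [hU]
    refine ⟨f, hf, hfs, ?_⟩
    have h7 := R1 W hW hW' s f hf hfs hsl hsu hsW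
    intro x hx
    exact h7 x (hNL hx)

end SGT
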