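import Pool.Agent.SGT.StT
import Pool.Agent.SGT.StR

/-!
# [SGT-R3] the element e of order ℓ (MP_3dd09b_ag)
-/

set_option autoImplicit false
set_option linter.unusedVariables false

open GT IsLocalRing Polynomial

namespace SGT

/-- powers of an automorphism which is trivial on `C` and multiplies `U` by `ξ` -/
theorem r3_pow {C Ω : Type} [Field C] [Field Ω] [Algebra C Ω] (e : Ω ≃+* Ω) (U : Ω) (ξ : C)
    (hC : Lin C e) (hU : e U = algebraMap C Ω ξ * U) :
    ∀ n : ℕ, Lin C (e ^ n) ∧ (e ^ n) U = algebraMap C Ω (ξ ^ n) * U := by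
  intro n
  induction n with
  | zero =>
    refine ⟨fun c => rfl, ?_⟩
    rw [pow_zero, pow_zero, map_one, one_mul]
    rfl
  | succ n ih =>
    obtain ⟨h1, h2⟩ := ih
    have h3 : ∀ z, (e ^ (n + 1)) z = (e ^ n) (e z) := by
      intro z
      rw [pow_succ]
      rfl
    refine ⟨fun c => ?_, ?_⟩
    · rw [h3, hC c, h1 c]
    · rw [h3, hU, map_mul, h1, h2, pow_succ, map_mul]
      ring

/-- a root of unity of `Ω` comes from `C` -/
theorem r3_root {C Ω : Type} [Field C] [Field Ω] [Algebra C Ω] {m : ℕ} (hm : 0 < m) {ξ : C}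
    (hξ : IsPrimitiveRoot ξ m) (r : Ω) (hr : r ^ m = 1) : ∃ i : ℕ, r = algebraMap C Ω (ξ ^ i) := by
  have h1 : IsPrimitiveRoot (algebraMap C Ω ξ) m :=
    hξ.map_of_injective (FaithfulSMul.algebraMap_injective C Ω)
  have : NeZero m := ⟨hm.ne'⟩
  obtain ⟨i, _, hi⟩ := h1.eq_pow_of_pow_eq_one hr
  exact ⟨i, by rw [map_pow, hi]⟩

theorem R_R3 (ht : st_T0) (h0 : st_R0) (h2 : st_R2) : st_R3 := by
  intro k C 𝕜 Ω _ _ _ _ _ _ _ _ _ _ _ _ _ _ F L E u y h m H hS hP ℓ hℓ hℓm
  obtain ⟨r1, r2, r3, r4, r5, r6⟩ := h0 k C 𝕜 Ω F L E u y h m H hS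
  have R2 := h2 k C 𝕜 Ω F L E u y h m H hS hP
  have hm := hS.hm
  have : NeZero m := ⟨hm.ne'⟩
  have : CharZero C := charZero_of_injective_algebraMap (FaithfulSMul.algebraMap_injective k C)
  have hinj : Function.Injective (algebraMap C Ω) := FaithfulSMul.algebraMap_injective C Ω
  have hinj' : Function.Injective (algebraMap 𝕜 Ω) := FaithfulSMul.algebraMap_injective 𝕜 Ω
  obtain ⟨ξ, hξ⟩ := HasEnoughRootsOfUnity.exists_primitiveRoot C m
  have hξ0 : ξ ≠ 0 := hξ.ne_zero hm.ne'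
  have hξ0' : algebraMap C 𝕜 ξ ≠ 0 := by
    rw [Ne, map_eq_zero]
    exact hξ0
  have htow : ∀ c : C, algebraMap 𝕜 Ω (algebraMap C 𝕜 c) = algebraMap C Ω c := fun c =>
    (IsScalarTower.algebraMap_apply C 𝕜 Ω c).symm
  -- the automorphism of 𝕜
  have hu0 : u ≠ 0 := by
    rintro rfl
    exact hS.tr isAlgebraic_zero
  have htr : Transcendental C (algebraMap C 𝕜 ξ * u) := by
    intro hal
    apply hS.tr
    have h3 : u = algebraMap C 𝕜 ξ⁻¹ * (algebraMap C 𝕜 ξ * u) := by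
      rw [map_inv₀]
      field_simp
    rw [h3]
    exact (isAlgebraic_algebraMap _).mul hal
  have hadj : IntermediateField.adjoin C {algebraMap C 𝕜 ξ * u} = IntermediateField.adjoin C {u} := by
    apply le_antisymm
    · rw [IntermediateField.adjoin_le_iff, Set.singleton_subset_iff]
      exact mul_mem (IntermediateField.algebraMap_mem _ _)
        (IntermediateField.mem_adjoin_simple_self C u)
    · rw [IntermediateField.adjoin_le_iff, Set.singleton_subset_iff]
      have h3 : u = algebraMap C 𝕜 ξ⁻¹ * (algebraMap C 𝕜 ξ * u) := by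
        rw [map_inv₀]
        field_simp
      have h4 : algebraMap C 𝕜 ξ⁻¹ * (algebraMap C 𝕜 ξ * u) ∈
          IntermediateField.adjoin C {algebraMap C 𝕜 ξ * u} :=
        mul_mem (IntermediateField.algebraMap_mem _ _)
          (IntermediateField.mem_adjoin_simple_self C _)
      rw [← h3] at h4
      exact h4
  obtain ⟨σ₀, hσ1, hσ2⟩ := ht C 𝕜 u (algebraMap C 𝕜 ξ * u) hS.tr htr hS.alg
    (by rw [hadj]; exact hS.alg) (RingEquiv.refl C)
  have hσ1' : ∀ c : C, σ₀ (algebraMap C 𝕜 c) = algebraMap C 𝕜 c := fun c => hσ1 c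
  have hσm : σ₀ (u ^ m) = u ^ m := by
    rw [map_pow, hσ2, mul_pow, ← map_pow, hξ.pow_eq_one, map_one, one_mul]
  obtain ⟨e₁, he1, hR1⟩ := hS.lift σ₀ (fun a => hσ1' _) hσm
  obtain ⟨U, hU⟩ : ∃ U : Ω, U = algebraMap 𝕜 Ω u := ⟨_, rfl⟩
  have hU0 : U ≠ 0 := by
    rw [hU, Ne, map_eq_zero]
    exact hu0
  have hL1 : Lin C e₁ := by
    intro c
    rw [← htow, hR1, hσ1']
  have hU1 : e₁ U = algebraMap C Ω ξ * U := by
    rw [hU, hR1, hσ2, map_mul, htow]
  have hpow := r3_pow e₁ U ξ hL1 hU1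
  have hml : m = m / ℓ * ℓ := (Nat.div_mul_cancel hℓm).symm
  obtain ⟨ζ, hζdef⟩ : ∃ ζ : C, ζ = ξ ^ (m / ℓ) := ⟨_, rfl⟩
  have hζ : IsPrimitiveRoot ζ ℓ := by
    rw [hζdef]
    exact hξ.pow hm hml
  have hζ0 : ζ ≠ 0 := hζ.ne_zero hℓ.ne_zero
  obtain ⟨e, hedef⟩ : ∃ e : Ω ≃+* Ω, e = e₁ ^ (m / ℓ) := ⟨_, rfl⟩
  have heH : e ∈ H := by
    rw [hedef]
    exact pow_mem he1 _
  have heL : Lin C e := by
    rw [hedef]
    exact (hpow _).1
  have heU : e U = algebraMap C Ω ζ * U := by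
    rw [hedef, hζdef]
    exact (hpow _).2
  have hepow := r3_pow e U ζ heL heU
  have hey : e y = y := hS.fixy e heH
  have hζΩ : algebraMap C Ω ζ ≠ 0 := by
    rw [Ne, map_eq_zero]
    exact hζ0
  refine ⟨e, ζ, heH, heL, hζ, by rw [← hU]; exact heU, ?_, ?_, ?_⟩
  · rw [← hU, map_div₀, hey, heU, map_inv₀]
    field_simp
  · -- the order
    intro z hz
    apply R2 (e ^ ℓ) (pow_mem heH _) (hepow ℓ).1 _ z hz
    rw [← hU, (hepow ℓ).2, hζ.pow_eq_one, map_one, one_mul]
  · -- conjugation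
    intro g hg
    have hgG := r1 g hg
    have hgC := hgG.2.2
    -- the image of ζ
    obtain ⟨ζ', hζ'⟩ : ∃ ζ' : C, algebraMap C Ω ζ' = g (algebraMap C Ω ζ) := by
      have := (hgC (algebraMap C Ω ζ)).2 ⟨ζ, rfl⟩
      exact this
    have hζ'1 : ζ' ^ ℓ = 1 := by
      apply hinj
      rw [map_pow, hζ', ← map_pow, ← map_pow, hζ.pow_eq_one, map_one, map_one]
    have : NeZero ℓ := ⟨hℓ.ne_zero⟩
    obtain ⟨j, _, hj⟩ := hζ.eq_pow_of_pow_eq_one hζ'1
    refine ⟨j, ?_, ?_⟩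
    · intro hlj
      obtain ⟨c, rfl⟩ := hlj
      rw [pow_mul, hζ.pow_eq_one, one_pow] at hj
      rw [← hj, map_one] at hζ'
      have h3 : algebraMap C Ω ζ = 1 := by
        apply g.injective
        rw [← hζ', map_one]
      have h4 : ζ = 1 := by
        apply hinj
        rw [h3, map_one]
      exact hζ.ne_one hℓ.one_lt h4
    · -- g⁻¹ U = ξ' U
      have hginv : g⁻¹ ∈ H := H.inv_mem hg
      have hgg : ∀ z, g (g⁻¹ z) = z := fun z => g.apply_symm_apply z
      have hgg' : ∀ z, g⁻¹ (g z) = z := fun z => g.symm_apply_apply z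
      obtain ⟨i, hi⟩ : ∃ i : ℕ, g⁻¹ U / U = algebraMap C Ω (ξ ^ i) := by
        apply r3_root hm hξ
        obtain ⟨τ, hτ1, _, hτ2⟩ := hS.rst g⁻¹ hginv
        have h3 : g⁻¹ (U ^ m) = U ^ m := by
          rw [hU, ← map_pow, hτ1, hτ2]
        rw [map_pow] at h3
        rw [div_pow, h3, div_self (pow_ne_zero _ hU0)]
      have hi' : g⁻¹ U = algebraMap C Ω (ξ ^ i) * U := by
        rw [← hi]
        field_simp
      have hgU : g (algebraMap C Ω (ξ ^ i) * U) = U := by
        rw [← hi', hgg]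
      -- the commutator
      obtain ⟨f, hf⟩ : ∃ f : Ω ≃+* Ω, f = e ^ j := ⟨_, rfl⟩
      have hfH : f ∈ H := by
        rw [hf]
        exact pow_mem heH _
      have hfL : Lin C f := by
        rw [hf]
        exact (hepow j).1
      have hfU : f U = algebraMap C Ω (ζ ^ j) * U := by
        rw [hf]
        exact (hepow j).2
      have hff' : ∀ z, f⁻¹ (f z) = z := fun z => f.symm_apply_apply z
      have hff : ∀ z, f (f⁻¹ z) = z := fun z => f.apply_symm_apply z
      obtain ⟨κ, hκ⟩ : ∃ κ : Ω ≃+* Ω, κ = f⁻¹ * (g * (e * g⁻¹)) := ⟨_, rfl⟩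
      have hκz : ∀ z, κ z = f⁻¹ (g (e (g⁻¹ z))) := by
        intro z
        rw [hκ]
        rfl
      have hκH : κ ∈ H := by
        rw [hκ]
        exact H.mul_mem (H.inv_mem hfH) (H.mul_mem hg (H.mul_mem heH hginv))
      have hκL : Lin C κ := by
        intro c
        obtain ⟨c', hc'⟩ : ∃ c' : C, algebraMap C Ω c' = g⁻¹ (algebraMap C Ω c) := by
          have := (hgC (g⁻¹ (algebraMap C Ω c))).1 (by
            rw [hgg]
            exact ⟨c, rfl⟩)
          exact this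
        rw [hκz, ← hc', heL, hc', hgg]
        have := hff' (algebraMap C Ω c)
        rw [hfL c] at this
        exact this
      have hκU : κ U = U := by
        rw [hκz, hi', map_mul, heL, heU]
        have h3 : g (algebraMap C Ω (ξ ^ i) * (algebraMap C Ω ζ * U)) = f U := by
          have h4 : algebraMap C Ω (ξ ^ i) * (algebraMap C Ω ζ * U) =
              algebraMap C Ω ζ * (algebraMap C Ω (ξ ^ i) * U) := by ring
          rw [h4, map_mul, hgU, ← hζ', ← hj, hfU]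
        rw [h3, hff']
      intro z hz
      have hgz : g z ∈ (L : Set Ω) := (hgG.2.1 z).2 hz
      have h3 := R2 κ hκH hκL (by rw [← hU]; exact hκU) (g z) hgz
      rw [hκz, hgg'] at h3
      have h4 := congrArg f h3
      rw [hff] at h4
      rw [h4, hf]

end SGT
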