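import Pool.Agent.SGT.StR

/-!
# [SGT-R4] fixed places above the branch points (MP_3dd09b_ag)
-/

set_option autoImplicit false
set_option linter.unusedVariables false

open GT IsLocalRing Polynomial

namespace SGT

section r4

/-- An element with `x ^ m = 1` is a constant. -/
private theorem r4_const {C F : Type} [Field C] [IsAlgClosed C] [Field F] [Algebra C F] {x : F} {m : ℕ}
    (hm : 0 < m) (hx : x ^ m = 1) : ∃ c : C, algebraMap C F c = x := by
  by_contra hcon
  push Not at hcon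
  apply transc_of (C := C) (f := x) (fun c hc => hcon c hc.symm)
  refine ⟨X ^ m - 1, ?_, ?_⟩
  · exact Polynomial.X_pow_sub_C_ne_zero hm 1
  · rw [map_sub, map_pow, aeval_X, hx, map_one, sub_self]

/-- Ring homomorphisms which agree on `E₁` and `w` agree on `E₁(w)`. -/
private theorem r4_ext {C Ω : Type} [Field C] [Field Ω] [Algebra C Ω] {E₁ : IntermediateField C Ω} {w : Ω}
    (M : IntermediateField E₁ Ω) (hM : M = IntermediateField.adjoin E₁ {w}) (f g : M →+* Ω)
    (h1 : ∀ z : E₁, f (algebraMap E₁ M z) = g (algebraMap E₁ M z)) (hw : w ∈ M)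
    (h2 : f ⟨w, hw⟩ = g ⟨w, hw⟩) (z : M) : f z = g z := by
  subst hM
  have key : ∀ (x : Ω) (hx : x ∈ IntermediateField.adjoin E₁ {w}), f ⟨x, hx⟩ = g ⟨x, hx⟩ := by
    intro x hx
    induction hx using IntermediateField.adjoin_induction with
    | mem x hx =>
      rw [Set.mem_singleton_iff] at hx
      subst hx
      exact h2
    | algebraMap x => exact h1 x
    | add x y hx hy h3 h4 =>
      have e : (⟨x + y, add_mem hx hy⟩ : IntermediateField.adjoin E₁ {w}) = ⟨x, hx⟩ + ⟨y, hy⟩ := rfl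
      rw [e, map_add, map_add, h3, h4]
    | inv x hx h3 =>
      have e : (⟨x⁻¹, inv_mem hx⟩ : IntermediateField.adjoin E₁ {w}) = (⟨x, hx⟩)⁻¹ := rfl
      rw [e, map_inv₀, map_inv₀, h3]
    | mul x y hx hy h3 h4 =>
      have e : (⟨x * y, mul_mem hx hy⟩ : IntermediateField.adjoin E₁ {w}) = ⟨x, hx⟩ * ⟨y, hy⟩ := rfl
      rw [e, map_mul, map_mul, h3, h4]
  exact key z z.2

/-- `E₁(w) / E₁` is Galois. -/
private theorem r4_gal {C Ω : Type} [Field C] [CharZero C] [IsAlgClosed C] [Field Ω] [IsAlgClosed Ω]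
    [Algebra C Ω] {E₁ : IntermediateField C Ω} {w : Ω} {m : ℕ} {h : E₁} (hm : 0 < m)
    (hw : w ^ m = (h : Ω)) (h0 : h ≠ 0) :
    IsGalois E₁ (IntermediateField.adjoin E₁ {w}) ∧
      FiniteDimensional E₁ (IntermediateField.adjoin E₁ {w}) := by
  have hch : CharZero E₁ := charZero_of_injective_algebraMap (algebraMap C E₁).injective
  set p : E₁[X] := X ^ m - Polynomial.C h with hp
  have hp0 : p ≠ 0 := Polynomial.X_pow_sub_C_ne_zero hm h
  have hsep : p.Separable := Polynomial.separable_X_pow_sub_C h (by exact_mod_cast hm.ne') h0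
  have hw0 : w ≠ 0 := by
    rintro rfl
    rw [zero_pow hm.ne'] at hw
    apply h0
    apply Subtype.ext
    exact hw.symm
  have hroot : ∀ z : Ω, z ∈ p.rootSet Ω ↔ z ^ m = (h : Ω) := by
    intro z
    rw [Polynomial.mem_rootSet_of_ne hp0, hp, map_sub, map_pow, aeval_X, aeval_C, sub_eq_zero]
    rfl
  have hadj : IntermediateField.adjoin E₁ (p.rootSet Ω) = IntermediateField.adjoin E₁ {w} := by
    apply le_antisymm
    · rw [IntermediateField.adjoin_le_iff]
      intro z hz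
      rw [hroot] at hz
      have h1 : (z / w) ^ m = 1 := by
        rw [div_pow, hz, hw, div_self]
        rw [← hw]
        exact pow_ne_zero _ hw0
      obtain ⟨c, hc⟩ := r4_const (C := C) hm h1
      have h2 : z = algebraMap C Ω c * w := by
        rw [hc, div_mul_cancel₀ _ hw0]
      rw [h2]
      apply mul_mem
      · exact (IntermediateField.adjoin E₁ {w}).algebraMap_mem (algebraMap C E₁ c)
      · exact IntermediateField.subset_adjoin _ _ rfl
    · rw [IntermediateField.adjoin_le_iff]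
      intro z hz
      rw [Set.mem_singleton_iff] at hz
      subst hz
      apply IntermediateField.subset_adjoin
      rw [hroot]
      exact hw
  have hspl : p.IsSplittingField E₁ (IntermediateField.adjoin E₁ (p.rootSet Ω)) :=
    IntermediateField.adjoin_rootSet_isSplittingField (IsAlgClosed.splits _)
  rw [hadj] at hspl
  refine ⟨IsGalois.of_separable_splitting_field hsep, ?_⟩
  exact Polynomial.IsSplittingField.finiteDimensional _ p

/-- The argument with the ramification index and Cauchy's theorem. -/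
private theorem r4_core (h2 : st_A2) {C Ω : Type} [Field C] [CharZero C] [IsAlgClosed C] [Field Ω]
    [Algebra C Ω] (E₁ E : IntermediateField C Ω) (w : Ω) (m ℓ a : ℕ) (ζ : C) (e : Ω ≃+* Ω)
    (h : E₁) (P : ValuationSubring Ω) (hFF : FF C E₁) (hFE : FF C E) (i : E₁ →+* E)
    (hi : ∀ x : E₁, ((i x : E) : Ω) = x) (hwE : w ∈ E)
    (hm : 0 < m) (hw : w ^ m = (h : Ω)) (h0 : h ≠ 0) (hℓ : ℓ.Prime) (hdvd : ℓ ^ a ∣ m)
    (hζ : IsPrimitiveRoot ζ ℓ) (hlin : Lin C e) (htri : Tri e (E₁ : Set Ω))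
    (hew : e w = algebraMap C Ω ζ * w) (hPl : Plc C (E₁ : Set Ω) P)
    (hnd : ¬ ((ℓ ^ a : ℕ) : ℤ) ∣ od C (rs E₁ P) h)
    (halg : ∀ z : E, ∃ p : Polynomial E₁, p ≠ 0 ∧ p.eval₂ i z = 0)
    (hfix : ∀ z : E, (∀ g : E ≃+* E, (∀ x : E₁, g (i x) = i x) → g z = z) → ∃ x : E₁, i x = z)
    (hext : ∀ f g : E →+* Ω, (∀ x : E₁, f (i x) = g (i x)) → f ⟨w, hwE⟩ = g ⟨w, hwE⟩ →
      ∀ z, f z = g z) : StP e (E : Set Ω) P := by
  have hiC : ∀ c : C, i (algebraMap C E₁ c) = algebraMap C E c := by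
    intro c
    apply Subtype.ext
    rw [hi]
    rfl
  have hPE : IsPl C (rs E P) := by
    constructor
    · intro c
      exact hPl.1 c
    · intro htop
      obtain ⟨z, hz, hzP⟩ := hPl.2
      apply hzP
      have h1 : i ⟨z, hz⟩ ∈ rs E P := by
        rw [htop]
        exact ValuationSubring.mem_top _
      have h3 : ((i ⟨z, hz⟩ : E) : Ω) ∈ P := h1
      rwa [hi] at h3
  have hcomap : (rs E P).comap i = rs E₁ P := by
    ext z
    show ((i z : E) : Ω) ∈ P ↔ (z : Ω) ∈ P
    rw [hi]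
  obtain ⟨hfinZ, eP, heP0, hePdvd, heP⟩ := h2 C E₁ E i hiC hFF hFE halg hfix (rs E P) hPE
  set wE : E := ⟨w, hwE⟩ with hwE'
  have hih : i h ≠ 0 := by
    rw [Ne, map_eq_zero]
    exact h0
  have hwm : wE ^ m = i h := by
    apply Subtype.ext
    rw [hi, ← hw]
    rfl
  have hwE0 : wE ≠ 0 := by
    intro h3
    rw [h3, zero_pow hm.ne'] at hwm
    exact hih hwm.symm
  have hord : (m : ℤ) * od C (rs E P) wE = eP * od C (rs E₁ P) h := by
    have ho := od_spec hFE hPE
    rw [← ord_pow ho hwE0 m, hwm, heP h h0, hcomap]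
  have hℓe : ℓ ∣ eP := by
    by_contra hcon
    apply hnd
    have h3 : ((ℓ ^ a : ℕ) : ℤ) ∣ eP * od C (rs E₁ P) h := by
      rw [← hord]
      exact Dvd.dvd.mul_right (by exact_mod_cast hdvd) _
    have h4 : Nat.Coprime (ℓ ^ a) eP := Nat.Coprime.pow_left a ((Nat.Prime.coprime_iff_not_dvd hℓ).2 hcon)
    have h5 : IsCoprime ((ℓ ^ a : ℕ) : ℤ) (eP : ℤ) := Nat.isCoprime_iff_coprime.2 h4
    exact h5.dvd_of_dvd_mul_left h3
  -- the stabiliser as a group
  let Z : Subgroup (E ≃+* E) :=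
    { carrier := {g | (∀ x : E₁, g (i x) = i x) ∧ ∀ z, g z ∈ rs E P ↔ z ∈ rs E P}
      mul_mem' := by
        rintro g g' ⟨h3, h4⟩ ⟨h5, h6⟩
        refine ⟨fun x => ?_, fun z => ?_⟩
        · show g (g' (i x)) = i x
          rw [h5, h3]
        · show g (g' z) ∈ rs E P ↔ z ∈ rs E P
          rw [h4, h6]
      one_mem' := ⟨fun x => rfl, fun z => Iff.rfl⟩
      inv_mem' := by
        rintro g ⟨h3, h4⟩
        refine ⟨fun x => ?_, fun z => ?_⟩
        · show g.symm (i x) = i x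
          rw [RingEquiv.symm_apply_eq, h3]
        · show g.symm z ∈ rs E P ↔ z ∈ rs E P
          rw [← h4 (g.symm z), RingEquiv.apply_symm_apply] }
  have hZfin : Finite Z := hfinZ
  have hZdvd : ℓ ∣ Nat.card Z := hℓe.trans hePdvd
  have : Fact ℓ.Prime := ⟨hℓ⟩
  obtain ⟨z0, hz0⟩ := exists_prime_orderOf_dvd_card' ℓ hZdvd
  set g0 : E ≃+* E := z0.1 with hg0
  have hg0fix : ∀ x : E₁, g0 (i x) = i x := z0.2.1
  have hg0C : ∀ c : C, g0 (algebraMap C E c) = algebraMap C E c := by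
    intro c
    rw [← hiC, hg0fix]
  have hratio : (g0 wE / wE) ^ m = 1 := by
    rw [div_pow, ← map_pow, hwm, hg0fix, div_self hih]
  obtain ⟨ζ0, hζ0⟩ := r4_const (C := C) hm hratio
  have hg0w : g0 wE = algebraMap C E ζ0 * wE := by
    rw [hζ0, div_mul_cancel₀ _ hwE0]
  have hpow : ∀ j : ℕ, (g0 ^ j) wE = algebraMap C E (ζ0 ^ j) * wE := by
    intro j
    induction j with
    | zero =>
      rw [pow_zero, pow_zero, map_one, one_mul]
      rfl
    | succ j ih =>
      rw [pow_succ']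
      show g0 ((g0 ^ j) wE) = _
      rw [ih, map_mul, hg0C, hg0w, ← mul_assoc, ← map_mul, ← pow_succ]
  have hpowfix : ∀ (j : ℕ) (x : E₁), (g0 ^ j) (i x) = i x := by
    intro j x
    have h3 : (z0 ^ j).1 (i x) = i x := (z0 ^ j).2.1 x
    exact h3
  have hpowP : ∀ (j : ℕ) (z : E), (g0 ^ j) z ∈ rs E P ↔ z ∈ rs E P := fun j z => (z0 ^ j).2.2 z
  have hinj : ∀ c d : C, algebraMap C E c * wE = algebraMap C E d * wE → c = d := by
    intro c d hcd
    exact (algebraMap C E).injective (mul_right_cancel₀ hwE0 hcd)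
  have hζ0ℓ : ζ0 ^ ℓ = 1 := by
    apply hinj
    rw [← hpow, map_one, one_mul]
    have h3 : z0 ^ ℓ = 1 := by
      rw [← hz0]
      exact pow_orderOf_eq_one z0
    have h4 : g0 ^ ℓ = 1 := congrArg Subtype.val h3
    rw [h4]
    rfl
  have hζ01 : ζ0 ≠ 1 := by
    intro h3
    rw [h3, map_one, one_mul] at hg0w
    have h4 : ∀ z, (algebraMap E Ω) (g0 z) = algebraMap E Ω z :=
      hext ((algebraMap E Ω).comp (g0 : E →+* E)) (algebraMap E Ω) (fun x => by
        show algebraMap E Ω (g0 (i x)) = _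
        rw [hg0fix]) (by
        show algebraMap E Ω (g0 wE) = _
        rw [hg0w])
    have h5 : z0 = 1 := by
      apply Subtype.ext
      apply RingEquiv.ext
      intro z
      exact (algebraMap E Ω).injective (h4 z)
    rw [h5, orderOf_one] at hz0
    exact hℓ.one_lt.ne hz0
  have hprim : IsPrimitiveRoot ζ0 ℓ := by
    have h3 : orderOf ζ0 = ℓ := orderOf_eq_prime hζ0ℓ hζ01
    rw [← h3]
    exact IsPrimitiveRoot.orderOf ζ0
  have : NeZero ℓ := ⟨hℓ.ne_zero⟩
  obtain ⟨j, _, hj⟩ := hprim.eq_pow_of_pow_eq_one hζ.pow_eq_one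
  have hagree : ∀ z : E, e (algebraMap E Ω z) = algebraMap E Ω ((g0 ^ j) z) :=
    hext ((e : Ω →+* Ω).comp (algebraMap E Ω)) ((algebraMap E Ω).comp ((g0 ^ j : E ≃+* E) : E →+* E))
      (fun x => by
        show e (algebraMap E Ω (i x)) = algebraMap E Ω ((g0 ^ j) (i x))
        rw [hpowfix]
        show e ((i x : E) : Ω) = ((i x : E) : Ω)
        rw [hi]
        exact htri x x.2) (by
        show e w = algebraMap E Ω ((g0 ^ j) wE)
        rw [hpow, hj, hew]
        rfl)
  intro z hz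
  have h6 := hagree ⟨z, hz⟩
  have h7 := hpowP j ⟨z, hz⟩
  have h8 : e z = (((g0 ^ j) ⟨z, hz⟩ : E) : Ω) := h6
  rw [h8]
  exact h7

end r4

theorem R_R4 (h2 : st_A2) : st_R4 := by
  intro C Ω _ _ _ _ _ _ E₁ E w m ℓ a ζ e h P hFF hE hm hw h0 hℓ hdvd hζ hlin htri hew hPl hnd
  rw [← IntermediateField.restrictScalars_adjoin] at hE
  obtain ⟨hgal, hfin⟩ := r4_gal hm hw h0
  set M : IntermediateField E₁ Ω := IntermediateField.adjoin E₁ {w} with hM
  have hFFE : FF C E := by
    have h1 := ff_sup E₁ hFF {w} (by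
      intro y hy
      rw [Finset.mem_singleton] at hy
      subst hy
      refine ⟨X ^ m - Polynomial.C h, Polynomial.X_pow_sub_C_ne_zero hm h, ?_⟩
      rw [map_sub, map_pow, aeval_X, aeval_C, hw]
      exact sub_self _)
    rw [Finset.coe_singleton, ← IntermediateField.restrictScalars_adjoin, ← hE] at h1
    exact h1
  subst hE
  have hwM : w ∈ M := IntermediateField.subset_adjoin _ _ rfl
  set i : E₁ →+* (IntermediateField.restrictScalars C M) := algebraMap E₁ M with hi
  refine r4_core h2 E₁ _ w m ℓ a ζ e h P hFF hFFE i (fun x => rfl) hwM hm hw h0 hℓ hdvd hζ hlin htri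
    hew hPl hnd ?_ ?_ ?_
  · intro z
    obtain ⟨p, hp, hp0⟩ := Algebra.IsAlgebraic.isAlgebraic (R := E₁) (A := M) z
    exact ⟨p, hp, hp0⟩
  · intro z hz
    refine (IsGalois.mem_range_algebraMap_iff_fixed (F := E₁) (E := M) z).2 ?_
    intro f
    exact hz (f : M ≃+* M) (fun x => f.commutes x)
  · intro f g h1 h3 z
    exact r4_ext M hM f g h1 hwM h3 z

end SGT
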