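import Pool.Agent.SGT.StR

/-!
# [SGT-R5] the fixed place of H on L (MP_3dd09b_ag)
-/

set_option autoImplicit false
set_option linter.unusedVariables false

open GT IsLocalRing Polynomial

namespace SGT

/-- an automorphism which is trivial on `C` and on generators is trivial -/
theorem r5_adj {C Ω : Type} [Field C] [Field Ω] [Algebra C Ω] (g : Ω ≃+* Ω) (S : Set Ω)
    (hl : Lin C g) (hS : ∀ x ∈ S, g x = x) : ∀ z ∈ IntermediateField.adjoin C S, g z = z := by
  intro z hz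
  induction hz using IntermediateField.adjoin_induction with
  | mem x hx => exact hS x hx
  | algebraMap c => exact hl c
  | add x y _ _ hx hy => rw [map_add, hx, hy]
  | inv x _ hx => rw [map_inv₀, hx]
  | mul x y _ _ hx hy => rw [map_mul, hx, hy]

/-- powers of an automorphism which stabilises a place -/
theorem r5_pow {Ω : Type} [Field Ω] (e : Ω ≃+* Ω) (L : Set Ω) (P : ValuationSubring Ω)
    (hL : ∀ z ∈ L, e z ∈ L) (hP : StP e L P) : ∀ (j : ℕ), ∀ z ∈ L, ((e ^ j) z ∈ P ↔ z ∈ P) := by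
  intro j
  induction j with
  | zero =>
    intro z hz
    rfl
  | succ j ih =>
    intro z hz
    have h1 : (e ^ (j + 1)) z = (e ^ j) (e z) := by
      rw [pow_succ]
      rfl
    rw [h1, ih (e z) (hL z hz), hP z hz]

theorem R_R5 (h8 : st_A8) (h0 : st_R0) (h3 : st_R3) (h4 : st_R4) : st_R5 := by
  intro k C 𝕜 Ω _ _ _ _ _ _ _ _ _ _ _ _ _ _ F L E u y h m H hS hPk ℓ a hh hℓ hℓa hfix
  obtain ⟨r1, r2, r3, r4, r5, r6⟩ := h0 k C 𝕜 Ω F L E u y h m H hS
  have : CharZero C := charZero_of_injective_algebraMap (FaithfulSMul.algebraMap_injective k C)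
  obtain ⟨P, hP1, hP2⟩ := hfix
  have ha : a ≠ 0 := by
    rintro rfl
    apply (hP1 0).2
    rw [pow_zero, Nat.cast_one]
    exact one_dvd _
  have hℓm : ℓ ∣ m := (dvd_pow_self ℓ ha).trans hℓa
  obtain ⟨e, ζ, heH, heL, hζ, heu, hew, heℓ, hconj⟩ := h3 k C 𝕜 Ω F L E u y h m H hS hPk ℓ hℓ hℓm
  obtain ⟨w, hw⟩ : ∃ w : Ω, w = y / algebraMap 𝕜 Ω u := ⟨_, rfl⟩
  rw [← hw] at hew
  have hwm : w ^ m = h := by
    rw [hw]
    exact hS.w
  have hw0 : w ≠ 0 := by
    rintro rfl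
    rw [zero_pow hS.hm.ne'] at hwm
    exact hS.h0 hwm.symm
  have hEE : E = IntermediateField.adjoin C ((F : Set Ω) ∪ {w}) := by
    rw [hw]
    exact hS.EE
  obtain ⟨E₁, hE₁⟩ : ∃ E₁ : IntermediateField C Ω, E₁ = IntermediateField.adjoin C (F : Set Ω) :=
    ⟨_, rfl⟩
  have hFE : (F : Set Ω) ⊆ E := by
    intro x hx
    rw [SetLike.mem_coe, hEE]
    exact IntermediateField.subset_adjoin C _ (Or.inl hx)
  have hwE : w ∈ E := by
    rw [hEE]
    exact IntermediateField.subset_adjoin C _ (Or.inr rfl)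
  have hE1E : IntermediateField.adjoin C (F : Set Ω) ≤ E := by
    rw [IntermediateField.adjoin_le_iff]
    exact hFE
  have hEE' : E = IntermediateField.adjoin C
      ((IntermediateField.adjoin C (F : Set Ω) : Set Ω) ∪ {w}) := by
    apply le_antisymm
    · rw [hEE, IntermediateField.adjoin_le_iff]
      rintro x (hx | hx)
      · apply IntermediateField.subset_adjoin
        left
        exact IntermediateField.subset_adjoin C _ hx
      · apply IntermediateField.subset_adjoin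
        right
        exact hx
    · rw [IntermediateField.adjoin_le_iff]
      rintro x (hx | hx)
      · exact hE1E hx
      · rw [Set.mem_singleton_iff] at hx
        rw [hx]
        exact hwE
  have hG := r1 e heH
  have heTri : Tri e (IntermediateField.adjoin C (F : Set Ω) : Set Ω) :=
    fun z hz => r5_adj e (F : Set Ω) heL (hS.fixF e heH) z hz
  have hst : ∀ i, StP e (E : Set Ω) (P i) := by
    intro i
    refine h4 C Ω (IntermediateField.adjoin C (F : Set Ω)) E w m ℓ a ζ⁻¹ e ⟨h, hh⟩ (P i) hS.ff1 hEE'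
      hS.hm hwm ?_ hℓ hℓa (IsPrimitiveRoot.inv hζ) heL heTri hew (hP1 i).1 (hP1 i).2
    intro h9
    exact hS.h0 (congrArg Subtype.val h9)
  have hwmv : e w ≠ w := by
    intro h9
    rw [hew] at h9
    have h10 : algebraMap C Ω ζ⁻¹ = 1 := mul_right_cancel₀ hw0 (by rw [h9, one_mul])
    have h11 : ζ⁻¹ = 1 := (FaithfulSMul.algebraMap_injective C Ω) (by rw [h10, map_one])
    exact (IsPrimitiveRoot.inv hζ).ne_one hℓ.one_lt h11
  obtain ⟨R, hR1, hR2, hR3, hR4⟩ := h8 C Ω (F : Set Ω) L E hS.lvs hFE hS.le hS.ff hS.kc hS.nor e ℓ hℓ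
    heL hG (r2 e heH) heℓ ⟨w, hwE, hwmv⟩ ⟨P, fun i => ⟨⟨(hP1 i).1.1, by
      obtain ⟨z, hz1, hz2⟩ := (hP1 i).1.2
      exact ⟨z, hE1E hz1, hz2⟩⟩, hst i⟩, fun i j hij heqv =>
        hP2 i j hij (fun z hz => heqv z (hE1E hz))⟩
  refine ⟨R, hR1, ?_, ?_⟩
  · intro g hg
    have hginv : g⁻¹ ∈ H := H.inv_mem hg
    have inv_app : ∀ (f : Ω ≃+* Ω) (x : Ω), f⁻¹ (f x) = x := fun f x => f.symm_apply_apply x
    have app_inv : ∀ (f : Ω ≃+* Ω) (x : Ω), f (f⁻¹ x) = x := fun f x => f.apply_symm_apply x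
    have hmem : ∀ z, z ∈ R.comap ((g⁻¹ : Ω ≃+* Ω) : Ω →+* Ω) ↔ g⁻¹ z ∈ R := fun z => Iff.rfl
    have hQ1 : Plc C (L : Set Ω) (R.comap ((g⁻¹ : Ω ≃+* Ω) : Ω →+* Ω)) := by
      constructor
      · intro c
        rw [hmem]
        obtain ⟨c', hc'⟩ := ((r1 g⁻¹ hginv).2.2 (algebraMap C Ω c)).2 ⟨c, rfl⟩
        rw [← hc']
        exact hR1.1 c'
      · obtain ⟨z₀, hz₀, hz₀'⟩ := hR1.2
        refine ⟨g z₀, (hS.sta g hg z₀).2 hz₀, ?_⟩
        rw [hmem, inv_app]
        exact hz₀'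
    have hQ2 : StP e (L : Set Ω) (R.comap ((g⁻¹ : Ω ≃+* Ω) : Ω →+* Ω)) := by
      intro z hz
      rw [hmem, hmem]
      obtain ⟨j, _, hj⟩ := hconj g⁻¹ hginv
      rw [hj z hz]
      exact r5_pow e (L : Set Ω) R (fun x hx => (hS.sta e heH x).2 hx) hR2 j (g⁻¹ z)
        ((hS.sta g⁻¹ hginv z).2 hz)
    have hQ3 := hR3 _ hQ1 hQ2
    intro z hz
    have h9 := hQ3 (g z) ((hS.sta g hg z).2 hz)
    rw [hmem, inv_app] at h9
    exact h9.symm
  · intro γ hγ1 hγ2 hγ3
    exact hR4 γ hγ1 hγ2 (fun z hz => hγ3 e heH heL z hz)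

end SGT
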