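import Pool.Agent.SGT.StX

/-!
# [SGT-R5x] the fixed place of H on L, second case (MP_3dd09b_ag)
-/

set_option autoImplicit false
set_option linter.unusedVariables false

open GT IsLocalRing Polynomial

namespace SGT

/-- an automorphism which is trivial on `C` and on generators is trivial -/
theorem r5x_adj {C Ω : Type} [Field C] [Field Ω] [Algebra C Ω] (g : Ω ≃+* Ω) (S : Set Ω)
    (hl : Lin C g) (hS : ∀ x ∈ S, g x = x) : ∀ z ∈ IntermediateField.adjoin C S, g z = z := by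
  intro z hz
  induction hz using IntermediateField.adjoin_induction with
  | mem x hx => exact hS x hx
  | algebraMap c => exact hl c
  | add x y _ _ hx hy => rw [map_add, hx, hy]
  | inv x _ hx => rw [map_inv₀, hx]
  | mul x y _ _ hx hy => rw [map_mul, hx, hy]

/-- powers of an automorphism which stabilises a place -/
theorem r5x_pow {Ω : Type} [Field Ω] (e : Ω ≃+* Ω) (L : Set Ω) (P : ValuationSubring Ω)
    (hL : ∀ z ∈ L, e z ∈ L) (hP : StP e L P) : ∀ (j : ℕ), ∀ z ∈ L, ((e ^ j) z ∈ P ↔ z ∈ P) := by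
  intro j
  induction j with
  | zero =>
    intro z hz
    rfl
  | succ j ih =>
    intro z hz
    have h1 : (e ^ (j + 1)) z = (e ^ j) (e z) := by
      rw [pow_succ]
      rfl
    rw [h1, ih (e z) (hL z hz), hP z hz]

theorem R_R5x (h13 : st_A13) (h12 : st_A12) (h0 : st_R0) (h3 : st_R3) : st_R5x := by
  intro k C 𝕜 Ω _ _ _ _ _ _ _ _ _ _ _ _ _ _ F L E u y h m H hS hPk ℓ hℓ hℓm hUC
  obtain ⟨r1, r2, r3, r4, r5, r6⟩ := h0 k C 𝕜 Ω F L E u y h m H hS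
  have : CharZero C := charZero_of_injective_algebraMap (FaithfulSMul.algebraMap_injective k C)
  obtain ⟨e, ζ, heH, heL, hζ, heu, hew, heℓ, hconj⟩ := h3 k C 𝕜 Ω F L E u y h m H hS hPk ℓ hℓ hℓm
  obtain ⟨w, hw⟩ : ∃ w : Ω, w = y / algebraMap 𝕜 Ω u := ⟨_, rfl⟩
  rw [← hw] at hew
  have hwm : w ^ m = h := by
    rw [hw]
    exact hS.w
  have hw0 : w ≠ 0 := by
    rintro rfl
    rw [zero_pow hS.hm.ne'] at hwm
    exact hS.h0 hwm.symm
  have hEE : E = IntermediateField.adjoin C ((F : Set Ω) ∪ {w}) := by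
    rw [hw]
    exact hS.EE
  have hFE : (F : Set Ω) ⊆ E := by
    intro x hx
    rw [SetLike.mem_coe, hEE]
    exact IntermediateField.subset_adjoin C _ (Or.inl hx)
  have hwE : w ∈ E := by
    rw [hEE]
    exact IntermediateField.subset_adjoin C _ (Or.inr rfl)
  have hG := r1 e heH
  have hwmv : e w ≠ w := by
    intro h9
    rw [hew] at h9
    have h10 : algebraMap C Ω ζ⁻¹ = 1 := mul_right_cancel₀ hw0 (by rw [h9, one_mul])
    have h11 : ζ⁻¹ = 1 := (FaithfulSMul.algebraMap_injective C Ω) (by rw [h10, map_one])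
    exact (IsPrimitiveRoot.inv hζ).ne_one hℓ.one_lt h11
  obtain ⟨R, hR1, hR2, hR3, hR4⟩ := h13 C Ω (F : Set Ω) L E hS.lvs hFE hS.le hS.ff hS.kc hS.nor e ℓ hℓ
    heL hG (r2 e heH) heℓ ⟨w, hwE, hwmv⟩ (fun P Q hP hQ hPe hQe hne =>
      h12 C Ω L E hS.le hS.ff hS.kc hS.nor e ℓ hℓ heL hG.2.1 (r2 e heH) heℓ ⟨w, hwE, hwmv⟩ hUC P Q
        hP hQ hPe hQe hne)
  refine ⟨R, hR1, ?_, ?_⟩
  · intro g hg
    have hginv : g⁻¹ ∈ H := H.inv_mem hg
    have inv_app : ∀ (f : Ω ≃+* Ω) (x : Ω), f⁻¹ (f x) = x := fun f x => f.symm_apply_apply x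
    have app_inv : ∀ (f : Ω ≃+* Ω) (x : Ω), f (f⁻¹ x) = x := fun f x => f.apply_symm_apply x
    have hmem : ∀ z, z ∈ R.comap ((g⁻¹ : Ω ≃+* Ω) : Ω →+* Ω) ↔ g⁻¹ z ∈ R := fun z => Iff.rfl
    have hQ1 : Plc C (L : Set Ω) (R.comap ((g⁻¹ : Ω ≃+* Ω) : Ω →+* Ω)) := by
      constructor
      · intro c
        rw [hmem]
        obtain ⟨c', hc'⟩ := ((r1 g⁻¹ hginv).2.2 (algebraMap C Ω c)).2 ⟨c, rfl⟩
        rw [← hc']
        exact hR1.1 c'
      · obtain ⟨z₀, hz₀, hz₀'⟩ := hR1.2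
        refine ⟨g z₀, (hS.sta g hg z₀).2 hz₀, ?_⟩
        rw [hmem, inv_app]
        exact hz₀'
    have hQ2 : StP e (L : Set Ω) (R.comap ((g⁻¹ : Ω ≃+* Ω) : Ω →+* Ω)) := by
      intro z hz
      rw [hmem, hmem]
      obtain ⟨j, _, hj⟩ := hconj g⁻¹ hginv
      rw [hj z hz]
      exact r5x_pow e (L : Set Ω) R (fun x hx => (hS.sta e heH x).2 hx) hR2 j (g⁻¹ z)
        ((hS.sta g⁻¹ hginv z).2 hz)
    have hQ3 := hR3 _ hQ1 hQ2
    intro z hz
    have h9 := hQ3 (g z) ((hS.sta g hg z).2 hz)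
    rw [hmem, inv_app] at h9
    exact h9.symm
  · intro γ hγ1 hγ2 hγ3
    exact hR4 γ hγ1 hγ2 (fun z hz => hγ3 e heH heL z hz)

end SGT
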