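import Pool.Agent.SGT.StT

/-!
# [SGT-T0] automorphisms of the algebraic closure of C(u) (MP_3dd09b_ag)
-/

set_option autoImplicit false
set_option linter.unusedVariables false

open GT IsLocalRing Polynomial

namespace SGT

/-- two algebraic closures of a field -/
theorem t0_ext (R 𝕜 𝕜' : Type) [Field R] [Field 𝕜] [Field 𝕜'] [IsAlgClosed 𝕜] [IsAlgClosed 𝕜']
    (f : R →+* 𝕜) (g : R →+* 𝕜') (hf : ∀ z : 𝕜, ∃ p : R[X], p ≠ 0 ∧ p.eval₂ f z = 0)
    (hg : ∀ z : 𝕜', ∃ p : R[X], p ≠ 0 ∧ p.eval₂ g z = 0) :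
    ∃ σ : 𝕜 ≃+* 𝕜', ∀ r, σ (f r) = g r := by
  let _ : Algebra R 𝕜 := f.toAlgebra
  let _ : Algebra R 𝕜' := g.toAlgebra
  have : Algebra.IsAlgebraic R 𝕜 := ⟨fun z => hf z⟩
  have : Algebra.IsAlgebraic R 𝕜' := ⟨fun z => hg z⟩
  have : IsAlgClosure R 𝕜 := ⟨inferInstance, inferInstance⟩
  have : IsAlgClosure R 𝕜' := ⟨inferInstance, inferInstance⟩
  exact ⟨(IsAlgClosure.equiv R 𝕜 𝕜').toRingEquiv, fun r => (IsAlgClosure.equiv R 𝕜 𝕜').commutes r⟩

/-- a field homomorphism whose image contains `C` and `u` -/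
theorem t0_alg (C 𝕜 R : Type) [Field C] [Field 𝕜] [Field R] [Algebra C 𝕜] (u : 𝕜) (f : R →+* 𝕜)
    (hC : ∀ c : C, ∃ r, f r = algebraMap C 𝕜 c) (hu : ∃ r, f r = u) (z : 𝕜)
    (hz : IsAlgebraic (IntermediateField.adjoin C {u}) z) : ∃ p : R[X], p ≠ 0 ∧ p.eval₂ f z = 0 := by
  obtain ⟨p, hp0, hp⟩ := hz
  have hle : IntermediateField.adjoin C {u} ≤ f.fieldRange.toIntermediateField (fun c => by
      obtain ⟨r, hr⟩ := hC c
      exact ⟨r, hr⟩) := by
    rw [IntermediateField.adjoin_le_iff]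
    intro x hx
    rw [Set.mem_singleton_iff] at hx
    obtain ⟨r, hr⟩ := hu
    exact ⟨r, hr.trans hx.symm⟩
  have hlift : p.map (algebraMap (IntermediateField.adjoin C {u}) 𝕜) ∈ Polynomial.lifts f := by
    rw [Polynomial.lifts_iff_coeff_lifts]
    intro n
    rw [Polynomial.coeff_map]
    exact hle (p.coeff n).2
  rw [Polynomial.mem_lifts] at hlift
  obtain ⟨q, hq⟩ := hlift
  refine ⟨q, ?_, ?_⟩
  · rintro rfl
    rw [Polynomial.map_zero] at hq
    exact hp0 ((Polynomial.map_eq_zero_iff (algebraMap (IntermediateField.adjoin C {u}) 𝕜).injective).1 hq.symm)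
  · rw [← Polynomial.eval_map, hq, Polynomial.eval_map]
    exact hp

/-- the embedding of the rational functions with a given action on the constants -/
theorem t0_emb (C 𝕜 : Type) [Field C] [Field 𝕜] [Algebra C 𝕜] (u : 𝕜) (hu : Transcendental C u) (Ψ : C ≃+* C) :
    ∃ f : FractionRing C[X] →+* 𝕜, (∀ c : C, f (algebraMap C[X] _ (Polynomial.C c)) = algebraMap C 𝕜 (Ψ c)) ∧
      f (algebraMap C[X] _ X) = u := by
  let g : C[X] →+* 𝕜 := Polynomial.eval₂RingHom ((algebraMap C 𝕜).comp (Ψ : C →+* C)) u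
  have hg : Function.Injective g := by
    rw [injective_iff_map_eq_zero]
    intro p hp
    have h1 : Polynomial.aeval u (p.map (Ψ : C →+* C)) = 0 := by
      rw [Polynomial.aeval_def, Polynomial.eval₂_map]
      exact hp
    have h2 : p.map (Ψ : C →+* C) = 0 := by
      by_contra h0
      exact hu ⟨_, h0, h1⟩
    exact (Polynomial.map_eq_zero_iff Ψ.injective).1 h2
  refine ⟨IsFractionRing.lift hg, fun c => ?_, ?_⟩
  · rw [IsFractionRing.lift_algebraMap]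
    simp [g]
  · rw [IsFractionRing.lift_algebraMap]
    simp [g]

theorem R_T0 : st_T0 := by
  intro C 𝕜 _ _ _ _ _ _ u u' hu hu' halg halg' Ψ
  obtain ⟨f, hf1, hf2⟩ := t0_emb C 𝕜 u hu (RingEquiv.refl C)
  obtain ⟨g, hg1, hg2⟩ := t0_emb C 𝕜 u' hu' Ψ
  obtain ⟨σ, hσ⟩ := t0_ext (FractionRing C[X]) 𝕜 𝕜 f g
    (fun z => t0_alg C 𝕜 _ u f (fun c => ⟨_, hf1 c⟩) ⟨_, hf2⟩ z (halg z))
    (fun z => t0_alg C 𝕜 _ u' g (fun c => ⟨algebraMap C[X] _ (Polynomial.C (Ψ.symm c)), by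
      rw [hg1, RingEquiv.apply_symm_apply]⟩) ⟨_, hg2⟩ z (halg' z))
  refine ⟨σ, fun c => ?_, ?_⟩
  · have h1 := hσ (algebraMap C[X] _ (Polynomial.C c))
    rw [hf1, hg1] at h1
    exact h1
  · have h1 := hσ (algebraMap C[X] _ X)
    rw [hf2, hg2] at h1
    exact h1

end SGT
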