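import Pool.Agent.SGT.StA
import Pool.Agent.SGT.StT

/-!
# [SGT-T1] tame inertia: σ⁻¹ τ σ = τ ^ c (MP_3dd09b_ag)
-/

set_option autoImplicit false
set_option linter.unusedVariables false

open GT IsLocalRing Polynomial

namespace SGT

/-- The nonunits of a valuation ring by inverses. -/
private theorem t1_nu {K : Type} [Field K] (A : ValuationSubring K) (x : K) :
    x ∈ A.nonunits ↔ (x = 0 ∨ x⁻¹ ∉ A) := by
  rw [ValuationSubring.mem_nonunits_iff]
  by_cases hx : x = 0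
  · rw [hx, map_zero]
    exact ⟨fun _ => Or.inl rfl, fun _ => zero_lt_one⟩
  · have h0 : 0 < A.valuation x := zero_lt_iff.2 ((Valuation.ne_zero_iff _).2 hx)
    rw [← A.valuation_le_one_iff, map_inv₀, inv_le_one₀ h0, not_le]
    exact ⟨fun h => Or.inr h, fun h => h.resolve_left hx⟩

/-- The restriction of a place. -/
private theorem t1_pl {C Ω : Type} [Field C] [Field Ω] [Algebra C Ω] (N : IntermediateField C Ω)
    (P : ValuationSubring Ω) (h : Plc C (N : Set Ω) P) : IsPl C (rs N P) := by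
  refine ⟨fun c => ?_, fun htop => ?_⟩
  · rw [ValuationSubring.mem_comap]
    exact h.1 c
  · obtain ⟨z, hz, hzP⟩ := h.2
    apply hzP
    have h1 : (⟨z, hz⟩ : N) ∈ rs N P := by rw [htop]; exact ValuationSubring.mem_top _
    rw [ValuationSubring.mem_comap] at h1
    exact h1

section

variable {C Ω : Type} [Field C] [Field Ω] [Algebra C Ω]

/-- A nonzero constant has valuation one. -/
private theorem t1_val {W : ValuationSubring Ω} (hW : ∀ c : C, algebraMap C Ω c ∈ W) {a : C}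
    (ha : a ≠ 0) : W.valuation (algebraMap C Ω a) = 1 := by
  refine le_antisymm ((W.valuation_le_one_iff _).2 (hW a)) ?_
  have h1 := (W.valuation_le_one_iff _).2 (hW a⁻¹)
  rw [map_inv₀, map_inv₀] at h1
  have h0 : 0 < W.valuation (algebraMap C Ω a) :=
    zero_lt_iff.2 ((Valuation.ne_zero_iff _).2 (by rwa [Ne, map_eq_zero]))
  rwa [inv_le_one₀ h0] at h1

/-- products of residues -/
private theorem t1_mul {W : ValuationSubring Ω} (hW : ∀ c : C, algebraMap C Ω c ∈ W) {x y : Ω}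
    {a b : C} (hx : x - algebraMap C Ω a ∈ W.nonunits) (hy : y - algebraMap C Ω b ∈ W.nonunits) :
    x * y - algebraMap C Ω (a * b) ∈ W.nonunits := by
  rw [ValuationSubring.mem_nonunits_iff] at *
  have h1 : W.valuation x ≤ 1 := by
    have h2 : x = (x - algebraMap C Ω a) + algebraMap C Ω a := by ring
    rw [h2]
    exact (W.valuation.map_add _ _).trans (max_le hx.le ((W.valuation_le_one_iff _).2 (hW a)))
  have h3 : x * y - algebraMap C Ω (a * b) =
      x * (y - algebraMap C Ω b) + (x - algebraMap C Ω a) * algebraMap C Ω b := by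
    rw [map_mul]
    ring
  rw [h3]
  refine lt_of_le_of_lt (W.valuation.map_add _ _) (max_lt ?_ ?_)
  · rw [map_mul]
    exact lt_of_le_of_lt (mul_le_mul_left h1 _) (by rwa [one_mul])
  · rw [map_mul]
    exact lt_of_le_of_lt (mul_le_mul_right ((W.valuation_le_one_iff _).2 (hW b)) _)
      (by rwa [mul_one])

/-- inverses of residues -/
private theorem t1_inv {W : ValuationSubring Ω} (hW : ∀ c : C, algebraMap C Ω c ∈ W) {x : Ω}
    {a : C} (ha : a ≠ 0) (hx : x - algebraMap C Ω a ∈ W.nonunits) :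
    x⁻¹ - algebraMap C Ω a⁻¹ ∈ W.nonunits := by
  rw [ValuationSubring.mem_nonunits_iff] at *
  have hva := t1_val hW ha
  have hvx : W.valuation x = 1 := by
    have h2 : x = algebraMap C Ω a + (x - algebraMap C Ω a) := by ring
    rw [h2]
    have h3 : W.valuation (x - algebraMap C Ω a) < W.valuation (algebraMap C Ω a) := by
      rw [hva]; exact hx
    rw [W.valuation.map_add_eq_of_lt_left h3, hva]
  have hx0 : x ≠ 0 := by
    intro h
    rw [h, map_zero] at hvx
    exact zero_ne_one hvx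
  have ha0 : algebraMap C Ω a ≠ 0 := by rwa [Ne, map_eq_zero]
  have h4 : x⁻¹ - algebraMap C Ω a⁻¹ = -((x - algebraMap C Ω a) * x⁻¹ * (algebraMap C Ω a)⁻¹) := by
    rw [map_inv₀]
    field_simp
    ring
  rw [h4, Valuation.map_neg, map_mul, map_mul, map_inv₀, map_inv₀, hvx, hva]
  simpa using hx

/-- uniqueness of residues -/
private theorem t1_uniq {W : ValuationSubring Ω} (hW : ∀ c : C, algebraMap C Ω c ∈ W) {x : Ω}
    {a b : C} (hx : x - algebraMap C Ω a ∈ W.nonunits) (hy : x - algebraMap C Ω b ∈ W.nonunits) :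
    a = b := by
  by_contra hab
  have h1 : a - b ≠ 0 := sub_ne_zero.2 hab
  have h2 := t1_val hW h1
  rw [ValuationSubring.mem_nonunits_iff] at hx hy
  have h3 : algebraMap C Ω (a - b) = (x - algebraMap C Ω b) - (x - algebraMap C Ω a) := by
    rw [map_sub]
    ring
  rw [h3] at h2
  have h4 := lt_of_le_of_lt (W.valuation.map_sub (x - algebraMap C Ω b) (x - algebraMap C Ω a))
    (max_lt hy hx)
  rw [h2] at h4
  exact lt_irrefl _ h4

/-- residues under automorphisms -/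
private theorem t1_map {W : ValuationSubring Ω} {g : Ω ≃+* Ω} (hg : ∀ z, g z ∈ W ↔ z ∈ W) {x : Ω}
    {a b : C} (hab : g (algebraMap C Ω a) = algebraMap C Ω b)
    (hx : x - algebraMap C Ω a ∈ W.nonunits) : g x - algebraMap C Ω b ∈ W.nonunits := by
  rw [← hab, ← map_sub]
  rw [t1_nu] at hx ⊢
  rcases hx with h | h
  · left
    rw [h, map_zero]
  · right
    rw [← map_inv₀, hg]
    exact h

/-- invariance of the order -/
private theorem t1_od [CharZero C] [IsAlgClosed C] {N : IntermediateField C Ω} (hF : FF C N)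
    {W : ValuationSubring Ω} (hW : Plc C (N : Set Ω) W) {g : Ω ≃+* Ω}
    (hN : Sta g (N : Set Ω)) (hg : ∀ z, g z ∈ W ↔ z ∈ W)
    (hC : ∀ c : C, ∃ c' : C, g (algebraMap C Ω c') = algebraMap C Ω c) (z : N) (hz : z ≠ 0) :
    od C (rs N W) ⟨g z, (hN z).2 z.2⟩ = od C (rs N W) z := by
  have ho := od_spec hF (t1_pl N W hW)
  have hne : ∀ a : N, a ≠ 0 → (⟨g a, (hN a).2 a.2⟩ : N) ≠ 0 := by
    intro a ha h
    apply ha
    have h1 : g (a : Ω) = 0 := congrArg Subtype.val h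
    rw [map_eq_zero_iff g g.injective] at h1
    exact Subtype.ext h1
  have h1 : IsOrd C (rs N W) (fun a : N => od C (rs N W) ⟨g a, (hN a).2 a.2⟩) := by
    refine ⟨fun a b ha hb => ?_, fun a ha => ?_, ?_, fun a ha => ?_⟩
    · have h2 : (⟨g ((a * b : N) : Ω), (hN _).2 (a * b).2⟩ : N) =
          ⟨g a, (hN a).2 a.2⟩ * ⟨g b, (hN b).2 b.2⟩ := by
        apply Subtype.ext
        show g (a * b) = g a * g b
        rw [map_mul]
      simp only [h2]
      exact ho.mul _ _ (hne a ha) (hne b hb)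
    · rw [← ho.mem _ (hne a ha)]
      rw [ValuationSubring.mem_comap, ValuationSubring.mem_comap]
      exact (hg a).symm
    · obtain ⟨a, ha, h2⟩ := ho.surj
      have h3 : g.symm (a : Ω) ∈ N := by
        have h4 := (hN (g.symm (a : Ω))).1
        rw [RingEquiv.apply_symm_apply] at h4
        exact h4 a.2
      refine ⟨⟨g.symm a, h3⟩, ?_, ?_⟩
      · intro h
        apply ha
        have h5 : g.symm (a : Ω) = 0 := congrArg Subtype.val h
        rw [map_eq_zero_iff g.symm g.symm.injective] at h5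
        exact Subtype.ext h5
      · simp only [RingEquiv.apply_symm_apply]
        exact h2
    · have h2 : (⟨g a, (hN a).2 a.2⟩ : N) ∈ rs N W := by
        rw [ValuationSubring.mem_comap] at ha ⊢
        exact (hg a).2 ha
      obtain ⟨c, hc⟩ := ho.res _ h2
      obtain ⟨c', hc'⟩ := hC c
      refine ⟨c', ?_⟩
      have h3 : (⟨g ((a - algebraMap C N c' : N) : Ω), (hN _).2 (a - algebraMap C N c').2⟩ : N) =
          ⟨g a, (hN a).2 a.2⟩ - algebraMap C N c := by
        apply Subtype.ext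
        show g ((a : Ω) - algebraMap C Ω c') = g a - algebraMap C Ω c
        rw [map_sub, hc']
      rcases hc with hc | hc
      · left
        rw [← h3] at hc
        by_contra hne'
        exact hne _ hne' hc
      · right
        simp only [h3]
        exact hc
  exact ord_unique h1 ho hz

end

/-- nontrivial valuation rings of an algebraic extension are nontrivial on the small field -/
private theorem t1_nontriv {C 𝕜 : Type} [Field C] [Field 𝕜] [Algebra C 𝕜] {u : 𝕜}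
    (halg : ∀ z : 𝕜, IsAlgebraic (IntermediateField.adjoin C {u}) z) {W : ValuationSubring 𝕜}
    (hW : W ≠ ⊤) : ∃ z ∈ IntermediateField.adjoin C {u}, z ∉ W := by
  by_contra hcon
  push Not at hcon
  apply hW
  rw [eq_top_iff]
  intro z _
  have h1 : IsIntegral (IntermediateField.adjoin C {u}) z := (halg z).isIntegral
  obtain ⟨p, hp, hpz⟩ := h1
  let φ : IntermediateField.adjoin C {u} →+* W :=
    (algebraMap (IntermediateField.adjoin C {u}) 𝕜).codRestrict W (fun x => hcon _ x.2)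
  have h2 : IsIntegral W z := by
    refine ⟨p.map φ, hp.map φ, ?_⟩
    rw [Polynomial.eval₂_map]
    exact hpz
  obtain ⟨y, hy⟩ := (IsIntegrallyClosed.isIntegral_iff (R := W) (K := 𝕜)).1 h2
  rw [← hy]
  exact y.2

/-- roots of unity -/
private theorem t1_roots {C : Type} [Field C] [CharZero C] [IsAlgClosed C] (Ψ : C ≃+* C) {m : ℕ}
    (hm : 0 < m) : ∃ c : ℕ, ∀ ζ : C, ζ ^ m = 1 → Ψ.symm ζ = ζ ^ c := by
  have : NeZero m := ⟨hm.ne'⟩
  have : NeZero (m : C) := ⟨by exact_mod_cast hm.ne'⟩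
  obtain ⟨ξ, hξ⟩ := HasEnoughRootsOfUnity.exists_primitiveRoot C m
  have h1 : (Ψ.symm ξ) ^ m = 1 := by rw [← map_pow, hξ.pow_eq_one, map_one]
  obtain ⟨c, _, hc⟩ := hξ.eq_pow_of_pow_eq_one h1
  refine ⟨c, fun ζ hζ => ?_⟩
  obtain ⟨j, _, rfl⟩ := hξ.eq_pow_of_pow_eq_one hζ
  rw [map_pow, ← hc, ← pow_mul, ← pow_mul, mul_comm]

theorem R_T1 (h3 : st_A3) (h4 : st_A4) (h1a : st_T1a) : st_T1 := by
  intro C 𝕜 _ _ _ _ _ _ u hu halg W hWC hW Ψ σ τ hΨ hσ hσu hσW hτ hτu hτW S M hM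
  obtain ⟨N, hF, huN, hSN, hσN, hHN, n, hn, hexp⟩ := h1a C 𝕜 u hu halg Ψ σ hΨ hσ hσu S
  -- general facts on automorphisms over `C(u)`
  have hKN : IntermediateField.adjoin C {u} ≤ N := by
    rw [IntermediateField.adjoin_le_iff]
    intro z hz
    rw [Set.mem_singleton_iff] at hz
    rw [hz]
    exact huN
  have hPlc : Plc C (N : Set 𝕜) W := by
    obtain ⟨z, hz, hzW⟩ := t1_nontriv halg hW
    exact ⟨hWC, z, hKN hz, hzW⟩
  have hsta : ∀ g : 𝕜 ≃+* 𝕜, Lin C g → g u = u → Sta g (N : Set 𝕜) := by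
    intro g h1 h2 z
    refine ⟨fun hz => ?_, fun hz => hHN g h1 h2 z hz⟩
    have h5 := hHN g.symm (fun c => by rw [RingEquiv.symm_apply_eq, h1 c])
      (by rw [RingEquiv.symm_apply_eq, h2]) _ hz
    rwa [RingEquiv.symm_apply_apply] at h5
  have ho := od_spec hF (t1_pl N W hPlc)
  obtain ⟨π, hπ0, hπ⟩ := ho.surj
  have hπ0' : (π : 𝕜) ≠ 0 := fun h => hπ0 (Subtype.ext h)
  have hτN := hsta τ hτ hτu
  -- the constant of `τ`
  obtain ⟨t, ht0, ht, htn⟩ := h4 C 𝕜 N τ W hF hτ hτN hPlc (fun z _ => hτW z)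
  have htn' : t ^ n = 1 := (htn n hn (hexp τ hτ hτu)).1
  -- powers of `τ`
  have hpow : ∀ i : ℕ, Lin C (τ ^ i) ∧ (τ ^ i) u = u ∧ ∀ z, (τ ^ i) z ∈ W ↔ z ∈ W := by
    intro i
    induction i with
    | zero => exact ⟨fun c => by simp, by simp, fun z => by simp⟩
    | succ i ih =>
      obtain ⟨a1, a2, a3⟩ := ih
      refine ⟨fun c => ?_, ?_, fun z => ?_⟩
      · rw [pow_succ, RingAut.mul_apply, hτ, a1]
      · rw [pow_succ, RingAut.mul_apply, hτu, a2]
      · rw [pow_succ, RingAut.mul_apply, a3, hτW]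
  have hpowN : ∀ i : ℕ, Sta (τ ^ i) (N : Set 𝕜) := fun i => hsta _ (hpow i).1 (hpow i).2.1
  have hpowod : ∀ i : ℕ, od C (rs N W) ⟨(τ ^ i) π, (hpowN i π).2 π.2⟩ = 1 := by
    intro i
    rw [t1_od hF hPlc (hpowN i) (hpow i).2.2 (fun c => ⟨c, (hpow i).1 c⟩) π hπ0, hπ]
  have hne : ∀ (g : 𝕜 ≃+* 𝕜), g π ≠ 0 := fun g h => hπ0' ((map_eq_zero_iff g g.injective).1 h)
  have hpowc : ∀ i : ℕ, (τ ^ i) π / π - algebraMap C 𝕜 (t ^ i) ∈ W.nonunits := by
    intro i
    induction i with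
    | zero =>
      have : ((τ ^ 0) (π : 𝕜)) / π - algebraMap C 𝕜 (t ^ 0) = 0 := by
        rw [pow_zero, pow_zero, map_one, RingAut.one_apply, div_self hπ0', sub_self]
      rw [this, t1_nu]
      exact Or.inl rfl
    | succ i ih =>
      have hz0 : (⟨(τ ^ i) π, (hpowN i π).2 π.2⟩ : N) ≠ 0 := fun h =>
        hne _ (congrArg Subtype.val h)
      have h5 := ht ⟨(τ ^ i) π, (hpowN i π).2 π.2⟩ hz0
      rw [hpowod i, zpow_one] at h5
      have h6 := t1_mul hWC h5 ih
      have h7 : τ ((τ ^ i) (π : 𝕜)) / (τ ^ i) π * ((τ ^ i) π / π) = (τ ^ (i + 1)) π / π := by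
        rw [pow_succ', RingAut.mul_apply]
        have := hne (τ ^ i)
        field_simp
      rw [pow_succ' t, ← h7]
      exact h6
  -- the conjugate
  set τ' : 𝕜 ≃+* 𝕜 := σ⁻¹ * τ * σ with hτ'def
  have hτ'a : ∀ z, τ' z = σ.symm (τ (σ z)) := fun z => rfl
  have hσsC : ∀ c : C, σ.symm (algebraMap C 𝕜 c) = algebraMap C 𝕜 (Ψ.symm c) := fun c => by
    rw [RingEquiv.symm_apply_eq, hσ, RingEquiv.apply_symm_apply]
  have hσsW : ∀ z, σ.symm z ∈ W ↔ z ∈ W := fun z => by
    rw [← hσW, RingEquiv.apply_symm_apply]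
  have hτ'lin : Lin C τ' := by
    intro c
    rw [hτ'a, hσ, hτ, hσsC, RingEquiv.symm_apply_apply]
  have hτ'u : τ' u = u := by
    rw [hτ'a, hσu, hτu, RingEquiv.symm_apply_eq, hσu]
  have hτ'W : ∀ z, τ' z ∈ W ↔ z ∈ W := by
    intro z
    rw [hτ'a, hσsW, hτW, hσW]
  have hσod : od C (rs N W) ⟨σ π, (hσN π).2 π.2⟩ = 1 := by
    rw [t1_od hF hPlc hσN hσW (fun c => ⟨Ψ.symm c, by rw [hσ, RingEquiv.apply_symm_apply]⟩) π hπ0,
      hπ]
  have hτ'c : τ' π / π - algebraMap C 𝕜 (Ψ.symm t) ∈ W.nonunits := by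
    have hz0 : (⟨σ π, (hσN π).2 π.2⟩ : N) ≠ 0 := fun h => hne _ (congrArg Subtype.val h)
    have h5 := ht ⟨σ π, (hσN π).2 π.2⟩ hz0
    rw [hσod, zpow_one] at h5
    have h6 := t1_map hσsW (hσsC t) h5
    have h7 : σ.symm (τ (σ (π : 𝕜)) / σ π) = τ' π / π := by
      rw [map_div₀, RingEquiv.symm_apply_apply, hτ'a]
    rw [h7] at h6
    exact h6
  -- the exponent
  obtain ⟨c, hc⟩ := t1_roots Ψ (Nat.mul_pos hn hM)
  have hct : Ψ.symm t = t ^ c := hc t (by rw [pow_mul, htn', one_pow])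
  refine ⟨c, ?_, ?_⟩
  · set ρ : 𝕜 ≃+* 𝕜 := τ' * (τ ^ c)⁻¹ with hρdef
    have hρa : ∀ z, ρ ((τ ^ c) z) = τ' z := by
      intro z
      rw [hρdef, RingAut.mul_apply]
      congr 1
      exact RingEquiv.symm_apply_apply (τ ^ c) z
    have hsurj : ∀ z, ∃ y, (τ ^ c) y = z := fun z => (τ ^ c).surjective z
    have hρlin : Lin C ρ := by
      intro c'
      have h5 := hρa (algebraMap C 𝕜 c')
      rwa [(hpow c).1, hτ'lin] at h5
    have hρu : ρ u = u := by
      have h5 := hρa u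
      rwa [(hpow c).2.1, hτ'u] at h5
    have hρW : ∀ z, ρ z ∈ W ↔ z ∈ W := by
      intro z
      obtain ⟨y, rfl⟩ := hsurj z
      rw [hρa, hτ'W, (hpow c).2.2]
    obtain ⟨t'', ht''0, ht'', htn''⟩ := h4 C 𝕜 N ρ W hF hρlin (hsta ρ hρlin hρu) hPlc
      (fun z _ => hρW z)
    have h5 : ρ ((τ ^ c) π) / (τ ^ c) π - algebraMap C 𝕜 t'' ∈ W.nonunits := by
      have hz0 : (⟨(τ ^ c) π, (hpowN c π).2 π.2⟩ : N) ≠ 0 := fun h =>
        hne _ (congrArg Subtype.val h)
      have h6 := ht'' ⟨(τ ^ c) π, (hpowN c π).2 π.2⟩ hz0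
      rwa [hpowod c, zpow_one] at h6
    have h6 := t1_mul hWC hτ'c (t1_inv hWC (pow_ne_zero c ht0) (hpowc c))
    have h7 : τ' π / π * ((τ ^ c) (π : 𝕜) / π)⁻¹ = ρ ((τ ^ c) π) / (τ ^ c) π := by
      rw [hρa]
      have := hne (τ ^ c)
      field_simp
    rw [h7, hct, mul_inv_cancel₀ (pow_ne_zero c ht0)] at h6
    have h8 : t'' = 1 := t1_uniq hWC h5 h6
    have h9 : Tri ρ (N : Set 𝕜) := (htn'' n hn (hexp ρ hρlin hρu)).2 h8
    intro r hr
    have h10 := h9 ((τ ^ c) r) ((hpowN c r).2 (hSN r hr))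
    rw [hρa] at h10
    exact h10
  · intro ζ hζ
    have h5 : (Ψ ζ) ^ (n * M) = 1 := by
      rw [← map_pow, mul_comm n M, pow_mul, hζ, one_pow, map_one]
    rw [← hc _ h5, RingEquiv.symm_apply_apply]

end SGT
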