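import Pool.Agent.SGT.StT

/-!
# [SGT-T1a] finite levels of 𝕜 / C(u) stable under σ (MP_3dd09b_ag)
-/

set_option autoImplicit false
set_option linter.unusedVariables false

open GT IsLocalRing Polynomial

namespace SGT

section T1a

variable {C 𝕜 : Type} [Field C] [Field 𝕜] [Algebra C 𝕜]

/-- the periodic points of `σ` form a subfield -/
private theorem t1a_per_pow {σ : 𝕜 ≃+* 𝕜} {n : ℕ} {z : 𝕜} (h : (σ ^ n) z = z) (m : ℕ) :
    (σ ^ (n * m)) z = z := by
  induction m with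
  | zero => simp
  | succ m ih =>
    rw [Nat.mul_succ, pow_add, RingAut.mul_apply, h, ih]

/-- elements of `C(u)` are periodic -/
private theorem t1a_per {u : 𝕜} {Ψ : C ≃+* C} {σ : 𝕜 ≃+* 𝕜}
    (hΨ : ∀ c : C, ∃ n : ℕ, 0 < n ∧ (Ψ ^ n) c = c)
    (hσ : ∀ c : C, σ (algebraMap C 𝕜 c) = algebraMap C 𝕜 (Ψ c)) (hu : σ u = u) :
    ∀ z ∈ IntermediateField.adjoin C {u}, ∃ n : ℕ, 0 < n ∧ (σ ^ n) z = z := by
  have hC : ∀ (n : ℕ) (c : C), (σ ^ n) (algebraMap C 𝕜 c) = algebraMap C 𝕜 ((Ψ ^ n) c) := by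
    intro n
    induction n with
    | zero => intro c; simp
    | succ n ih =>
      intro c
      rw [pow_succ, RingAut.mul_apply, hσ, ih, pow_succ, RingAut.mul_apply]
  intro z hz
  induction hz using IntermediateField.adjoin_induction with
  | mem x hx =>
    rw [Set.mem_singleton_iff] at hx
    subst hx
    exact ⟨1, one_pos, by rw [pow_one]; exact hu⟩
  | algebraMap c =>
    obtain ⟨n, hn, h⟩ := hΨ c
    exact ⟨n, hn, by rw [hC, h]⟩
  | add x y _ _ hx hy =>
    obtain ⟨n, hn, h⟩ := hx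
    obtain ⟨m, hm, h'⟩ := hy
    refine ⟨n * m, Nat.mul_pos hn hm, ?_⟩
    rw [map_add, t1a_per_pow h m, mul_comm n m, t1a_per_pow h' n]
  | inv x _ hx =>
    obtain ⟨n, hn, h⟩ := hx
    exact ⟨n, hn, by rw [map_inv₀, h]⟩
  | mul x y _ _ hx hy =>
    obtain ⟨n, hn, h⟩ := hx
    obtain ⟨m, hm, h'⟩ := hy
    refine ⟨n * m, Nat.mul_pos hn hm, ?_⟩
    rw [map_mul, t1a_per_pow h m, mul_comm n m, t1a_per_pow h' n]

/-- a common period for finitely many periodic elements -/
private theorem t1a_common {σ : 𝕜 ≃+* 𝕜} (T : Finset 𝕜)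
    (h : ∀ z ∈ T, ∃ n : ℕ, 0 < n ∧ (σ ^ n) z = z) : ∃ n : ℕ, 0 < n ∧ ∀ z ∈ T, (σ ^ n) z = z := by
  classical
  induction T using Finset.induction_on with
  | empty => exact ⟨1, one_pos, fun z hz => absurd hz (Finset.notMem_empty z)⟩
  | insert a s ha ih =>
    obtain ⟨n, hn, h1⟩ := ih (fun z hz => h z (Finset.mem_insert_of_mem hz))
    obtain ⟨m, hm, h2⟩ := h a (Finset.mem_insert_self a s)
    refine ⟨n * m, Nat.mul_pos hn hm, fun z hz => ?_⟩
    rcases Finset.mem_insert.1 hz with rfl | hz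
    · rw [mul_comm]
      exact t1a_per_pow h2 n
    · exact t1a_per_pow (h1 z hz) m

/-- automorphisms over `C(u)` fix `C(u)` -/
private theorem t1a_fix {u : 𝕜} {τ : 𝕜 ≃+* 𝕜} (hτ : Lin C τ) (hu : τ u = u) :
    ∀ z ∈ IntermediateField.adjoin C {u}, τ z = z := by
  intro z hz
  induction hz using IntermediateField.adjoin_induction with
  | mem x hx =>
    rw [Set.mem_singleton_iff] at hx
    subst hx
    exact hu
  | algebraMap c => exact hτ c
  | add x y _ _ hx hy => rw [map_add, hx, hy]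
  | inv x _ hx => rw [map_inv₀, hx]
  | mul x y _ _ hx hy => rw [map_mul, hx, hy]

/-- an automorphism which fixes the coefficients of a polynomial permutes its roots -/
private theorem t1a_root {P : Polynomial 𝕜} {τ : 𝕜 ≃+* 𝕜} (h : ∀ n, τ (P.coeff n) = P.coeff n)
    (x : 𝕜) : P.IsRoot (τ x) ↔ P.IsRoot x := by
  have h1 : P.map (τ : 𝕜 →+* 𝕜) = P := by
    ext n
    rw [coeff_map]
    exact h n
  have h2 : P.eval (τ x) = τ (P.eval x) := by
    conv_lhs => rw [← h1]
    rw [Polynomial.eval_map]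
    exact (hom_eval₂ P (RingHom.id 𝕜) (τ : 𝕜 →+* 𝕜) x).symm
  rw [IsRoot.def, IsRoot.def, h2]
  exact map_eq_zero_iff τ τ.injective

/-- every element has a finite orbit under the group generated by `σ` and the automorphisms over
`C(u)` -/
private theorem t1a_orbit {u : 𝕜} {Ψ : C ≃+* C} {σ : 𝕜 ≃+* 𝕜}
    (halg : ∀ z : 𝕜, IsAlgebraic (IntermediateField.adjoin C {u}) z)
    (hΨ : ∀ c : C, ∃ n : ℕ, 0 < n ∧ (Ψ ^ n) c = c)
    (hσ : ∀ c : C, σ (algebraMap C 𝕜 c) = algebraMap C 𝕜 (Ψ c)) (hu : σ u = u) (s : 𝕜) :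
    ∃ T : Set 𝕜, T.Finite ∧ s ∈ T ∧ (∀ z, σ z ∈ T ↔ z ∈ T) ∧
      ∀ τ : 𝕜 ≃+* 𝕜, Lin C τ → τ u = u → ∀ z ∈ T, τ z ∈ T := by
  classical
  obtain ⟨p, hp0, hps⟩ := halg s
  set P : Polynomial 𝕜 := p.map (algebraMap (IntermediateField.adjoin C {u}) 𝕜) with hP
  have hP0 : P ≠ 0 := by
    rw [hP]
    exact (Polynomial.map_ne_zero_iff (algebraMap (IntermediateField.adjoin C {u}) 𝕜).injective).2
      hp0
  have hPs : P.IsRoot s := by
    rw [hP, IsRoot.def, Polynomial.eval_map]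
    exact hps
  have hPc : ∀ n, P.coeff n ∈ IntermediateField.adjoin C {u} := by
    intro n
    rw [hP, coeff_map]
    exact (p.coeff n).2
  have hR : {z | P.IsRoot z}.Finite := by
    refine P.roots.toFinset.finite_toSet.subset (fun z hz => ?_)
    rw [Finset.mem_coe, Multiset.mem_toFinset, mem_roots hP0]
    exact hz
  -- a common period of the coefficients
  obtain ⟨n, hn, hper⟩ := t1a_common (σ := σ) (P.support.image P.coeff) (by
    intro z hz
    obtain ⟨i, _, rfl⟩ := Finset.mem_image.1 hz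
    exact t1a_per hΨ hσ hu _ (hPc i))
  have hper' : ∀ i, (σ ^ n) (P.coeff i) = P.coeff i := by
    intro i
    by_cases hi : P.coeff i = 0
    · rw [hi, map_zero]
    · exact hper _ (Finset.mem_image_of_mem _ (mem_support_iff.2 hi))
  have hroot : ∀ x, P.IsRoot ((σ ^ n) x) ↔ P.IsRoot x := t1a_root hper'
  have hrootm : ∀ (m : ℕ) (x), P.IsRoot ((σ ^ (n * m)) x) ↔ P.IsRoot x := by
    intro m
    induction m with
    | zero => intro x; simp
    | succ m ih =>
      intro x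
      rw [Nat.mul_succ, pow_add, RingAut.mul_apply, ih, hroot]
  refine ⟨{z | ∃ i : ℕ, P.IsRoot ((σ ^ i) z)}, ?_, ⟨0, by simpa using hPs⟩, ?_, ?_⟩
  · -- finiteness
    have h1 : {z | ∃ i : ℕ, P.IsRoot ((σ ^ i) z)} ⊆
        ⋃ j ∈ Finset.range n, {z | P.IsRoot ((σ ^ j) z)} := by
      rintro z ⟨i, hi⟩
      simp only [Set.mem_iUnion]
      refine ⟨i % n, Finset.mem_range.2 (Nat.mod_lt _ hn), ?_⟩
      show P.IsRoot ((σ ^ (i % n)) z)
      rw [← hrootm (i / n), ← RingAut.mul_apply, ← pow_add, Nat.div_add_mod]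
      exact hi
    refine Set.Finite.subset ?_ h1
    refine Set.Finite.biUnion (Finset.finite_toSet _) (fun j _ => ?_)
    exact hR.preimage (fun a _ b _ h => (σ ^ j).injective h)
  · -- stability under σ
    intro z
    constructor
    · rintro ⟨i, hi⟩
      refine ⟨i + 1, ?_⟩
      rw [pow_succ, RingAut.mul_apply]
      exact hi
    · rintro ⟨i, hi⟩
      -- `σ ^ (i + n * (i + 1) - 1)`
      obtain ⟨k, hk⟩ : ∃ k, n * (i + 1) + i = k + 1 := by
        refine ⟨n * (i + 1) + i - 1, ?_⟩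
        have : 1 ≤ n * (i + 1) := Nat.mul_pos hn (Nat.succ_pos i)
        omega
      refine ⟨k, ?_⟩
      rw [← RingAut.mul_apply, ← pow_succ, ← hk, pow_add, RingAut.mul_apply, hrootm]
      exact hi
  · intro τ hτ hτu z hz
    obtain ⟨i, hi⟩ := hz
    refine ⟨i, ?_⟩
    -- the conjugate
    have hconjC : ∀ (j : ℕ) (c : C), ∃ c' : C, (σ ^ j) (algebraMap C 𝕜 c') = algebraMap C 𝕜 c := by
      intro j
      induction j with
      | zero => intro c; exact ⟨c, by simp⟩
      | succ j ih =>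
        intro c
        obtain ⟨c', hc'⟩ := ih c
        refine ⟨Ψ.symm c', ?_⟩
        rw [pow_succ, RingAut.mul_apply, hσ, RingEquiv.apply_symm_apply, hc']
    have hCu : ∀ j : ℕ, (σ ^ j) u = u := by
      intro j
      induction j with
      | zero => simp
      | succ j ih => rw [pow_succ, RingAut.mul_apply, hu, ih]
    set g : 𝕜 ≃+* 𝕜 := σ ^ i * τ * (σ ^ i)⁻¹ with hg
    have hinv : ∀ y : 𝕜, (σ ^ i)⁻¹ ((σ ^ i) y) = y := fun y => by
      rw [← RingAut.mul_apply, inv_mul_cancel]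
      rfl
    have hgl : Lin C g := by
      intro c
      obtain ⟨c', hc'⟩ := hconjC i c
      rw [hg, ← hc', RingAut.mul_apply, RingAut.mul_apply, hinv, hτ c']
    have hgu : g u = u := by
      have h1 := hCu i
      conv_lhs => rw [← h1]
      rw [hg, RingAut.mul_apply, RingAut.mul_apply, hinv, hτu, h1]
    have h1 : ∀ k, g (P.coeff k) = P.coeff k := fun k => t1a_fix hgl hgu _ (hPc k)
    have h2 := (t1a_root h1 ((σ ^ i) z)).2 hi
    rw [hg, RingAut.mul_apply, RingAut.mul_apply, hinv] at h2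
    exact h2

end T1a

theorem R_T1a : st_T1a := by
  intro C 𝕜 _ _ _ _ _ _ u hu halg Ψ σ hΨ hσ hσu S
  classical
  have h0 : ∀ s : 𝕜, ∃ T : Set 𝕜, T.Finite ∧ s ∈ T ∧ (∀ z, σ z ∈ T ↔ z ∈ T) ∧
      ∀ τ : 𝕜 ≃+* 𝕜, Lin C τ → τ u = u → ∀ z ∈ T, τ z ∈ T := t1a_orbit halg hΨ hσ hσu
  choose T hfin hmem hsig htau using h0
  have hTf : (⋃ s ∈ S, T s).Finite := Set.Finite.biUnion (Finset.finite_toSet S) (fun s _ => hfin s)
  set A : Finset 𝕜 := hTf.toFinset with hA
  have hAm : ∀ z, z ∈ A ↔ ∃ s ∈ S, z ∈ T s := by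
    intro z
    rw [hA, Set.Finite.mem_toFinset]
    simp only [Set.mem_iUnion, exists_prop]
  have hAsig : ∀ z, σ z ∈ A ↔ z ∈ A := by
    intro z
    rw [hAm, hAm]
    exact exists_congr fun s => and_congr_right fun _ => hsig s z
  have hAtau : ∀ τ : 𝕜 ≃+* 𝕜, Lin C τ → τ u = u → ∀ z ∈ A, τ z ∈ A := by
    intro τ h1 h2 z hz
    obtain ⟨s, hs, hz⟩ := (hAm z).1 hz
    exact (hAm _).2 ⟨s, hs, htau s τ h1 h2 z hz⟩
  set N : IntermediateField C 𝕜 := IntermediateField.adjoin C (insert u (A : Set 𝕜)) with hN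
  have hsub : insert u (A : Set 𝕜) ⊆ N := IntermediateField.subset_adjoin C _
  -- stability of `N`
  have hstab : ∀ (g : 𝕜 ≃+* 𝕜), (∀ c : C, ∃ c' : C, g (algebraMap C 𝕜 c) = algebraMap C 𝕜 c') →
      g u = u → (∀ z ∈ A, g z ∈ A) → ∀ z ∈ N, g z ∈ N := by
    intro g h1 h2 h3 z hz
    induction hz using IntermediateField.adjoin_induction with
    | mem x hx =>
      rcases hx with rfl | hx
      · rw [h2]
        exact hsub (Set.mem_insert _ _)
      · exact hsub (Set.mem_insert_of_mem _ (h3 x hx))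
    | algebraMap c =>
      obtain ⟨c', hc'⟩ := h1 c
      rw [hc']
      exact N.algebraMap_mem c'
    | add x y _ _ hx hy => rw [map_add]; exact N.add_mem hx hy
    | inv x _ hx => rw [map_inv₀]; exact N.inv_mem hx
    | mul x y _ _ hx hy => rw [map_mul]; exact N.mul_mem hx hy
  refine ⟨N, ff_adjoin hu A (fun y _ => halg y), hsub (Set.mem_insert _ _), ?_, ?_, ?_, ?_⟩
  · intro z hz
    exact hsub (Set.mem_insert_of_mem _ ((hAm z).2 ⟨z, hz, hmem z⟩))
  · intro z
    constructor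
    · intro hz
      have h1 := hstab σ.symm (fun c => ⟨Ψ.symm c, by
        rw [RingEquiv.symm_apply_eq, hσ, RingEquiv.apply_symm_apply]⟩)
        (by rw [RingEquiv.symm_apply_eq, hσu])
        (fun y hy => by
          rw [← hAsig, RingEquiv.apply_symm_apply]
          exact hy) _ hz
      rwa [RingEquiv.symm_apply_apply] at h1
    · exact hstab σ (fun c => ⟨Ψ c, hσ c⟩) hσu (fun y hy => (hAsig y).2 hy) z
  · intro τ h1 h2
    exact hstab τ (fun c => ⟨c, h1 c⟩) h2 (hAtau τ h1 h2)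
  · refine ⟨Fintype.card (Equiv.Perm {x // x ∈ A}), Fintype.card_pos, fun τ h1 h2 => ?_⟩
    -- the permutation of `A`
    have h1' : Lin C τ.symm := fun c => by rw [RingEquiv.symm_apply_eq, h1 c]
    have h2' : τ.symm u = u := by rw [RingEquiv.symm_apply_eq, h2]
    have hiff : ∀ z, τ z ∈ A ↔ z ∈ A := by
      intro z
      refine ⟨fun hz => ?_, fun hz => hAtau τ h1 h2 z hz⟩
      have := hAtau τ.symm h1' h2' _ hz
      rwa [RingEquiv.symm_apply_apply] at this
    set π : Equiv.Perm {x // x ∈ A} := (τ : 𝕜 ≃ 𝕜).subtypeEquiv (fun z => (hiff z).symm) with hπ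
    have hπa : ∀ (m : ℕ) (x : {x // x ∈ A}), (((π ^ m) x : {x // x ∈ A}) : 𝕜) = (τ ^ m) x := by
      intro m
      induction m with
      | zero => intro x; simp
      | succ m ih =>
        intro x
        rw [pow_succ, Equiv.Perm.mul_apply, ih, pow_succ, RingAut.mul_apply]
        rfl
    have hfixA : ∀ z ∈ A, (τ ^ Fintype.card (Equiv.Perm {x // x ∈ A})) z = z := by
      intro z hz
      rw [← hπa _ ⟨z, hz⟩, pow_card_eq_one]
      rfl
    have hlin : ∀ m : ℕ, Lin C (τ ^ m) ∧ (τ ^ m) u = u := by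
      intro m
      induction m with
      | zero => exact ⟨fun c => by simp, by simp⟩
      | succ m ih =>
        refine ⟨fun c => ?_, ?_⟩
        · rw [pow_succ, RingAut.mul_apply, h1, ih.1]
        · rw [pow_succ, RingAut.mul_apply, h2, ih.2]
    intro z hz
    obtain ⟨h3, h4⟩ := hlin (Fintype.card (Equiv.Perm {x // x ∈ A}))
    induction hz using IntermediateField.adjoin_induction with
    | mem x hx =>
      rcases hx with rfl | hx
      · exact h4
      · exact hfixA x hx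
    | algebraMap c => exact h3 c
    | add x y _ _ hx hy => rw [map_add, hx, hy]
    | inv x _ hx => rw [map_inv₀, hx]
    | mul x y _ _ hx hy => rw [map_mul, hx, hy]

end SGT
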