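import Pool.Agent.SGT.StT
import Pool.Agent.MP_c1dca2_ag.SC2.A2

/-!
# [SGT-T2] extension of Ψ fixing u and a place (MP_3dd09b_ag)
-/

set_option autoImplicit false
set_option linter.unusedVariables false

open GT IsLocalRing Polynomial

namespace SGT

section t2

variable {C 𝕜 : Type} [Field C] [Field 𝕜] [Algebra C 𝕜]

/-- A nonzero constant has value `1`. -/
private theorem t2_const {V : ValuationSubring 𝕜} (hV : ∀ c : C, algebraMap C 𝕜 c ∈ V) {c : C}
    (hc : c ≠ 0) : V.valuation (algebraMap C 𝕜 c) = 1 := by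
  have h1 : V.valuation (algebraMap C 𝕜 c) ≤ 1 := (V.valuation_le_one_iff _).2 (hV c)
  have h2 : V.valuation (algebraMap C 𝕜 c⁻¹) ≤ 1 := (V.valuation_le_one_iff _).2 (hV c⁻¹)
  have h3 : V.valuation (algebraMap C 𝕜 c) * V.valuation (algebraMap C 𝕜 c⁻¹) = 1 := by
    rw [← map_mul, ← map_mul, mul_inv_cancel₀ hc, map_one, map_one]
  refine le_antisymm h1 ?_
  calc (1 : _) = V.valuation (algebraMap C 𝕜 c) * V.valuation (algebraMap C 𝕜 c⁻¹) := h3.symm
    _ ≤ V.valuation (algebraMap C 𝕜 c) * 1 := mul_le_mul_right h2 _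
    _ = _ := mul_one _

/-- Polynomials in an element of `V` are in `V`. -/
private theorem t2_aeval {V : ValuationSubring 𝕜} (hV : ∀ c : C, algebraMap C 𝕜 c ∈ V) {t : 𝕜}
    (ht : t ∈ V) (p : C[X]) : aeval t p ∈ V := by
  rw [aeval_eq_sum_range]
  refine sum_mem fun i _ => ?_
  rw [Algebra.smul_def]
  exact mul_mem (hV _) (pow_mem ht i)

/-- `t` is in `V` if `t - α` is. -/
private theorem t2_mem {V : ValuationSubring 𝕜} (hV : ∀ c : C, algebraMap C 𝕜 c ∈ V) {t : 𝕜} {α : C}
    (h : t - algebraMap C 𝕜 α ∈ V.nonunits) : t ∈ V := by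
  have h1 : t - algebraMap C 𝕜 α ∈ V :=
    (V.valuation_le_one_iff _).1 (le_of_lt ((ValuationSubring.mem_nonunits_iff V).1 h))
  have h2 := add_mem h1 (hV α)
  rwa [sub_add_cancel] at h2

/-- The value of `p(t)` at a place with `t = α`. -/
private theorem t2_val {V : ValuationSubring 𝕜} (hV : ∀ c : C, algebraMap C 𝕜 c ∈ V) {t : 𝕜} {α : C}
    (h : t - algebraMap C 𝕜 α ∈ V.nonunits) (p : C[X]) :
    (p.eval α ≠ 0 → V.valuation (aeval t p) = 1) ∧
      (p.eval α = 0 → V.valuation (aeval t p) < 1) := by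
  have htV := t2_mem hV h
  have hlt := (ValuationSubring.mem_nonunits_iff V).1 h
  obtain ⟨q, hq⟩ := X_sub_C_dvd_sub_C_eval (a := α) (p := p)
  have h1 : aeval t p = (t - algebraMap C 𝕜 α) * aeval t q + algebraMap C 𝕜 (p.eval α) := by
    have h2 := congrArg (aeval t) hq
    rw [map_sub, map_mul, map_sub, aeval_X, aeval_C, aeval_C] at h2
    rw [← h2]
    ring
  have h3 : V.valuation ((t - algebraMap C 𝕜 α) * aeval t q) < 1 := by
    rw [map_mul]
    have h4 : V.valuation (aeval t q) ≤ 1 := (V.valuation_le_one_iff _).2 (t2_aeval hV htV q)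
    calc V.valuation (t - algebraMap C 𝕜 α) * V.valuation (aeval t q)
        ≤ V.valuation (t - algebraMap C 𝕜 α) * 1 := mul_le_mul_right h4 _
      _ = V.valuation (t - algebraMap C 𝕜 α) := mul_one _
      _ < 1 := hlt
  constructor
  · intro h0
    have h4 := t2_const hV h0
    rw [h1, Valuation.map_add_eq_of_lt_right _ (by rw [h4]; exact h3), h4]
  · intro h0
    rw [h1, h0, map_zero, add_zero]
    exact h3

/-- Two places with `t = α` agree on `C(t)`. -/
private theorem t2_agree {V₁ V₂ : ValuationSubring 𝕜} (hV₁ : ∀ c : C, algebraMap C 𝕜 c ∈ V₁)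
    (hV₂ : ∀ c : C, algebraMap C 𝕜 c ∈ V₂) {t : 𝕜} (ht : Transcendental C t) {α : C}
    (h₁ : t - algebraMap C 𝕜 α ∈ V₁.nonunits) (h₂ : t - algebraMap C 𝕜 α ∈ V₂.nonunits) {f : 𝕜}
    (hf : f ∈ IntermediateField.adjoin C {t}) (hfV : f ∈ V₁) : f ∈ V₂ := by
  classical
  obtain ⟨r, s, hrs⟩ := (IntermediateField.mem_adjoin_simple_iff C f).1 hf
  by_cases hs : s = 0
  · rw [hrs, hs, map_zero, div_zero]
    exact zero_mem _
  -- reduce the fraction
  obtain ⟨r', s', d, hcop, hr', hs'⟩ : ∃ r' s' d : C[X], IsCoprime r' s' ∧ r = d * r' ∧ s = d * s' := by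
    have hg : EuclideanDomain.gcd r s ≠ 0 := fun h => hs (EuclideanDomain.gcd_eq_zero_iff.1 h).2
    refine ⟨r / EuclideanDomain.gcd r s, s / EuclideanDomain.gcd r s, EuclideanDomain.gcd r s,
      ?_, ?_, ?_⟩
    · let _ := EuclideanDomain.gcdMonoid C[X]
      exact isCoprime_div_gcd_div_gcd (p := r) (q := s) hs
    · exact (EuclideanDomain.mul_div_cancel' hg (EuclideanDomain.gcd_dvd_left r s)).symm
    · exact (EuclideanDomain.mul_div_cancel' hg (EuclideanDomain.gcd_dvd_right r s)).symm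
  have hst : aeval t s ≠ 0 := fun h => hs ((transcendental_iff.1 ht) s h)
  rw [hs', map_mul] at hst
  have hd : aeval t d ≠ 0 := left_ne_zero_of_mul hst
  have hs0 : aeval t s' ≠ 0 := right_ne_zero_of_mul hst
  have hf' : f * aeval t s' = aeval t r' := by
    rw [hrs, hr', hs', map_mul, map_mul]
    field_simp
  by_cases h0 : s'.eval α = 0
  · exfalso
    have h1 : r'.eval α ≠ 0 := by
      intro h2
      obtain ⟨a, b, hab⟩ := hcop
      have h3 := congrArg (Polynomial.eval α) hab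
      rw [eval_add, eval_mul, eval_mul, h0, h2, mul_zero, mul_zero, add_zero, eval_one] at h3
      exact zero_ne_one h3
    have h2 := (t2_val hV₁ h₁ r').1 h1
    have h3 := (t2_val hV₁ h₁ s').2 h0
    rw [← hf', map_mul] at h2
    have h4 : V₁.valuation f ≤ 1 := (V₁.valuation_le_one_iff _).2 hfV
    have h5 : V₁.valuation f * V₁.valuation (aeval t s') < 1 :=
      lt_of_le_of_lt (mul_le_mul_left h4 _) (by rw [one_mul]; exact h3)
    rw [h2] at h5
    exact lt_irrefl _ h5
  · have h1 := (t2_val hV₂ h₂ s').1 h0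
    rw [← V₂.valuation_le_one_iff]
    have h2 : V₂.valuation (aeval t r') ≤ 1 :=
      (V₂.valuation_le_one_iff _).2 (t2_aeval hV₂ (t2_mem hV₂ h₂) r')
    rw [← hf', map_mul, h1, mul_one] at h2
    exact h2

/-- If no `u - α` is a nonunit then all polynomials in `u` are units. -/
private theorem t2_unit [IsAlgClosed C] {V : ValuationSubring 𝕜}
    (hV : ∀ c : C, algebraMap C 𝕜 c ∈ V) {u : 𝕜} (hu : u ∈ V)
    (h : ∀ α : C, u - algebraMap C 𝕜 α ∉ V.nonunits) (n : ℕ) :
    ∀ p : C[X], p.natDegree ≤ n → p ≠ 0 → V.valuation (aeval u p) = 1 := by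
  have hlin : ∀ α : C, V.valuation (u - algebraMap C 𝕜 α) = 1 := by
    intro α
    have h1 := h α
    rw [ValuationSubring.mem_nonunits_iff, not_lt] at h1
    exact le_antisymm ((V.valuation_le_one_iff _).2 (sub_mem hu (hV α))) h1
  have hdeg0 : ∀ p : C[X], p.natDegree = 0 → p ≠ 0 → V.valuation (aeval u p) = 1 := by
    intro p hp hp0
    rw [eq_C_of_natDegree_eq_zero hp, aeval_C]
    refine t2_const hV ?_
    intro h0
    apply hp0
    rw [eq_C_of_natDegree_eq_zero hp, h0, C_0]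
  induction n with
  | zero => exact fun p hp hp0 => hdeg0 p (Nat.le_zero.1 hp) hp0
  | succ n ih =>
    intro p hp hp0
    by_cases hd : p.natDegree = 0
    · exact hdeg0 p hd hp0
    · obtain ⟨a, ha⟩ := IsAlgClosed.exists_root p (by
        rw [degree_eq_natDegree hp0]
        exact_mod_cast hd)
      obtain ⟨q, hq⟩ := dvd_iff_isRoot.2 ha
      have hq0 : q ≠ 0 := by
        rintro rfl
        rw [mul_zero] at hq
        exact hp0 hq
      have h1 : p.natDegree = 1 + q.natDegree := by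
        rw [hq, natDegree_mul (X_sub_C_ne_zero a) hq0, natDegree_X_sub_C]
      rw [hq, map_mul, map_mul, map_sub, aeval_X, aeval_C, hlin, one_mul]
      exact ih q (by omega) hq0

/-- The residue of `u` at a nontrivial place. -/
private theorem t2_res [IsAlgClosed C] {V : ValuationSubring 𝕜}
    (hV : ∀ c : C, algebraMap C 𝕜 c ∈ V) (hVt : V ≠ ⊤) {u : 𝕜} (hu : u ∈ V)
    (halg : ∀ z : 𝕜, IsAlgebraic (IntermediateField.adjoin C {u}) z) :
    ∃ α : C, u - algebraMap C 𝕜 α ∈ V.nonunits := by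
  by_contra hcon
  push Not at hcon
  apply hVt
  have hE : ∀ f ∈ IntermediateField.adjoin C {u}, f ∈ V := by
    intro f hf
    obtain ⟨r, s, hrs⟩ := (IntermediateField.mem_adjoin_simple_iff C f).1 hf
    by_cases hs : s = 0
    · rw [hrs, hs, map_zero, div_zero]
      exact zero_mem _
    · rw [← V.valuation_le_one_iff, hrs, map_div₀,
        t2_unit hV hu hcon s.natDegree s le_rfl hs, div_one]
      exact (V.valuation_le_one_iff _).2 (t2_aeval hV hu r)
  rw [eq_top_iff]
  intro z _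
  obtain ⟨p, hp, hpz⟩ := (halg z).isIntegral
  let j : IntermediateField.adjoin C {u} →+* V :=
    (algebraMap (IntermediateField.adjoin C {u}) 𝕜).codRestrict V.toSubring fun x => hE x x.2
  have hint : IsIntegral V z := by
    refine ⟨p.map j, hp.map j, ?_⟩
    rw [Polynomial.eval₂_map]
    have hj : (algebraMap V 𝕜).comp j = algebraMap (IntermediateField.adjoin C {u}) 𝕜 := by
      ext x
      rfl
    rw [hj]
    exact hpz
  obtain ⟨y, hy⟩ := IsIntegrallyClosed.isIntegral_iff.1 hint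
  rw [← hy]
  exact y.2

/-- Nonunits in terms of the inverse. -/
private theorem t2_nu {V : ValuationSubring 𝕜} {z : 𝕜} (hz : z ≠ 0) :
    z ∈ V.nonunits ↔ z⁻¹ ∉ V := by
  have h0 : V.valuation z ≠ 0 := (V.valuation.ne_zero_iff).2 hz
  rw [ValuationSubring.mem_nonunits_iff, ← V.valuation_le_one_iff, map_inv₀, not_le]
  exact (one_lt_inv₀ (zero_lt_iff.2 h0)).symm

end t2

theorem R_T2 (h0 : st_T0) : st_T2 := by
  classical
  intro C 𝕜 _ _ _ _ _ _ u hu halg W hW hWt Ψ hΨ
  obtain ⟨σ₁, hσC, hσu⟩ := h0 C 𝕜 u u hu hu halg halg Ψ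
  -- the place `σ₁⁻¹ W`
  let W₁ : ValuationSubring 𝕜 := W.comap (σ₁ : 𝕜 →+* 𝕜)
  have hW₁ : ∀ z, z ∈ W₁ ↔ σ₁ z ∈ W := fun z => Iff.rfl
  have hW₁C : ∀ c : C, algebraMap C 𝕜 c ∈ W₁ := by
    intro c
    rw [hW₁, hσC]
    exact hW _
  have hnu : ∀ z : 𝕜, z ≠ 0 → σ₁ z = z → z ∈ W.nonunits → z ∈ W₁.nonunits := by
    intro z hz h1 h2
    rw [t2_nu hz] at h2 ⊢
    rw [hW₁, map_inv₀, h1]
    exact h2
  have hu0 : u ≠ 0 := by
    rintro rfl
    exact hu isAlgebraic_zero
  have hne : ∀ c : C, u - algebraMap C 𝕜 c ≠ 0 := by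
    intro c h
    apply hu
    rw [sub_eq_zero.1 h]
    exact isAlgebraic_algebraMap c
  -- a parameter
  obtain ⟨t, α, ht, hle, h1, h2⟩ : ∃ (t : 𝕜) (α : C), Transcendental C t ∧
      IntermediateField.adjoin C {u} ≤ IntermediateField.adjoin C {t} ∧
      t - algebraMap C 𝕜 α ∈ W.nonunits ∧ t - algebraMap C 𝕜 α ∈ W₁.nonunits := by
    by_cases huW : u ∈ W
    · obtain ⟨α, hα⟩ := t2_res hW hWt huW halg
      refine ⟨u, α, hu, le_rfl, hα, hnu _ (hne α) ?_ hα⟩
      rw [map_sub, hσu, hσC, hΨ α hα]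
    · have ht : Transcendental C u⁻¹ := by
        intro h
        apply hu
        have h3 := h.inv
        rwa [inv_inv] at h3
      have hin : u⁻¹ ∈ W.nonunits := by
        rw [t2_nu (inv_ne_zero hu0), inv_inv]
        exact huW
      refine ⟨u⁻¹, 0, ht, ?_, ?_, ?_⟩
      · rw [IntermediateField.adjoin_le_iff, Set.singleton_subset_iff]
        have h3 := (IntermediateField.adjoin C {u⁻¹}).inv_mem
          (IntermediateField.mem_adjoin_simple_self C u⁻¹)
        rwa [inv_inv] at h3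
      · rw [map_zero, sub_zero]
        exact hin
      · rw [map_zero, sub_zero]
        refine hnu _ (inv_ne_zero hu0) ?_ hin
        rw [map_inv₀, hσu]
  have hag : ∀ f ∈ IntermediateField.adjoin C {u}, (f ∈ W₁ ↔ f ∈ W) := fun f hf =>
    ⟨fun h => t2_agree hW₁C hW ht h2 h1 (hle hf) h, fun h => t2_agree hW hW₁C ht h1 h2 (hle hf) h⟩
  -- conjugation
  have hAlg : Algebra.IsAlgebraic (IntermediateField.adjoin C {u}) 𝕜 := ⟨halg⟩
  have hcl : IsAlgClosure (IntermediateField.adjoin C {u}) 𝕜 := ⟨inferInstance, hAlg⟩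
  have hchar : CharZero (IntermediateField.adjoin C {u}) :=
    charZero_of_injective_algebraMap (algebraMap C (IntermediateField.adjoin C {u})).injective
  have hgal : IsGalois (IntermediateField.adjoin C {u}) 𝕜 := IsAlgClosure.isGalois _ _
  obtain ⟨g, hg⟩ := SC2.exists_conj (k := IntermediateField.adjoin C {u}) (C := 𝕜)
    (A := W.comap (algebraMap (IntermediateField.adjoin C {u}) 𝕜)) (V := W₁) (V' := W)
    (fun a => hag a a.2) (fun a => Iff.rfl)
  have hgE : ∀ f ∈ IntermediateField.adjoin C {u}, g.symm f = f := fun f hf =>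
    g.symm.commutes (⟨f, hf⟩ : IntermediateField.adjoin C {u})
  refine ⟨g.symm.toRingEquiv.trans σ₁, fun c => ?_, ?_, fun z => ?_⟩
  · show σ₁ (g.symm (algebraMap C 𝕜 c)) = _
    rw [hgE _ (IntermediateField.algebraMap_mem _ c), hσC]
  · show σ₁ (g.symm u) = u
    rw [hgE _ (IntermediateField.mem_adjoin_simple_self C u), hσu]
  · show σ₁ (g.symm z) ∈ W ↔ z ∈ W
    rw [← hW₁, ← hg, AlgEquiv.apply_symm_apply]

end SGT
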