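import Pool.Agent.SGT.Defs

/-!
# SGT: statements of the rows B (derivations)
-/

set_option autoImplicit false
set_option linter.unusedVariables false

open GT IsLocalRing Polynomial

noncomputable section

namespace SGT

/-- [B0] A derivation maps an algebraic element `z` into the field generated by `z`. -/
def st_B0 : Prop := ∀ (Ω : Type) [Field Ω] [CharZero Ω] (D : Derivation ℤ Ω Ω) (F : Subfield Ω),
  (∀ z ∈ F, D z ∈ F) → ∀ z : Ω, IsAlgebraic F z →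
    D z ∈ Subfield.closure ((F : Set Ω) ∪ {z})

/-- [B9] The derivation `d / dt` on an algebraic extension of `F(t)`; its constants are algebraic
over `F`. -/
def st_B9 : Prop := ∀ (F Ω : Type) [Field F] [CharZero F] [Field Ω] [Algebra F Ω] (t : Ω),
  Transcendental F t → (∀ z : Ω, IsAlgebraic (IntermediateField.adjoin F {t}) z) →
  ∃ D : Derivation F Ω Ω, D t = 1 ∧ ∀ z : Ω, D z = 0 → IsAlgebraic F z

/-- [B1a] The poles of `D z` for `z` without pole at `O` are bounded. -/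
def st_B1a : Prop := ∀ (𝕜 N : Type) [Field 𝕜] [CharZero 𝕜] [IsAlgClosed 𝕜] [Field N] [Algebra 𝕜 N]
  (D : Derivation ℤ N N) (x : N), FF 𝕜 N →
  (∀ β : 𝕜, ∃ β' : 𝕜, D (algebraMap 𝕜 N β) = algebraMap 𝕜 N β') → Transcendental 𝕜 x →
  D x ∈ Algebra.adjoin 𝕜 {x} → ∀ O : ValuationSubring N, IsPl 𝕜 O → x ∈ O →
  ∃ M : ℕ, ∀ z ∈ O, D z ≠ 0 → -(M : ℤ) ≤ od 𝕜 O (D z)

/-- [B1b] `D` preserves `O` if the poles are bounded and there is a good local parameter `s`. -/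
def st_B1b : Prop := ∀ (𝕜 N : Type) [Field 𝕜] [CharZero 𝕜] [IsAlgClosed 𝕜] [Field N] [Algebra 𝕜 N]
  (D : Derivation ℤ N N) (s : N) (O : ValuationSubring N), FF 𝕜 N →
  (∀ β : 𝕜, ∃ β' : 𝕜, D (algebraMap 𝕜 N β) = algebraMap 𝕜 N β') → IsPl 𝕜 O → s ∈ O.nonunits →
  s ≠ 0 → (D s = 0 ∨ (od 𝕜 O s = 1 ∧ D s ∈ O)) →
  (∃ M : ℕ, ∀ z ∈ O, D z ≠ 0 → -(M : ℤ) ≤ od 𝕜 O (D z)) →
  (∀ z ∈ O, D z ∈ O) ∧ (D s = 0 → ∀ z ∈ O.nonunits, D z ∈ O.nonunits)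

/-- [B4] An everywhere unramified extension of `C(u)` is trivial. -/
def st_B4 : Prop := ∀ (C N : Type) [Field C] [CharZero C] [IsAlgClosed C] [Field N] [Algebra C N]
  (D : Derivation C N N) (u : N), FF C N → (∀ z : N, D z = 0 → ∃ c : C, z = algebraMap C N c) →
  D u = 1 → (∀ O : ValuationSubring N, IsPl C O →
    (∀ c : C, u - algebraMap C N c ∈ O.nonunits → od C O (u - algebraMap C N c) = 1) ∧
    (u⁻¹ ∈ O.nonunits → od C O u⁻¹ = 1)) →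
  ∀ z : N, z ∈ IntermediateField.adjoin C {u}

/-- [B6] Spaces of functions with bounded poles are finite-dimensional. -/
def st_B6 : Prop := ∀ (𝕜 N : Type) [Field 𝕜] [CharZero 𝕜] [IsAlgClosed 𝕜] [Field N] [Algebra 𝕜 N]
  (x : N), FF 𝕜 N → Transcendental 𝕜 x → ∀ m : ℕ, ∃ W : Submodule 𝕜 N, FiniteDimensional 𝕜 W ∧
  ∀ z : N, z ∈ W ↔ ∀ O : ValuationSubring N, IsPl 𝕜 O →
    (x ∈ O → z ∈ O) ∧ (x⁻¹ ∈ O → z * x⁻¹ ^ m ∈ O)

/-- [B6b] Every element of `N` is a quotient of an element of one of these spaces by a polynomial in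
`x`. -/
def st_B6b : Prop := ∀ (𝕜 N : Type) [Field 𝕜] [CharZero 𝕜] [IsAlgClosed 𝕜] [Field N] [Algebra 𝕜 N]
  (x : N), FF 𝕜 N → Transcendental 𝕜 x → ∀ z : N, ∃ (q : 𝕜[X]) (m : ℕ), aeval x q ≠ 0 ∧
  ∀ O : ValuationSubring N, IsPl 𝕜 O →
    (x ∈ O → z * aeval x q ∈ O) ∧ (x⁻¹ ∈ O → z * aeval x q * x⁻¹ ^ m ∈ O)

/-- [B7] A finite-dimensional space with a connection and enough horizontal functionals is spanned by
horizontal elements. -/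
def st_B7 : Prop := ∀ (𝕜 W ι : Type) [Field 𝕜] [AddCommGroup W] [Module 𝕜 W]
  [FiniteDimensional 𝕜 W] (δ : 𝕜 → 𝕜) (D : W → W) (φ : ι → W →ₗ[𝕜] 𝕜), δ 0 = 0 → δ 1 = 0 →
  (∀ i z, φ i (D z) = δ (φ i z)) → (∀ z, (∀ i, φ i z = 0) → z = 0) →
  Submodule.span 𝕜 {z : W | D z = 0} = ⊤

/-- [B8] A function field with a derivation which has no poles except those caused by the constants is
generated by its horizontal elements. -/
def st_B8 : Prop := ∀ (𝕜 N : Type) [Field 𝕜] [CharZero 𝕜] [IsAlgClosed 𝕜] [Field N] [Algebra 𝕜 N]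
  (D : Derivation ℤ N N) (x : N), FF 𝕜 N →
  (∀ β : 𝕜, ∃ β' : 𝕜, D (algebraMap 𝕜 N β) = algebraMap 𝕜 N β') → Transcendental 𝕜 x → D x = 0 →
  (∀ O : ValuationSubring N, IsPl 𝕜 O → ∀ β : 𝕜, x - algebraMap 𝕜 N β ∈ O.nonunits →
    D (algebraMap 𝕜 N β) ≠ 0 → od 𝕜 O (x - algebraMap 𝕜 N β) = 1) →
  ∀ z : N, z ∈ IntermediateField.adjoin 𝕜 {w : N | D w = 0}

/-- [B10] The extension `𝕜 E / 𝕜(x)` is unramified at the places over `β ∉ C`. -/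
def st_B10 : Prop := ∀ (C 𝕜 Ω : Type) [Field C] [CharZero C] [IsAlgClosed C] [Field 𝕜]
  [IsAlgClosed 𝕜] [Field Ω] [Algebra C 𝕜] [Algebra 𝕜 Ω] [Algebra C Ω] [IsScalarTower C 𝕜 Ω]
  (E : IntermediateField C Ω) (N : IntermediateField 𝕜 Ω) (x : Ω), FF C E → x ∈ E →
  Transcendental 𝕜 x → N = IntermediateField.adjoin 𝕜 (E : Set Ω) → FF 𝕜 N → ∀ hx : x ∈ N,
  ∀ (O : ValuationSubring N) (β : 𝕜), IsPl 𝕜 O → (∀ c : C, algebraMap C 𝕜 c ≠ β) →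
    (⟨x, hx⟩ - algebraMap 𝕜 N β : N) ∈ O.nonunits → od 𝕜 O (⟨x, hx⟩ - algebraMap 𝕜 N β) = 1

end SGT
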