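import Pool.Agent.SGT.StA
import Pool.Agent.SGT.StB
import Pool.Agent.SGT.StT

/-!
# [SGT-T6] the projective line is simply connected (group form) (MP_3dd09b_ag)
-/

set_option autoImplicit false
set_option linter.unusedVariables false

open GT IsLocalRing Polynomial

namespace SGT

/-- The value of a polynomial at a nonunit is a power of it times a unit. -/
private theorem t6_poly {C K : Type} [Field C] [Field K] [Algebra C K] {P : ValuationSubring K}
    (hP : IsPl C P) {o : K → ℤ} (ho : IsOrd C P o) {v : K} (hv0 : v ≠ 0) (hv : v ∈ P.nonunits)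
    (p : C[X]) (hp : aeval v p ≠ 0) : ∃ n : ℤ, o (aeval v p) = n * o v := by
  have hone : o 1 = 0 := by
    have := ho.mul 1 1 one_ne_zero one_ne_zero
    rw [mul_one] at this
    linarith
  have hinv : ∀ a : K, a ≠ 0 → o a⁻¹ = - o a := by
    intro a ha
    have := ho.mul a a⁻¹ ha (inv_ne_zero ha)
    rw [mul_inv_cancel₀ ha, hone] at this
    linarith
  have hp0 : p ≠ 0 := by
    rintro rfl
    exact hp (by simp)
  obtain ⟨q, hq⟩ : X ^ p.rootMultiplicity 0 ∣ p := by
    have := pow_rootMultiplicity_dvd p 0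
    rwa [C_0, sub_zero] at this
  set n := p.rootMultiplicity 0 with hn
  have hq0 : q.eval 0 ≠ 0 := by
    intro h
    have h1 : X ∣ q := by
      rw [X_dvd_iff, coeff_zero_eq_eval_zero]
      exact h
    obtain ⟨r, hr⟩ := h1
    have h2 : (X - Polynomial.C (0 : C)) ^ (n + 1) ∣ p := by
      rw [C_0, sub_zero]
      exact ⟨r, by rw [hq, hr]; ring⟩
    have h3 := (le_rootMultiplicity_iff hp0).2 h2
    omega
  have hpow : ∀ m : ℕ, o (v ^ m) = m * o v := by
    intro m
    induction m with
    | zero => simp [hone]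
    | succ m ih =>
      rw [pow_succ, ho.mul _ _ (pow_ne_zero _ hv0) hv0, ih]
      push_cast
      ring
  have hval : ∀ c : C, c ≠ 0 → P.valuation (algebraMap C K c) = 1 := by
    intro c hc
    have h1 : P.valuation (algebraMap C K c) ≤ 1 := (P.valuation_le_one_iff _).2 (hP.1 c)
    have h2 : P.valuation (algebraMap C K c)⁻¹ ≤ 1 := by
      rw [← map_inv₀]
      exact (P.valuation_le_one_iff _).2 (hP.1 c⁻¹)
    rw [map_inv₀] at h2
    refine le_antisymm h1 ?_
    have h3 : 0 < P.valuation (algebraMap C K c) := by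
      rw [zero_lt_iff, Ne, map_eq_zero]
      simpa using hc
    exact (inv_le_one₀ h3).1 h2
  have hvP : v ∈ P := P.nonunits_subset hv
  have hmem : ∀ r : C[X], aeval v r ∈ P := by
    intro r
    induction r using Polynomial.induction_on' with
    | add a b ha hb => rw [map_add]; exact P.add_mem _ _ ha hb
    | monomial m c =>
      rw [aeval_monomial]
      exact P.mul_mem _ _ (hP.1 c) (pow_mem hvP m)
  have hqv : P.valuation (aeval v q) = 1 := by
    have h1 : aeval v q = algebraMap C K (q.eval 0) + v * aeval v (divX q) := by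
      have := divX_mul_X_add q
      conv_lhs => rw [← this]
      rw [map_add, map_mul, aeval_X, aeval_C, coeff_zero_eq_eval_zero]
      ring
    rw [h1]
    have h2 : P.valuation (v * aeval v (divX q)) < P.valuation (algebraMap C K (q.eval 0)) := by
      rw [hval _ hq0, map_mul]
      have h3 : P.valuation v < 1 := P.mem_nonunits_iff.1 hv
      have h4 : P.valuation (aeval v (divX q)) ≤ 1 := (P.valuation_le_one_iff _).2 (hmem _)
      exact mul_lt_one_of_lt_of_le h3 h4
    rw [Valuation.map_add_eq_of_lt_left _ h2]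
    exact hval _ hq0
  have hqne : aeval v q ≠ 0 := by
    intro h
    rw [h, map_zero] at hqv
    exact zero_ne_one hqv
  have hoq : o (aeval v q) = 0 := by
    have h1 : 0 ≤ o (aeval v q) := (ho.mem _ hqne).1 ((P.valuation_le_one_iff _).1 hqv.le)
    have h2 : 0 ≤ o (aeval v q)⁻¹ := by
      refine (ho.mem _ (inv_ne_zero hqne)).1 ((P.valuation_le_one_iff _).1 ?_)
      rw [map_inv₀, hqv, inv_one]
    rw [hinv _ hqne] at h2
    linarith
  refine ⟨n, ?_⟩
  rw [hq, map_mul, map_pow, aeval_X, ho.mul _ _ (pow_ne_zero _ hv0) hqne, hoq, hpow, add_zero]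

/-- In `C(v)` the order of `v` at its zero is `1`. -/
private theorem t6_od {C K : Type} [Field C] [CharZero C] [IsAlgClosed C] [Field K] [Algebra C K]
    (hF : FF C K) {P : ValuationSubring K} (hP : IsPl C P) {v : K} (hv0 : v ≠ 0)
    (hv : v ∈ P.nonunits) (htop : ∀ z : K, z ∈ IntermediateField.adjoin C {v}) :
    od C P v = 1 := by
  have ho := od_spec hF hP
  set o := od C P with hoo
  have hone : o 1 = 0 := by
    have := ho.mul 1 1 one_ne_zero one_ne_zero
    rw [mul_one] at this
    linarith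
  have hinv : ∀ a : K, a ≠ 0 → o a⁻¹ = - o a := by
    intro a ha
    have := ho.mul a a⁻¹ ha (inv_ne_zero ha)
    rw [mul_inv_cancel₀ ha, hone] at this
    linarith
  obtain ⟨a, ha0, ha⟩ := ho.surj
  obtain ⟨r, s, hrs⟩ := (IntermediateField.mem_adjoin_simple_iff C a).1 (htop a)
  have hr : aeval v r ≠ 0 := by
    intro h
    rw [h, zero_div] at hrs
    exact ha0 hrs
  have hs : aeval v s ≠ 0 := by
    intro h
    rw [h, div_zero] at hrs
    exact ha0 hrs
  obtain ⟨n, hn⟩ := t6_poly hP ho hv0 hv r hr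
  obtain ⟨m, hm⟩ := t6_poly hP ho hv0 hv s hs
  have h1 : (n - m) * o v = 1 := by
    rw [hrs, div_eq_mul_inv, ho.mul _ _ hr (inv_ne_zero hs), hinv _ hs, hn, hm] at ha
    linarith
  have h2 : 0 < o v := by
    by_contra hcon
    have h3 : 0 ≤ o v⁻¹ := by rw [hinv _ hv0]; omega
    have h4 := (ho.mem _ (inv_ne_zero hv0)).2 h3
    have h5 : P.valuation v < 1 := P.mem_nonunits_iff.1 hv
    have h6 : P.valuation v⁻¹ ≤ 1 := (P.valuation_le_one_iff _).2 h4
    rw [map_inv₀] at h6
    have h7 : 0 < P.valuation v := by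
      rw [zero_lt_iff, Ne, map_eq_zero]
      exact hv0
    exact absurd ((inv_le_one₀ h7).1 h6) (not_le.2 h5)
  have h3 := Int.eq_one_or_neg_one_of_mul_eq_one' h1
  omega

/-- An automorphism over `C(u)` as an automorphism over `C(u)`. -/
private theorem t6_fix {C 𝕜 : Type} [Field C] [Field 𝕜] [Algebra C 𝕜] {u : 𝕜} {g : 𝕜 ≃+* 𝕜}
    (hg : Lin C g) (hgu : g u = u) (z : IntermediateField.adjoin C {u}) :
    g (algebraMap (IntermediateField.adjoin C {u}) 𝕜 z) =
      algebraMap (IntermediateField.adjoin C {u}) 𝕜 z := by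
  obtain ⟨z, hz⟩ := z
  change g z = z
  induction hz using IntermediateField.adjoin_induction with
  | mem x hx =>
    rw [Set.mem_singleton_iff] at hx
    rw [hx, hgu]
  | algebraMap x => exact hg x
  | add x y hx hy ihx ihy => rw [map_add, ihx, ihy]
  | inv x hx ihx => rw [map_inv₀, ihx]
  | mul x y hx hy ihx ihy => rw [map_mul, ihx, ihy]

theorem R_T6 (h2 : st_A2) (h0 : st_B0) (h9 : st_B9) (h4 : st_B4) (h1a : st_T1a) : st_T6 := by
  intro C 𝕜 _ _ _ _ _ _ u hu halg U hUn hUo hUi
  have hc𝕜 : CharZero 𝕜 := charZero_of_injective_algebraMap (algebraMap C 𝕜).injective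
  let E : IntermediateField C 𝕜 := IntermediateField.adjoin C {u}
  have halgE : Algebra.IsAlgebraic E 𝕜 := ⟨halg⟩
  have hclo : IsAlgClosure E 𝕜 := ⟨inferInstance, halgE⟩
  have hcE : CharZero E := inferInstance
  have hGal : IsGalois E 𝕜 := inferInstance
  have huE : u ∈ E := IntermediateField.mem_adjoin_simple_self C u
  -- the group `Gal(𝕜 / E)` and `U`
  let φ : (𝕜 ≃ₐ[E] 𝕜) →* (𝕜 ≃+* 𝕜) :=
    { toFun := fun g => g.toRingEquiv, map_one' := rfl, map_mul' := fun _ _ => rfl }
  have hφ : ∀ (g : 𝕜 ≃ₐ[E] 𝕜) (z : 𝕜), φ g z = g z := fun _ _ => rfl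
  have hφL : ∀ g : 𝕜 ≃ₐ[E] 𝕜, Lin C (φ g) := by
    intro g c
    have h1 := g.commutes (algebraMap C E c)
    exact h1
  have hφu : ∀ g : 𝕜 ≃ₐ[E] 𝕜, φ g u = u := fun g => g.commutes (⟨u, huE⟩ : E)
  have hφs : ∀ g : 𝕜 ≃+* 𝕜, Lin C g → g u = u → ∃ g' : 𝕜 ≃ₐ[E] 𝕜, φ g' = g := by
    intro g hg hgu
    exact ⟨AlgEquiv.ofRingEquiv (f := g) (t6_fix hg hgu), rfl⟩
  let U' : Subgroup (𝕜 ≃ₐ[E] 𝕜) := U.comap φ
  have hU' : ∀ g, g ∈ U' ↔ φ g ∈ U := fun g => Iff.rfl
  -- it suffices to show `U' = ⊤`
  suffices htop : U' = ⊤ by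
    intro g hg hgu
    obtain ⟨g', rfl⟩ := hφs g hg hgu
    rw [← hU', htop]
    exact Subgroup.mem_top _
  obtain ⟨S, hS⟩ := hUo
  let ES : IntermediateField E 𝕜 := IntermediateField.adjoin E (S : Set 𝕜)
  have hESfd : FiniteDimensional E ES :=
    IntermediateField.finiteDimensional_adjoin fun x _ => (halg x).isIntegral
  have hESU : ES.fixingSubgroup ≤ U' := by
    intro g hg
    rw [hU']
    refine hS _ (hφL g) (hφu g) fun s hs => ?_
    exact (IntermediateField.mem_fixingSubgroup_iff ES g).1 hg s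
      (IntermediateField.subset_adjoin _ _ hs)
  let F : IntermediateField E 𝕜 := IntermediateField.fixedField U'
  have hF : ∀ z, z ∈ F ↔ ∀ g ∈ U', g z = z := by
    intro z
    rw [IntermediateField.mem_fixedField_iff]
  have hFES : F ≤ ES := by
    intro z hz
    have h1 : z ∈ IntermediateField.fixedField ES.fixingSubgroup := by
      rw [IntermediateField.mem_fixedField_iff]
      intro g hg
      exact (hF z).1 hz g (hESU hg)
    rwa [InfiniteGalois.fixedField_fixingSubgroup] at h1
  have hFfd : FiniteDimensional E F :=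
    FiniteDimensional.of_injective (IntermediateField.inclusion hFES).toLinearMap
      (IntermediateField.inclusion hFES).injective
  have hFn : Normal E F := by
    rw [IntermediateField.normal_iff_forall_map_le']
    rintro σ x ⟨y, hy, rfl⟩
    rw [hF]
    intro g hg
    have h1 : σ⁻¹ * g * σ⁻¹⁻¹ ∈ U' := by
      rw [hU', map_mul, map_mul, map_inv φ σ⁻¹]
      exact hUn _ _ (hφL _) (hφu _) hg
    rw [inv_inv] at h1
    have h2 := (hF y).1 hy _ h1
    have h3 : σ (σ.symm (g (σ y))) = σ y := congrArg σ h2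
    rw [σ.apply_symm_apply] at h3
    exact h3
  have hFg : IsGalois E F := ⟨⟩
  have huF : u ∈ F := (F.algebraMap_mem (⟨u, huE⟩ : E) : _)
  -- the function fields `E` and `F`
  have hFFE : FF C E := by
    have := ff_adjoin (C := C) (Ω := 𝕜) hu ∅ (by simp)
    rw [Finset.coe_empty, insert_empty_eq] at this
    exact this
  have hFFF : FF C F := by
    obtain ⟨s, hs⟩ := IntermediateField.essFiniteType_iff.1 (inferInstance : Algebra.EssFiniteType E F)
    have h1 := ff_sup E hFFE s fun y _ => halg y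
    rw [← IntermediateField.restrictScalars_adjoin C E (s : Set 𝕜), hs] at h1
    exact h1
  -- the unramifiedness
  have hi : ∀ c : C, algebraMap E F (algebraMap C E c) = algebraMap C F c := fun c => rfl
  have hunr : ∀ P : ValuationSubring F, IsPl C P → ∀ f : E, f ≠ 0 →
      od C P (algebraMap E F f) = od C (P.comap (algebraMap E F)) f := by
    intro P hP
    obtain ⟨hfin, e, he0, hed, hef⟩ := h2 C E F (algebraMap E F) hi hFFE hFFF
      (fun z => by
        obtain ⟨p, hp0, hp⟩ := (Algebra.IsAlgebraic.isAlgebraic (R := E) z)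
        exact ⟨p, hp0, hp⟩)
      (fun z hz => by
        have := (InfiniteGalois.mem_range_algebraMap_iff_fixed (k := E) (K := F) z).2
          fun g => hz g.toRingEquiv fun w => g.commutes w
        exact this) P hP
    have hsub : Subsingleton {g : F ≃+* F // (∀ w : E, g (algebraMap E F w) = algebraMap E F w) ∧
        ∀ z, g z ∈ P ↔ z ∈ P} := by
      suffices h : ∀ g : {g : F ≃+* F // (∀ w : E, g (algebraMap E F w) = algebraMap E F w) ∧
          ∀ z, g z ∈ P ↔ z ∈ P}, ∀ z : F, g.1 z = z by
        refine ⟨fun g g' => Subtype.ext (RingEquiv.ext fun z => ?_)⟩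
        rw [h g, h g']
      rintro ⟨g, hg1, hg2⟩ z
      let ga : F ≃ₐ[E] F := AlgEquiv.ofRingEquiv (f := g) hg1
      let gt : 𝕜 ≃ₐ[E] 𝕜 := ga.liftNormal 𝕜
      have hgt : ∀ z : F, gt (z : 𝕜) = (g z : 𝕜) := fun z => ga.liftNormal_commutes 𝕜 z
      obtain ⟨W, hW, hWP⟩ := pl_up (C := C) (algebraMap F 𝕜) (fun c => rfl) hP
      have hWm : ∀ z : F, (z : 𝕜) ∈ W ↔ z ∈ P := by
        intro z
        rw [← hWP]
        rfl
      let W1 : ValuationSubring 𝕜 := W.comap (gt : 𝕜 →+* 𝕜)
      have hW1 : ∀ z : 𝕜, z ∈ W1 ↔ gt z ∈ W := fun z => Iff.rfl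
      have hA : SC2.Above P W := fun a => hWm a
      have hA1 : SC2.Above P W1 := by
        intro a
        change (a : 𝕜) ∈ W1 ↔ _
        rw [hW1, hgt, hWm, hg2]
      have hGF : IsGalois F 𝕜 := inferInstance
      obtain ⟨σ, hσ⟩ := SC2.exists_conj hA hA1
      let σE : 𝕜 ≃ₐ[E] 𝕜 := σ.restrictScalars E
      have hγ : gt * σE ∈ U' := by
        rw [hU']
        refine hUi W hW.1 hW.2 _ (hφL _) (hφu _) fun z => ?_
        exact hσ z
      have h1 := (hF z).1 z.2 _ hγ
      have h3 : (gt * σE) (z : 𝕜) = gt (z : 𝕜) := by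
        change gt (σ (algebraMap F 𝕜 z)) = _
        rw [σ.commutes]
        rfl
      rw [h3, hgt] at h1
      exact Subtype.ext h1
    have hcard : Nat.card {g : F ≃+* F // (∀ w : E, g (algebraMap E F w) = algebraMap E F w) ∧
        ∀ z, g z ∈ P ↔ z ∈ P} = 1 := by
      rw [Nat.card_eq_one_iff_unique]
      exact ⟨hsub, ⟨⟨RingEquiv.refl F, fun _ => rfl, fun _ => Iff.rfl⟩⟩⟩
    rw [hcard, Nat.dvd_one] at hed
    intro f hf
    rw [hef f hf, hed]
    simp
  -- the derivation
  obtain ⟨D, hDu, hDk⟩ := h9 C 𝕜 u hu halg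
  have hDE : ∀ z ∈ E, D z ∈ E := by
    intro z hz
    have hz' : z ∈ IntermediateField.adjoin C {u} := hz
    clear hz
    induction hz' using IntermediateField.adjoin_induction with
    | mem x hx =>
      rw [Set.mem_singleton_iff] at hx
      rw [hx, hDu]
      exact one_mem E
    | algebraMap x => rw [D.map_algebraMap]; exact zero_mem E
    | add x y hx hy ihx ihy => rw [map_add]; exact add_mem ihx ihy
    | inv x hx ihx =>
      rw [D.leibniz_inv]
      exact mul_mem (neg_mem (pow_mem (inv_mem hx) 2)) ihx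
    | mul x y hx hy ihx ihy =>
      rw [D.leibniz]
      exact add_mem (mul_mem hx ihy) (mul_mem hy ihx)
  have hDF : ∀ z ∈ F, D z ∈ F := by
    intro z hz
    have h1 := h0 𝕜 (D.restrictScalars ℤ) E.toSubfield (fun z hz => hDE z hz) z (halg z)
    have h3 : Subfield.closure ((E.toSubfield : Set 𝕜) ∪ {z}) ≤ F.toSubfield := by
      rw [Subfield.closure_le]
      rintro x (hx | hx)
      · exact F.algebraMap_mem (⟨x, hx⟩ : E)
      · rw [Set.mem_singleton_iff] at hx
        rw [hx]
        exact hz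
    exact h3 h1
  let DF : Derivation C F F := Derivation.mk'
    { toFun := fun z => (⟨D (z : 𝕜), hDF z z.2⟩ : F)
      map_add' := fun x y => Subtype.ext (map_add D (x : 𝕜) (y : 𝕜))
      map_smul' := fun c x => Subtype.ext (D.map_smul c (x : 𝕜)) }
    (fun x y => Subtype.ext (D.leibniz (x : 𝕜) (y : 𝕜)))
  have hDF' : ∀ z : F, ((DF z : F) : 𝕜) = D (z : 𝕜) := fun z => rfl
  let uF : F := ⟨u, huF⟩
  let uE : E := ⟨u, huE⟩
  have hu0 : ∀ c : C, u ≠ algebraMap C 𝕜 c := by
    rintro c rfl
    exact hu (isAlgebraic_algebraMap c)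
  have htopE : ∀ z : E, z ∈ IntermediateField.adjoin C {uE} := by
    have key : ∀ (z : 𝕜) (hz : z ∈ E), (⟨z, hz⟩ : E) ∈ IntermediateField.adjoin C {uE} := by
      intro z hz
      have hz' : z ∈ IntermediateField.adjoin C {u} := hz
      induction hz' using IntermediateField.adjoin_induction with
      | mem x hx =>
        rw [Set.mem_singleton_iff] at hx
        subst hx
        exact IntermediateField.mem_adjoin_simple_self C uE
      | algebraMap x => exact (IntermediateField.adjoin C {uE}).algebraMap_mem x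
      | add x y hx hy ihx ihy => exact add_mem (ihx hx) (ihy hy)
      | inv x hx ihx => exact inv_mem (ihx hx)
      | mul x y hx hy ihx ihy => exact mul_mem (ihx hx) (ihy hy)
    exact fun z => key z z.2
  have hcomap : ∀ P : ValuationSubring F, IsPl C P → IsPl C (P.comap (algebraMap E F)) := by
    intro P hP
    refine pl_comap (algebraMap E F) hi (fun z => ?_) hP
    obtain ⟨p, hp0, hp⟩ := (Algebra.IsAlgebraic.isAlgebraic (R := E) z)
    exact ⟨p, hp0, hp⟩
  have hnu : ∀ (P : ValuationSubring F) (f : E), algebraMap E F f ∈ P.nonunits →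
      f ∈ (P.comap (algebraMap E F)).nonunits := by
    intro P f hf
    rw [ValuationSubring.mem_nonunits_iff_or] at hf ⊢
    rcases hf with h1 | h1
    · left
      exact (map_eq_zero _).1 h1
    · right
      intro h3
      apply h1
      rw [← map_inv₀]
      exact h3
  have hB4 := h4 C F DF uF hFFF ?_ ?_ ?_
  rotate_left
  · intro z hz
    have h1 : D (z : 𝕜) = 0 := by rw [← hDF', hz]; rfl
    have h3 := hDk _ h1
    by_contra hcon
    push Not at hcon
    refine transc_of (C := C) (f := (z : 𝕜)) (fun c hc => hcon c (Subtype.ext hc)) h3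
  · exact Subtype.ext hDu
  · intro O hO
    constructor
    · intro c hc
      have h1 : uF - algebraMap C F c = algebraMap E F (uE - algebraMap C E c) := rfl
      have h3 : uE - algebraMap C E c ≠ 0 := by
        intro h
        exact hu0 c (congrArg Subtype.val (sub_eq_zero.1 h))
      rw [h1] at hc ⊢
      rw [hunr O hO _ h3]
      refine t6_od hFFE (hcomap O hO) h3 (hnu O _ hc) fun z => ?_
      have h5 : IntermediateField.adjoin C {uE} ≤
          IntermediateField.adjoin C {uE - algebraMap C E c} := by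
        rw [IntermediateField.adjoin_simple_le_iff]
        have h6 := add_mem (IntermediateField.mem_adjoin_simple_self C (uE - algebraMap C E c))
          ((IntermediateField.adjoin C {uE - algebraMap C E c}).algebraMap_mem c)
        rwa [sub_add_cancel] at h6
      exact h5 (htopE z)
    · intro hc
      have h1 : uF⁻¹ = algebraMap E F uE⁻¹ := rfl
      have h3 : uE⁻¹ ≠ 0 := by
        refine inv_ne_zero fun h => ?_
        have := congrArg Subtype.val h
        exact hu0 0 (by rw [map_zero]; exact this)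
      rw [h1] at hc ⊢
      rw [hunr O hO _ h3]
      refine t6_od hFFE (hcomap O hO) h3 (hnu O _ hc) fun z => ?_
      have h5 : IntermediateField.adjoin C {uE} ≤ IntermediateField.adjoin C {uE⁻¹} := by
        rw [IntermediateField.adjoin_simple_le_iff]
        have h6 := inv_mem (IntermediateField.mem_adjoin_simple_self C uE⁻¹)
        rwa [inv_inv] at h6
      exact h5 (htopE z)
  -- `F = ⊥`
  have hbot : F = ⊥ := by
    rw [eq_bot_iff]
    intro z hz
    have h1 : ∀ w ∈ IntermediateField.adjoin C {uF}, (w : 𝕜) ∈ E := by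
      intro w hw
      induction hw using IntermediateField.adjoin_induction with
      | mem x hx =>
        rw [Set.mem_singleton_iff] at hx
        rw [hx]
        exact huE
      | algebraMap x => exact E.algebraMap_mem x
      | add x y hx hy ihx ihy => exact add_mem ihx ihy
      | inv x hx ihx => exact inv_mem ihx
      | mul x y hx hy ihx ihy => exact mul_mem ihx ihy
    rw [IntermediateField.mem_bot]
    exact ⟨⟨z, h1 ⟨z, hz⟩ (hB4 ⟨z, hz⟩)⟩, rfl⟩
  -- conclusion
  have hopen : IsOpen (U' : Set (𝕜 ≃ₐ[E] 𝕜)) :=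
    Subgroup.isOpen_mono hESU (IntermediateField.fixingSubgroup_isOpen ES)
  have hclosed : IsClosed (U' : Set (𝕜 ≃ₐ[E] 𝕜)) := Subgroup.isClosed_of_isOpen _ hopen
  have h5 := InfiniteGalois.fixingSubgroup_fixedField (k := E) (K := 𝕜) ⟨U', hclosed⟩
  have h6 : IntermediateField.fixingSubgroup (IntermediateField.fixedField U') = U' := h5
  have h7 : IntermediateField.fixedField U' = ⊥ := hbot
  rw [h7] at h6
  rw [← h6, IntermediateField.fixingSubgroup_bot]

end SGT
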