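import Pool.Agent.SGT.StW

/-!
# [SGT-W1] the pairing: well-defined, multiplicative, exists (MP_3dd09b_ag)
-/

set_option autoImplicit false
set_option linter.unusedVariables false

open GT IsLocalRing Polynomial

namespace SGT

/-- The roots of unity of `Ω` are in the algebraically closed field `C`. -/
private theorem w1_root {C Ω : Type} [Field C] [IsAlgClosed C] [Field Ω] [Algebra C Ω] {w : Ω} {M : ℕ}
    (hM : 0 < M) (hw : w ^ M = 1) : ∃ c : C, c ^ M = 1 ∧ algebraMap C Ω c = w := by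
  have hint : IsIntegral C w := by
    refine ⟨X ^ M - 1, monic_X_pow_sub_C 1 hM.ne', ?_⟩
    simp [hw]
  have hdeg := IsAlgClosed.degree_eq_one_of_irreducible C (minpoly.irreducible hint)
  obtain ⟨c, hc⟩ := minpoly.mem_range_of_degree_eq_one C w hdeg
  refine ⟨c, ?_, hc⟩
  apply (algebraMap C Ω).injective
  rw [map_pow, hc, hw, map_one]

/-- The generator of a power of a nonzero ideal is not zero. -/
private theorem w1_ne {B : Type} [CommRing B] [IsDedekindDomain B] {J : Ideal B} {n : ℕ} {g : B}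
    (hJ : J ≠ ⊥) (h : J ^ n = Ideal.span {g}) : g ≠ 0 := by
  rintro rfl
  have h0 : J ^ n ≠ 0 := pow_ne_zero n hJ
  apply h0
  rw [h]
  exact Ideal.span_singleton_eq_bot.2 rfl

theorem R_W1a : st_W1a := by
  intro C Ω _ _ _ _ _ N τ O₁ d _ T E _ hFF hlin htri hO hM D ζ ζ' h h'
  obtain ⟨n, J, g, η, hn, hJ, hcl, hJg, hη, hζ, hτ⟩ := h
  obtain ⟨m, J', g', η', hm, hJ', hcl', hJg', hη', hζ', hτ'⟩ := h'
  have hg := w1_ne hJ hJg
  have hg' := w1_ne hJ' hJg'
  obtain ⟨x, y, hx, hy, hxy⟩ := (SUP.cls_eq_iff hJ hJ').1 (hcl.trans hcl'.symm)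
  have hne : ∀ b : WB T, b ≠ 0 → ((E b : N) : Ω) ≠ 0 := by
    intro b hb h0
    apply hb
    apply hM.inj
    rw [map_zero]
    exact_mod_cast h0
  -- the two generators of the same ideal
  have hid : Ideal.span {x ^ (n * m) * g ^ m} = Ideal.span {y ^ (n * m) * g' ^ n} := by
    have h1 := congrArg (fun I => I ^ (n * m)) hxy
    simp only [mul_pow] at h1
    rw [pow_mul J n m, hJg, mul_comm n m, pow_mul J' m n, hJg', Ideal.span_singleton_pow,
      Ideal.span_singleton_pow, Ideal.span_singleton_pow, Ideal.span_singleton_pow,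
      Ideal.span_singleton_mul_span_singleton, Ideal.span_singleton_mul_span_singleton] at h1
    rw [mul_comm n m]
    exact h1
  obtain ⟨r, hr, hrr⟩ := span_eq_iff.1 hid
  have hnm : 0 < n * m := Nat.mul_pos hn hm
  obtain ⟨c, hc⟩ := IsAlgClosed.exists_pow_nat_eq r hnm
  have hc0 : c ≠ 0 := by
    rintro rfl
    rw [zero_pow hnm.ne'] at hc
    exact hr hc.symm
  have hη0 : η ≠ 0 := by
    rintro rfl
    rw [zero_pow hn.ne'] at hη
    exact hne g hg hη.symm
  have hη0' : η' ≠ 0 := by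
    rintro rfl
    rw [zero_pow hm.ne'] at hη'
    exact hne g' hg' hη'.symm
  -- the equation in `Ω`
  have heq : (((E y : N) : Ω) * η') ^ (n * m) =
      (algebraMap C Ω c * (((E x : N) : Ω) * η)) ^ (n * m) := by
    have h1 := congrArg (fun b => ((E b : N) : Ω)) hrr
    simp only [Algebra.smul_def, map_mul, map_pow, hM.alg] at h1
    push_cast at h1
    have e1 : η' ^ (n * m) = ((E g' : N) : Ω) ^ n := by
      rw [mul_comm n m, pow_mul, hη']
    have e2 : η ^ (n * m) = ((E g : N) : Ω) ^ m := by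
      rw [pow_mul, hη]
    rw [mul_pow, mul_pow, mul_pow, e1, e2, h1, ← map_pow, hc]
  have hA : ((E x : N) : Ω) * η ≠ 0 := mul_ne_zero (hne x hx) hη0
  have hB : ((E y : N) : Ω) * η' ≠ 0 := mul_ne_zero (hne y hy) hη0'
  have hcΩ : algebraMap C Ω c ≠ 0 := by
    rw [Ne, map_eq_zero]; exact hc0
  have hr1 : (((E y : N) : Ω) * η' / (algebraMap C Ω c * (((E x : N) : Ω) * η))) ^ (n * m) = 1 := by
    rw [div_pow, heq, div_self (pow_ne_zero _ (mul_ne_zero hcΩ hA))]
  obtain ⟨c', hc', hcc⟩ := w1_root (C := C) hnm hr1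
  have hfin : ((E y : N) : Ω) * η' = algebraMap C Ω (c' * c) * (((E x : N) : Ω) * η) := by
    rw [map_mul, hcc]
    have hx0 := hne x hx
    field_simp
  have happ := congrArg τ hfin
  rw [map_mul τ, map_mul τ, map_mul τ, htri _ (E y).2, htri _ (E x).2, hlin, hτ, hτ'] at happ
  have : algebraMap C Ω ζ' * (((E y : N) : Ω) * η') = algebraMap C Ω ζ * (((E y : N) : Ω) * η') := by
    rw [hfin]
    calc algebraMap C Ω ζ' * (algebraMap C Ω (c' * c) * (((E x : N) : Ω) * η))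
        = algebraMap C Ω ζ' * (((E y : N) : Ω) * η') := by rw [hfin]
      _ = ((E y : N) : Ω) * (algebraMap C Ω ζ' * η') := by ring
      _ = algebraMap C Ω (c' * c) * (((E x : N) : Ω) * (algebraMap C Ω ζ * η)) := happ
      _ = algebraMap C Ω ζ * (algebraMap C Ω (c' * c) * (((E x : N) : Ω) * η)) := by ring
  exact ((algebraMap C Ω).injective (mul_right_cancel₀ hB this)).symm

theorem R_W1b : st_W1b := by
  intro C Ω _ _ _ _ _ N τ d _ T E _ D D' ζ ζ' h h'
  obtain ⟨n, J, g, η, hn, hJ, hcl, hJg, hη, hζ, hτ⟩ := h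
  obtain ⟨m, J', g', η', hm, hJ', hcl', hJg', hη', hζ', hτ'⟩ := h'
  refine ⟨n * m, J * J', g ^ m * g' ^ n, η * η', Nat.mul_pos hn hm, mul_ne_zero hJ hJ', ?_, ?_, ?_,
    ?_, ?_⟩
  · rw [SUP.cls_mul hJ hJ', hcl, hcl']
  · rw [mul_pow, pow_mul, hJg, mul_comm n m, pow_mul, hJg', Ideal.span_singleton_pow,
      Ideal.span_singleton_pow, Ideal.span_singleton_mul_span_singleton]
  · rw [mul_pow, pow_mul, hη, mul_comm n m, pow_mul, hη', map_mul, map_pow, map_pow]
    push_cast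
    rfl
  · rw [mul_pow, pow_mul, hζ, one_pow, mul_comm n m, pow_mul, hζ', one_pow, one_mul]
  · rw [map_mul, hτ, hτ', map_mul]
    ring

/-- Powers of classes. -/
private theorem w1_pow {B : Type} [CommRing B] [IsDedekindDomain B] {J : Ideal B} (hJ : J ≠ ⊥)
    (n : ℕ) : SUP.cls (J ^ n) = SUP.cls J ^ n := by
  induction n with
  | zero =>
    rw [pow_zero, pow_zero, Ideal.one_eq_top, ← Ideal.span_singleton_one]
    exact SUP.cls_span one_ne_zero
  | succ n ih =>
    rw [pow_succ, pow_succ, SUP.cls_mul (pow_ne_zero n hJ) hJ, ih]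

theorem R_W1c : st_W1c := by
  intro C Ω _ _ _ _ _ _ N τ O₁ d _ T E _ hFF hlin htri hO hM D n hn hD
  obtain ⟨J, hJ, hcl⟩ := SUP.exists_cls D
  have h1 : SUP.cls (J ^ n) = 1 := by rw [w1_pow hJ, hcl, hD]
  obtain ⟨g, hg⟩ := (SUP.cls_eq_one_iff (pow_ne_zero n hJ)).1 h1
  have hg0 := w1_ne hJ hg
  obtain ⟨η, hη⟩ := IsAlgClosed.exists_pow_nat_eq ((E g : N) : Ω) hn
  have hE0 : ((E g : N) : Ω) ≠ 0 := by
    intro h0
    apply hg0
    apply hM.inj
    rw [map_zero]
    exact_mod_cast h0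
  have hη0 : η ≠ 0 := by
    rintro rfl
    rw [zero_pow hn.ne'] at hη
    exact hE0 hη.symm
  have hr : (τ η / η) ^ n = 1 := by
    rw [div_pow, ← map_pow, hη, htri _ (E g).2, div_self hE0]
  obtain ⟨ζ, hζ, hζη⟩ := w1_root (C := C) hn hr
  refine ⟨ζ, n, J, g, η, hn, hJ, hcl, hg, hη, hζ, ?_⟩
  rw [hζη, div_mul_cancel₀ _ hη0]

end SGT
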