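import Pool.Agent.SGT.StW

/-!
# [SGT-W2] orders of E g; equivariance of the pairing (MP_3dd09b_ag)
-/

set_option autoImplicit false
set_option linter.unusedVariables false

open GT IsLocalRing Polynomial

namespace SGT

/-- Away from `O₁` the order of `E g` is the order of the ideal `(g) = J ^ n`; the last order is
divisible by `n` by `ord_dvd_all`. -/
theorem R_W2 : st_W2 := by
  intro C N _ _ _ _ _ O₁ d _ T E _ hF hO₁ hM n J g hn hJ hJn
  have hg : g ≠ 0 := by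
    rintro rfl
    rw [Ideal.span_singleton_eq_bot.mpr rfl] at hJn
    exact hJ (eq_zero_of_pow_eq_zero hJn)
  have hEg : E g ≠ 0 := by
    intro h
    exact hg (hM.inj (by rw [h, map_zero]))
  refine ⟨hg, hEg, ?_⟩
  apply ord_dvd_all hF hn hEg O₁
  intro O hO hne
  have h1 := oI_span hM hO hne (od_spec hF hO) hg
  rw [← hJn, oI_pow hM hO hne (od_spec hF hO) hJ n] at h1
  rw [← h1]
  push_cast
  exact dvd_mul_right _ _

/-- Both sides are ring homomorphisms of `b` which agree on the constants, on `x` and on the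
`f_j`. -/
theorem R_W2b : st_W2b := by
  intro C Ω _ _ _ N σ Ψ d _ T E hT hE hσ hx hf b
  -- the two homomorphisms
  set g : C →+* Ω := (algebraMap C Ω).comp (Ψ : C →+* C) with hg
  set φ₁ : WB T →+* Ω := ((σ : Ω →+* Ω).comp (algebraMap N Ω)).comp E with hφ₁
  set φ₂ : WB T →+* Ω := ((algebraMap N Ω).comp E).comp (bE Ψ hT : WB T →+* WB T) with hφ₂
  have e1 : ∀ r, φ₁ (algebraMap C (WB T) r) = g r := by
    intro r
    show σ ((E (algebraMap C (WB T) r) : N) : Ω) = algebraMap C Ω (Ψ r)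
    rw [hE, ← hσ]
    rfl
  have e2 : ∀ r, φ₂ (algebraMap C (WB T) r) = g r := by
    intro r
    show ((E (bE Ψ hT (algebraMap C (WB T) r)) : N) : Ω) = algebraMap C Ω (Ψ r)
    rw [bE_apply, bmap_algebraMap', hE]
    rfl
  have hxx : φ₁ (WB.x T) = φ₂ (WB.x T) := by
    show σ ((E (WB.x T) : N) : Ω) = ((E (bE Ψ hT (WB.x T)) : N) : Ω)
    rw [bE_apply, bmap_x, hx]
  have hff : ∀ j, φ₁ (WB.f T j) = φ₂ (WB.f T j) := by
    intro j
    show σ ((E (WB.f T j) : N) : Ω) = ((E (bE Ψ hT (WB.f T j)) : N) : Ω)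
    rw [bE_apply, bmap_f, hf]
  show φ₁ b = φ₂ b
  rw [lift_unique φ₁ e1 b, lift_unique φ₂ e2 b, lift_apply, lift_apply]
  apply Finset.sum_congr rfl
  intro j _
  rw [hxx, hff]

/-- The root `η` of `E g` lies in `L`; apply the relation between `σ` and `τ` to it. -/
theorem R_W1d (h2 : st_W2) : st_W1d := by
  intro C Ω _ _ _ _ _ _ L N τ σ Ψ O₁ d _ T E _ hT hF hNL hKC hLin hTri hO₁ hM hσC hσE hREL D ζ hPR
  obtain ⟨n, J, g, η, hn, hJ, hcls, hJn, hη, hζn, hτη⟩ := hPR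
  obtain ⟨hg, hEg, hdiv⟩ := h2 C N O₁ d T E hF hO₁ hM n J g hn hJ hJn
  have hηL : η ∈ L := hKC N hNL hF (E g) n hn hEg hdiv η hη
  obtain ⟨c, hc1, hc2⟩ := hREL η hηL n hn
  refine ⟨n, J.map (bE Ψ hT), bE Ψ hT g, σ η, hn, SUP.map_ne_bot _ hJ, ?_, ?_, ?_, hζn, ?_⟩
  · rw [← SUP.clm_cls _ hJ, hcls]
  · rw [← Ideal.map_pow, hJn, SUP.map_span_singleton]
  · rw [← map_pow, hη, hσE g]
  · -- `τ ^ c η = ζ ^ c η`
    have h3 : ∀ m : ℕ, (τ ^ m) η = algebraMap C Ω (ζ ^ m) * η := by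
      intro m
      induction m with
      | zero => simp
      | succ m ih =>
        rw [pow_succ', RingAut.mul_apply, ih, map_mul, hLin, hτη, pow_succ, map_mul]
        ring
    have h4 : τ (σ η) = σ ((τ ^ c) η) := by
      rw [← hc1, RingEquiv.apply_symm_apply]
    rw [h4, h3, map_mul, hσC, map_pow, hc2 ζ hζn]

end SGT
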