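import Pool.Agent.SGT.StW

/-!
# [SGT-W3] weights (MP_3dd09b_ag)
-/

set_option autoImplicit false
set_option linter.unusedVariables false

open GT IsLocalRing Polynomial

namespace SGT

/-- roots of unity of `Ω` are constants -/
private theorem w3_root {C Ω : Type} [Field C] [IsAlgClosed C] [Field Ω] [Algebra C Ω] {w : Ω} {n : ℕ}
    (hn : 0 < n) (hw : w ^ n = 1) : ∃ ζ : C, algebraMap C Ω ζ = w ∧ ζ ^ n = 1 := by
  have hint : IsIntegral C w := by
    refine ⟨X ^ n - 1, monic_X_pow_sub_C 1 hn.ne', ?_⟩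
    simp [hw]
  have hd := IsAlgClosed.degree_eq_one_of_irreducible C (minpoly.irreducible hint)
  obtain ⟨ζ, hζ⟩ := minpoly.mem_range_of_degree_eq_one C w hd
  refine ⟨ζ, hζ, ?_⟩
  apply (algebraMap C Ω).injective
  rw [map_pow, hζ, hw, map_one]

/-- powers of classes -/
private theorem w3_cls_pow {B : Type} [CommRing B] [IsDedekindDomain B] {J : Ideal B} (hJ : J ≠ ⊥)
    (n : ℕ) : SUP.cls (J ^ n) = SUP.cls J ^ n := by
  induction n with
  | zero =>
    rw [pow_zero, pow_zero, Ideal.one_eq_top]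
    exact (SUP.cls_eq_one_iff top_ne_bot).2 ⟨1, Ideal.span_singleton_one.symm⟩
  | succ n ih => rw [pow_succ, pow_succ, SUP.cls_mul (pow_ne_zero n hJ) hJ, ih]

theorem R_W3 (h1a : st_W1a) (h1b : st_W1b) (h1c : st_W1c) (h1d : st_W1d) (h2b : st_W2b) (h3a : st_W3a) : st_W3 := by
  intro C Ω _ _ _ _ _ _ L N τ hF hNL hKC hLin hTri hFrb p a ρ hp ha hρ hdiv
  classical
  obtain ⟨O₁, hO₁⟩ := exists_pl hF
  obtain ⟨d, hd, T, E, hM⟩ := exists_model hF hO₁
  have hded := hM.ded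
  obtain ⟨a1, b, J, ha1, hb, hE, hJ⟩ := exists_root_fun hF hO₁ hM hp.pos ha (fun O o hO _ ho => by
    rw [← ord_unique (od_spec hF hO) ho ha]
    exact hdiv O hO)
  have hJ0 : J ≠ ⊥ := by
    intro h
    rw [h, Ideal.bot_pow hp.ne_zero] at hJ
    exact ha1 (Ideal.span_singleton_eq_bot.1 hJ.symm)
  have haΩ : ((a : N) : Ω) ≠ 0 := by
    intro h
    exact ha (by exact_mod_cast h)
  have hρ0 : ρ ≠ 0 := by
    intro h
    rw [h, zero_pow hp.ne_zero] at hρ
    exact haΩ hρ.symm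
  -- the root of unity
  have hτa : τ (a : Ω) = a := hTri _ a.2
  obtain ⟨ζ, hζ, hζp⟩ := w3_root (C := C) (w := τ ρ / ρ) hp.pos (by
    rw [div_pow, ← map_pow, hρ, hτa, div_self haΩ])
  have hτρ : τ ρ = algebraMap C Ω ζ * ρ := by rw [hζ, div_mul_cancel₀ _ hρ0]
  -- the pairing of `τ` with the class of `J`
  have hEΩ : (a : Ω) * ((E b : N) : Ω) ^ p = ((E a1 : N) : Ω) := by exact_mod_cast congrArg Subtype.val hE
  set D := SUP.cls J with hD
  have hPR : PR E τ D ζ := by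
    refine ⟨p, J, a1, ρ * ((E b : N) : Ω), hp.pos, hJ0, rfl, hJ, ?_, hζp, ?_⟩
    · rw [mul_pow, hρ, hEΩ]
    · rw [map_mul, hτρ, hTri _ (E b).2, mul_assoc]
  have hDp : D ^ p = 1 := by
    rw [hD, ← w3_cls_pow hJ0, hJ, SUP.cls_span ha1]
  -- the Frobenius element
  obtain ⟨S, hS⟩ := h3a C N O₁ d T E hF hO₁ hM
  obtain ⟨V, Ψ, σ, Q, hSV, hR, hu, hQ, hStab, hfr, hfin, hσC, hσY, hREL⟩ := hFrb p hp S
    ({((E (WB.x T) : N) : Ω)} ∪ (Finset.univ.image fun j => ((E (WB.f T j) : N) : Ω)) ∪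
      (Finset.univ.biUnion fun i => Finset.univ.biUnion fun j => Finset.univ.biUnion fun k =>
        (T.c i j k).coeffs.image (algebraMap C Ω))) (by
      intro z hz
      simp only [Finset.mem_union, Finset.mem_singleton, Finset.mem_image, Finset.mem_univ, true_and,
        Finset.mem_biUnion] at hz
      rcases hz with (rfl | ⟨j, rfl⟩) | ⟨i, j, k, c, -, rfl⟩
      · exact (E (WB.x T)).2
      · exact (E (WB.f T j)).2
      · exact N.algebraMap_mem c)
  have hσx : σ ((E (WB.x T) : N) : Ω) = ((E (WB.x T) : N) : Ω) := hσY _ (by simp)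
  have hσf : ∀ j, σ ((E (WB.f T j) : N) : Ω) = ((E (WB.f T j) : N) : Ω) := fun j => hσY _ (by
    refine Finset.mem_union_left _ (Finset.mem_union_right _ ?_)
    exact Finset.mem_image_of_mem _ (Finset.mem_univ j))
  have hΨ : ∀ i j k n, Ψ ((T.c i j k).coeff n) = (T.c i j k).coeff n := by
    intro i j k n
    by_cases h0 : (T.c i j k).coeff n = 0
    · rw [h0, map_zero]
    · apply (algebraMap C Ω).injective
      rw [← hσC]
      refine hσY _ (Finset.mem_union_right _ ?_)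
      simp only [Finset.mem_biUnion, Finset.mem_univ, true_and, Finset.mem_image]
      exact ⟨i, j, k, _, coeff_mem_coeffs h0, rfl⟩
  have hT : T.map (Ψ : C →+* C) = T := by
    refine Tab.ext rfl ?_
    funext i j k
    refine Polynomial.ext fun n => ?_
    change ((T.c i j k).map (Ψ : C →+* C)).coeff n = _
    rw [coeff_map]
    exact hΨ i j k n
  have hcomp := h2b C Ω N σ Ψ d T E hT hM.alg hσC hσx hσf
  obtain ⟨D', ⟨n', hn'⟩, hD'⟩ := hS V Ψ Q p hSV hR hp hu hQ hStab hfr hfin hT 1 D (by rw [pow_one]; exact hDp)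
  obtain ⟨ζ', hζ'⟩ := h1c C Ω N τ O₁ d T E hF hLin hTri hO₁ hM D' (p ^ n') (pow_pos hp.pos _) hn'
  have hPR' := h1d C Ω L N τ σ Ψ O₁ d T E hT hF hNL hKC hLin hTri hO₁ hM hσC hcomp hREL D' ζ' hζ'
  have hPR2 := h1b C Ω N τ d T E D D' ζ ζ' hPR hζ'
  rw [hD'] at hPR'
  have heq := h1a C Ω N τ O₁ d T E hF hLin hTri hO₁ hM _ _ _ hPR2 hPR'
  have hζ0 : ζ' ≠ 0 := by
    obtain ⟨n, -, -, -, hn, -, -, -, -, h1, -⟩ := hζ'
    intro h
    rw [h, zero_pow hn.ne'] at h1
    exact zero_ne_one h1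
  have hζ1 : ζ = 1 := mul_right_cancel₀ hζ0 (by rw [heq, one_mul])
  rw [hτρ, hζ1, map_one, one_mul]

end SGT
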