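import Pool.Agent.SGT.StW

/-!
# [SGT-W3a] division by Frobenius - 1 (good reduction, GT.exists_div) (MP_3dd09b_ag)
-/

set_option autoImplicit false
set_option linter.unusedVariables false

open GT IsLocalRing Polynomial

namespace SGT

/-- the statement for a table with coefficients in `V` -/
private theorem w3a_aux {C N : Type} [Field C] [CharZero C] [IsAlgClosed C] [Field N] [Algebra C N]
    {O₁ : ValuationSubring N} {d : ℕ} [NeZero d] (V : ValuationSubring C) (TV : Tab V d)
    (E : WB (TV.map V.subtype) →+* N) [IsDedekindDomain (WB (TV.map V.subtype))] (hF : FF C N)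
    (hO : IsPl C O₁) (hM : Model O₁ (TV.map V.subtype) E)
    (hred : IsDedekindDomain (WB (TV.map (residue V))))
    (Ψ : C ≃+* C) (Q p : ℕ) (hR : Rk1 V) (hp : p.Prime) (hu : IsUnit (p : V)) (hQ : 2 ≤ Q)
    (hS : SUP.Stab V Ψ) (hfr : ∀ z ∈ V, Ψ z - z ^ Q ∈ V.nonunits)
    (hfin : ∀ x : ResidueField V, ∃ m : ℕ, 0 < m ∧ x ^ Q ^ m = x)
    (hT : (TV.map V.subtype).map (Ψ : C →+* C) = TV.map V.subtype) (n : ℕ)
    (D : ClassGroup (WB (TV.map V.subtype))) (hD : D ^ (p ^ n) = 1) :
    ∃ D' : ClassGroup (WB (TV.map V.subtype)), (∃ n' : ℕ, D' ^ (p ^ n') = 1) ∧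
      SUP.clm (bE Ψ hT) D' = D * D' :=
  exists_div hR p hp hu hS Q hQ hfr hfin hT (fun D => Model.div hF hO hM hp.pos D) n D hD

theorem R_W3a : st_W3a := by
  intro C N _ _ _ _ _ O₁ d _ T E _ hF hO hM
  obtain ⟨S₀, hS₀⟩ := good_red T
  classical
  refine ⟨S₀ ∪ Finset.univ.biUnion fun i => Finset.univ.biUnion fun j => Finset.univ.biUnion fun k =>
    (T.c i j k).coeffs, ?_⟩
  intro V Ψ Q p hSV hR hp hu hQ hS hfr hfin hT n D hD
  have hco : ∀ i j k n, (T.c i j k).coeff n ∈ V := by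
    intro i j k n
    by_cases h0 : (T.c i j k).coeff n = 0
    · rw [h0]
      exact zero_mem _
    · refine hSV _ (Finset.mem_union_right _ ?_)
      simp only [Finset.mem_biUnion, Finset.mem_univ, true_and]
      exact ⟨i, j, k, coeff_mem_coeffs h0⟩
  obtain ⟨TV, hTV⟩ := exists_tabV T V hco
  have hred : IsDedekindDomain (WB (TV.map (residue V))) :=
    hS₀ V.toSubring (fun z hz => hSV z (Finset.mem_union_left _ hz)) TV hTV (ResidueField V)
      (residue V) inferInstance
  clear hS₀ hSV hco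
  subst hTV
  exact w3a_aux V TV E hF hO hM hred Ψ Q p hR hp hu hQ hS hfr hfin hT n D hD

end SGT
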