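import Pool.Agent.SGT.R_A0
import Pool.Agent.SGT.R_A1
import Pool.Agent.SGT.R_A10
import Pool.Agent.SGT.R_A11
import Pool.Agent.SGT.R_A12
import Pool.Agent.SGT.R_A12a
import Pool.Agent.SGT.R_A13
import Pool.Agent.SGT.R_A2
import Pool.Agent.SGT.R_A3
import Pool.Agent.SGT.R_A5
import Pool.Agent.SGT.R_A6
import Pool.Agent.SGT.R_A6a
import Pool.Agent.SGT.R_A7
import Pool.Agent.SGT.R_A8
import Pool.Agent.SGT.R_A8a
import Pool.Agent.SGT.R_A9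
import Pool.Agent.SGT.R_B0
import Pool.Agent.SGT.R_B10
import Pool.Agent.SGT.R_B1a
import Pool.Agent.SGT.R_B1b
import Pool.Agent.SGT.R_B4
import Pool.Agent.SGT.R_B6
import Pool.Agent.SGT.R_B7
import Pool.Agent.SGT.R_B8
import Pool.Agent.SGT.R_C1
import Pool.Agent.SGT.R_C2
import Pool.Agent.SGT.R_C4
import Pool.Agent.SGT.R_K1
import Pool.Agent.SGT.R_K10a
import Pool.Agent.SGT.R_K10b
import Pool.Agent.SGT.R_K10c
import Pool.Agent.SGT.R_K11a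
import Pool.Agent.SGT.R_K11ax
import Pool.Agent.SGT.R_K11x
import Pool.Agent.SGT.R_K12
import Pool.Agent.SGT.R_K1b
import Pool.Agent.SGT.R_K2
import Pool.Agent.SGT.R_K4
import Pool.Agent.SGT.R_K4i
import Pool.Agent.SGT.R_K5
import Pool.Agent.SGT.R_K6
import Pool.Agent.SGT.R_K7
import Pool.Agent.SGT.R_K7x
import Pool.Agent.SGT.R_K8
import Pool.Agent.SGT.R_K9
import Pool.Agent.SGT.R_N1
import Pool.Agent.SGT.R_N3
import Pool.Agent.SGT.R_P1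
import Pool.Agent.SGT.R_P2
import Pool.Agent.SGT.R_P3
import Pool.Agent.SGT.R_R0
import Pool.Agent.SGT.R_R1
import Pool.Agent.SGT.R_R1a
import Pool.Agent.SGT.R_R1b
import Pool.Agent.SGT.R_R2
import Pool.Agent.SGT.R_R3
import Pool.Agent.SGT.R_R4
import Pool.Agent.SGT.R_R5
import Pool.Agent.SGT.R_R5x
import Pool.Agent.SGT.R_T0
import Pool.Agent.SGT.R_T1
import Pool.Agent.SGT.R_T1a
import Pool.Agent.SGT.R_T2
import Pool.Agent.SGT.R_T3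
import Pool.Agent.SGT.R_T6
import Pool.Agent.SGT.R_W1
import Pool.Agent.SGT.R_W2
import Pool.Agent.SGT.R_W3
import Pool.Agent.SGT.R_W3a
import Pool.Agent.SGT.Fin

/-!
# Generic twists: all rows composed (MP_3dd09b_ag)
-/

set_option autoImplicit false

namespace SGT

theorem a_K8 : st_K8 := R_K8

theorem a_K10a : st_K10a := R_K10a

theorem a_K10b : st_K10b := R_K10b

theorem a_A0g : st_A0g := R_A0g

theorem a_A0 : st_A0 := R_A0

theorem a_A0f : st_A0f := R_A0f a_A0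

theorem a_A3 : st_A3 := R_A3

theorem a_A1 : st_A1 := R_A1

theorem a_A4 : st_A4 := R_A4 a_A1 a_A3

theorem a_A2 : st_A2 := R_A2

theorem a_A6a : st_A6a := R_A6a a_A0f a_A2 a_A4

theorem a_A6 : st_A6 := R_A6 a_A0f a_A3 a_A4 a_A6a

theorem a_A5 : st_A5 := R_A5 a_A0f a_A1 a_A2

theorem a_A7 : st_A7 := R_A7 a_A0g a_A1 a_A3

theorem a_A8a : st_A8a := R_A8a a_A5 a_A7

theorem a_A8b : st_A8b := R_A8b a_A8a

theorem a_A8 : st_A8 := R_A8 a_A0g a_A6 a_A8a a_A8b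

theorem a_R0 : st_R0 := R_R0

theorem a_T0 : st_T0 := R_T0

theorem a_B0 : st_B0 := R_B0

theorem a_B9 : st_B9 := R_B9 a_B0

theorem a_B1a : st_B1a := R_B1a

theorem a_B1b : st_B1b := R_B1b

theorem a_B4 : st_B4 := R_B4 a_B1a a_B1b

theorem a_T1a : st_T1a := R_T1a

theorem a_T6 : st_T6 := R_T6 a_A2 a_B0 a_B9 a_B4 a_T1a

theorem a_A10 : st_A10 := R_A10 a_A2

theorem a_W1a : st_W1a := R_W1a

theorem a_W1b : st_W1b := R_W1b

theorem a_W1c : st_W1c := R_W1c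

theorem a_W2 : st_W2 := R_W2

theorem a_W1d : st_W1d := R_W1d a_W2

theorem a_W2b : st_W2b := R_W2b

theorem a_W3a : st_W3a := R_W3a

theorem a_W3 : st_W3 := R_W3 a_W1a a_W1b a_W1c a_W1d a_W2b a_W3a

theorem a_T2 : st_T2 := R_T2 a_T0

theorem a_T3 : st_T3 := R_T3

theorem a_T1 : st_T1 := R_T1 a_A3 a_A4 a_T1a

theorem a_R1a : st_R1a := R_R1a a_T1 a_R0

theorem a_R1b : st_R1b := R_R1b a_T2 a_T3 a_R0 a_R1a

theorem a_R1 : st_R1 := R_R1 a_A0f a_A0g a_A1 a_A10 a_W3 a_R0 a_R1b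

theorem a_R2 : st_R2 := R_R2 a_A0g a_T6 a_R0 a_R1

theorem a_R3 : st_R3 := R_R3 a_T0 a_R0 a_R2

theorem a_R4 : st_R4 := R_R4 a_A2

theorem a_R5 : st_R5 := R_R5 a_A8 a_R0 a_R3 a_R4

theorem a_A11 : st_A11 := R_A11 a_A0g

theorem a_C0 : st_C0 := R_C0

theorem a_C2 : st_C2 := R_C2

theorem a_C3 : st_C3 := R_C3 a_C0 a_C2

theorem a_C4 : st_C4 := R_C4

theorem a_R6 : st_R6 := R_R6 a_A11 a_C3 a_C4

theorem a_K1 : st_K1 := R_K1

theorem a_K1b : st_K1b := R_K1b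

theorem a_C1 : st_C1 := R_C1

theorem a_K2 : st_K2 := R_K2 a_B0 a_B9

theorem a_K3 : st_K3 := R_K3 a_C1 a_K2

theorem a_B6 : st_B6 := R_B6

theorem a_B6b : st_B6b := R_B6b

theorem a_B7 : st_B7 := R_B7

theorem a_B8 : st_B8 := R_B8 a_B1a a_B1b a_B6 a_B6b a_B7

theorem a_B10 : st_B10 := R_B10

theorem a_K4i : st_K4i := R_K4i a_K1 a_K1b

theorem a_K4 : st_K4 := R_K4 a_A2 a_B0 a_B8 a_B10 a_K1 a_K1b a_K2 a_K4i

theorem a_K7 : st_K7 := R_K7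

theorem a_C5 : st_C5 := R_C5 a_C0

theorem a_N1 : st_N1 := R_N1 a_C5

theorem a_N2 : st_N2 := R_N2 a_A11 a_C3 a_C4

theorem a_N3 : st_N3 := R_N3 a_A0g a_A11 a_C4 a_N1 a_N2

theorem a_A9 : st_A9 := R_A9

theorem a_K1c : st_K1c := R_K1c a_A9 a_K1b

theorem a_K5 : st_K5 := R_K5

theorem a_K6 : st_K6 := R_K6 a_K1 a_K1b a_K1c a_K3 a_K4i

theorem a_K9 : st_K9 := R_K9 a_N3 a_K1 a_K1b a_K1c a_K5 a_K6

theorem a_K10c : st_K10c := R_K10c a_K1 a_K4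

theorem a_K11a : st_K11a := R_K11a a_R5 a_R6 a_K1 a_K1b a_K3 a_K4 a_K7 a_K9 a_K10c

theorem a_A13 : st_A13 := R_A13 a_A0g a_A6 a_A8a a_A8b

theorem a_A12a : st_A12a := R_A12a a_A0f a_A1 a_A2 a_A4 a_A6a

theorem a_A12 : st_A12 := R_A12 a_A0f a_A3 a_A6 a_A12a

theorem a_R5x : st_R5x := R_R5x a_A13 a_A12 a_R0 a_R3

theorem a_K7x : st_K7x := R_K7x a_K1

theorem a_K11ax : st_K11ax := R_K11ax a_K11a a_R5x a_R6 a_K1 a_K1b a_K3 a_K4 a_K7x a_K9 a_K10c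

theorem a_K12 : st_K12 := R_K12

theorem a_K11x : st_K11x := R_K11x a_K8 a_K10a a_K10b a_K11ax a_K12

theorem a_P1 : st_P1 := R_P1

theorem a_P2 : st_P2 := R_P2

theorem a_P3 : st_P3 := R_P3

theorem a_P4 : st_P4 := R_P4 a_P1 a_P2 a_P3

end SGT
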