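import Pool.Agent.SGT.Lib

/-!
# SGT (MP_3dd09b_ag): sections of generic twists. Common definitions.

`Ω` is a field, `C` a field with `Algebra C Ω`. Places are valuation rings `P : ValuationSubring Ω`,
looked at on a subset `S` of `Ω` (usually an intermediate field `N` of `Ω / C`, a function field of one
variable `GT.FF C N`, or an infinite algebraic extension `L` of such a field). Automorphisms are
`σ : Ω ≃+* Ω`; `σ ^ n` is the power in the group `Ω ≃+* Ω` (`RingAut`).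
-/

set_option autoImplicit false
set_option linter.unusedVariables false

open GT IsLocalRing Polynomial

noncomputable section

namespace SGT

section basic

variable {C Ω : Type} [Field C] [Field Ω] [Algebra C Ω]

/-- The restriction of the valuation ring `P` of `Ω` to `N`. -/
abbrev rs (N : IntermediateField C Ω) (P : ValuationSubring Ω) : ValuationSubring N :=
  P.comap (algebraMap N Ω)

variable (C) in
/-- `P` is a place on `S` over `C`: `C ⊆ P`, `S ⊄ P`. -/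
def Plc (S : Set Ω) (P : ValuationSubring Ω) : Prop :=
  (∀ c : C, algebraMap C Ω c ∈ P) ∧ ∃ z ∈ S, z ∉ P

variable (C) in
/-- `σ` is `C`-linear. -/
def Lin (σ : Ω ≃+* Ω) : Prop := ∀ c : C, σ (algebraMap C Ω c) = algebraMap C Ω c

/-- `σ` stabilises `P` on `S`. -/
def StP (σ : Ω ≃+* Ω) (S : Set Ω) (P : ValuationSubring Ω) : Prop := ∀ z ∈ S, (σ z ∈ P ↔ z ∈ P)

/-- `P` and `Q` agree on `S`. -/
def Eqv (S : Set Ω) (P Q : ValuationSubring Ω) : Prop := ∀ z ∈ S, (z ∈ P ↔ z ∈ Q)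

/-- `σ S = S`. -/
def Sta (σ : Ω ≃+* Ω) (S : Set Ω) : Prop := ∀ z, σ z ∈ S ↔ z ∈ S

/-- `σ` is trivial on `S`. -/
def Tri (σ : Ω ≃+* Ω) (S : Set Ω) : Prop := ∀ z ∈ S, σ z = z

variable (C) in
/-- `σ` fixes `F`, `σ L = L`, `σ C = C`. -/
def Gr (F L : Set Ω) (σ : Ω ≃+* Ω) : Prop :=
  Tri σ F ∧ Sta σ L ∧ Sta σ (Set.range (algebraMap C Ω))

/-- `N ⊆ L` is a function field over `C` which contains `F` and is stable under all automorphisms of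
`Ω` which fix `F` and preserve `L` and `C`. -/
def SLv (F : Set Ω) (L N : IntermediateField C Ω) : Prop :=
  F ⊆ N ∧ N ≤ L ∧ FF C N ∧ ∀ σ : Ω ≃+* Ω, Gr C F (L : Set Ω) σ → ∀ z ∈ N, σ z ∈ N

/-- `L` has enough stable levels. -/
def Lvs (F : Set Ω) (L : IntermediateField C Ω) : Prop :=
  ∀ S : Finset Ω, (∀ z ∈ S, z ∈ L) → ∃ N : IntermediateField C Ω, SLv F L N ∧ ∀ z ∈ S, z ∈ N

/-- `L` contains the `n`-th roots of the functions on `N ≤ L` whose orders are divisible by `n`. -/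
def KC (L : IntermediateField C Ω) : Prop :=
  ∀ N : IntermediateField C Ω, N ≤ L → FF C N → ∀ (g : N) (n : ℕ), 0 < n → g ≠ 0 →
    (∀ O : ValuationSubring N, IsPl C O → (n : ℤ) ∣ od C O g) → ∀ η : Ω, η ^ n = (g : Ω) → η ∈ L

/-- Conversely (`p` prime, `E ≤ N ≤ L`): `L / E` is unramified. -/
def UR (E L : IntermediateField C Ω) : Prop :=
  ∀ N : IntermediateField C Ω, E ≤ N → N ≤ L → FF C N → ∀ (a : N) (p : ℕ), p.Prime → a ≠ 0 →
    ∀ ρ ∈ L, ρ ^ p = (a : Ω) → ∀ O : ValuationSubring N, IsPl C O → (p : ℤ) ∣ od C O a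

/-- `L / E` is normal and unramified, `C` algebraically closed. -/
structure Nor (E L : IntermediateField C Ω) : Prop where
  gal : ∀ N : IntermediateField C Ω, E ≤ N → N ≤ L → ∀ z ∈ L, z ∉ N →
    ∃ g : Ω ≃+* Ω, Tri g (N : Set Ω) ∧ Sta g (L : Set Ω) ∧ g z ≠ z
  conj : ∀ N : IntermediateField C Ω, E ≤ N → N ≤ L → ∀ P Q : ValuationSubring Ω,
    Plc C (L : Set Ω) P → Plc C (L : Set Ω) Q → Eqv (N : Set Ω) P Q →
    ∃ g : Ω ≃+* Ω, Tri g (N : Set Ω) ∧ Sta g (L : Set Ω) ∧ ∀ z ∈ L, (g z ∈ Q ↔ z ∈ P)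
  stab : ∀ g : Ω ≃+* Ω, Tri g (E : Set Ω) → Sta g (L : Set Ω) → ∀ P : ValuationSubring Ω,
    Plc C (L : Set Ω) P → StP g (L : Set Ω) P → Tri g (L : Set Ω)

/-- The relation `σ⁻¹ τ σ = τ ^ c` on `L`, where `Ψ ζ ^ c = ζ` for the roots of unity `ζ`. -/
def REL (L : Set Ω) (τ σ : Ω ≃+* Ω) (Ψ : C ≃+* C) : Prop :=
  ∀ r ∈ L, ∀ M : ℕ, 0 < M → ∃ c : ℕ, σ.symm (τ (σ r)) = (τ ^ c) r ∧
    ∀ ζ : C, ζ ^ M = 1 → (Ψ ζ) ^ c = ζ

/-- There are Frobenius elements `σ` (with the action `Ψ` on `C` and the valuation ring `V` of `C`, `Q`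
the number of elements of the finite field) which fix the finite set `Y` and satisfy `REL`. -/
def Frb (L : IntermediateField C Ω) (N : Set Ω) (τ : Ω ≃+* Ω) : Prop :=
  ∀ (p : ℕ), p.Prime → ∀ (S : Finset C) (Y : Finset Ω), (∀ z ∈ Y, z ∈ N) →
    ∃ (V : ValuationSubring C) (Ψ : C ≃+* C) (σ : Ω ≃+* Ω) (Q : ℕ),
      (∀ z ∈ S, z ∈ V) ∧ Rk1 V ∧ IsUnit (p : V) ∧ 2 ≤ Q ∧ SUP.Stab V Ψ ∧
      (∀ z ∈ V, Ψ z - z ^ Q ∈ V.nonunits) ∧
      (∀ x : ResidueField V, ∃ m : ℕ, 0 < m ∧ x ^ Q ^ m = x) ∧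
      (∀ c : C, σ (algebraMap C Ω c) = algebraMap C Ω (Ψ c)) ∧ (∀ z ∈ Y, σ z = z) ∧
      REL (L : Set Ω) τ σ Ψ

/-- The pairing of the automorphism `τ` with the torsion class `D` of `WB T` is `ζ`. -/
def PR {N : IntermediateField C Ω} {d : ℕ} [NeZero d] {T : Tab C d} [IsDedekindDomain (WB T)]
    (E : WB T →+* N) (τ : Ω ≃+* Ω) (D : ClassGroup (WB T)) (ζ : C) : Prop :=
  ∃ (n : ℕ) (J : Ideal (WB T)) (g : WB T) (η : Ω), 0 < n ∧ J ≠ ⊥ ∧ SUP.cls J = D ∧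
    J ^ n = Ideal.span {g} ∧ η ^ n = ((E g : N) : Ω) ∧ ζ ^ n = 1 ∧ τ η = algebraMap C Ω ζ * η

/-- The residue field of `Q` on `L` is `C`. -/
def Res (L : IntermediateField C Ω) (Q : ValuationSubring Ω) : Prop :=
  ∀ z ∈ L, z ∈ Q → ∃ c : C, z - algebraMap C Ω c ∈ Q.nonunits

end basic

/-- `𝕜` and `L` are linearly disjoint over `C` in `Ω`. -/
def LDJ (C 𝕜 : Type) {Ω : Type} [Field C] [Field 𝕜] [Field Ω] [Algebra C 𝕜] [Algebra 𝕜 Ω]
    (L : Set Ω) : Prop :=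
  ∀ (n : ℕ) (β : Fin n → 𝕜) (z : Fin n → Ω), LinearIndependent C β → (∀ i, z i ∈ L) →
    ∑ i, algebraMap 𝕜 Ω (β i) * z i = 0 → ∀ i, z i = 0

/-- `k` has enough discrete valuation rings with finite residue field. -/
def HasPl (k : Type) [Field k] : Prop :=
  ∀ T : Finset k, ∃ A : ValuationSubring k, (∀ t ∈ T, t ∈ A) ∧ IsDiscreteValuationRing A ∧
    Finite (ResidueField A)

/-- `h` acts on `𝕜` as `τ`. -/
def Rst {𝕜 Ω : Type} [Field 𝕜] [Field Ω] [Algebra 𝕜 Ω] (h : Ω ≃+* Ω) (τ : 𝕜 ≃+* 𝕜) : Prop :=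
  ∀ β : 𝕜, h (algebraMap 𝕜 Ω β) = algebraMap 𝕜 Ω (τ β)

end SGT
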