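import Pool.Agent.SGT.Open

/-!
# SGT: functoriality of sections for a dominant map of curves (MP_3dd09b_ag)
-/

set_option autoImplicit false
set_option linter.unusedVariables false

noncomputable section

open GT IsLocalRing Polynomial

namespace SGT

open SEC

/-- An element of a field over the algebraically closed `A` which is algebraic over `A` is in `A`. -/
theorem fu_range {A D : Type} [Field A] [IsAlgClosed A] [Field D] (ι : A →+* D) (p : A[X])
    (hp : p ≠ 0) (w : D) (hw : eval₂ ι w p = 0) : ∃ z : A, ι z = w := by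
  let _ : Algebra A D := ι.toAlgebra
  have hint : IsIntegral A w := by
    have h1 : IsAlgebraic A w := ⟨p, hp, hw⟩
    exact h1.isIntegral
  have h2 := IsAlgClosed.degree_eq_one_of_irreducible A (minpoly.irreducible hint)
  obtain ⟨z, hz⟩ := minpoly.mem_range_of_degree_eq_one A w h2
  exact ⟨z, hz⟩

section

variable {K K' : Type} [Field K] [Field K'] [Algebra K K']

/-- An embedding of algebraic closures. -/
theorem fu_emb : ∃ ι : Om K →+* Om K', ∀ x : K, ι (algebraMap K (Om K) x) =
    algebraMap K' (Om K') (algebraMap K K' x) := by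
  have : Algebra.IsAlgebraic K (Om K) :=
    (inferInstance : Algebra.IsAlgebraic K (AlgebraicClosure K))
  have : IsAlgClosed (Om K') := (inferInstance : IsAlgClosed (AlgebraicClosure K'))
  let _ : Algebra K (Om K') := ((algebraMap K' (Om K')).comp (algebraMap K K')).toAlgebra
  let ι : Om K →ₐ[K] Om K' := IsAlgClosed.lift
  exact ⟨ι, fun x => ι.commutes x⟩

/-- Automorphisms of the big algebraic closure restrict to the small one. -/
theorem fu_restr (ι : Om K →+* Om K') (hι : ∀ x : K, ι (algebraMap K (Om K) x) =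
    algebraMap K' (Om K') (algebraMap K K' x)) (g : Om K' →+* Om K')
    (hg : ∀ x : K', g (algebraMap K' (Om K') x) = algebraMap K' (Om K') x) :
    ∃ g₀ : Om K ≃ₐ[K] Om K, ∀ z, ι (g₀ z) = g (ι z) := by
  have halg : Algebra.IsAlgebraic K (Om K) :=
    (inferInstance : Algebra.IsAlgebraic K (AlgebraicClosure K))
  have : IsAlgClosed (Om K) := (inferInstance : IsAlgClosed (AlgebraicClosure K))
  have h1 : ∀ z : Om K, ∃ w : Om K, ι w = g (ι z) := by
    intro z
    obtain ⟨p, hp, hz⟩ := halg.isAlgebraic z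
    refine fu_range ι (p.map (algebraMap K (Om K)))
      ((Polynomial.map_ne_zero_iff (algebraMap K (Om K)).injective).2 hp) _ ?_
    rw [Polynomial.eval₂_map]
    have h2 : ι.comp (algebraMap K (Om K)) = g.comp (ι.comp (algebraMap K (Om K))) := by
      ext x
      simp only [RingHom.comp_apply]
      rw [hι, hg]
    rw [h2, ← Polynomial.hom_eval₂, ← Polynomial.hom_eval₂]
    have h3 : eval₂ (algebraMap K (Om K)) z p = 0 := hz
    rw [h3, map_zero, map_zero]
  choose w hw using h1
  let f : Om K →ₐ[K] Om K :=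
    { toFun := w
      map_one' := ι.injective (by rw [hw, map_one, map_one])
      map_mul' := fun a b => ι.injective (by rw [hw, map_mul, map_mul, map_mul, hw, hw])
      map_zero' := ι.injective (by rw [hw, map_zero, map_zero])
      map_add' := fun a b => ι.injective (by rw [hw, map_add, map_add, map_add, hw, hw])
      commutes' := fun x => ι.injective (by rw [hw, hι, hg]) }
  exact ⟨AlgEquiv.ofBijective f (Algebra.IsAlgebraic.algHom_bijective f), hw⟩

end

section

variable {B K K' : Type} [Field B] [Field K] [Field K'] [Algebra B K] [Algebra B K'] [Algebra K K']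
  [IsScalarTower B K K']

/-- The image of `M_K` is in `M_{K'}`. -/
theorem fu_mem (ι : Om K →+* Om K') (hι : ∀ x : K, ι (algebraMap K (Om K) x) =
    algebraMap K' (Om K') (algebraMap K K' x)) (z : Om K) (hz : z ∈ FSC.MU B K Set.univ) :
    ι z ∈ FSC.MU B K' Set.univ := by
  intro Q0 hQ0 _ σ0 hσ0
  obtain ⟨Q, hQQ⟩ : ∃ Q : ValuationSubring (Om K'), Q = Q0 := ⟨Q0, rfl⟩
  obtain ⟨σ, hσσ⟩ : ∃ σ : Om K' ≃ₐ[K'] Om K', σ = σ0 := ⟨σ0, rfl⟩
  have hQ : (∀ b : B, algebraMap B (Om K') b ∈ Q) ∧ Q ≠ ⊤ := by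
    rw [hQQ]
    exact hQ0
  have hσ : (∀ z, σ z ∈ Q ↔ z ∈ Q) ∧ ∀ z ∈ Q, σ z - z ∈ Q.nonunits := by
    rw [hQQ, hσσ]
    exact hσ0
  change σ0 (ι z) = ι z
  have hgoal : σ (ι z) = ι z → σ0 (ι z) = ι z := by
    rw [hσσ]
    exact fun h => h
  apply hgoal
  clear hgoal hσσ hQQ hσ0 hQ0
  obtain ⟨σ₀, hσ₀⟩ := fu_restr ι hι (σ : Om K' →+* Om K') (fun x => σ.commutes x)
  have hσ₀' : ∀ z, ι (σ₀ z) = σ (ι z) := hσ₀
  have hmem : ∀ x, x ∈ Q.comap ι ↔ ι x ∈ Q := fun x => Iff.rfl
  have hnon : ∀ w, w ∈ Q.comap ι → ι (σ₀ w) - ι w ∈ Q.nonunits := by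
    intro w hw
    rw [hσ₀']
    exact hσ.2 _ hw
  have hnon' : ∀ w, w ∈ Q.comap ι → σ₀ w - w ∈ (Q.comap ι).nonunits := by
    intro w hw
    have h1 := hnon w hw
    rw [← map_sub, ValuationSubring.mem_nonunits_iff_or] at h1
    rw [ValuationSubring.mem_nonunits_iff_or]
    rcases h1 with h1 | h1
    · left
      exact (map_eq_zero ι).1 h1
    · right
      rw [hmem, map_inv₀]
      exact h1
  by_cases htop : Q.comap ι = ⊤
  · have h1 := hnon' z (by rw [htop]; exact ValuationSubring.mem_top z)
    rw [ValuationSubring.mem_nonunits_iff_or] at h1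
    have h2 : σ₀ z = z := by
      rcases h1 with h1 | h1
      · exact sub_eq_zero.1 h1
      · exact absurd (by rw [htop]; exact ValuationSubring.mem_top _) h1
    rw [← hσ₀', h2]
  · have hB : ∀ b : B, ι (algebraMap B (Om K) b) = algebraMap B (Om K') b := by
      intro b
      have e1 : algebraMap B (Om K) b = algebraMap K (Om K) (algebraMap B K b) :=
        IsScalarTower.algebraMap_apply B K (AlgebraicClosure K) b
      have e2 : algebraMap B (Om K') b = algebraMap K' (Om K') (algebraMap B K' b) :=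
        IsScalarTower.algebraMap_apply B K' (AlgebraicClosure K') b
      rw [e1, hι, e2, IsScalarTower.algebraMap_apply B K K']
    have h1 : SCJ.IsPlace B K (Q.comap ι) := by
      refine ⟨fun b => ?_, htop⟩
      have h2 : ι (algebraMap B (Om K) b) ∈ Q := by
        rw [hB]
        exact hQ.1 b
      exact h2
    have h2 : SCJ.IsInert K (Q.comap ι) σ₀ := by
      refine ⟨fun w => ?_, fun w hw => hnon' w hw⟩
      have h3 := hσ.1 (ι w)
      rw [← hσ₀'] at h3
      exact h3
    have h3 : σ₀ z = z := hz _ h1 (Set.mem_univ _) σ₀ h2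
    rw [← hσ₀', h3]

/-- The image of the algebraic closure of `B`. -/
theorem fu_kb (ι : Om K →+* Om K') (hι : ∀ x : K, ι (algebraMap K (Om K) x) =
    algebraMap K' (Om K') (algebraMap K K' x)) :
    ∃ e : kb B K ≃ₐ[B] kb B K', ∀ β : kb B K, ((e β : kb B K') : Om K') = ι (β : Om K) := by
  have : IsAlgClosed (Om K) := (inferInstance : IsAlgClosed (AlgebraicClosure K))
  have hB : ∀ b : B, ι (algebraMap B (Om K) b) = algebraMap B (Om K') b := by
    intro b
    have e1 : algebraMap B (Om K) b = algebraMap K (Om K) (algebraMap B K b) :=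
      IsScalarTower.algebraMap_apply B K (AlgebraicClosure K) b
    have e2 : algebraMap B (Om K') b = algebraMap K' (Om K') (algebraMap B K' b) :=
      IsScalarTower.algebraMap_apply B K' (AlgebraicClosure K') b
    rw [e1, hι, e2, IsScalarTower.algebraMap_apply B K K']
  let ιB : Om K →ₐ[B] Om K' := { ι with commutes' := hB }
  have hmem : ∀ β : kb B K, ι (β : Om K) ∈ kb B K' := by
    intro β
    have h1 : IsAlgebraic B (β : Om K) := mem_algebraicClosure_iff.1 β.2
    have h2 : IsAlgebraic B (ι (β : Om K)) := h1.algHom ιB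
    exact mem_algebraicClosure_iff.2 h2
  let f : kb B K →ₐ[B] kb B K' := (ιB.comp (kb B K).val).codRestrict (kb B K').toSubalgebra hmem
  refine ⟨AlgEquiv.ofBijective f ⟨f.injective, ?_⟩, fun β => rfl⟩
  intro w
  have hw : IsAlgebraic B (w : Om K') := mem_algebraicClosure_iff.1 w.2
  obtain ⟨p, hp, hpw⟩ := hw
  obtain ⟨z, hz⟩ := fu_range ι (p.map (algebraMap B (Om K)))
    ((Polynomial.map_ne_zero_iff (algebraMap B (Om K)).injective).2 hp) (w : Om K') (by
      rw [Polynomial.eval₂_map]
      have h2 : ι.comp (algebraMap B (Om K)) = algebraMap B (Om K') := by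
        ext b
        exact hB b
      rw [h2]
      exact hpw)
  have hz1 : IsAlgebraic B z := by
    have h3 : IsAlgebraic B (ιB z) := by
      have : ιB z = (w : Om K') := hz
      rw [this]
      exact mem_algebraicClosure_iff.1 w.2
    exact (isAlgebraic_algHom_iff ιB ι.injective).1 h3
  exact ⟨⟨z, mem_algebraicClosure_iff.2 hz1⟩, Subtype.ext hz⟩

/-- A section for the curve with function field `K'` gives one for `K ⊆ K'`. -/
theorem sectFun [CharZero B] (U : Set (ValuationSubring K')) (s₁ : FSC.SectU B K' U) :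
    Nonempty (FSC.SectU B K Set.univ) := by
  obtain ⟨s⟩ := sectUniv U s₁
  obtain ⟨H, hH⟩ := R_K8 B K' s
  obtain ⟨ι, hι⟩ := fu_emb (K := K) (K' := K')
  obtain ⟨e, he⟩ := fu_kb (B := B) ι hι
  have hn := op_normal (k := B) (K := K) Set.univ
  -- the images
  let j : FSC.MMU B K Set.univ → FSC.MMU B K' Set.univ := fun z => ⟨ι z.incl, fu_mem ι hι _ z.2⟩
  have hj : ∀ z, (j z).incl = ι z.incl := fun z => rfl
  have hinj : ∀ a b : FSC.MMU B K' Set.univ, a.incl = b.incl → a = b := fun a b h => Subtype.ext h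
  let c : (kb B K ≃ₐ[B] kb B K) →* (kb B K' ≃ₐ[B] kb B K') := (AlgEquiv.autCongr e).toMonoidHom
  have hc : ∀ τ β, c τ (e β) = e (τ β) := by
    intro τ β
    change e (τ (e.symm (e β))) = e (τ β)
    rw [AlgEquiv.symm_apply_apply]
  have h1 : ∀ τ : kb B K ≃ₐ[B] kb B K, ∃ T : (FSC.MU B K Set.univ) ≃ₐ[K] (FSC.MU B K Set.univ),
      ∀ z : FSC.MU B K Set.univ,
        ι (FSC.MMU.incl B K Set.univ (T z)) = ((s.toHom (c τ)).act B K' Set.univ (j z)).incl := by
    intro τ
    obtain ⟨g, hg, -, hg2⟩ := hH.ofS (c τ)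
    obtain ⟨g₀, hg₀⟩ := fu_restr ι hι (g : Om K' →+* Om K') (hH.fixK g hg)
    let g₁ : SCJ.Om K ≃ₐ[K] SCJ.Om K := g₀
    refine ⟨AlgEquiv.restrictNormalHom (FSC.MU B K Set.univ) g₁, fun z => ?_⟩
    have h2 : FSC.MMU.incl B K Set.univ (AlgEquiv.restrictNormalHom (FSC.MU B K Set.univ) g₁ z)
        = g₁ (FSC.MMU.incl B K Set.univ z) := AlgEquiv.restrictNormal_commutes g₁ _ z
    rw [h2, ← hg2]
    exact hg₀ _
  choose T hT using h1
  have hTj : ∀ τ z, j (T τ z) = (s.toHom (c τ)).act B K' Set.univ (j z) := by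
    intro τ z
    apply hinj
    rw [hj]
    exact hT τ z
  have hjinj : ∀ a b : FSC.MU B K Set.univ, j a = j b → a = b := by
    intro a b h
    have h2 := congrArg (FSC.MMU.incl B K' Set.univ) h
    exact Subtype.ext (ι.injective h2)
  let T' : (kb B K ≃ₐ[B] kb B K) →* ((FSC.MU B K Set.univ) ≃ₐ[K] (FSC.MU B K Set.univ)) :=
    { toFun := T
      map_one' := AlgEquiv.ext fun z => by
        apply hjinj
        rw [hTj, map_one]
        have : s.toHom (1 : kb B K' ≃ₐ[B] kb B K') = 1 := map_one s.toHom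
        rw [this]
        rfl
      map_mul' := fun τ₁ τ₂ => AlgEquiv.ext fun z => by
        apply hjinj
        rw [AlgEquiv.mul_apply, hTj, hTj, hTj, map_mul]
        have : s.toHom (c τ₁ * c τ₂) = s.toHom (c τ₁) * s.toHom (c τ₂) := map_mul s.toHom _ _
        rw [this]
        rfl }
  have hcont : Continuous T' := by
    apply cont_of_fix
    intro z
    have hz : ι (FSC.MMU.incl B K Set.univ z) ∈ Mnr B K' := fun Q hQ σ hσ =>
      fu_mem (B := B) ι hι _ z.2 Q hQ (Set.mem_univ _) σ hσ
    obtain ⟨S, hS⟩ := hH.cont _ hz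
    refine ⟨IntermediateField.adjoin B ((fun β => e.symm β) '' (S : Set (kb B K'))), ?_, ?_⟩
    · have := ((S.finite_toSet).image fun β => e.symm β).to_subtype
      exact IntermediateField.finiteDimensional_adjoin fun x _ =>
        (Algebra.IsIntegral.isIntegral (R := B) x)
    · intro τ hτ
      rw [IntermediateField.mem_fixingSubgroup_iff] at hτ
      obtain ⟨g, hg, hg1, hg2⟩ := hH.ofS (c τ)
      have h3 := hS g hg (fun β hβ => by
        rw [hg1]
        have h4 : τ (e.symm β) = e.symm β :=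
          hτ _ (IntermediateField.subset_adjoin B _ (Set.mem_image_of_mem _ hβ))
        have h5 : c τ β = β := by
          have h6 := hc τ (e.symm β)
          rw [AlgEquiv.apply_symm_apply, h4, AlgEquiv.apply_symm_apply] at h6
          exact h6
        rw [h5])
      apply hjinj
      change j (T τ z) = j z
      rw [hTj]
      apply hinj
      rw [← hg2]
      exact h3
  have hsplit : ∀ (τ : kb B K ≃ₐ[B] kb B K) (β : kb B K) (z : FSC.MU B K Set.univ),
      FSC.MMU.incl B K Set.univ z = (β : Om K) →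
      FSC.MMU.incl B K Set.univ (T τ z) = ((τ β : kb B K) : Om K) := by
    intro τ β z hz
    apply ι.injective
    have h2 := hT τ z
    have h3 : (j z).incl = ((e β : kb B K') : Om K') := by
      rw [hj, he]
      exact congrArg ι hz
    have h4 := s.split (c τ) (e β) (j z) h3
    refine (h2.trans h4).trans ?_
    change ((c τ (e β) : kb B K') : Om K') = ι ((τ β : kb B K) : Om K)
    rw [hc, he]
  exact ⟨⟨T', hcont, fun τ β z hz => hsplit τ β z hz⟩⟩

end

end SGT
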