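import Mathlib
import Pool.Agent.MP_c1dca2_ag.GT.A10
import Pool.Agent.MP_c1dca2_ag.GT.BC2
import Pool.Agent.MP_c1dca2_ag.GT.BC3
import Pool.Agent.MP_c1dca2_ag.GT.E0a
import Pool.Agent.MP_c1dca2_ag.GT.E2e
import Pool.Agent.MP_c1dca2_ag.GT.F2
import Pool.Agent.MP_c1dca2_ag.GT.F3
import Pool.Agent.MP_c1dca2_ag.GT.GR4b
import Pool.Agent.MP_c1dca2_ag.GT.GR4c
import Pool.Agent.MP_c1dca2_ag.GT.H1a
import Pool.Agent.MP_c1dca2_ag.GT.H1b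
import Pool.Agent.MP_c1dca2_ag.GT.H1c
import Pool.Agent.MP_c1dca2_ag.GT.H1d
import Pool.Agent.MP_c1dca2_ag.GT.H2a
import Pool.Agent.MP_c1dca2_ag.GT.H2b
import Pool.Agent.MP_c1dca2_ag.GT.H2c
import Pool.Agent.MP_c1dca2_ag.GT.J2a
import Pool.Agent.MP_c1dca2_ag.GT.J2b
import Pool.Agent.MP_c1dca2_ag.GT.Ka
import Pool.Agent.MP_c1dca2_ag.GT.Kc
import Pool.Agent.MP_c1dca2_ag.GT.Kd
import Pool.Agent.MP_c1dca2_ag.GT.Kv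
import Pool.Agent.MP_c1dca2_ag.GT.M2
import Pool.Agent.MP_c1dca2_ag.GT.M3
import Pool.Agent.MP_c1dca2_ag.GT.M5
import Pool.Agent.MP_c1dca2_ag.GT.N1
import Pool.Agent.MP_c1dca2_ag.GT.N2b
import Pool.Agent.MP_c1dca2_ag.GT.N3c
import Pool.Agent.MP_c1dca2_ag.GT.P8b
import Pool.Agent.MP_c1dca2_ag.GT.P8c
import Pool.Agent.MP_c1dca2_ag.GT.Q3
import Pool.Agent.MP_c1dca2_ag.GT.S1
import Pool.Agent.MP_c1dca2_ag.GT.T6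
import Pool.Agent.MP_c1dca2_ag.GT.T8
import Pool.Agent.MP_c1dca2_ag.GT.V0b
import Pool.Agent.MP_c1dca2_ag.GT.X1a
import Pool.Agent.MP_c1dca2_ag.GT.X2
import Pool.Agent.MP_c1dca2_ag.GT.Y1
import Pool.Agent.MP_c1dca2_ag.SC2.A1
import Pool.Agent.MP_c1dca2_ag.SC2.A2
import Pool.Agent.MP_c1dca2_ag.SC2.A3
import Pool.Agent.MP_c1dca2_ag.SC2.A4
import Pool.Agent.MP_c1dca2_ag.SUP.R2
import Pool.Agent.MP_3dd09b_ag.FS.U1
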