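import Pool.Agent.SGT.All
import Pool.Agent.MP_3dd09b_ag.FS.U1

/-!
# SGT: a section of `π₁(U)` gives a section of `π₁(V)` for `U ⊆ V` (MP_3dd09b_ag)
-/

set_option autoImplicit false
set_option linter.unusedVariables false

noncomputable section

namespace SGT

open SCJ FSC

theorem op_restrict {K Ω : Type} [Field K] [Field Ω] [Algebra K Ω]
    (E F : IntermediateField K Ω) (hEF : E ≤ F) [Normal K E] :
    ∃ r : (F ≃ₐ[K] F) →* (E ≃ₐ[K] E), Continuous r ∧
      ∀ (γ : F ≃ₐ[K] F) (z : E), (r γ z : Ω) = γ ⟨(z : Ω), hEF z.2⟩ := by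
  let _ : Algebra E F := (IntermediateField.inclusion hEF).toRingHom.toAlgebra
  have _ : IsScalarTower K E F := IsScalarTower.of_algebraMap_eq fun x => rfl
  have key : ∀ (γ : F ≃ₐ[K] F) (z : E),
      (AlgEquiv.restrictNormalHom E γ z : Ω) = γ ⟨(z : Ω), hEF z.2⟩ := by
    intro γ z
    have h := AlgEquiv.restrictNormal_commutes γ E z
    exact congrArg (fun w : F => (w : Ω)) h
  refine ⟨AlgEquiv.restrictNormalHom E, ?_, key⟩
  refine continuous_of_continuousAt_one _ ?_
  unfold ContinuousAt
  rw [map_one]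
  intro V hV
  rw [krullTopology_mem_nhds_one_iff] at hV
  obtain ⟨L, hL, hLV⟩ := hV
  rw [Filter.mem_map, krullTopology_mem_nhds_one_iff]
  refine ⟨L.map (IntermediateField.inclusion hEF),
    LinearEquiv.finiteDimensional (IntermediateField.equivMap L (IntermediateField.inclusion hEF)).toLinearEquiv, ?_⟩
  intro σ hσ
  apply hLV
  rw [SetLike.mem_coe, IntermediateField.mem_fixingSubgroup_iff] at hσ ⊢
  intro x hx
  apply Subtype.ext
  rw [key]
  have h1 := hσ (IntermediateField.inclusion hEF x) ⟨x, hx, rfl⟩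
  exact congrArg (fun w : F => (w : Ω)) h1

section
variable {k K : Type} [Field k] [Field K] [Algebra k K]

theorem op_alg (σ : Om K ≃ₐ[K] Om K) (a : k) :
    σ (algebraMap k (Om K) a) = algebraMap k (Om K) a := by
  have h : algebraMap k (Om K) a = algebraMap K (Om K) (algebraMap k K a) :=
    IsScalarTower.algebraMap_apply k K (AlgebraicClosure K) a
  rw [h]
  exact σ.commutes _

theorem op_stable (U : Set (ValuationSubring K)) (σ : Om K ≃ₐ[K] Om K) {z : Om K}
    (hz : z ∈ MU k K U) : σ z ∈ MU k K U := by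
  intro B hB hBU ρ hρ
  have hmem : ∀ x, x ∈ B.comap (σ : Om K →+* Om K) ↔ σ x ∈ B := fun x => Iff.rfl
  have hB' : IsPlace k K (B.comap (σ : Om K →+* Om K)) := by
    refine ⟨fun a => ?_, fun h => hB.2 ?_⟩
    · rw [hmem, op_alg]
      exact hB.1 a
    · rw [eq_top_iff]
      intro x _
      have h1 : σ.symm x ∈ B.comap (σ : Om K →+* Om K) := by
        rw [h]
        exact ValuationSubring.mem_top _
      rw [hmem, AlgEquiv.apply_symm_apply] at h1
      exact h1
  have hBU' : (B.comap (σ : Om K →+* Om K)).comap (algebraMap K (Om K)) ∈ U := by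
    have h1 : (B.comap (σ : Om K →+* Om K)).comap (algebraMap K (Om K)) =
        B.comap (algebraMap K (Om K)) := by
      ext x
      change σ (algebraMap K (Om K) x) ∈ B ↔ algebraMap K (Om K) x ∈ B
      rw [σ.commutes]
    rw [h1]
    exact hBU
  have hρ' : IsInert K (B.comap (σ : Om K →+* Om K)) ((σ.trans ρ).trans σ.symm) := by
    refine ⟨fun x => ?_, fun x hx => ?_⟩
    · rw [hmem, hmem]
      change σ (σ.symm (ρ (σ x))) ∈ B ↔ _
      rw [AlgEquiv.apply_symm_apply]
      exact hρ.1 _
    · rw [hmem] at hx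
      have h1 := hρ.2 _ hx
      rw [ValuationSubring.mem_nonunits_iff_or] at h1 ⊢
      have h2 : σ (((σ.trans ρ).trans σ.symm) x - x) = ρ (σ x) - σ x := by
        rw [map_sub]
        change σ (σ.symm (ρ (σ x))) - _ = _
        rw [AlgEquiv.apply_symm_apply]
      rcases h1 with h1 | h1
      · left
        rw [h1] at h2
        exact (map_eq_zero_iff σ σ.injective).1 h2
      · right
        rw [hmem, map_inv₀, h2]
        exact h1
  have h3 := hz _ hB' hBU' _ hρ'
  have h4 := congrArg σ h3
  change σ (σ.symm (ρ (σ z))) = σ z at h4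
  rwa [AlgEquiv.apply_symm_apply] at h4

theorem op_normal (U : Set (ValuationSubring K)) : Normal K (MU k K U) := by
  have : Normal K (Om K) := (inferInstance : Normal K (AlgebraicClosure K))
  rw [IntermediateField.normal_iff_forall_map_le']
  intro σ x hx
  obtain ⟨y, hy, rfl⟩ := hx
  exact op_stable U σ hy

end

/-- A section over the open curve `U` gives a section over the complete curve. -/
theorem sectUniv {k K : Type} [Field k] [Field K] [Algebra k K] (U : Set (ValuationSubring K))
    (s : SectU k K U) : Nonempty (SectU k K Set.univ) := by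
  have := op_normal (k := k) (K := K) Set.univ
  have hle : MU k K Set.univ ≤ MU k K U := fun z hz B hB _ σ hσ => hz B hB (Set.mem_univ _) σ hσ
  obtain ⟨r, hr, hrz⟩ := op_restrict (MU k K Set.univ) (MU k K U) hle
  let r' : Pi1U k K U →* Pi1U k K Set.univ := r
  have hr' : Continuous r' := hr
  exact ⟨{ toHom := r'.comp s.toHom
           cont := hr'.comp s.cont
           split := fun τ a z hz => (hrz _ z).trans (s.split τ a ⟨_, hle z.2⟩ hz) }⟩

end SGT
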