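import Pool.Agent.SGT.StA
import Pool.Agent.MP_c1dca2_ag.GT.P0
import Pool.Agent.MP_c1dca2_ag.GT.P1b
import Pool.Agent.MP_c1dca2_ag.GT.H2a

/-!
# [SGT-A0] subfields and fixed fields of function fields (MP_3dd09b_ag)
-/

set_option autoImplicit false
set_option linter.unusedVariables false

open GT IsLocalRing Polynomial

namespace SGT

section

variable {C Ω : Type} [Field C] [Field Ω] [Algebra C Ω]

/-- The inclusion maps `C(t)` onto `C(t)`. -/
private theorem a0_map {N₀ N : IntermediateField C Ω} (h : N₀ ≤ N) (t : N₀) :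
    (IntermediateField.adjoin C ({t} : Set N₀)).map (IntermediateField.inclusion h) =
      IntermediateField.adjoin C {IntermediateField.inclusion h t} := by
  rw [IntermediateField.adjoin_map, Set.image_singleton]

/-- A transcendental element of `N₀` is transcendental in `N`. -/
private theorem a0_tr {N₀ N : IntermediateField C Ω} (h : N₀ ≤ N) {t : N₀}
    (ht : Transcendental C t) : Transcendental C (IntermediateField.inclusion h t) := by
  intro h1
  exact ht ((isAlgebraic_algHom_iff (IntermediateField.inclusion h)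
    (IntermediateField.inclusion h).injective).1 h1)

/-- Finiteness over `C(t)` passes to subfields. -/
private theorem a0_fin {N₀ N : IntermediateField C Ω} (h : N₀ ≤ N) (t : N₀)
    (hf : FiniteDimensional (IntermediateField.adjoin C {IntermediateField.inclusion h t}) N) :
    FiniteDimensional (IntermediateField.adjoin C ({t} : Set N₀)) N₀ := by
  rw [← a0_map h t] at hf
  let i : N₀ →ₐ[C] N := IntermediateField.inclusion h
  let A := IntermediateField.adjoin C ({t} : Set N₀)
  let algN : Algebra N₀ N := i.toRingHom.toAlgebra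
  let algA : Algebra A N := (i.toRingHom.comp (algebraMap A N₀)).toAlgebra
  have htow : IsScalarTower A N₀ N := IsScalarTower.of_algebraMap_eq (fun _ => rfl)
  have hfin : FiniteDimensional A N := by
    refine Module.Finite.of_equiv_equiv
      (IntermediateField.equivMap A i).symm.toRingEquiv (RingEquiv.refl N) ?_
    ext x
    obtain ⟨y, rfl⟩ := (IntermediateField.equivMap A i).surjective x
    have h1 : (IntermediateField.equivMap A i).symm.toRingEquiv
        ((IntermediateField.equivMap A i) y) = y := by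
      exact (IntermediateField.equivMap A i).symm_apply_apply y
    simp only [RingHom.comp_apply, RingHom.coe_coe]
    rw [h1]
    rfl
  exact FiniteDimensional.of_injective (Algebra.linearMap N₀ N |>.restrictScalars A)
    i.injective

end

theorem R_A0 : st_A0 := by
  intro C Ω _ _ _ _ _ N₀ N hle hF halg
  refine ⟨fun t ht => a0_fin hle t (hF.fin _ (a0_tr hle ht)), ?_⟩
  by_contra hc
  have hal : Algebra.IsAlgebraic C N₀ := ⟨fun t => by
    by_contra ht
    exact hc ⟨t, ht⟩⟩
  obtain ⟨t, ht⟩ := hF.ex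
  apply ht
  have h1 : IsAlgebraic C ((t : N) : Ω) := (halg t.1 t.2).restrictScalars C
  exact (isAlgebraic_algebraMap_iff (algebraMap N Ω).injective).1 h1

/-- The fixed field of `σ` in `N`. -/
private def a0_fix {C Ω : Type} [Field C] [Field Ω] [Algebra C Ω] (N : IntermediateField C Ω)
    (σ : Ω ≃+* Ω) (hσ : Lin C σ) : IntermediateField C Ω where
  carrier := {z | z ∈ N ∧ σ z = z}
  mul_mem' := by
    rintro a b ⟨ha, ha'⟩ ⟨hb, hb'⟩
    exact ⟨N.mul_mem ha hb, by rw [map_mul, ha', hb']⟩
  add_mem' := by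
    rintro a b ⟨ha, ha'⟩ ⟨hb, hb'⟩
    exact ⟨N.add_mem ha hb, by rw [map_add, ha', hb']⟩
  algebraMap_mem' c := ⟨N.algebraMap_mem c, hσ c⟩
  inv_mem' := by
    rintro a ⟨ha, ha'⟩
    exact ⟨N.inv_mem ha, by rw [map_inv₀, ha']⟩

/-- The powers of `σ` preserve `N`. -/
private theorem a0_pow {C Ω : Type} [Field C] [Field Ω] [Algebra C Ω] {N : IntermediateField C Ω}
    {σ : Ω ≃+* Ω} (h : ∀ z ∈ N, σ z ∈ N) (i : ℕ) : ∀ z ∈ N, (σ ^ i) z ∈ N := by
  induction i with
  | zero =>
    intro z hz
    simpa using hz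
  | succ i ih =>
    intro z hz
    rw [pow_succ', RingAut.mul_apply]
    exact h _ (ih z hz)

/-- Every element of `N` is algebraic over the fixed field. -/
private theorem a0_alg {C Ω : Type} [Field C] [Field Ω] [Algebra C Ω] (N : IntermediateField C Ω)
    (σ : Ω ≃+* Ω) (n : ℕ) (hσ : Lin C σ) (hN : ∀ z ∈ N, σ z ∈ N) (hn : 0 < n)
    (hp : ∀ z ∈ N, (σ ^ n) z = z) {z : Ω} (hz : z ∈ N) : IsAlgebraic (a0_fix N σ hσ) z := by
  let P : Polynomial Ω := ∏ i ∈ Finset.range n, (X - Polynomial.C ((σ ^ i) z))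
  have hP : P = ∏ i ∈ Finset.range n, (X - Polynomial.C ((σ ^ i) z)) := rfl
  have hmon : P.Monic := Polynomial.monic_prod_of_monic _ _ (fun i _ => Polynomial.monic_X_sub_C _)
  have hmap : P.map (σ : Ω →+* Ω) = P := by
    rw [hP, Polynomial.map_prod]
    simp only [Polynomial.map_sub, Polynomial.map_X, Polynomial.map_C]
    have h1 : ∀ i, ((σ : Ω →+* Ω) ((σ ^ i) z)) = (σ ^ (i + 1)) z := by
      intro i
      rw [pow_succ', RingAut.mul_apply]
      rfl
    simp only [h1]
    obtain ⟨m, rfl⟩ : ∃ m, n = m + 1 := ⟨n - 1, by omega⟩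
    rw [Finset.prod_range_succ, Finset.prod_range_succ' _ m, hp z hz, pow_zero]
    rfl
  have hlift : P ∈ Polynomial.lifts (algebraMap N Ω) := by
    rw [hP]
    refine Subsemiring.prod_mem _ (fun i _ => ?_)
    exact ⟨X - Polynomial.C (⟨(σ ^ i) z, a0_pow hN i z hz⟩ : N), by simp⟩
  have hlift2 : P ∈ Polynomial.lifts (algebraMap (a0_fix N σ hσ) Ω) := by
    rw [Polynomial.lifts_iff_coeff_lifts] at hlift ⊢
    intro k
    obtain ⟨c, hc⟩ := hlift k
    refine ⟨⟨P.coeff k, ?_, ?_⟩, rfl⟩
    · rw [← hc]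
      exact c.2
    · have h2 := congrArg (fun Q : Polynomial Ω => Q.coeff k) hmap
      simp only [Polynomial.coeff_map] at h2
      exact h2
  obtain ⟨q, hq, _, hqm⟩ := Polynomial.lifts_and_natDegree_eq_and_monic hlift2 hmon
  refine ⟨q, hqm.ne_zero, ?_⟩
  rw [Polynomial.aeval_def, ← Polynomial.eval_map, hq, hP, Polynomial.eval_prod]
  refine Finset.prod_eq_zero (Finset.mem_range.2 hn) ?_
  simp

theorem R_A0f (h0 : st_A0) : st_A0f := by
  intro C Ω _ _ _ _ _ N σ n hF hσ hN hn hp
  refine ⟨a0_fix N σ hσ, fun z => Iff.rfl, ?_, fun z hz => a0_alg N σ n hσ hN hn hp hz⟩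
  exact h0 C Ω (a0_fix N σ hσ) N (fun z hz => hz.1) hF (fun z hz => a0_alg N σ n hσ hN hn hp hz)

theorem R_A0g : st_A0g := by
  intro C Ω _ _ _ _ _ N hF
  refine ⟨?_, ?_⟩
  · obtain ⟨t, ht⟩ := hF.ex
    have hfin := hF.fin t ht
    have hE : Algebra.EssFiniteType C N := by
      have h1 : (IntermediateField.adjoin C ({t} : Set N)).FG :=
        IntermediateField.fg_adjoin_of_finite (Set.finite_singleton t)
      have h2 : Algebra.EssFiniteType C (IntermediateField.adjoin C ({t} : Set N)) :=
        IntermediateField.essFiniteType_iff.2 h1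
      exact Algebra.EssFiniteType.comp C (IntermediateField.adjoin C ({t} : Set N)) N
    obtain ⟨S, hS⟩ := IntermediateField.essFiniteType_iff.1 hE
    exact ⟨S, hS.symm⟩
  · intro N₀ hle hF₀ z hz
    obtain ⟨t, ht⟩ := hF₀.ex
    have hfin := hF.fin _ (a0_tr hle ht)
    have h1 : IsAlgebraic (IntermediateField.adjoin C {IntermediateField.inclusion hle t})
        (⟨z, hz⟩ : N) := Algebra.IsAlgebraic.isAlgebraic _
    have h2 : IsAlgebraic (IntermediateField.adjoin C {IntermediateField.inclusion hle t}) z :=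
      h1.algebraMap (A := Ω)
    refine h2a_int ?_ h2
    intro a
    have h3 : (a : N) ∈ (IntermediateField.adjoin C ({t} : Set N₀)).map
        (IntermediateField.inclusion hle) := by
      rw [a0_map hle t]
      exact a.2
    obtain ⟨b, hb, hba⟩ := h3
    refine ⟨b, ?_⟩
    have h4 := congrArg (fun x : N => (x : Ω)) hba
    exact h4

end SGT
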