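import Pool.Agent.SGT.StA

/-!
# [SGT-A9] stable levels (MP_3dd09b_ag)
-/

set_option autoImplicit false
set_option linter.unusedVariables false

open GT IsLocalRing Polynomial

namespace SGT

/-- `Gr` is closed under composition. -/
private lemma a9_comp {C Ω : Type} [Field C] [Field Ω] [Algebra C Ω] {F L : Set Ω}
    {σ τ : Ω ≃+* Ω} (hσ : Gr C F L σ) (hτ : Gr C F L τ) : Gr C F L (τ.trans σ) := by
  refine ⟨?_, ?_, ?_⟩
  · intro z hz
    show σ (τ z) = z
    rw [hτ.1 z hz, hσ.1 z hz]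
  · intro z
    show σ (τ z) ∈ L ↔ z ∈ L
    rw [hσ.2.1 (τ z), hτ.2.1 z]
  · intro z
    show σ (τ z) ∈ Set.range (algebraMap C Ω) ↔ z ∈ Set.range (algebraMap C Ω)
    rw [hσ.2.2 (τ z), hτ.2.2 z]

/-- An automorphism which fixes the coefficients of `p` permutes the roots of `p`. -/
private lemma a9_root {Ω : Type} [Field Ω] {F : Set Ω} {σ : Ω ≃+* Ω} (hσ : Tri σ F)
    {p : Polynomial Ω} (hp : ∀ n, p.coeff n ∈ F) {z : Ω} (hz : p.eval z = 0) :
    p.eval (σ z) = 0 := by
  have h1 : p.map (σ : Ω →+* Ω) = p := by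
    ext n
    rw [Polynomial.coeff_map]
    exact hσ _ (hp n)
  calc p.eval (σ z) = (p.map (σ : Ω →+* Ω)).eval (σ z) := by rw [h1]
    _ = p.eval₂ (σ : Ω →+* Ω) ((σ : Ω →+* Ω) z) := by rw [Polynomial.eval_map]; rfl
    _ = (σ : Ω →+* Ω) (p.eval z) := by rw [Polynomial.eval₂_at_apply]
    _ = 0 := by rw [hz, map_zero]

/-- Roots of polynomials with coefficients in `F` are algebraic over `C(F)`. -/
private lemma a9_alg {C Ω : Type} [Field C] [Field Ω] [Algebra C Ω] {F : Set Ω}
    {p : Polynomial Ω} (h0 : p ≠ 0) (hp : ∀ n, p.coeff n ∈ F) {z : Ω} (hz : p.eval z = 0) :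
    IsAlgebraic (IntermediateField.adjoin C F) z := by
  have h1 : p ∈ Polynomial.lifts (algebraMap (IntermediateField.adjoin C F) Ω) := by
    rw [Polynomial.lifts_iff_coeff_lifts]
    intro n
    exact ⟨⟨p.coeff n, IntermediateField.subset_adjoin C F (hp n)⟩, rfl⟩
  obtain ⟨q, hq⟩ := (Polynomial.mem_lifts _).1 h1
  refine ⟨q, ?_, ?_⟩
  · rintro rfl
    rw [Polynomial.map_zero] at hq
    exact h0 hq.symm
  · rw [Polynomial.aeval_def, ← Polynomial.eval_map, hq, hz]

theorem R_A9 : st_A9 := by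
  classical
  intro C Ω _ _ _ _ _ F L hFL hFF halg S hS
  choose! p hp0 hpF hpz using halg
  set T : Set Ω := {w | ∃ z ∈ S, ∃ σ : Ω ≃+* Ω, Gr C (F : Set Ω) (L : Set Ω) σ ∧ σ z = w} with hT
  have hTroot : ∀ w ∈ T, ∃ z ∈ S, (p z).eval w = 0 := by
    rintro w ⟨z, hz, σ, hσ, rfl⟩
    exact ⟨z, hz, a9_root hσ.1 (hpF z (hS z hz)) (hpz z (hS z hz))⟩
  have hTfin : T.Finite := by
    refine (S.biUnion fun z => (p z).roots.toFinset).finite_toSet.subset ?_
    intro w hw
    obtain ⟨z, hz, h⟩ := hTroot w hw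
    rw [Finset.mem_coe, Finset.mem_biUnion]
    refine ⟨z, hz, ?_⟩
    rw [Multiset.mem_toFinset, Polynomial.mem_roots (hp0 z (hS z hz))]
    exact h
  have hTL : ∀ w ∈ T, w ∈ L := by
    rintro w ⟨z, hz, σ, hσ, rfl⟩
    exact (hσ.2.1 z).2 (hS z hz)
  set F' : IntermediateField C Ω := IntermediateField.adjoin C (F : Set Ω) with hF'
  have hFF' : F' ≤ L := by
    rw [hF', IntermediateField.adjoin_le_iff]
    exact hFL
  set N : IntermediateField C Ω :=
    IntermediateField.adjoin C ((F' : Set Ω) ∪ (hTfin.toFinset : Set Ω)) with hN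
  have hsub : ∀ z ∈ (F' : Set Ω) ∪ (hTfin.toFinset : Set Ω), z ∈ N :=
    fun z hz => IntermediateField.subset_adjoin C _ hz
  have hFN : ∀ z ∈ (F : Set Ω), z ∈ N := fun z hz =>
    hsub z (Or.inl (IntermediateField.subset_adjoin C _ hz))
  have hTN : ∀ z ∈ T, z ∈ N := fun z hz => hsub z (Or.inr (by simpa using hz))
  refine ⟨N, ⟨hFN, ?_, ?_, ?_⟩, ?_⟩
  · rw [hN, IntermediateField.adjoin_le_iff]
    rintro z (hz | hz)
    · exact hFF' hz
    · exact hTL z (by simpa using hz)
  · refine ff_sup F' hFF hTfin.toFinset ?_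
    intro w hw
    obtain ⟨z, hz, h⟩ := hTroot w (by simpa using hw)
    exact a9_alg (hp0 z (hS z hz)) (hpF z (hS z hz)) h
  · intro σ hσ
    have hC : ∀ c : C, σ (algebraMap C Ω c) ∈ N := by
      intro c
      obtain ⟨c', hc'⟩ := (hσ.2.2 (algebraMap C Ω c)).2 ⟨c, rfl⟩
      rw [← hc']
      exact N.algebraMap_mem c'
    have hF1 : ∀ z ∈ F', σ z ∈ N := by
      intro z hz
      induction hz using IntermediateField.adjoin_induction with
      | mem x hx =>
        rw [hσ.1 x hx]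
        exact hFN x hx
      | algebraMap x => exact hC x
      | add x y _ _ h1 h2 =>
        rw [map_add]
        exact add_mem h1 h2
      | inv x _ h1 =>
        rw [map_inv₀]
        exact inv_mem h1
      | mul x y _ _ h1 h2 =>
        rw [map_mul]
        exact mul_mem h1 h2
    intro z hz
    induction hz using IntermediateField.adjoin_induction with
    | mem x hx =>
      rcases hx with hx | hx
      · exact hF1 x hx
      · obtain ⟨z, hz, τ, hτ, rfl⟩ : x ∈ T := by simpa using hx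
        exact hTN _ ⟨z, hz, τ.trans σ, a9_comp hσ hτ, rfl⟩
    | algebraMap x => exact hC x
    | add x y _ _ h1 h2 =>
      rw [map_add]
      exact add_mem h1 h2
    | inv x _ h1 =>
      rw [map_inv₀]
      exact inv_mem h1
    | mul x y _ _ h1 h2 =>
      rw [map_mul]
      exact mul_mem h1 h2
  · intro z hz
    refine hTN z ⟨z, hz, RingEquiv.refl Ω, ⟨fun _ _ => rfl, fun _ => Iff.rfl, fun _ => Iff.rfl⟩, rfl⟩

end SGT
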