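import Pool.Agent.SGT.StT

/-!
# [SGT-P1] ℚ and finitely generated fields have enough places (MP_3dd09b_ag)
-/

set_option autoImplicit false
set_option linter.unusedVariables false

open GT IsLocalRing Polynomial

namespace SGT

/-- A height one prime with finite residue field of a Dedekind domain gives a discrete valuation
ring with finite residue field. -/
private theorem p1_ded {R K : Type} [CommRing R] [IsDedekindDomain R] [Field K] [Algebra R K]
    [IsFractionRing R K] (v : IsDedekindDomain.HeightOneSpectrum R) (hfin : Finite (R ⧸ v.asIdeal)) :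
    IsDiscreteValuationRing (v.valuation K).valuationSubring ∧
      Finite (ResidueField (v.valuation K).valuationSubring) := by
  have : (v.valuation K).IsRankOneDiscrete := Valuation.IsRankOneDiscrete.mk' (v.valuation K)
  refine ⟨Valuation.valuationSubring_isDiscreteValuationRing (v.valuation K), ?_⟩
  obtain ⟨A, hA⟩ : ∃ A : ValuationSubring K, A = (v.valuation K).valuationSubring := ⟨_, rfl⟩
  rw [← hA]
  have hmem : ∀ z : K, z ∈ A ↔ v.valuation K z ≤ 1 := by
    intro z
    rw [hA]
    exact Valuation.mem_valuationSubring_iff _ _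
  have hnon : ∀ z : A, v.valuation K (z : K) < 1 → z ∈ maximalIdeal A := by
    intro z hz
    rw [mem_maximalIdeal, mem_nonunits_iff]
    intro hu
    obtain ⟨w, hw⟩ := hu.exists_right_inv
    have h1 : v.valuation K (z : K) * v.valuation K (w : K) = 1 := by
      rw [← map_mul]
      have : (z : K) * (w : K) = 1 := by
        have := congrArg (fun t : A => (t : K)) hw
        simpa using this
      rw [this, map_one]
    have h2 := (hmem (w : K)).1 w.2
    have h3 : v.valuation K (z : K) * v.valuation K (w : K) < 1 :=
      lt_of_le_of_lt (mul_le_of_le_one_right' h2) hz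
    exact absurd h1 h3.ne
  let f : R →+* A := (algebraMap R K).codRestrict A.toSubring (fun r => by
    rw [ValuationSubring.mem_toSubring, hmem]
    exact v.valuation_le_one r)
  have hf : ∀ r, ((f r : A) : K) = algebraMap R K r := fun r => rfl
  let g : R →+* ResidueField A := (residue A).comp f
  have hg : ∀ a ∈ v.asIdeal, g a = 0 := by
    intro a ha
    show residue A (f a) = 0
    rw [residue_eq_zero_iff]
    apply hnon
    rw [hf]
    exact (v.valuation_lt_one_iff_mem a).2 ha
  have hsurj : Function.Surjective (Ideal.Quotient.lift v.asIdeal g hg) := by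
    intro x
    obtain ⟨z, rfl⟩ := residue_surjective x
    obtain ⟨a, ha⟩ := v.exists_valuation_sub_lt_of_integer ((hmem (z : K)).1 z.2) 1
    refine ⟨Ideal.Quotient.mk _ a, ?_⟩
    rw [Ideal.Quotient.lift_mk]
    show residue A (f a) = residue A z
    rw [← sub_eq_zero, ← map_sub, residue_eq_zero_iff]
    apply hnon
    rw [AddSubgroupClass.coe_sub, hf]
    simpa using ha
  exact Finite.of_surjective _ hsurj

theorem R_P1 : st_P1 := by
  intro T
  -- a prime larger than all denominators
  obtain ⟨p, hp1, hp⟩ := Nat.exists_infinite_primes (T.sup (fun t => t.den) + 1)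
  have hpp : Prime (p : ℤ) := Nat.prime_iff_prime_int.1 hp
  have hpn : (Ideal.span {(p : ℤ)}) ≠ ⊥ := by
    rw [Ne, Ideal.span_singleton_eq_bot]
    exact_mod_cast hp.ne_zero
  have hprime : (Ideal.span {(p : ℤ)}).IsPrime := (Ideal.span_singleton_prime hpp.ne_zero).2 hpp
  let v : IsDedekindDomain.HeightOneSpectrum ℤ := ⟨Ideal.span {(p : ℤ)}, hprime, hpn⟩
  have hfin : Finite (ℤ ⧸ v.asIdeal) := by
    show Finite (ℤ ⧸ Ideal.span {(p : ℤ)})
    have : NeZero p := ⟨hp.ne_zero⟩
    exact Finite.of_equiv _ (Int.quotientSpanNatEquivZMod p).symm.toEquiv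
  obtain ⟨h1, h2⟩ := p1_ded (K := ℚ) v hfin
  refine ⟨_, ?_, h1, h2⟩
  intro t ht
  rw [Valuation.mem_valuationSubring_iff]
  have hden : ((t.den : ℤ)) ∉ v.asIdeal := by
    show ((t.den : ℤ)) ∉ Ideal.span {(p : ℤ)}
    rw [Ideal.mem_span_singleton]
    intro hd
    have hd' : p ∣ t.den := by exact_mod_cast hd
    have h3 := Nat.le_of_dvd t.den_pos hd'
    have h4 : t.den ≤ T.sup (fun t => t.den) := Finset.le_sup (f := fun t : ℚ => t.den) ht
    omega
  have hv1 : v.valuation ℚ (algebraMap ℤ ℚ (t.den : ℤ)) = 1 := v.valuation_eq_one_iff_notMem.2 hden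
  have hv2 : v.valuation ℚ (algebraMap ℤ ℚ t.num) ≤ 1 := v.valuation_le_one _
  have ht' : t * (algebraMap ℤ ℚ (t.den : ℤ)) = algebraMap ℤ ℚ t.num := by
    simpa using Rat.mul_den_eq_num t
  have h5 : v.valuation ℚ t * v.valuation ℚ (algebraMap ℤ ℚ (t.den : ℤ)) = v.valuation ℚ (algebraMap ℤ ℚ t.num) := by
    rw [← map_mul, ht']
  rw [hv1, mul_one] at h5
  rw [h5]
  exact hv2

theorem R_P4 (h1 : st_P1) (h2 : st_P2) (h3 : st_P3) : st_P4 := by
  intro k _ _ hS
  obtain ⟨S, hS⟩ := hS
  classical
  have key : ∀ S : Finset k, HasPl (IntermediateField.adjoin ℚ (S : Set k)) := by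
    intro S
    induction S using Finset.induction_on with
    | empty =>
      have hb : IntermediateField.adjoin ℚ ((∅ : Finset k) : Set k) = ⊥ := by simp
      have hf : FiniteDimensional ℚ (IntermediateField.adjoin ℚ ((∅ : Finset k) : Set k)) := by
        rw [hb]
        infer_instance
      exact h2 ℚ _ h1
    | insert s S hs ih =>
      obtain ⟨K₁, hK₁⟩ : ∃ K₁ : IntermediateField ℚ k, K₁ = IntermediateField.adjoin ℚ (S : Set k) := ⟨_, rfl⟩
      obtain ⟨K₂, hK₂⟩ : ∃ K₂ : IntermediateField ℚ k, K₂ = IntermediateField.adjoin ℚ ((insert s S : Finset k) : Set k) := ⟨_, rfl⟩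
      rw [← hK₁] at ih
      rw [← hK₂]
      have hle : K₁ ≤ K₂ := by
        rw [hK₁, hK₂]
        exact IntermediateField.adjoin.mono ℚ _ _ (by simp)
      have hs2 : s ∈ K₂ := by
        rw [hK₂]
        exact IntermediateField.subset_adjoin ℚ _ (by simp)
      letI : Algebra K₁ K₂ := (IntermediateField.inclusion hle).toRingHom.toAlgebra
      have hmap : ∀ z : K₁, ((algebraMap K₁ K₂ z : K₂) : k) = (z : k) := fun z => rfl
      haveI : IsScalarTower K₁ K₂ k := IsScalarTower.of_algebraMap_eq (fun z => rfl)
      -- `K₂ = K₁(s)`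
      have htop : IntermediateField.adjoin K₁ {(⟨s, hs2⟩ : K₂)} = ⊤ := by
        rw [eq_top_iff]
        rintro z -
        -- the image in `k`
        have hz : ∀ w ∈ K₂, ∀ hw : w ∈ K₂, (⟨w, hw⟩ : K₂) ∈ IntermediateField.adjoin K₁ {(⟨s, hs2⟩ : K₂)} := by
          intro w hw
          rw [hK₂] at hw
          induction hw using IntermediateField.adjoin_induction with
          | mem x hx =>
            intro hw
            rw [Finset.mem_coe, Finset.mem_insert] at hx
            rcases hx with rfl | hx
            · exact IntermediateField.subset_adjoin K₁ _ rfl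
            · have hx1 : x ∈ K₁ := by
                rw [hK₁]
                exact IntermediateField.subset_adjoin ℚ _ hx
              exact IntermediateField.algebraMap_mem _ (⟨x, hx1⟩ : K₁)
          | algebraMap q =>
            intro hw
            exact IntermediateField.algebraMap_mem _ (algebraMap ℚ K₁ q)
          | add x y hx hy ihx ihy =>
            intro hw
            rw [← hK₂] at hx hy
            exact add_mem (ihx hx) (ihy hy)
          | inv x hx ihx =>
            intro hw
            rw [← hK₂] at hx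
            exact inv_mem (ihx hx)
          | mul x y hx hy ihx ihy =>
            intro hw
            rw [← hK₂] at hx hy
            exact mul_mem (ihx hx) (ihy hy)
        exact hz z.1 z.2 z.2
      by_cases halg : IsAlgebraic K₁ (⟨s, hs2⟩ : K₂)
      · have hf : FiniteDimensional K₁ (IntermediateField.adjoin K₁ {(⟨s, hs2⟩ : K₂)}) :=
          IntermediateField.adjoin.finiteDimensional halg.isIntegral
        have hf2 : FiniteDimensional K₁ K₂ := by
          rw [htop] at hf
          exact Module.Finite.equiv IntermediateField.topEquiv.toLinearEquiv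
        exact h2 K₁ K₂ ih
      · have hcount : Countable K₁ := by
          rw [← Cardinal.mk_le_aleph0_iff, hK₁]
          refine (IntermediateField.cardinalMk_adjoin_le ℚ (S : Set k)).trans ?_
          simp only [max_le_iff]
          refine ⟨⟨Cardinal.mk_le_aleph0, ?_⟩, le_rfl⟩
          exact Cardinal.mk_le_aleph0
        exact h3 K₁ K₂ ⟨s, hs2⟩ halg htop ih
  have h4 := key S
  rw [hS] at h4
  have hf : FiniteDimensional (⊤ : IntermediateField ℚ k) k :=
    Module.Finite.of_surjective (LinearMap.toSpanSingleton (⊤ : IntermediateField ℚ k) k 1) (fun z => ⟨⟨z, IntermediateField.mem_top⟩, by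
      rw [LinearMap.toSpanSingleton_apply]
      show z * 1 = z
      rw [mul_one]⟩)
  exact h2 (⊤ : IntermediateField ℚ k) k h4

end SGT
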