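import Pool.Agent.SGT.StT

/-!
# [SGT-T3] valuation rings of C with Frobenius (MP_3dd09b_ag)
-/

set_option autoImplicit false
set_option linter.unusedVariables false

open GT IsLocalRing Polynomial

namespace SGT

/-- Iteration of a power map with a fixed point. -/
private theorem t3_iter {R : Type} [Monoid R] {x : R} {a : ℕ} (h : x ^ a = x) (n : ℕ) :
    x ^ a ^ n = x := by
  induction n with
  | zero => rw [pow_zero, pow_one]
  | succ n ih => rw [pow_succ, pow_mul, ih, h]

theorem R_T3 : st_T3 := by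
  intro k C _ _ _ _ _ _ hPl p hp S
  classical
  have : IsAlgClosure k C := ⟨inferInstance, inferInstance⟩
  have : Normal k C := IsAlgClosure.normal k C
  have : IsGalois k C := ⟨⟩
  obtain ⟨T, hT⟩ := GT.exists_spread (k := k) S
  obtain ⟨A, hA, hdvr, hfin⟩ := hPl (insert ((p : k)⁻¹) T)
  obtain ⟨V, hV⟩ := SC2.exists_above (C := C) A
  have hgood := hT A (fun t ht => hA t (Finset.mem_insert_of_mem ht)) V hV
  obtain ⟨φ, hφ⟩ := SC2.exists_frob (k := k) (C := C) hV
  have hp0 : (p : C) ≠ 0 := by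
    have : CharZero C := charZero_of_injective_algebraMap (algebraMap k C).injective
    exact Nat.cast_ne_zero.2 hp.ne_zero
  refine ⟨V, φ, Nat.card (ResidueField A), hgood.mem, GT.rk1_of hV, ?_, Finite.one_lt_card, ?_⟩
  · have hinv : ((p : C)⁻¹) ∈ V := by
      have h1 : algebraMap k C ((p : k)⁻¹) ∈ V := (hV _).2 (hA _ (Finset.mem_insert_self _ _))
      rwa [map_inv₀, map_natCast] at h1
    refine IsUnit.of_mul_eq_one (⟨(p : C)⁻¹, hinv⟩ : V) ?_
    apply Subtype.ext
    change ((p : V) : C) * (p : C)⁻¹ = 1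
    rw [show ((p : V) : C) = (p : C) from rfl]
    exact mul_inv_cancel₀ hp0
  · intro n hn
    have hn' := SC2.frob_pow hφ n
    refine ⟨fun z => hn'.stab z, fun z hz => hn'.frob z hz, fun x => ?_⟩
    obtain ⟨m, hm, hx⟩ := GT.residue_pow hV x
    refine ⟨m, hm, ?_⟩
    rw [← pow_mul, mul_comm n m, pow_mul]
    exact t3_iter hx n

end SGT
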