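import Pool.Agent.SGT.Defs

/-!
# SGT: statements of the rows A (function fields) and C (extension of the constants), N
-/

set_option autoImplicit false
set_option linter.unusedVariables false

open GT IsLocalRing Polynomial

noncomputable section

namespace SGT

/-- [A0] A subfield over which a function field is algebraic is a function field. -/
def st_A0 : Prop := ∀ (C Ω : Type) [Field C] [CharZero C] [IsAlgClosed C] [Field Ω] [Algebra C Ω]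
  (N₀ N : IntermediateField C Ω), N₀ ≤ N → FF C N → (∀ z ∈ N, IsAlgebraic N₀ z) → FF C N₀

/-- [A0f] The fixed field of an automorphism of finite order. -/
def st_A0f : Prop := ∀ (C Ω : Type) [Field C] [CharZero C] [IsAlgClosed C] [Field Ω] [Algebra C Ω]
  (N : IntermediateField C Ω) (σ : Ω ≃+* Ω) (n : ℕ), FF C N → Lin C σ → (∀ z ∈ N, σ z ∈ N) → 0 < n →
  (∀ z ∈ N, (σ ^ n) z = z) → ∃ N₀ : IntermediateField C Ω, (∀ z, z ∈ N₀ ↔ z ∈ N ∧ σ z = z) ∧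
    FF C N₀ ∧ ∀ z ∈ N, IsAlgebraic N₀ z

/-- [A0g] A function field over `C` contains a finite set of generators; two function fields, one
inside the other, are algebraic. -/
def st_A0g : Prop := ∀ (C Ω : Type) [Field C] [CharZero C] [IsAlgClosed C] [Field Ω] [Algebra C Ω]
  (N : IntermediateField C Ω), FF C N → (∃ S : Finset Ω, N = IntermediateField.adjoin C (S : Set Ω)) ∧
    ∀ N₀ : IntermediateField C Ω, N₀ ≤ N → FF C N₀ → ∀ z ∈ N, IsAlgebraic N₀ z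

/-- [A1] An eigenvector of an automorphism of finite order. -/
def st_A1 : Prop := ∀ (C Ω : Type) [Field C] [CharZero C] [IsAlgClosed C] [Field Ω] [Algebra C Ω]
  (N : IntermediateField C Ω) (σ : Ω ≃+* Ω) (n : ℕ), Lin C σ → (∀ z ∈ N, σ z ∈ N) → 0 < n →
  ∀ z ∈ N, (σ ^ n) z = z → σ z ≠ z →
    ∃ (p : ℕ) (ρ : Ω) (ζ : C), p.Prime ∧ p ∣ n ∧ ρ ∈ N ∧ ρ ≠ 0 ∧ IsPrimitiveRoot ζ p ∧
      σ ρ = algebraMap C Ω ζ * ρ

/-- [A2] The ramification index divides the order of the stabiliser. -/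
def st_A2 : Prop := ∀ (C N N' : Type) [Field C] [CharZero C] [IsAlgClosed C] [Field N] [Field N']
  [Algebra C N] [Algebra C N'] (i : N →+* N'), (∀ c : C, i (algebraMap C N c) = algebraMap C N' c) →
  FF C N → FF C N' → (∀ z : N', ∃ p : Polynomial N, p ≠ 0 ∧ p.eval₂ i z = 0) →
  (∀ z : N', (∀ g : N' ≃+* N', (∀ w : N, g (i w) = i w) → g z = z) → ∃ w : N, i w = z) →
  ∀ P : ValuationSubring N', IsPl C P →
    Finite {g : N' ≃+* N' // (∀ w : N, g (i w) = i w) ∧ ∀ z, g z ∈ P ↔ z ∈ P} ∧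
    ∃ e : ℕ, 0 < e ∧
      e ∣ Nat.card {g : N' ≃+* N' // (∀ w : N, g (i w) = i w) ∧ ∀ z, g z ∈ P ↔ z ∈ P} ∧
      ∀ f : N, f ≠ 0 → od C P (i f) = e * od C (P.comap i) f

/-- [A3] An automorphism which stabilises a place acts trivially on the residue field. -/
def st_A3 : Prop := ∀ (C Ω : Type) [Field C] [CharZero C] [IsAlgClosed C] [Field Ω] [Algebra C Ω]
  (N : IntermediateField C Ω) (σ : Ω ≃+* Ω) (P : ValuationSubring Ω), FF C N → Lin C σ →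
  Plc C (N : Set Ω) P → StP σ (N : Set Ω) P →
  (∀ z ∈ N, z ∈ P → ∃ c : C, z - algebraMap C Ω c ∈ P.nonunits) ∧
  (∀ z ∈ N, z ∈ P → σ z - z ∈ P.nonunits) ∧
  (∀ z ∈ N, z ≠ 0 → z ∈ P → z⁻¹ ∈ P → σ z / z - 1 ∈ P.nonunits) ∧
  ∀ c : C, algebraMap C Ω c ∈ P.nonunits → c = 0

/-- [A4] The character of an automorphism which stabilises a place. -/
def st_A4 : Prop := ∀ (C Ω : Type) [Field C] [CharZero C] [IsAlgClosed C] [Field Ω] [Algebra C Ω]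
  (N : IntermediateField C Ω) (σ : Ω ≃+* Ω) (P : ValuationSubring Ω), FF C N → Lin C σ →
  Sta σ (N : Set Ω) → Plc C (N : Set Ω) P → StP σ (N : Set Ω) P →
  ∃ c : C, c ≠ 0 ∧ (∀ z : N, z ≠ 0 →
      σ (z : Ω) / z - algebraMap C Ω (c ^ (od C (rs N P) z)) ∈ P.nonunits) ∧
    ∀ n : ℕ, 0 < n → (∀ z ∈ N, (σ ^ n) z = z) → c ^ n = 1 ∧ (c = 1 → Tri σ (N : Set Ω))

/-- [A5] An automorphism of prime order of `L` has a fixed place on every level. -/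
def st_A5 : Prop := ∀ (C Ω : Type) [Field C] [CharZero C] [IsAlgClosed C] [Field Ω] [IsAlgClosed Ω]
  [Algebra C Ω] (L N : IntermediateField C Ω) (σ : Ω ≃+* Ω) (ℓ : ℕ), N ≤ L → FF C N → KC L →
  Lin C σ → (∀ z ∈ N, σ z ∈ N) → ℓ.Prime → (∀ z ∈ L, (σ ^ ℓ) z = z) → (∃ z ∈ N, σ z ≠ z) →
  ∃ P : ValuationSubring Ω, Plc C (N : Set Ω) P ∧ StP σ (N : Set Ω) P

/-- [A6a] Places fixed by an automorphism of prime order are totally ramified. -/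
def st_A6a : Prop := ∀ (C Ω : Type) [Field C] [CharZero C] [IsAlgClosed C] [Field Ω] [Algebra C Ω]
  (N N₀ : IntermediateField C Ω) (σ : Ω ≃+* Ω) (ℓ : ℕ) (P : ValuationSubring Ω), FF C N → Lin C σ →
  (∀ z ∈ N, σ z ∈ N) → ℓ.Prime → (∀ z ∈ N, (σ ^ ℓ) z = z) → (∃ z ∈ N, σ z ≠ z) →
  (∀ z, z ∈ N₀ ↔ z ∈ N ∧ σ z = z) → Plc C (N : Set Ω) P → StP σ (N : Set Ω) P →
  (∀ (z : Ω) (h0 : z ∈ N₀) (h : z ∈ N), z ≠ 0 →
    od C (rs N P) ⟨z, h⟩ = ℓ * od C (rs N₀ P) ⟨z, h0⟩) ∧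
  ∀ O : ValuationSubring Ω, Plc C (N : Set Ω) O → Eqv (N₀ : Set Ω) O P → Eqv (N : Set Ω) O P

/-- [A6] There are no three fixed places of which two come from `L`. -/
def st_A6 : Prop := ∀ (C Ω : Type) [Field C] [CharZero C] [IsAlgClosed C] [Field Ω] [IsAlgClosed Ω]
  [Algebra C Ω] (L N : IntermediateField C Ω) (σ : Ω ≃+* Ω) (ℓ : ℕ), N ≤ L → FF C N → KC L →
  Lin C σ → (∀ z ∈ N, σ z ∈ N) → (∀ z ∈ L, σ z ∈ L) → ℓ.Prime → (∀ z ∈ L, (σ ^ ℓ) z = z) →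
  (∃ z ∈ N, σ z ≠ z) → ∀ P Q R : ValuationSubring Ω, Plc C (N : Set Ω) P → Plc C (N : Set Ω) Q →
  Plc C (N : Set Ω) R → StP σ (L : Set Ω) P → StP σ (L : Set Ω) Q → StP σ (N : Set Ω) R →
  ¬ Eqv (N : Set Ω) P Q → ¬ Eqv (N : Set Ω) P R → ¬ Eqv (N : Set Ω) Q R → False

/-- [A7] Compactness: fixed places on all stable levels give a fixed place on `L`. -/
def st_A7 : Prop := ∀ (C Ω : Type) [Field C] [CharZero C] [IsAlgClosed C] [Field Ω] [Algebra C Ω]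
  (F : Set Ω) (L : IntermediateField C Ω) (σ : Ω ≃+* Ω) (n : ℕ), Lvs F L → Gr C F (L : Set Ω) σ →
  Lin C σ → 0 < n → (∀ z ∈ L, (σ ^ n) z = z) → (∃ z ∈ L, σ z ≠ z) →
  (∀ N : IntermediateField C Ω, SLv F L N →
    ∃ P : ValuationSubring Ω, Plc C (N : Set Ω) P ∧ StP σ (N : Set Ω) P) →
  ∃ P : ValuationSubring Ω, Plc C (L : Set Ω) P ∧ StP σ (L : Set Ω) P

/-- [A8a] An automorphism of prime order of `L` has a fixed place. -/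
def st_A8a : Prop := ∀ (C Ω : Type) [Field C] [CharZero C] [IsAlgClosed C] [Field Ω] [IsAlgClosed Ω]
  [Algebra C Ω] (F : Set Ω) (L : IntermediateField C Ω) (σ : Ω ≃+* Ω) (ℓ : ℕ), Lvs F L →
  Gr C F (L : Set Ω) σ → Lin C σ → KC L → ℓ.Prime → (∀ z ∈ L, (σ ^ ℓ) z = z) → (∃ z ∈ L, σ z ≠ z) →
  ∃ P : ValuationSubring Ω, Plc C (L : Set Ω) P ∧ StP σ (L : Set Ω) P

/-- [A8b] `Gal(L / E)` is torsion-free. -/
def st_A8b : Prop := ∀ (C Ω : Type) [Field C] [CharZero C] [IsAlgClosed C] [Field Ω] [IsAlgClosed Ω]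
  [Algebra C Ω] (F : Set Ω) (L E : IntermediateField C Ω), Lvs F L → F ⊆ E → E ≤ L → KC L →
  Nor E L → ∀ g : Ω ≃+* Ω, Tri g (E : Set Ω) → Sta g (L : Set Ω) → ∀ n : ℕ, 0 < n →
  (∀ z ∈ L, (g ^ n) z = z) → Tri g (L : Set Ω)

/-- [A8] The fixed place of an automorphism of prime order with three fixed places on `E`. -/
def st_A8 : Prop := ∀ (C Ω : Type) [Field C] [CharZero C] [IsAlgClosed C] [Field Ω] [IsAlgClosed Ω]
  [Algebra C Ω] (F : Set Ω) (L E : IntermediateField C Ω), Lvs F L → F ⊆ E → E ≤ L → FF C E →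
  KC L → Nor E L → ∀ (e : Ω ≃+* Ω) (ℓ : ℕ), ℓ.Prime → Lin C e → Gr C F (L : Set Ω) e →
  Sta e (E : Set Ω) → (∀ z ∈ L, (e ^ ℓ) z = z) → (∃ z ∈ E, e z ≠ z) →
  (∃ P : Fin 3 → ValuationSubring Ω, (∀ i, Plc C (E : Set Ω) (P i) ∧ StP e (E : Set Ω) (P i)) ∧
    ∀ i j, i ≠ j → ¬ Eqv (E : Set Ω) (P i) (P j)) →
  ∃ P : ValuationSubring Ω, Plc C (L : Set Ω) P ∧ StP e (L : Set Ω) P ∧
    (∀ Q : ValuationSubring Ω, Plc C (L : Set Ω) Q → StP e (L : Set Ω) Q → Eqv (L : Set Ω) Q P) ∧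
    ∀ g : Ω ≃+* Ω, Tri g (E : Set Ω) → Sta g (L : Set Ω) → (∀ z ∈ L, g (e z) = e (g z)) →
      Tri g (L : Set Ω)

/-- [A9] Stable levels exist. -/
def st_A9 : Prop := ∀ (C Ω : Type) [Field C] [CharZero C] [IsAlgClosed C] [Field Ω] [Algebra C Ω]
  (F : Subfield Ω) (L : IntermediateField C Ω), (F : Set Ω) ⊆ L →
  FF C (IntermediateField.adjoin C (F : Set Ω)) →
  (∀ z ∈ L, ∃ p : Polynomial Ω, p ≠ 0 ∧ (∀ n, p.coeff n ∈ F) ∧ p.eval z = 0) → Lvs (F : Set Ω) L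

/-- [A10] `Nor` implies `UR`. -/
def st_A10 : Prop := ∀ (C Ω : Type) [Field C] [CharZero C] [IsAlgClosed C] [Field Ω] [Algebra C Ω]
  (E L : IntermediateField C Ω), E ≤ L → Nor E L → UR E L

/-- [A11] A place of `L` is nontrivial on all levels, the residue field is `C`. -/
def st_A11 : Prop := ∀ (C Ω : Type) [Field C] [CharZero C] [IsAlgClosed C] [Field Ω] [Algebra C Ω]
  (F : Set Ω) (L : IntermediateField C Ω), Lvs F L → ∀ P : ValuationSubring Ω,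
  Plc C (L : Set Ω) P → (∀ N : IntermediateField C Ω, N ≤ L → FF C N → Plc C (N : Set Ω) P) ∧ Res L P

/-! ### extension of the constants -/

/-- [C0] The elements of `𝕜 L` as quotients of combinations of independent elements of `𝕜`. -/
def st_C0 : Prop := ∀ (C 𝕜 Ω : Type) [Field C] [Field 𝕜] [Field Ω] [Algebra C 𝕜] [Algebra 𝕜 Ω]
  [Algebra C Ω] [IsScalarTower C 𝕜 Ω] (L : IntermediateField C Ω),
  ∀ z ∈ IntermediateField.adjoin 𝕜 (L : Set Ω), ∃ (n : ℕ) (β : Fin (n + 1) → 𝕜)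
    (a b : Fin (n + 1) → Ω), LinearIndependent C β ∧ (∀ i, a i ∈ L) ∧ (∀ i, b i ∈ L) ∧
    ∑ i, algebraMap 𝕜 Ω (β i) * b i ≠ 0 ∧
    z * ∑ i, algebraMap 𝕜 Ω (β i) * b i = ∑ i, algebraMap 𝕜 Ω (β i) * a i

/-- [C1] Linear disjointness from a derivation. -/
def st_C1 : Prop := ∀ (C 𝕜 Ω : Type) [Field C] [Field 𝕜] [Field Ω] [Algebra C 𝕜] [Algebra 𝕜 Ω]
  [Algebra C Ω] [IsScalarTower C 𝕜 Ω] (L : IntermediateField C Ω) (D : Derivation ℤ Ω Ω),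
  (∀ z ∈ L, D z = 0) → (∀ β : 𝕜, ∃ β' : 𝕜, D (algebraMap 𝕜 Ω β) = algebraMap 𝕜 Ω β') →
  (∀ β : 𝕜, D (algebraMap 𝕜 Ω β) = 0 → ∃ c : C, algebraMap C 𝕜 c = β) → LDJ C 𝕜 (L : Set Ω)

/-- [C2] The Gauss valuation. -/
def st_C2 : Prop := ∀ (C 𝕜 Ω : Type) [Field C] [Field 𝕜] [Field Ω] [Algebra C 𝕜] [Algebra 𝕜 Ω]
  [Algebra C Ω] [IsScalarTower C 𝕜 Ω] (L : IntermediateField C Ω) (Q : ValuationSubring Ω),
  (∀ β : 𝕜, algebraMap 𝕜 Ω β ∈ Q) → Res L Q →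
  ∀ (n : ℕ) (β : Fin (n + 1) → 𝕜) (z : Fin (n + 1) → Ω), LinearIndependent C β → (∀ i, z i ∈ L) →
  ∃ i, (∀ j, Q.valuation (z j) ≤ Q.valuation (z i)) ∧
    Q.valuation (∑ j, algebraMap 𝕜 Ω (β j) * z j) = Q.valuation (z i) ∧
    (z i ≠ 0 → ∃ γ : 𝕜, γ ≠ 0 ∧
      (∑ j, algebraMap 𝕜 Ω (β j) * z j) / z i - algebraMap 𝕜 Ω γ ∈ Q.nonunits)

/-- [C3] Uniqueness of the extension of a place to `𝕜 L`, value group, residue field. -/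
def st_C3 : Prop := ∀ (C 𝕜 Ω : Type) [Field C] [Field 𝕜] [Field Ω] [Algebra C 𝕜] [Algebra 𝕜 Ω]
  [Algebra C Ω] [IsScalarTower C 𝕜 Ω] (L : IntermediateField C Ω) (Q : ValuationSubring Ω),
  (∀ β : 𝕜, algebraMap 𝕜 Ω β ∈ Q) → Res L Q →
  (∀ Q' : ValuationSubring Ω, (∀ β : 𝕜, algebraMap 𝕜 Ω β ∈ Q') → Eqv (L : Set Ω) Q Q' →
    Eqv (IntermediateField.adjoin 𝕜 (L : Set Ω) : Set Ω) Q Q') ∧
  (∀ z ∈ IntermediateField.adjoin 𝕜 (L : Set Ω), ∃ w ∈ L, Q.valuation z = Q.valuation w) ∧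
  ∀ z ∈ IntermediateField.adjoin 𝕜 (L : Set Ω), z ∈ Q → ∃ β : 𝕜, z - algebraMap 𝕜 Ω β ∈ Q.nonunits

/-- [C4] Existence of the extension of a place to `𝕜 L`. -/
def st_C4 : Prop := ∀ (C 𝕜 Ω : Type) [Field C] [Field 𝕜] [Field Ω] [Algebra C 𝕜] [Algebra 𝕜 Ω]
  [Algebra C Ω] [IsScalarTower C 𝕜 Ω] (L : IntermediateField C Ω) (P : ValuationSubring Ω),
  LDJ C 𝕜 (L : Set Ω) → (∀ c : C, algebraMap C Ω c ∈ P) →
  ∃ Q : ValuationSubring Ω, (∀ β : 𝕜, algebraMap 𝕜 Ω β ∈ Q) ∧ Eqv (L : Set Ω) Q P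

/-- [C5] `L ∩ 𝕜 N = N`. -/
def st_C5 : Prop := ∀ (C 𝕜 Ω : Type) [Field C] [Field 𝕜] [Field Ω] [Algebra C 𝕜] [Algebra 𝕜 Ω]
  [Algebra C Ω] [IsScalarTower C 𝕜 Ω] (L N : IntermediateField C Ω), LDJ C 𝕜 (L : Set Ω) → N ≤ L →
  ∀ z ∈ L, z ∈ IntermediateField.adjoin 𝕜 (N : Set Ω) → z ∈ N

/-- [NR] The extension `L / E` is normal and unramified if all automorphisms over `𝕜 E` which stabilise
a place are trivial on `L`. -/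
structure Inr (C 𝕜 : Type) {Ω : Type} [Field C] [Field 𝕜] [Field Ω] [Algebra C 𝕜] [Algebra 𝕜 Ω]
    [Algebra C Ω] (F : Set Ω) (E L : IntermediateField C Ω) : Prop where
  ldj : LDJ C 𝕜 (L : Set Ω)
  le : E ≤ L
  sub : F ⊆ E
  ff : FF C E
  fin : ∃ S : Finset Ω, E = IntermediateField.adjoin C (F ∪ (S : Set Ω))
  lvs : Lvs F L
  alg : ∀ z : Ω, IsAlgebraic (IntermediateField.adjoin 𝕜 (E : Set Ω)) z
  sta : ∀ g : Ω ≃+* Ω, Lin 𝕜 g → Tri g (E : Set Ω) → Sta g (L : Set Ω)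
  ine : ∀ g : Ω ≃+* Ω, Lin 𝕜 g → Tri g (E : Set Ω) → ∀ Q : ValuationSubring Ω,
    (∀ β : 𝕜, algebraMap 𝕜 Ω β ∈ Q) → Q ≠ ⊤ → (∀ z, g z ∈ Q ↔ z ∈ Q) → Tri g (L : Set Ω)

/-- [N1] -/
def st_N1 : Prop := ∀ (C 𝕜 Ω : Type) [Field C] [CharZero C] [IsAlgClosed C] [Field 𝕜]
  [IsAlgClosed 𝕜] [Field Ω] [IsAlgClosed Ω] [Algebra C 𝕜] [Algebra 𝕜 Ω] [Algebra C Ω]
  [IsScalarTower C 𝕜 Ω] (F : Set Ω) (E L : IntermediateField C Ω), Inr C 𝕜 F E L →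
  ∀ N : IntermediateField C Ω, E ≤ N → N ≤ L → ∀ z ∈ L, z ∉ N →
    ∃ g : Ω ≃+* Ω, Lin 𝕜 g ∧ Tri g (N : Set Ω) ∧ Sta g (L : Set Ω) ∧ g z ≠ z

/-- [N2] -/
def st_N2 : Prop := ∀ (C 𝕜 Ω : Type) [Field C] [CharZero C] [IsAlgClosed C] [Field 𝕜]
  [IsAlgClosed 𝕜] [Field Ω] [IsAlgClosed Ω] [Algebra C 𝕜] [Algebra 𝕜 Ω] [Algebra C Ω]
  [IsScalarTower C 𝕜 Ω] (F : Set Ω) (E L : IntermediateField C Ω), Inr C 𝕜 F E L →
  ∀ N : IntermediateField C Ω, E ≤ N → N ≤ L →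
    (∀ P Q : ValuationSubring Ω, (∀ β : 𝕜, algebraMap 𝕜 Ω β ∈ P) → (∀ β : 𝕜, algebraMap 𝕜 Ω β ∈ Q) →
      Plc C (N : Set Ω) P → Eqv (N : Set Ω) P Q → ∃ g : Ω ≃+* Ω, Lin 𝕜 g ∧ Tri g (N : Set Ω) ∧
        Sta g (L : Set Ω) ∧ ∀ z, (g z ∈ Q ↔ z ∈ P)) ∧
    ∀ P Q : ValuationSubring Ω, Plc C (L : Set Ω) P → Plc C (L : Set Ω) Q → Eqv (N : Set Ω) P Q →
      ∃ g : Ω ≃+* Ω, Tri g (N : Set Ω) ∧ Sta g (L : Set Ω) ∧ ∀ z ∈ L, (g z ∈ Q ↔ z ∈ P)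

/-- [N3] -/
def st_N3 : Prop := ∀ (C 𝕜 Ω : Type) [Field C] [CharZero C] [IsAlgClosed C] [Field 𝕜]
  [IsAlgClosed 𝕜] [Field Ω] [IsAlgClosed Ω] [Algebra C 𝕜] [Algebra 𝕜 Ω] [Algebra C Ω]
  [IsScalarTower C 𝕜 Ω] (F : Set Ω) (E L : IntermediateField C Ω), Inr C 𝕜 F E L → Nor E L

end SGT
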