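import Pool.Agent.SGT.Defs

/-!
# SGT: statements of the rows W (weights)
-/

set_option autoImplicit false
set_option linter.unusedVariables false

open GT IsLocalRing Polynomial

noncomputable section

namespace SGT

/-- [W1a] The pairing is well-defined. -/
def st_W1a : Prop := ∀ (C Ω : Type) [Field C] [CharZero C] [IsAlgClosed C] [Field Ω] [Algebra C Ω]
  (N : IntermediateField C Ω) (τ : Ω ≃+* Ω) (O₁ : ValuationSubring N) (d : ℕ) [NeZero d]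
  (T : Tab C d) (E : WB T →+* N) [IsDedekindDomain (WB T)], FF C N → Lin C τ →
  Tri τ (N : Set Ω) → IsPl C O₁ → Model O₁ T E →
  ∀ (D : ClassGroup (WB T)) (ζ ζ' : C), PR E τ D ζ → PR E τ D ζ' → ζ = ζ'

/-- [W1b] The pairing is multiplicative. -/
def st_W1b : Prop := ∀ (C Ω : Type) [Field C] [CharZero C] [IsAlgClosed C] [Field Ω] [Algebra C Ω]
  (N : IntermediateField C Ω) (τ : Ω ≃+* Ω) (d : ℕ) [NeZero d]
  (T : Tab C d) (E : WB T →+* N) [IsDedekindDomain (WB T)],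
  ∀ (D D' : ClassGroup (WB T)) (ζ ζ' : C), PR E τ D ζ → PR E τ D' ζ' → PR E τ (D * D') (ζ * ζ')

/-- [W1c] The pairing exists. -/
def st_W1c : Prop := ∀ (C Ω : Type) [Field C] [CharZero C] [IsAlgClosed C] [Field Ω] [IsAlgClosed Ω]
  [Algebra C Ω] (N : IntermediateField C Ω) (τ : Ω ≃+* Ω) (O₁ : ValuationSubring N) (d : ℕ)
  [NeZero d] (T : Tab C d) (E : WB T →+* N) [IsDedekindDomain (WB T)], FF C N → Lin C τ →
  Tri τ (N : Set Ω) → IsPl C O₁ → Model O₁ T E →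
  ∀ (D : ClassGroup (WB T)) (n : ℕ), 0 < n → D ^ n = 1 → ∃ ζ : C, PR E τ D ζ

/-- [W2] The function `E g` of a principal ideal which is an `n`-th power has orders divisible by
`n`. -/
def st_W2 : Prop := ∀ (C N : Type) [Field C] [CharZero C] [IsAlgClosed C] [Field N] [Algebra C N]
  (O₁ : ValuationSubring N) (d : ℕ) [NeZero d] (T : Tab C d) (E : WB T →+* N)
  [IsDedekindDomain (WB T)], FF C N → IsPl C O₁ → Model O₁ T E →
  ∀ (n : ℕ) (J : Ideal (WB T)) (g : WB T), 0 < n → J ≠ ⊥ → J ^ n = Ideal.span {g} →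
  g ≠ 0 ∧ E g ≠ 0 ∧ ∀ O : ValuationSubring N, IsPl C O → (n : ℤ) ∣ od C O (E g)

/-- [W2b] An automorphism which fixes the images of the generators is compatible with `E`. -/
def st_W2b : Prop := ∀ (C Ω : Type) [Field C] [Field Ω] [Algebra C Ω]
  (N : IntermediateField C Ω) (σ : Ω ≃+* Ω) (Ψ : C ≃+* C) (d : ℕ) [NeZero d] (T : Tab C d)
  (E : WB T →+* N) (hT : T.map (Ψ : C →+* C) = T), (∀ c : C, E (algebraMap C (WB T) c) = algebraMap C N c) →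
  (∀ c : C, σ (algebraMap C Ω c) = algebraMap C Ω (Ψ c)) →
  σ ((E (WB.x T) : N) : Ω) = ((E (WB.x T) : N) : Ω) →
  (∀ j, σ ((E (WB.f T j) : N) : Ω) = ((E (WB.f T j) : N) : Ω)) →
  ∀ b : WB T, σ ((E b : N) : Ω) = ((E (bE Ψ hT b) : N) : Ω)

/-- [W1d] The pairing is invariant under `σ`. -/
def st_W1d : Prop := ∀ (C Ω : Type) [Field C] [CharZero C] [IsAlgClosed C] [Field Ω] [IsAlgClosed Ω]
  [Algebra C Ω] (L N : IntermediateField C Ω) (τ σ : Ω ≃+* Ω) (Ψ : C ≃+* C)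
  (O₁ : ValuationSubring N) (d : ℕ) [NeZero d] (T : Tab C d) (E : WB T →+* N)
  [IsDedekindDomain (WB T)] (hT : T.map (Ψ : C →+* C) = T), FF C N → N ≤ L → KC L → Lin C τ →
  Tri τ (N : Set Ω) → IsPl C O₁ → Model O₁ T E →
  (∀ c : C, σ (algebraMap C Ω c) = algebraMap C Ω (Ψ c)) →
  (∀ b : WB T, σ ((E b : N) : Ω) = ((E (bE Ψ hT b) : N) : Ω)) → REL (L : Set Ω) τ σ Ψ →
  ∀ (D : ClassGroup (WB T)) (ζ : C), PR E τ D ζ → PR E τ (SUP.clm (bE Ψ hT) D) ζ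

/-- [W3a] Division by `σ - 1` in the group of `p`-power torsion classes. -/
def st_W3a : Prop := ∀ (C N : Type) [Field C] [CharZero C] [IsAlgClosed C] [Field N] [Algebra C N]
  (O₁ : ValuationSubring N) (d : ℕ) [NeZero d] (T : Tab C d) (E : WB T →+* N)
  [IsDedekindDomain (WB T)], FF C N → IsPl C O₁ → Model O₁ T E →
  ∃ S : Finset C, ∀ (V : ValuationSubring C) (Ψ : C ≃+* C) (Q p : ℕ), (∀ z ∈ S, z ∈ V) → Rk1 V →
    p.Prime → IsUnit (p : V) → 2 ≤ Q → SUP.Stab V Ψ → (∀ z ∈ V, Ψ z - z ^ Q ∈ V.nonunits) →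
    (∀ x : ResidueField V, ∃ m : ℕ, 0 < m ∧ x ^ Q ^ m = x) →
    ∀ (hT : T.map (Ψ : C →+* C) = T) (n : ℕ) (D : ClassGroup (WB T)), D ^ (p ^ n) = 1 →
    ∃ D' : ClassGroup (WB T), (∃ n' : ℕ, D' ^ (p ^ n') = 1) ∧ SUP.clm (bE Ψ hT) D' = D * D'

/-- [W3] Weights: `τ` acts trivially on the roots of the functions with orders divisible by `p`. -/
def st_W3 : Prop := ∀ (C Ω : Type) [Field C] [CharZero C] [IsAlgClosed C] [Field Ω] [IsAlgClosed Ω]
  [Algebra C Ω] (L N : IntermediateField C Ω) (τ : Ω ≃+* Ω), FF C N → N ≤ L → KC L → Lin C τ →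
  Tri τ (N : Set Ω) → Frb L (N : Set Ω) τ →
  ∀ (p : ℕ) (a : N) (ρ : Ω), p.Prime → a ≠ 0 → ρ ^ p = (a : Ω) →
    (∀ O : ValuationSubring N, IsPl C O → (p : ℤ) ∣ od C O a) → τ ρ = ρ

end SGT
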