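import Pool.Agent.SGT.StK

/-!
# SGT: statements of the additional rows X: the case of an unramified cover
-/

set_option autoImplicit false
set_option linter.unusedVariables false

open GT IsLocalRing Polynomial SEC

noncomputable section

namespace SGT

/-- There is an unramified cyclic extension of `E` of degree `ℓ`. -/
def UCv {C Ω : Type} [Field C] [Field Ω] [Algebra C Ω] (E : IntermediateField C Ω) (ℓ : ℕ) : Prop :=
  ∃ b : E, b ≠ 0 ∧ (∀ O : ValuationSubring E, IsPl C O → (ℓ : ℤ) ∣ od C O b) ∧ ∀ z : E, z ^ ℓ ≠ b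

/-- [A12a] If `σ` has at most two fixed places on `E`, an unramified cyclic extension of degree `ℓ` of
`E` exists already over the fixed field `E'`. -/
def st_A12a : Prop := ∀ (C Ω : Type) [Field C] [CharZero C] [IsAlgClosed C] [Field Ω] [Algebra C Ω]
  (E E' : IntermediateField C Ω) (σ : Ω ≃+* Ω) (ℓ : ℕ) (P Q : ValuationSubring Ω), FF C E → Lin C σ →
  (∀ z ∈ E, σ z ∈ E) → ℓ.Prime → (∀ z ∈ E, (σ ^ ℓ) z = z) → (∃ z ∈ E, σ z ≠ z) →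
  (∀ z, z ∈ E' ↔ z ∈ E ∧ σ z = z) → Plc C (E : Set Ω) P → StP σ (E : Set Ω) P →
  Plc C (E : Set Ω) Q → StP σ (E : Set Ω) Q →
  (∀ O : ValuationSubring Ω, Plc C (E : Set Ω) O → StP σ (E : Set Ω) O →
    Eqv (E : Set Ω) O P ∨ Eqv (E : Set Ω) O Q) → UCv E ℓ →
  ∃ b : E', b ≠ 0 ∧ (∀ O : ValuationSubring E', IsPl C O → (ℓ : ℤ) ∣ od C O b) ∧
    ∀ z ∈ E, z ^ ℓ ≠ (b : Ω)

/-- [A12] Two fixed places of `L` above different places of `E`: impossible if there is an unramified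
cyclic extension of `E` of degree `ℓ`. -/
def st_A12 : Prop := ∀ (C Ω : Type) [Field C] [CharZero C] [IsAlgClosed C] [Field Ω] [IsAlgClosed Ω]
  [Algebra C Ω] (L E : IntermediateField C Ω), E ≤ L → FF C E → KC L → Nor E L →
  ∀ (e : Ω ≃+* Ω) (ℓ : ℕ), ℓ.Prime → Lin C e → Sta e (L : Set Ω) → Sta e (E : Set Ω) →
  (∀ z ∈ L, (e ^ ℓ) z = z) → (∃ z ∈ E, e z ≠ z) → UCv E ℓ → ∀ P Q : ValuationSubring Ω,
  Plc C (E : Set Ω) P → Plc C (E : Set Ω) Q → StP e (L : Set Ω) P → StP e (L : Set Ω) Q →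
  ¬ Eqv (E : Set Ω) P Q → False

/-- [A13] Like [A8], with a hypothesis on the fixed places of `L` above different places of `E`. -/
def st_A13 : Prop := ∀ (C Ω : Type) [Field C] [CharZero C] [IsAlgClosed C] [Field Ω] [IsAlgClosed Ω]
  [Algebra C Ω] (F : Set Ω) (L E : IntermediateField C Ω), Lvs F L → F ⊆ E → E ≤ L → FF C E →
  KC L → Nor E L → ∀ (e : Ω ≃+* Ω) (ℓ : ℕ), ℓ.Prime → Lin C e → Gr C F (L : Set Ω) e →
  Sta e (E : Set Ω) → (∀ z ∈ L, (e ^ ℓ) z = z) → (∃ z ∈ E, e z ≠ z) →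
  (∀ P Q : ValuationSubring Ω, Plc C (E : Set Ω) P → Plc C (E : Set Ω) Q → StP e (L : Set Ω) P →
    StP e (L : Set Ω) Q → ¬ Eqv (E : Set Ω) P Q → False) →
  ∃ P : ValuationSubring Ω, Plc C (L : Set Ω) P ∧ StP e (L : Set Ω) P ∧
    (∀ Q : ValuationSubring Ω, Plc C (L : Set Ω) Q → StP e (L : Set Ω) Q → Eqv (L : Set Ω) Q P) ∧
    ∀ g : Ω ≃+* Ω, Tri g (E : Set Ω) → Sta g (L : Set Ω) → (∀ z ∈ L, g (e z) = e (g z)) →
      Tri g (L : Set Ω)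

/-- [R5x] The fixed place of `H` on `L`, second case. -/
def st_R5x : Prop := ∀ (k C 𝕜 Ω : Type) [Field k] [CharZero k] [Field C] [IsAlgClosed C] [Field 𝕜]
  [IsAlgClosed 𝕜] [Field Ω] [IsAlgClosed Ω] [Algebra k C] [Algebra.IsAlgebraic k C] [Algebra C 𝕜]
  [Algebra 𝕜 Ω] [Algebra C Ω] [IsScalarTower C 𝕜 Ω] (F : Subfield Ω) (L E : IntermediateField C Ω)
  (u : 𝕜) (y h : Ω) (m : ℕ) (H : Subgroup (Ω ≃+* Ω)), Stp k C 𝕜 Ω F L E u y h m H → HasPl k →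
  ∀ (ℓ : ℕ), ℓ.Prime → ℓ ∣ m → UCv E ℓ →
  ∃ P : ValuationSubring Ω, Plc C (L : Set Ω) P ∧ (∀ g ∈ H, StP g (L : Set Ω) P) ∧
    ∀ γ : Ω ≃+* Ω, Tri γ (E : Set Ω) → Sta γ (L : Set Ω) →
      (∀ g ∈ H, Lin C g → ∀ z ∈ L, γ (g z) = g (γ z)) → Tri γ (L : Set Ω)

/-- [K7x] The unramified cover in `Ω`. -/
def st_K7x : Prop := ∀ (k K₁ B K K₀ : Type) [Field k] [CharZero k] [Field K₁] [Field B] [Field K]
  [Algebra k K₁] [Algebra k B] [Algebra k K] [Algebra B K] [Algebra K₁ K] [IsScalarTower k B K]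
  [IsScalarTower k K₁ K] [Field K₀] [Algebra k K₀] [Algebra K₁ K₀] [IsScalarTower k K₁ K₀]
  (t : B) (y : K) (h : K₁) (m : ℕ), Tw k K₁ B K t y h m →
  ∀ (w : K₀), w ^ m = algebraMap K₁ K₀ h → IntermediateField.adjoin K₁ {w} = ⊤ →
  ∀ (ℓ : ℕ), ℓ.Prime → GTS.UnrCover k K₀ ℓ →
  ∀ u : kb B K, u ^ m = algebraMap B (kb B K) t → UCv (E0 k K₁ K u y) ℓ

/-- [K11ax] The main theorem for groups of automorphisms, both cases. -/
def st_K11ax : Prop := ∀ (k K₁ B K K₀ : Type) [Field k] [CharZero k] [Field K₁] [Field B] [Field K]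
  [Algebra k K₁] [Algebra k B] [Algebra k K] [Algebra B K] [Algebra K₁ K] [IsScalarTower k B K]
  [IsScalarTower k K₁ K] [Field K₀] [Algebra k K₀] [Algebra K₁ K₀] [IsScalarTower k K₁ K₀]
  (t : B) (y : K) (h : K₁) (m : ℕ), Tw k K₁ B K t y h m → HasPl k →
  ∀ (w : K₀), w ^ m = algebraMap K₁ K₀ h → IntermediateField.adjoin K₁ {w} = ⊤ →
  ∀ (ℓ a : ℕ), ℓ.Prime → ℓ ∣ m → ℓ ^ a ∣ m →
  (3 ≤ (GTS.Branch k K₁ (ℓ ^ a) h).ncard ∨ GTS.UnrCover k K₀ ℓ) →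
  ∀ H : Subgroup (Om K ≃+* Om K), Sec0 B K H → Concl B K H

/-- [K11x] The final theorem. -/
def st_K11x : Prop := ∀ (k K₁ B K K' K₀ : Type) [Field k] [CharZero k] [Field K₁] [Field B]
  [Field K] [Field K'] [Algebra k K₁] [Algebra k B] [Algebra k K] [Algebra B K] [Algebra K₁ K]
  [Algebra B K'] [Algebra K K'] [IsScalarTower B K K'] [IsScalarTower k B K] [IsScalarTower k K₁ K]
  [Field K₀] [Algebra k K₀] [Algebra K₁ K₀] [IsScalarTower k K₁ K₀]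
  (t : B) (y : K) (h : K₁) (m : ℕ), Tw k K₁ B K t y h m → HasPl k →
  ∀ (w : K₀), w ^ m = algebraMap K₁ K₀ h → IntermediateField.adjoin K₁ {w} = ⊤ →
  ∀ (ℓ a : ℕ), ℓ.Prime → ℓ ∣ m → ℓ ^ a ∣ m →
  (3 ≤ (GTS.Branch k K₁ (ℓ ^ a) h).ncard ∨ GTS.UnrCover k K₀ ℓ) →
  ∀ ι : K' →ₐ[K] Om K, (∀ z, ι z ∈ Mnr B K) →
  ∀ s : FSC.SectU B K' Set.univ, s.Geometric ∧ s.F = {1}

end SGT
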